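import Mathlib

open scoped Manifold ContDiff Bundle Topology

noncomputable section

namespace Pool.Agent.Helper12.BoxDim

variable {E : Type*} [NormedAddCommGroup E] [NormedSpace ℝ E] {H : Type*} [TopologicalSpace H]
  (I : ModelWithCorners ℝ E H) {M : Type*} [TopologicalSpace M] [ChartedSpace H M]
  [Bundle.RiemannianBundle (fun x : M => TangentSpace I x)]

/-- The covering number `N_δ(K)`: the least number of sets of diameter at most `δ`, for the
Riemannian distance (infimum of lengths of `C^1` paths), needed to cover `K`. -/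
def coverNum (δ : ℝ) (K : Set M) : ℕ :=
  sInf {n : ℕ | ∃ s : Fin n → Set M,
    (∀ i, ∀ x ∈ s i, ∀ y ∈ s i, Manifold.riemannianEDist I x y ≤ ENNReal.ofReal δ) ∧
      K ⊆ ⋃ i, s i}

/-- The lower box dimension, `liminf_{δ → 0} log N_δ(K) / (-log δ)`. -/
def lowerBoxDim (K : Set M) : EReal :=
  Filter.liminf (fun δ : ℝ => ((Real.log (coverNum I δ K) / (-Real.log δ) : ℝ) : EReal)) (𝓝[>] 0)

/-- The upper box dimension, `limsup_{δ → 0} log N_δ(K) / (-log δ)`. -/
def upperBoxDim (K : Set M) : EReal :=
  Filter.limsup (fun δ : ℝ => ((Real.log (coverNum I δ K) / (-Real.log δ) : ℝ) : EReal)) (𝓝[>] 0)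

/-- `f` is a smooth expanding map: `f` is `C^∞` and there is `c > 1` with
`‖D_x f v‖ ≥ c ‖v‖` for all points `x` and all tangent vectors `v` at `x`. -/
structure IsExpandingMap (f : M → M) : Prop where
  smooth : ContMDiff I I ∞ f
  expands : ∃ c : ℝ, 1 < c ∧ ∀ (x : M) (v : TangentSpace I x), c * ‖v‖ ≤ ‖mfderiv I I f x v‖

/-- `Λ` is an expanding repeller of the smooth expanding map `f`: it is nonempty, compact,
`f(Λ) = Λ`, and `Λ` is the set of points whose forward orbit stays in some open
neighbourhood `U` of `Λ`. -/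
structure IsExpandingRepeller (f : M → M) (Λ : Set M) : Prop where
  expanding : IsExpandingMap I f
  nonempty : Λ.Nonempty
  compact : IsCompact Λ
  image_eq : f '' Λ = Λ
  isolated : ∃ U : Set M, IsOpen U ∧ Λ ⊆ U ∧ Λ = {x | x ∈ U ∧ ∀ n : ℕ, f^[n] x ∈ U}

/-- The inner products on the tangent spaces of `M` depend smoothly (`C^∞`) on the point, that is,
they form a smooth Riemannian metric. -/
def IsSmoothMetric (M : Type*) [TopologicalSpace M] [ChartedSpace H M] [IsManifold I ∞ M]
    [Bundle.RiemannianBundle (fun x : M => TangentSpace I x)] : Prop :=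
  IsContMDiffRiemannianBundle I ∞ E (fun x : M => TangentSpace I x)

/-- There are a closed connected smooth Riemannian manifold `M` modelled on the normed space `E`,
a smooth map `f : M → M` and an expanding repeller `Λ` of `f` whose lower box dimension is
strictly smaller than its upper box dimension. -/
def IrregularRepellerExists (E : Type) [NormedAddCommGroup E] [NormedSpace ℝ E] : Prop :=
  ∃ (M : Type) (_ : TopologicalSpace M) (_ : T2Space M) (_ : SecondCountableTopology M)
    (_ : CompactSpace M) (_ : ConnectedSpace M) (_ : ChartedSpace E M)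
    (_ : IsManifold 𝓘(ℝ, E) ∞ M)
    (_ : Bundle.RiemannianBundle (fun x : M => TangentSpace 𝓘(ℝ, E) x)),
    IsSmoothMetric 𝓘(ℝ, E) M ∧ ∃ (f : M → M) (Λ : Set M),
      IsExpandingRepeller 𝓘(ℝ, E) f Λ ∧ lowerBoxDim 𝓘(ℝ, E) Λ < upperBoxDim 𝓘(ℝ, E) Λ

end Pool.Agent.Helper12.BoxDim
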