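import Mathlib

open scoped Topology
open Set Filter

noncomputable section

namespace Pool.Agent.Helper12.BoxSeries

/-- the digit series `∑ d k / B^(k+1)` -/
def ser (B : ℝ) (d : ℕ → ℝ) : ℝ := ∑' k, d k / B ^ (k + 1)

variable {B : ℝ} {d : ℕ → ℝ} {D : ℝ}

lemma summable_geo (hB : 1 < B) (D : ℝ) : Summable fun k : ℕ => D / B ^ (k + 1) := by
  have h0 : (0 : ℝ) < B := by linarith
  have h : Summable fun k : ℕ => (B⁻¹) ^ k :=
    summable_geometric_of_lt_one (by positivity) (inv_lt_one_of_one_lt₀ hB)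
  have := h.mul_left (D * B⁻¹)
  refine this.congr fun k => ?_
  rw [pow_succ, inv_pow]
  field_simp

lemma tsum_geo (hB : 1 < B) (D : ℝ) : ∑' k : ℕ, D / B ^ (k + 1) = D / (B - 1) := by
  have h0 : (0 : ℝ) < B := by linarith
  have h1 : B - 1 ≠ 0 := by linarith
  have : ∀ k : ℕ, D / B ^ (k + 1) = D * B⁻¹ * (B⁻¹) ^ k := by
    intro k
    rw [pow_succ, inv_pow]
    field_simp
  simp_rw [this]
  rw [tsum_mul_left, tsum_geometric_of_lt_one (by positivity) (inv_lt_one_of_one_lt₀ hB)]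
  have h2 : 1 - B⁻¹ = (B - 1) / B := by field_simp
  rw [h2]
  field_simp

lemma summable_ser (hB : 1 < B) (hd : ∀ k, |d k| ≤ D) : Summable fun k => d k / B ^ (k + 1) := by
  have h0 : (0 : ℝ) < B := by linarith
  refine Summable.of_norm_bounded (summable_geo hB D) fun k => ?_
  rw [Real.norm_eq_abs, abs_div, abs_of_pos (by positivity : (0 : ℝ) < B ^ (k + 1))]
  gcongr
  exact hd k

lemma ser_succ (hB : 1 < B) (hd : ∀ k, |d k| ≤ D) :
    ser B d = (d 0 + ser B (fun k => d (k + 1))) / B := by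
  have h0 : (0 : ℝ) < B := by linarith
  unfold ser
  rw [(summable_ser hB hd).tsum_eq_zero_add, add_div, ← tsum_div_const]
  simp only [zero_add, pow_one]
  congr 1
  refine tsum_congr fun k => ?_
  rw [pow_succ B (k + 1)]
  field_simp

lemma ser_split (hB : 1 < B) (hd : ∀ k, |d k| ≤ D) (n : ℕ) :
    ser B d = ∑ k ∈ Finset.range n, d k / B ^ (k + 1) + ser B (fun k => d (k + n)) / B ^ n := by
  have h0 : (0 : ℝ) < B := by linarith
  unfold ser
  rw [← (summable_ser hB hd).sum_add_tsum_nat_add n, ← tsum_div_const]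
  congr 1
  refine tsum_congr fun k => ?_
  rw [show k + n + 1 = (k + 1) + n by ring, pow_add]
  field_simp

lemma abs_ser_le (hB : 1 < B) (hd : ∀ k, |d k| ≤ D) : |ser B d| ≤ D / (B - 1) := by
  have h0 : (0 : ℝ) < B := by linarith
  rw [← tsum_geo hB D]
  have h1 : ∀ k, ‖d k / B ^ (k + 1)‖ ≤ D / B ^ (k + 1) := by
    intro k
    rw [Real.norm_eq_abs, abs_div, abs_of_pos (by positivity : (0 : ℝ) < B ^ (k + 1))]
    gcongr
    exact hd k
  exact tsum_of_norm_bounded (summable_geo hB D).hasSum h1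

lemma ser_nonneg (hB : 1 < B) (hd : ∀ k, 0 ≤ d k) : 0 ≤ ser B d := by
  have h0 : (0 : ℝ) < B := by linarith
  exact tsum_nonneg fun k => by have := hd k; positivity

lemma ser_le (hB : 1 < B) (hd0 : ∀ k, 0 ≤ d k) (hd : ∀ k, d k ≤ D) : ser B d ≤ D / (B - 1) := by
  refine (le_abs_self _).trans (abs_ser_le hB fun k => ?_)
  rw [abs_of_nonneg (hd0 k)]
  exact hd k

/-- uniqueness of bounded solutions of `z n = (d n + z (n+1)) / B`. -/
lemma ser_unique (hB : 1 < B) (hd : ∀ k, |d k| ≤ D) {z : ℕ → ℝ} {C : ℝ} (hz : ∀ n, |z n| ≤ C)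
    (h : ∀ n, z n = (d n + z (n + 1)) / B) : z 0 = ser B d := by
  have h0 : (0 : ℝ) < B := by linarith
  have key : ∀ n, z 0 = ∑ k ∈ Finset.range n, d k / B ^ (k + 1) + z n / B ^ n := by
    intro n
    induction n with
    | zero => simp
    | succ n ih =>
      rw [ih, Finset.sum_range_succ, h n, pow_succ]
      field_simp
      ring
  have h1 : Tendsto (fun n => ∑ k ∈ Finset.range n, d k / B ^ (k + 1)) atTop (𝓝 (ser B d)) :=
    (summable_ser hB hd).hasSum.tendsto_sum_nat
  have h2 : Tendsto (fun n => z n / B ^ n) atTop (𝓝 0) := by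
    have h3 : Tendsto (fun n : ℕ => C * (B⁻¹) ^ n) atTop (𝓝 (C * 0)) :=
      (tendsto_pow_atTop_nhds_zero_of_lt_one (by positivity) (inv_lt_one_of_one_lt₀ hB)).const_mul C
    rw [mul_zero] at h3
    refine squeeze_zero_norm (fun n => ?_) h3
    rw [Real.norm_eq_abs, abs_div, abs_of_pos (by positivity : (0 : ℝ) < B ^ n), inv_pow,
      ← div_eq_mul_inv]
    gcongr
    exact hz n
  have h4 := h1.add h2
  rw [add_zero] at h4
  have h5 : Tendsto (fun _ : ℕ => z 0) atTop (𝓝 (ser B d)) := by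
    refine h4.congr fun n => (key n).symm
  exact tendsto_nhds_unique tendsto_const_nhds h5

/-- comparison of two digit series -/
lemma abs_ser_sub_le (hB : 1 < B) {d d' : ℕ → ℝ} (hd : ∀ k, |d k| ≤ D) (hd' : ∀ k, |d' k| ≤ D)
    (n : ℕ) (h : ∀ k < n, d k = d' k) (hD : ∀ k, |d k - d' k| ≤ D) :
    |ser B d - ser B d'| ≤ D / (B - 1) / B ^ n := by
  have h0 : (0 : ℝ) < B := by linarith
  have h1 : ser B d - ser B d' = ser B (fun k => d k - d' k) := by
    unfold ser
    rw [← (summable_ser hB hd).tsum_sub (summable_ser hB hd')]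
    refine tsum_congr fun k => ?_
    ring
  rw [h1, ser_split hB hD n]
  have h2 : ∑ k ∈ Finset.range n, (d k - d' k) / B ^ (k + 1) = 0 := by
    refine Finset.sum_eq_zero fun k hk => ?_
    rw [h k (Finset.mem_range.mp hk)]
    simp
  rw [h2, zero_add, abs_div, abs_of_pos (by positivity : (0 : ℝ) < B ^ n)]
  gcongr
  exact abs_ser_le hB fun k => hD (k + n)

lemma continuous_ser {X : Type*} [TopologicalSpace X] (hB : 1 < B) {d : X → ℕ → ℝ}
    (hd : ∀ x k, |d x k| ≤ D) (hc : ∀ k, Continuous fun x => d x k) :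
    Continuous fun x => ser B (d x) := by
  have h0 : (0 : ℝ) < B := by linarith
  unfold ser
  refine continuous_tsum (fun k => (hc k).div_const _) (summable_geo hB D) fun k x => ?_
  rw [Real.norm_eq_abs, abs_div, abs_of_pos (by positivity : (0 : ℝ) < B ^ (k + 1))]
  gcongr
  exact hd x k

end Pool.Agent.Helper12.BoxSeries
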