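import Mathlib

open scoped Topology ContDiff Manifold
open Set Filter

noncomputable section

namespace Pool.Agent.Helper12.BoxSystem

/-- the `N`-adic base in the expanding fibre direction -/
def NN : ℝ := 4096

/-- the digit attached to a symbol -/
def dig (s : Fin 6) : ℝ := 2 * (s : ℕ) + 1

/-- the closed digit interval of a symbol -/
def J (s : Fin 6) : Set ℝ := Icc (dig s / NN) ((dig s + 1) / NN)

lemma dig_nonneg (s : Fin 6) : 1 ≤ dig s := by
  unfold dig; linarith [show (0 : ℝ) ≤ (s : ℕ) by positivity]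

lemma dig_le (s : Fin 6) : dig s ≤ 11 := by
  have : ((s : ℕ) : ℝ) ≤ 5 := by exact_mod_cast Nat.lt_succ_iff.mp s.2
  unfold dig; linarith

lemma J_subset (s : Fin 6) : J s ⊆ Icc 0 (1 / 2) := by
  intro y hy
  have h1 := dig_nonneg s
  have h2 := dig_le s
  unfold J NN at hy
  constructor
  · have := hy.1
    have h3 : 0 ≤ dig s / 4096 := by positivity
    linarith
  · have := hy.2
    have h3 : (dig s + 1) / 4096 ≤ 12 / 4096 := by gcongr; linarith
    linarith

lemma J_disjoint {s s' : Fin 6} (h : s ≠ s') : Disjoint (J s) (J s') := by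
  rw [Set.disjoint_left]
  intro y hy hy'
  unfold J NN at hy hy'
  have h1 := hy.1
  have h2 := hy.2
  have h3 := hy'.1
  have h4 := hy'.2
  rw [div_le_iff₀ (by norm_num)] at h1 h3
  rw [le_div_iff₀ (by norm_num)] at h2 h4
  unfold dig at h1 h2 h3 h4
  apply h
  have h5 : ((s : ℕ) : ℝ) < (s' : ℕ) + 1 := by linarith
  have h6 : ((s' : ℕ) : ℝ) < (s : ℕ) + 1 := by linarith
  have h7 : (s : ℕ) < (s' : ℕ) + 1 := by exact_mod_cast h5
  have h8 : (s' : ℕ) < (s : ℕ) + 1 := by exact_mod_cast h6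
  exact Fin.ext (by omega)

/-- the function `cos (2 π y)` -/
def cs (y : ℝ) : ℝ := Real.cos (2 * Real.pi * y)

lemma cs_injOn : InjOn cs (Icc 0 (1 / 2)) := by
  intro x hx y hy h
  unfold cs at h
  have hp := Real.pi_pos
  have hx1 : 2 * Real.pi * x ∈ Icc 0 Real.pi :=
    ⟨by have := hx.1; positivity, by nlinarith [hx.2]⟩
  have hy1 : 2 * Real.pi * y ∈ Icc 0 Real.pi :=
    ⟨by have := hy.1; positivity, by nlinarith [hy.2]⟩
  have := Real.injOn_cos hx1 hy1 h
  have h2 : 2 * Real.pi ≠ 0 := by positivity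
  exact mul_left_cancel₀ h2 this

lemma exists_bump (s : Fin 6) : ∃ h : ℝ → ℝ, ContDiff ℝ ∞ h ∧ (∀ y ∈ J s, h (cs y) = 1) ∧
    ∀ s', s' ≠ s → ∀ y ∈ J s', h (cs y) = 0 := by
  have hc : Continuous cs := by unfold cs; fun_prop
  have h1 : IsClosed (cs '' J s) := (isCompact_Icc.image hc).isClosed
  have h2 : IsClosed (⋃ s' ∈ {s' : Fin 6 | s' ≠ s}, cs '' J s') := by
    refine Set.Finite.isClosed_biUnion (Set.toFinite _) fun s' _ => ?_
    exact (isCompact_Icc.image hc).isClosed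
  have h3 : Disjoint (⋃ s' ∈ {s' : Fin 6 | s' ≠ s}, cs '' J s') (cs '' J s) := by
    rw [Set.disjoint_left]
    intro u hu hu'
    simp only [mem_iUnion] at hu
    obtain ⟨s', hs', y, hy, rfl⟩ := hu
    obtain ⟨z, hz, hzy⟩ := hu'
    have := cs_injOn (J_subset s hz) (J_subset s' hy) hzy
    subst this
    exact (Set.disjoint_left.mp (J_disjoint hs') hy) hz
  obtain ⟨f, hf0, hf1, _⟩ := exists_contMDiffMap_zero_one_of_isClosed 𝓘(ℝ, ℝ) h2 h1 h3 (n := ⊤)
  refine ⟨f, f.contMDiff.contDiff, ?_, ?_⟩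
  · intro y hy
    exact hf1 ⟨y, hy, rfl⟩
  · intro s' hs' y hy
    exact hf0 (mem_iUnion₂.mpr ⟨s', hs', y, hy, rfl⟩)

lemma exists_raw (c : Fin 6 → ℝ) : ∃ (g : ℝ → ℝ) (B : ℝ), 0 < B ∧ ContDiff ℝ ∞ g ∧
    (∀ (y : ℝ) (k : ℤ), g (y + k) = g y) ∧ (∀ y, |g y| ≤ B) ∧ (∀ y, |deriv g y| ≤ B) ∧
    ∀ s, ∀ y ∈ J s, g y = c s := by
  choose h hh h1 h0 using exists_bump
  let H : ℝ → ℝ := fun u => ∑ s, c s * h s u
  have hH : ContDiff ℝ ∞ H := ContDiff.sum fun s _ => contDiff_const.mul (hh s)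
  have hcs : ContDiff ℝ ∞ cs := by
    unfold cs
    exact Real.contDiff_cos.comp (contDiff_const.mul contDiff_id)
  have hrange : ∀ y, cs y ∈ Icc (-1 : ℝ) 1 := fun y => ⟨Real.neg_one_le_cos _, Real.cos_le_one _⟩
  obtain ⟨B0, hB0⟩ := isCompact_Icc.exists_bound_of_continuousOn (s := Icc (-1 : ℝ) 1)
    hH.continuous.continuousOn
  have hH1 : Continuous (deriv H) := hH.continuous_deriv (by simp)
  obtain ⟨B1, hB1⟩ := isCompact_Icc.exists_bound_of_continuousOn (s := Icc (-1 : ℝ) 1)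
    hH1.continuousOn
  have hdcs : ∀ y, HasDerivAt cs (-(Real.sin (2 * Real.pi * y)) * (2 * Real.pi)) y := by
    intro y
    have h1 : HasDerivAt (fun y : ℝ => 2 * Real.pi * y) (2 * Real.pi * 1) y :=
      (hasDerivAt_id y).const_mul _
    have := (Real.hasDerivAt_cos (2 * Real.pi * y)).comp y h1
    rw [mul_one] at this
    exact this
  have hB1' : 0 ≤ B1 := (norm_nonneg _).trans (hB1 0 (by norm_num))
  have hB0' : 0 ≤ B0 := (norm_nonneg _).trans (hB0 0 (by norm_num))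
  refine ⟨H ∘ cs, B0 + B1 * (2 * Real.pi) + 1, by positivity, hH.comp hcs, ?_, ?_, ?_, ?_⟩
  · intro y k
    simp only [Function.comp_apply]
    congr 1
    unfold cs
    rw [mul_add, show 2 * Real.pi * (k : ℝ) = k * (2 * Real.pi) by ring, Real.cos_add_int_mul_two_pi]
  · intro y
    have := hB0 (cs y) (hrange y)
    rw [Real.norm_eq_abs] at this
    have h2 : 0 ≤ B1 * (2 * Real.pi) := by positivity
    simp only [Function.comp_apply]
    linarith
  · intro y
    have hd : HasDerivAt (H ∘ cs) (deriv H (cs y) * (-(Real.sin (2 * Real.pi * y)) * (2 * Real.pi))) y :=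
      ((hH.differentiable (by simp)) (cs y)).hasDerivAt.comp y (hdcs y)
    rw [hd.deriv, abs_mul, abs_mul, abs_neg]
    have h1 := hB1 (cs y) (hrange y)
    rw [Real.norm_eq_abs] at h1
    have h2 : |Real.sin (2 * Real.pi * y)| ≤ 1 := Real.abs_sin_le_one _
    have h3 : |2 * Real.pi| = 2 * Real.pi := abs_of_pos (by positivity)
    rw [h3]
    have h4 : |deriv H (cs y)| * (|Real.sin (2 * Real.pi * y)| * (2 * Real.pi)) ≤
        B1 * (1 * (2 * Real.pi)) := by
      gcongr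
    linarith
  · intro s y hy
    simp only [Function.comp_apply, H]
    rw [Finset.sum_eq_single s]
    · rw [h1 s y hy, mul_one]
    · intro s' _ hs'
      rw [h0 s' s (Ne.symm hs') y hy, mul_zero]
    · simp

/-- the Liouville number used for the overlapping translations -/
def tt : ℝ := liouvilleNumber 2

/-- the two translation digits: symbols `0,1,2,3` give `p + q t` on the first axis, symbols
`4, 5` give `0, 1` on the second axis. -/
def cc (i : Fin 2) (s : Fin 6) : ℝ :=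
  if i = 0 then (if (s : ℕ) < 4 then (((s : ℕ) % 2 : ℕ) : ℝ) + (((s : ℕ) / 2 : ℕ) : ℝ) * tt else 0)
  else (if (s : ℕ) < 4 then 0 else (((s : ℕ) - 4 : ℕ) : ℝ))

/-- The data defining the skew product. -/
structure Sys where
  G : Fin 2 → ℝ → ℝ
  ε : ℝ
  ε_pos : 0 < ε
  ε_le : ε ≤ 1 / 100
  smooth : ∀ i, ContDiff ℝ ∞ (G i)
  per : ∀ i (y : ℝ) (k : ℤ), G i (y + k) = G i y
  bdd : ∀ i y, |G i y| ≤ 1 / 8
  dbdd : ∀ i y, |deriv (G i) y| ≤ 1 / 2
  val : ∀ i s, ∀ y ∈ J s, G i y = ε * cc i s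

lemma exists_sys : Nonempty Sys := by
  choose g B hB hg hper hb hd hv using fun i : Fin 2 => exists_raw (cc i)
  set B' := B 0 + B 1 with hB'
  have hBi : ∀ i, B i ≤ B' := by
    intro i
    fin_cases i
    · have := hB 1
      simp only [Fin.zero_eta, hB']
      linarith
    · have := hB 0
      simp only [Fin.mk_one, hB']
      linarith
  have hB'pos : 0 < B' := by have := hB 0; have := hB 1; linarith
  set ε := 1 / (100 * (1 + B')) with hε
  have hεpos : 0 < ε := by positivity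
  have hεle : ε ≤ 1 / 100 := by
    rw [hε]
    apply one_div_le_one_div_of_le (by norm_num)
    linarith
  have hεB : ε * B' ≤ 1 / 100 := by
    rw [hε, div_mul_eq_mul_div, div_le_div_iff₀ (by positivity) (by norm_num)]
    nlinarith
  refine ⟨⟨fun i y => ε * g i y, ε, hεpos, hεle, ?_, ?_, ?_, ?_, ?_⟩⟩
  · intro i
    exact contDiff_const.mul (hg i)
  · intro i y k
    simp only [hper]
  · intro i y
    rw [abs_mul, abs_of_pos hεpos]
    have : ε * |g i y| ≤ ε * B' := by gcongr; exact (hb i y).trans (hBi i)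
    linarith
  · intro i y
    have hdi : deriv (fun y => ε * g i y) y = ε * deriv (g i) y := by
      rw [deriv_const_mul]
      exact ((hg i).differentiable (by simp)) y
    rw [hdi, abs_mul, abs_of_pos hεpos]
    have : ε * |deriv (g i) y| ≤ ε * B' := by gcongr; exact (hd i y).trans (hBi i)
    linarith
  · intro i s y hy
    simp only [hv i s y hy]

abbrev E3 := EuclideanSpace ℝ (Fin 3)

/-- coordinate functionals -/
def pj (i : Fin 3) : E3 →L[ℝ] ℝ := EuclideanSpace.proj i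

lemma hpj (i : Fin 3) (u : E3) : pj i u = u i := rfl

variable (S : Sys)

/-- the lift of the expanding map -/
def FF (v : E3) : E3 := !₂[2 * v 0 - S.G 0 (v 2), 2 * v 1 - S.G 1 (v 2), NN * v 2]

lemma FF_contDiff : ContDiff ℝ ∞ (FF S) := by
  unfold FF
  rw [contDiff_euclidean]
  have hp : ∀ i : Fin 3, ContDiff ℝ ∞ (fun v : E3 => v i) := fun i =>
    (pj i).contDiff
  intro i
  fin_cases i
  · exact (contDiff_const.mul (hp 0)).sub ((S.smooth 0).comp (hp 2))
  · exact (contDiff_const.mul (hp 1)).sub ((S.smooth 1).comp (hp 2))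
  · exact contDiff_const.mul (hp 2)

lemma fderiv_FF (v w : E3) : fderiv ℝ (FF S) v w =
    !₂[2 * w 0 - deriv (S.G 0) (v 2) * w 2, 2 * w 1 - deriv (S.G 1) (v 2) * w 2, NN * w 2] := by
  have hF : HasFDerivAt (FF S) (fderiv ℝ (FF S) v) v :=
    (((FF_contDiff S).differentiable (by simp)) v).hasFDerivAt
  have hpd : ∀ i, HasFDerivAt (fun v : E3 => v i) (pj i) v := fun i => (pj i).hasFDerivAt
  have hG : ∀ i, HasFDerivAt (fun v : E3 => S.G i (v 2)) ((deriv (S.G i) (v 2)) • pj 2) v := by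
    intro i
    have h1 : HasDerivAt (S.G i) (deriv (S.G i) (v 2)) (v 2) :=
      (((S.smooth i).differentiable (by simp)) (v 2)).hasDerivAt
    exact h1.comp_hasFDerivAt v (hpd 2)
  have key : ∀ i, ∀ L : E3 →L[ℝ] ℝ, HasFDerivAt (fun v : E3 => FF S v i) L v →
      (fderiv ℝ (FF S) v w) i = L w := by
    intro i L hL
    have h1 : HasFDerivAt (fun v : E3 => FF S v i) ((pj i).comp (fderiv ℝ (FF S) v)) v :=
      (pj i).hasFDerivAt.comp v hF
    rw [hL.unique h1]
    rfl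
  have h0 := key 0 ((2 : ℝ) • pj 0 - (deriv (S.G 0) (v 2)) • pj 2) (((hpd 0).const_mul 2).sub (hG 0))
  have h1 := key 1 ((2 : ℝ) • pj 1 - (deriv (S.G 1) (v 2)) • pj 2) (((hpd 1).const_mul 2).sub (hG 1))
  have h2 := key 2 (NN • pj 2) ((hpd 2).const_mul NN)
  ext i
  fin_cases i
  · simpa [hpj] using h0
  · simpa [hpj] using h1
  · simpa [hpj] using h2

lemma FF_expand (v w : E3) : Real.sqrt 2 * ‖w‖ ≤ ‖fderiv ℝ (FF S) v w‖ := by
  rw [fderiv_FF]
  apply abs_le_of_sq_le_sq' _ (norm_nonneg _) |>.2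
  rw [mul_pow, Real.sq_sqrt (by norm_num)]
  rw [EuclideanSpace.norm_sq_eq, EuclideanSpace.norm_sq_eq]
  simp only [Fin.sum_univ_three, Real.norm_eq_abs, sq_abs]
  have h0 := S.dbdd 0 (v 2)
  have h1 := S.dbdd 1 (v 2)
  set a := deriv (S.G 0) (v 2)
  set b := deriv (S.G 1) (v 2)
  have ha : a ^ 2 ≤ 1 / 4 := by
    rw [← sq_abs]
    nlinarith [abs_nonneg a]
  have hb : b ^ 2 ≤ 1 / 4 := by
    rw [← sq_abs]
    nlinarith [abs_nonneg b]
  simp only [Matrix.cons_val_zero, Matrix.cons_val_one, Matrix.cons_val]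
  unfold NN
  have k0 : 2 * (w 0) ^ 2 - a ^ 2 * (w 2) ^ 2 ≤ (2 * w 0 - a * w 2) ^ 2 := by
    nlinarith [sq_nonneg (w 0 - a * w 2)]
  have k1 : 2 * (w 1) ^ 2 - b ^ 2 * (w 2) ^ 2 ≤ (2 * w 1 - b * w 2) ^ 2 := by
    nlinarith [sq_nonneg (w 1 - b * w 2)]
  have k2 : a ^ 2 * (w 2) ^ 2 ≤ 1 / 4 * (w 2) ^ 2 := by gcongr
  have k3 : b ^ 2 * (w 2) ^ 2 ≤ 1 / 4 * (w 2) ^ 2 := by gcongr
  nlinarith [sq_nonneg (w 2)]

end Pool.Agent.Helper12.BoxSystem
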