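import Mathlib

open scoped Manifold ContDiff Bundle Topology
open Set Filter

noncomputable section

namespace Pool.Agent.Helper12.FlatTorus

set_option linter.unusedSectionVars false

variable {E : Type*} [NormedAddCommGroup E] [InnerProductSpace ℝ E] [FiniteDimensional ℝ E]

/-- Discreteness: nonzero elements of the subgroup have norm at least `r`. -/
def Sep (Γ : AddSubgroup E) : Prop := ∃ r : ℝ, 0 < r ∧ ∀ γ ∈ Γ, ‖γ‖ < r → γ = 0

variable (Γ : AddSubgroup E)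

/-- the quotient projection -/
def pr (v : E) : E ⧸ Γ := (v : E ⧸ Γ)

variable {Γ}

lemma pr_eq_iff {v w : E} : pr Γ v = pr Γ w ↔ w - v ∈ Γ := by
  unfold pr
  rw [QuotientAddGroup.eq, neg_add_eq_sub]

lemma pr_surjective : Function.Surjective (pr Γ) := QuotientAddGroup.mk_surjective

lemma pr_continuous : Continuous (pr Γ) := continuous_quot_mk

lemma pr_isOpenMap : IsOpenMap (pr Γ) := QuotientAddGroup.isOpenMap_coe

lemma isDiscrete_of_sep (h : Sep Γ) : IsDiscrete (Γ : Set E) := by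
  obtain ⟨r, hr, h⟩ := h
  constructor
  have : DiscreteTopology (Γ : Set E) := by
    refine DiscreteTopology.of_forall_le_dist hr ?_
    intro x y hxy
    by_contra hlt
    push Not at hlt
    apply hxy
    have := h ((x : E) - y) (Γ.sub_mem x.2 y.2) (by rwa [← dist_eq_norm])
    exact Subtype.ext (sub_eq_zero.mp this)
  exact this

lemma pr_isCovering (h : Sep Γ) : IsCoveringMap (pr Γ) :=
  (AddSubgroup.isAddQuotientCoveringMap_of_comm Γ (isDiscrete_of_sep h)).isCoveringMap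

lemma pr_isLocalHomeomorph (h : Sep Γ) : IsLocalHomeomorph (pr Γ) :=
  (pr_isCovering h).isLocalHomeomorph

variable [hΓ : Fact (Sep Γ)]

instance instCharted : ChartedSpace E (E ⧸ Γ) :=
  (pr_isLocalHomeomorph hΓ.out).chartedSpace pr_surjective

lemma atlas_pr {e : OpenPartialHomeomorph (E ⧸ Γ) E} (he : e ∈ atlas E (E ⧸ Γ)) {m : E ⧸ Γ}
    (hm : m ∈ e.source) : pr Γ (e m) = m := by
  obtain ⟨q, rfl⟩ := he
  simp only [OpenPartialHomeomorph.trans_toPartialEquiv, PartialEquiv.trans_source] at hm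
  simp only [OpenPartialHomeomorph.coe_trans, Function.comp_apply]
  exact (pr_isLocalHomeomorph hΓ.out).apply_localInverseAt_of_mem hm.1

lemma atlas_symm {e : OpenPartialHomeomorph (E ⧸ Γ) E} (he : e ∈ atlas E (E ⧸ Γ)) (v : E) :
    e.symm v = pr Γ v := by
  obtain ⟨q, rfl⟩ := he
  simp only [OpenPartialHomeomorph.coe_trans_symm, Function.comp_apply]
  rw [IsLocalHomeomorph.localInverseAt_symm]
  rfl

lemma atlas_loc {e : OpenPartialHomeomorph (E ⧸ Γ) E} (he : e ∈ atlas E (E ⧸ Γ)) {v : E}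
    (hv : pr Γ v ∈ e.source) : ∃ γ ∈ Γ, ∀ᶠ v' in 𝓝 v, e (pr Γ v') = v' + γ := by
  obtain ⟨r, hr, hs⟩ := hΓ.out
  have key : ∀ v', pr Γ v' ∈ e.source → e (pr Γ v') - v' ∈ Γ := by
    intro v' hv'
    rw [← pr_eq_iff]
    exact (atlas_pr he hv').symm
  refine ⟨e (pr Γ v) - v, key v hv, ?_⟩
  have hcont : ContinuousAt (fun v' => e (pr Γ v') - v') v := by
    refine ContinuousAt.sub ?_ continuousAt_id
    exact ContinuousAt.comp (e.continuousAt hv) pr_continuous.continuousAt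
  have h1 : ∀ᶠ v' in 𝓝 v, pr Γ v' ∈ e.source :=
    pr_continuous.continuousAt.eventually (e.open_source.mem_nhds hv)
  have h2 : ∀ᶠ v' in 𝓝 v, dist (e (pr Γ v') - v') (e (pr Γ v) - v) < r :=
    hcont.eventually (Metric.ball_mem_nhds _ hr)
  filter_upwards [h1, h2] with v' h1 h2
  have := hs _ (Γ.sub_mem (key v' h1) (key v hv)) (by rwa [dist_eq_norm] at h2)
  have h3 := sub_eq_zero.mp this
  rw [← h3]
  abel

instance instManifold : IsManifold 𝓘(ℝ, E) ∞ (E ⧸ Γ) := by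
  refine isManifold_of_contDiffOn _ _ _ ?_
  intro e e' he he'
  simp only [modelWithCornersSelf_coe, modelWithCornersSelf_coe_symm, Function.id_comp,
    Function.comp_id, range_id, inter_univ, preimage_id]
  intro v hv
  apply ContDiffAt.contDiffWithinAt
  simp only [OpenPartialHomeomorph.trans_toPartialEquiv, PartialEquiv.trans_source,
    OpenPartialHomeomorph.symm_toPartialEquiv, PartialEquiv.symm_source, mem_inter_iff,
    mem_preimage] at hv
  have hv2 : pr Γ v ∈ e'.source := by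
    rw [← atlas_symm he]
    exact hv.2
  obtain ⟨γ, _, h⟩ := atlas_loc he' hv2
  have : (e.symm ≫ₕ e' : E → E) =ᶠ[𝓝 v] fun v' => v' + γ := by
    filter_upwards [h] with v' hv'
    simp only [OpenPartialHomeomorph.coe_trans, Function.comp_apply]
    rw [atlas_symm he, hv']
  exact (contDiffAt_id.add contDiffAt_const).congr_of_eventuallyEq this

lemma coordChange_eq (q q' z : E ⧸ Γ) (h : z ∈ (chartAt E q).source)
    (h' : z ∈ (chartAt E q').source) :
    (tangentBundleCore 𝓘(ℝ, E) (E ⧸ Γ)).coordChange (achart E q) (achart E q') z =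
      ContinuousLinearMap.id ℝ E := by
  rw [tangentBundleCore_coordChange_achart]
  simp only [modelWithCornersSelf_coe, range_id, fderivWithin_univ]
  have hz : pr Γ (chartAt E q z) = z := atlas_pr (chart_mem_atlas E q) h
  obtain ⟨γ, _, hl⟩ := atlas_loc (chart_mem_atlas E q') (v := chartAt E q z) (by rwa [hz])
  have h1 : (extChartAt 𝓘(ℝ, E) q' ∘ (extChartAt 𝓘(ℝ, E) q).symm : E → E)
      =ᶠ[𝓝 (extChartAt 𝓘(ℝ, E) q z)] fun v' => v' + γ := by
    have : (extChartAt 𝓘(ℝ, E) q z : E) = chartAt E q z := by simp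
    rw [this]
    filter_upwards [hl] with v' hv'
    simp only [extChartAt, OpenPartialHomeomorph.extend, modelWithCornersSelf_partialEquiv,
      PartialEquiv.trans_refl, OpenPartialHomeomorph.toFun_eq_coe, Function.comp_apply]
    change chartAt E q' ((chartAt E q).symm v') = _
    rw [atlas_symm (chart_mem_atlas E q), hv']
  rw [h1.fderiv_eq]
  simp

/-- the flat Riemannian metric -/
def metric : Bundle.ContMDiffRiemannianMetric 𝓘(ℝ, E) ∞ E
    (fun x : E ⧸ Γ => TangentSpace 𝓘(ℝ, E) x) where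
  inner x := (innerSL ℝ (E := E) : E →L[ℝ] E →L[ℝ] ℝ)
  symm x v w := real_inner_comm _ _
  pos x v hv := real_inner_self_pos.2 hv
  isVonNBounded x := by
    change Bornology.IsVonNBounded ℝ {v : E | inner ℝ v v < 1}
    have : Metric.ball (0 : E) 1 = {v : E | inner ℝ v v < 1} := by
      ext v
      simp only [Metric.mem_ball, dist_zero_right, norm_eq_sqrt_re_inner (𝕜 := ℝ),
        RCLike.re_to_real, Set.mem_ofPred_eq]
      conv_lhs => rw [show (1 : ℝ) = √1 by simp]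
      rw [Real.sqrt_lt_sqrt_iff]
      exact real_inner_self_nonneg
    rw [← this]
    exact NormedSpace.isVonNBounded_ball ℝ E 1
  contMDiff := by
    intro x
    rw [Bundle.contMDiffAt_section]
    let g : E →L[ℝ] E →L[ℝ] ℝ := innerSL ℝ (E := E)
    have : ContMDiffAt 𝓘(ℝ, E) 𝓘(ℝ, E →L[ℝ] E →L[ℝ] ℝ) ∞
      (fun _ : E ⧸ Γ => g) x := contMDiffAt_const
    refine this.congr_of_eventuallyEq ?_
    filter_upwards [(chartAt E x).open_source.mem_nhds (mem_chart_source E x)] with b hb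
    ext v w
    have h1 := coordChange_eq b x b (mem_chart_source E b) hb
    have h2 := coordChange_eq x b b hb (mem_chart_source E b)
    rw [← TangentBundle.continuousLinearMapAt_trivializationAt_eq_core hb] at h1
    rw [← TangentBundle.symmL_trivializationAt_eq_core hb] at h2
    have hb' : b ∈ (trivializationAt (E →L[ℝ] ℝ)
        (fun x : E ⧸ Γ => TangentSpace 𝓘(ℝ, E) x →L[ℝ] ℝ) x).baseSet := by
      rw [hom_trivializationAt_baseSet]
      exact ⟨hb, mem_univ _⟩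
    simp [hom_trivializationAt_apply, ContinuousLinearMap.inCoordinates,
      Bundle.Trivialization.coe_linearMapAt_of_mem _ hb']
    rw [h2]
    rfl

instance instRiem : Bundle.RiemannianBundle (fun x : E ⧸ Γ => TangentSpace 𝓘(ℝ, E) x) :=
  ⟨(metric (Γ := Γ)).toRiemannianMetric⟩

instance instRiemSmooth : IsContMDiffRiemannianBundle 𝓘(ℝ, E) ∞ E
    (fun x : E ⧸ Γ => TangentSpace 𝓘(ℝ, E) x) := inferInstance

set_option backward.isDefEq.respectTransparency false in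
lemma norm_tangent {x : E ⧸ Γ} (v : TangentSpace 𝓘(ℝ, E) x) : ‖v‖ = ‖(show E from v)‖ := by
  rw [norm_eq_sqrt_real_inner, norm_eq_sqrt_real_inner]

lemma nnnorm_tangent {x : E ⧸ Γ} (v : TangentSpace 𝓘(ℝ, E) x) : ‖v‖₊ = ‖(show E from v)‖₊ := by
  simp [nnnorm, norm_tangent]

lemma enorm_tangent {x : E ⧸ Γ} (v : TangentSpace 𝓘(ℝ, E) x) : ‖v‖ₑ = ‖(show E from v)‖ₑ := by
  simp [enorm, nnnorm_tangent]

lemma hasMFDerivAt_pr (v : E) :
    HasMFDerivAt 𝓘(ℝ, E) 𝓘(ℝ, E) (pr Γ) v (ContinuousLinearMap.id ℝ E) := by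
  refine ⟨pr_continuous.continuousAt, ?_⟩
  obtain ⟨γ, _, hl⟩ := atlas_loc (chart_mem_atlas E (pr Γ v)) (v := v) (mem_chart_source E _)
  have h1 : (writtenInExtChartAt 𝓘(ℝ, E) 𝓘(ℝ, E) v (pr Γ) : E → E)
      =ᶠ[𝓝 v] fun v' => v' + γ := by
    filter_upwards [hl] with v' hv'
    simp only [writtenInExtChartAt, extChartAt, OpenPartialHomeomorph.extend,
      modelWithCornersSelf_partialEquiv, PartialEquiv.trans_refl, Function.comp_apply]
    exact hv'
  simp only [extChartAt_model_space_eq_id, PartialEquiv.refl_coe, id_eq,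
    modelWithCornersSelf_coe, range_id]
  apply HasFDerivAt.hasFDerivWithinAt
  exact HasFDerivAt.congr_of_eventuallyEq ((hasFDerivAt_id v).add_const γ) h1

lemma contMDiff_pr : ContMDiff 𝓘(ℝ, E) 𝓘(ℝ, E) ∞ (pr Γ) := by
  intro v
  rw [contMDiffAt_iff]
  refine ⟨pr_continuous.continuousAt, ?_⟩
  obtain ⟨γ, _, hl⟩ := atlas_loc (chart_mem_atlas E (pr Γ v)) (v := v) (mem_chart_source E _)
  simp only [extChartAt_model_space_eq_id, PartialEquiv.refl_coe, id_eq,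
    modelWithCornersSelf_coe, range_id, contDiffWithinAt_univ, PartialEquiv.refl_symm,
    Function.comp_id]
  refine ContDiffAt.congr_of_eventuallyEq (contDiffAt_id.add (contDiffAt_const (c := γ))) ?_
  filter_upwards [hl] with v' hv'
  simpa [extChartAt, OpenPartialHomeomorph.extend] using hv'

/-- A map of the quotient that lifts to a smooth map is smooth. -/
lemma contMDiff_of_lift {f : E ⧸ Γ → E ⧸ Γ} {F : E → E} (hF : ContDiff ℝ ∞ F)
    (h : ∀ v, f (pr Γ v) = pr Γ (F v)) : ContMDiff 𝓘(ℝ, E) 𝓘(ℝ, E) ∞ f := by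
  intro q
  have h1 : ContMDiffAt 𝓘(ℝ, E) 𝓘(ℝ, E) ∞ (fun m : E ⧸ Γ => pr Γ (F (chartAt E q m))) q := by
    have a : ContMDiffAt 𝓘(ℝ, E) 𝓘(ℝ, E) ∞ (chartAt E q) q :=
      (contMDiffOn_chart (I := 𝓘(ℝ, E))).contMDiffAt
        ((chartAt E q).open_source.mem_nhds (mem_chart_source E q))
    have b : ContMDiff 𝓘(ℝ, E) 𝓘(ℝ, E) ∞ F := hF.contMDiff
    exact (contMDiff_pr.comp b).contMDiffAt.comp q a
  refine h1.congr_of_eventuallyEq ?_
  filter_upwards [(chartAt E q).open_source.mem_nhds (mem_chart_source E q)] with m hm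
  rw [← h, atlas_pr (chart_mem_atlas E q) hm]

lemma mfderiv_of_lift {f : E ⧸ Γ → E ⧸ Γ} {F : E → E} (hF : ContDiff ℝ ∞ F)
    (h : ∀ v, f (pr Γ v) = pr Γ (F v)) (v : E) :
    mfderiv 𝓘(ℝ, E) 𝓘(ℝ, E) f (pr Γ v) = fderiv ℝ F v := by
  have h1 : HasMFDerivAt 𝓘(ℝ, E) 𝓘(ℝ, E) f (pr Γ v) (mfderiv 𝓘(ℝ, E) 𝓘(ℝ, E) f (pr Γ v)) :=
    ((contMDiff_of_lift hF h).mdifferentiable (by simp)).mdifferentiableAt.hasMFDerivAt
  have h2 := h1.comp v (hasMFDerivAt_pr v)
  have h3 : HasMFDerivAt 𝓘(ℝ, E) 𝓘(ℝ, E) F v (fderiv ℝ F v) :=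
    ((hF.differentiable (by simp)) v).hasFDerivAt.hasMFDerivAt
  have h4 := (hasMFDerivAt_pr (Γ := Γ) (F v)).comp v h3
  have h5 : f ∘ pr Γ = pr Γ ∘ F := funext h
  rw [h5] at h2
  have := hasMFDerivAt_unique h2 h4
  exact this

/-- A real function on the quotient that lifts to a smooth function is smooth. -/
lemma contMDiff_of_lift_real {f : E ⧸ Γ → ℝ} {F : E → ℝ} (hF : ContDiff ℝ ∞ F)
    (h : ∀ v, f (pr Γ v) = F v) : ContMDiff 𝓘(ℝ, E) 𝓘(ℝ, ℝ) ∞ f := by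
  intro q
  have h1 : ContMDiffAt 𝓘(ℝ, E) 𝓘(ℝ, ℝ) ∞ (fun m : E ⧸ Γ => F (chartAt E q m)) q := by
    have a : ContMDiffAt 𝓘(ℝ, E) 𝓘(ℝ, E) ∞ (chartAt E q) q :=
      (contMDiffOn_chart (I := 𝓘(ℝ, E))).contMDiffAt
        ((chartAt E q).open_source.mem_nhds (mem_chart_source E q))
    exact hF.contMDiff.contMDiffAt.comp q a
  refine h1.congr_of_eventuallyEq ?_
  filter_upwards [(chartAt E q).open_source.mem_nhds (mem_chart_source E q)] with m hm
  rw [← h, atlas_pr (chart_mem_atlas E q) hm]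

lemma mfderiv_of_lift_real {f : E ⧸ Γ → ℝ} {F : E → ℝ} (hF : ContDiff ℝ ∞ F)
    (h : ∀ v, f (pr Γ v) = F v) (v : E) :
    mfderiv 𝓘(ℝ, E) 𝓘(ℝ, ℝ) f (pr Γ v) = fderiv ℝ F v := by
  have h1 : HasMFDerivAt 𝓘(ℝ, E) 𝓘(ℝ, ℝ) f (pr Γ v) (mfderiv 𝓘(ℝ, E) 𝓘(ℝ, ℝ) f (pr Γ v)) :=
    ((contMDiff_of_lift_real hF h).mdifferentiable (by simp)).mdifferentiableAt.hasMFDerivAt
  have h2 := h1.comp v (hasMFDerivAt_pr v)
  have h3 : HasMFDerivAt 𝓘(ℝ, E) 𝓘(ℝ, ℝ) F v (fderiv ℝ F v) :=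
    ((hF.differentiable (by simp)) v).hasFDerivAt.hasMFDerivAt
  have h5 : f ∘ pr Γ = F := funext h
  rw [h5] at h2
  have := hasMFDerivAt_unique h2 h3
  exact this

open MeasureTheory Manifold in
lemma edist_le_riemannianEDist {s : E ⧸ Γ → ℝ} {S : E → ℝ} (hS : ContDiff ℝ ∞ S)
    (h : ∀ v, s (pr Γ v) = S v) (hb : ∀ v, ‖fderiv ℝ S v‖ ≤ 1) (x y : E ⧸ Γ) :
    edist (s x) (s y) ≤ riemannianEDist 𝓘(ℝ, E) x y := by
  refine le_of_forall_gt fun r hr => ?_
  obtain ⟨γ, h0, h1, hγ, hlen⟩ := exists_lt_of_riemannianEDist_lt hr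
  refine lt_of_le_of_lt ?_ hlen
  have hs := contMDiff_of_lift_real hS h
  have D : ContDiffOn ℝ 1 (s ∘ γ) (Icc 0 1) := by
    rw [← contMDiffOn_iff_contDiffOn]
    exact (hs.of_le (by simp)).comp_contMDiffOn hγ
  rw [pathELength_eq_lintegral_mfderivWithin_Icc, edist_comm, edist_eq_enorm_sub, ← h0, ← h1]
  refine (enorm_sub_le_lintegral_derivWithin_Icc_of_contDiffOn_Icc D zero_le_one).trans ?_
  refine setLIntegral_mono' measurableSet_Icc fun t ht => ?_
  have hc : mfderivWithin 𝓘(ℝ, ℝ) 𝓘(ℝ, ℝ) (s ∘ γ) (Icc 0 1) t =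
      (mfderiv 𝓘(ℝ, E) 𝓘(ℝ, ℝ) s (γ t)) ∘L (mfderivWithin 𝓘(ℝ, ℝ) 𝓘(ℝ, E) γ (Icc 0 1) t) := by
    apply mfderiv_comp_mfderivWithin
    · exact (hs.mdifferentiable (by simp)).mdifferentiableAt
    · exact (hγ.mdifferentiableOn one_ne_zero) _ ht
    · rw [uniqueMDiffWithinAt_iff_uniqueDiffWithinAt]
      exact uniqueDiffOn_Icc zero_lt_one _ ht
  have hd : derivWithin (s ∘ γ) (Icc 0 1) t =
      (mfderiv 𝓘(ℝ, E) 𝓘(ℝ, ℝ) s (γ t)) (mfderivWithin 𝓘(ℝ, ℝ) 𝓘(ℝ, E) γ (Icc 0 1) t 1) := by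
    rw [← fderivWithin_derivWithin, ← mfderivWithin_eq_fderivWithin, hc]
    rfl
  rw [hd]
  obtain ⟨v, hv⟩ := pr_surjective (γ t)
  set w := mfderivWithin 𝓘(ℝ, ℝ) 𝓘(ℝ, E) γ (Icc 0 1) t 1
  have e1 : mfderiv 𝓘(ℝ, E) 𝓘(ℝ, ℝ) s (γ t) = fderiv ℝ S v := by
    rw [← hv]
    exact mfderiv_of_lift_real hS h v
  rw [enorm_tangent]
  have e2 : (mfderiv 𝓘(ℝ, E) 𝓘(ℝ, ℝ) s (γ t)) w = fderiv ℝ S v (show E from w) := by
    rw [e1]
    rfl
  rw [e2]
  have e3 : ‖fderiv ℝ S v (show E from w)‖ ≤ ‖(show E from w)‖ := by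
    refine ((fderiv ℝ S v).le_opNorm _).trans ?_
    exact mul_le_of_le_one_left (norm_nonneg _) (hb v)
  simpa [enorm_le_iff_norm_le] using e3

open MeasureTheory Manifold in
lemma riemannianEDist_le_edist (v w : E) :
    riemannianEDist 𝓘(ℝ, E) (pr Γ v) (pr Γ w) ≤ edist v w := by
  let L : ℝ →ᴬ[ℝ] E := ContinuousAffineMap.lineMap v w
  have hL : ContDiff ℝ ∞ L := L.contDiff
  have : riemannianEDist 𝓘(ℝ, E) (pr Γ v) (pr Γ w) ≤ pathELength 𝓘(ℝ, E) (pr Γ ∘ L) 0 1 := by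
    apply riemannianEDist_le_pathELength ?_ (by simp [L, ContinuousAffineMap.coe_lineMap_eq])
      (by simp [L, ContinuousAffineMap.coe_lineMap_eq]) zero_le_one
    exact ((contMDiff_pr.comp hL.contMDiff).of_le (by simp)).contMDiffOn
  refine this.trans ?_
  rw [pathELength_eq_lintegral_mfderiv_Icc]
  have h1 : ∀ t : ℝ, mfderiv 𝓘(ℝ, ℝ) 𝓘(ℝ, E) (pr Γ ∘ L) t 1 = (w - v : E) := by
    intro t
    have h3 : HasMFDerivAt 𝓘(ℝ, ℝ) 𝓘(ℝ, E) L t (fderiv ℝ L t) :=
      ((hL.differentiable (by simp)) t).hasFDerivAt.hasMFDerivAt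
    have h4 := (hasMFDerivAt_pr (Γ := Γ) (L t)).comp t h3
    rw [h4.mfderiv]
    change (fderiv ℝ L t) 1 = _
    simp [L]
  simp only [h1, enorm_tangent]
  simp [edist_comm v w, edist_eq_enorm_sub]

end Pool.Agent.Helper12.FlatTorus
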