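import Mathlib
import Pool.Agent.Helper12.FlatTorus
import Pool.Agent.Helper12.BoxSeries
import Pool.Agent.Helper12.BoxSystem

open scoped Topology ContDiff Manifold Bundle
open Set Filter
open Pool.Agent.Helper12.FlatTorus Pool.Agent.Helper12.BoxSeries

noncomputable section

namespace Pool.Agent.Helper12.BoxSystem

/-- the integer lattice -/
def Z3 : AddSubgroup E3 where
  carrier := {v | ∀ i, ∃ k : ℤ, v i = k}
  add_mem' := by
    intro a b ha hb i
    obtain ⟨k, hk⟩ := ha i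
    obtain ⟨l, hl⟩ := hb i
    exact ⟨k + l, by simp [hk, hl]⟩
  zero_mem' := fun i => ⟨0, by simp⟩
  neg_mem' := by
    intro a ha i
    obtain ⟨k, hk⟩ := ha i
    exact ⟨-k, by simp [hk]⟩

lemma mem_Z3 {v : E3} : v ∈ Z3 ↔ ∀ i, ∃ k : ℤ, v i = k := Iff.rfl

lemma abs_coord_le (v : E3) (i : Fin 3) : |v i| ≤ ‖v‖ := by
  have := EuclideanSpace.norm_sq_eq (𝕜 := ℝ) v
  have h1 : |v i| ^ 2 ≤ ‖v‖ ^ 2 := by
    rw [this]
    have := Finset.single_le_sum (f := fun j => ‖v j‖ ^ 2) (fun j _ => by positivity)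
      (Finset.mem_univ i)
    simpa using this
  exact abs_le_of_sq_le_sq' h1 (norm_nonneg _) |>.2 |> fun h => by simpa using h

lemma norm_le_coords (v : E3) : ‖v‖ ≤ |v 0| + |v 1| + |v 2| := by
  have := EuclideanSpace.norm_sq_eq (𝕜 := ℝ) v
  apply abs_le_of_sq_le_sq' _ (by positivity) |>.2
  rw [this]
  simp only [Fin.sum_univ_three, Real.norm_eq_abs]
  nlinarith [abs_nonneg (v 0), abs_nonneg (v 1), abs_nonneg (v 2),
    mul_nonneg (abs_nonneg (v 0)) (abs_nonneg (v 1)),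
    mul_nonneg (abs_nonneg (v 0)) (abs_nonneg (v 2)),
    mul_nonneg (abs_nonneg (v 1)) (abs_nonneg (v 2))]

lemma sep_Z3 : Sep Z3 := by
  refine ⟨1, one_pos, fun γ hγ hlt => ?_⟩
  ext i
  obtain ⟨k, hk⟩ := hγ i
  have h1 : |γ i| < 1 := (abs_coord_le γ i).trans_lt hlt
  rw [hk] at h1 ⊢
  have h2 : |k| < 1 := by
    have h3 : ((|k| : ℤ) : ℝ) < ((1 : ℤ) : ℝ) := by
      rw [Int.cast_abs, Int.cast_one]
      exact h1
    exact Int.cast_lt.mp h3
  rw [Int.abs_lt_one_iff] at h2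
  simp [h2]

instance : Fact (Sep Z3) := ⟨sep_Z3⟩

/-- the flat three-torus -/
abbrev T3 := E3 ⧸ Z3

instance : IsClosed (Z3 : Set E3) := by
  have : IsDiscrete (Z3 : Set E3) := isDiscrete_of_sep sep_Z3
  have h : DiscreteTopology Z3 := this.to_subtype
  exact AddSubgroup.isClosed_of_discrete

instance : T2Space T3 := inferInstance

instance : SecondCountableTopology T3 := inferInstance

lemma exists_frac (v : E3) : ∃ w : E3, pr Z3 w = pr Z3 v ∧ ∀ i, w i ∈ Icc (0 : ℝ) 1 := by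
  refine ⟨!₂[Int.fract (v 0), Int.fract (v 1), Int.fract (v 2)], ?_, ?_⟩
  · rw [pr_eq_iff]
    intro i
    refine ⟨⌊v i⌋, ?_⟩
    have h : ∀ x : ℝ, x - Int.fract x = ⌊x⌋ := fun x => by
      have := Int.floor_add_fract x
      linarith
    fin_cases i
    · exact h _
    · exact h _
    · exact h _
  · intro i
    have h : ∀ x : ℝ, Int.fract x ∈ Icc (0 : ℝ) 1 := fun x =>
      ⟨Int.fract_nonneg x, (Int.fract_lt_one x).le⟩
    fin_cases i
    · exact h _
    · exact h _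
    · exact h _

instance : CompactSpace T3 := by
  constructor
  have h1 : IsCompact {w : E3 | ∀ i, w i ∈ Icc (0 : ℝ) 1} := by
    apply Metric.isCompact_of_isClosed_isBounded
    · rw [show {w : E3 | ∀ i, w i ∈ Icc (0 : ℝ) 1} = ⋂ i, (fun w : E3 => w i) ⁻¹' Icc 0 1 by
        ext; simp]
      exact isClosed_iInter fun i => isClosed_Icc.preimage (pj i).continuous
    · rw [isBounded_iff_forall_norm_le]
      refine ⟨3, fun w hw => ?_⟩
      refine (norm_le_coords w).trans ?_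
      have h : ∀ i, |w i| ≤ 1 := fun i => by
        rw [abs_of_nonneg (hw i).1]
        exact (hw i).2
      linarith [h 0, h 1, h 2]
  have h2 := h1.image (pr_continuous (Γ := Z3))
  convert h2
  symm
  rw [eq_univ_iff_forall]
  intro m
  obtain ⟨v, rfl⟩ := pr_surjective m
  obtain ⟨w, hw, hw2⟩ := exists_frac v
  exact ⟨w, hw2, hw⟩

instance : ConnectedSpace T3 := by
  have : Function.Surjective (pr Z3) := pr_surjective
  exact this.connectedSpace pr_continuous

variable (S : Sys)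

lemma FF_lattice {v w : E3} (h : w - v ∈ Z3) : FF S w - FF S v ∈ Z3 := by
  intro i
  obtain ⟨k2, hk2⟩ := h 2
  have e2 : w 2 = v 2 + (k2 : ℝ) := by
    have : w 2 - v 2 = k2 := hk2
    linarith
  have hG : ∀ j, S.G j (w 2) = S.G j (v 2) := fun j => by rw [e2, S.per]
  fin_cases i
  · obtain ⟨k, hk⟩ := h 0
    refine ⟨2 * k, ?_⟩
    have : w 0 - v 0 = k := hk
    simp only [FF, Fin.zero_eta, PiLp.sub_apply, hG]
    push_cast
    rw [← this]
    simp
    ring
  · obtain ⟨k, hk⟩ := h 1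
    refine ⟨2 * k, ?_⟩
    have : w 1 - v 1 = k := hk
    simp only [FF, Fin.mk_one, PiLp.sub_apply, hG]
    push_cast
    rw [← this]
    simp
    ring
  · refine ⟨4096 * k2, ?_⟩
    simp only [FF, Fin.reduceFinMk, PiLp.sub_apply]
    push_cast
    simp [NN, e2]
    ring

/-- the expanding map of the torus -/
def fT (m : T3) : T3 := pr Z3 (FF S (Function.surjInv pr_surjective m))

lemma fT_pr (v : E3) : fT S (pr Z3 v) = pr Z3 (FF S v) := by
  unfold fT
  rw [pr_eq_iff]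
  apply FF_lattice
  rw [← pr_eq_iff]
  exact Function.surjInv_eq pr_surjective _

lemma fT_smooth : ContMDiff 𝓘(ℝ, E3) 𝓘(ℝ, E3) ∞ (fT S) :=
  contMDiff_of_lift (FF_contDiff S) (fT_pr S)

lemma fT_expand (x : T3) (v : TangentSpace 𝓘(ℝ, E3) x) :
    Real.sqrt 2 * ‖v‖ ≤ ‖mfderiv 𝓘(ℝ, E3) 𝓘(ℝ, E3) (fT S) x v‖ := by
  obtain ⟨u, rfl⟩ := pr_surjective x
  rw [norm_tangent, norm_tangent, mfderiv_of_lift (FF_contDiff S) (fT_pr S)]
  exact FF_expand S u v

end Pool.Agent.Helper12.BoxSystem
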