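import Mathlib
import Pool.Agent.Helper12.BoxTorus

open scoped Topology ContDiff Manifold Bundle
open Set Filter
open Pool.Agent.Helper12.FlatTorus Pool.Agent.Helper12.BoxSeries

noncomputable section

namespace Pool.Agent.Helper12.BoxSystem

/-- symbol sequences: once a symbol of the second class (`4` or `5`) appears, all later symbols are
of the second class. -/
def Sym : Set (ℕ → Fin 6) := {σ | ∀ k, 4 ≤ (σ k : ℕ) → 4 ≤ (σ (k + 1) : ℕ)}

def shift (σ : ℕ → Fin 6) : ℕ → Fin 6 := fun k => σ (k + 1)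

variable (S : Sys)

/-- coding map -/
def Phi (σ : ℕ → Fin 6) : E3 :=
  !₂[ser 2 (fun k => S.ε * cc 0 (σ k)), ser 2 (fun k => S.ε * cc 1 (σ k)),
    ser NN (fun k => dig (σ k))]

/-- the repeller -/
def Lam : Set T3 := (fun σ => pr Z3 (Phi S σ)) '' Sym

lemma tt_pos : 0 < tt := by
  unfold tt liouvilleNumber
  have h1 : Summable fun i : ℕ => 1 / (2 : ℝ) ^ (i.factorial) :=
    LiouvilleNumber.summable (by norm_num)
  exact h1.tsum_pos (fun i => by positivity) 0 (by positivity)

lemma tt_le : tt ≤ 2 := by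
  unfold tt liouvilleNumber
  have h1 : Summable fun i : ℕ => 1 / (2 : ℝ) ^ (i.factorial) :=
    LiouvilleNumber.summable (by norm_num)
  have h2 : ∀ i : ℕ, 1 / (2 : ℝ) ^ (i.factorial) ≤ 1 / (2 : ℝ) ^ i := by
    intro i
    gcongr
    · norm_num
    · exact Nat.self_le_factorial i
  have h3 : Summable fun i : ℕ => 1 / (2 : ℝ) ^ i := by
    simpa using summable_geometric_two
  have h4 := h1.tsum_le_tsum h2 h3
  have h5 : ∑' i : ℕ, 1 / (2 : ℝ) ^ i = 2 := by
    simpa using tsum_geometric_two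
  linarith

lemma cc_nonneg (i : Fin 2) (s : Fin 6) : 0 ≤ cc i s := by
  have := tt_pos
  unfold cc
  split_ifs <;> positivity

lemma cc_le (i : Fin 2) (s : Fin 6) : cc i s ≤ 3 := by
  have h1 := tt_le
  have h2 := tt_pos
  unfold cc
  fin_cases i <;> fin_cases s <;> norm_num <;> linarith

lemma NN_gt : (1 : ℝ) < NN := by unfold NN; norm_num

lemma abs_dig_le (s : Fin 6) : |dig s| ≤ 11 := by
  rw [abs_of_nonneg (by linarith [dig_nonneg s])]
  exact dig_le s

lemma abs_cc_le (i : Fin 2) (s : Fin 6) : |S.ε * cc i s| ≤ 3 * S.ε := by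
  have := S.ε_pos
  rw [abs_mul, abs_of_pos S.ε_pos, abs_of_nonneg (cc_nonneg i s)]
  nlinarith [cc_le i s]

lemma Phi_zero (σ : ℕ → Fin 6) : Phi S σ 0 = ser 2 (fun k => S.ε * cc 0 (σ k)) := rfl
lemma Phi_one (σ : ℕ → Fin 6) : Phi S σ 1 = ser 2 (fun k => S.ε * cc 1 (σ k)) := rfl
lemma Phi_two (σ : ℕ → Fin 6) : Phi S σ 2 = ser NN (fun k => dig (σ k)) := rfl

lemma serc_abs (i : Fin 2) (σ : ℕ → Fin 6) : |ser 2 (fun k => S.ε * cc i (σ k))| ≤ 3 / 100 := by
  have h1 := abs_ser_le (B := 2) (by norm_num) (fun k => abs_cc_le S i (σ k))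
  have := S.ε_le
  linarith

lemma serd_bounds (σ : ℕ → Fin 6) : 0 ≤ ser NN (fun k => dig (σ k)) ∧
    ser NN (fun k => dig (σ k)) ≤ 11 / 4095 := by
  constructor
  · exact ser_nonneg NN_gt fun k => by linarith [dig_nonneg (σ k)]
  · have := ser_le NN_gt (fun k => by linarith [dig_nonneg (σ k)]) (fun k => dig_le (σ k))
    refine this.trans_eq ?_
    unfold NN
    norm_num

lemma serd_succ (σ : ℕ → Fin 6) : ser NN (fun k => dig (σ k)) =
    (dig (σ 0) + ser NN (fun k => dig (shift σ k))) / NN :=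
  ser_succ NN_gt fun k => abs_dig_le (σ k)

lemma serc_succ (i : Fin 2) (σ : ℕ → Fin 6) : ser 2 (fun k => S.ε * cc i (σ k)) =
    (S.ε * cc i (σ 0) + ser 2 (fun k => S.ε * cc i (shift σ k))) / 2 :=
  ser_succ (by norm_num) fun k => abs_cc_le S i (σ k)

lemma serd_mem_J (σ : ℕ → Fin 6) : ser NN (fun k => dig (σ k)) ∈ J (σ 0) := by
  rw [serd_succ]
  have h := serd_bounds (shift σ)
  have hN := NN_gt
  constructor
  · gcongr
    linarith
  · gcongr
    linarith

lemma FF_Phi (σ : ℕ → Fin 6) : pr Z3 (FF S (Phi S σ)) = pr Z3 (Phi S (shift σ)) := by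
  rw [pr_eq_iff]
  have hJ := serd_mem_J σ
  have hN := NN_gt
  intro i
  fin_cases i
  · refine ⟨0, ?_⟩
    simp only [FF, Fin.zero_eta, PiLp.sub_apply]
    rw [Phi_zero, Phi_two, S.val 0 (σ 0) _ hJ, Phi_zero, serc_succ S 0 σ]
    simp
    ring
  · refine ⟨0, ?_⟩
    simp only [FF, Fin.mk_one, PiLp.sub_apply]
    rw [Phi_one, Phi_two, S.val 1 (σ 0) _ hJ, Phi_one, serc_succ S 1 σ]
    simp
    ring
  · refine ⟨-(2 * (σ 0 : ℕ) + 1), ?_⟩
    simp only [FF, Fin.reduceFinMk, PiLp.sub_apply]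
    rw [Phi_two, Phi_two, serd_succ σ]
    simp only [Matrix.cons_val]
    unfold dig
    push_cast
    field_simp
    ring

lemma fT_Phi (σ : ℕ → Fin 6) : fT S (pr Z3 (Phi S σ)) = pr Z3 (Phi S (shift σ)) := by
  rw [fT_pr, FF_Phi]

lemma shift_mem {σ : ℕ → Fin 6} (h : σ ∈ Sym) : shift σ ∈ Sym := fun k hk => h (k + 1) hk

lemma isClosed_Sym : IsClosed Sym := by
  have : Sym = ⋂ k : ℕ, {σ : ℕ → Fin 6 | 4 ≤ (σ k : ℕ) → 4 ≤ (σ (k + 1) : ℕ)} := by
    ext σ
    simp [Sym]
  rw [this]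
  refine isClosed_iInter fun k => ?_
  have hc : Continuous fun σ : ℕ → Fin 6 => (σ k, σ (k + 1)) := by fun_prop
  have : {σ : ℕ → Fin 6 | 4 ≤ (σ k : ℕ) → 4 ≤ (σ (k + 1) : ℕ)} =
      (fun σ : ℕ → Fin 6 => (σ k, σ (k + 1))) ⁻¹' {p | 4 ≤ (p.1 : ℕ) → 4 ≤ (p.2 : ℕ)} := rfl
  rw [this]
  exact (isClosed_discrete _).preimage hc

lemma continuous_Phi : Continuous (Phi S) := by
  have h0 : ∀ i, Continuous fun σ : ℕ → Fin 6 => ser 2 (fun k => S.ε * cc i (σ k)) := fun i =>
    continuous_ser (by norm_num) (fun σ k => abs_cc_le S i (σ k)) fun k =>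
      (continuous_of_discreteTopology (f := fun s : Fin 6 => S.ε * cc i s)).comp (continuous_apply k)
  have h1 : Continuous fun σ : ℕ → Fin 6 => ser NN (fun k => dig (σ k)) :=
    continuous_ser NN_gt (fun σ k => abs_dig_le (σ k)) fun k =>
      (continuous_of_discreteTopology (f := fun s : Fin 6 => dig s)).comp (continuous_apply k)
  refine (PiLp.continuous_toLp 2 _).comp (continuous_pi fun i => ?_)
  fin_cases i
  · exact h0 0
  · exact h0 1
  · exact h1

lemma isCompact_Lam : IsCompact (Lam S) :=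
  (isClosed_Sym.isCompact).image (pr_continuous.comp (continuous_Phi S))

lemma Lam_nonempty : (Lam S).Nonempty := ⟨_, fun _ => 0, fun k hk => by simp at hk, rfl⟩

lemma image_Lam : fT S '' Lam S = Lam S := by
  apply Subset.antisymm
  · rintro _ ⟨_, ⟨σ, hσ, rfl⟩, rfl⟩
    exact ⟨shift σ, shift_mem hσ, (fT_Phi S σ).symm⟩
  · rintro _ ⟨σ, hσ, rfl⟩
    refine ⟨pr Z3 (Phi S (fun k => σ (k - 1))), ⟨_, ?_, rfl⟩, ?_⟩
    · intro k hk
      cases k with
      | zero => exact hk
      | succ k => exact hσ k hk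
    · rw [fT_Phi]
      rfl

/-- the lifted isolating neighbourhood -/
def WW : Set E3 := {v | |v 0| < 1 / 8 ∧ |v 1| < 1 / 8 ∧
  ∃ s s' : Fin 6, (4 ≤ (s : ℕ) → 4 ≤ (s' : ℕ)) ∧
    v 2 ∈ Ioo ((dig s + dig s' / NN) / NN - 1 / (4 * NN ^ 2))
      ((dig s + (dig s' + 1) / NN) / NN + 1 / (4 * NN ^ 2))}

lemma isOpen_WW : IsOpen WW := by
  have h0 : Continuous fun v : E3 => v 0 := (pj 0).continuous
  have h1 : Continuous fun v : E3 => v 1 := (pj 1).continuous
  have h2 : Continuous fun v : E3 => v 2 := (pj 2).continuous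
  have e : WW = {v : E3 | |v 0| < 1 / 8} ∩ ({v : E3 | |v 1| < 1 / 8} ∩
      ⋃ (s : Fin 6) (s' : Fin 6) (_ : 4 ≤ (s : ℕ) → 4 ≤ (s' : ℕ)), (fun v : E3 => v 2) ⁻¹'
        Ioo ((dig s + dig s' / NN) / NN - 1 / (4 * NN ^ 2))
      ((dig s + (dig s' + 1) / NN) / NN + 1 / (4 * NN ^ 2))) := by
    ext v
    simp only [WW, mem_ofPred_eq, mem_inter_iff, mem_iUnion, mem_preimage, exists_prop]
  rw [e]
  refine (isOpen_lt h0.abs continuous_const).inter ((isOpen_lt h1.abs continuous_const).inter ?_)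
  exact isOpen_iUnion fun s => isOpen_iUnion fun s' => isOpen_iUnion fun _ =>
    isOpen_Ioo.preimage h2

lemma Phi_mem_WW {σ : ℕ → Fin 6} (hσ : σ ∈ Sym) : Phi S σ ∈ WW := by
  refine ⟨?_, ?_, σ 0, σ 1, hσ 0, ?_⟩
  · rw [Phi_zero]
    have := serc_abs S 0 σ
    linarith
  · rw [Phi_one]
    have := serc_abs S 1 σ
    linarith
  · rw [Phi_two, serd_succ]
    have h := serd_mem_J (shift σ)
    have hN := NN_gt
    have h1 := h.1
    have h2 := h.2
    have e : shift σ 0 = σ 1 := rfl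
    rw [e] at h1 h2
    have hp : 0 < 1 / (4 * NN ^ 2) := by positivity
    constructor
    · have : (dig (σ 0) + dig (σ 1) / NN) / NN ≤
          (dig (σ 0) + ser NN (fun k => dig (shift σ k))) / NN := by gcongr
      linarith
    · have : (dig (σ 0) + ser NN (fun k => dig (shift σ k))) / NN ≤
          (dig (σ 0) + (dig (σ 1) + 1) / NN) / NN := by gcongr
      linarith

/-- the isolating neighbourhood -/
def UU : Set T3 := pr Z3 '' WW

lemma isOpen_UU : IsOpen UU := pr_isOpenMap _ isOpen_WW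

lemma Lam_subset_UU : Lam S ⊆ UU := by
  rintro _ ⟨σ, hσ, rfl⟩
  exact ⟨_, Phi_mem_WW S hσ, rfl⟩

lemma iterate_Lam {q : T3} (hq : q ∈ Lam S) (n : ℕ) : (fT S)^[n] q ∈ Lam S := by
  induction n with
  | zero => exact hq
  | succ n ih =>
    rw [Function.iterate_succ_apply']
    rw [← image_Lam]
    exact ⟨_, ih, rfl⟩

lemma int_zero_of_abs_lt {k : ℤ} (h : |(k : ℝ)| < 1) : k = 0 := by
  have h3 : ((|k| : ℤ) : ℝ) < ((1 : ℤ) : ℝ) := by
    rw [Int.cast_abs, Int.cast_one]
    exact h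
  exact Int.abs_lt_one_iff.mp (Int.cast_lt.mp h3)

/-- the key isolation statement -/
lemma maximal_invariant {q : T3} (hq : ∀ n, (fT S)^[n] q ∈ UU) : q ∈ Lam S := by
  choose v hvW hvq using hq
  have hrec : ∀ n, v (n + 1) - FF S (v n) ∈ Z3 := by
    intro n
    rw [← pr_eq_iff, ← fT_pr, hvq, hvq, Function.iterate_succ_apply']
  choose h0 h1 s s' hss hv2 using fun n => hvW n
  have hNe : NN = 4096 := rfl
  have hN := NN_gt
  -- bounds on the fibre coordinate
  have hvlo : ∀ n, -(1 / (4 * NN ^ 2)) < v n 2 - dig (s n) / NN := by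
    intro n
    have := (hv2 n).1
    have h3 : dig (s n) / NN ≤ (dig (s n) + dig (s' n) / NN) / NN := by
      gcongr
      have := dig_nonneg (s' n)
      have : 0 ≤ dig (s' n) / NN := by positivity
      linarith
    linarith
  have hvhi : ∀ n, v n 2 < dig (s n) / NN + 1 / NN := by
    intro n
    have := (hv2 n).2
    have h3 : (dig (s' n) + 1) / NN ≤ 12 / NN := by
      gcongr
      linarith [dig_le (s' n)]
    have h4 : (dig (s n) + (dig (s' n) + 1) / NN) / NN ≤ (dig (s n) + 12 / NN) / NN := by gcongr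
    have h5 : (dig (s n) + 12 / NN) / NN + 1 / (4 * NN ^ 2) < dig (s n) / NN + 1 / NN := by
      rw [hNe]
      ring_nf
      linarith
    linarith
  have hv01 : ∀ n, -(1 / 4) < v n 2 ∧ v n 2 < 1 / 4 := by
    intro n
    have a := hvlo n
    have b := hvhi n
    have c := dig_nonneg (s n)
    have d := dig_le (s n)
    rw [hNe] at a b
    constructor <;> linarith
  -- fibre recursion
  have hrec2 : ∀ n, v n 2 = (dig (s n) + v (n + 1) 2) / NN := by
    intro n
    obtain ⟨k, hk⟩ := hrec n 2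
    have hk' : v (n + 1) 2 - NN * v n 2 = k := hk
    have a := (hv2 n).1
    have b := (hv2 n).2
    have e1 := dig_nonneg (s' n)
    have e2 := dig_le (s' n)
    obtain ⟨c, d⟩ := hv01 (n + 1)
    have k0 : k + (2 * (s n : ℕ) + 1) = 0 := by
      apply int_zero_of_abs_lt
      push_cast
      rw [← hk']
      have ed : dig (s n) = 2 * (s n : ℕ) + 1 := rfl
      rw [← ed, abs_lt]
      rw [hNe] at a b ⊢
      constructor <;> linarith
    have k1 : (k : ℝ) = -dig (s n) := by
      have : ((k + (2 * (s n : ℕ) + 1) : ℤ) : ℝ) = 0 := by rw [k0]; simp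
      push_cast at this
      unfold dig
      linarith
    rw [k1] at hk'
    field_simp
    linarith
  have hs's : ∀ n, s' n = s (n + 1) := by
    intro n
    have a := (hv2 n).1
    have b := (hv2 n).2
    rw [hrec2 n] at a b
    have c := hvlo (n + 1)
    have d := hvhi (n + 1)
    rw [hNe] at a b c d
    have e1 : ((s' n : ℕ) : ℝ) < (s (n + 1) : ℕ) + 1 := by
      unfold dig at a b c d
      linarith
    have e2 : ((s (n + 1) : ℕ) : ℝ) < (s' n : ℕ) + 1 := by
      unfold dig at a b c d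
      linarith
    have e3 : (s' n : ℕ) < (s (n + 1) : ℕ) + 1 := by exact_mod_cast e1
    have e4 : (s (n + 1) : ℕ) < (s' n : ℕ) + 1 := by exact_mod_cast e2
    exact Fin.ext (by omega)
  have hsym : s ∈ Sym := by
    intro n hn
    rw [← hs's]
    exact hss n hn
  have hv2eq : ∀ n, v n 2 = ser NN (fun k => dig (s (k + n))) := by
    intro n
    have := ser_unique (B := NN) (d := fun k => dig (s (k + n))) (z := fun k => v (k + n) 2)
      (C := 1) NN_gt (fun k => abs_dig_le _) (fun k => by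
        have := hv01 (k + n)
        rw [abs_le]
        constructor <;> linarith [this.1, this.2]) (fun k => by
        have := hrec2 (k + n)
        rw [show k + n + 1 = k + 1 + n by ring] at this
        exact this)
    simpa using this
  have hJ : ∀ n, v n 2 ∈ J (s n) := by
    intro n
    rw [hv2eq n]
    have := serd_mem_J (fun k => s (k + n))
    simpa using this
  have hGv : ∀ i n, S.G i (v n 2) = S.ε * cc i (s n) := fun i n => S.val i (s n) _ (hJ n)
  have hx : ∀ n, v n 0 = (S.ε * cc 0 (s n) + v (n + 1) 0) / 2 := by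
    intro n
    obtain ⟨k, hk⟩ := hrec n 0
    have hk' : v (n + 1) 0 - (2 * v n 0 - S.G 0 (v n 2)) = k := hk
    have k0 : k = 0 := by
      apply int_zero_of_abs_lt
      rw [← hk']
      have a := h0 n
      have b := h0 (n + 1)
      have c := S.bdd 0 (v n 2)
      rw [abs_lt] at a b
      rw [abs_le] at c
      rw [abs_lt]
      constructor <;> linarith [a.1, a.2, b.1, b.2, c.1, c.2]
    rw [k0, hGv] at hk'
    push_cast at hk'
    linarith
  have hy : ∀ n, v n 1 = (S.ε * cc 1 (s n) + v (n + 1) 1) / 2 := by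
    intro n
    obtain ⟨k, hk⟩ := hrec n 1
    have hk' : v (n + 1) 1 - (2 * v n 1 - S.G 1 (v n 2)) = k := hk
    have k0 : k = 0 := by
      apply int_zero_of_abs_lt
      rw [← hk']
      have a := h1 n
      have b := h1 (n + 1)
      have c := S.bdd 1 (v n 2)
      rw [abs_lt] at a b
      rw [abs_le] at c
      rw [abs_lt]
      constructor <;> linarith [a.1, a.2, b.1, b.2, c.1, c.2]
    rw [k0, hGv] at hk'
    push_cast at hk'
    linarith
  have hx0 : v 0 0 = ser 2 (fun k => S.ε * cc 0 (s k)) :=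
    ser_unique (B := 2) (z := fun k => v k 0) (C := 1) (by norm_num)
      (fun k => abs_cc_le S 0 (s k)) (fun k => by linarith [h0 k]) hx
  have hy0 : v 0 1 = ser 2 (fun k => S.ε * cc 1 (s k)) :=
    ser_unique (B := 2) (z := fun k => v k 1) (C := 1) (by norm_num)
      (fun k => abs_cc_le S 1 (s k)) (fun k => by linarith [h1 k]) hy
  have hfin : v 0 = Phi S s := by
    ext i
    fin_cases i
    · exact hx0
    · exact hy0
    · exact hv2eq 0
  refine ⟨s, hsym, ?_⟩
  have := hvq 0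
  rw [hfin] at this
  exact this

lemma Lam_eq : Lam S = {x | x ∈ UU ∧ ∀ n, (fT S)^[n] x ∈ UU} := by
  ext q
  constructor
  · intro hq
    exact ⟨Lam_subset_UU S hq, fun n => Lam_subset_UU S (iterate_Lam S hq n)⟩
  · intro hq
    exact maximal_invariant S hq.2

end Pool.Agent.Helper12.BoxSystem
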