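import Mathlib

open scoped Topology
open Set Filter

noncomputable section

namespace Pool.Agent.Helper12.BoxSystem

/-- Horner evaluation in base two -/
def hor (u : ℕ → ℕ) : ℕ → ℕ
  | 0 => 0
  | n + 1 => 2 * hor u n + u n

lemma hor_congr {u v : ℕ → ℕ} {n : ℕ} (h : ∀ k < n, u k = v k) : hor u n = hor v n := by
  induction n with
  | zero => rfl
  | succ n ih =>
    simp only [hor]
    rw [ih fun k hk => h k (by omega), h n (by omega)]

lemma hor_add (u v : ℕ → ℕ) (n : ℕ) : hor (fun k => u k + v k) n = hor u n + hor v n := by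
  induction n with
  | zero => rfl
  | succ n ih =>
    simp only [hor]
    rw [ih]
    ring

lemma hor_mul (c : ℕ) (u : ℕ → ℕ) (n : ℕ) : hor (fun k => c * u k) n = c * hor u n := by
  induction n with
  | zero => rfl
  | succ n ih =>
    simp only [hor]
    rw [ih]
    ring

lemma hor_lt {u : ℕ → ℕ} {C : ℕ} (hC : 0 < C) (h : ∀ k, u k ≤ C) (n : ℕ) :
    hor u n < C * 2 ^ n := by
  have : ∀ n, hor u n + C ≤ C * 2 ^ n := by
    intro n
    induction n with
    | zero => simp [hor]
    | succ n ih =>
      simp only [hor]
      have := h n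
      rw [pow_succ]
      nlinarith
  have := this n
  omega

lemma hor_sum (u : ℕ → ℕ) (n : ℕ) :
    ∑ k ∈ Finset.range n, (u k : ℝ) / 2 ^ (k + 1) = (hor u n : ℝ) / 2 ^ n := by
  induction n with
  | zero => simp [hor]
  | succ n ih =>
    rw [Finset.sum_range_succ, ih]
    simp only [hor]
    push_cast
    rw [pow_succ]
    field_simp

lemma hor_tail_zero {u : ℕ → ℕ} {j : ℕ} (h : ∀ k, j ≤ k → u k = 0) (n : ℕ) :
    hor u (j + n) = 2 ^ n * hor u j := by
  induction n with
  | zero => simp
  | succ n ih =>
    rw [← add_assoc]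
    simp only [hor]
    rw [ih, h (j + n) (by omega), pow_succ]
    ring

lemma hor_head_zero {u : ℕ → ℕ} {j : ℕ} (h : ∀ k < j, u k = 0) (h1 : ∀ k, u k ≤ 1) (n : ℕ) :
    hor u (j + n) < 2 ^ n := by
  induction n with
  | zero =>
    have : hor u j = 0 := by
      rw [hor_congr (v := fun _ => 0) h]
      have : ∀ j, hor (fun _ => 0) j = 0 := by
        intro j
        induction j with
        | zero => rfl
        | succ j ih => simp [hor, ih]
      exact this j
    simp [this]
  | succ n ih =>
    rw [← add_assoc]
    simp only [hor]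
    have := h1 (j + n)
    rw [pow_succ]
    omega

lemma exists_hor (j : ℕ) : ∀ m : ℕ, m < 2 ^ j → ∃ u : ℕ → ℕ, (∀ k, u k ≤ 1) ∧ hor u j = m := by
  induction j with
  | zero =>
    intro m hm
    refine ⟨fun _ => 0, fun _ => by simp, ?_⟩
    simp only [pow_zero, Nat.lt_one_iff] at hm
    simp [hor, hm]
  | succ j ih =>
    intro m hm
    obtain ⟨u, hu, hum⟩ := ih (m / 2) (by rw [pow_succ] at hm; omega)
    refine ⟨Function.update u j (m % 2), ?_, ?_⟩
    · intro k
      by_cases hk : k = j
      · subst hk
        simp only [Function.update_self]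
        omega
      · rw [Function.update_of_ne hk]
        exact hu k
    · simp only [hor, Function.update_self]
      rw [hor_congr (v := u) (fun k hk => Function.update_of_ne (by omega) _ _), hum]
      omega

end Pool.Agent.Helper12.BoxSystem
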