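import Mathlib
import Pool.Agent.Helper12.BoxRepeller
import Pool.Agent.Helper12.BoxDimDefs
import Pool.Agent.Helper12.Horner

open scoped Topology ContDiff Manifold Bundle
open Set Filter
open Pool.Agent.Helper12.FlatTorus Pool.Agent.Helper12.BoxSeries Pool.Agent.Helper12.BoxDim

noncomputable section

namespace Pool.Agent.Helper12.BoxSystem

/-- digits of the symbols -/
def pd (s : Fin 6) : ℕ := if (s : ℕ) < 4 then (s : ℕ) % 2 else 0
def qd (s : Fin 6) : ℕ := if (s : ℕ) < 4 then (s : ℕ) / 2 else 0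
def rd (s : Fin 6) : ℕ := if (s : ℕ) < 4 then 0 else (s : ℕ) - 4

lemma cc_zero (s : Fin 6) : cc 0 s = pd s + qd s * tt := by
  unfold cc pd qd
  simp only [if_true]
  split_ifs <;> simp

lemma cc_one (s : Fin 6) : cc 1 s = rd s := by
  unfold cc rd
  simp only [one_ne_zero, if_false]
  split_ifs <;> simp

lemma pd_le (s : Fin 6) : pd s ≤ 1 := by revert s; decide
lemma qd_le (s : Fin 6) : qd s ≤ 1 := by revert s; decide
lemma rd_le (s : Fin 6) : rd s ≤ 1 := by revert s; decide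
lemma pd_hi {s : Fin 6} (h : 4 ≤ (s : ℕ)) : pd s = 0 := by
  unfold pd; rw [if_neg (by omega)]
lemma qd_hi {s : Fin 6} (h : 4 ≤ (s : ℕ)) : qd s = 0 := by
  unfold qd; rw [if_neg (by omega)]
lemma rd_lo {s : Fin 6} (h : (s : ℕ) < 4) : rd s = 0 := by
  unfold rd; rw [if_pos h]

/-- approximation data for the Liouville number -/
lemma liouville_data (n : ℕ) : ∃ P : ℕ, P < 2 * 2 ^ (n.factorial) ∧
    (P : ℝ) / 2 ^ (n.factorial) < tt ∧
    tt - (P : ℝ) / 2 ^ (n.factorial) < 2 / 2 ^ ((n + 1).factorial) := by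
  obtain ⟨P, hP⟩ := LiouvilleNumber.partialSum_eq_rat (m := 2) (by norm_num) n
  push_cast at hP
  have h1 := LiouvilleNumber.partialSum_add_remainder (m := 2) (by norm_num) n
  have h2 := LiouvilleNumber.remainder_pos (m := 2) (by norm_num) n
  have h3 := LiouvilleNumber.remainder_lt' n (m := 2) (by norm_num)
  have h4 : tt = liouvilleNumber 2 := rfl
  rw [hP] at h1
  have h5 : (P : ℝ) / 2 ^ (n.factorial) < tt := by rw [h4, ← h1]; linarith
  refine ⟨P, ?_, h5, ?_⟩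
  · have := h5.trans_le tt_le
    rw [div_lt_iff₀ (by positivity)] at this
    exact_mod_cast this
  · rw [h4, ← h1]
    have : ((1 : ℝ) - 1 / 2)⁻¹ * (1 / 2 ^ ((n + 1).factorial)) = 2 / 2 ^ ((n + 1).factorial) := by
      norm_num
      ring
    rw [this] at h3
    linarith

/-- number of symbols of the first class among the first `l`. -/
def jj (σ : ℕ → Fin 6) : ℕ → ℕ
  | 0 => 0
  | l + 1 => jj σ l + if (σ l : ℕ) < 4 then 1 else 0

lemma jj_le (σ : ℕ → Fin 6) (l : ℕ) : jj σ l ≤ l := by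
  induction l with
  | zero => simp [jj]
  | succ l ih =>
    simp only [jj]
    split_ifs <;> omega

lemma Sym_mono {σ : ℕ → Fin 6} (h : σ ∈ Sym) {k m : ℕ} (hkm : k ≤ m) (hk : 4 ≤ (σ k : ℕ)) :
    4 ≤ (σ m : ℕ) := by
  induction m, hkm using Nat.le_induction with
  | base => exact hk
  | succ m _ ih => exact h m ih

lemma jj_spec {σ : ℕ → Fin 6} (h : σ ∈ Sym) (l : ℕ) :
    ∀ k < l, ((σ k : ℕ) < 4 ↔ k < jj σ l) := by
  induction l with
  | zero => intro k hk; omega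
  | succ l ih =>
    intro k hk
    simp only [jj]
    by_cases hl : (σ l : ℕ) < 4
    · have hall : ∀ k ≤ l, (σ k : ℕ) < 4 := by
        intro k hk
        by_contra hcon
        have := Sym_mono h hk (by omega)
        omega
      have hjl : jj σ l = l := by
        have := jj_le σ l
        by_contra hne
        have h1 := (ih (jj σ l) (by omega)).mp (hall _ this)
        omega
      rw [if_pos hl, hjl]
      exact ⟨fun _ => hk, fun _ => hall k (by omega)⟩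
    · rw [if_neg hl, add_zero]
      rcases Nat.lt_succ_iff_lt_or_eq.mp hk with hk' | hk'
      · exact ih k hk'
      · subst hk'
        have := jj_le σ k
        constructor
        · intro h1; exact absurd h1 hl
        · intro h1; omega

/-- first component of the code -/
def AA (P Q : ℕ) (σ : ℕ → Fin 6) (l : ℕ) : ℕ := hor (fun k => Q * pd (σ k) + P * qd (σ k)) l
def RR (σ : ℕ → Fin 6) (l : ℕ) : ℕ := hor (fun k => rd (σ k)) l

lemma AA_dvd (P Q : ℕ) {σ : ℕ → Fin 6} (h : σ ∈ Sym) (l : ℕ) :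
    2 ^ (l - jj σ l) ∣ AA P Q σ l := by
  have hle := jj_le σ l
  unfold AA
  obtain ⟨n, hn⟩ := Nat.exists_eq_add_of_le hle
  set j := jj σ l with hj
  have hspec := jj_spec h l
  rw [← hj] at hspec
  have h1 : hor (fun k => Q * pd (σ k) + P * qd (σ k)) l =
      hor (fun k => if k < j then Q * pd (σ k) + P * qd (σ k) else 0) l := by
    apply hor_congr
    intro k hk
    by_cases hkj : k < j
    · simp [hkj]
    · have : ¬ (σ k : ℕ) < 4 := fun hc => hkj ((hspec k hk).mp hc)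
      simp [hkj, pd_hi (not_lt.mp this), qd_hi (not_lt.mp this)]
  have h2 := hor_tail_zero (u := fun k => if k < j then Q * pd (σ k) + P * qd (σ k) else 0)
    (j := j) (fun k hk => by simp [not_lt.mpr hk]) n
  rw [h1, show l - j = n by omega]
  have h3 : l = j + n := hn
  rw [h3, h2]
  exact dvd_mul_right _ _

lemma RR_lt {σ : ℕ → Fin 6} (h : σ ∈ Sym) (l : ℕ) : RR σ l < 2 ^ (l - jj σ l) := by
  have hle := jj_le σ l
  unfold RR
  obtain ⟨n, hn⟩ := Nat.exists_eq_add_of_le hle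
  set j := jj σ l with hj
  have hspec := jj_spec h l
  rw [← hj] at hspec
  rw [show l - j = n by omega]
  have h3 : l = j + n := hn
  have := hor_head_zero (u := fun k => rd (σ k)) (j := j) (fun k hk =>
    rd_lo ((hspec k (by omega)).mpr hk)) (fun k => rd_le _) n
  rw [h3]
  exact this

lemma code_eq {P Q : ℕ} {σ σ' : ℕ → Fin 6} (h : σ ∈ Sym) (h' : σ' ∈ Sym) {l : ℕ}
    (hj : jj σ l = jj σ' l) (hs : AA P Q σ l + RR σ l = AA P Q σ' l + RR σ' l) :
    AA P Q σ l = AA P Q σ' l ∧ RR σ l = RR σ' l := by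
  have h1 := AA_dvd P Q h l
  have h2 := AA_dvd P Q h' l
  have h3 := RR_lt h l
  have h4 := RR_lt h' l
  rw [← hj] at h2 h4
  have h5 : RR σ l = RR σ' l := by
    have e1 : (AA P Q σ l + RR σ l) % 2 ^ (l - jj σ l) = RR σ l := by
      rw [Nat.add_mod, Nat.mod_eq_zero_of_dvd h1, zero_add, Nat.mod_mod, Nat.mod_eq_of_lt h3]
    have e2 : (AA P Q σ' l + RR σ' l) % 2 ^ (l - jj σ l) = RR σ' l := by
      rw [Nat.add_mod, Nat.mod_eq_zero_of_dvd h2, zero_add, Nat.mod_mod, Nat.mod_eq_of_lt h4]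
    rw [← e1, ← e2, hs]
  exact ⟨by omega, h5⟩

lemma code_lt {P Q : ℕ} (hQ : 0 < Q) (hP : P < 2 * Q) (σ : ℕ → Fin 6) (l : ℕ) :
    AA P Q σ l + RR σ l < 3 * Q * 2 ^ l := by
  unfold AA RR
  rw [← hor_add]
  apply hor_lt (by omega)
  intro k
  by_cases hk : (σ k : ℕ) < 4
  · rw [rd_lo hk]
    have h1 := pd_le (σ k)
    have h2 := qd_le (σ k)
    nlinarith
  · rw [pd_hi (not_lt.mp hk), qd_hi (not_lt.mp hk)]
    have := rd_le (σ k)
    omega

variable (S : Sys)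

lemma Phi_zero_approx {P Q : ℕ} (hQ : 0 < Q) (σ : ℕ → Fin 6) (l : ℕ)
    (h0 : (P : ℝ) / Q ≤ tt) (h1 : tt - (P : ℝ) / Q ≤ 1 / 2 ^ l) :
    0 ≤ Phi S σ 0 / S.ε - (AA P Q σ l : ℝ) / (Q * 2 ^ l) ∧
    Phi S σ 0 / S.ε - (AA P Q σ l : ℝ) / (Q * 2 ^ l) ≤ 4 / 2 ^ l := by
  have hε := S.ε_pos
  rw [Phi_zero, ser_split (by norm_num) (fun k => abs_cc_le S 0 (σ k)) l]
  have e1 : ∑ k ∈ Finset.range l, S.ε * cc 0 (σ k) / 2 ^ (k + 1) =
      S.ε * ((AA P Q σ l : ℝ) / (Q * 2 ^ l) +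
        (tt - (P : ℝ) / Q) * ∑ k ∈ Finset.range l, (qd (σ k) : ℝ) / 2 ^ (k + 1)) := by
    have hA := hor_sum (fun k => Q * pd (σ k) + P * qd (σ k)) l
    have : (AA P Q σ l : ℝ) / (Q * 2 ^ l) =
        (∑ k ∈ Finset.range l, ((Q * pd (σ k) + P * qd (σ k) : ℕ) : ℝ) / 2 ^ (k + 1)) / Q := by
      rw [hA]
      unfold AA
      have : (Q : ℝ) ≠ 0 := by positivity
      field_simp
    rw [this, Finset.sum_div, Finset.mul_sum, ← Finset.sum_add_distrib, Finset.mul_sum]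
    refine Finset.sum_congr rfl fun k _ => ?_
    rw [cc_zero]
    have : (Q : ℝ) ≠ 0 := by positivity
    push_cast
    field_simp
    ring
  have hs0 : 0 ≤ ∑ k ∈ Finset.range l, (qd (σ k) : ℝ) / 2 ^ (k + 1) :=
    Finset.sum_nonneg fun k _ => by positivity
  have hs1 : ∑ k ∈ Finset.range l, (qd (σ k) : ℝ) / 2 ^ (k + 1) ≤ 1 := by
    rw [hor_sum]
    rw [div_le_one (by positivity)]
    have := hor_lt (u := fun k => qd (σ k)) (C := 1) one_pos (fun k => qd_le _) l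
    rw [one_mul] at this
    exact_mod_cast this.le
  have ht0 : 0 ≤ ser 2 (fun k => S.ε * cc 0 (σ (k + l))) :=
    ser_nonneg (by norm_num) fun k => mul_nonneg hε.le (cc_nonneg _ _)
  have ht1 : ser 2 (fun k => S.ε * cc 0 (σ (k + l))) ≤ 3 * S.ε := by
    have := ser_le (B := 2) (D := 3 * S.ε) (d := fun k => S.ε * cc 0 (σ (k + l))) (by norm_num)
      (fun k => mul_nonneg hε.le (cc_nonneg _ _))
      (fun k => by nlinarith [cc_le 0 (σ (k + l))])
    linarith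
  rw [e1]
  set u := ∑ k ∈ Finset.range l, (qd (σ k) : ℝ) / 2 ^ (k + 1)
  set w := ser 2 (fun k => S.ε * cc 0 (σ (k + l)))
  set a := (AA P Q σ l : ℝ) / (Q * 2 ^ l)
  have e2 : (S.ε * (a + (tt - (P : ℝ) / Q) * u) + w / 2 ^ l) / S.ε - a =
      (tt - (P : ℝ) / Q) * u + (w / S.ε) / 2 ^ l := by
    field_simp
    ring
  rw [e2]
  have ht2 : w / S.ε ≤ 3 := by rw [div_le_iff₀ hε]; linarith
  have ht3 : 0 ≤ w / S.ε := by positivity
  have ht4 : (w / S.ε) / 2 ^ l ≤ 3 / 2 ^ l := by gcongr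
  have ht5 : 0 ≤ (w / S.ε) / 2 ^ l := by positivity
  have hd : 0 ≤ tt - (P : ℝ) / Q := by linarith
  have hu : (tt - (P : ℝ) / Q) * u ≤ 1 / 2 ^ l * 1 := by gcongr
  constructor
  · positivity
  · have : (4 : ℝ) / 2 ^ l = 1 / 2 ^ l * 1 + 3 / 2 ^ l := by ring
    linarith

lemma Phi_one_approx (σ : ℕ → Fin 6) (l : ℕ) :
    0 ≤ Phi S σ 1 / S.ε - (RR σ l : ℝ) / 2 ^ l ∧
    Phi S σ 1 / S.ε - (RR σ l : ℝ) / 2 ^ l ≤ 1 / 2 ^ l := by
  have hε := S.ε_pos
  rw [Phi_one, ser_split (by norm_num) (fun k => abs_cc_le S 1 (σ k)) l]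
  have e1 : ∑ k ∈ Finset.range l, S.ε * cc 1 (σ k) / 2 ^ (k + 1) =
      S.ε * ((RR σ l : ℝ) / 2 ^ l) := by
    unfold RR
    rw [← hor_sum, Finset.mul_sum]
    refine Finset.sum_congr rfl fun k _ => ?_
    rw [cc_one]
    ring
  have ht0 : 0 ≤ ser 2 (fun k => S.ε * cc 1 (σ (k + l))) :=
    ser_nonneg (by norm_num) fun k => mul_nonneg hε.le (cc_nonneg _ _)
  have ht1 : ser 2 (fun k => S.ε * cc 1 (σ (k + l))) ≤ S.ε := by
    have := ser_le (B := 2) (D := S.ε) (d := fun k => S.ε * cc 1 (σ (k + l))) (by norm_num)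
      (fun k => mul_nonneg hε.le (cc_nonneg _ _))
      (fun k => by
        have h1 : cc 1 (σ (k + l)) ≤ 1 := by
          rw [cc_one]
          exact_mod_cast rd_le _
        nlinarith)
    linarith
  rw [e1]
  set w := ser 2 (fun k => S.ε * cc 1 (σ (k + l)))
  set a := (RR σ l : ℝ) / 2 ^ l
  have e2 : (S.ε * a + w / 2 ^ l) / S.ε - a = (w / S.ε) / 2 ^ l := by
    field_simp
    ring
  rw [e2]
  have ht2 : w / S.ε ≤ 1 := by rw [div_le_iff₀ hε]; linarith
  have ht3 : 0 ≤ w / S.ε := by positivity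
  constructor
  · positivity
  · gcongr

lemma Phi_close {P Q : ℕ} (hQ : 0 < Q) {l i : ℕ} (hli : l ≤ 12 * i)
    (h0 : (P : ℝ) / Q ≤ tt) (h1 : tt - (P : ℝ) / Q ≤ 1 / 2 ^ l)
    {σ σ' : ℕ → Fin 6} (h : σ ∈ Sym) (h' : σ' ∈ Sym)
    (hj : jj σ l = jj σ' l) (hs : AA P Q σ l + RR σ l = AA P Q σ' l + RR σ' l)
    (hpre : ∀ k < i, σ k = σ' k) : ‖Phi S σ - Phi S σ'‖ ≤ 2 / 2 ^ l := by
  obtain ⟨hA, hR⟩ := code_eq h h' hj hs
  have hε := S.ε_pos
  have hε2 := S.ε_le
  refine (norm_le_coords _).trans ?_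
  have a1 := Phi_zero_approx S hQ σ l h0 h1
  have a2 := Phi_zero_approx S hQ σ' l h0 h1
  rw [hA] at a1
  have b1 := Phi_one_approx S σ l
  have b2 := Phi_one_approx S σ' l
  rw [hR] at b1
  have c0 : |(Phi S σ - Phi S σ') 0| ≤ 4 / 100 / 2 ^ l := by
    have e : (Phi S σ - Phi S σ') 0 = S.ε * (Phi S σ 0 / S.ε - Phi S σ' 0 / S.ε) := by
      simp only [PiLp.sub_apply]
      field_simp
    rw [e, abs_mul, abs_of_pos hε]
    have : |Phi S σ 0 / S.ε - Phi S σ' 0 / S.ε| ≤ 4 / 2 ^ l := by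
      rw [abs_le]
      constructor <;> linarith [a1.1, a1.2, a2.1, a2.2]
    calc S.ε * |Phi S σ 0 / S.ε - Phi S σ' 0 / S.ε| ≤ 1 / 100 * (4 / 2 ^ l) := by gcongr
      _ = _ := by ring
  have c1 : |(Phi S σ - Phi S σ') 1| ≤ 1 / 100 / 2 ^ l := by
    have e : (Phi S σ - Phi S σ') 1 = S.ε * (Phi S σ 1 / S.ε - Phi S σ' 1 / S.ε) := by
      simp only [PiLp.sub_apply]
      field_simp
    rw [e, abs_mul, abs_of_pos hε]
    have : |Phi S σ 1 / S.ε - Phi S σ' 1 / S.ε| ≤ 1 / 2 ^ l := by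
      rw [abs_le]
      constructor <;> linarith [b1.1, b1.2, b2.1, b2.2]
    calc S.ε * |Phi S σ 1 / S.ε - Phi S σ' 1 / S.ε| ≤ 1 / 100 * (1 / 2 ^ l) := by gcongr
      _ = _ := by ring
  have c2 : |(Phi S σ - Phi S σ') 2| ≤ 1 / 2 ^ l := by
    have e : (Phi S σ - Phi S σ') 2 = ser NN (fun k => dig (σ k)) - ser NN (fun k => dig (σ' k)) := by
      simp only [PiLp.sub_apply]
      rw [Phi_two, Phi_two]
    rw [e]
    have := abs_ser_sub_le NN_gt (fun k => abs_dig_le (σ k)) (fun k => abs_dig_le (σ' k)) i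
      (fun k hk => by rw [hpre k hk]) (fun k => by
        have := dig_nonneg (σ k)
        have := dig_nonneg (σ' k)
        have := dig_le (σ k)
        have := dig_le (σ' k)
        rw [abs_le]
        constructor <;> linarith)
    refine this.trans ?_
    have hN : NN = 2 ^ 12 := by unfold NN; norm_num
    have h2 : NN ^ i = 2 ^ (12 * i) := by rw [hN, ← pow_mul]
    rw [h2]
    have h3 : (11 : ℝ) / (NN - 1) ≤ 1 := by unfold NN; norm_num
    have h4 : (2 : ℝ) ^ l ≤ 2 ^ (12 * i) := pow_le_pow_right₀ (by norm_num) hli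
    gcongr
  have : (2 : ℝ) / 2 ^ l = 4 / 100 / 2 ^ l + 1 / 100 / 2 ^ l + 1 / 2 ^ l + (95 / 100) / 2 ^ l := by
    ring
  have h5 : (0 : ℝ) ≤ (95 / 100) / 2 ^ l := by positivity
  linarith

end Pool.Agent.Helper12.BoxSystem
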