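import Mathlib
import Pool.Agent.Helper12.BoxCount

open scoped Topology ContDiff Manifold Bundle
open Set Filter
open Pool.Agent.Helper12.FlatTorus Pool.Agent.Helper12.BoxSeries Pool.Agent.Helper12.BoxDim

noncomputable section

namespace Pool.Agent.Helper12.BoxSystem

section general

variable {E : Type*} [NormedAddCommGroup E] [NormedSpace ℝ E] {H : Type*} [TopologicalSpace H]
  (I : ModelWithCorners ℝ E H) {M : Type*} [TopologicalSpace M] [ChartedSpace H M]
  [Bundle.RiemannianBundle (fun x : M => TangentSpace I x)]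

/-- admissible covering sizes -/
def coverSet (δ : ℝ) (K : Set M) : Set ℕ := {n : ℕ | ∃ s : Fin n → Set M,
    (∀ i, ∀ x ∈ s i, ∀ y ∈ s i, Manifold.riemannianEDist I x y ≤ ENNReal.ofReal δ) ∧
      K ⊆ ⋃ i, s i}

lemma coverNum_eq (δ : ℝ) (K : Set M) : coverNum I δ K = sInf (coverSet I δ K) := rfl

lemma card_mem_coverSet {ι X : Type*} [Fintype ι] (φ : X → M) (T : Set X) (code : X → ι)
    (δ : ℝ) {K : Set M} (h : ∀ x ∈ T, ∀ y ∈ T, code x = code y →
      Manifold.riemannianEDist I (φ x) (φ y) ≤ ENNReal.ofReal δ) (hK : K ⊆ φ '' T) :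
    Fintype.card ι ∈ coverSet I δ K := by
  let e := Fintype.equivFin ι
  refine ⟨fun i => φ '' {x | x ∈ T ∧ e (code x) = i}, ?_, ?_⟩
  · rintro i _ ⟨x, ⟨hx, hxi⟩, rfl⟩ _ ⟨y, ⟨hy, hyi⟩, rfl⟩
    apply h x hx y hy
    apply e.injective
    rw [hxi, hyi]
  · intro q hq
    obtain ⟨x, hx, rfl⟩ := hK hq
    exact mem_iUnion.mpr ⟨e (code x), x, ⟨hx, rfl⟩, rfl⟩

lemma card_le_coverNum {ι : Type*} [Fintype ι] (φ : ι → M) {K : Set M} (hφ : ∀ i, φ i ∈ K)
    (δ : ℝ) (hsep : ∀ i j, i ≠ j → ENNReal.ofReal δ < Manifold.riemannianEDist I (φ i) (φ j))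
    (hne : (coverSet I δ K).Nonempty) : Fintype.card ι ≤ coverNum I δ K := by
  rw [coverNum_eq]
  obtain ⟨s, hs, hK⟩ := Nat.sInf_mem hne
  choose g hg using fun i => mem_iUnion.mp (hK (hφ i))
  have hinj : Function.Injective g := by
    intro i j hij
    by_contra hne'
    have h1 := hg i
    have h2 := hg j
    rw [← hij] at h2
    exact absurd (hs _ _ h1 _ h2) (not_le.mpr (hsep i j hne'))
  simpa using Fintype.card_le_of_injective g hinj

end general

variable (S : Sys)

lemma cover_upper (n : ℕ) {i : ℕ} (hi : (n + 1).factorial ≤ 12 * i) :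
    coverNum 𝓘(ℝ, E3) (2 / 2 ^ ((n + 1).factorial - 1)) (Lam S) ≤
      (n + 1).factorial * (3 * 2 ^ (n.factorial) * 2 ^ ((n + 1).factorial - 1)) * 6 ^ i := by
  obtain ⟨P, hP, hP1, hP2⟩ := liouville_data n
  set l := (n + 1).factorial - 1 with hl
  have hpos : 0 < (n + 1).factorial := Nat.factorial_pos _
  have hl1 : l + 1 = (n + 1).factorial := by omega
  set Q := 2 ^ (n.factorial) with hQ
  have hQ0 : 0 < Q := by positivity
  have hQc : (Q : ℝ) = 2 ^ (n.factorial) := by rw [hQ]; push_cast; rfl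
  rw [← hQc] at hP1 hP2
  have hP3 : tt - (P : ℝ) / Q ≤ 1 / 2 ^ l := by
    refine hP2.le.trans_eq ?_
    rw [← hl1, pow_succ]
    field_simp
  let code : (ℕ → Fin 6) → Fin (l + 1) × Fin (3 * Q * 2 ^ l) × (Fin i → Fin 6) := fun σ =>
    (⟨jj σ l, Nat.lt_succ_of_le (jj_le σ l)⟩, ⟨AA P Q σ l + RR σ l, code_lt hQ0 hP σ l⟩,
      fun k => σ k)
  have hmem := card_mem_coverSet 𝓘(ℝ, E3) (fun σ => pr Z3 (Phi S σ)) Sym code
    (2 / 2 ^ l) (K := Lam S) (by
      intro σ hσ σ' hσ' hc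
      refine (riemannianEDist_le_edist _ _).trans ?_
      rw [edist_dist, dist_eq_norm]
      apply ENNReal.ofReal_le_ofReal
      simp only [code, Prod.mk.injEq, Fin.mk.injEq] at hc
      obtain ⟨h1, h2, h3⟩ := hc
      exact Phi_close S hQ0 (by omega) hP1.le hP3 hσ hσ' h1 h2
        (fun k hk => congrFun h3 ⟨k, hk⟩)) (by rfl)
  have hcard : Fintype.card (Fin (l + 1) × Fin (3 * Q * 2 ^ l) × (Fin i → Fin 6)) =
      (n + 1).factorial * (3 * Q * 2 ^ l) * 6 ^ i := by
    simp only [Fintype.card_prod, Fintype.card_fin, Fintype.card_fun, hl1]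
    ring
  rw [← hcard]
  exact Nat.sInf_le hmem

lemma coverSet_nonempty {δ : ℝ} (hδ : 0 < δ) : (coverSet 𝓘(ℝ, E3) δ (Lam S)).Nonempty := by
  have hK : IsCompact (Phi S '' Sym) := isClosed_Sym.isCompact.image (continuous_Phi S)
  obtain ⟨t, ht, hcov⟩ := Metric.totallyBounded_iff.mp hK.totallyBounded (δ / 2) (by positivity)
  have hcov' : ∀ v ∈ Phi S '' Sym, ∃ c ∈ t, v ∈ Metric.ball c (δ / 2) := by
    intro v hv
    have := hcov hv
    simpa using this
  have : Finite t := ht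
  have := Fintype.ofFinite t
  rcases (Phi S '' Sym).eq_empty_or_nonempty with he | hne
  · have : Sym.Nonempty := ⟨fun _ => 0, fun k hk => by simp at hk⟩
    exact absurd he (this.image _).ne_empty
  obtain ⟨v0, hv0⟩ := hne
  obtain ⟨c0, hc0, _⟩ := hcov' v0 hv0
  classical
  let code : E3 → t := fun v => if h : ∃ c ∈ t, v ∈ Metric.ball c (δ / 2) then
    ⟨h.choose, h.choose_spec.1⟩ else ⟨c0, hc0⟩
  have hcode : ∀ v ∈ Phi S '' Sym, v ∈ Metric.ball (code v : E3) (δ / 2) := by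
    intro v hv
    have h := hcov' v hv
    simp only [code, dif_pos h]
    exact h.choose_spec.2
  refine ⟨_, card_mem_coverSet 𝓘(ℝ, E3) (pr Z3) (Phi S '' Sym) code δ ?_ ?_⟩
  · intro x hx y hy hxy
    refine (riemannianEDist_le_edist _ _).trans ?_
    rw [edist_dist]
    apply ENNReal.ofReal_le_ofReal
    have h1 := hcode x hx
    have h2 := hcode y hy
    rw [← hxy] at h2
    rw [Metric.mem_ball] at h1 h2
    have := dist_triangle_right x y (code x : E3)
    linarith
  · rintro _ ⟨σ, hσ, rfl⟩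
    exact ⟨_, ⟨σ, hσ, rfl⟩, rfl⟩

/-- periodic coordinate functions -/
def sn (i : Fin 3) (v : E3) : ℝ := Real.sin (2 * Real.pi * v i) / (2 * Real.pi)

lemma sn_contDiff (i : Fin 3) : ContDiff ℝ ∞ (sn i) := by
  unfold sn
  have hp : ContDiff ℝ ∞ (fun v : E3 => v i) := (pj i).contDiff
  exact (Real.contDiff_sin.comp (contDiff_const.mul hp)).div_const _

lemma sn_periodic (i : Fin 3) {v w : E3} (h : w - v ∈ Z3) : sn i w = sn i v := by
  obtain ⟨k, hk⟩ := h i
  have e : w i = v i + k := by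
    have : w i - v i = k := hk
    linarith
  unfold sn
  rw [e, mul_add, show 2 * Real.pi * (k : ℝ) = k * (2 * Real.pi) by ring,
    Real.sin_add_int_mul_two_pi]

lemma sn_fderiv (i : Fin 3) (v : E3) : ‖fderiv ℝ (sn i) v‖ ≤ 1 := by
  have hpi := Real.pi_pos
  have h1 : HasDerivAt (fun x : ℝ => Real.sin (2 * Real.pi * x) / (2 * Real.pi))
      (Real.cos (2 * Real.pi * v i)) (v i) := by
    have h2 : HasDerivAt (fun y : ℝ => 2 * Real.pi * y) (2 * Real.pi * 1) (v i) :=
      (hasDerivAt_id _).const_mul _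
    have := ((Real.hasDerivAt_sin (2 * Real.pi * v i)).comp (v i) h2).div_const (2 * Real.pi)
    rw [mul_one, mul_div_assoc, div_self (by positivity), mul_one] at this
    exact this
  have h1' : HasDerivAt (fun x : ℝ => Real.sin (2 * Real.pi * x) / (2 * Real.pi))
      (Real.cos (2 * Real.pi * v i)) (pj i v) := h1
  have h3 : HasFDerivAt (sn i) ((Real.cos (2 * Real.pi * v i)) • pj i) v :=
    h1'.comp_hasFDerivAt v (pj i).hasFDerivAt
  rw [h3.fderiv]
  refine ContinuousLinearMap.opNorm_le_bound _ zero_le_one fun w => ?_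
  rw [smul_apply, norm_smul, one_mul]
  have h4 : ‖Real.cos (2 * Real.pi * v i)‖ ≤ 1 := by
    rw [Real.norm_eq_abs]
    exact Real.abs_cos_le_one _
  have h5 : ‖pj i w‖ ≤ ‖w‖ := by
    rw [Real.norm_eq_abs, hpj]
    exact abs_coord_le w i
  calc ‖Real.cos (2 * Real.pi * v i)‖ * ‖pj i w‖ ≤ 1 * ‖w‖ := by gcongr
    _ = ‖w‖ := one_mul _

/-- the descended coordinate functions -/
def snT (i : Fin 3) (m : T3) : ℝ := sn i (Function.surjInv pr_surjective m)

lemma snT_pr (i : Fin 3) (v : E3) : snT i (pr Z3 v) = sn i v := by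
  unfold snT
  apply sn_periodic
  rw [← pr_eq_iff]
  exact (Function.surjInv_eq pr_surjective _).symm

lemma sin_lower {a b : ℝ} (ha : |a| ≤ 1) (hb : |b| ≤ 1) :
    |a - b| / 2 ≤ |Real.sin a - Real.sin b| := by
  have hmono : MonotoneOn (fun x => Real.sin x - x / 2) (Icc (-1) 1) := by
    apply monotoneOn_of_deriv_nonneg (convex_Icc _ _)
    · fun_prop
    · fun_prop
    · intro x hx
      rw [interior_Icc] at hx
      have : HasDerivAt (fun x => Real.sin x - x / 2) (Real.cos x - 1 / 2) x :=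
        (Real.hasDerivAt_sin x).sub ((hasDerivAt_id x).div_const 2)
      rw [this.deriv]
      have h1 := Real.one_sub_sq_div_two_le_cos (x := x)
      nlinarith [hx.1, hx.2]
  rw [abs_le] at ha hb
  rcases le_total a b with h | h
  · have := hmono ⟨ha.1, ha.2⟩ ⟨hb.1, hb.2⟩ h
    simp only at this
    rw [abs_sub_comm a b, abs_sub_comm (Real.sin a), abs_of_nonneg (by linarith)]
    refine le_trans ?_ (le_abs_self _)
    linarith
  · have := hmono ⟨hb.1, hb.2⟩ ⟨ha.1, ha.2⟩ h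
    simp only at this
    rw [abs_of_nonneg (by linarith)]
    refine le_trans ?_ (le_abs_self _)
    linarith

lemma dist_lower (i : Fin 3) {v w : E3} (hv : |v i| ≤ 1 / 10) (hw : |w i| ≤ 1 / 10) :
    ENNReal.ofReal (|v i - w i| / 2) ≤ Manifold.riemannianEDist 𝓘(ℝ, E3) (pr Z3 v) (pr Z3 w) := by
  have h1 := edist_le_riemannianEDist (sn_contDiff i) (snT_pr i) (sn_fderiv i) (pr Z3 v) (pr Z3 w)
  refine le_trans ?_ h1
  rw [snT_pr, snT_pr, edist_dist, Real.dist_eq]
  apply ENNReal.ofReal_le_ofReal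
  have hpi := Real.pi_pos
  have hpi2 := Real.pi_lt_four
  have e : sn i v - sn i w = (Real.sin (2 * Real.pi * v i) - Real.sin (2 * Real.pi * w i)) /
      (2 * Real.pi) := by unfold sn; ring
  rw [e, abs_div, abs_of_pos (by positivity : 0 < 2 * Real.pi), le_div_iff₀ (by positivity)]
  have h2 := sin_lower (a := 2 * Real.pi * v i) (b := 2 * Real.pi * w i)
    (by rw [abs_mul, abs_of_pos (by positivity : 0 < 2 * Real.pi)]; nlinarith [abs_nonneg (v i)])
    (by rw [abs_mul, abs_of_pos (by positivity : 0 < 2 * Real.pi)]; nlinarith [abs_nonneg (w i)])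
  rw [← mul_sub, abs_mul, abs_of_pos (by positivity : 0 < 2 * Real.pi)] at h2
  linarith

end Pool.Agent.Helper12.BoxSystem
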