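import Mathlib
import Pool.Agent.Helper12.BoxCover

open scoped Topology ContDiff Manifold Bundle
open Set Filter
open Pool.Agent.Helper12.FlatTorus Pool.Agent.Helper12.BoxSeries Pool.Agent.Helper12.BoxDim

noncomputable section

namespace Pool.Agent.Helper12.BoxSystem

lemma liouville_odd {n : ℕ} (hn : 2 ≤ n) : ∃ P : ℕ, P % 2 = 1 ∧
    (P : ℝ) / 2 ^ (n.factorial) < tt ∧
    tt - (P : ℝ) / 2 ^ (n.factorial) < 2 / 2 ^ ((n + 1).factorial) := by
  obtain ⟨m, rfl⟩ : ∃ m, n = m + 1 := ⟨n - 1, by omega⟩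
  obtain ⟨P', hP'⟩ := LiouvilleNumber.partialSum_eq_rat (m := 2) (by norm_num) m
  push_cast at hP'
  have hs := LiouvilleNumber.partialSum_succ 2 m
  rw [hP'] at hs
  have hlt : m.factorial < (m + 1).factorial := by
    rw [Nat.factorial_lt (by omega)]
    omega
  obtain ⟨d, hd⟩ : ∃ d, (m + 1).factorial = m.factorial + (d + 1) :=
    ⟨(m + 1).factorial - m.factorial - 1, by omega⟩
  set P := P' * 2 ^ (d + 1) + 1 with hP
  have hPe : LiouvilleNumber.partialSum 2 (m + 1) = (P : ℝ) / 2 ^ ((m + 1).factorial) := by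
    rw [hs, hP, hd]
    push_cast
    rw [pow_add]
    field_simp
  have h1 := LiouvilleNumber.partialSum_add_remainder (m := 2) (by norm_num) (m + 1)
  have h2 := LiouvilleNumber.remainder_pos (m := 2) (by norm_num) (m + 1)
  have h3 := LiouvilleNumber.remainder_lt' (m + 1) (m := 2) (by norm_num)
  have h4 : tt = liouvilleNumber 2 := rfl
  rw [hPe] at h1
  refine ⟨P, ?_, ?_, ?_⟩
  · rw [hP, pow_succ, ← mul_assoc, Nat.mul_add_mod_self_right]
  · rw [h4, ← h1]; linarith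
  · rw [h4, ← h1]
    have : ((1 : ℝ) - 1 / 2)⁻¹ * (1 / 2 ^ ((m + 1 + 1).factorial)) =
        2 / 2 ^ ((m + 1 + 1).factorial) := by
      norm_num
      ring
    rw [this] at h3
    linarith

/-- linear forms in `1, tt` with small integer coefficients are not too small. -/
lemma form_lower {n : ℕ} (hn : 2 ≤ n) {a b : ℤ} (hb : |b| < 2 ^ (n.factorial))
    (hab : a ≠ 0 ∨ b ≠ 0) : 1 / (2 * 2 ^ (n.factorial)) ≤ |(a : ℝ) + b * tt| := by
  obtain ⟨P, hodd, h1, h2⟩ := liouville_odd hn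
  set j := n.factorial with hj
  have hQ : (0 : ℝ) < 2 ^ j := by positivity
  by_cases hb0 : b = 0
  · subst hb0
    have ha : a ≠ 0 := by
      rcases hab with h | h
      · exact h
      · exact absurd rfl h
    have : (1 : ℝ) ≤ |(a : ℝ)| := by
      have : (1 : ℤ) ≤ |a| := Int.one_le_abs ha
      exact_mod_cast this
    simp only [Int.cast_zero, zero_mul, add_zero]
    refine le_trans ?_ this
    rw [div_le_one (by positivity)]
    have : (1 : ℝ) ≤ 2 ^ j := one_le_pow₀ (by norm_num)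
    linarith
  · have hne : 2 ^ j * a + P * b ≠ 0 := by
      intro h0
      have hdvd : (2 ^ j : ℤ) ∣ P * b := ⟨-a, by linarith⟩
      have hcop : IsCoprime (2 ^ j : ℤ) (P : ℤ) := by
        apply IsCoprime.pow_left
        rw [Int.isCoprime_iff_gcd_eq_one]
        have : Nat.Coprime 2 P := by
          rw [Nat.coprime_two_left]
          exact Nat.odd_iff.mpr hodd
        exact this
      have := hcop.dvd_of_dvd_mul_left hdvd
      have := Int.le_of_dvd (abs_pos.mpr hb0) ((dvd_abs _ _).mpr this)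
      linarith
    have hone : (1 : ℝ) ≤ |(2 : ℝ) ^ j * a + P * b| := by
      have : (1 : ℤ) ≤ |2 ^ j * a + P * b| := Int.one_le_abs hne
      exact_mod_cast this
    have e : (a : ℝ) + b * tt = (2 ^ j * a + P * b) / 2 ^ j + b * (tt - P / 2 ^ j) := by
      field_simp
      ring
    have hbR : |(b : ℝ)| ≤ 2 ^ j := by
      have : |b| ≤ 2 ^ j := hb.le
      exact_mod_cast this
    have h3 : |(b : ℝ) * (tt - P / 2 ^ j)| ≤ 1 / (2 * 2 ^ j) := by
      rw [abs_mul, abs_of_pos (by linarith : 0 < tt - P / 2 ^ j)]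
      have h4 : |(b : ℝ)| * (tt - P / 2 ^ j) ≤ 2 ^ j * (2 / 2 ^ ((n + 1).factorial)) := by
        gcongr
      refine h4.trans ?_
      rw [← mul_div_assoc, div_le_div_iff₀ (by positivity) (by positivity)]
      have h5 : 2 * j + 2 ≤ (n + 1).factorial := by
        rw [Nat.factorial_succ, ← hj]
        have : 2 ≤ j := by
          calc 2 = Nat.factorial 2 := rfl
            _ ≤ n.factorial := Nat.factorial_le hn
        nlinarith
      calc (2 : ℝ) ^ j * 2 * (2 * 2 ^ j) = 2 ^ (2 * j + 2) := by ring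
        _ ≤ 2 ^ ((n + 1).factorial) := pow_le_pow_right₀ (by norm_num) h5
        _ = _ := by ring
    have h6 : 1 / 2 ^ j ≤ |((2 : ℝ) ^ j * a + P * b) / 2 ^ j| := by
      rw [abs_div, abs_of_pos hQ]
      gcongr
    have h7 : |((2 : ℝ) ^ j * a + P * b) / 2 ^ j| ≤
        |(a : ℝ) + b * tt| + |(b : ℝ) * (tt - P / 2 ^ j)| := by
      have : ((2 : ℝ) ^ j * a + P * b) / 2 ^ j = ((a : ℝ) + b * tt) - b * (tt - P / 2 ^ j) := by
        rw [e]; ring
      rw [this]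
      exact abs_sub _ _
    have h8 : (1 : ℝ) / 2 ^ j = 1 / (2 * 2 ^ j) + 1 / (2 * 2 ^ j) := by
      field_simp
      ring
    linarith

/-- symbols with prescribed digits -/
def sym1 (a b : ℕ) : Fin 6 := ⟨a % 2 + 2 * (b % 2), by omega⟩
def sym2 (c : ℕ) : Fin 6 := ⟨4 + c % 2, by omega⟩

lemma pd_sym1 {a : ℕ} (b : ℕ) (ha : a ≤ 1) : pd (sym1 a b) = a := by
  unfold pd sym1
  simp only
  rw [if_pos (by omega)]
  omega
lemma qd_sym1 (a : ℕ) {b : ℕ} (hb : b ≤ 1) : qd (sym1 a b) = b := by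
  unfold qd sym1
  simp only
  rw [if_pos (by omega)]
  omega
lemma rd_sym1 (a b : ℕ) : rd (sym1 a b) = 0 := by
  apply rd_lo
  simp only [sym1]
  omega
lemma rd_sym2 {c : ℕ} (hc : c ≤ 1) : rd (sym2 c) = c := by
  unfold rd sym2
  simp only
  rw [if_neg (by omega)]
  omega
lemma cc0_sym2 (c : ℕ) : cc 0 (sym2 c) = 0 := by
  rw [cc_zero, pd_hi (by simp [sym2]), qd_hi (by simp [sym2])]
  simp

/-- the test sequences -/
def tseq (j : ℕ) (u u' w : ℕ → ℕ) : ℕ → Fin 6 := fun k =>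
  if k < j then sym1 (u k) (u' k) else sym2 (if k - j < j + 1 then w (k - j) else 0)

lemma tseq_mem (j : ℕ) (u u' w : ℕ → ℕ) : tseq j u u' w ∈ Sym := by
  intro k hk
  unfold tseq at hk ⊢
  by_cases h : k < j
  · rw [if_pos h] at hk
    simp only [sym1] at hk
    omega
  · rw [if_neg (by omega)]
    simp [sym2]

lemma ser_zero (B : ℝ) : ser B (fun _ => 0) = 0 := by simp [ser]

variable (S : Sys)

lemma Phi_tseq_zero (j : ℕ) {u u' : ℕ → ℕ} (w : ℕ → ℕ) (hu : ∀ k, u k ≤ 1) (hu' : ∀ k, u' k ≤ 1) :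
    Phi S (tseq j u u' w) 0 = S.ε * ((hor u j + hor u' j * tt) / 2 ^ j) := by
  rw [Phi_zero, ser_split (by norm_num) (fun k => abs_cc_le S 0 _) j]
  have h1 : ser 2 (fun k => S.ε * cc 0 (tseq j u u' w (k + j))) = 0 := by
    rw [← ser_zero 2]
    congr 1
    funext k
    unfold tseq
    rw [if_neg (by omega), cc0_sym2, mul_zero]
  have h2 : ∑ k ∈ Finset.range j, S.ε * cc 0 (tseq j u u' w k) / 2 ^ (k + 1) =
      S.ε * ((∑ k ∈ Finset.range j, (u k : ℝ) / 2 ^ (k + 1)) +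
        (∑ k ∈ Finset.range j, (u' k : ℝ) / 2 ^ (k + 1)) * tt) := by
    rw [Finset.sum_mul, ← Finset.sum_add_distrib, Finset.mul_sum]
    refine Finset.sum_congr rfl fun k hk => ?_
    rw [Finset.mem_range] at hk
    unfold tseq
    rw [if_pos hk, cc_zero, pd_sym1 _ (hu k), qd_sym1 _ (hu' k)]
    ring
  rw [h1, h2, hor_sum, hor_sum]
  ring

lemma Phi_tseq_one (j : ℕ) (u u' : ℕ → ℕ) {w : ℕ → ℕ} (hw : ∀ k, w k ≤ 1) :
    Phi S (tseq j u u' w) 1 = S.ε * (hor w (j + 1) / 2 ^ (2 * j + 1)) := by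
  rw [Phi_one, ser_split (by norm_num) (fun k => abs_cc_le S 1 _) j]
  have h1 : ∑ k ∈ Finset.range j, S.ε * cc 1 (tseq j u u' w k) / 2 ^ (k + 1) = 0 := by
    refine Finset.sum_eq_zero fun k hk => ?_
    rw [Finset.mem_range] at hk
    unfold tseq
    rw [if_pos hk, cc_one, rd_sym1]
    simp
  rw [h1, zero_add, ser_split (by norm_num) (fun k => abs_cc_le S 1 _) (j + 1)]
  have h2 : ser 2 (fun k => S.ε * cc 1 (tseq j u u' w (k + (j + 1) + j))) = 0 := by
    rw [← ser_zero 2]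
    congr 1
    funext k
    unfold tseq
    rw [if_neg (by omega), if_neg (by omega), cc_one, rd_sym2 (by omega)]
    simp
  have h3 : ∑ k ∈ Finset.range (j + 1), S.ε * cc 1 (tseq j u u' w (k + j)) / 2 ^ (k + 1) =
      S.ε * ∑ k ∈ Finset.range (j + 1), (w k : ℝ) / 2 ^ (k + 1) := by
    rw [Finset.mul_sum]
    refine Finset.sum_congr rfl fun k hk => ?_
    rw [Finset.mem_range] at hk
    unfold tseq
    rw [if_neg (by omega), if_pos (by omega), cc_one, rd_sym2 (hw _),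
      show k + j - j = k by omega]
    ring
  rw [h2, h3, hor_sum, zero_div, add_zero, show 2 * j + 1 = (j + 1) + j by ring, pow_add 2 (j + 1) j]
  field_simp

lemma cover_lower {n : ℕ} (hn : 2 ≤ n) :
    2 ^ (3 * n.factorial + 1) ≤
      coverNum 𝓘(ℝ, E3) (S.ε / 2 ^ (2 * n.factorial + 3)) (Lam S) := by
  set j := n.factorial with hj
  have hε := S.ε_pos
  choose dg hdg1 hdg2 using fun (a : ℕ) (m : ℕ) (hm : m < 2 ^ a) => exists_hor a m hm
  let φ : Fin (2 ^ j) × Fin (2 ^ j) × Fin (2 ^ (j + 1)) → E3 := fun x =>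
    Phi S (tseq j (dg j x.1 x.1.2) (dg j x.2.1 x.2.1.2) (dg (j + 1) x.2.2 x.2.2.2))
  have hφ0 : ∀ x, φ x 0 = S.ε * (((x.1 : ℕ) + (x.2.1 : ℕ) * tt) / 2 ^ j) := by
    intro x
    simp only [φ]
    rw [Phi_tseq_zero S j _ (hdg1 _ _ _) (hdg1 _ _ _), hdg2, hdg2]
  have hφ1 : ∀ x, φ x 1 = S.ε * ((x.2.2 : ℕ) / 2 ^ (2 * j + 1)) := by
    intro x
    simp only [φ]
    rw [Phi_tseq_one S j _ _ (hdg1 _ _ _), hdg2]
  have hcard : Fintype.card (Fin (2 ^ j) × Fin (2 ^ j) × Fin (2 ^ (j + 1))) = 2 ^ (3 * j + 1) := by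
    simp only [Fintype.card_prod, Fintype.card_fin]
    ring
  rw [← hcard]
  have hb : ∀ x i, i ≠ 2 → |φ x i| ≤ 1 / 10 := by
    intro x i hi
    have h0 := serc_abs S 0 (tseq j (dg j x.1 x.1.2) (dg j x.2.1 x.2.1.2) (dg (j + 1) x.2.2 x.2.2.2))
    have h1 := serc_abs S 1 (tseq j (dg j x.1 x.1.2) (dg j x.2.1 x.2.1.2) (dg (j + 1) x.2.2 x.2.2.2))
    rw [← Phi_zero] at h0
    rw [← Phi_one] at h1
    fin_cases i
    · exact h0.trans (by norm_num)
    · exact h1.trans (by norm_num)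
    · exact absurd rfl hi
  have hmem : ∀ x, pr Z3 (φ x) ∈ Lam S := fun x => ⟨_, tseq_mem _ _ _ _, rfl⟩
  refine card_le_coverNum 𝓘(ℝ, E3) (fun x => pr Z3 (φ x)) hmem _
    ?_ (coverSet_nonempty S (by positivity))
  intro x y hxy
  have hmain : ∃ i : Fin 3, i ≠ 2 ∧ S.ε / 2 ^ (2 * j + 1) ≤ |φ x i - φ y i| := by
    by_cases h2 : (x.2.2 : ℕ) = (y.2.2 : ℕ)
    · refine ⟨0, by decide, ?_⟩
      rw [hφ0, hφ0]
      have e : S.ε * (((x.1 : ℕ) + (x.2.1 : ℕ) * tt) / 2 ^ j) -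
          S.ε * (((y.1 : ℕ) + (y.2.1 : ℕ) * tt) / 2 ^ j) =
          S.ε / 2 ^ j * ((((x.1 : ℕ) : ℤ) - ((y.1 : ℕ) : ℤ) : ℤ) +
            (((x.2.1 : ℕ) : ℤ) - ((y.2.1 : ℕ) : ℤ) : ℤ) * tt) := by
        push_cast
        field_simp
        ring
      rw [e, abs_mul, abs_of_pos (by positivity : 0 < S.ε / 2 ^ j)]
      have hfl := form_lower hn (a := ((x.1 : ℕ) : ℤ) - ((y.1 : ℕ) : ℤ))
        (b := ((x.2.1 : ℕ) : ℤ) - ((y.2.1 : ℕ) : ℤ)) (by
          rw [← hj]
          have hx1 : ((x.2.1 : ℕ) : ℤ) < 2 ^ j := by exact_mod_cast x.2.1.2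
          have hy1 : ((y.2.1 : ℕ) : ℤ) < 2 ^ j := by exact_mod_cast y.2.1.2
          rw [abs_lt]
          constructor <;> omega) (by
          by_contra hcon
          push Not at hcon
          apply hxy
          have h3 : x.1 = y.1 := Fin.ext (by omega)
          have h4 : x.2.1 = y.2.1 := Fin.ext (by omega)
          have h5 : x.2.2 = y.2.2 := Fin.ext h2
          exact Prod.ext h3 (Prod.ext h4 h5))
      rw [← hj] at hfl
      calc S.ε / 2 ^ (2 * j + 1) = S.ε / 2 ^ j * (1 / (2 * 2 ^ j)) := by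
            field_simp
            ring
        _ ≤ _ := by gcongr
    · refine ⟨1, by decide, ?_⟩
      rw [hφ1, hφ1]
      have e : S.ε * ((x.2.2 : ℕ) / 2 ^ (2 * j + 1)) - S.ε * ((y.2.2 : ℕ) / 2 ^ (2 * j + 1)) =
          S.ε / 2 ^ (2 * j + 1) * ((((x.2.2 : ℕ) : ℤ) - ((y.2.2 : ℕ) : ℤ) : ℤ) : ℝ) := by
        push_cast
        ring
      rw [e, abs_mul, abs_of_pos (by positivity : 0 < S.ε / 2 ^ (2 * j + 1))]
      have : (1 : ℝ) ≤ |((((x.2.2 : ℕ) : ℤ) - ((y.2.2 : ℕ) : ℤ) : ℤ) : ℝ)| := by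
        have : (1 : ℤ) ≤ |((x.2.2 : ℕ) : ℤ) - ((y.2.2 : ℕ) : ℤ)| := by
          apply Int.one_le_abs
          omega
        exact_mod_cast this
      have h6 : 0 < S.ε / 2 ^ (2 * j + 1) := by positivity
      nlinarith
  obtain ⟨i, hi, hsep⟩ := hmain
  refine lt_of_lt_of_le ?_ (dist_lower i (hb x i hi) (hb y i hi))
  rw [ENNReal.ofReal_lt_ofReal_iff_of_nonneg (by positivity)]
  have : S.ε / 2 ^ (2 * j + 3) = S.ε / 2 ^ (2 * j + 1) / 4 := by
    rw [show 2 * j + 3 = (2 * j + 1) + 2 by ring, pow_add]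
    field_simp
    norm_num
  rw [this]
  have h6 : 0 < S.ε / 2 ^ (2 * j + 1) := by positivity
  linarith

end Pool.Agent.Helper12.BoxSystem
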