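import Mathlib
import Pool.Agent.Helper12.BoxPack

open scoped Topology ContDiff Manifold Bundle
open Set Filter
open Pool.Agent.Helper12.FlatTorus Pool.Agent.Helper12.BoxSeries Pool.Agent.Helper12.BoxDim

noncomputable section

namespace Pool.Agent.Helper12.BoxSystem

variable (S : Sys)

lemma two_pow_ge {a : ℕ} (ha : 8 ≤ a) : 32 * a ≤ 2 ^ a := by
  induction a, ha using Nat.le_induction with
  | base => norm_num
  | succ a ha ih => rw [pow_succ]; omega

lemma cover_upper_log {n : ℕ} (hn : 40 ≤ n) :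
    Real.log (coverNum 𝓘(ℝ, E3) (2 / 2 ^ ((n + 1).factorial - 1)) (Lam S)) ≤
      (21 / 16 * ((n + 1).factorial : ℝ) + 1) * Real.log 2 := by
  have hdvd : 96 ∣ (n + 1).factorial := by
    have h1 : 96 ∣ Nat.factorial 8 := by decide
    exact h1.trans (Nat.factorial_dvd_factorial (by omega))
  obtain ⟨b, hb⟩ := hdvd
  have hL : (n + 1).factorial = (n + 1) * n.factorial := Nat.factorial_succ n
  have hnf : n ≤ n.factorial := Nat.self_le_factorial n
  have hsmall : n.factorial ≤ 3 * b := by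
    have : 32 * n.factorial ≤ 96 * b := by rw [← hb, hL]; nlinarith
    omega
  have hb1 : 8 ≤ 3 * b := by omega
  have hb2 : 96 * b ≤ 2 ^ (3 * b) := by
    have := two_pow_ge hb1
    omega
  have h1 := cover_upper S n (i := 8 * b) (by omega)
  have h2 : (n + 1).factorial * (3 * 2 ^ (n.factorial) * 2 ^ ((n + 1).factorial - 1)) * 6 ^ (8 * b) ≤
      2 ^ (126 * b + 1) := by
    have e1 : (6 : ℕ) ^ (8 * b) ≤ 2 ^ (24 * b) := by
      calc (6 : ℕ) ^ (8 * b) ≤ 8 ^ (8 * b) := Nat.pow_le_pow_left (by norm_num) _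
        _ = 2 ^ (24 * b) := by rw [show (8 : ℕ) = 2 ^ 3 by norm_num, ← pow_mul]; congr 1; ring
    have e2 : (2 : ℕ) ^ (n.factorial) ≤ 2 ^ (3 * b) := Nat.pow_le_pow_right (by norm_num) hsmall
    have e3 : (n + 1).factorial ≤ 2 ^ (3 * b) := by rw [hb]; exact hb2
    have e4 : (2 : ℕ) ^ ((n + 1).factorial - 1) = 2 ^ (96 * b - 1) := by rw [hb]
    calc (n + 1).factorial * (3 * 2 ^ (n.factorial) * 2 ^ ((n + 1).factorial - 1)) * 6 ^ (8 * b)
        ≤ 2 ^ (3 * b) * (4 * 2 ^ (3 * b) * 2 ^ (96 * b - 1)) * 2 ^ (24 * b) := by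
          rw [e4]; gcongr; norm_num
      _ = 2 ^ (3 * b + (2 + 3 * b + (96 * b - 1)) + 24 * b) := by
          rw [show (4 : ℕ) = 2 ^ 2 by norm_num]
          simp only [pow_add]
      _ = 2 ^ (126 * b + 1) := by congr 1; omega
  have h3 := h1.trans h2
  have hlog2 : 0 < Real.log 2 := Real.log_pos (by norm_num)
  have h4 : ((n + 1).factorial : ℝ) = 96 * b := by rw [hb]; push_cast; ring
  rw [h4]
  rcases Nat.eq_zero_or_pos (coverNum 𝓘(ℝ, E3) (2 / 2 ^ ((n + 1).factorial - 1)) (Lam S)) with h0 | h0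
  · rw [h0]
    simp only [Nat.cast_zero, Real.log_zero]
    positivity
  · have h5 : (coverNum 𝓘(ℝ, E3) (2 / 2 ^ ((n + 1).factorial - 1)) (Lam S) : ℝ) ≤
        (2 : ℝ) ^ (126 * b + 1) := by exact_mod_cast h3
    have h6 := Real.log_le_log (by exact_mod_cast h0) h5
    rw [Real.log_pow] at h6
    refine h6.trans_eq ?_
    push_cast
    ring

lemma lower_le : lowerBoxDim 𝓘(ℝ, E3) (Lam S) ≤ ((11 / 8 : ℝ) : EReal) := by
  unfold lowerBoxDim
  apply liminf_le_of_frequently_le'
  have hδ : Tendsto (fun n : ℕ => (2 : ℝ) / 2 ^ ((n + 1).factorial - 1)) atTop (𝓝[>] 0) := by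
    rw [tendsto_nhdsWithin_iff]
    constructor
    · have h1 : Tendsto (fun k : ℕ => (2 : ℝ) / 2 ^ k) atTop (𝓝 0) :=
        tendsto_const_nhds.div_atTop (tendsto_pow_atTop_atTop_of_one_lt (by norm_num))
      have h2 : Tendsto (fun n : ℕ => (n + 1).factorial - 1) atTop atTop := by
        apply tendsto_atTop_mono (f := fun n => n) _ tendsto_id
        intro n
        have := Nat.self_le_factorial (n + 1)
        omega
      exact h1.comp h2
    · exact Eventually.of_forall fun n => by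
        simp only [mem_Ioi]
        positivity
  apply hδ.frequently
  apply Eventually.frequently
  filter_upwards [eventually_ge_atTop 40] with n hn
  rw [EReal.coe_le_coe_iff]
  have h1 := cover_upper_log S hn
  have hlog2 : 0 < Real.log 2 := Real.log_pos (by norm_num)
  have hL : 60 ≤ (n + 1).factorial := by
    calc 60 ≤ Nat.factorial 5 := by decide
      _ ≤ _ := Nat.factorial_le (by omega)
  have hLr : (60 : ℝ) ≤ ((n + 1).factorial : ℝ) := by exact_mod_cast hL
  have h2 : -Real.log (2 / 2 ^ ((n + 1).factorial - 1)) =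
      (((n + 1).factorial : ℝ) - 2) * Real.log 2 := by
    rw [Real.log_div (by norm_num) (by positivity), Real.log_pow,
      Nat.cast_sub (by omega)]
    push_cast
    ring
  rw [h2, div_le_iff₀ (by
    apply mul_pos _ hlog2
    linarith)]
  refine h1.trans ?_
  rw [← mul_assoc]
  apply mul_le_mul_of_nonneg_right _ hlog2.le
  linarith

lemma le_upper : ((23 / 16 : ℝ) : EReal) ≤ upperBoxDim 𝓘(ℝ, E3) (Lam S) := by
  unfold upperBoxDim
  apply le_limsup_of_frequently_le'
  have hε := S.ε_pos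
  have hfac : Tendsto (fun n : ℕ => n.factorial) atTop atTop :=
    tendsto_atTop_mono (f := fun n => n) (fun n => Nat.self_le_factorial n) tendsto_id
  have hδ : Tendsto (fun n : ℕ => S.ε / 2 ^ (2 * n.factorial + 3)) atTop (𝓝[>] 0) := by
    rw [tendsto_nhdsWithin_iff]
    constructor
    · have h1 : Tendsto (fun k : ℕ => S.ε / 2 ^ k) atTop (𝓝 0) :=
        tendsto_const_nhds.div_atTop (tendsto_pow_atTop_atTop_of_one_lt (by norm_num))
      have h2 : Tendsto (fun n : ℕ => 2 * n.factorial + 3) atTop atTop := by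
        apply tendsto_atTop_mono (f := fun n => n) _ tendsto_id
        intro n
        have := Nat.self_le_factorial n
        omega
      exact h1.comp h2
    · exact Eventually.of_forall fun n => by
        simp only [mem_Ioi]
        positivity
  apply hδ.frequently
  apply Eventually.frequently
  obtain ⟨K, hK⟩ := exists_nat_ge (8 * (5 + 23 / 16 * (-Real.log S.ε) / Real.log 2))
  filter_upwards [eventually_ge_atTop 2, hfac.eventually_ge_atTop K] with n hn hnK
  rw [EReal.coe_le_coe_iff]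
  have h1 := cover_lower S hn
  set j := n.factorial with hj
  have hlog2 : 0 < Real.log 2 := Real.log_pos (by norm_num)
  have h2 : ((3 * j + 1 : ℕ) : ℝ) * Real.log 2 ≤
      Real.log (coverNum 𝓘(ℝ, E3) (S.ε / 2 ^ (2 * j + 3)) (Lam S)) := by
    rw [← Real.log_pow]
    apply Real.log_le_log (by positivity)
    exact_mod_cast h1
  have h3 : -Real.log (S.ε / 2 ^ (2 * j + 3)) = (2 * j + 3) * Real.log 2 - Real.log S.ε := by
    rw [Real.log_div (by positivity) (by positivity), Real.log_pow]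
    push_cast
    ring
  have hεlog : Real.log S.ε < 0 := Real.log_neg hε (by linarith [S.ε_le])
  rw [h3, le_div_iff₀ (by
    have : 0 < (2 * (j : ℝ) + 3) * Real.log 2 := by positivity
    linarith)]
  refine le_trans ?_ h2
  have hjK : (8 * (5 + 23 / 16 * (-Real.log S.ε) / Real.log 2)) ≤ (j : ℝ) :=
    hK.trans (by exact_mod_cast hnK)
  have h4 : 8 * (5 * Real.log 2 + 23 / 16 * (-Real.log S.ε)) ≤ j * Real.log 2 := by
    have := mul_le_mul_of_nonneg_right hjK hlog2.le
    refine le_trans (le_of_eq ?_) this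
    field_simp
  push_cast
  nlinarith

theorem main : IsExpandingRepeller 𝓘(ℝ, E3) (fT S) (Lam S) ∧
    lowerBoxDim 𝓘(ℝ, E3) (Lam S) < upperBoxDim 𝓘(ℝ, E3) (Lam S) := by
  refine ⟨⟨⟨fT_smooth S, Real.sqrt 2, ?_, fun x v => fT_expand S x v⟩, Lam_nonempty S,
    isCompact_Lam S, image_Lam S, UU, isOpen_UU, Lam_subset_UU S, Lam_eq S⟩, ?_⟩
  · rw [Real.lt_sqrt (by norm_num)]
    norm_num
  · refine lt_of_le_of_lt (lower_le S) (lt_of_lt_of_le ?_ (le_upper S))
    rw [EReal.coe_lt_coe_iff]
    norm_num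

end Pool.Agent.Helper12.BoxSystem
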