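import Mathlib

namespace Pool.Agent.Helper12.Cubic

/-- a finset of integers contained in a real interval -/
theorem int_count (s : Finset ℤ) (u v : ℝ) (huv : u ≤ v) (hs : ∀ x ∈ s, u ≤ (x : ℝ) ∧ (x : ℝ) ≤ v) :
    (s.card : ℝ) ≤ v - u + 1 := by
  have h1 : s ⊆ Finset.Icc ⌈u⌉ ⌊v⌋ := by
    intro x hx
    rw [Finset.mem_Icc]
    exact ⟨Int.ceil_le.2 (hs x hx).1, Int.le_floor.2 (hs x hx).2⟩
  have h2 := Finset.card_le_card h1
  rw [Int.card_Icc] at h2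
  have h3 : (s.card : ℤ) ≤ max (⌊v⌋ + 1 - ⌈u⌉) 0 := by
    have : ((⌊v⌋ + 1 - ⌈u⌉).toNat : ℤ) = max (⌊v⌋ + 1 - ⌈u⌉) 0 := Int.toNat_eq_max _
    rw [← this]; exact_mod_cast h2
  have h4 : (s.card : ℝ) ≤ max ((⌊v⌋ : ℝ) + 1 - ⌈u⌉) 0 := by exact_mod_cast h3
  refine h4.trans (max_le ?_ (by linarith))
  have h5 := Int.floor_le v
  have h6 := Int.le_ceil u
  linarith

/-- One cone of the slope-spacing lemma. -/
theorem cone_count (x1 x2 y1 y2 : ℝ) (hdet : x1 * y2 - x2 * y1 = 1) (A1 A2 : ℝ) (hA1 : 0 ≤ A1)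
    (hA2 : 0 < A2) (s : Finset (ℤ × ℤ))
    (hprim : ∀ w ∈ s, ∀ w' ∈ s, w.1 * w'.2 - w.2 * w'.1 = 0 → w' = w ∨ w' = (-w.1, -w.2))
    (hy0 : ∀ w ∈ s, y1 * w.1 + y2 * w.2 ≠ 0)
    (hY : ∀ w ∈ s, |y1 * w.1 + y2 * w.2| ≤ A2)
    (hX : ∀ w ∈ s, |x1 * w.1 + x2 * w.2| * A2 ≤ |y1 * w.1 + y2 * w.2| * A1) :
    (s.card : ℝ) ≤ 4 * A1 * A2 + 4 := by
  classical
  let σ : ℤ × ℤ → ℝ := fun w => (x1 * w.1 + x2 * w.2) / (y1 * w.1 + y2 * w.2)
  let f : ℤ × ℤ → ℤ × Bool := fun w => (⌊σ w * A2 ^ 2⌋, decide (0 < y1 * w.1 + y2 * w.2))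
  have hσ : ∀ w ∈ s, |σ w * A2 ^ 2| ≤ A1 * A2 := by
    intro w hw
    have h1 : 0 < |y1 * w.1 + y2 * w.2| := abs_pos.2 (hy0 w hw)
    simp only [σ]
    rw [abs_mul, abs_div, abs_of_pos (by positivity : (0:ℝ) < A2 ^ 2), div_mul_eq_mul_div,
      div_le_iff₀ h1]
    have := hX w hw
    nlinarith [hX w hw]
  have hmaps : ∀ w ∈ s, f w ∈ (Finset.Icc ⌊-(A1 * A2)⌋ ⌊A1 * A2⌋) ×ˢ (Finset.univ : Finset Bool) := by
    intro w hw
    have h1 := abs_le.1 (hσ w hw)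
    simp only [f, Finset.mem_product, Finset.mem_Icc, Finset.mem_univ, and_true]
    exact ⟨Int.floor_le_floor h1.1, Int.floor_le_floor h1.2⟩
  have hinj : Set.InjOn f s := by
    intro w hw w' hw' hff
    simp only [f, Prod.mk.injEq] at hff
    obtain ⟨hfl, hsg⟩ := hff
    have hw := Finset.mem_coe.1 hw
    have hw' := Finset.mem_coe.1 hw'
    by_contra hne
    have hyw := hy0 w hw
    have hyw' := hy0 w' hw'
    by_cases hd : w.1 * w'.2 - w.2 * w'.1 = 0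
    · rcases hprim w hw w' hw' hd with h1 | h1
      · exact hne h1.symm
      · rw [h1] at hsg hyw'
        simp only [decide_eq_decide] at hsg
        push_cast at hsg hyw'
        rcases lt_or_gt_of_ne hyw with h2 | h2
        · have h3 : ¬ (0 < y1 * (w.1 : ℝ) + y2 * w.2) := by linarith
          apply h3; rw [hsg]; linarith
        · have h3 := hsg.1 h2
          linarith
    · have h1 : (1 : ℝ) ≤ |((w.1 * w'.2 - w.2 * w'.1 : ℤ) : ℝ)| := by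
        have : (1 : ℤ) ≤ |w.1 * w'.2 - w.2 * w'.1| := Int.one_le_abs hd
        rw [← Int.cast_abs]; exact_mod_cast this
      have h2 : |σ w * A2 ^ 2 - σ w' * A2 ^ 2| < 1 := by
        have e1 := Int.floor_le (σ w * A2 ^ 2)
        have e2 := Int.lt_floor_add_one (σ w * A2 ^ 2)
        have e3 := Int.floor_le (σ w' * A2 ^ 2)
        have e4 := Int.lt_floor_add_one (σ w' * A2 ^ 2)
        rw [hfl] at e1 e2
        rw [abs_lt]; constructor <;> linarith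
      have h30 : σ w - σ w' = ((w.1 * w'.2 - w.2 * w'.1 : ℤ) : ℝ) /
            ((y1 * w.1 + y2 * w.2) * (y1 * w'.1 + y2 * w'.2)) := by
        simp only [σ]
        rw [div_sub_div _ _ hyw hyw']
        congr 1
        push_cast
        linear_combination ((w.1 : ℝ) * w'.2 - w.2 * w'.1) * hdet
      have h3 : σ w * A2 ^ 2 - σ w' * A2 ^ 2 =
          ((w.1 * w'.2 - w.2 * w'.1 : ℤ) : ℝ) * A2 ^ 2 /
            ((y1 * w.1 + y2 * w.2) * (y1 * w'.1 + y2 * w'.2)) := by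
        rw [← sub_mul, h30]
        ring
      rw [h3, abs_div, abs_mul, abs_mul, abs_of_pos (by positivity : (0:ℝ) < A2 ^ 2)] at h2
      have h4 : |y1 * (w.1:ℝ) + y2 * w.2| * |y1 * (w'.1:ℝ) + y2 * w'.2| ≤ A2 * A2 :=
        mul_le_mul (hY w hw) (hY w' hw') (abs_nonneg _) hA2.le
      have h5 : 0 < |y1 * (w.1:ℝ) + y2 * w.2| * |y1 * (w'.1:ℝ) + y2 * w'.2| :=
        mul_pos (abs_pos.2 hyw) (abs_pos.2 hyw')
      rw [div_lt_one h5] at h2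
      nlinarith [sq_nonneg A2]
  have hcard := Finset.card_le_card_of_injOn f hmaps hinj
  rw [Finset.card_product, Int.card_Icc] at hcard
  simp only [Finset.card_univ, Fintype.card_bool] at hcard
  have h1 : ((⌊A1 * A2⌋ + 1 - ⌊-(A1 * A2)⌋).toNat : ℝ) ≤ 2 * (A1 * A2) + 2 := by
    have h0 : (0 : ℝ) ≤ A1 * A2 := by positivity
    have h2 : (0 : ℤ) ≤ ⌊A1 * A2⌋ := Int.floor_nonneg.2 h0
    have h3 : ⌊-(A1 * A2)⌋ ≤ 0 := by
      have : -(A1 * A2) ≤ 0 := by linarith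
      exact_mod_cast (Int.floor_le (-(A1 * A2))).trans this
    have h4 : (((⌊A1 * A2⌋ + 1 - ⌊-(A1 * A2)⌋).toNat : ℤ) : ℝ) =
        ((⌊A1 * A2⌋ + 1 - ⌊-(A1 * A2)⌋ : ℤ) : ℝ) := by
      rw [Int.toNat_of_nonneg (by omega)]
    have h5 : (((⌊A1 * A2⌋ + 1 - ⌊-(A1 * A2)⌋).toNat : ℤ) : ℝ) =
      ((⌊A1 * A2⌋ + 1 - ⌊-(A1 * A2)⌋).toNat : ℝ) := by norm_cast
    rw [← h5, h4]
    push_cast
    have h6 := Int.floor_le (A1 * A2)
    have h7 := Int.lt_floor_add_one (-(A1 * A2))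
    linarith
  have h2 : (s.card : ℝ) ≤ ((⌊A1 * A2⌋ + 1 - ⌊-(A1 * A2)⌋).toNat : ℝ) * 2 := by exact_mod_cast hcard
  linarith

/-- The slope-spacing lemma: primitive points in a parallelogram. -/
theorem box_count (x1 x2 y1 y2 : ℝ) (hdet : x1 * y2 - x2 * y1 = 1) (A1 A2 : ℝ) (hA1 : 0 < A1)
    (hA2 : 0 < A2) (s : Finset (ℤ × ℤ)) (hcop : ∀ w ∈ s, IsCoprime w.1 w.2)
    (hX : ∀ w ∈ s, |x1 * w.1 + x2 * w.2| ≤ A1)
    (hY : ∀ w ∈ s, |y1 * w.1 + y2 * w.2| ≤ A2) :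
    (s.card : ℝ) ≤ 8 * A1 * A2 + 8 := by
  classical
  have hprim : ∀ w ∈ s, ∀ w' ∈ s, w.1 * w'.2 - w.2 * w'.1 = 0 → w' = w ∨ w' = (-w.1, -w.2) := by
    intro w hw w' hw' hd
    obtain ⟨a, b, hab⟩ := hcop w hw
    obtain ⟨a', b', hab'⟩ := hcop w' hw'
    -- w' = k w with k = a w'.1 + b w'.2
    have e1 : w'.1 = (a * w'.1 + b * w'.2) * w.1 := by
      linear_combination (-w'.1) * hab - b * hd
    have e2 : w'.2 = (a * w'.1 + b * w'.2) * w.2 := by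
      linear_combination (-w'.2) * hab + a * hd
    set k := a * w'.1 + b * w'.2 with hk
    have hku : IsUnit k := by
      apply isUnit_of_dvd_one
      refine ⟨a' * w.1 + b' * w.2, ?_⟩
      rw [← hab']
      linear_combination a' * e1 + b' * e2
    rcases Int.isUnit_iff.1 hku with h1 | h1
    · left; ext
      · rw [e1, h1]; ring
      · rw [e2, h1]; ring
    · right
      rw [h1] at e1 e2
      ext
      · rw [e1]; ring
      · rw [e2]; ring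
  have hne0 : ∀ w ∈ s, ¬ (x1 * (w.1:ℝ) + x2 * w.2 = 0 ∧ y1 * (w.1:ℝ) + y2 * w.2 = 0) := by
    rintro w hw ⟨h1, h2⟩
    have e1 : (w.1 : ℝ) = 0 := by linear_combination (-(w.1:ℝ)) * hdet + y2 * h1 - x2 * h2
    have e2 : (w.2 : ℝ) = 0 := by linear_combination (-(w.2:ℝ)) * hdet - y1 * h1 + x1 * h2
    have e3 : w.1 = 0 := by exact_mod_cast e1
    have e4 : w.2 = 0 := by exact_mod_cast e2
    have := hcop w hw
    rw [e3, e4] at this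
    obtain ⟨a, b, hab⟩ := this
    simp at hab
  let s1 := s.filter (fun w => |x1 * (w.1:ℝ) + x2 * w.2| * A2 ≤ |y1 * (w.1:ℝ) + y2 * w.2| * A1)
  let s2 := s.filter (fun w => ¬ |x1 * (w.1:ℝ) + x2 * w.2| * A2 ≤ |y1 * (w.1:ℝ) + y2 * w.2| * A1)
  have hcard : s.card = s1.card + s2.card := (Finset.card_filter_add_card_filter_not _).symm
  have h1 : (s1.card : ℝ) ≤ 4 * A1 * A2 + 4 := by
    refine cone_count x1 x2 y1 y2 hdet A1 A2 hA1.le hA2 s1 ?_ ?_ ?_ ?_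
    · intro w hw w' hw'
      exact hprim w (Finset.mem_filter.1 hw).1 w' (Finset.mem_filter.1 hw').1
    · intro w hw h0
      have hw1 := Finset.mem_filter.1 hw
      apply hne0 w hw1.1
      refine ⟨?_, h0⟩
      have := hw1.2
      rw [h0] at this
      simp only [abs_zero, zero_mul] at this
      have h3 : |x1 * (w.1:ℝ) + x2 * w.2| ≤ 0 := by
        by_contra hcon
        push Not at hcon
        nlinarith
      exact abs_eq_zero.1 (le_antisymm h3 (abs_nonneg _))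
    · intro w hw; exact hY w (Finset.mem_filter.1 hw).1
    · intro w hw; exact (Finset.mem_filter.1 hw).2
  have h2 : (s2.card : ℝ) ≤ 4 * A2 * A1 + 4 := by
    refine cone_count y1 y2 (-x1) (-x2) (by linarith) A2 A1 hA2.le hA1 s2 ?_ ?_ ?_ ?_
    · intro w hw w' hw'
      exact hprim w (Finset.mem_filter.1 hw).1 w' (Finset.mem_filter.1 hw').1
    · intro w hw h0
      have hw1 := Finset.mem_filter.1 hw
      have h3 : x1 * (w.1:ℝ) + x2 * w.2 = 0 := by linarith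
      apply hw1.2
      rw [h3]
      simp only [abs_zero, zero_mul]
      positivity
    · intro w hw
      have := hX w (Finset.mem_filter.1 hw).1
      rwa [show -x1 * (w.1:ℝ) + -x2 * w.2 = -(x1 * w.1 + x2 * w.2) by ring, abs_neg]
    · intro w hw
      have := (Finset.mem_filter.1 hw).2
      rw [show -x1 * (w.1:ℝ) + -x2 * w.2 = -(x1 * w.1 + x2 * w.2) by ring, abs_neg]
      exact le_of_lt (not_le.1 this)
  rw [hcard]
  push_cast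
  nlinarith

/-- squared norm attached to two real linear forms -/
def N2 (x1 x2 y1 y2 : ℝ) (w : ℤ × ℤ) : ℝ :=
  (x1 * w.1 + x2 * w.2) ^ 2 + (y1 * w.1 + y2 * w.2) ^ 2

theorem N2_nonneg (x1 x2 y1 y2 : ℝ) (w : ℤ × ℤ) : 0 ≤ N2 x1 x2 y1 y2 w := by
  unfold N2; positivity

theorem absX_le {x1 x2 y1 y2 : ℝ} {w : ℤ × ℤ} {m : ℝ} (hm : 0 ≤ m)
    (h : N2 x1 x2 y1 y2 w ≤ m ^ 2) : |x1 * w.1 + x2 * w.2| ≤ m := by
  apply abs_le_of_sq_le_sq _ hm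
  unfold N2 at h
  nlinarith [sq_nonneg (y1 * (w.1:ℝ) + y2 * w.2)]

theorem absY_le {x1 x2 y1 y2 : ℝ} {w : ℤ × ℤ} {m : ℝ} (hm : 0 ≤ m)
    (h : N2 x1 x2 y1 y2 w ≤ m ^ 2) : |y1 * w.1 + y2 * w.2| ≤ m := by
  apply abs_le_of_sq_le_sq _ hm
  unfold N2 at h
  nlinarith [sq_nonneg (x1 * (w.1:ℝ) + x2 * w.2)]

theorem tail_count (x1 x2 y1 y2 : ℝ) (hdet : x1 * y2 - x2 * y1 = 1) (T : ℝ) (hT : 0 < T) :
    ∀ (n : ℕ) (m : ℝ), 0 < m → 8 * T < 2 ^ n * m → ∀ s : Finset (ℤ × ℤ),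
      (∀ w ∈ s, IsCoprime w.1 w.2) →
      (∀ w ∈ s, |x1 * w.1 + x2 * w.2| * N2 x1 x2 y1 y2 w ≤ T) →
      (∀ w ∈ s, m ^ 2 ≤ N2 x1 x2 y1 y2 w) → (∀ w ∈ s, N2 x1 x2 y1 y2 w ≤ (8 * T) ^ 2) →
      (s.card : ℝ) ≤ 160 * T / m := by
  classical
  intro n
  induction n with
  | zero =>
    intro m hm hn s _ _ h3 h4
    have hs : s = ∅ := by
      rw [Finset.eq_empty_iff_forall_notMem]
      intro w hw
      have e1 := h3 w hw
      have e2 := h4 w hw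
      have e3 : 8 * T < m := by simpa using hn
      nlinarith
    rw [hs]; simp; positivity
  | succ n ih =>
    intro m hm hn s h1 h2 h3 h4
    let s1 := s.filter (fun w => N2 x1 x2 y1 y2 w ≤ (2 * m) ^ 2)
    let s2 := s.filter (fun w => ¬ N2 x1 x2 y1 y2 w ≤ (2 * m) ^ 2)
    have hcard : s.card = s1.card + s2.card := (Finset.card_filter_add_card_filter_not _).symm
    have hs2 : (s2.card : ℝ) ≤ 160 * T / (2 * m) := by
      refine ih (2 * m) (by positivity) (by rw [pow_succ] at hn; linarith) s2 ?_ ?_ ?_ ?_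
      · intro w hw; exact h1 w (Finset.mem_filter.1 hw).1
      · intro w hw; exact h2 w (Finset.mem_filter.1 hw).1
      · intro w hw; exact le_of_lt (not_le.1 (Finset.mem_filter.1 hw).2)
      · intro w hw; exact h4 w (Finset.mem_filter.1 hw).1
    have hs1 : (s1.card : ℝ) ≤ 80 * T / m := by
      rcases s1.eq_empty_or_nonempty with he | ⟨w0, hw0⟩
      · rw [he]; simp; positivity
      · have hm8 : m ≤ 8 * T := by
          have e1 := h3 w0 (Finset.mem_filter.1 hw0).1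
          have e2 := h4 w0 (Finset.mem_filter.1 hw0).1
          exact (abs_le_of_sq_le_sq' (e1.trans e2) (by positivity)).2
        have hb := box_count x1 x2 y1 y2 hdet (T / m ^ 2) (2 * m) (by positivity) (by positivity) s1
          (fun w hw => h1 w (Finset.mem_filter.1 hw).1)
          (by
            intro w hw
            rw [le_div_iff₀ (by positivity)]
            refine le_trans ?_ (h2 w (Finset.mem_filter.1 hw).1)
            exact mul_le_mul_of_nonneg_left (h3 w (Finset.mem_filter.1 hw).1) (abs_nonneg _))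
          (by
            intro w hw
            exact absY_le (by positivity) (Finset.mem_filter.1 hw).2)
        have e1 : 8 * (T / m ^ 2) * (2 * m) = 16 * T / m := by field_simp; ring
        have e2 : (1 : ℝ) ≤ 8 * T / m := by rw [le_div_iff₀ hm]; linarith
        have e3 : 80 * T / m = 16 * T / m + 8 * (8 * T / m) := by ring
        rw [e3]
        rw [e1] at hb
        linarith
    rw [hcard]
    push_cast
    have e4 : 160 * T / m = 80 * T / m + 160 * T / (2 * m) := by field_simp; ring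
    rw [e4]
    linarith

theorem W_count (x1 x2 y1 y2 : ℝ) (hdet : x1 * y2 - x2 * y1 = 1) (t : ℝ) (ht : 0 < t)
    (s : Finset (ℤ × ℤ))
    (h1 : ∀ w ∈ s, IsCoprime w.1 w.2)
    (h2 : ∀ w ∈ s, |x1 * w.1 + x2 * w.2| * N2 x1 x2 y1 y2 w ≤ t ^ 3)
    (h3 : ∀ w ∈ s, 1 ≤ N2 x1 x2 y1 y2 w) (h4 : ∀ w ∈ s, N2 x1 x2 y1 y2 w ≤ (8 * t ^ 3) ^ 2) :
    (s.card : ℝ) ≤ 200 * t ^ 2 := by
  classical
  rcases s.eq_empty_or_nonempty with he | ⟨w0, hw0⟩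
  · rw [he]; simp; positivity
  have htlow : 1 ≤ 2 * t := by
    have e1 := (h3 w0 hw0).trans (h4 w0 hw0)
    have e2 : (1:ℝ) ^ 2 ≤ ((2 * t) ^ 3) ^ 2 := by
      have : (8 * t ^ 3) ^ 2 = ((2 * t) ^ 3) ^ 2 := by ring
      rw [← this]; simpa using e1
    have e3 := (abs_le_of_sq_le_sq' e2 (by positivity)).2
    by_contra hcon
    push Not at hcon
    have e4 : (2 * t) ^ 3 < 1 := pow_lt_one₀ (by positivity) hcon (by norm_num)
    linarith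
  let s1 := s.filter (fun w => N2 x1 x2 y1 y2 w ≤ t ^ 2)
  let s2 := s.filter (fun w => ¬ N2 x1 x2 y1 y2 w ≤ t ^ 2)
  have hcard : s.card = s1.card + s2.card := (Finset.card_filter_add_card_filter_not _).symm
  have hs1 := box_count x1 x2 y1 y2 hdet t t ht ht s1
    (fun w hw => h1 w (Finset.mem_filter.1 hw).1)
    (fun w hw => absX_le ht.le (Finset.mem_filter.1 hw).2)
    (fun w hw => absY_le ht.le (Finset.mem_filter.1 hw).2)
  obtain ⟨n, hn⟩ : ∃ n : ℕ, 8 * t ^ 3 < 2 ^ n * t := by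
    obtain ⟨n, hn⟩ := pow_unbounded_of_one_lt (8 * t ^ 3 / t) (one_lt_two)
    exact ⟨n, by rwa [div_lt_iff₀ ht] at hn⟩
  have hs2 := tail_count x1 x2 y1 y2 hdet (t ^ 3) (by positivity) n t ht hn s2
    (fun w hw => h1 w (Finset.mem_filter.1 hw).1)
    (fun w hw => h2 w (Finset.mem_filter.1 hw).1)
    (fun w hw => le_of_lt (not_le.1 (Finset.mem_filter.1 hw).2))
    (fun w hw => h4 w (Finset.mem_filter.1 hw).1)
  have e1 : 160 * t ^ 3 / t = 160 * t ^ 2 := by field_simp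
  rw [e1] at hs2
  rw [hcard]
  push_cast
  nlinarith

theorem half_count (x1 x2 y1 y2 : ℝ) (hdet : x1 * y2 - x2 * y1 = 1) (c1 c2 : ℝ)
    (hc1 : |c1| ≤ 3) (hc2 : |c2| ≤ 3) (t : ℝ) (ht : 0 < t)
    (s : Finset ((ℤ × ℤ) × (ℤ × ℤ)))
    (h0 : ∀ w ∈ s, w.1.1 * w.2.2 - w.2.1 * w.1.2 = 1)
    (h1 : ∀ w ∈ s, N2 x1 x2 y1 y2 w.1 ≤ N2 x1 x2 y1 y2 w.2)
    (h2 : ∀ w ∈ s, N2 x1 x2 y1 y2 w.2 ≤
      |c1 * (y1 * w.2.1 + y2 * w.2.2) ^ 2 + c2 * (x1 * w.2.1 + x2 * w.2.2) ^ 2|)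
    (h3 : ∀ w ∈ s, |(x1 * w.2.1 + x2 * w.2.2) *
      (c1 * (y1 * w.2.1 + y2 * w.2.2) ^ 2 + c2 * (x1 * w.2.1 + x2 * w.2.2) ^ 2)| ≤ t ^ 3)
    (h4 : ∀ w ∈ s, |(x1 * w.1.1 + x2 * w.1.2) *
      (c1 * (y1 * w.2.1 + y2 * w.2.2) ^ 2 + c2 * (x1 * w.2.1 + x2 * w.2.2) ^ 2) +
      (x1 * w.2.1 + x2 * w.2.2) * (2 * c1 * (y1 * w.1.1 + y2 * w.1.2) * (y1 * w.2.1 + y2 * w.2.2)
        + 2 * c2 * (x1 * w.1.1 + x2 * w.1.2) * (x1 * w.2.1 + x2 * w.2.2))| ≤ t ^ 3) :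
    (s.card : ℝ) ≤ 1000 * t ^ 2 := by
  classical
  have hD : ∀ w ∈ s, (x1 * (w.1.1:ℝ) + x2 * w.1.2) * (y1 * w.2.1 + y2 * w.2.2) -
      (x1 * w.2.1 + x2 * w.2.2) * (y1 * w.1.1 + y2 * w.1.2) = 1 := by
    intro w hw
    have e1 : ((w.1.1:ℝ) * w.2.2 - w.2.1 * w.1.2) = 1 := by exact_mod_cast h0 w hw
    linear_combination (w.1.1 * w.2.2 - w.2.1 * w.1.2) * hdet + e1
  have hN1 : ∀ w ∈ s, 1 ≤ N2 x1 x2 y1 y2 w.2 := by
    intro w hw
    have e1 := hD w hw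
    have e2 := h1 w hw
    have e3 : 1 ≤ N2 x1 x2 y1 y2 w.1 * N2 x1 x2 y1 y2 w.2 := by
      unfold N2
      nlinarith [sq_nonneg ((x1 * (w.1.1:ℝ) + x2 * w.1.2) * (x1 * w.2.1 + x2 * w.2.2) +
        (y1 * w.1.1 + y2 * w.1.2) * (y1 * w.2.1 + y2 * w.2.2))]
    have e4 := N2_nonneg x1 x2 y1 y2 w.1
    have e5 := N2_nonneg x1 x2 y1 y2 w.2
    by_contra hcon
    push Not at hcon
    nlinarith
  have hX2 : ∀ w ∈ s, |x1 * (w.2.1:ℝ) + x2 * w.2.2| * N2 x1 x2 y1 y2 w.2 ≤ t ^ 3 := by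
    intro w hw
    refine le_trans ?_ (h3 w hw)
    rw [abs_mul]
    exact mul_le_mul_of_nonneg_left (h2 w hw) (abs_nonneg _)
  have hN64 : ∀ w ∈ s, N2 x1 x2 y1 y2 w.2 ≤ (8 * t ^ 3) ^ 2 := by
    intro w hw
    set M := Real.sqrt (N2 x1 x2 y1 y2 w.2) with hM
    have hM2 : M ^ 2 = N2 x1 x2 y1 y2 w.2 := Real.sq_sqrt (N2_nonneg _ _ _ _ _)
    have hM0 : 0 ≤ M := Real.sqrt_nonneg _
    have a1 : |x1 * (w.1.1:ℝ) + x2 * w.1.2| ≤ M := absX_le hM0 (by rw [hM2]; exact h1 w hw)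
    have a2 : |y1 * (w.1.1:ℝ) + y2 * w.1.2| ≤ M := absY_le hM0 (by rw [hM2]; exact h1 w hw)
    have a3 : |x1 * (w.2.1:ℝ) + x2 * w.2.2| ≤ M := absX_le hM0 (by rw [hM2])
    have a4 : |y1 * (w.2.1:ℝ) + y2 * w.2.2| ≤ M := absY_le hM0 (by rw [hM2])
    have e0 := hD w hw
    have e2 := h2 w hw
    have e4 := h4 w hw
    have e5 := hX2 w hw
    have n1 := h1 w hw
    rw [← hM2] at e2 e5 n1
    set X1 := x1 * (w.1.1:ℝ) + x2 * w.1.2 with hX1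
    set Y1 := y1 * (w.1.1:ℝ) + y2 * w.1.2 with hY1
    set X2 := x1 * (w.2.1:ℝ) + x2 * w.2.2 with hX2'
    set Y2 := y1 * (w.2.1:ℝ) + y2 * w.2.2 with hY2
    have n1' : X1 ^ 2 + Y1 ^ 2 ≤ M ^ 2 := n1
    have n2' : X2 ^ 2 + Y2 ^ 2 = M ^ 2 := by rw [hM2]; rfl
    -- the polar term
    have p1 : |2 * c1 * Y1 * Y2 + 2 * c2 * X1 * X2| ≤ 6 * M ^ 2 := by
      have q1 : |Y1| * |Y2| + |X1| * |X2| ≤ M ^ 2 := by
        nlinarith [sq_nonneg (|Y1| - |Y2|), sq_nonneg (|X1| - |X2|), sq_abs X1, sq_abs X2,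
          sq_abs Y1, sq_abs Y2]
      calc |2 * c1 * Y1 * Y2 + 2 * c2 * X1 * X2| ≤ |2 * c1 * Y1 * Y2| + |2 * c2 * X1 * X2| :=
            abs_add_le _ _
        _ = 2 * |c1| * (|Y1| * |Y2|) + 2 * |c2| * (|X1| * |X2|) := by
            simp only [abs_mul, abs_two]; ring
        _ ≤ 2 * 3 * (|Y1| * |Y2|) + 2 * 3 * (|X1| * |X2|) := by gcongr
        _ ≤ 6 * M ^ 2 := by linarith
    have p2 : |X1| * M ^ 2 ≤ 7 * t ^ 3 := by
      have q1 : |X1| * M ^ 2 ≤ |X1 * (c1 * Y2 ^ 2 + c2 * X2 ^ 2)| := by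
        rw [abs_mul]; exact mul_le_mul_of_nonneg_left e2 (abs_nonneg _)
      have q2 : |X1 * (c1 * Y2 ^ 2 + c2 * X2 ^ 2)| ≤ t ^ 3 +
          |X2 * (2 * c1 * Y1 * Y2 + 2 * c2 * X1 * X2)| := by
        have := abs_sub_abs_le_abs_sub (X1 * (c1 * Y2 ^ 2 + c2 * X2 ^ 2))
          (-(X2 * (2 * c1 * Y1 * Y2 + 2 * c2 * X1 * X2)))
        rw [abs_neg, sub_neg_eq_add] at this
        linarith
      have q3 : |X2 * (2 * c1 * Y1 * Y2 + 2 * c2 * X1 * X2)| ≤ 6 * (|X2| * M ^ 2) := by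
        rw [abs_mul]
        have := mul_le_mul_of_nonneg_left p1 (abs_nonneg X2)
        linarith
      linarith
    have p3 : 1 ≤ (|X1| + |X2|) * M := by
      have q1 : (1:ℝ) = |X1 * Y2 - X2 * Y1| := by rw [e0]; simp
      have q2 : |X1 * Y2 - X2 * Y1| ≤ |X1| * |Y2| + |X2| * |Y1| := by
        rw [← abs_mul, ← abs_mul]; exact abs_sub _ _
      have q3 : |X1| * |Y2| ≤ |X1| * M := mul_le_mul_of_nonneg_left a4 (abs_nonneg _)
      have q4 : |X2| * |Y1| ≤ |X2| * M := mul_le_mul_of_nonneg_left a2 (abs_nonneg _)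
      linarith
    have p4 : M ≤ 8 * t ^ 3 := by
      have q1 : M * 1 ≤ M * ((|X1| + |X2|) * M) := mul_le_mul_of_nonneg_left p3 hM0
      have q2 : M * ((|X1| + |X2|) * M) = |X1| * M ^ 2 + |X2| * M ^ 2 := by ring
      linarith
    rw [← hM2]
    exact pow_le_pow_left₀ hM0 p4 2
  -- the image
  have himg : ((s.image Prod.snd).card : ℝ) ≤ 200 * t ^ 2 := by
    refine W_count x1 x2 y1 y2 hdet t ht _ ?_ ?_ ?_ ?_
    · intro w hw
      obtain ⟨v, hv, rfl⟩ := Finset.mem_image.1 hw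
      refine ⟨-v.1.2, v.1.1, ?_⟩
      have := h0 v hv
      linarith
    · intro w hw
      obtain ⟨v, hv, rfl⟩ := Finset.mem_image.1 hw
      exact hX2 v hv
    · intro w hw
      obtain ⟨v, hv, rfl⟩ := Finset.mem_image.1 hw
      exact hN1 v hv
    · intro w hw
      obtain ⟨v, hv, rfl⟩ := Finset.mem_image.1 hw
      exact hN64 v hv
  have hfib : ∀ b ∈ s.image Prod.snd, (s.filter (fun a => a.2 = b)).card ≤ 5 := by
    intro b hb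
    obtain ⟨v0, hv0, hv0b⟩ := Finset.mem_image.1 hb
    have hmaps : ∀ a ∈ s.filter (fun a => a.2 = b),
        v0.1.1 * a.1.2 - v0.1.2 * a.1.1 ∈ Finset.Icc (-2 : ℤ) 2 := by
      intro a ha
      obtain ⟨ha1, ha2⟩ := Finset.mem_filter.1 ha
      have f1 := h0 a ha1
      have f2 := h0 v0 hv0
      rw [ha2] at f1
      rw [hv0b] at f2
      set k := v0.1.1 * a.1.2 - v0.1.2 * a.1.1 with hk
      have g1 : a.1.1 - v0.1.1 = k * b.1 := by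
        linear_combination v0.1.1 * f1 - a.1.1 * f2
      have g2 : a.1.2 - v0.1.2 = k * b.2 := by
        linear_combination v0.1.2 * f1 - a.1.2 * f2
      have g1' : (a.1.1:ℝ) - v0.1.1 = k * b.1 := by exact_mod_cast g1
      have g2' : (a.1.2:ℝ) - v0.1.2 = k * b.2 := by exact_mod_cast g2
      have n1 := h1 a ha1
      have n2 := h1 v0 hv0
      rw [ha2] at n1
      rw [hv0b] at n2
      have n3 := hN1 v0 hv0
      rw [hv0b] at n3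
      have g3 : (k:ℝ) ^ 2 * N2 x1 x2 y1 y2 b ≤ 4 * N2 x1 x2 y1 y2 b := by
        have : (k:ℝ) ^ 2 * N2 x1 x2 y1 y2 b =
            ((x1 * a.1.1 + x2 * a.1.2) - (x1 * v0.1.1 + x2 * v0.1.2)) ^ 2 +
            ((y1 * a.1.1 + y2 * a.1.2) - (y1 * v0.1.1 + y2 * v0.1.2)) ^ 2 := by
          have e1 : (x1 * (a.1.1:ℝ) + x2 * a.1.2) - (x1 * v0.1.1 + x2 * v0.1.2) =
              k * (x1 * b.1 + x2 * b.2) := by linear_combination x1 * g1' + x2 * g2'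
          have e2 : (y1 * (a.1.1:ℝ) + y2 * a.1.2) - (y1 * v0.1.1 + y2 * v0.1.2) =
              k * (y1 * b.1 + y2 * b.2) := by linear_combination y1 * g1' + y2 * g2'
          rw [e1, e2]; unfold N2; ring
        rw [this]
        unfold N2 at n1 n2 ⊢
        nlinarith [sq_nonneg ((x1 * (a.1.1:ℝ) + x2 * a.1.2) + (x1 * v0.1.1 + x2 * v0.1.2)),
          sq_nonneg ((y1 * (a.1.1:ℝ) + y2 * a.1.2) + (y1 * v0.1.1 + y2 * v0.1.2))]
      have g4 : (k:ℝ) ^ 2 ≤ 2 ^ 2 := by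
        have : (k:ℝ) ^ 2 ≤ 4 := le_of_mul_le_mul_right g3 (by linarith)
        linarith
      have g5 := abs_le_of_sq_le_sq' g4 (by norm_num)
      rw [Finset.mem_Icc]
      exact ⟨by exact_mod_cast g5.1, by exact_mod_cast g5.2⟩
    have hinj : Set.InjOn (fun a : (ℤ × ℤ) × (ℤ × ℤ) => v0.1.1 * a.1.2 - v0.1.2 * a.1.1)
        (s.filter (fun a => a.2 = b)) := by
      intro a ha a' ha' heq
      obtain ⟨ha1, ha2⟩ := Finset.mem_filter.1 (Finset.mem_coe.1 ha)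
      obtain ⟨ha1', ha2'⟩ := Finset.mem_filter.1 (Finset.mem_coe.1 ha')
      simp only at heq
      have f1 := h0 a ha1
      have f1' := h0 a' ha1'
      have f2 := h0 v0 hv0
      rw [ha2] at f1
      rw [ha2'] at f1'
      rw [hv0b] at f2
      have g1 : a.1.1 = a'.1.1 := by
        linear_combination v0.1.1 * f1 - a.1.1 * f2 - v0.1.1 * f1' + a'.1.1 * f2 + b.1 * heq
      have g2 : a.1.2 = a'.1.2 := by
        linear_combination v0.1.2 * f1 - a.1.2 * f2 - v0.1.2 * f1' + a'.1.2 * f2 + b.2 * heq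
      exact Prod.ext (Prod.ext g1 g2) (ha2.trans ha2'.symm)
    have := Finset.card_le_card_of_injOn _ hmaps hinj
    simpa using this
  have hfinal : s.card ≤ 5 * (s.image Prod.snd).card :=
    Finset.card_le_mul_card_image s 5 hfib
  have : (s.card : ℝ) ≤ 5 * ((s.image Prod.snd).card : ℝ) := by exact_mod_cast hfinal
  linarith

/-- the cubic `X (c1 Y^2 + c2 X^2)` -/
def gv (c1 c2 X Y : ℝ) : ℝ := X * (c1 * Y ^ 2 + c2 * X ^ 2)

/-- its polar form, linear in the first vector -/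
def pv (c1 c2 X1 Y1 X2 Y2 : ℝ) : ℝ :=
  X1 * (c1 * Y2 ^ 2 + c2 * X2 ^ 2) + X2 * (2 * c1 * Y1 * Y2 + 2 * c2 * X1 * X2)

theorem gv_rot (r X Y : ℝ) (hr : r ^ 2 = 3) :
    gv 3 (-1) ((-X + r * Y) / 2) ((-r * X - Y) / 2) = gv 3 (-1) X Y := by
  have e1 : 3 * ((-r * X - Y) / 2) ^ 2 + -1 * ((-X + r * Y) / 2) ^ 2 =
      2 * X * (X + r * Y) := by
    linear_combination ((3 * X ^ 2 - Y ^ 2) / 4) * hr
  unfold gv
  rw [e1]
  linear_combination (X * Y ^ 2) * hr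

theorem pv_rot (r X1 Y1 X2 Y2 : ℝ) (hr : r ^ 2 = 3) :
    pv 3 (-1) ((-X1 + r * Y1) / 2) ((-r * X1 - Y1) / 2) ((-X2 + r * Y2) / 2)
      ((-r * X2 - Y2) / 2) = pv 3 (-1) X1 Y1 X2 Y2 := by
  have e1 : 3 * ((-r * X2 - Y2) / 2) ^ 2 + -1 * ((-X2 + r * Y2) / 2) ^ 2 =
      2 * X2 * (X2 + r * Y2) := by
    linear_combination ((3 * X2 ^ 2 - Y2 ^ 2) / 4) * hr
  have e2 : 2 * 3 * ((-r * X1 - Y1) / 2) * ((-r * X2 - Y2) / 2) +
      2 * -1 * ((-X1 + r * Y1) / 2) * ((-X2 + r * Y2) / 2) =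
      2 * (2 * X1 * X2 + r * (X1 * Y2 + X2 * Y1)) := by
    linear_combination ((3 * X1 * X2 - Y1 * Y2) / 2) * hr
  unfold pv
  rw [e1, e2]
  linear_combination (2 * X2 * Y1 * Y2 + X1 * Y2 ^ 2) * hr

theorem half_count3 (x1 x2 y1 y2 : ℝ) (hdet : x1 * y2 - x2 * y1 = 1) (t : ℝ) (ht : 0 < t)
    (s : Finset ((ℤ × ℤ) × (ℤ × ℤ)))
    (h0 : ∀ w ∈ s, w.1.1 * w.2.2 - w.2.1 * w.1.2 = 1)
    (h1 : ∀ w ∈ s, N2 x1 x2 y1 y2 w.1 ≤ N2 x1 x2 y1 y2 w.2)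
    (h3 : ∀ w ∈ s, |gv 3 (-1) (x1 * w.2.1 + x2 * w.2.2) (y1 * w.2.1 + y2 * w.2.2)| ≤ t ^ 3)
    (h4 : ∀ w ∈ s, |pv 3 (-1) (x1 * w.1.1 + x2 * w.1.2) (y1 * w.1.1 + y2 * w.1.2)
      (x1 * w.2.1 + x2 * w.2.2) (y1 * w.2.1 + y2 * w.2.2)| ≤ t ^ 3) :
    (s.card : ℝ) ≤ 3000 * t ^ 2 := by
  classical
  obtain ⟨r, hr⟩ : ∃ r : ℝ, r ^ 2 = 3 := ⟨Real.sqrt 3, Real.sq_sqrt (by norm_num)⟩
  -- one chunk
  have chunk : ∀ (u1 u2 v1 v2 : ℝ), u1 * v2 - u2 * v1 = 1 →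
      (∀ w : ℤ × ℤ, N2 u1 u2 v1 v2 w = N2 x1 x2 y1 y2 w) →
      (∀ w ∈ s, gv 3 (-1) (u1 * w.2.1 + u2 * w.2.2) (v1 * w.2.1 + v2 * w.2.2) =
        gv 3 (-1) (x1 * w.2.1 + x2 * w.2.2) (y1 * w.2.1 + y2 * w.2.2)) →
      (∀ w ∈ s, pv 3 (-1) (u1 * w.1.1 + u2 * w.1.2) (v1 * w.1.1 + v2 * w.1.2)
        (u1 * w.2.1 + u2 * w.2.2) (v1 * w.2.1 + v2 * w.2.2) =
        pv 3 (-1) (x1 * w.1.1 + x2 * w.1.2) (y1 * w.1.1 + y2 * w.1.2)
        (x1 * w.2.1 + x2 * w.2.2) (y1 * w.2.1 + y2 * w.2.2)) →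
      ((s.filter (fun w => (u1 * (w.2.1:ℝ) + u2 * w.2.2) ^ 2 ≤
        (v1 * (w.2.1:ℝ) + v2 * w.2.2) ^ 2)).card : ℝ) ≤ 1000 * t ^ 2 := by
    intro u1 u2 v1 v2 hd hN hg hp
    refine half_count u1 u2 v1 v2 hd 3 (-1) (by norm_num) (by norm_num) t ht _ ?_ ?_ ?_ ?_ ?_
    · intro w hw; exact h0 w (Finset.mem_filter.1 hw).1
    · intro w hw; rw [hN, hN]; exact h1 w (Finset.mem_filter.1 hw).1
    · intro w hw
      have h5 := (Finset.mem_filter.1 hw).2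
      refine le_trans ?_ (le_abs_self _)
      unfold N2
      linarith
    · intro w hw
      have h5 := h3 w (Finset.mem_filter.1 hw).1
      rw [← hg w (Finset.mem_filter.1 hw).1] at h5
      exact h5
    · intro w hw
      have h5 := h4 w (Finset.mem_filter.1 hw).1
      rw [← hp w (Finset.mem_filter.1 hw).1] at h5
      exact h5
  have c1 := chunk x1 x2 y1 y2 hdet (fun _ => rfl) (fun _ _ => rfl) (fun _ _ => rfl)
  have rotX : ∀ (a b : ℝ) (p q : ℤ) , ((-x1 + r * y1) / 2) * (p:ℝ) + ((-x2 + r * y2) / 2) * q =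
      (-(x1 * p + x2 * q) + r * (y1 * p + y2 * q)) / 2 := by intros; ring
  have rotY : ∀ (a b : ℝ) (p q : ℤ) , ((-r * x1 - y1) / 2) * (p:ℝ) + ((-r * x2 - y2) / 2) * q =
      (-r * (x1 * p + x2 * q) - (y1 * p + y2 * q)) / 2 := by intros; ring
  have rotX' : ∀ (a b : ℝ) (p q : ℤ) , ((-x1 + -r * y1) / 2) * (p:ℝ) + ((-x2 + -r * y2) / 2) * q =
      (-(x1 * p + x2 * q) + -r * (y1 * p + y2 * q)) / 2 := by intros; ring
  have rotY' : ∀ (a b : ℝ) (p q : ℤ) , ((- -r * x1 - y1) / 2) * (p:ℝ) + ((- -r * x2 - y2) / 2) * q =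
      (- -r * (x1 * p + x2 * q) - (y1 * p + y2 * q)) / 2 := by intros; ring
  have c2 := chunk ((-x1 + r * y1) / 2) ((-x2 + r * y2) / 2) ((-r * x1 - y1) / 2)
    ((-r * x2 - y2) / 2)
    (by linear_combination ((x1 * y2 - x2 * y1) / 4) * hr + hdet)
    (by
      intro w
      unfold N2
      rw [rotX 0 0, rotY 0 0]
      linear_combination (((x1 * w.1 + x2 * w.2) ^ 2 + (y1 * w.1 + y2 * w.2) ^ 2) / 4) * hr)
    (by intro w _; rw [rotX 0 0, rotY 0 0]; exact gv_rot r _ _ hr)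
    (by intro w _; rw [rotX 0 0, rotY 0 0, rotX 0 0, rotY 0 0]; exact pv_rot r _ _ _ _ hr)
  have hr' : (-r) ^ 2 = 3 := by rw [neg_sq]; exact hr
  have c3 := chunk ((-x1 + -r * y1) / 2) ((-x2 + -r * y2) / 2) ((- -r * x1 - y1) / 2)
    ((- -r * x2 - y2) / 2)
    (by linear_combination ((x1 * y2 - x2 * y1) / 4) * hr + hdet)
    (by
      intro w
      unfold N2
      rw [rotX' 0 0, rotY' 0 0]
      linear_combination (((x1 * w.1 + x2 * w.2) ^ 2 + (y1 * w.1 + y2 * w.2) ^ 2) / 4) * hr)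
    (by intro w _; rw [rotX' 0 0, rotY' 0 0]; exact gv_rot (-r) _ _ hr')
    (by intro w _; rw [rotX' 0 0, rotY' 0 0, rotX' 0 0, rotY' 0 0]; exact pv_rot (-r) _ _ _ _ hr')
  -- cover
  have hcover : s ⊆ (s.filter (fun w => (x1 * (w.2.1:ℝ) + x2 * w.2.2) ^ 2 ≤
        (y1 * (w.2.1:ℝ) + y2 * w.2.2) ^ 2)) ∪
      ((s.filter (fun w => ((-x1 + r * y1) / 2 * (w.2.1:ℝ) + (-x2 + r * y2) / 2 * w.2.2) ^ 2 ≤
        ((-r * x1 - y1) / 2 * (w.2.1:ℝ) + (-r * x2 - y2) / 2 * w.2.2) ^ 2)) ∪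
      (s.filter (fun w => ((-x1 + -r * y1) / 2 * (w.2.1:ℝ) + (-x2 + -r * y2) / 2 * w.2.2) ^ 2 ≤
        ((- -r * x1 - y1) / 2 * (w.2.1:ℝ) + (- -r * x2 - y2) / 2 * w.2.2) ^ 2))) := by
    intro w hw
    rw [Finset.mem_union, Finset.mem_union, Finset.mem_filter, Finset.mem_filter,
      Finset.mem_filter]
    by_contra hcon
    push Not at hcon
    obtain ⟨g1, g2, g3⟩ := hcon
    have g1 := g1 hw
    have g2 := g2 hw
    have g3 := g3 hw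
    rw [rotX 0 0, rotY 0 0] at g2
    rw [rotX' 0 0, rotY' 0 0] at g3
    nlinarith
  have h5 := (Finset.card_le_card hcover).trans
    ((Finset.card_union_le _ _).trans (Nat.add_le_add_left (Finset.card_union_le _ _) _))
  have h6 : (s.card : ℝ) ≤ ((s.filter (fun w => (x1 * (w.2.1:ℝ) + x2 * w.2.2) ^ 2 ≤
        (y1 * (w.2.1:ℝ) + y2 * w.2.2) ^ 2)).card : ℝ) +
      (((s.filter (fun w => ((-x1 + r * y1) / 2 * (w.2.1:ℝ) + (-x2 + r * y2) / 2 * w.2.2) ^ 2 ≤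
        ((-r * x1 - y1) / 2 * (w.2.1:ℝ) + (-r * x2 - y2) / 2 * w.2.2) ^ 2)).card : ℝ) +
      ((s.filter (fun w => ((-x1 + -r * y1) / 2 * (w.2.1:ℝ) + (-x2 + -r * y2) / 2 * w.2.2) ^ 2 ≤
        ((- -r * x1 - y1) / 2 * (w.2.1:ℝ) + (- -r * x2 - y2) / 2 * w.2.2) ^ 2)).card : ℝ)) := by
    exact_mod_cast h5
  linarith

theorem N2_neg (x1 x2 y1 y2 : ℝ) (w : ℤ × ℤ) :
    N2 x1 x2 y1 y2 (-w.1, -w.2) = N2 x1 x2 y1 y2 w := by
  unfold N2; push_cast; ring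

/-- The number of unimodular pairs of columns for which the transformed form is small. -/
theorem orbit_count (x1 x2 y1 y2 : ℝ) (hdet : x1 * y2 - x2 * y1 = 1) (c1 c2 : ℝ)
    (hc : (c1 = 1 ∧ c2 = 1) ∨ (c1 = 3 ∧ c2 = -1)) (t : ℝ) (ht : 0 < t)
    (s : Finset ((ℤ × ℤ) × (ℤ × ℤ)))
    (h0 : ∀ w ∈ s, w.1.1 * w.2.2 - w.2.1 * w.1.2 = 1)
    (ha : ∀ w ∈ s, |gv c1 c2 (x1 * w.1.1 + x2 * w.1.2) (y1 * w.1.1 + y2 * w.1.2)| ≤ t ^ 3)
    (hb : ∀ w ∈ s, |pv c1 c2 (x1 * w.2.1 + x2 * w.2.2) (y1 * w.2.1 + y2 * w.2.2)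
      (x1 * w.1.1 + x2 * w.1.2) (y1 * w.1.1 + y2 * w.1.2)| ≤ t ^ 3)
    (hcc : ∀ w ∈ s, |pv c1 c2 (x1 * w.1.1 + x2 * w.1.2) (y1 * w.1.1 + y2 * w.1.2)
      (x1 * w.2.1 + x2 * w.2.2) (y1 * w.2.1 + y2 * w.2.2)| ≤ t ^ 3)
    (hd : ∀ w ∈ s, |gv c1 c2 (x1 * w.2.1 + x2 * w.2.2) (y1 * w.2.1 + y2 * w.2.2)| ≤ t ^ 3) :
    (s.card : ℝ) ≤ 6000 * t ^ 2 := by
  classical
  -- the half statement
  have half : ∀ s : Finset ((ℤ × ℤ) × (ℤ × ℤ)),
      (∀ w ∈ s, w.1.1 * w.2.2 - w.2.1 * w.1.2 = 1) →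
      (∀ w ∈ s, N2 x1 x2 y1 y2 w.1 ≤ N2 x1 x2 y1 y2 w.2) →
      (∀ w ∈ s, |gv c1 c2 (x1 * w.2.1 + x2 * w.2.2) (y1 * w.2.1 + y2 * w.2.2)| ≤ t ^ 3) →
      (∀ w ∈ s, |pv c1 c2 (x1 * w.1.1 + x2 * w.1.2) (y1 * w.1.1 + y2 * w.1.2)
      (x1 * w.2.1 + x2 * w.2.2) (y1 * w.2.1 + y2 * w.2.2)| ≤ t ^ 3) →
      (s.card : ℝ) ≤ 3000 * t ^ 2 := by
    intro s g0 g1 g3 g4
    rcases hc with ⟨rfl, rfl⟩ | ⟨rfl, rfl⟩
    · have := half_count x1 x2 y1 y2 hdet 1 1 (by norm_num) (by norm_num) t ht s g0 g1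
        (by
          intro w _
          refine le_trans ?_ (le_abs_self _)
          unfold N2
          linarith) g3 g4
      nlinarith [sq_nonneg t]
    · exact half_count3 x1 x2 y1 y2 hdet t ht s g0 g1 g3 g4
  let s1 := s.filter (fun w => N2 x1 x2 y1 y2 w.1 ≤ N2 x1 x2 y1 y2 w.2)
  let s2 := s.filter (fun w => ¬ N2 x1 x2 y1 y2 w.1 ≤ N2 x1 x2 y1 y2 w.2)
  have hcard : s.card = s1.card + s2.card := (Finset.card_filter_add_card_filter_not _).symm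
  have hs1 : (s1.card : ℝ) ≤ 3000 * t ^ 2 := by
    refine half s1 ?_ ?_ ?_ ?_
    · intro w hw; exact h0 w (Finset.mem_filter.1 hw).1
    · intro w hw; exact (Finset.mem_filter.1 hw).2
    · intro w hw; exact hd w (Finset.mem_filter.1 hw).1
    · intro w hw; exact hcc w (Finset.mem_filter.1 hw).1
  let φ : (ℤ × ℤ) × (ℤ × ℤ) → (ℤ × ℤ) × (ℤ × ℤ) := fun w => (w.2, (-w.1.1, -w.1.2))
  have hφ : Function.Injective φ := by
    intro w w' h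
    simp only [φ, Prod.mk.injEq] at h
    obtain ⟨h1, h2, h3⟩ := h
    exact Prod.ext (Prod.ext (neg_injective h2) (neg_injective h3)) h1
  have hs2 : ((s2.image φ).card : ℝ) ≤ 3000 * t ^ 2 := by
    refine half _ ?_ ?_ ?_ ?_
    · intro w hw
      obtain ⟨v, hv, rfl⟩ := Finset.mem_image.1 hw
      have := h0 v (Finset.mem_filter.1 hv).1
      simp only [φ]
      linarith
    · intro w hw
      obtain ⟨v, hv, rfl⟩ := Finset.mem_image.1 hw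
      have := (Finset.mem_filter.1 hv).2
      simp only [φ]
      rw [N2_neg]
      exact le_of_lt (not_le.1 this)
    · intro w hw
      obtain ⟨v, hv, rfl⟩ := Finset.mem_image.1 hw
      have := ha v (Finset.mem_filter.1 hv).1
      simp only [φ]
      have e1 : gv c1 c2 (x1 * ((-v.1.1 : ℤ):ℝ) + x2 * ((-v.1.2 : ℤ):ℝ))
          (y1 * ((-v.1.1 : ℤ):ℝ) + y2 * ((-v.1.2 : ℤ):ℝ)) =
          - gv c1 c2 (x1 * v.1.1 + x2 * v.1.2) (y1 * v.1.1 + y2 * v.1.2) := by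
        unfold gv; push_cast; ring
      rw [e1, abs_neg]
      exact this
    · intro w hw
      obtain ⟨v, hv, rfl⟩ := Finset.mem_image.1 hw
      have := hb v (Finset.mem_filter.1 hv).1
      simp only [φ]
      have e1 : pv c1 c2 (x1 * (v.2.1:ℝ) + x2 * v.2.2) (y1 * v.2.1 + y2 * v.2.2)
          (x1 * ((-v.1.1 : ℤ):ℝ) + x2 * ((-v.1.2 : ℤ):ℝ))
          (y1 * ((-v.1.1 : ℤ):ℝ) + y2 * ((-v.1.2 : ℤ):ℝ)) =
          pv c1 c2 (x1 * (v.2.1:ℝ) + x2 * v.2.2) (y1 * v.2.1 + y2 * v.2.2)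
          (x1 * v.1.1 + x2 * v.1.2) (y1 * v.1.1 + y2 * v.1.2) := by
        unfold pv; push_cast; ring
      rw [e1]
      exact this
  rw [Finset.card_image_of_injective _ hφ] at hs2
  rw [hcard]
  push_cast
  linarith

/-- discriminant of a binary cubic form -/
def disc4 (a b c d : ℝ) : ℝ :=
  b ^ 2 * c ^ 2 - 4 * a * c ^ 3 - 4 * b ^ 3 * d - 27 * a ^ 2 * d ^ 2 + 18 * a * b * c * d

/-- Normal form data for a real cubic form. -/
structure NF (a b c d c1 c2 l x1 x2 y1 y2 : ℝ) : Prop where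
  lpos : 0 < l
  det : x1 * y2 - x2 * y1 = 1
  ea : a = l * gv c1 c2 x1 y1
  eb : b = l * pv c1 c2 x2 y2 x1 y1
  ec : c = l * pv c1 c2 x1 y1 x2 y2
  ed : d = l * gv c1 c2 x2 y2

theorem NF.disc {a b c d c1 c2 l x1 x2 y1 y2 : ℝ} (h : NF a b c d c1 c2 l x1 x2 y1 y2) :
    disc4 a b c d = -4 * c1 ^ 3 * c2 * l ^ 4 := by
  have e1 : disc4 a b c d = -4 * c1 ^ 3 * c2 * l ^ 4 * (x1 * y2 - x2 * y1) ^ 6 := by
    rw [h.ea, h.eb, h.ec, h.ed]
    unfold disc4 gv pv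
    ring
  rw [e1, h.det]; ring

theorem cubic_root (a b c d : ℝ) (ha : a ≠ 0) : ∃ θ : ℝ, a * θ ^ 3 + b * θ ^ 2 + c * θ + d = 0 := by
  have hcont : Continuous (fun x : ℝ => a * x ^ 3 + b * x ^ 2 + c * x + d) := by fun_prop
  -- positive leading coefficient case
  have key : ∀ a b c d : ℝ, 0 < a → ∃ M : ℝ, 0 < a * M ^ 3 + b * M ^ 2 + c * M + d := by
    intro a b c d ha
    refine ⟨1 + (|b| + |c| + |d|) / a, ?_⟩
    set M := 1 + (|b| + |c| + |d|) / a with hM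
    have h1 : 1 ≤ M := by
      have : 0 ≤ (|b| + |c| + |d|) / a := by positivity
      linarith
    have h2 : a * M = a + (|b| + |c| + |d|) := by rw [hM]; field_simp
    have h3 : M ≤ M ^ 2 := by nlinarith
    have h4 : 1 ≤ M ^ 2 := by nlinarith
    have h5 : a * M ^ 3 = (a + (|b| + |c| + |d|)) * M ^ 2 := by rw [← h2]; ring
    have h6 : -|b| * M ^ 2 ≤ b * M ^ 2 := by
      have := neg_abs_le b; nlinarith
    have h7 : -|c| * M ^ 2 ≤ c * M := by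
      have := neg_abs_le c
      nlinarith [abs_nonneg c]
    have h8 : -|d| * M ^ 2 ≤ d := by
      have := neg_abs_le d
      nlinarith [abs_nonneg d]
    have h9 : 0 < a * M ^ 2 := by positivity
    nlinarith
  have hpos : ∃ M : ℝ, 0 ≤ a * M ^ 3 + b * M ^ 2 + c * M + d := by
    rcases lt_or_gt_of_ne ha with h | h
    · obtain ⟨M, hM⟩ := key (-a) b (-c) d (by linarith)
      exact ⟨-M, by nlinarith⟩
    · obtain ⟨M, hM⟩ := key a b c d h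
      exact ⟨M, hM.le⟩
  have hneg : ∃ M : ℝ, a * M ^ 3 + b * M ^ 2 + c * M + d ≤ 0 := by
    rcases lt_or_gt_of_ne ha with h | h
    · obtain ⟨M, hM⟩ := key (-a) (-b) (-c) (-d) (by linarith)
      exact ⟨M, by nlinarith⟩
    · obtain ⟨M, hM⟩ := key a (-b) c (-d) h
      exact ⟨-M, by nlinarith⟩
  obtain ⟨θ, hθ⟩ := mem_range_of_exists_le_of_exists_ge hcont hneg hpos
  exact ⟨θ, hθ⟩

theorem fourth_root (k : ℝ) (hk : 0 < k) : ∃ s : ℝ, 0 < s ∧ s ^ 4 = k := by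
  refine ⟨Real.sqrt (Real.sqrt k), Real.sqrt_pos.2 (Real.sqrt_pos.2 hk), ?_⟩
  have h1 : Real.sqrt (Real.sqrt k) ^ 2 = Real.sqrt k := Real.sq_sqrt (Real.sqrt_nonneg _)
  have h2 : Real.sqrt k ^ 2 = k := Real.sq_sqrt hk.le
  calc Real.sqrt (Real.sqrt k) ^ 4 = (Real.sqrt (Real.sqrt k) ^ 2) ^ 2 := by ring
    _ = k := by rw [h1, h2]

theorem assemble (a b c d θ b1 e ρ κ l1 l2 c1 c2 l s : ℝ) (hb : b = b1 - a * θ)
    (hc : c = e - b1 * θ) (hd : d = -θ * e) (q1 : a = ρ * l1 ^ 2 + κ)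
    (q2 : b1 = 2 * ρ * l1 * l2 - 2 * κ * θ) (q3 : e = ρ * l2 ^ 2 + κ * θ ^ 2)
    (q4 : l2 + θ * l1 = 1) (hs : s ≠ 0) (hl : 0 < l) (h1 : ρ = l * c1 / s)
    (h2 : κ = l * c2 * s ^ 3) :
    NF a b c d c1 c2 l s (-s * θ) (l1 / s) (l2 / s) := by
  refine ⟨hl, ?_, ?_, ?_, ?_, ?_⟩
  · rw [← q4]; field_simp; ring
  · rw [q1, h1, h2]; unfold gv; field_simp
  · rw [hb, q2, q1, h1, h2]; unfold pv; field_simp; ring
  · rw [hc, q3, q2, h1, h2]; unfold pv; field_simp; ring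
  · rw [hd, q3, h1, h2]; unfold gv; field_simp

theorem normal_form (a b c d : ℝ) (ha : a ≠ 0) (hD : disc4 a b c d ≠ 0) :
    ∃ c1 c2 l x1 x2 y1 y2 : ℝ, ((c1 = 1 ∧ c2 = 1) ∨ (c1 = 3 ∧ c2 = -1)) ∧
      NF a b c d c1 c2 l x1 x2 y1 y2 := by
  obtain ⟨θ, hθ⟩ := cubic_root a b c d ha
  obtain ⟨b1, hb1⟩ : ∃ b1, b1 = b + a * θ := ⟨_, rfl⟩
  obtain ⟨e, he⟩ : ∃ e, e = c + b1 * θ := ⟨_, rfl⟩
  have hd : d = -θ * e := by rw [he, hb1]; linear_combination hθ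
  have hb : b = b1 - a * θ := by rw [hb1]; ring
  have hc : c = e - b1 * θ := by rw [he]; ring
  obtain ⟨ρ, hρ⟩ : ∃ ρ, ρ = a * θ ^ 2 + b1 * θ + e := ⟨_, rfl⟩
  have hDf : disc4 a b c d = (b1 ^ 2 - 4 * a * e) * ρ ^ 2 := by
    unfold disc4
    rw [hd, hc, hb, hρ]
    ring
  have hρ0 : ρ ≠ 0 := by
    intro h0; apply hD; rw [hDf, h0]; ring
  have hq0 : b1 ^ 2 - 4 * a * e ≠ 0 := by
    intro h0; apply hD; rw [hDf, h0]; ring
  obtain ⟨κ, hκ⟩ : ∃ κ, κ = -(b1 ^ 2 - 4 * a * e) / (4 * ρ) := ⟨_, rfl⟩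
  obtain ⟨l1, hl1⟩ : ∃ l1, l1 = (a * θ + b1 / 2) / ρ := ⟨_, rfl⟩
  obtain ⟨l2, hl2⟩ : ∃ l2, l2 = (b1 * θ / 2 + e) / ρ := ⟨_, rfl⟩
  have q1 : a = ρ * l1 ^ 2 + κ := by
    rw [hl1, hκ]; field_simp; rw [hρ]; ring
  have q2 : b1 = 2 * ρ * l1 * l2 - 2 * κ * θ := by
    rw [hl1, hl2, hκ]; field_simp; rw [hρ]; ring
  have q3 : e = ρ * l2 ^ 2 + κ * θ ^ 2 := by
    rw [hl2, hκ]; field_simp; rw [hρ]; ring
  have q4 : l2 + θ * l1 = 1 := by
    rw [hl1, hl2]; field_simp; rw [hρ]; ring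
  have hκ0 : κ ≠ 0 := by
    rw [hκ]
    exact div_ne_zero (neg_ne_zero.2 hq0) (by positivity)
  have asm := fun c1 c2 l s => assemble a b c d θ b1 e ρ κ l1 l2 c1 c2 l s hb hc hd q1 q2 q3 q4
  clear hρ hκ hl1 hl2
  rcases lt_or_gt_of_ne (div_ne_zero hκ0 hρ0) with hneg | hpos
  · obtain ⟨s0, hs0, hs4⟩ := fourth_root (-3 * (κ / ρ)) (by linarith)
    have h4 : ρ * s0 ^ 4 = -3 * κ := by rw [hs4]; field_simp
    rcases lt_or_gt_of_ne hρ0 with hr | hr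
    · refine ⟨3, -1, ρ * (-s0) / 3, -s0, -(-s0) * θ, l1 / (-s0), l2 / (-s0), Or.inr ⟨rfl, rfl⟩,
        asm 3 (-1) (ρ * (-s0) / 3) (-s0) (by linarith) (by nlinarith) ?_ ?_⟩
      · field_simp
      · linear_combination (1 / 3) * h4
    · refine ⟨3, -1, ρ * s0 / 3, s0, -s0 * θ, l1 / s0, l2 / s0, Or.inr ⟨rfl, rfl⟩,
        asm 3 (-1) (ρ * s0 / 3) s0 (by linarith) (by positivity) ?_ ?_⟩
      · field_simp
      · linear_combination (1 / 3) * h4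
  · obtain ⟨s0, hs0, hs4⟩ := fourth_root (κ / ρ) hpos
    have h4 : ρ * s0 ^ 4 = κ := by rw [hs4]; field_simp
    rcases lt_or_gt_of_ne hρ0 with hr | hr
    · refine ⟨1, 1, ρ * (-s0), -s0, -(-s0) * θ, l1 / (-s0), l2 / (-s0), Or.inl ⟨rfl, rfl⟩,
        asm 1 1 (ρ * (-s0)) (-s0) (by linarith) (by nlinarith) ?_ ?_⟩
      · field_simp
      · linear_combination (-1) * h4
    · refine ⟨1, 1, ρ * s0, s0, -s0 * θ, l1 / s0, l2 / s0, Or.inl ⟨rfl, rfl⟩,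
        asm 1 1 (ρ * s0) s0 (by linarith) (by positivity) ?_ ?_⟩
      · field_simp
      · linear_combination (-1) * h4

theorem exists_min_vec (x1 x2 y1 y2 : ℝ) (hdet : x1 * y2 - x2 * y1 = 1) :
    ∃ w : ℤ × ℤ, w ≠ 0 ∧ ∀ v : ℤ × ℤ, v ≠ 0 → N2 x1 x2 y1 y2 w ≤ N2 x1 x2 y1 y2 v := by
  set R := N2 x1 x2 y1 y2 (1, 0) with hR
  set B := (|x1| + |x2| + |y1| + |y2|) * Real.sqrt R with hB
  let S : Set (ℤ × ℤ) := {w | w ≠ 0 ∧ N2 x1 x2 y1 y2 w ≤ R}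
  have hfin : S.Finite := by
    refine ((Finset.finite_toSet ((Finset.Icc (-⌈B⌉) ⌈B⌉) ×ˢ (Finset.Icc (-⌈B⌉) ⌈B⌉)))).subset ?_
    rintro w ⟨_, hw⟩
    have hs0 : 0 ≤ Real.sqrt R := Real.sqrt_nonneg _
    have hR0 : 0 ≤ R := N2_nonneg _ _ _ _ _
    have hX : |x1 * (w.1:ℝ) + x2 * w.2| ≤ Real.sqrt R :=
      absX_le hs0 (by rw [Real.sq_sqrt hR0]; exact hw)
    have hY : |y1 * (w.1:ℝ) + y2 * w.2| ≤ Real.sqrt R :=
      absY_le hs0 (by rw [Real.sq_sqrt hR0]; exact hw)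
    have e1 : (w.1 : ℝ) = y2 * (x1 * w.1 + x2 * w.2) - x2 * (y1 * w.1 + y2 * w.2) := by
      linear_combination (-(w.1:ℝ)) * hdet
    have e2 : (w.2 : ℝ) = x1 * (y1 * w.1 + y2 * w.2) - y1 * (x1 * w.1 + x2 * w.2) := by
      linear_combination (-(w.2:ℝ)) * hdet
    have b1 : |(w.1:ℝ)| ≤ B := by
      rw [e1]
      refine (abs_sub _ _).trans ?_
      rw [abs_mul, abs_mul, hB]
      have := mul_le_mul_of_nonneg_left hX (abs_nonneg y2)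
      have := mul_le_mul_of_nonneg_left hY (abs_nonneg x2)
      nlinarith [mul_nonneg (abs_nonneg x1) hs0, mul_nonneg (abs_nonneg y1) hs0]
    have b2 : |(w.2:ℝ)| ≤ B := by
      rw [e2]
      refine (abs_sub _ _).trans ?_
      rw [abs_mul, abs_mul, hB]
      have := mul_le_mul_of_nonneg_left hY (abs_nonneg x1)
      have := mul_le_mul_of_nonneg_left hX (abs_nonneg y1)
      nlinarith [mul_nonneg (abs_nonneg x2) hs0, mul_nonneg (abs_nonneg y2) hs0]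
    have c1 := abs_le.1 (b1.trans (Int.le_ceil B))
    have c2 := abs_le.1 (b2.trans (Int.le_ceil B))
    simp only [Finset.coe_product, Set.mem_prod, Finset.mem_coe, Finset.mem_Icc]
    exact ⟨⟨by exact_mod_cast c1.1, by exact_mod_cast c1.2⟩,
      ⟨by exact_mod_cast c2.1, by exact_mod_cast c2.2⟩⟩
  have hne : S.Nonempty := ⟨(1, 0), by simp, le_rfl⟩
  obtain ⟨w, hwS, hw⟩ := Set.exists_min_image S (N2 x1 x2 y1 y2) hfin hne
  refine ⟨w, hwS.1, ?_⟩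
  intro v hv
  by_cases h : N2 x1 x2 y1 y2 v ≤ R
  · exact hw v ⟨hv, h⟩
  · exact hwS.2.trans (le_of_lt (not_le.1 h))

theorem N2_pos (x1 x2 y1 y2 : ℝ) (hdet : x1 * y2 - x2 * y1 = 1) (w : ℤ × ℤ) (hw : w ≠ 0) :
    0 < N2 x1 x2 y1 y2 w := by
  rcases (N2_nonneg x1 x2 y1 y2 w).lt_or_eq with h | h
  · exact h
  · exfalso
    unfold N2 at h
    have h1 : x1 * (w.1:ℝ) + x2 * w.2 = 0 := by
      nlinarith [sq_nonneg (x1 * (w.1:ℝ) + x2 * w.2), sq_nonneg (y1 * (w.1:ℝ) + y2 * w.2)]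
    have h2 : y1 * (w.1:ℝ) + y2 * w.2 = 0 := by
      nlinarith [sq_nonneg (x1 * (w.1:ℝ) + x2 * w.2), sq_nonneg (y1 * (w.1:ℝ) + y2 * w.2)]
    have e1 : (w.1 : ℝ) = 0 := by linear_combination (-(w.1:ℝ)) * hdet + y2 * h1 - x2 * h2
    have e2 : (w.2 : ℝ) = 0 := by linear_combination (-(w.2:ℝ)) * hdet - y1 * h1 + x1 * h2
    apply hw
    exact Prod.ext (by exact_mod_cast e1) (by exact_mod_cast e2)

theorem reduce_basis (x1 x2 y1 y2 : ℝ) (hdet : x1 * y2 - x2 * y1 = 1) :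
    ∃ w1 w2 : ℤ × ℤ, w1.1 * w2.2 - w2.1 * w1.2 = 1 ∧
      N2 x1 x2 y1 y2 w1 ≤ N2 x1 x2 y1 y2 w2 ∧
      |2 * ((x1 * w1.1 + x2 * w1.2) * (x1 * w2.1 + x2 * w2.2) +
        (y1 * w1.1 + y2 * w1.2) * (y1 * w2.1 + y2 * w2.2))| ≤ N2 x1 x2 y1 y2 w1 := by
  obtain ⟨w, hw0, hmin⟩ := exists_min_vec x1 x2 y1 y2 hdet
  have hpos := N2_pos x1 x2 y1 y2 hdet w hw0
  -- primitivity
  have hcop : IsCoprime w.1 w.2 := by
    rw [Int.isCoprime_iff_gcd_eq_one]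
    set g := Int.gcd w.1 w.2 with hg
    have hg0 : g ≠ 0 := by
      intro h0
      rw [hg, Int.gcd_eq_zero_iff] at h0
      exact hw0 (Prod.ext h0.1 h0.2)
    obtain ⟨u, hu⟩ : (g : ℤ) ∣ w.1 := Int.gcd_dvd_left _ _
    obtain ⟨v, hv⟩ : (g : ℤ) ∣ w.2 := Int.gcd_dvd_right _ _
    have hne : ((u, v) : ℤ × ℤ) ≠ 0 := by
      intro h0
      simp only [Prod.mk_eq_zero] at h0
      apply hw0
      refine Prod.ext ?_ ?_
      · rw [hu, h0.1]; simp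
      · rw [hv, h0.2]; simp
    have h1 := hmin (u, v) hne
    have h2 : N2 x1 x2 y1 y2 w = (g : ℝ) ^ 2 * N2 x1 x2 y1 y2 (u, v) := by
      have hu' : (w.1 : ℝ) = g * u := by exact_mod_cast hu
      have hv' : (w.2 : ℝ) = g * v := by exact_mod_cast hv
      unfold N2
      rw [hu', hv']; ring
    have h3 := N2_pos x1 x2 y1 y2 hdet _ hne
    rw [h2] at h1
    have h4 : (g : ℝ) ^ 2 ≤ 1 := by
      by_contra hcon
      push Not at hcon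
      nlinarith
    have h5 : g ^ 2 ≤ 1 := by exact_mod_cast h4
    have h6 : g ≤ 1 := by nlinarith
    omega
  obtain ⟨a, b, hab⟩ := hcop
  set P := (x1 * (w.1:ℝ) + x2 * w.2) * (x1 * ((-b : ℤ):ℝ) + x2 * (a:ℝ)) +
        (y1 * (w.1:ℝ) + y2 * w.2) * (y1 * ((-b : ℤ):ℝ) + y2 * (a:ℝ)) with hP
  set k : ℤ := round (P / N2 x1 x2 y1 y2 w) with hk
  refine ⟨w, (-b - k * w.1, a - k * w.2), ?_, ?_, ?_⟩
  · simp only
    linear_combination hab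
  · apply hmin
    intro h0
    simp only [Prod.mk_eq_zero] at h0
    have : w.1 * (a - k * w.2) - (-b - k * w.1) * w.2 = 1 := by linear_combination hab
    rw [h0.1, h0.2] at this
    simp at this
  · have h1 := abs_sub_round (P / N2 x1 x2 y1 y2 w)
    rw [← hk] at h1
    have h2 : (x1 * (w.1:ℝ) + x2 * w.2) * (x1 * ((-b - k * w.1 : ℤ):ℝ) + x2 * ((a - k * w.2 : ℤ):ℝ)) +
        (y1 * (w.1:ℝ) + y2 * w.2) * (y1 * ((-b - k * w.1 : ℤ):ℝ) + y2 * ((a - k * w.2 : ℤ):ℝ)) =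
        (P / N2 x1 x2 y1 y2 w - k) * N2 x1 x2 y1 y2 w := by
      rw [sub_mul, div_mul_cancel₀ _ hpos.ne', hP]
      unfold N2
      push_cast
      ring
    rw [h2, abs_mul, abs_mul, abs_two, abs_of_pos hpos]
    nlinarith

/-- evaluation of a binary cubic form -/
def ev {R : Type*} [CommRing R] (a b c d x y : R) : R :=
  a * x ^ 3 + b * x ^ 2 * y + c * x * y ^ 2 + d * y ^ 3

/-- polar form, linear in `(x1, y1)` and quadratic in `(x2, y2)` -/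
def pol {R : Type*} [CommRing R] (a b c d x1 y1 x2 y2 : R) : R :=
  3 * a * x1 * x2 ^ 2 + b * (x2 ^ 2 * y1 + 2 * x1 * x2 * y2) +
    c * (x1 * y2 ^ 2 + 2 * x2 * y1 * y2) + 3 * d * y1 * y2 ^ 2

theorem NF.transform {a b c d c1 c2 l x1 x2 y1 y2 : ℝ} (h : NF a b c d c1 c2 l x1 x2 y1 y2)
    (p r q s : ℝ) (hpq : p * s - q * r = 1) :
    NF (ev a b c d p r) (pol a b c d q s p r) (pol a b c d p r q s) (ev a b c d q s)
      c1 c2 l (x1 * p + x2 * r) (x1 * q + x2 * s) (y1 * p + y2 * r) (y1 * q + y2 * s) := by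
  refine ⟨h.lpos, ?_, ?_, ?_, ?_, ?_⟩
  · linear_combination (p * s - q * r) * h.det + hpq
  · rw [h.ea, h.eb, h.ec, h.ed]; unfold ev gv pv; ring
  · rw [h.ea, h.eb, h.ec, h.ed]; unfold pol gv pv; ring
  · rw [h.ea, h.eb, h.ec, h.ed]; unfold pol gv pv; ring
  · rw [h.ea, h.eb, h.ec, h.ed]; unfold ev gv pv; ring

/-- the reduced region -/
def Reg (L μ a b c d : ℝ) : Prop :=
  |a| ≤ 12 * L * μ ^ 3 ∧ |b| ≤ 12 * L * μ ∧ |c| * μ ≤ 12 * L ∧ |d| * μ ^ 3 ≤ 12 * L ∧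
    (|b * c - a * d| ≤ 12 * L ^ 2 * μ ^ 2 ∨ |b * c - 9 * a * d| ≤ 12 * L ^ 2 * μ ^ 2)

theorem gv_bound (c1 c2 X Y N : ℝ) (hc1 : |c1| ≤ 3) (hc2 : |c2| ≤ 3) (hN : 0 ≤ N)
    (h : X ^ 2 + Y ^ 2 = N ^ 2) : |gv c1 c2 X Y| ≤ 3 * N ^ 3 := by
  have hX : |X| ≤ N := abs_le_of_sq_le_sq (by nlinarith [sq_nonneg Y]) hN
  have hq : |c1 * Y ^ 2 + c2 * X ^ 2| ≤ 3 * N ^ 2 := by
    calc |c1 * Y ^ 2 + c2 * X ^ 2| ≤ |c1 * Y ^ 2| + |c2 * X ^ 2| := abs_add_le _ _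
      _ = |c1| * Y ^ 2 + |c2| * X ^ 2 := by simp [abs_mul]
      _ ≤ 3 * Y ^ 2 + 3 * X ^ 2 := by gcongr
      _ = 3 * N ^ 2 := by rw [← h]; ring
  unfold gv
  rw [abs_mul]
  calc |X| * |c1 * Y ^ 2 + c2 * X ^ 2| ≤ N * (3 * N ^ 2) :=
        mul_le_mul hX hq (abs_nonneg _) hN
    _ = 3 * N ^ 3 := by ring

theorem pv_bound (c1 c2 X1 Y1 X2 Y2 N M : ℝ) (hc1 : |c1| ≤ 3) (hc2 : |c2| ≤ 3) (hN : 0 ≤ N)
    (hM : 0 ≤ M) (h1 : X1 ^ 2 + Y1 ^ 2 = N ^ 2) (h2 : X2 ^ 2 + Y2 ^ 2 = M ^ 2) :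
    |pv c1 c2 X1 Y1 X2 Y2| ≤ 9 * N * M ^ 2 := by
  have hX1 : |X1| ≤ N := abs_le_of_sq_le_sq (by nlinarith [sq_nonneg Y1]) hN
  have hX2 : |X2| ≤ M := abs_le_of_sq_le_sq (by nlinarith [sq_nonneg Y2]) hM
  have hq : |c1 * Y2 ^ 2 + c2 * X2 ^ 2| ≤ 3 * M ^ 2 := by
    calc |c1 * Y2 ^ 2 + c2 * X2 ^ 2| ≤ |c1 * Y2 ^ 2| + |c2 * X2 ^ 2| := abs_add_le _ _
      _ = |c1| * Y2 ^ 2 + |c2| * X2 ^ 2 := by simp [abs_mul]
      _ ≤ 3 * Y2 ^ 2 + 3 * X2 ^ 2 := by gcongr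
      _ = 3 * M ^ 2 := by rw [← h2]; ring
  have hp : |2 * c1 * Y1 * Y2 + 2 * c2 * X1 * X2| ≤ 6 * (N * M) := by
    have q0 : (|Y1| * |Y2| + |X1| * |X2|) ^ 2 ≤ (N * M) ^ 2 := by
      rw [mul_pow, ← h1, ← h2]
      nlinarith [sq_nonneg (|X1| * |Y2| - |Y1| * |X2|), sq_abs X1, sq_abs X2, sq_abs Y1, sq_abs Y2]
    have q1 : |Y1| * |Y2| + |X1| * |X2| ≤ N * M := abs_le_of_sq_le_sq' q0 (by positivity) |>.2
    calc |2 * c1 * Y1 * Y2 + 2 * c2 * X1 * X2| ≤ |2 * c1 * Y1 * Y2| + |2 * c2 * X1 * X2| :=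
          abs_add_le _ _
      _ = 2 * |c1| * (|Y1| * |Y2|) + 2 * |c2| * (|X1| * |X2|) := by
          simp only [abs_mul, abs_two]; ring
      _ ≤ 2 * 3 * (|Y1| * |Y2|) + 2 * 3 * (|X1| * |X2|) := by gcongr
      _ ≤ 6 * (N * M) := by linarith
  unfold pv
  refine (abs_add_le _ _).trans ?_
  rw [abs_mul, abs_mul]
  have e1 : |X1| * |c1 * Y2 ^ 2 + c2 * X2 ^ 2| ≤ N * (3 * M ^ 2) :=
    mul_le_mul hX1 hq (abs_nonneg _) hN
  have e2 : |X2| * |2 * c1 * Y1 * Y2 + 2 * c2 * X1 * X2| ≤ M * (6 * (N * M)) :=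
    mul_le_mul hX2 hp (abs_nonneg _) hM
  nlinarith

theorem reg_of_NF {a b c d c1 c2 l X1 X2 Y1 Y2 : ℝ} (hT : NF a b c d c1 c2 l X1 X2 Y1 Y2)
    (hc : (c1 = 1 ∧ c2 = 1) ∨ (c1 = 3 ∧ c2 = -1)) (L : ℝ) (hL : 0 < L) (hlL : l ≤ L)
    (hle : X1 ^ 2 + Y1 ^ 2 ≤ X2 ^ 2 + Y2 ^ 2)
    (hip : |2 * (X1 * X2 + Y1 * Y2)| ≤ X1 ^ 2 + Y1 ^ 2) :
    ∃ μ : ℝ, 0 < μ ∧ μ ≤ 2 ∧ Reg L μ a b c d := by
  have hl0 := hT.lpos
  have hc1 : |c1| ≤ 3 := by rcases hc with ⟨h, _⟩ | ⟨h, _⟩ <;> rw [h] <;> norm_num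
  have hc2 : |c2| ≤ 3 := by rcases hc with ⟨_, h⟩ | ⟨_, h⟩ <;> rw [h] <;> norm_num
  have hdet' : X1 * Y2 - X2 * Y1 = 1 := hT.det
  obtain ⟨μ, hμ0, hμ⟩ : ∃ μ : ℝ, 0 ≤ μ ∧ X1 ^ 2 + Y1 ^ 2 = μ ^ 2 :=
    ⟨Real.sqrt (X1 ^ 2 + Y1 ^ 2), Real.sqrt_nonneg _, (Real.sq_sqrt (by positivity)).symm⟩
  obtain ⟨M, hM0, hM⟩ : ∃ M : ℝ, 0 ≤ M ∧ X2 ^ 2 + Y2 ^ 2 = M ^ 2 :=
    ⟨Real.sqrt (X2 ^ 2 + Y2 ^ 2), Real.sqrt_nonneg _, (Real.sq_sqrt (by positivity)).symm⟩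
  obtain ⟨B, hB⟩ : ∃ B : ℝ, B = X1 * X2 + Y1 * Y2 := ⟨_, rfl⟩
  rw [← hB] at hip
  have hμM : μ ≤ M := by
    rw [hμ, hM] at hle
    exact (abs_le_of_sq_le_sq' hle hM0).2
  rw [hμ] at hip
  have hBsq : (2 * B) ^ 2 ≤ (μ ^ 2) ^ 2 := by
    rw [← sq_abs (2 * B)]
    exact pow_le_pow_left₀ (abs_nonneg _) hip 2
  have hprod : (μ * M) ^ 2 = 1 + B ^ 2 := by
    rw [mul_pow, ← hμ, ← hM, hB]
    linear_combination (X1 * Y2 - X2 * Y1 + 1) * hdet'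
  have hprod2 : (μ * M) ^ 2 ≤ 4 / 3 := by
    have h1 : (μ ^ 2) ^ 2 ≤ (μ * M) ^ 2 := by
      rw [show μ ^ 2 = μ * μ by ring]
      exact pow_le_pow_left₀ (by positivity) (mul_le_mul_of_nonneg_left hμM hμ0) 2
    nlinarith
  have hprod3 : μ * M ≤ 7 / 6 := by
    have : (μ * M) ^ 2 ≤ (7 / 6) ^ 2 := by norm_num; linarith
    exact (abs_le_of_sq_le_sq' this (by norm_num)).2
  have hμpos : 0 < μ := by
    rcases hμ0.lt_or_eq with h | h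
    · exact h
    · exfalso
      rw [← h, zero_mul] at hprod
      have := sq_nonneg B
      norm_num at hprod
      linarith
  have hμ2 : μ ≤ 2 := by
    have h1 : μ * μ ≤ 7 / 6 := (mul_le_mul_of_nonneg_left hμM hμ0).trans hprod3
    by_contra hcon
    push Not at hcon
    have : 2 * 2 < μ * μ := mul_lt_mul'' hcon hcon (by norm_num) (by norm_num)
    linarith
  refine ⟨μ, hμpos, hμ2, ?_, ?_, ?_, ?_, ?_⟩
  · -- a
    rw [hT.ea, abs_mul, abs_of_pos hl0]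
    have h1 := gv_bound c1 c2 X1 Y1 μ hc1 hc2 hμ0 hμ
    calc l * |gv c1 c2 X1 Y1| ≤ L * (3 * μ ^ 3) :=
          mul_le_mul hlL h1 (abs_nonneg _) hL.le
      _ = 3 * (L * μ ^ 3) := by ring
      _ ≤ 12 * (L * μ ^ 3) := by
        have : 0 < L * μ ^ 3 := by positivity
        linarith
      _ = 12 * L * μ ^ 3 := by ring
  · rw [hT.eb, abs_mul, abs_of_pos hl0]
    have h1 := pv_bound c1 c2 X2 Y2 X1 Y1 M μ hc1 hc2 hM0 hμ0 hM hμ
    calc l * |pv c1 c2 X2 Y2 X1 Y1| ≤ L * (9 * M * μ ^ 2) :=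
          mul_le_mul hlL h1 (abs_nonneg _) hL.le
      _ = 9 * L * μ * (μ * M) := by ring
      _ ≤ 9 * L * μ * (7 / 6) := mul_le_mul_of_nonneg_left hprod3 (by positivity)
      _ ≤ 12 * L * μ := by
        have : 0 < L * μ := by positivity
        linarith
  · rw [hT.ec, abs_mul, abs_of_pos hl0]
    have h1 := pv_bound c1 c2 X1 Y1 X2 Y2 μ M hc1 hc2 hμ0 hM0 hμ hM
    calc l * |pv c1 c2 X1 Y1 X2 Y2| * μ ≤ L * (9 * μ * M ^ 2) * μ := by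
          apply mul_le_mul_of_nonneg_right _ hμ0
          exact mul_le_mul hlL h1 (abs_nonneg _) hL.le
      _ = 9 * L * (μ * M) ^ 2 := by ring
      _ ≤ 9 * L * (4 / 3) := mul_le_mul_of_nonneg_left hprod2 (by positivity)
      _ = 12 * L := by ring
  · rw [hT.ed, abs_mul, abs_of_pos hl0]
    have h1 := gv_bound c1 c2 X2 Y2 M hc1 hc2 hM0 hM
    calc l * |gv c1 c2 X2 Y2| * μ ^ 3 ≤ L * (3 * M ^ 3) * μ ^ 3 := by
          apply mul_le_mul_of_nonneg_right _ (by positivity)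
          exact mul_le_mul hlL h1 (abs_nonneg _) hL.le
      _ = 3 * L * ((μ * M) ^ 2 * (μ * M)) := by ring
      _ ≤ 3 * L * (4 / 3 * (7 / 6)) := by gcongr
      _ ≤ 12 * L := by linarith
  · rcases hc with ⟨hh1, hh2⟩ | ⟨hh1, hh2⟩
    · left
      have e1 : b * c - a * d = l ^ 2 * ((2 * B) * (X1 ^ 2 * M ^ 2 + X1 * X2 * (2 * B) +
          X2 ^ 2 * μ ^ 2)) := by
        rw [hT.ea, hT.eb, hT.ec, hT.ed, ← hμ, ← hM, hh1, hh2, hB]
        unfold gv pv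
        ring
      have e2 : |X1 ^ 2 * M ^ 2 + X1 * X2 * (2 * B) + X2 ^ 2 * μ ^ 2| ≤ 4 := by
        have g1 : |X1| ≤ μ := abs_le_of_sq_le_sq (by linarith [sq_nonneg Y1]) hμ0
        have g2 : |X2| ≤ M := abs_le_of_sq_le_sq (by linarith [sq_nonneg Y2]) hM0
        have g3 : |X1 ^ 2 * M ^ 2| ≤ (μ * M) ^ 2 := by
          rw [abs_mul, abs_pow, abs_pow, mul_pow, abs_of_nonneg hM0]
          gcongr
        have g4 : |X2 ^ 2 * μ ^ 2| ≤ (μ * M) ^ 2 := by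
          rw [abs_mul, abs_pow, abs_pow, mul_pow, abs_of_nonneg hμ0, mul_comm]
          gcongr
        have g5 : |X1 * X2 * (2 * B)| ≤ (μ * M) ^ 2 := by
          rw [abs_mul, abs_mul X1]
          calc |X1| * |X2| * |2 * B| ≤ μ * M * μ ^ 2 := by gcongr
            _ ≤ μ * M * (μ * M) := by
              apply mul_le_mul_of_nonneg_left _ (by positivity)
              rw [sq]; exact mul_le_mul_of_nonneg_left hμM hμ0
            _ = (μ * M) ^ 2 := by ring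
        calc _ ≤ |X1 ^ 2 * M ^ 2 + X1 * X2 * (2 * B)| + |X2 ^ 2 * μ ^ 2| := abs_add_le _ _
          _ ≤ |X1 ^ 2 * M ^ 2| + |X1 * X2 * (2 * B)| + |X2 ^ 2 * μ ^ 2| := by
            gcongr; exact abs_add_le _ _
          _ ≤ 4 := by linarith
      rw [e1, abs_mul, abs_mul, abs_of_nonneg (by positivity : (0:ℝ) ≤ l ^ 2)]
      calc l ^ 2 * (|2 * B| * |X1 ^ 2 * M ^ 2 + X1 * X2 * (2 * B) + X2 ^ 2 * μ ^ 2|) ≤
            L ^ 2 * (μ ^ 2 * 4) := by gcongr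
        _ ≤ 12 * L ^ 2 * μ ^ 2 := by
          have : 0 < L ^ 2 * μ ^ 2 := by positivity
          linarith
    · right
      have e1 : b * c - 9 * a * d = l ^ 2 * (9 * (2 * B)) := by
        have : b * c - 9 * a * d = l ^ 2 * (9 * (2 * B)) * (X1 * Y2 - X2 * Y1) ^ 2 := by
          rw [hT.ea, hT.eb, hT.ec, hT.ed, hh1, hh2, hB]
          unfold gv pv
          ring
        rw [this, hdet']; ring
      rw [e1, abs_mul, abs_mul 9, abs_of_nonneg (by positivity : (0:ℝ) ≤ l ^ 2),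
        abs_of_nonneg (by norm_num : (0:ℝ) ≤ 9)]
      calc l ^ 2 * (9 * |2 * B|) ≤ L ^ 2 * (9 * μ ^ 2) := by gcongr
        _ ≤ 12 * L ^ 2 * μ ^ 2 := by
          have : 0 < L ^ 2 * μ ^ 2 := by positivity
          linarith

theorem NF.l_le {a b c d c1 c2 l x1 x2 y1 y2 : ℝ} (h : NF a b c d c1 c2 l x1 x2 y1 y2)
    (hc : (c1 = 1 ∧ c2 = 1) ∨ (c1 = 3 ∧ c2 = -1)) (L : ℝ) (hL : 0 < L)
    (hDL : |disc4 a b c d| ≤ L ^ 4) : l ≤ L := by
  have h1 := h.disc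
  have h0 : 0 ≤ l ^ 4 := by positivity
  have h2 : l ^ 4 ≤ L ^ 4 := by
    rcases hc with ⟨h, h'⟩ | ⟨h, h'⟩
    · rw [h1, h, h', show (-4:ℝ) * 1 ^ 3 * 1 * l ^ 4 = -(4 * l ^ 4) by ring, abs_neg,
        abs_of_nonneg (by positivity)] at hDL
      linarith
    · rw [h1, h, h', show (-4:ℝ) * 3 ^ 3 * -1 * l ^ 4 = (108 * l ^ 4) by ring,
        abs_of_nonneg (by positivity)] at hDL
      linarith
  exact le_of_pow_le_pow_left₀ (by norm_num) hL.le h2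

theorem NF.le_l {a b c d c1 c2 l x1 x2 y1 y2 : ℝ} (h : NF a b c d c1 c2 l x1 x2 y1 y2)
    (hc : (c1 = 1 ∧ c2 = 1) ∨ (c1 = 3 ∧ c2 = -1)) (L : ℝ)
    (hDL : L ^ 4 / 2 ≤ |disc4 a b c d|) : L / 4 ≤ l := by
  have h1 := h.disc
  have h0 : 0 ≤ l ^ 4 := by positivity
  have h2 : (L / 4) ^ 4 ≤ l ^ 4 := by
    have e : (L / 4) ^ 4 = L ^ 4 / 256 := by ring
    rw [e]
    rcases hc with ⟨h, h'⟩ | ⟨h, h'⟩
    · rw [h1, h, h', show (-4:ℝ) * 1 ^ 3 * 1 * l ^ 4 = -(4 * l ^ 4) by ring, abs_neg,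
        abs_of_nonneg (by positivity)] at hDL
      linarith
    · rw [h1, h, h', show (-4:ℝ) * 3 ^ 3 * -1 * l ^ 4 = (108 * l ^ 4) by ring,
        abs_of_nonneg (by positivity)] at hDL
      linarith
  exact le_of_pow_le_pow_left₀ (by norm_num) h.lpos.le h2

theorem reduce_form (a b c d : ℝ) (ha : a ≠ 0) (L : ℝ) (hL : 0 < L) (hD : disc4 a b c d ≠ 0)
    (hDL : |disc4 a b c d| ≤ L ^ 4) :
    ∃ w1 w2 : ℤ × ℤ, w1.1 * w2.2 - w2.1 * w1.2 = 1 ∧ ∃ μ : ℝ, 0 < μ ∧ μ ≤ 2 ∧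
      Reg L μ (ev a b c d w1.1 w1.2) (pol a b c d w2.1 w2.2 w1.1 w1.2)
        (pol a b c d w1.1 w1.2 w2.1 w2.2) (ev a b c d w2.1 w2.2) := by
  obtain ⟨c1, c2, l, x1, x2, y1, y2, hc, hNF⟩ := normal_form a b c d ha hD
  obtain ⟨w1, w2, hw, hle, hip⟩ := reduce_basis x1 x2 y1 y2 hNF.det
  have hwR : (w1.1:ℝ) * w2.2 - w2.1 * w1.2 = 1 := by exact_mod_cast hw
  exact ⟨w1, w2, hw, reg_of_NF (hNF.transform w1.1 w1.2 w2.1 w2.2 hwR) hc L hL
    (hNF.l_le hc L hL hDL) hle hip⟩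

theorem sum_inv_sqrt (N : ℕ) :
    ∑ k ∈ Finset.Icc 1 N, (1 / Real.sqrt (k : ℝ)) ≤ 2 * Real.sqrt N := by
  induction N with
  | zero => simp
  | succ n ih =>
    rw [Finset.sum_Icc_succ_top (by omega)]
    have h1 : 0 < Real.sqrt ((n + 1 : ℕ) : ℝ) := Real.sqrt_pos.2 (by positivity)
    have h2 : 0 ≤ Real.sqrt (n : ℝ) := Real.sqrt_nonneg _
    have h3 : Real.sqrt ((n + 1 : ℕ) : ℝ) ^ 2 = n + 1 := by
      rw [Real.sq_sqrt (by positivity)]; push_cast; ring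
    have h4 : Real.sqrt (n : ℝ) ^ 2 = n := Real.sq_sqrt (by positivity)
    have h5 : 1 / Real.sqrt ((n + 1 : ℕ) : ℝ) ≤
        2 * Real.sqrt ((n + 1 : ℕ) : ℝ) - 2 * Real.sqrt (n : ℝ) := by
      rw [div_le_iff₀ h1]
      nlinarith [sq_nonneg (Real.sqrt ((n + 1 : ℕ) : ℝ) - Real.sqrt (n : ℝ))]
    linarith

theorem int_count_abs (s : Finset ℤ) (r : ℝ) (hr : 0 ≤ r) (x : ℝ) (hs : ∀ d ∈ s, |(d : ℝ) - x| ≤ r) :
    (s.card : ℝ) ≤ 2 * r + 1 := by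
  have := int_count s (x - r) (x + r) (by linarith) (by
    intro d hd
    have := abs_le.1 (hs d hd)
    constructor <;> linarith)
  linarith

theorem d_count (L m : ℝ) (hL : 1 ≤ L) (hm : 0 < m) (hm2 : m ≤ 2) (κ a : ℝ) (hκ : 1 ≤ κ)
    (ha1 : 1 ≤ |a|) (ha2 : |a| ≤ 12 * L * m ^ 3) (bc : ℝ) (s : Finset ℤ)
    (h1 : ∀ d ∈ s, |(d : ℝ)| * m ^ 3 ≤ 96 * L)
    (h2 : ∀ d ∈ s, |bc - κ * a * d| ≤ 12 * L ^ 2 * m ^ 2) :
    (s.card : ℝ) ≤ 215 * (Real.sqrt (L ^ 3 / m) / Real.sqrt |a|) := by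
  have hL0 : 0 < L := by linarith
  have ha0 : 0 < |a| := by linarith
  have hm3 : 0 < m ^ 3 := by positivity
  have hbase : 1 ≤ 12 * L * m ^ 3 := ha1.trans ha2
  have e1 : (s.card : ℝ) ≤ 960 * L / m ^ 3 := by
    have := int_count_abs s (96 * L / m ^ 3) (by positivity) 0 (by
      intro d hd
      rw [sub_zero, le_div_iff₀ hm3]
      exact h1 d hd)
    refine this.trans ?_
    have h3 : (1 : ℝ) ≤ 768 * L / m ^ 3 := by
      rw [le_div_iff₀ hm3]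
      have h4 : m ^ 3 ≤ 8 := by
        calc m ^ 3 ≤ 2 ^ 3 := pow_le_pow_left₀ hm.le hm2 3
          _ = 8 := by norm_num
      linarith
    have h5 : 2 * (96 * L / m ^ 3) + 768 * L / m ^ 3 = 960 * L / m ^ 3 := by ring
    linarith
  have e2 : (s.card : ℝ) ≤ 48 * L ^ 2 * m ^ 2 / |a| := by
    have hκ0 : 0 < κ := by linarith
    have ha0' : a ≠ 0 := by intro h; rw [h] at ha0; simp at ha0
    have := int_count_abs s (12 * L ^ 2 * m ^ 2 / |a|) (by positivity) (bc / (κ * a)) (by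
      intro d hd
      have h3 := h2 d hd
      rw [le_div_iff₀ ha0]
      have h4 : ((d : ℝ) - bc / (κ * a)) * (κ * a) = -(bc - κ * a * d) := by
        field_simp; ring
      have h5 : |(d : ℝ) - bc / (κ * a)| * (κ * |a|) = |bc - κ * a * d| := by
        rw [← abs_neg (bc - κ * a * d), ← h4, abs_mul ((d:ℝ) - _), abs_mul κ, abs_of_pos hκ0]
      have h6 : 0 ≤ |(d : ℝ) - bc / (κ * a)| * |a| := by positivity
      nlinarith)
    refine this.trans ?_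
    have h3 : (1 : ℝ) ≤ 24 * L ^ 2 * m ^ 2 / |a| := by
      rw [le_div_iff₀ ha0, one_mul]
      refine ha2.trans ?_
      have h4 : m ^ 3 ≤ 2 * m ^ 2 := by
        rw [pow_succ]; nlinarith [sq_nonneg m]
      have h5 : L ≤ L ^ 2 := by nlinarith
      calc 12 * L * m ^ 3 ≤ 12 * L ^ 2 * (2 * m ^ 2) := by gcongr
        _ = 24 * L ^ 2 * m ^ 2 := by ring
    have h5 : 2 * (12 * L ^ 2 * m ^ 2 / |a|) + 24 * L ^ 2 * m ^ 2 / |a| =
        48 * L ^ 2 * m ^ 2 / |a| := by ring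
    linarith
  have e3 : (s.card : ℝ) ^ 2 ≤ (215 * (Real.sqrt (L ^ 3 / m) / Real.sqrt |a|)) ^ 2 := by
    have h3 : (215 * (Real.sqrt (L ^ 3 / m) / Real.sqrt |a|)) ^ 2 = 46225 * (L ^ 3 / m / |a|) := by
      rw [mul_pow, div_pow, Real.sq_sqrt (by positivity), Real.sq_sqrt (by positivity)]
      norm_num
    rw [h3]
    calc (s.card : ℝ) ^ 2 = s.card * s.card := by ring
      _ ≤ (960 * L / m ^ 3) * (48 * L ^ 2 * m ^ 2 / |a|) := by gcongr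
      _ = 46080 * (L ^ 3 / m / |a|) := by field_simp; ring
      _ ≤ 46225 * (L ^ 3 / m / |a|) := by
        have : 0 ≤ L ^ 3 / m / |a| := by positivity
        linarith
  exact (abs_le_of_sq_le_sq' e3 (by positivity)).2

theorem shell_count (L m : ℝ) (hL : 1 ≤ L) (hm : 0 < m) (hm2 : m ≤ 2)
    (s : Finset (ℤ × ℤ × ℤ × ℤ))
    (hs : ∀ f ∈ s, f.1 ≠ 0 ∧ ∃ μ : ℝ, m / 2 < μ ∧ μ ≤ m ∧
      Reg L μ (f.1 : ℝ) (f.2.1 : ℝ) (f.2.2.1 : ℝ) (f.2.2.2 : ℝ)) :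
    (s.card : ℝ) ≤ 104025600 * L ^ 4 * m := by
  classical
  have hL0 : 0 < L := by linarith
  rcases s.eq_empty_or_nonempty with he | ⟨f0, hf0⟩
  · rw [he]; simp; positivity
  -- bounds
  have hA : ∀ f ∈ s, 1 ≤ |(f.1 : ℝ)| ∧ |(f.1 : ℝ)| ≤ 12 * L * m ^ 3 := by
    intro f hf
    obtain ⟨h0, μ, h1, h2, h3, _⟩ := hs f hf
    have hμ : 0 < μ := by linarith
    refine ⟨?_, h3.trans (by gcongr)⟩
    rw [← Int.cast_abs]
    exact_mod_cast Int.one_le_abs h0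
  have hB : ∀ f ∈ s, |(f.2.1 : ℝ)| ≤ 12 * L * m := by
    intro f hf
    obtain ⟨h0, μ, h1, h2, _, h3, _⟩ := hs f hf
    have hμ : 0 < μ := by linarith
    exact h3.trans (by gcongr)
  have hC : ∀ f ∈ s, |(f.2.2.1 : ℝ)| ≤ 24 * L / m := by
    intro f hf
    obtain ⟨h0, μ, h1, h2, _, _, h3, _⟩ := hs f hf
    have hμ : 0 < μ := by linarith
    rw [le_div_iff₀ hm]
    have : |(f.2.2.1 : ℝ)| * (m / 2) ≤ |(f.2.2.1 : ℝ)| * μ :=
      mul_le_mul_of_nonneg_left h1.le (abs_nonneg _)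
    linarith
  have hDd : ∀ f ∈ s, |(f.2.2.2 : ℝ)| * m ^ 3 ≤ 96 * L := by
    intro f hf
    obtain ⟨h0, μ, h1, h2, _, _, _, h3, _⟩ := hs f hf
    have hμ : 0 < μ := by linarith
    have h4 : (m / 2) ^ 3 ≤ μ ^ 3 := pow_le_pow_left₀ (by positivity) h1.le 3
    have : |(f.2.2.2 : ℝ)| * (m / 2) ^ 3 ≤ |(f.2.2.2 : ℝ)| * μ ^ 3 :=
      mul_le_mul_of_nonneg_left h4 (abs_nonneg _)
    have e : (m / 2) ^ 3 = m ^ 3 / 8 := by ring
    rw [e] at this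
    linarith
  have hE : ∀ f ∈ s, |(f.2.1 : ℝ) * f.2.2.1 - 1 * f.1 * f.2.2.2| ≤ 12 * L ^ 2 * m ^ 2 ∨
      |(f.2.1 : ℝ) * f.2.2.1 - 9 * f.1 * f.2.2.2| ≤ 12 * L ^ 2 * m ^ 2 := by
    intro f hf
    obtain ⟨h0, μ, h1, h2, _, _, _, _, h3⟩ := hs f hf
    have hμ : 0 < μ := by linarith
    have h5 : 12 * L ^ 2 * μ ^ 2 ≤ 12 * L ^ 2 * m ^ 2 := by gcongr
    rcases h3 with h3 | h3
    · left; rw [one_mul]; exact h3.trans h5
    · right; exact h3.trans h5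
  have hbase : 1 ≤ 12 * L * m ^ 3 := (hA f0 hf0).1.trans (hA f0 hf0).2
  have hm3 : m ^ 3 ≤ 4 * m := by nlinarith [sq_nonneg m, mul_pos hm hm]
  have hm4 : m ^ 3 ≤ 16 / m := by
    rw [le_div_iff₀ hm]
    calc m ^ 3 * m = m ^ 4 := by ring
      _ ≤ 2 ^ 4 := pow_le_pow_left₀ hm.le hm2 4
      _ = 16 := by norm_num
  -- the index sets
  set N : ℕ := ⌊12 * L * m ^ 3⌋₊ with hN
  set KB : ℤ := ⌊12 * L * m⌋ with hKB
  set KC : ℤ := ⌊24 * L / m⌋ with hKC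
  set I : Finset (ℕ × ℤ × ℤ) := (Finset.Icc 1 N) ×ˢ ((Finset.Icc (-KB) KB) ×ˢ (Finset.Icc (-KC) KC))
    with hI
  let key : ℤ × ℤ × ℤ × ℤ → ℕ × ℤ × ℤ := fun f => (f.1.natAbs, f.2.1, f.2.2.1)
  have habs : ∀ (x : ℤ) (y : ℝ), |(x : ℝ)| ≤ y → x ∈ Finset.Icc (-⌊y⌋) ⌊y⌋ := by
    intro x y h
    rw [Finset.mem_Icc]
    have h1 : |x| ≤ ⌊y⌋ := by
      rw [Int.le_floor]; rw [Int.cast_abs]; exact h
    exact abs_le.1 h1
  have hmaps : ∀ f ∈ s, key f ∈ I := by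
    intro f hf
    simp only [key, hI, Finset.mem_product]
    refine ⟨?_, habs _ _ (hB f hf), habs _ _ (hC f hf)⟩
    rw [Finset.mem_Icc]
    constructor
    · exact Nat.one_le_iff_ne_zero.2 (Int.natAbs_ne_zero.2 (hs f hf).1)
    · rw [hN]
      apply Nat.le_floor
      rw [Nat.cast_natAbs, Int.cast_abs]
      exact (hA f hf).2
  have hsum := Finset.card_eq_sum_card_fiberwise hmaps
  -- the fibre bound
  have hfib : ∀ x ∈ I, ((s.filter (fun f => key f = x)).card : ℝ) ≤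
      860 * (Real.sqrt (L ^ 3 / m) * (1 / Real.sqrt (x.1 : ℝ))) := by
    intro x hx
    -- four pieces
    have piece : ∀ (a : ℤ) (κ : ℝ), 1 ≤ κ → a.natAbs = x.1 →
        ((s.filter (fun f => f.1 = a ∧ f.2.1 = x.2.1 ∧ f.2.2.1 = x.2.2 ∧
          |(f.2.1 : ℝ) * f.2.2.1 - κ * f.1 * f.2.2.2| ≤ 12 * L ^ 2 * m ^ 2)).card : ℝ) ≤
        215 * (Real.sqrt (L ^ 3 / m) * (1 / Real.sqrt (x.1 : ℝ))) := by
      intro a κ hκ hax
      set F := s.filter (fun f => f.1 = a ∧ f.2.1 = x.2.1 ∧ f.2.2.1 = x.2.2 ∧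
          |(f.2.1 : ℝ) * f.2.2.1 - κ * f.1 * f.2.2.2| ≤ 12 * L ^ 2 * m ^ 2) with hF
      have habsa : |(a : ℝ)| = x.1 := by
        rw [← Int.cast_abs, Int.abs_eq_natAbs, hax]; norm_cast
      rcases F.eq_empty_or_nonempty with he | ⟨g, hg⟩
      · rw [he]; simp; positivity
      have hg1 := Finset.mem_filter.1 hg
      have hga := hA g hg1.1
      rw [hg1.2.1] at hga
      have hinj : Set.InjOn (fun f : ℤ × ℤ × ℤ × ℤ => f.2.2.2) F := by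
        intro f hf f' hf' h
        have h1 := (Finset.mem_filter.1 (Finset.mem_coe.1 hf)).2
        have h2 := (Finset.mem_filter.1 (Finset.mem_coe.1 hf')).2
        exact Prod.ext (h1.1.trans h2.1.symm) (Prod.ext (h1.2.1.trans h2.2.1.symm)
          (Prod.ext (h1.2.2.1.trans h2.2.2.1.symm) h))
      rw [← Finset.card_image_of_injOn hinj]
      have := d_count L m hL hm hm2 κ (a : ℝ) hκ hga.1 hga.2 ((x.2.1 : ℝ) * x.2.2)
        (F.image (fun f : ℤ × ℤ × ℤ × ℤ => f.2.2.2)) (by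
          intro d hd
          obtain ⟨f, hf, rfl⟩ := Finset.mem_image.1 hd
          exact hDd f (Finset.mem_filter.1 hf).1) (by
          intro d hd
          obtain ⟨f, hf, rfl⟩ := Finset.mem_image.1 hd
          obtain ⟨h1, h2, h3, h4⟩ := (Finset.mem_filter.1 hf).2
          rw [h1, h2, h3] at h4
          exact h4)
      rw [habsa] at this
      refine this.trans (le_of_eq ?_)
      ring
    have hcover : s.filter (fun f => key f = x) ⊆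
        ((s.filter (fun f => f.1 = (x.1 : ℤ) ∧ f.2.1 = x.2.1 ∧ f.2.2.1 = x.2.2 ∧
          |(f.2.1 : ℝ) * f.2.2.1 - 1 * f.1 * f.2.2.2| ≤ 12 * L ^ 2 * m ^ 2)) ∪
        (s.filter (fun f => f.1 = (x.1 : ℤ) ∧ f.2.1 = x.2.1 ∧ f.2.2.1 = x.2.2 ∧
          |(f.2.1 : ℝ) * f.2.2.1 - 9 * f.1 * f.2.2.2| ≤ 12 * L ^ 2 * m ^ 2))) ∪
        ((s.filter (fun f => f.1 = -(x.1 : ℤ) ∧ f.2.1 = x.2.1 ∧ f.2.2.1 = x.2.2 ∧
          |(f.2.1 : ℝ) * f.2.2.1 - 1 * f.1 * f.2.2.2| ≤ 12 * L ^ 2 * m ^ 2)) ∪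
        (s.filter (fun f => f.1 = -(x.1 : ℤ) ∧ f.2.1 = x.2.1 ∧ f.2.2.1 = x.2.2 ∧
          |(f.2.1 : ℝ) * f.2.2.1 - 9 * f.1 * f.2.2.2| ≤ 12 * L ^ 2 * m ^ 2))) := by
      intro f hf
      obtain ⟨hfs, hfx⟩ := Finset.mem_filter.1 hf
      simp only [key] at hfx
      have h1 : f.1.natAbs = x.1 := congrArg Prod.fst hfx
      have h2 : f.2.1 = x.2.1 := congrArg (fun y => y.2.1) hfx
      have h3 : f.2.2.1 = x.2.2 := congrArg (fun y => y.2.2) hfx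
      simp only [Finset.mem_union, Finset.mem_filter]
      have h4 : f.1 = (x.1 : ℤ) ∨ f.1 = -(x.1 : ℤ) := by omega
      rcases h4 with h4 | h4 <;> rcases hE f hfs with h5 | h5
      · left; left; exact ⟨hfs, h4, h2, h3, h5⟩
      · left; right; exact ⟨hfs, h4, h2, h3, h5⟩
      · right; left; exact ⟨hfs, h4, h2, h3, h5⟩
      · right; right; exact ⟨hfs, h4, h2, h3, h5⟩
    have p1 := piece (x.1 : ℤ) 1 le_rfl (by simp)
    have p2 := piece (x.1 : ℤ) 9 (by norm_num) (by simp)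
    have p3 := piece (-(x.1 : ℤ)) 1 le_rfl (by simp)
    have p4 := piece (-(x.1 : ℤ)) 9 (by norm_num) (by simp)
    have hc1 := (Finset.card_le_card hcover).trans ((Finset.card_union_le _ _).trans
      (Nat.add_le_add (Finset.card_union_le _ _) (Finset.card_union_le _ _)))
    have hc2 : ((s.filter (fun f => key f = x)).card : ℝ) ≤
      ((((s.filter (fun f => f.1 = (x.1 : ℤ) ∧ f.2.1 = x.2.1 ∧ f.2.2.1 = x.2.2 ∧
          |(f.2.1 : ℝ) * f.2.2.1 - 1 * f.1 * f.2.2.2| ≤ 12 * L ^ 2 * m ^ 2)).card +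
        (s.filter (fun f => f.1 = (x.1 : ℤ) ∧ f.2.1 = x.2.1 ∧ f.2.2.1 = x.2.2 ∧
          |(f.2.1 : ℝ) * f.2.2.1 - 9 * f.1 * f.2.2.2| ≤ 12 * L ^ 2 * m ^ 2)).card) +
        ((s.filter (fun f => f.1 = -(x.1 : ℤ) ∧ f.2.1 = x.2.1 ∧ f.2.2.1 = x.2.2 ∧
          |(f.2.1 : ℝ) * f.2.2.1 - 1 * f.1 * f.2.2.2| ≤ 12 * L ^ 2 * m ^ 2)).card +
        (s.filter (fun f => f.1 = -(x.1 : ℤ) ∧ f.2.1 = x.2.1 ∧ f.2.2.1 = x.2.2 ∧
          |(f.2.1 : ℝ) * f.2.2.1 - 9 * f.1 * f.2.2.2| ≤ 12 * L ^ 2 * m ^ 2)).card) : ℕ) : ℝ) := by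
      exact_mod_cast hc1
    push_cast at hc2
    linarith
  have hcardR : (s.card : ℝ) = ∑ x ∈ I, ((s.filter (fun f => key f = x)).card : ℝ) := by
    rw [hsum]; push_cast; rfl
  have hBcard : ((Finset.Icc (-KB) KB).card : ℝ) ≤ 72 * L * m := by
    have h0 : 0 ≤ KB := Int.floor_nonneg.2 (by positivity)
    have h1 : ((Finset.Icc (-KB) KB).card : ℝ) = 2 * KB + 1 := by
      rw [Int.card_Icc]
      have : ((KB + 1 - -KB).toNat : ℤ) = 2 * KB + 1 := by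
        rw [Int.toNat_of_nonneg (by omega)]; ring
      have h2 : (((KB + 1 - -KB).toNat : ℤ) : ℝ) = 2 * KB + 1 := by rw [this]; push_cast; ring
      exact_mod_cast h2
    rw [h1]
    have h2 : (KB : ℝ) ≤ 12 * L * m := Int.floor_le _
    have h3 : 12 * L * m ^ 3 ≤ 12 * L * (4 * m) := by gcongr
    linarith
  have hCcard : ((Finset.Icc (-KC) KC).card : ℝ) ≤ 240 * L / m := by
    have h0 : 0 ≤ KC := Int.floor_nonneg.2 (by positivity)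
    have h1 : ((Finset.Icc (-KC) KC).card : ℝ) = 2 * KC + 1 := by
      rw [Int.card_Icc]
      have : ((KC + 1 - -KC).toNat : ℤ) = 2 * KC + 1 := by
        rw [Int.toNat_of_nonneg (by omega)]; ring
      have h2 : (((KC + 1 - -KC).toNat : ℤ) : ℝ) = 2 * KC + 1 := by rw [this]; push_cast; ring
      exact_mod_cast h2
    rw [h1]
    have h2 : (KC : ℝ) ≤ 24 * L / m := Int.floor_le _
    have h3 : 12 * L * m ^ 3 ≤ 12 * L * (16 / m) := by gcongr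
    have h4 : 240 * L / m = 2 * (24 * L / m) + 12 * L * (16 / m) := by ring
    linarith
  have hNle : Real.sqrt (N : ℝ) ≤ 7 / 2 * Real.sqrt (L * m ^ 3) := by
    have h1 : (N : ℝ) ≤ 12 * L * m ^ 3 := Nat.floor_le (by positivity)
    have h2 : (7 / 2 * Real.sqrt (L * m ^ 3)) = Real.sqrt ((7 / 2) ^ 2 * (L * m ^ 3)) := by
      rw [Real.sqrt_mul (by norm_num : (0:ℝ) ≤ (7 / 2) ^ 2) (L * m ^ 3),
        Real.sqrt_sq (by norm_num)]
    rw [h2]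
    apply Real.sqrt_le_sqrt
    have : 0 < L * m ^ 3 := by positivity
    nlinarith
  rw [hcardR]
  calc ∑ x ∈ I, ((s.filter (fun f => key f = x)).card : ℝ) ≤
        ∑ x ∈ I, 860 * (Real.sqrt (L ^ 3 / m) * (1 / Real.sqrt (x.1 : ℝ))) :=
        Finset.sum_le_sum hfib
    _ = 860 * Real.sqrt (L ^ 3 / m) * (((Finset.Icc (-KB) KB).card : ℝ) *
          ((Finset.Icc (-KC) KC).card : ℝ)) *
          ∑ k ∈ Finset.Icc 1 N, (1 / Real.sqrt (k : ℝ)) := by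
        rw [hI, Finset.sum_product]
        simp only [Finset.sum_const, Finset.card_product, nsmul_eq_mul]
        rw [Finset.mul_sum]
        apply Finset.sum_congr rfl
        intro k _
        push_cast
        ring
    _ ≤ 860 * Real.sqrt (L ^ 3 / m) * ((72 * L * m) * (240 * L / m)) *
          (2 * (7 / 2 * Real.sqrt (L * m ^ 3))) := by
        have h1 := sum_inv_sqrt N
        have h2 : ∑ k ∈ Finset.Icc 1 N, (1 / Real.sqrt (k : ℝ)) ≤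
          2 * (7 / 2 * Real.sqrt (L * m ^ 3)) := h1.trans (by linarith)
        have h3 : 0 ≤ ∑ k ∈ Finset.Icc 1 N, (1 / Real.sqrt (k : ℝ)) :=
          Finset.sum_nonneg (fun _ _ => by positivity)
        gcongr
    _ = 104025600 * L ^ 4 * m := by
        have h1 : Real.sqrt (L ^ 3 / m) * Real.sqrt (L * m ^ 3) = L ^ 2 * m := by
          rw [← Real.sqrt_mul (by positivity)]
          have : L ^ 3 / m * (L * m ^ 3) = (L ^ 2 * m) ^ 2 := by field_simp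
          rw [this, Real.sqrt_sq (by positivity)]
        have h2 : 860 * Real.sqrt (L ^ 3 / m) * ((72 * L * m) * (240 * L / m)) *
          (2 * (7 / 2 * Real.sqrt (L * m ^ 3))) =
          860 * 72 * 240 * 7 * (L * m * (L / m)) *
            (Real.sqrt (L ^ 3 / m) * Real.sqrt (L * m ^ 3)) := by ring
        rw [h2, h1]
        field_simp
        ring

theorem region_count (L : ℝ) (hL : 1 ≤ L) : ∀ (n : ℕ) (m : ℝ), 0 < m → m ≤ 2 →
    12 * L * m ^ 3 < 8 ^ n → ∀ s : Finset (ℤ × ℤ × ℤ × ℤ),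
    (∀ f ∈ s, f.1 ≠ 0 ∧ ∃ μ : ℝ, 0 < μ ∧ μ ≤ m ∧
      Reg L μ (f.1 : ℝ) (f.2.1 : ℝ) (f.2.2.1 : ℝ) (f.2.2.2 : ℝ)) →
    (s.card : ℝ) ≤ 208051200 * L ^ 4 * m := by
  classical
  have hL0 : 0 < L := by linarith
  intro n
  induction n with
  | zero =>
    intro m hm hm2 hn s hs
    have : s = ∅ := by
      rw [Finset.eq_empty_iff_forall_notMem]
      intro f hf
      obtain ⟨h0, μ, h1, h2, h3, _⟩ := hs f hf
      have h4 : (1 : ℝ) ≤ |(f.1 : ℝ)| := by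
        rw [← Int.cast_abs]; exact_mod_cast Int.one_le_abs h0
      have h5 : 12 * L * μ ^ 3 ≤ 12 * L * m ^ 3 := by gcongr
      simp only [pow_zero] at hn
      linarith
    rw [this]; simp; positivity
  | succ n ih =>
    intro m hm hm2 hn s hs
    let P : ℤ × ℤ × ℤ × ℤ → Prop := fun f => ∃ μ : ℝ, m / 2 < μ ∧ μ ≤ m ∧
      Reg L μ (f.1 : ℝ) (f.2.1 : ℝ) (f.2.2.1 : ℝ) (f.2.2.2 : ℝ)
    have hcard : s.card = (s.filter P).card + (s.filter (fun f => ¬ P f)).card :=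
      (Finset.card_filter_add_card_filter_not _).symm
    have h1 := shell_count L m hL hm hm2 (s.filter P) (by
      intro f hf
      obtain ⟨hfs, hfP⟩ := Finset.mem_filter.1 hf
      exact ⟨(hs f hfs).1, hfP⟩)
    have h2 := ih (m / 2) (by positivity) (by linarith) (by
      have : (m / 2) ^ 3 = m ^ 3 / 8 := by ring
      rw [this]
      have h8 : (8 : ℝ) ^ (n + 1) = 8 ^ n * 8 := pow_succ _ _
      rw [h8] at hn
      linarith) (s.filter (fun f => ¬ P f)) (by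
      intro f hf
      obtain ⟨hfs, hfP⟩ := Finset.mem_filter.1 hf
      obtain ⟨h0, μ, h1, h2, h3⟩ := hs f hfs
      refine ⟨h0, μ, h1, ?_, h3⟩
      by_contra hcon
      push Not at hcon
      exact hfP ⟨μ, hcon, h2, h3⟩)
    rw [hcard]
    push_cast
    linarith

/-- action of a pair of columns on an integral cubic form -/
def act (f : ℤ × ℤ × ℤ × ℤ) (w : (ℤ × ℤ) × (ℤ × ℤ)) : ℤ × ℤ × ℤ × ℤ :=
  (ev f.1 f.2.1 f.2.2.1 f.2.2.2 w.1.1 w.1.2,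
    pol f.1 f.2.1 f.2.2.1 f.2.2.2 w.2.1 w.2.2 w.1.1 w.1.2,
    pol f.1 f.2.1 f.2.2.1 f.2.2.2 w.1.1 w.1.2 w.2.1 w.2.2,
    ev f.1 f.2.1 f.2.2.1 f.2.2.2 w.2.1 w.2.2)

/-- the inverse pair of columns -/
def winv (w : (ℤ × ℤ) × (ℤ × ℤ)) : (ℤ × ℤ) × (ℤ × ℤ) :=
  ((w.2.2, -w.1.2), (-w.2.1, w.1.1))

theorem act_winv (f : ℤ × ℤ × ℤ × ℤ) (w : (ℤ × ℤ) × (ℤ × ℤ))
    (hw : w.1.1 * w.2.2 - w.2.1 * w.1.2 = 1) : act (act f w) (winv w) = f := by
  obtain ⟨a, b, c, d⟩ := f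
  obtain ⟨⟨p, r⟩, ⟨q, s⟩⟩ := w
  simp only at hw
  have h3 : (p * s - q * r) ^ 3 = 1 := by rw [hw]; ring
  simp only [act, winv, Prod.mk.injEq]
  refine ⟨?_, ?_, ?_, ?_⟩
  · have : ev (ev a b c d p r) (pol a b c d q s p r) (pol a b c d p r q s) (ev a b c d q s) s (-r) =
      a * (p * s - q * r) ^ 3 := by unfold ev pol; ring
    rw [this, h3]; ring
  · have : pol (ev a b c d p r) (pol a b c d q s p r) (pol a b c d p r q s) (ev a b c d q s)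
        (-q) p s (-r) = b * (p * s - q * r) ^ 3 := by unfold ev pol; ring
    rw [this, h3]; ring
  · have : pol (ev a b c d p r) (pol a b c d q s p r) (pol a b c d p r q s) (ev a b c d q s)
        s (-r) (-q) p = c * (p * s - q * r) ^ 3 := by unfold ev pol; ring
    rw [this, h3]; ring
  · have : ev (ev a b c d p r) (pol a b c d q s p r) (pol a b c d p r q s) (ev a b c d q s) (-q) p =
      d * (p * s - q * r) ^ 3 := by unfold ev pol; ring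
    rw [this, h3]; ring

/-- the real discriminant of an integral form -/
def dR (f : ℤ × ℤ × ℤ × ℤ) : ℝ := disc4 (f.1 : ℝ) f.2.1 f.2.2.1 f.2.2.2

theorem dR_act (f : ℤ × ℤ × ℤ × ℤ) (w : (ℤ × ℤ) × (ℤ × ℤ))
    (hw : w.1.1 * w.2.2 - w.2.1 * w.1.2 = 1) : dR (act f w) = dR f := by
  have hwR : (w.1.1:ℝ) * w.2.2 - w.2.1 * w.1.2 = 1 := by exact_mod_cast hw
  have : dR (act f w) = dR f * ((w.1.1:ℝ) * w.2.2 - w.2.1 * w.1.2) ^ 6 := by
    unfold dR act disc4 ev pol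
    push_cast
    ring
  rw [this, hwR]; ring

theorem orbit_count_form (F : ℤ × ℤ × ℤ × ℤ) (hF0 : F.1 ≠ 0) (L : ℝ) (hL : 0 < L)
    (hD : L ^ 4 / 2 < |dR F|) (Q t : ℝ) (ht : 0 < t) (hQ : 4 * Q ≤ L * t ^ 3)
    (s : Finset ((ℤ × ℤ) × (ℤ × ℤ)))
    (h0 : ∀ w ∈ s, w.1.1 * w.2.2 - w.2.1 * w.1.2 = 1)
    (ha : ∀ w ∈ s, |((act F w).1 : ℝ)| ≤ Q) (hb : ∀ w ∈ s, |((act F w).2.1 : ℝ)| ≤ Q)
    (hc : ∀ w ∈ s, |((act F w).2.2.1 : ℝ)| ≤ Q) (hd : ∀ w ∈ s, |((act F w).2.2.2 : ℝ)| ≤ Q) :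
    (s.card : ℝ) ≤ 6000 * t ^ 2 := by
  have hF0' : (F.1 : ℝ) ≠ 0 := by exact_mod_cast hF0
  have hD0 : disc4 (F.1 : ℝ) F.2.1 F.2.2.1 F.2.2.2 ≠ 0 := by
    intro h
    unfold dR at hD
    rw [h] at hD
    simp at hD
    have : 0 < L ^ 4 := by positivity
    linarith
  obtain ⟨c1, c2, l, x1, x2, y1, y2, hcc, hNF⟩ := normal_form _ _ _ _ hF0' hD0
  have hl : L / 4 ≤ l := hNF.le_l hcc L hD.le
  have hl0 := hNF.lpos
  have hlt : Q ≤ l * t ^ 3 := by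
    have h1 : L / 4 * t ^ 3 ≤ l * t ^ 3 := mul_le_mul_of_nonneg_right hl (by positivity)
    linarith
  have key : ∀ g v : ℝ, |v| ≤ Q → v = l * g → |g| ≤ t ^ 3 := by
    intro g v hv hvg
    rw [hvg, abs_mul, abs_of_pos hl0] at hv
    have : l * |g| ≤ l * t ^ 3 := hv.trans hlt
    exact le_of_mul_le_mul_left this hl0
  refine orbit_count x1 x2 y1 y2 hNF.det c1 c2 hcc t ht s h0 ?_ ?_ ?_ ?_
  · intro w hw
    have hwR : (w.1.1:ℝ) * w.2.2 - w.2.1 * w.1.2 = 1 := by exact_mod_cast h0 w hw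
    refine key _ _ (ha w hw) ?_
    rw [← (hNF.transform w.1.1 w.1.2 w.2.1 w.2.2 hwR).ea]
    unfold act ev; push_cast; rfl
  · intro w hw
    have hwR : (w.1.1:ℝ) * w.2.2 - w.2.1 * w.1.2 = 1 := by exact_mod_cast h0 w hw
    refine key _ _ (hb w hw) ?_
    rw [← (hNF.transform w.1.1 w.1.2 w.2.1 w.2.2 hwR).eb]
    unfold act pol; push_cast; rfl
  · intro w hw
    have hwR : (w.1.1:ℝ) * w.2.2 - w.2.1 * w.1.2 = 1 := by exact_mod_cast h0 w hw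
    refine key _ _ (hc w hw) ?_
    rw [← (hNF.transform w.1.1 w.1.2 w.2.1 w.2.2 hwR).ec]
    unfold act pol; push_cast; rfl
  · intro w hw
    have hwR : (w.1.1:ℝ) * w.2.2 - w.2.1 * w.1.2 = 1 := by exact_mod_cast h0 w hw
    refine key _ _ (hd w hw) ?_
    rw [← (hNF.transform w.1.1 w.1.2 w.2.1 w.2.2 hwR).ed]
    unfold act ev; push_cast; rfl

theorem dyadic_count (L : ℝ) (hL : 1 ≤ L) (Q t : ℝ) (ht : 0 < t) (hQ : 4 * Q ≤ L * t ^ 3)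
    (s : Finset (ℤ × ℤ × ℤ × ℤ))
    (hnv : ∀ f ∈ s, ∀ x y : ℤ, ev f.1 f.2.1 f.2.2.1 f.2.2.2 x y = 0 → x = 0 ∧ y = 0)
    (h1 : ∀ f ∈ s, |(f.1 : ℝ)| ≤ Q) (h2 : ∀ f ∈ s, |(f.2.1 : ℝ)| ≤ Q)
    (h3 : ∀ f ∈ s, |(f.2.2.1 : ℝ)| ≤ Q) (h4 : ∀ f ∈ s, |(f.2.2.2 : ℝ)| ≤ Q)
    (hD1 : ∀ f ∈ s, L ^ 4 / 2 < |dR f|) (hD2 : ∀ f ∈ s, |dR f| ≤ L ^ 4) :
    (s.card : ℝ) ≤ (416102400 * L ^ 4) * (6000 * t ^ 2) := by
  classical
  have hL0 : 0 < L := by linarith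
  have hex : ∀ f : ℤ × ℤ × ℤ × ℤ, ∃ w : (ℤ × ℤ) × (ℤ × ℤ), f ∈ s →
      (w.1.1 * w.2.2 - w.2.1 * w.1.2 = 1 ∧ ∃ μ : ℝ, 0 < μ ∧ μ ≤ 2 ∧
        Reg L μ ((act f w).1 : ℝ) ((act f w).2.1 : ℝ) ((act f w).2.2.1 : ℝ)
          ((act f w).2.2.2 : ℝ)) := by
    intro f
    by_cases hf : f ∈ s
    · have hf1 : (f.1 : ℝ) ≠ 0 := by
        intro h0
        have h0' : f.1 = 0 := by exact_mod_cast h0
        have := (hnv f hf 1 0 (by unfold ev; rw [h0']; ring)).1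
        omega
      have hdpos : 0 < |dR f| := by
        have h5 : 0 < L ^ 4 := by positivity
        linarith [hD1 f hf]
      obtain ⟨w1, w2, hw, μ, hμ0, hμ2, hreg⟩ := reduce_form (f.1 : ℝ) f.2.1 f.2.2.1 f.2.2.2 hf1 L
        hL0 (abs_pos.1 hdpos) (hD2 f hf)
      refine ⟨(w1, w2), fun _ => ⟨hw, μ, hμ0, hμ2, ?_⟩⟩
      have e1 : (((act f (w1, w2)).1 : ℤ) : ℝ) = ev (f.1 : ℝ) f.2.1 f.2.2.1 f.2.2.2 w1.1 w1.2 := by
        unfold act ev; push_cast; rfl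
      have e2 : (((act f (w1, w2)).2.1 : ℤ) : ℝ) =
          pol (f.1 : ℝ) f.2.1 f.2.2.1 f.2.2.2 w2.1 w2.2 w1.1 w1.2 := by
        unfold act pol; push_cast; rfl
      have e3 : (((act f (w1, w2)).2.2.1 : ℤ) : ℝ) =
          pol (f.1 : ℝ) f.2.1 f.2.2.1 f.2.2.2 w1.1 w1.2 w2.1 w2.2 := by
        unfold act pol; push_cast; rfl
      have e4 : (((act f (w1, w2)).2.2.2 : ℤ) : ℝ) =
          ev (f.1 : ℝ) f.2.1 f.2.2.1 f.2.2.2 w2.1 w2.2 := by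
        unfold act ev; push_cast; rfl
      rw [e1, e2, e3, e4]
      exact hreg
    · exact ⟨((0, 0), (0, 0)), fun h => absurd h hf⟩
  choose W hW using hex
  let G : ℤ × ℤ × ℤ × ℤ → ℤ × ℤ × ℤ × ℤ := fun f => act f (W f)
  have hG1 : ∀ f ∈ s, (G f).1 ≠ 0 := by
    intro f hf h0
    have h5 := hnv f hf (W f).1.1 (W f).1.2 h0
    have h6 := (hW f hf).1
    rw [h5.1, h5.2] at h6
    simp at h6
  have himg : ((s.image G).card : ℝ) ≤ 416102400 * L ^ 4 := by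
    obtain ⟨n, hn⟩ := pow_unbounded_of_one_lt (12 * L * 2 ^ 3) (by norm_num : (1:ℝ) < 8)
    have := region_count L hL n 2 (by norm_num) le_rfl hn (s.image G) (by
      intro F hF
      obtain ⟨f, hf, rfl⟩ := Finset.mem_image.1 hF
      exact ⟨hG1 f hf, (hW f hf).2⟩)
    linarith
  have hfib : ∀ F ∈ s.image G, ((s.filter (fun f => G f = F)).card : ℝ) ≤ 6000 * t ^ 2 := by
    intro F hF
    obtain ⟨f0, hf0, hf0F⟩ := Finset.mem_image.1 hF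
    have hinv : ∀ f ∈ s, act (G f) (winv (W f)) = f := fun f hf => act_winv f (W f) (hW f hf).1
    have hinj : Set.InjOn (fun f => winv (W f)) (s.filter (fun f => G f = F)) := by
      intro f hf f' hf' h
      obtain ⟨g1, g2⟩ := Finset.mem_filter.1 (Finset.mem_coe.1 hf)
      obtain ⟨g1', g2'⟩ := Finset.mem_filter.1 (Finset.mem_coe.1 hf')
      rw [← hinv f g1, ← hinv f' g1', g2, g2']
      exact congrArg _ h
    rw [← Finset.card_image_of_injOn hinj]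
    have hdF : L ^ 4 / 2 < |dR F| := by
      rw [← hf0F]
      have : dR (G f0) = dR f0 := dR_act f0 (W f0) (hW f0 hf0).1
      rw [this]
      exact hD1 f0 hf0
    have hact : ∀ w ∈ (s.filter (fun f => G f = F)).image (fun f => winv (W f)),
        ∃ f ∈ s, act F w = f ∧ w.1.1 * w.2.2 - w.2.1 * w.1.2 = 1 := by
      intro w hw
      obtain ⟨f, hf, rfl⟩ := Finset.mem_image.1 hw
      obtain ⟨g1, g2⟩ := Finset.mem_filter.1 hf
      refine ⟨f, g1, ?_, ?_⟩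
      · rw [← g2]; exact hinv f g1
      · have := (hW f g1).1
        simp only [winv]
        linarith
    refine orbit_count_form F (by rw [← hf0F]; exact hG1 f0 hf0) L hL0 hdF Q t ht hQ _ ?_ ?_ ?_ ?_ ?_
    · intro w hw; obtain ⟨f, _, _, h⟩ := hact w hw; exact h
    · intro w hw; obtain ⟨f, hf, h, _⟩ := hact w hw; rw [h]; exact h1 f hf
    · intro w hw; obtain ⟨f, hf, h, _⟩ := hact w hw; rw [h]; exact h2 f hf
    · intro w hw; obtain ⟨f, hf, h, _⟩ := hact w hw; rw [h]; exact h3 f hf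
    · intro w hw; obtain ⟨f, hf, h, _⟩ := hact w hw; rw [h]; exact h4 f hf
  have hsum : (s.card : ℝ) = ∑ F ∈ s.image G, ((s.filter (fun f => G f = F)).card : ℝ) := by
    rw [Finset.card_eq_sum_card_image G s]; push_cast; rfl
  rw [hsum]
  calc ∑ F ∈ s.image G, ((s.filter (fun f => G f = F)).card : ℝ) ≤
        ∑ F ∈ s.image G, 6000 * t ^ 2 := Finset.sum_le_sum hfib
    _ = ((s.image G).card : ℝ) * (6000 * t ^ 2) := by rw [Finset.sum_const, nsmul_eq_mul]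
    _ ≤ (416102400 * L ^ 4) * (6000 * t ^ 2) :=
        mul_le_mul_of_nonneg_right himg (by positivity)

theorem main_count (Q : ℝ) (hQ : 0 < Q) : ∀ (n : ℕ) (X : ℝ), 0 < X → X < 2 ^ n →
    ∀ s : Finset (ℤ × ℤ × ℤ × ℤ),
    (∀ f ∈ s, ∀ x y : ℤ, ev f.1 f.2.1 f.2.2.1 f.2.2.2 x y = 0 → x = 0 ∧ y = 0) →
    (∀ f ∈ s, |(f.1 : ℝ)| ≤ Q) → (∀ f ∈ s, |(f.2.1 : ℝ)| ≤ Q) →
    (∀ f ∈ s, |(f.2.2.1 : ℝ)| ≤ Q) → (∀ f ∈ s, |(f.2.2.2 : ℝ)| ≤ Q) →
    (∀ f ∈ s, 1 ≤ |dR f|) → (∀ f ∈ s, |dR f| ≤ X) →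
    (s.card : ℝ) ≤ 30000000000000 * X ^ (5 / 6 : ℝ) * Q ^ (2 / 3 : ℝ) := by
  classical
  intro n
  induction n with
  | zero =>
    intro X hX hn s _ _ _ _ _ h1 h2
    have : s = ∅ := by
      rw [Finset.eq_empty_iff_forall_notMem]
      intro f hf
      have e1 := h1 f hf
      have e2 := h2 f hf
      simp only [pow_zero] at hn
      linarith
    rw [this]; simp; positivity
  | succ n ih =>
    intro X hX hn s hnv ha hb hc hd h1 h2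
    by_cases hX1 : X < 1
    · have : s = ∅ := by
        rw [Finset.eq_empty_iff_forall_notMem]
        intro f hf
        have e1 := h1 f hf
        have e2 := h2 f hf
        linarith
      rw [this]; simp; positivity
    push Not at hX1
    set L : ℝ := X ^ (1 / 4 : ℝ) with hL
    have hL1 : 1 ≤ L := Real.one_le_rpow hX1 (by norm_num)
    have hL0 : 0 < L := by linarith
    have hL4 : L ^ 4 = X := by
      rw [hL, ← Real.rpow_natCast, ← Real.rpow_mul hX.le]; norm_num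
    set t : ℝ := (4 * Q / L) ^ (1 / 3 : ℝ) with ht
    have ht0 : 0 < t := by positivity
    have ht3 : t ^ 3 = 4 * Q / L := by
      rw [ht, ← Real.rpow_natCast, ← Real.rpow_mul (by positivity)]; norm_num
    have hQt : 4 * Q ≤ L * t ^ 3 := by
      rw [ht3]; apply le_of_eq; field_simp
    let P : ℤ × ℤ × ℤ × ℤ → Prop := fun f => X / 2 < |dR f|
    have hcard : s.card = (s.filter P).card + (s.filter (fun f => ¬ P f)).card :=
      (Finset.card_filter_add_card_filter_not _).symm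
    have hb1 := dyadic_count L hL1 Q t ht0 hQt (s.filter P)
      (fun f hf => hnv f (Finset.mem_filter.1 hf).1)
      (fun f hf => ha f (Finset.mem_filter.1 hf).1)
      (fun f hf => hb f (Finset.mem_filter.1 hf).1)
      (fun f hf => hc f (Finset.mem_filter.1 hf).1)
      (fun f hf => hd f (Finset.mem_filter.1 hf).1)
      (fun f hf => by rw [hL4]; exact (Finset.mem_filter.1 hf).2)
      (fun f hf => by rw [hL4]; exact h2 f (Finset.mem_filter.1 hf).1)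
    have hb2 := ih (X / 2) (by positivity) (by rw [pow_succ] at hn; linarith)
      (s.filter (fun f => ¬ P f))
      (fun f hf => hnv f (Finset.mem_filter.1 hf).1)
      (fun f hf => ha f (Finset.mem_filter.1 hf).1)
      (fun f hf => hb f (Finset.mem_filter.1 hf).1)
      (fun f hf => hc f (Finset.mem_filter.1 hf).1)
      (fun f hf => hd f (Finset.mem_filter.1 hf).1)
      (fun f hf => h1 f (Finset.mem_filter.1 hf).1)
      (fun f hf => not_lt.1 (Finset.mem_filter.1 hf).2)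
    -- rewrite the dyadic bound
    have ht2 : L ^ 4 * t ^ 2 = 4 ^ (2 / 3 : ℝ) * (X ^ (5 / 6 : ℝ) * Q ^ (2 / 3 : ℝ)) := by
      have e1 : t ^ 2 = (4 * Q / L) ^ (2 / 3 : ℝ) := by
        rw [ht, ← Real.rpow_natCast, ← Real.rpow_mul (by positivity)]; norm_num
      rw [e1, hL4, Real.div_rpow (by positivity) (by positivity),
        Real.mul_rpow (by norm_num) hQ.le, hL, ← Real.rpow_mul hX.le]
      have e2 : X ^ (5 / 6 : ℝ) = X / X ^ (1 / 4 * (2 / 3) : ℝ) := by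
        have : (5 / 6 : ℝ) = 1 - 1 / 4 * (2 / 3) := by norm_num
        rw [this, Real.rpow_sub hX, Real.rpow_one]
      rw [e2]; ring
    have h43 : (4 : ℝ) ^ (2 / 3 : ℝ) ≤ 3 := by
      have e1 : ((4 : ℝ) ^ (2 / 3 : ℝ)) ^ 3 ≤ 3 ^ 3 := by
        rw [← Real.rpow_natCast, ← Real.rpow_mul (by norm_num)]
        norm_num
      exact le_of_pow_le_pow_left₀ (by norm_num) (by norm_num) e1
    have hhalf : (X / 2) ^ (5 / 6 : ℝ) ≤ 2 / 3 * X ^ (5 / 6 : ℝ) := by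
      rw [Real.div_rpow hX.le (by norm_num)]
      have e1 : (3 / 2 : ℝ) ≤ 2 ^ (5 / 6 : ℝ) := by
        have e2 : (3 / 2 : ℝ) ^ 6 ≤ (2 ^ (5 / 6 : ℝ)) ^ 6 := by
          rw [← Real.rpow_natCast (2 ^ (5 / 6 : ℝ)), ← Real.rpow_mul (by norm_num)]
          norm_num
        exact le_of_pow_le_pow_left₀ (by norm_num) (by positivity) e2
      have e3 : 0 < X ^ (5 / 6 : ℝ) := by positivity
      rw [div_le_iff₀ (by positivity)]
      nlinarith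
    rw [hcard]
    push_cast
    set Y := X ^ (5 / 6 : ℝ) with hY
    set Z := Q ^ (2 / 3 : ℝ) with hZ
    have hY0 : 0 < Y := by positivity
    have hZ0 : 0 < Z := by positivity
    have e5 : (416102400 * L ^ 4) * (6000 * t ^ 2) = 2496614400000 * (L ^ 4 * t ^ 2) := by ring
    rw [e5, ht2] at hb1
    have e6 : 4 ^ (2 / 3 : ℝ) * (Y * Z) ≤ 3 * (Y * Z) :=
      mul_le_mul_of_nonneg_right h43 (by positivity)
    have e7 : 30000000000000 * (X / 2) ^ (5 / 6 : ℝ) * Z ≤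
        30000000000000 * (2 / 3 * Y) * Z := by gcongr
    have e8 : 0 < Y * Z := by positivity
    nlinarith

end Pool.Agent.Helper12.Cubic
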