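import Mathlib

set_option autoImplicit false

open Polynomial

namespace Pool.Agent.Helper12.Disc

/-- product of the absolute values of all ordered differences -/
noncomputable def D2 {n : ℕ} (z : Fin n → ℂ) : ℝ :=
  ∏ i, ∏ j ∈ Finset.univ.erase i, ‖z i - z j‖

/-- the monic polynomial with given roots -/
noncomputable def ofRoots {n : ℕ} (z : Fin n → ℂ) : ℂ[X] := ∏ i, (X - C (z i))

theorem D2_nonneg {n : ℕ} (z : Fin n → ℂ) : 0 ≤ D2 z :=
  Finset.prod_nonneg fun _ _ => Finset.prod_nonneg fun _ _ => norm_nonneg _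

theorem ofRoots_monic {n : ℕ} (z : Fin n → ℂ) : (ofRoots z).Monic :=
  monic_prod_of_monic _ _ fun _ _ => monic_X_sub_C _

theorem ofRoots_natDegree {n : ℕ} (z : Fin n → ℂ) : (ofRoots z).natDegree = n := by
  unfold ofRoots
  rw [natDegree_prod_of_monic _ _ (fun _ _ => monic_X_sub_C _)]
  simp

theorem ofRoots_roots {n : ℕ} (z : Fin n → ℂ) :
    (ofRoots z).roots = Finset.univ.val.map z := by
  have h : ofRoots z = ((Finset.univ.val.map z).map fun a => X - C a).prod := by
    unfold ofRoots
    rw [Finset.prod_eq_multiset_prod, Multiset.map_map]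
    rfl
  rw [h, roots_multiset_prod_X_sub_C]

theorem eval_ofRoots {n : ℕ} (z : Fin n → ℂ) (t : ℂ) :
    (ofRoots z).eval t = ∏ i, (t - z i) := by
  unfold ofRoots
  rw [eval_prod]
  simp

theorem eval_derivative_ofRoots {n : ℕ} (z : Fin n → ℂ) (i : Fin n) :
    (derivative (ofRoots z)).eval (z i) = ∏ j ∈ Finset.univ.erase i, (z i - z j) := by
  unfold ofRoots
  rw [derivative_prod_finset, eval_finsetSum, Finset.sum_eq_single i]
  · simp [eval_prod]
  · intro b _ hb
    rw [eval_mul, eval_prod]
    rw [Finset.prod_eq_zero (i := i)]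
    · simp
    · exact Finset.mem_erase.2 ⟨hb.symm, Finset.mem_univ _⟩
    · simp
  · intro h; exact absurd (Finset.mem_univ i) h

theorem norm_resultant {n : ℕ} (hn : 1 ≤ n) (a : ℂ) (ha : a ≠ 0) (z : Fin n → ℂ) :
    ‖resultant (C a * ofRoots z) (derivative (C a * ofRoots z)) n (n - 1)‖ =
      ‖a‖ ^ (2 * n - 1) * D2 z := by
  have hdeg : (C a * ofRoots z).natDegree = n := by
    rw [natDegree_C_mul ha, ofRoots_natDegree]
  have h := resultant_eq_prod_eval (C a * ofRoots z) (derivative (C a * ofRoots z)) (n - 1)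
    (by
      refine (natDegree_derivative_le _).trans ?_
      rw [hdeg]) (IsAlgClosed.splits _)
  rw [hdeg] at h
  rw [h, leadingCoeff_mul, leadingCoeff_C, (ofRoots_monic z).leadingCoeff, mul_one,
    roots_C_mul _ ha, ofRoots_roots, Multiset.map_map]
  rw [← Finset.prod_eq_multiset_prod]
  rw [norm_mul, norm_pow, norm_prod]
  have h2 : ∀ i : Fin n, ‖(eval · (derivative (C a * ofRoots z))) (z i)‖ =
      ‖a‖ * ∏ j ∈ Finset.univ.erase i, ‖z i - z j‖ := by
    intro i
    simp only [derivative_C_mul, eval_mul, eval_C, norm_mul]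
    rw [eval_derivative_ofRoots, norm_prod]
  simp only [Function.comp] at *
  rw [Finset.prod_congr rfl (fun i _ => h2 i), Finset.prod_mul_distrib]
  rw [Finset.prod_const, Finset.card_univ, Fintype.card_fin, ← mul_assoc, ← pow_add]
  unfold D2
  congr 2
  omega

/-- the real monic polynomial with coefficient vector `b` -/
noncomputable def pol {n : ℕ} (b : Fin n → ℝ) : ℝ[X] := X ^ n + ∑ i : Fin n, C (b i) * X ^ (i : ℕ)

/-- its discriminant up to sign, as a resultant -/
noncomputable def Rb {n : ℕ} (b : Fin n → ℝ) : ℝ :=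
  resultant (pol b) (derivative (pol b)) n (n - 1)

theorem exists_ofRoots (p : ℂ[X]) (n : ℕ) (hn : p.natDegree = n) :
    ∃ z : Fin n → ℂ, p = C p.leadingCoeff * ofRoots z := by
  have h1 := (IsAlgClosed.splits p).natDegree_eq_card_roots
  have h2 := (IsAlgClosed.splits p).eq_prod_roots
  set l := p.roots.toList with hl
  have hlen : l.length = n := by
    rw [hl, Multiset.length_toList, ← h1, hn]
  subst hlen
  refine ⟨fun i => l.get i, ?_⟩
  conv_lhs => rw [h2]
  congr 1
  unfold ofRoots
  have h3 : p.roots = (l : Multiset ℂ) := by rw [hl, Multiset.coe_toList]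
  rw [h3, Multiset.map_coe, Multiset.prod_coe]
  rw [← List.prod_ofFn]
  congr 1
  apply List.ext_get
  · simp
  · intro i h1 h2
    simp

theorem norm_Rb {n : ℕ} (hn : 1 ≤ n) (b : Fin n → ℝ) (z : Fin n → ℂ)
    (h : (pol b).map (algebraMap ℝ ℂ) = ofRoots z) : |Rb b| = D2 z := by
  have h1 := norm_resultant hn 1 one_ne_zero z
  rw [map_one, one_mul, ← h, derivative_map, resultant_map_map] at h1
  rw [show (algebraMap ℝ ℂ) (resultant (pol b) (derivative (pol b)) n (n - 1)) = ((Rb b : ℝ) : ℂ)
    from rfl, Complex.norm_real] at h1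
  simpa using h1

end Pool.Agent.Helper12.Disc
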