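import Mathlib
import Pool.Agent.Helper12.DiscRoots

set_option autoImplicit false

namespace Pool.Agent.Helper12.Disc

/-- the differences `z l - z (c l)`, `l ≠ i`, determine `z` up to constants -/
def Good {n : ℕ} (i : Fin n) (c : Fin n → Fin n) : Prop :=
  ∀ z : Fin n → ℂ, (∀ l, l ≠ i → z l = z (c l)) → ∀ l, z l = z i

/-- separation into two clusters -/
theorem exists_split {n : ℕ} (c0 : ℝ) (hc0 : 0 < c0) (z : Fin n → ℂ) (p q : Fin n)
    (hpq : c0 ≤ ‖z p - z q‖) :
    ∃ I : Finset (Fin n), p ∈ I ∧ q ∉ I ∧ ∀ l ∈ I, ∀ m, m ∉ I → c0 / n ≤ ‖z l - z m‖ := by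
  classical
  have hn : 0 < n := p.pos
  have hn' : (0 : ℝ) < n := by exact_mod_cast hn
  set η : ℝ := c0 / n with hη
  have hηpos : 0 < η := div_pos hc0 hn'
  set f : Fin n → ℕ := fun j => ⌊‖z j - z p‖ / η⌋₊ with hf
  have hfp : f p = 0 := by simp [hf]
  have hfq : n ≤ f q := by
    rw [hf]
    simp only
    rw [Nat.le_floor_iff (by positivity), le_div_iff₀ hηpos, hη, mul_div_cancel₀ _ hn'.ne',
      norm_sub_rev]
    exact hpq
  have hk : ∃ k ∈ Finset.Icc 1 (n - 1), k ∉ Finset.univ.image f := by
    by_contra hcon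
    push Not at hcon
    have hsub : insert 0 (insert (f q) (Finset.Icc 1 (n - 1))) ⊆ Finset.univ.image f := by
      intro k hk
      rw [Finset.mem_insert, Finset.mem_insert] at hk
      rcases hk with rfl | rfl | hk
      · rw [← hfp]; exact Finset.mem_image_of_mem _ (Finset.mem_univ _)
      · exact Finset.mem_image_of_mem _ (Finset.mem_univ _)
      · exact hcon k hk
    have h1 := Finset.card_le_card hsub
    rw [Finset.card_insert_of_notMem, Finset.card_insert_of_notMem, Nat.card_Icc] at h1
    · have h2 : (Finset.univ.image f).card ≤ n := by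
        refine Finset.card_image_le.trans ?_
        simp
      omega
    · simp only [Finset.mem_Icc]; omega
    · simp only [Finset.mem_insert, Finset.mem_Icc]; omega
  obtain ⟨k, hk1, hk2⟩ := hk
  rw [Finset.mem_Icc] at hk1
  refine ⟨Finset.univ.filter (fun j => f j < k), ?_, ?_, ?_⟩
  · simp only [Finset.mem_filter, Finset.mem_univ, true_and, hfp]; omega
  · simp only [Finset.mem_filter, Finset.mem_univ, true_and]; omega
  · intro l hl m hm
    simp only [Finset.mem_filter, Finset.mem_univ, true_and] at hl hm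
    have hmk : f m ≠ k := by
      intro h
      exact hk2 (h ▸ Finset.mem_image_of_mem _ (Finset.mem_univ _))
    have hm' : k + 1 ≤ f m := by omega
    have h1 : ‖z l - z p‖ < k * η := by
      have := Nat.lt_floor_add_one (‖z l - z p‖ / η)
      rw [← div_lt_iff₀ hηpos]
      refine lt_of_lt_of_le this ?_
      have h3 : f l + 1 ≤ k := hl
      exact_mod_cast h3
    have h2 : (k + 1) * η ≤ ‖z m - z p‖ := by
      rw [← le_div_iff₀ hηpos]
      have h3 := Nat.floor_le (a := ‖z m - z p‖ / η) (by positivity)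
      refine le_trans ?_ h3
      exact_mod_cast hm'
    have h3 : ‖z m - z p‖ ≤ ‖z l - z m‖ + ‖z l - z p‖ := by
      have : z m - z p = (z m - z l) + (z l - z p) := by ring
      rw [this, norm_sub_rev (z l) (z m)]
      exact norm_add_le _ _
    nlinarith

theorem prod_min {n : ℕ} (J : Finset (Fin n)) (hJ : J.Nonempty) (hc : J.card ≤ n - 1)
    (P : Fin n → ℝ) (h0 : ∀ l, 0 ≤ P l) (h1 : ∀ l, P l ≤ 1) :
    ∃ i ∈ J, (P i) ^ (n - 1) ≤ ∏ l ∈ J, P l := by
  obtain ⟨i, hi, hmin⟩ := J.exists_min_image P hJ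
  refine ⟨i, hi, ?_⟩
  calc (P i) ^ (n - 1) ≤ (P i) ^ J.card := pow_le_pow_of_le_one (h0 i) (h1 i) hc
    _ = ∏ l ∈ J, P i := by rw [Finset.prod_const]
    _ ≤ ∏ l ∈ J, P l := Finset.prod_le_prod (fun _ _ => h0 i) hmin

theorem cluster {n : ℕ} (c0 : ℝ) (hc0 : 0 < c0) (hc1 : c0 ≤ 1) (z : Fin n → ℂ)
    (hz : ∀ l m, ‖z l - z m‖ ≤ 1) (hpq : ∃ p q, c0 ≤ ‖z p - z q‖) :
    ∃ i c, Good i c ∧ (c0 / n) ^ (n * n) *
      (∏ l ∈ Finset.univ.erase i, ‖z l - z (c l)‖) ^ (n - 1) ≤ D2 z := by
  classical
  obtain ⟨p, q, hpq⟩ := hpq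
  obtain ⟨I, hpI, hqI, hsep⟩ := exists_split c0 hc0 z p q hpq
  have hn : 0 < n := p.pos
  have hn' : (0 : ℝ) < n := by exact_mod_cast hn
  have hn1 : (1 : ℝ) ≤ n := by exact_mod_cast hn
  set η : ℝ := c0 / n with hη
  have hηpos : 0 < η := div_pos hc0 hn'
  have hη1 : η ≤ 1 := by
    rw [hη, div_le_one hn']; linarith
  set P : Finset (Fin n) → Fin n → ℝ := fun J l => ∏ m ∈ J.erase l, ‖z l - z m‖ with hP
  have hP0 : ∀ J l, 0 ≤ P J l := fun J l => Finset.prod_nonneg fun _ _ => norm_nonneg _
  have hP1 : ∀ J l, P J l ≤ 1 := fun J l =>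
    Finset.prod_le_one (fun _ _ => norm_nonneg _) fun m _ => hz l m
  have hcI : I.card ≤ n - 1 := by
    have : I.card < n := by
      have h := Finset.card_lt_card (s := I) (t := Finset.univ) ⟨Finset.subset_univ _, by
        intro h; exact hqI (h (Finset.mem_univ _))⟩
      simpa using h
    omega
  have hcIc : Iᶜ.card ≤ n - 1 := by
    rw [Finset.card_compl, Fintype.card_fin]
    have : 0 < I.card := Finset.card_pos.2 ⟨p, hpI⟩
    omega
  obtain ⟨i, hi, hPi⟩ := prod_min I ⟨p, hpI⟩ hcI (P I) (hP0 I) (hP1 I)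
  obtain ⟨j, hj, hPj⟩ := prod_min Iᶜ ⟨q, Finset.mem_compl.2 hqI⟩ hcIc (P Iᶜ) (hP0 Iᶜ) (hP1 Iᶜ)
  have hjI : j ∉ I := Finset.mem_compl.1 hj
  refine ⟨i, fun l => if l = j then i else if l ∈ I then i else j, ?_, ?_⟩
  · intro w hw
    have hji : j ≠ i := by rintro rfl; exact hjI hi
    have hwj : w j = w i := by
      have := hw j hji
      simpa using this
    intro l
    by_cases hli : l = i
    · rw [hli]
    · by_cases hlj : l = j
      · rw [hlj, hwj]
      · have := hw l hli
        by_cases hlI : l ∈ I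
        · simpa [hlj, hlI] using this
        · simp [hlj, hlI] at this
          rw [this, hwj]
  · -- lower bound of D2
    have hrow : ∀ (J : Finset (Fin n)), (∀ l ∈ J, ∀ m, m ∉ J → η ≤ ‖z l - z m‖) → ∀ l ∈ J,
        η ^ n * P J l ≤ ∏ m ∈ Finset.univ.erase l, ‖z l - z m‖ := by
      intro J hJ l hl
      have h1 : Finset.univ.erase l = J.erase l ∪ Jᶜ := by
        ext m
        simp only [Finset.mem_erase, Finset.mem_univ, and_true, Finset.mem_union,
          Finset.mem_compl]
        constructor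
        · intro h
          by_cases hm : m ∈ J
          · exact Or.inl ⟨h, hm⟩
          · exact Or.inr hm
        · rintro (h | h)
          · exact h.1
          · rintro rfl; exact h hl
      have hdisj : Disjoint (J.erase l) Jᶜ := by
        rw [Finset.disjoint_left]
        intro m hm hm2
        exact (Finset.mem_compl.1 hm2) (Finset.mem_of_mem_erase hm)
      rw [h1, Finset.prod_union hdisj, mul_comm]
      apply mul_le_mul_of_nonneg_left _ (hP0 J l)
      calc η ^ n ≤ η ^ Jᶜ.card := by
            apply pow_le_pow_of_le_one hηpos.le hη1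
            refine (Finset.card_le_univ _).trans ?_
            simp
        _ = ∏ m ∈ Jᶜ, η := by rw [Finset.prod_const]
        _ ≤ ∏ m ∈ Jᶜ, ‖z l - z m‖ := Finset.prod_le_prod (fun _ _ => hηpos.le) fun m hm =>
            hJ l hl m (Finset.mem_compl.1 hm)
    have hrow1 := hrow I hsep
    have hrow2 := hrow Iᶜ (by
      intro l hl m hm
      rw [norm_sub_rev]
      exact hsep m (by simpa using hm) l (Finset.mem_compl.1 hl))
    have hD : η ^ (n * n) * ((∏ l ∈ I, P I l) * ∏ l ∈ Iᶜ, P Iᶜ l) ≤ D2 z := by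
      unfold D2
      rw [← Finset.prod_mul_prod_compl I]
      calc η ^ (n * n) * ((∏ l ∈ I, P I l) * ∏ l ∈ Iᶜ, P Iᶜ l)
          = (∏ l ∈ I, η ^ n * P I l) * ∏ l ∈ Iᶜ, η ^ n * P Iᶜ l := by
            rw [Finset.prod_mul_distrib, Finset.prod_mul_distrib, Finset.prod_const,
              Finset.prod_const, pow_mul]
            have : (η ^ n) ^ n = (η ^ n) ^ I.card * (η ^ n) ^ Iᶜ.card := by
              rw [← pow_add, Finset.card_add_card_compl, Fintype.card_fin]
            rw [this]; ring
        _ ≤ _ := by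
            apply mul_le_mul
            · exact Finset.prod_le_prod (fun l _ => mul_nonneg (by positivity) (hP0 I l)) hrow1
            · exact Finset.prod_le_prod (fun l _ => mul_nonneg (by positivity) (hP0 Iᶜ l)) hrow2
            · exact Finset.prod_nonneg fun l _ => mul_nonneg (by positivity) (hP0 Iᶜ l)
            · exact Finset.prod_nonneg fun l _ => Finset.prod_nonneg fun _ _ => norm_nonneg _
    refine le_trans ?_ hD
    apply mul_le_mul_of_nonneg_left _ (by positivity)
    refine le_trans ?_ (mul_le_mul hPi hPj (pow_nonneg (hP0 _ _) _)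
      (Finset.prod_nonneg fun l _ => hP0 _ _))
    rw [← mul_pow]
    apply pow_le_pow_left₀ (Finset.prod_nonneg fun _ _ => norm_nonneg _)
    have hu : Finset.univ.erase i = I.erase i ∪ Iᶜ := by
      ext m
      simp only [Finset.mem_erase, Finset.mem_univ, and_true, Finset.mem_union,
        Finset.mem_compl]
      constructor
      · intro h
        by_cases hm : m ∈ I
        · exact Or.inl ⟨h, hm⟩
        · exact Or.inr hm
      · rintro (h | h)
        · exact h.1
        · rintro rfl; exact h hi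
    have hdisj : Disjoint (I.erase i) Iᶜ := by
      rw [Finset.disjoint_left]
      intro m hm hm2
      exact (Finset.mem_compl.1 hm2) (Finset.mem_of_mem_erase hm)
    rw [hu, Finset.prod_union hdisj]
    apply mul_le_mul
    · apply le_of_eq
      apply Finset.prod_congr rfl
      intro l hl
      have hlI := Finset.mem_of_mem_erase hl
      have hlj : l ≠ j := by rintro rfl; exact hjI hlI
      simp only [hlj, hlI, if_true, if_false]
      rw [norm_sub_rev]
    · rw [← Finset.mul_prod_erase _ _ hj]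
      simp only [if_true]
      calc ‖z j - z i‖ * ∏ x ∈ Iᶜ.erase j, ‖z x - z (if x = j then i else if x ∈ I then i else j)‖
          ≤ 1 * ∏ x ∈ Iᶜ.erase j, ‖z x - z (if x = j then i else if x ∈ I then i else j)‖ :=
            mul_le_mul_of_nonneg_right (hz j i) (Finset.prod_nonneg fun _ _ => norm_nonneg _)
        _ = P Iᶜ j := by
            rw [one_mul]
            apply Finset.prod_congr rfl
            intro l hl
            have hlI := Finset.mem_compl.1 (Finset.mem_of_mem_erase hl)
            have hlj : l ≠ j := Finset.ne_of_mem_erase hl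
            simp only [hlj, hlI, if_false]
            rw [norm_sub_rev]
    · exact Finset.prod_nonneg fun _ _ => norm_nonneg _
    · exact hP0 _ _

end Pool.Agent.Helper12.Disc
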