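import Mathlib
import Pool.Agent.Helper12.DiscRoots

set_option autoImplicit false

open Polynomial

namespace Pool.Agent.Helper12.Disc

theorem natDegree_eq_of_map {P : ℤ[X]} {n : ℕ} {a : ℂ} (ha : a ≠ 0) {z : Fin n → ℂ}
    (h : P.map (Int.castRingHom ℂ) = C a * ofRoots z) : P.natDegree = n := by
  have h1 : (P.map (Int.castRingHom ℂ)).natDegree = P.natDegree :=
    natDegree_map_eq_of_injective (RingHom.injective_int _) _
  rw [← h1, h, natDegree_C_mul ha, ofRoots_natDegree]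

theorem leadingCoeff_of_map {P : ℤ[X]} {n : ℕ} {a : ℂ} {z : Fin n → ℂ}
    (h : P.map (Int.castRingHom ℂ) = C a * ofRoots z) : (P.leadingCoeff : ℂ) = a := by
  have h1 : (P.map (Int.castRingHom ℂ)).leadingCoeff = (P.leadingCoeff : ℂ) := by
    rw [leadingCoeff_map_of_injective (RingHom.injective_int _)]
    simp
  rw [← h1, h, leadingCoeff_mul, (ofRoots_monic z).leadingCoeff]
  simp

theorem abs_discr {P : ℤ[X]} {n : ℕ} (hn : 1 ≤ n) {a : ℂ} (ha : a ≠ 0) {z : Fin n → ℂ}
    (h : P.map (Int.castRingHom ℂ) = C a * ofRoots z) :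
    |(P.discr : ℝ)| = ‖a‖ ^ (2 * n - 2) * D2 z := by
  have hdeg := natDegree_eq_of_map ha h
  have hpos : 0 < P.degree := by
    rw [← natDegree_pos_iff_degree_pos]; omega
  have h1 := resultant_deriv hpos
  rw [hdeg] at h1
  have h2 := norm_resultant hn a ha z
  rw [← h, derivative_map, resultant_map_map, h1] at h2
  simp only [map_mul, map_pow, map_neg, map_one, norm_mul, norm_pow, norm_neg, norm_one,
    one_pow, one_mul, eq_intCast] at h2
  rw [leadingCoeff_of_map h] at h2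
  have h3 : ‖((P.discr : ℤ) : ℂ)‖ = |(P.discr : ℝ)| := by
    rw [Complex.norm_intCast]
  rw [h3] at h2
  have ha' : 0 < ‖a‖ := norm_pos_iff.2 ha
  have h4 : ‖a‖ ^ (2 * n - 1) = ‖a‖ * ‖a‖ ^ (2 * n - 2) := by
    rw [← pow_succ']
    congr 1
    omega
  rw [h4, mul_assoc] at h2
  exact mul_left_cancel₀ ha'.ne' h2

theorem taylor_ofRoots {n : ℕ} (z : Fin n → ℂ) (k : ℂ) :
    taylor k (ofRoots z) = ofRoots (fun i => z i - k) := by
  unfold ofRoots
  have h : taylor k (∏ i, (X - C (z i))) = ∏ i, taylor k (X - C (z i)) :=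
    map_prod (taylorAlgHom k) (fun i => X - C (z i)) Finset.univ
  rw [h]
  apply Finset.prod_congr rfl
  intro i _
  simp only [map_sub, taylor_X, taylor_C]
  ring

theorem reflect_ofRoots {n : ℕ} (z : Fin n → ℂ) :
    reflect n (ofRoots z) = ∏ i, (1 - C (z i) * X) := by
  unfold ofRoots
  have key : ∀ s : Finset (Fin n), reflect s.card (∏ i ∈ s, (X - C (z i))) =
      ∏ i ∈ s, (1 - C (z i) * X) := by
    intro s
    induction s using Finset.induction_on with
    | empty => simp [reflect_one]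
    | insert a s ha ih =>
      rw [Finset.prod_insert ha, Finset.prod_insert ha, Finset.card_insert_of_notMem ha,
        add_comm, reflect_mul, ih]
      · congr 1
        rw [reflect_sub, reflect_C]
        simp
      · exact (natDegree_X_sub_C _).le
      · refine (natDegree_prod_le _ _).trans ?_
        simp
  have := key Finset.univ
  simpa using this

theorem prod_one_sub {n : ℕ} (y : Fin n → ℂ) (hy : ∀ i, y i ≠ 0) :
    ∏ i, (1 - C (y i) * X) = C (∏ i, -y i) * ofRoots (fun i => (y i)⁻¹) := by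
  unfold ofRoots
  rw [map_prod, ← Finset.prod_mul_distrib]
  apply Finset.prod_congr rfl
  intro i _
  have : (C (-y i) * (X - C (y i)⁻¹) : ℂ[X]) = -C (y i) * X + C (y i * (y i)⁻¹) := by
    rw [C_neg, C_mul]; ring
  rw [this, mul_inv_cancel₀ (hy i)]
  simp
  ring

theorem prod_erase_swap {n : ℕ} (f : Fin n → ℝ) (hf : ∀ i, f i ≠ 0) :
    ∏ i, ∏ j ∈ Finset.univ.erase i, f j = (∏ i, f i) ^ (n - 1) := by
  have hF : (∏ i, f i) ≠ 0 := Finset.prod_ne_zero_iff.2 fun i _ => hf i
  have h1 : ∀ i, ∏ j ∈ Finset.univ.erase i, f j = (∏ i, f i) / f i := by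
    intro i
    rw [eq_div_iff (hf i), mul_comm]
    exact Finset.mul_prod_erase _ _ (Finset.mem_univ i)
  rw [Finset.prod_congr rfl (fun i _ => h1 i), Finset.prod_div_distrib, Finset.prod_const,
    Finset.card_univ, Fintype.card_fin]
  rcases Nat.eq_zero_or_pos n with h0 | hn
  · subst h0; simp
  · obtain ⟨m, rfl⟩ : ∃ m, n = m + 1 := ⟨n - 1, by omega⟩
    rw [Nat.add_sub_cancel, pow_succ, mul_div_assoc, div_self hF, mul_one]

theorem D2_inv {n : ℕ} (y : Fin n → ℂ) (hy : ∀ i, y i ≠ 0) :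
    D2 (fun i => (y i)⁻¹) * ∏ i, ‖y i‖ ^ (2 * (n - 1)) = D2 y := by
  have hn : ∀ i, ‖y i‖ ≠ 0 := fun i => norm_ne_zero_iff.2 (hy i)
  have h1 : ∏ i, ‖y i‖ ^ (2 * (n - 1)) =
      (∏ i, ∏ j ∈ Finset.univ.erase i, ‖y j‖) * ∏ i, ∏ j ∈ Finset.univ.erase i, ‖y i‖ := by
    rw [prod_erase_swap _ hn]
    have : ∏ i, ∏ j ∈ Finset.univ.erase i, ‖y i‖ = (∏ i, ‖y i‖) ^ (n - 1) := by
      rw [← Finset.prod_pow]
      apply Finset.prod_congr rfl
      intro i _
      rw [Finset.prod_const, Finset.card_erase_of_mem (Finset.mem_univ _)]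
      simp
    rw [this, ← pow_add, Finset.prod_pow]
    congr 1
    omega
  rw [h1]
  unfold D2
  rw [← Finset.prod_mul_distrib, ← Finset.prod_mul_distrib]
  apply Finset.prod_congr rfl
  intro i _
  rw [← Finset.prod_mul_distrib, ← Finset.prod_mul_distrib]
  apply Finset.prod_congr rfl
  intro j _
  have : (y i)⁻¹ - (y j)⁻¹ = (y j - y i) / (y i * y j) := by
    field_simp [hy i, hy j]
  rw [this, norm_div, norm_mul, norm_sub_rev]
  field_simp [hn i, hn j]

/-- the unimodular substitution `x ↦ k + 1/x` -/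
noncomputable def tr (n : ℕ) (k : ℤ) (P : ℤ[X]) : ℤ[X] := reflect n (taylor k P)

theorem tr_injective (n : ℕ) (k : ℤ) : Function.Injective (tr n k) := by
  intro P Q h
  unfold tr at h
  have := congrArg (reflect n) h
  rw [reflect_reflect, reflect_reflect] at this
  exact taylor_injective _ this

theorem tr_map {n : ℕ} (k : ℤ) {P : ℤ[X]} {a : ℂ} {z : Fin n → ℂ}
    (h : P.map (Int.castRingHom ℂ) = C a * ofRoots z) (hz : ∀ i, z i - (k : ℂ) ≠ 0) :
    (tr n k P).map (Int.castRingHom ℂ) =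
      C (a * ∏ i, -(z i - (k : ℂ))) * ofRoots (fun i => (z i - (k : ℂ))⁻¹) := by
  unfold tr
  rw [← reflect_map, map_taylor, h, taylor_mul, taylor_C, reflect_C_mul, eq_intCast,
    taylor_ofRoots, reflect_ofRoots, prod_one_sub _ hz, C_mul, mul_assoc]

theorem eval_eq_prod {n : ℕ} (k : ℤ) {P : ℤ[X]} {a : ℂ} {z : Fin n → ℂ}
    (h : P.map (Int.castRingHom ℂ) = C a * ofRoots z) :
    ((P.eval k : ℤ) : ℂ) = a * ∏ i, ((k : ℂ) - z i) := by
  have h1 : ((P.eval k : ℤ) : ℂ) = (P.map (Int.castRingHom ℂ)).eval (k : ℂ) := by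
    simp
  rw [h1, h, eval_mul, eval_C, eval_ofRoots]

theorem tr_discr {n : ℕ} (hn : 1 ≤ n) (k : ℤ) {P : ℤ[X]} (hP : P.natDegree = n)
    (hk : P.eval k ≠ 0) :
    (tr n k P).natDegree = n ∧ (tr n k P).leadingCoeff = P.eval k ∧
      |((tr n k P).discr : ℝ)| = |(P.discr : ℝ)| := by
  have hP0 : P ≠ 0 := by rintro rfl; simp at hk
  have hdeg : (P.map (Int.castRingHom ℂ)).natDegree = n := by
    rw [natDegree_map_eq_of_injective (RingHom.injective_int _), hP]
  obtain ⟨z, hz⟩ := exists_ofRoots (P.map (Int.castRingHom ℂ)) n hdeg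
  set a := (P.map (Int.castRingHom ℂ)).leadingCoeff with ha
  have ha0 : a ≠ 0 := by
    rw [ha, Ne, leadingCoeff_eq_zero]
    exact (Polynomial.map_ne_zero_iff (RingHom.injective_int _)).2 hP0
  have hev := eval_eq_prod k hz
  have hk' : ((P.eval k : ℤ) : ℂ) ≠ 0 := by exact_mod_cast hk
  have hzk : ∀ i, z i - (k : ℂ) ≠ 0 := by
    intro i h0
    apply hk'
    rw [hev, Finset.prod_eq_zero (Finset.mem_univ i), mul_zero]
    linear_combination -h0
  have ht := tr_map k hz hzk
  have hlead : a * ∏ i, -(z i - (k : ℂ)) = ((P.eval k : ℤ) : ℂ) := by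
    rw [hev]
    congr 1
    apply Finset.prod_congr rfl
    intro i _; ring
  have hlead0 : a * ∏ i, -(z i - (k : ℂ)) ≠ 0 := by rw [hlead]; exact hk'
  have h1 := natDegree_eq_of_map hlead0 ht
  have h2 := leadingCoeff_of_map ht
  refine ⟨h1, ?_, ?_⟩
  · rw [hlead] at h2
    exact_mod_cast h2
  · rw [abs_discr hn hlead0 ht, abs_discr hn ha0 hz, norm_mul, mul_pow, mul_assoc]
    congr 1
    have h3 := D2_inv (fun i => z i - (k : ℂ)) hzk
    have h4 : D2 (fun i => z i - (k : ℂ)) = D2 z := by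
      unfold D2
      simp
    rw [h4] at h3
    rw [← h3, norm_prod, ← Finset.prod_pow, mul_comm]
    congr 1
    apply Finset.prod_congr rfl
    intro i _
    rw [norm_neg]
    congr 1
    omega

end Pool.Agent.Helper12.Disc
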