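import Pool.Agent.Helper12.DiscCluster
import Mathlib

set_option autoImplicit false

open MeasureTheory

namespace Pool.Agent.Helper12.Disc

/-- the roots as complex linear forms of the real parameters -/
noncomputable def Zof {n : ℕ} (N : Matrix (Fin n) (Fin n) ℂ) (y : Fin n → ℝ) : Fin n → ℂ :=
  N.mulVec fun j => ((y j : ℝ) : ℂ)

theorem Zof_apply {n : ℕ} (N : Matrix (Fin n) (Fin n) ℂ) (y : Fin n → ℝ) (l : Fin n) :
    Zof N y l = ∑ j, N l j * ((y j : ℝ) : ℂ) := rfl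

theorem Zof_add {n : ℕ} (N : Matrix (Fin n) (Fin n) ℂ) (y y' : Fin n → ℝ) :
    Zof N (y + y') = Zof N y + Zof N y' := by
  funext l
  simp only [Zof_apply, Pi.add_apply, Complex.ofReal_add, mul_add, Finset.sum_add_distrib]

theorem Zof_smul {n : ℕ} (N : Matrix (Fin n) (Fin n) ℂ) (t : ℝ) (y : Fin n → ℝ) :
    Zof N (t • y) = (t : ℂ) • Zof N y := by
  funext l
  simp only [Zof_apply, Pi.smul_apply, smul_eq_mul, Complex.ofReal_mul, Finset.mul_sum]
  apply Finset.sum_congr rfl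
  intro j _
  ring

theorem Zof_continuous {n : ℕ} (N : Matrix (Fin n) (Fin n) ℂ) : Continuous (Zof N) := by
  rw [continuous_pi_iff]
  intro l
  simp only [Zof_apply]
  fun_prop

theorem D2_continuous {n : ℕ} : Continuous (D2 : (Fin n → ℂ) → ℝ) := by
  unfold D2
  fun_prop

theorem D2_smul {m : ℕ} (t : ℂ) (z : Fin (m + 1) → ℂ) :
    D2 (t • z) = ‖t‖ ^ ((m + 1) * m) * D2 z := by
  unfold D2
  have h : ∀ i : Fin (m + 1), ∏ j ∈ Finset.univ.erase i, ‖(t • z) i - (t • z) j‖ =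
      ‖t‖ ^ m * ∏ j ∈ Finset.univ.erase i, ‖z i - z j‖ := by
    intro i
    have : ∀ j, ‖(t • z) i - (t • z) j‖ = ‖t‖ * ‖z i - z j‖ := by
      intro j
      rw [Pi.smul_apply, Pi.smul_apply, ← smul_sub, norm_smul]
    simp only [this, Finset.prod_mul_distrib, Finset.prod_const]
    rw [Finset.card_erase_of_mem (Finset.mem_univ _)]
    simp
  rw [Finset.prod_congr rfl (fun i _ => h i), Finset.prod_mul_distrib, Finset.prod_const]
  rw [Finset.card_univ, Fintype.card_fin, ← pow_mul, mul_comm m]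

/-- matrix of the forms `z l - z (c l)`, `l ≠ i` -/
def Tmat {m : ℕ} (N : Matrix (Fin (m + 1)) (Fin (m + 1)) ℂ) (i : Fin (m + 1))
    (c : Fin (m + 1) → Fin (m + 1)) : Matrix (Fin m) (Fin m) ℂ :=
  Matrix.of fun k j => N (i.succAbove k) j.succ - N (c (i.succAbove k)) j.succ

theorem Tmat_mulVec {m : ℕ} (N : Matrix (Fin (m + 1)) (Fin (m + 1)) ℂ) (i : Fin (m + 1))
    (c : Fin (m + 1) → Fin (m + 1)) (v : Fin m → ℂ) (k : Fin m) :
    (Tmat N i c).mulVec v k =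
      (N.mulVec (Fin.cons 0 v : Fin (m + 1) → ℂ)) (i.succAbove k) -
        (N.mulVec (Fin.cons 0 v : Fin (m + 1) → ℂ)) (c (i.succAbove k)) := by
  simp only [Matrix.mulVec, dotProduct, Tmat, Matrix.of_apply, Fin.sum_univ_succ, Fin.cons_zero,
    Fin.cons_succ, mul_zero, zero_add, sub_mul, Finset.sum_sub_distrib]

theorem Tmat_det {m : ℕ} (N : Matrix (Fin (m + 1)) (Fin (m + 1)) ℂ) (hN : N.det ≠ 0)
    (e : Fin (m + 1) → ℝ) (he0 : e 0 = 1) (he : ∀ l, Zof N e l = 1)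
    (i : Fin (m + 1)) (c : Fin (m + 1) → Fin (m + 1)) (hg : Good i c) :
    (Tmat N i c).det ≠ 0 := by
  intro h0
  obtain ⟨v, hv0, hv⟩ := Matrix.exists_mulVec_eq_zero_iff.2 h0
  apply hv0
  set z : Fin (m + 1) → ℂ := N.mulVec (Fin.cons 0 v : Fin (m + 1) → ℂ) with hz
  have hz1 : ∀ l, l ≠ i → z l = z (c l) := by
    intro l hl
    obtain ⟨k, rfl⟩ := Fin.exists_succAbove_eq hl
    have := congrFun hv k
    rw [Tmat_mulVec] at this
    exact sub_eq_zero.1 this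
  have hz2 := hg z hz1
  have hinj := Matrix.mulVec_injective_iff_isUnit.2 ((Matrix.isUnit_iff_isUnit_det N).2
    (isUnit_iff_ne_zero.2 hN))
  have h2 : N.mulVec (Fin.cons 0 v : Fin (m + 1) → ℂ) =
      N.mulVec (fun j => z i * ((e j : ℝ) : ℂ)) := by
    funext l
    have h3 : N.mulVec (fun j => z i * ((e j : ℝ) : ℂ)) l = z i * Zof N e l := by
      rw [Zof_apply, Finset.mul_sum]
      simp only [Matrix.mulVec, dotProduct]
      apply Finset.sum_congr rfl
      intro j _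
      ring
    rw [h3, he l, mul_one]
    exact hz2 l
  have h4 := hinj h2
  have h5 : z i = 0 := by
    have := congrFun h4 0
    rw [he0] at this
    simpa using this.symm
  funext k
  have := congrFun h4 k.succ
  rw [h5] at this
  simpa using this

/-- the discriminant as a function on the slice `y 0 = 0` -/
noncomputable def gfun {m : ℕ} (N : Matrix (Fin (m + 1)) (Fin (m + 1)) ℂ) (w : Fin m → ℝ) : ℝ :=
  D2 (Zof N (Fin.cons 0 w : Fin (m + 1) → ℝ))

theorem cons_ofReal {m : ℕ} (w : Fin m → ℝ) :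
    (fun j => (((Fin.cons 0 w : Fin (m + 1) → ℝ) j : ℝ) : ℂ)) =
      (Fin.cons 0 (fun j => ((w j : ℝ) : ℂ)) : Fin (m + 1) → ℂ) := by
  funext j
  refine Fin.cases ?_ ?_ j
  · simp
  · intro k; simp

theorem Zof_cons {m : ℕ} (N : Matrix (Fin (m + 1)) (Fin (m + 1)) ℂ) (w : Fin m → ℝ) :
    Zof N (Fin.cons 0 w : Fin (m + 1) → ℝ) =
      N.mulVec (Fin.cons 0 (fun j => ((w j : ℝ) : ℂ)) : Fin (m + 1) → ℂ) := by
  unfold Zof
  rw [cons_ofReal]

theorem cons_continuous {m : ℕ} :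
    Continuous (fun w : Fin m → ℝ => (Fin.cons 0 w : Fin (m + 1) → ℝ)) := by
  rw [continuous_pi_iff]
  intro i
  refine Fin.cases ?_ ?_ i
  · simp only [Fin.cons_zero]; exact continuous_const
  · intro j; simp only [Fin.cons_succ]; exact continuous_apply j

theorem gfun_continuous {m : ℕ} (N : Matrix (Fin (m + 1)) (Fin (m + 1)) ℂ) :
    Continuous (gfun N) :=
  D2_continuous.comp ((Zof_continuous N).comp cons_continuous)

theorem gfun_smul {m : ℕ} (N : Matrix (Fin (m + 1)) (Fin (m + 1)) ℂ) (t : ℝ) (ht : 0 ≤ t)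
    (w : Fin m → ℝ) : gfun N (t • w) = t ^ ((m + 1) * m) * gfun N w := by
  unfold gfun
  have h : (Fin.cons 0 (t • w) : Fin (m + 1) → ℝ) = t • (Fin.cons 0 w : Fin (m + 1) → ℝ) := by
    funext j
    refine Fin.cases ?_ ?_ j
    · simp
    · intro k; simp
  rw [h, Zof_smul, D2_smul, Complex.norm_real, Real.norm_of_nonneg ht]

theorem norm_ofReal_pi {m : ℕ} (w : Fin m → ℝ) : ‖(fun j => ((w j : ℝ) : ℂ))‖ = ‖w‖ := by
  simp only [Pi.norm_def, Complex.nnnorm_real]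

/-- lower bound for the diameter -/
theorem diam_lower {m : ℕ} (N : Matrix (Fin (m + 1)) (Fin (m + 1)) ℂ) (hN : N.det ≠ 0)
    (e : Fin (m + 1) → ℝ) (he0 : e 0 = 1) (he : ∀ l, Zof N e l = 1) :
    ∃ c1 : ℝ, 0 < c1 ∧ ∀ w : Fin m → ℝ, w ≠ 0 → ∃ p q,
      c1 * ‖w‖ ≤ ‖Zof N (Fin.cons 0 w : Fin (m + 1) → ℝ) p -
        Zof N (Fin.cons 0 w : Fin (m + 1) → ℝ) q‖ := by
  have hg : Good (0 : Fin (m + 1)) (fun _ => 0) := by
    intro z hz l
    by_cases hl : l = 0
    · rw [hl]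
    · exact hz l hl
  have hdet := Tmat_det N hN e he0 he 0 (fun _ => 0) hg
  have hker : LinearMap.ker (Tmat N 0 (fun _ => 0)).mulVecLin = ⊥ := by
    rw [LinearMap.ker_eq_bot]
    exact Matrix.mulVec_injective_iff_isUnit.2 ((Matrix.isUnit_iff_isUnit_det _).2
      (isUnit_iff_ne_zero.2 hdet))
  obtain ⟨K, hK, hKa⟩ := LinearMap.exists_antilipschitzWith _ hker
  have hK' : (0 : ℝ) < K := by exact_mod_cast hK
  refine ⟨1 / K, by positivity, ?_⟩
  intro w hw
  by_contra hcon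
  push Not at hcon
  have hwpos : 0 < ‖w‖ := norm_pos_iff.2 hw
  have h1 := hKa.le_mul_dist (fun j => ((w j : ℝ) : ℂ)) 0
  rw [map_zero, dist_zero_right, dist_zero_right, norm_ofReal_pi] at h1
  have h2 : ‖(Tmat N 0 (fun _ => 0)).mulVecLin (fun j => ((w j : ℝ) : ℂ))‖ < 1 / K * ‖w‖ := by
    rw [pi_norm_lt_iff (by positivity)]
    intro k
    rw [Matrix.mulVecLin_apply, Tmat_mulVec, ← Zof_cons]
    exact hcon _ _
  have h3 : (K : ℝ) * ‖(Tmat N 0 (fun _ => 0)).mulVecLin (fun j => ((w j : ℝ) : ℂ))‖ < ‖w‖ := by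
    calc (K : ℝ) * ‖(Tmat N 0 (fun _ => 0)).mulVecLin (fun j => ((w j : ℝ) : ℂ))‖
        < K * (1 / K * ‖w‖) := by
          exact mul_lt_mul_of_pos_left h2 hK'
      _ = ‖w‖ := by field_simp
  linarith

/-- upper bound for the diameter -/
theorem diam_upper {m : ℕ} (N : Matrix (Fin (m + 1)) (Fin (m + 1)) ℂ) :
    ∃ M : ℝ, 0 < M ∧ ∀ (w : Fin m → ℝ) (p q : Fin (m + 1)),
      ‖Zof N (Fin.cons 0 w : Fin (m + 1) → ℝ) p -
        Zof N (Fin.cons 0 w : Fin (m + 1) → ℝ) q‖ ≤ M * ‖w‖ := by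
  set S : ℝ := ∑ i, ∑ j, ‖N i j‖ with hS
  have hS0 : 0 ≤ S := Finset.sum_nonneg fun _ _ => Finset.sum_nonneg fun _ _ => norm_nonneg _
  refine ⟨2 * S + 1, by positivity, ?_⟩
  intro w p q
  have h1 : ∀ p, ‖Zof N (Fin.cons 0 w : Fin (m + 1) → ℝ) p‖ ≤ S * ‖w‖ := by
    intro p
    rw [Zof_apply]
    calc ‖∑ j, N p j * (((Fin.cons 0 w : Fin (m + 1) → ℝ) j : ℝ) : ℂ)‖
        ≤ ∑ j, ‖N p j * (((Fin.cons 0 w : Fin (m + 1) → ℝ) j : ℝ) : ℂ)‖ := norm_sum_le _ _
      _ ≤ ∑ j, ‖N p j‖ * ‖w‖ := by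
        apply Finset.sum_le_sum
        intro j _
        rw [norm_mul, Complex.norm_real]
        apply mul_le_mul_of_nonneg_left _ (norm_nonneg _)
        refine Fin.cases ?_ ?_ j
        · simp
        · intro k
          simp only [Fin.cons_succ]
          exact norm_le_pi_norm w k
      _ = (∑ j, ‖N p j‖) * ‖w‖ := by rw [Finset.sum_mul]
      _ ≤ S * ‖w‖ := by
        apply mul_le_mul_of_nonneg_right _ (norm_nonneg _)
        exact Finset.single_le_sum (f := fun i => ∑ j, ‖N i j‖)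
          (fun i _ => Finset.sum_nonneg fun _ _ => norm_nonneg _) (Finset.mem_univ p)
  calc _ ≤ S * ‖w‖ + S * ‖w‖ := (norm_sub_le _ _).trans (add_le_add (h1 p) (h1 q))
    _ ≤ (2 * S + 1) * ‖w‖ := by nlinarith [norm_nonneg w]

theorem prod_Tmat {m : ℕ} (N : Matrix (Fin (m + 1)) (Fin (m + 1)) ℂ) (i : Fin (m + 1))
    (c : Fin (m + 1) → Fin (m + 1)) (w : Fin m → ℝ) :
    ∏ k, ‖((Tmat N i c).mulVec (fun j => ((w j : ℝ) : ℂ))) k‖ =
      ∏ l ∈ Finset.univ.erase i, ‖Zof N (Fin.cons 0 w : Fin (m + 1) → ℝ) l -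
        Zof N (Fin.cons 0 w : Fin (m + 1) → ℝ) (c l)‖ := by
  classical
  have h : Finset.univ.erase i = Finset.univ.image i.succAbove := by
    ext l
    simp only [Finset.mem_erase, Finset.mem_univ, and_true, Finset.mem_image, true_and]
    constructor
    · intro hl; exact Fin.exists_succAbove_eq hl
    · rintro ⟨k, rfl⟩; exact Fin.succAbove_ne i k
  rw [h, Finset.prod_image (fun _ _ _ _ h => Fin.succAbove_right_injective h)]
  apply Finset.prod_congr rfl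
  intro k _
  rw [Tmat_mulVec, ← Zof_cons]

end Pool.Agent.Helper12.Disc
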