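import Pool.Agent.Helper12.DiscVolA
import Pool.Agent.Helper12.DiscVolB
import Mathlib

set_option autoImplicit false

open MeasureTheory
open scoped Pointwise

namespace Pool.Agent.Helper12.Disc

variable {m : ℕ}

/-- volume bound on an annulus -/
theorem annulus_volume (hm : 1 ≤ m) (N : Matrix (Fin (m + 1)) (Fin (m + 1)) ℂ) (hN : N.det ≠ 0)
    (e : Fin (m + 1) → ℝ) (he0 : e 0 = 1) (he : ∀ l, Zof N e l = 1)
    {a : ℝ} (ha0 : 0 < a) (ha : a < 1) :
    ∃ r : ℝ, 0 < r ∧ ∃ C : ENNReal, C ≠ ⊤ ∧ ∀ δ : ℝ, 0 < δ →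
      volume {w : Fin m → ℝ | r ≤ ‖w‖ ∧ ‖w‖ ≤ 2 * r ∧ gfun N w ≤ δ} ≤
        C * ENNReal.ofReal (δ ^ (a / m)) := by
  classical
  obtain ⟨c1, hc1, hlow⟩ := diam_lower N hN e he0 he
  obtain ⟨M, hM, hup⟩ := diam_upper N
  set r : ℝ := 1 / (2 * M) with hr
  have hrpos : 0 < r := by positivity
  set c0 : ℝ := min 1 (c1 * r) with hc0
  have hc0pos : 0 < c0 := lt_min one_pos (by positivity)
  set κ : ℝ := (c0 / ((m + 1 : ℕ) : ℝ)) ^ ((m + 1) * (m + 1)) with hκ
  have hκpos : 0 < κ := by positivity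
  have hm' : (0 : ℝ) < m := by exact_mod_cast hm
  -- constants for every structure
  have hC : ∀ s : Fin (m + 1) × (Fin (m + 1) → Fin (m + 1)), ∃ C : ENNReal, C ≠ ⊤ ∧
      (Good s.1 s.2 → ∀ δ : ℝ, 0 < δ →
        volume {w : Fin m → ℝ | (∀ i, |w i| ≤ 2 * r) ∧
          ∏ k, ‖((Tmat N s.1 s.2).mulVec (fun j => ((w j : ℝ) : ℂ))) k‖ ≤ δ} ≤
          C * ENNReal.ofReal (δ ^ a)) := by
    intro s
    by_cases hs : Good s.1 s.2
    · obtain ⟨C, hC1, hC2⟩ := lin_small_volume (Tmat N s.1 s.2)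
        (Tmat_det N hN e he0 he s.1 s.2 hs) ha0 ha (2 * r) (by positivity)
      exact ⟨C, hC1, fun _ => hC2⟩
    · exact ⟨0, ENNReal.zero_ne_top, fun h => absurd h hs⟩
  choose C hC1 hC2 using hC
  refine ⟨r, hrpos, (∑ s, C s) * ENNReal.ofReal ((1 / κ) ^ (a / m)), ?_, ?_⟩
  · exact ENNReal.mul_ne_top (ENNReal.sum_ne_top.2 fun s _ => hC1 s) ENNReal.ofReal_ne_top
  intro δ hδ
  set h : ℝ := (δ / κ) ^ (1 / (m : ℝ)) with hh
  have hhpos : 0 < h := Real.rpow_pos_of_pos (by positivity) _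
  have hsub : {w : Fin m → ℝ | r ≤ ‖w‖ ∧ ‖w‖ ≤ 2 * r ∧ gfun N w ≤ δ} ⊆
      ⋃ s ∈ (Finset.univ.filter fun s : Fin (m + 1) × (Fin (m + 1) → Fin (m + 1)) =>
        Good s.1 s.2), {w : Fin m → ℝ | (∀ i, |w i| ≤ 2 * r) ∧
          ∏ k, ‖((Tmat N s.1 s.2).mulVec (fun j => ((w j : ℝ) : ℂ))) k‖ ≤ h} := by
    rintro w ⟨hw1, hw2, hw3⟩
    have hw0 : w ≠ 0 := by
      rintro rfl
      rw [norm_zero] at hw1
      linarith
    have hdiam1 : ∀ l q, ‖Zof N (Fin.cons 0 w : Fin (m + 1) → ℝ) l -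
        Zof N (Fin.cons 0 w : Fin (m + 1) → ℝ) q‖ ≤ 1 := by
      intro l q
      refine (hup w l q).trans ?_
      calc M * ‖w‖ ≤ M * (2 * r) := mul_le_mul_of_nonneg_left hw2 hM.le
        _ = 1 := by rw [hr]; field_simp
    have hdiam2 : ∃ p q, c0 ≤ ‖Zof N (Fin.cons 0 w : Fin (m + 1) → ℝ) p -
        Zof N (Fin.cons 0 w : Fin (m + 1) → ℝ) q‖ := by
      obtain ⟨p, q, hpq⟩ := hlow w hw0
      refine ⟨p, q, le_trans ?_ hpq⟩
      exact (min_le_right _ _).trans (mul_le_mul_of_nonneg_left hw1 hc1.le)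
    obtain ⟨i, c, hgood, hle⟩ := cluster c0 hc0pos (min_le_left _ _) _ hdiam1 hdiam2
    rw [Set.mem_iUnion₂]
    refine ⟨(i, c), by simpa using hgood, ?_, ?_⟩
    · intro k
      have := norm_le_pi_norm w k
      rw [Real.norm_eq_abs] at this
      linarith
    · rw [prod_Tmat]
      set P := ∏ l ∈ Finset.univ.erase i, ‖Zof N (Fin.cons 0 w : Fin (m + 1) → ℝ) l -
        Zof N (Fin.cons 0 w : Fin (m + 1) → ℝ) (c l)‖ with hP
      have hP0 : 0 ≤ P := Finset.prod_nonneg fun _ _ => norm_nonneg _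
      have h1 : κ * P ^ m ≤ δ := by
        refine le_trans ?_ hw3
        rw [Nat.add_sub_cancel] at hle
        exact hle
      have h2 : P ^ m ≤ δ / κ := by
        rw [le_div_iff₀ hκpos]; linarith
      have h3 : P = (P ^ m) ^ (1 / (m : ℝ)) := by
        rw [one_div, Real.pow_rpow_inv_natCast hP0 (by omega)]
      change P ≤ h
      rw [h3, hh]
      exact Real.rpow_le_rpow (by positivity) h2 (by positivity)
  refine (measure_mono hsub).trans ?_
  refine (measure_biUnion_finset_le _ _).trans ?_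
  have hha : h ^ a = (1 / κ) ^ (a / m) * δ ^ (a / m) := by
    rw [hh, ← Real.rpow_mul (by positivity), ← Real.mul_rpow (by positivity) hδ.le]
    congr 1
    · ring
    · ring
  calc ∑ s ∈ (Finset.univ.filter fun s : Fin (m + 1) × (Fin (m + 1) → Fin (m + 1)) =>
        Good s.1 s.2), volume {w : Fin m → ℝ | (∀ i, |w i| ≤ 2 * r) ∧
          ∏ k, ‖((Tmat N s.1 s.2).mulVec (fun j => ((w j : ℝ) : ℂ))) k‖ ≤ h}
      ≤ ∑ s ∈ (Finset.univ.filter fun s : Fin (m + 1) × (Fin (m + 1) → Fin (m + 1)) =>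
        Good s.1 s.2), C s * ENNReal.ofReal (h ^ a) := by
        apply Finset.sum_le_sum
        intro s hs
        exact hC2 s (Finset.mem_filter.1 hs).2 h hhpos
    _ ≤ ∑ s, C s * ENNReal.ofReal (h ^ a) :=
        Finset.sum_le_sum_of_subset (Finset.filter_subset _ _)
    _ = (∑ s, C s) * ENNReal.ofReal (h ^ a) := by rw [Finset.sum_mul]
    _ = _ := by
        rw [hha, ENNReal.ofReal_mul (by positivity), mul_assoc]

/-- the sublevel set `{g ≤ 1}` has finite volume -/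
theorem finite_volume (hm : 1 ≤ m) (N : Matrix (Fin (m + 1)) (Fin (m + 1)) ℂ) (hN : N.det ≠ 0)
    (e : Fin (m + 1) → ℝ) (he0 : e 0 = 1) (he : ∀ l, Zof N e l = 1) :
    volume {w : Fin m → ℝ | gfun N w ≤ 1} ≠ ⊤ := by
  have hm' : (0 : ℝ) < m := by exact_mod_cast hm
  set a : ℝ := (2 * m + 1) / (2 * m + 2) with ha
  have ha0 : 0 < a := by positivity
  have ha1 : a < 1 := by
    rw [ha, div_lt_one (by positivity)]; linarith
  have ha2 : (m : ℝ) < (m + 1) * a := by
    rw [ha]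
    have : ((m : ℝ) + 1) * ((2 * m + 1) / (2 * m + 2)) = (2 * m + 1) / 2 := by
      field_simp
    rw [this]
    linarith
  obtain ⟨r, hr, C, hC, hann⟩ := annulus_volume hm N hN e he0 he ha0 ha1
  set S : ℕ → Set (Fin m → ℝ) := fun k =>
    {w | r * 2 ^ k ≤ ‖w‖ ∧ ‖w‖ ≤ r * 2 ^ (k + 1) ∧ gfun N w ≤ 1} with hS
  have hcover : {w : Fin m → ℝ | gfun N w ≤ 1} ⊆ Metric.closedBall 0 r ∪ ⋃ k, S k := by
    intro w hw
    by_cases hwr : ‖w‖ ≤ r
    · left
      rwa [mem_closedBall_zero_iff]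
    · right
      rw [not_le] at hwr
      rw [Set.mem_iUnion]
      obtain ⟨k, hk1, hk2⟩ := exists_nat_pow_near (x := ‖w‖ / r) (y := (2 : ℝ))
        (by rw [le_div_iff₀ hr]; linarith) one_lt_two
      refine ⟨k, ?_, ?_, hw⟩
      · rw [le_div_iff₀ hr] at hk1; linarith
      · rw [div_lt_iff₀ hr] at hk2; linarith
  set q : ℝ := 2 ^ ((m : ℝ) - (m + 1) * a) with hq
  have hq0 : 0 < q := by positivity
  have hq1 : q < 1 := by
    rw [hq]
    exact Real.rpow_lt_one_of_one_lt_of_neg one_lt_two (by linarith)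
  have hSk : ∀ k, volume (S k) ≤ C * (ENNReal.ofReal q) ^ k := by
    intro k
    set t : ℝ := 2 ^ k with ht
    have htpos : 0 < t := by positivity
    set δ : ℝ := (t ^ ((m + 1) * m))⁻¹ with hδ
    have hδpos : 0 < δ := by positivity
    have hsub : S k ⊆ t • {w : Fin m → ℝ | r ≤ ‖w‖ ∧ ‖w‖ ≤ 2 * r ∧ gfun N w ≤ δ} := by
      rintro w ⟨hw1, hw2, hw3⟩
      rw [Set.mem_smul_set_iff_inv_smul_mem₀ htpos.ne']
      have hnorm : ‖t⁻¹ • w‖ = t⁻¹ * ‖w‖ := by
        rw [norm_smul, Real.norm_of_nonneg (by positivity)]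
      refine ⟨?_, ?_, ?_⟩
      · rw [hnorm, inv_mul_eq_div, le_div_iff₀ htpos]; exact hw1
      · rw [hnorm, inv_mul_eq_div, div_le_iff₀ htpos]
        calc ‖w‖ ≤ r * 2 ^ (k + 1) := hw2
          _ = 2 * r * t := by rw [ht]; ring
      · rw [gfun_smul N _ (by positivity), inv_pow, hδ]
        exact mul_le_of_le_one_right (by positivity) hw3
    calc volume (S k) ≤ volume (t • {w : Fin m → ℝ | r ≤ ‖w‖ ∧ ‖w‖ ≤ 2 * r ∧ gfun N w ≤ δ}) :=
          measure_mono hsub
      _ = ENNReal.ofReal |t ^ m| * volume {w : Fin m → ℝ | r ≤ ‖w‖ ∧ ‖w‖ ≤ 2 * r ∧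
            gfun N w ≤ δ} := by
          rw [Measure.addHaar_smul]; simp
      _ ≤ ENNReal.ofReal |t ^ m| * (C * ENNReal.ofReal (δ ^ (a / m))) := by
          gcongr
          exact hann δ hδpos
      _ = C * ENNReal.ofReal (|t ^ m| * δ ^ (a / m)) := by
          rw [ENNReal.ofReal_mul (abs_nonneg _)]; ring
      _ = C * (ENNReal.ofReal q) ^ k := by
          congr 1
          rw [← ENNReal.ofReal_pow hq0.le]
          congr 1
          rw [abs_of_pos (by positivity), hδ, ht, hq]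
          rw [← Real.rpow_natCast (2 ^ ((m : ℝ) - (m + 1) * a)) k, ← Real.rpow_mul (by norm_num)]
          have h1 : ((2 : ℝ) ^ k) ^ m = 2 ^ ((k : ℝ) * m) := by
            rw [← pow_mul, ← Real.rpow_natCast]; push_cast; ring_nf
          have h2 : (((2 : ℝ) ^ k) ^ ((m + 1) * m))⁻¹ = 2 ^ (-((k : ℝ) * ((m + 1) * m))) := by
            rw [← pow_mul, Real.rpow_neg (by norm_num), ← Real.rpow_natCast]; push_cast; ring_nf
          rw [h1, h2, ← Real.rpow_mul (by norm_num), ← Real.rpow_add (by norm_num)]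
          congr 1
          field_simp
          ring
  refine ne_top_of_le_ne_top ?_ (measure_mono hcover)
  refine ne_top_of_le_ne_top ?_ (measure_union_le _ _)
  rw [ENNReal.add_ne_top]
  refine ⟨(isCompact_closedBall (0 : Fin m → ℝ) r).measure_ne_top, ?_⟩
  refine ne_top_of_le_ne_top ?_ (measure_iUnion_le _)
  refine ne_top_of_le_ne_top ?_ (ENNReal.tsum_le_tsum hSk)
  rw [ENNReal.tsum_mul_left, ENNReal.tsum_geometric]
  apply ENNReal.mul_ne_top hC
  rw [Ne, ENNReal.inv_eq_top, tsub_eq_zero_iff_le, not_le]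
  rw [← ENNReal.ofReal_one]
  exact (ENNReal.ofReal_lt_ofReal_iff one_pos).2 hq1

theorem sublevel_scaling (hm : 1 ≤ m) (N : Matrix (Fin (m + 1)) (Fin (m + 1)) ℂ) {ε : ℝ}
    (hε : 0 < ε) :
    volume {w : Fin m → ℝ | gfun N w ≤ ε} ≤
      ENNReal.ofReal (ε ^ (1 / ((m : ℝ) + 1))) * volume {w : Fin m → ℝ | gfun N w ≤ 1} := by
  have hm' : (0 : ℝ) < m := by exact_mod_cast hm
  set t : ℝ := ε ^ (1 / (((m : ℝ) + 1) * m)) with ht
  have htpos : 0 < t := by positivity
  have htn : t ^ ((m + 1) * m) = ε := by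
    rw [ht, ← Real.rpow_natCast, ← Real.rpow_mul hε.le]
    push_cast
    rw [one_div, inv_mul_cancel₀ (by positivity), Real.rpow_one]
  have hsub : {w : Fin m → ℝ | gfun N w ≤ ε} ⊆ t • {w : Fin m → ℝ | gfun N w ≤ 1} := by
    intro w hw
    rw [Set.mem_smul_set_iff_inv_smul_mem₀ htpos.ne']
    change gfun N (t⁻¹ • w) ≤ 1
    rw [gfun_smul N _ (by positivity), inv_pow, htn, inv_mul_eq_div, div_le_one hε]
    exact hw
  refine (measure_mono hsub).trans ?_
  rw [Measure.addHaar_smul]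
  apply le_of_eq
  congr 2
  rw [Module.finrank_fin_fun, abs_of_pos (by positivity), ht, ← Real.rpow_natCast,
    ← Real.rpow_mul hε.le]
  congr 1
  field_simp

theorem volume_D2 (hm : 1 ≤ m) (N : Matrix (Fin (m + 1)) (Fin (m + 1)) ℂ) (hN : N.det ≠ 0)
    (e : Fin (m + 1) → ℝ) (he0 : e 0 = 1) (he : ∀ l, Zof N e l = 1) (R : ℝ) :
    ∃ C : ENNReal, C ≠ ⊤ ∧ ∀ ε : ℝ, 0 < ε →
      volume {y : Fin (m + 1) → ℝ | (∀ i, |y i| ≤ R) ∧ D2 (Zof N y) ≤ ε} ≤
        C * ENNReal.ofReal (ε ^ (1 / ((m : ℝ) + 1))) := by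
  refine ⟨ENNReal.ofReal (2 * R) * volume {w : Fin m → ℝ | gfun N w ≤ 1},
    ENNReal.mul_ne_top ENNReal.ofReal_ne_top (finite_volume hm N hN e he0 he), ?_⟩
  intro ε hε
  set A : Set (Fin (m + 1) → ℝ) := {y | |y 0| ≤ R ∧ D2 (Zof N y) ≤ ε} with hA
  have hAsub : {y : Fin (m + 1) → ℝ | (∀ i, |y i| ≤ R) ∧ D2 (Zof N y) ≤ ε} ⊆ A := by
    rintro y ⟨h1, h2⟩
    exact ⟨h1 0, h2⟩
  refine (measure_mono hAsub).trans ?_
  set e' : Fin m → ℝ := fun j => e j.succ with he'
  set S : Set (ℝ × (Fin m → ℝ)) := {q | |q.1| ≤ R ∧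
    D2 (Zof N (Fin.cons q.1 q.2 : Fin (m + 1) → ℝ)) ≤ ε} with hS
  have hcons : Continuous (fun q : ℝ × (Fin m → ℝ) => (Fin.cons q.1 q.2 : Fin (m + 1) → ℝ)) := by
    rw [continuous_pi_iff]
    intro i
    refine Fin.cases ?_ ?_ i
    · simp only [Fin.cons_zero]; exact continuous_fst
    · intro j
      simp only [Fin.cons_succ]
      exact (continuous_apply j).comp continuous_snd
  have hSm : MeasurableSet S := by
    have h0 : S = {q : ℝ × (Fin m → ℝ) | |q.1| ≤ R} ∩ {q : ℝ × (Fin m → ℝ) |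
      D2 (Zof N (Fin.cons q.1 q.2 : Fin (m + 1) → ℝ)) ≤ ε} := rfl
    rw [h0]
    apply MeasurableSet.inter
    · have hc : Continuous (fun q : ℝ × (Fin m → ℝ) => |q.1|) := by fun_prop
      exact measurableSet_le hc.measurable measurable_const
    · exact measurableSet_le (D2_continuous.comp ((Zof_continuous N).comp hcons)).measurable
        measurable_const
  have hmp := measurePreserving_piFinSuccAbove (fun _ : Fin (m + 1) => (volume : Measure ℝ)) 0
  have hpre : A = (MeasurableEquiv.piFinSuccAbove (fun _ : Fin (m + 1) => ℝ) 0) ⁻¹' S := by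
    ext x
    have hx : (Fin.cons ((MeasurableEquiv.piFinSuccAbove (fun _ : Fin (m + 1) => ℝ) 0) x).1
        ((MeasurableEquiv.piFinSuccAbove (fun _ : Fin (m + 1) => ℝ) 0) x).2 :
          Fin (m + 1) → ℝ) = x := by
      funext i
      refine Fin.cases ?_ ?_ i
      · simp [MeasurableEquiv.piFinSuccAbove]
      · intro j
        simp [MeasurableEquiv.piFinSuccAbove, Fin.tail]
    have hx0 : ((MeasurableEquiv.piFinSuccAbove (fun _ : Fin (m + 1) => ℝ) 0) x).1 = x 0 := by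
      simp [MeasurableEquiv.piFinSuccAbove]
    constructor
    · rintro ⟨h1, h2⟩
      refine ⟨?_, ?_⟩
      · rw [hx0]; exact h1
      · rw [hx]; exact h2
    · rintro ⟨h1, h2⟩
      refine ⟨?_, ?_⟩
      · rw [hx0] at h1; exact h1
      · rw [hx] at h2; exact h2
  rw [hpre, volume_pi, hmp.measure_preimage hSm.nullMeasurableSet, Measure.prod_apply hSm]
  -- the slices
  have hslice : ∀ t : ℝ, (Measure.pi fun _ : Fin m => (volume : Measure ℝ)) (Prod.mk t ⁻¹' S) ≤
      (Set.Icc (-R) R).indicator (fun _ => volume {w : Fin m → ℝ | gfun N w ≤ ε}) t := by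
    intro t
    by_cases ht : |t| ≤ R
    · have htm : t ∈ Set.Icc (-R) R := abs_le.1 ht
      rw [Set.indicator_of_mem htm]
      have hsl : Prod.mk t ⁻¹' S ⊆ (fun w : Fin m → ℝ => w + (-(t • e'))) ⁻¹'
          {w : Fin m → ℝ | gfun N w ≤ ε} := by
        rintro w ⟨h1, h2⟩
        change gfun N (w + (-(t • e'))) ≤ ε
        have h3 : (Fin.cons t w : Fin (m + 1) → ℝ) =
            t • e + (Fin.cons 0 (w + (-(t • e'))) : Fin (m + 1) → ℝ) := by
          funext j
          refine Fin.cases ?_ ?_ j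
          · simp [he0]
          · intro k; simp [he']
        have h4 : Zof N (Fin.cons t w : Fin (m + 1) → ℝ) = fun l => (t : ℂ) +
            Zof N (Fin.cons 0 (w + (-(t • e'))) : Fin (m + 1) → ℝ) l := by
          rw [h3, Zof_add, Zof_smul]
          funext l
          simp [he l]
        have h5 : D2 (Zof N (Fin.cons t w : Fin (m + 1) → ℝ)) = gfun N (w + (-(t • e'))) := by
          rw [h4]
          unfold gfun D2
          simp
        rw [← h5]
        exact h2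
      refine (measure_mono hsl).trans ?_
      rw [← volume_pi, measure_preimage_add_right]
    · have : Prod.mk t ⁻¹' S = ∅ := by
        ext w
        simp only [Set.mem_preimage, hS, Set.mem_ofPred_eq, Set.mem_empty_iff_false, iff_false,
          not_and]
        intro h
        exact absurd h ht
      rw [this, measure_empty]
      exact zero_le
  refine (lintegral_mono hslice).trans ?_
  rw [lintegral_indicator measurableSet_Icc, lintegral_const, Measure.restrict_apply_univ,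
    Real.volume_Icc]
  calc volume {w : Fin m → ℝ | gfun N w ≤ ε} * ENNReal.ofReal (R - -R)
      ≤ (ENNReal.ofReal (ε ^ (1 / ((m : ℝ) + 1))) * volume {w : Fin m → ℝ | gfun N w ≤ 1}) *
        ENNReal.ofReal (2 * R) := by
        gcongr
        · exact sublevel_scaling hm N hε
        · linarith
    _ = _ := by ring

end Pool.Agent.Helper12.Disc
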