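import Pool.Agent.Helper12.DiscCover
import Pool.Agent.Helper12.DiscVolC
import Mathlib

set_option autoImplicit false

open MeasureTheory Polynomial

namespace Pool.Agent.Helper12.Disc

variable {n : ℕ}

theorem pol_natDegree_sum_lt (b : Fin n → ℝ) :
    (∑ i : Fin n, C (b i) * X ^ (i : ℕ)).degree < (n : WithBot ℕ) := by
  rw [degree_lt_iff_coeff_zero]
  intro m hm
  rw [finsetSum_coeff]
  apply Finset.sum_eq_zero
  intro i _
  rw [coeff_C_mul_X_pow, if_neg]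
  have := i.2
  omega

theorem pol_monic (b : Fin n → ℝ) : (pol b).Monic := by
  unfold pol
  exact monic_X_pow_add (pol_natDegree_sum_lt b)

theorem pol_natDegree (b : Fin n → ℝ) : (pol b).natDegree = n := by
  unfold pol
  apply natDegree_eq_of_degree_eq_some
  rw [add_comm, degree_add_eq_right_of_degree_lt]
  · rw [degree_X_pow]
  · rw [degree_X_pow]; exact pol_natDegree_sum_lt b

theorem pol_eval (b : Fin n → ℝ) (t : ℝ) : (pol b).eval t = t ^ n + ∑ i, b i * t ^ (i : ℕ) := by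
  unfold pol
  rw [eval_add, eval_finsetSum]
  simp

theorem root_bound (b : Fin n → ℝ) (B : ℝ) (hb : ∀ i, |b i| ≤ B) (hn : 1 ≤ n) (w : ℂ)
    (hw : w ^ n + ∑ i : Fin n, ((b i : ℝ) : ℂ) * w ^ (i : ℕ) = 0) : ‖w‖ ≤ 1 + n * B := by
  have hB : 0 ≤ B := (abs_nonneg _).trans (hb ⟨0, hn⟩)
  by_cases h1 : ‖w‖ ≤ 1
  · have : (0 : ℝ) ≤ n * B := by positivity
    linarith
  · rw [not_le] at h1
    have h2 : ‖w‖ ^ n ≤ n * B * ‖w‖ ^ (n - 1) := by
      have h3 : w ^ n = -∑ i : Fin n, ((b i : ℝ) : ℂ) * w ^ (i : ℕ) := by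
        linear_combination hw
      rw [← norm_pow, h3, norm_neg]
      calc ‖∑ i : Fin n, ((b i : ℝ) : ℂ) * w ^ (i : ℕ)‖
          ≤ ∑ i : Fin n, ‖((b i : ℝ) : ℂ) * w ^ (i : ℕ)‖ := norm_sum_le _ _
        _ ≤ ∑ i : Fin n, B * ‖w‖ ^ (n - 1) := by
            apply Finset.sum_le_sum
            intro i _
            rw [norm_mul, norm_pow, Complex.norm_real, Real.norm_eq_abs]
            apply mul_le_mul (hb i) _ (by positivity) hB
            apply pow_le_pow_right₀ h1.le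
            have := i.2
            omega
        _ = n * B * ‖w‖ ^ (n - 1) := by
            rw [Finset.sum_const, Finset.card_univ, Fintype.card_fin, nsmul_eq_mul]; ring
    have h4 : ‖w‖ ^ n = ‖w‖ * ‖w‖ ^ (n - 1) := by
      rw [← pow_succ']
      congr 1
      omega
    rw [h4] at h2
    have h5 : 0 < ‖w‖ ^ (n - 1) := by positivity
    have := le_of_mul_le_mul_right h2 h5
    linarith

theorem exists_roots (hn : 1 ≤ n) (b : Fin n → ℝ) (B : ℝ) (hb : ∀ i, |b i| ≤ B) :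
    ∃ z : Fin n → ℂ, (pol b).map (algebraMap ℝ ℂ) = ofRoots z ∧ (∀ l, ‖z l‖ ≤ 1 + n * B) ∧
      ∃ σ : Fin n → Fin n, (∀ l, σ (σ l) = l) ∧ ∀ l, z (σ l) = (starRingEnd ℂ) (z l) := by
  have hdeg : ((pol b).map (algebraMap ℝ ℂ)).natDegree = n := by
    rw [natDegree_map, pol_natDegree]
  obtain ⟨z, hz⟩ := exists_ofRoots _ n hdeg
  rw [((pol_monic b).map _).leadingCoeff, map_one, one_mul] at hz
  refine ⟨z, hz, ?_, ?_⟩
  · intro l
    apply root_bound b B hb hn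
    have h1 : ((pol b).map (algebraMap ℝ ℂ)).eval (z l) = 0 := by
      rw [hz, eval_ofRoots]
      exact Finset.prod_eq_zero (Finset.mem_univ l) (sub_self _)
    unfold pol at h1
    rw [Polynomial.map_add, eval_add, Polynomial.map_sum, eval_finsetSum] at h1
    simpa using h1
  · apply exists_involution
    rw [← hz, Polynomial.map_map]
    congr 1
    ext x
    simp

/-- evaluation at `0, 1, ..., n-1` -/
noncomputable def Ev (b : Fin n → ℝ) : Fin n → ℝ := fun k => (pol b).eval ((k : ℕ) : ℝ)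

theorem Ev_eq (b : Fin n → ℝ) :
    Ev b = (fun k : Fin n => (((k : ℕ) : ℝ)) ^ n) +
      Matrix.toLin' (Matrix.vandermonde fun k : Fin n => ((k : ℕ) : ℝ)) b := by
  funext k
  unfold Ev
  rw [pol_eval, Pi.add_apply, Matrix.toLin'_apply]
  simp only [Matrix.mulVec, dotProduct, Matrix.vandermonde_apply]
  congr 1
  apply Finset.sum_congr rfl
  intro i _
  ring

theorem Ev_mem (b : Fin n → ℝ) (N : Matrix (Fin n) (Fin n) ℂ) (y : Fin n → ℝ)
    (h : (pol b).map (algebraMap ℝ ℂ) = ofRoots (Zof N y)) :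
    Ev b = Psi N (fun k : Fin n => ((k : ℕ) : ℝ)) y := by
  funext k
  unfold Ev Psi
  have h1 : ((pol b).map (algebraMap ℝ ℂ)).eval ((((k : ℕ) : ℝ)) : ℂ) =
      (((pol b).eval ((k : ℕ) : ℝ) : ℝ) : ℂ) := by
    rw [eval_map_algebraMap, ← Complex.coe_algebraMap, Polynomial.aeval_algebraMap_apply]
    simp
  rw [h, eval_ofRoots] at h1
  rw [h1, Complex.ofReal_re]

theorem volume_Rb (hn : 2 ≤ n) (B : ℝ) :
    ∃ C : ENNReal, C ≠ ⊤ ∧ ∀ ε : ℝ, 0 < ε →
      volume {b : Fin n → ℝ | (∀ i, |b i| ≤ B) ∧ |Rb b| ≤ ε} ≤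
        C * ENNReal.ofReal (ε ^ (1 / 2 + 1 / (n : ℝ))) := by
  classical
  obtain ⟨m, rfl⟩ : ∃ m, n = m + 1 := ⟨n - 1, by omega⟩
  have hm : 1 ≤ m := by omega
  set R : ℝ := 1 + ((m + 1 : ℕ) : ℝ) * B with hR
  set t : Fin (m + 1) → ℝ := fun k => ((k : ℕ) : ℝ) with ht
  have htinj : Function.Injective t := by
    intro a b hab
    have : (((a : ℕ) : ℝ)) = ((b : ℕ) : ℝ) := hab
    exact Fin.ext (by exact_mod_cast this)
  set V := Matrix.vandermonde t with hV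
  have hVdet : V.det ≠ 0 := Matrix.det_vandermonde_ne_zero_iff.2 htinj
  have hVlin : LinearMap.det (Matrix.toLin' V) ≠ 0 := by rw [LinearMap.det_toLin']; exact hVdet
  -- constants
  have hC : ∀ σ : Fin (m + 1) → Fin (m + 1), ∃ C : ENNReal, C ≠ ⊤ ∧
      ((∀ l, σ (σ l) = l) → ∀ ε : ℝ, 0 < ε →
        volume (Psi (Nmat σ) t '' {y : Fin (m + 1) → ℝ | (∀ i, |y i| ≤ R) ∧
          D2 (Zof (Nmat σ) y) ≤ ε}) ≤ C * ENNReal.ofReal (ε ^ (1 / 2 + 1 / (((m + 1 : ℕ)) : ℝ)))) := by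
    intro σ
    by_cases hσ : ∀ l, σ (σ l) = l
    · obtain ⟨C, hC1, hC2⟩ := volume_D2 hm (Nmat σ) (Nmat_det σ hσ) (evec σ) (evec_zero σ)
        (Zof_evec σ hσ) R
      refine ⟨ENNReal.ofReal (‖(Matrix.vandermonde fun k => (t k : ℂ)).det‖ *
        ‖(Nmat σ).det‖) * C, ENNReal.mul_ne_top ENNReal.ofReal_ne_top hC1, ?_⟩
      intro _ ε hε
      have hA : MeasurableSet {y : Fin (m + 1) → ℝ | (∀ i, |y i| ≤ R) ∧
          D2 (Zof (Nmat σ) y) ≤ ε} := by
        have h0 : {y : Fin (m + 1) → ℝ | (∀ i, |y i| ≤ R) ∧ D2 (Zof (Nmat σ) y) ≤ ε} =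
            (⋂ i, {y : Fin (m + 1) → ℝ | |y i| ≤ R}) ∩
              {y : Fin (m + 1) → ℝ | D2 (Zof (Nmat σ) y) ≤ ε} := by
          ext y; simp
        rw [h0]
        apply MeasurableSet.inter
        · apply MeasurableSet.iInter
          intro i
          exact measurableSet_le (by fun_prop) measurable_const
        · exact measurableSet_le (D2_continuous.comp (Zof_continuous _)).measurable
            measurable_const
      refine (image_volume (Nmat σ) (Nmat_real σ hσ) t _ hA ε (fun y hy => hy.2)).trans ?_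
      refine (mul_le_mul_right (hC2 ε hε) _).trans ?_
      apply le_of_eq
      rw [ENNReal.ofReal_mul (by positivity)]
      have h1 : ε ^ (1 / 2 + 1 / (((m + 1 : ℕ)) : ℝ)) =
          Real.sqrt ε * ε ^ (1 / ((m : ℝ) + 1)) := by
        rw [Real.sqrt_eq_rpow, ← Real.rpow_add hε]
        push_cast
        rfl
      have h2 : ENNReal.ofReal (Real.sqrt ε * ε ^ (1 / ((m : ℝ) + 1))) =
          ENNReal.ofReal (Real.sqrt ε) * ENNReal.ofReal (ε ^ (1 / ((m : ℝ) + 1))) :=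
        ENNReal.ofReal_mul (Real.sqrt_nonneg _)
      rw [h1, h2]
      ring
    · exact ⟨0, ENNReal.zero_ne_top, fun h => absurd h hσ⟩
  choose C hC1 hC2 using hC
  refine ⟨ENNReal.ofReal |(LinearMap.det (Matrix.toLin' V))⁻¹| * ∑ σ, C σ, ?_, ?_⟩
  · exact ENNReal.mul_ne_top ENNReal.ofReal_ne_top (ENNReal.sum_ne_top.2 fun σ _ => hC1 σ)
  intro ε hε
  set W : Set (Fin (m + 1) → ℝ) :=
    ⋃ σ ∈ (Finset.univ.filter fun σ : Fin (m + 1) → Fin (m + 1) => ∀ l, σ (σ l) = l),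
      Psi (Nmat σ) t '' {y : Fin (m + 1) → ℝ | (∀ i, |y i| ≤ R) ∧
          D2 (Zof (Nmat σ) y) ≤ ε} with hW
  have hsub : {b : Fin (m + 1) → ℝ | (∀ i, |b i| ≤ B) ∧ |Rb b| ≤ ε} ⊆
      (Matrix.toLin' V) ⁻¹' ((fun x => (fun k : Fin (m + 1) => (((k : ℕ) : ℝ)) ^ (m + 1)) + x) ⁻¹' W)
      := by
    rintro b ⟨hb1, hb2⟩
    change (fun k : Fin (m + 1) => (((k : ℕ) : ℝ)) ^ (m + 1)) + Matrix.toLin' V b ∈ W
    rw [← Ev_eq]
    obtain ⟨z, hz1, hz2, σ, hσ1, hσ2⟩ := exists_roots (by omega) b B hb1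
    obtain ⟨y, hy1, hy2⟩ := exists_param z σ hσ1 hσ2 R hz2
    rw [hW, Set.mem_iUnion₂]
    refine ⟨σ, by simpa using hσ1, y, ⟨hy1, ?_⟩, ?_⟩
    · rw [hy2, ← norm_Rb (by omega) b z hz1]
      exact hb2
    · exact (Ev_mem b (Nmat σ) y (by rw [hy2]; exact hz1)).symm
  refine (measure_mono hsub).trans ?_
  rw [Measure.addHaar_preimage_linearMap volume hVlin, measure_preimage_add, mul_assoc]
  apply mul_le_mul_right
  rw [hW]
  refine (measure_biUnion_finset_le _ _).trans ?_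
  rw [Finset.sum_mul]
  refine le_trans (Finset.sum_le_sum (fun σ hσ => hC2 σ (by simpa using hσ) ε hε)) ?_
  exact Finset.sum_le_sum_of_subset (Finset.filter_subset _ _)

end Pool.Agent.Helper12.Disc
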