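import Pool.Agent.Helper12.DiscLP
import Pool.Agent.Helper12.DiscTr
import Pool.Agent.Helper12.DiscVolRb
import Mathlib

set_option autoImplicit false

open MeasureTheory Polynomial
open scoped Pointwise

namespace Pool.Agent.Helper12.Disc

variable {n : ℕ}

/-- an integer polynomial with leading coefficient `s`, as `s` times a monic real polynomial -/
theorem map_eq_pol (P : ℤ[X]) (hP : P.natDegree = n) (s : ℤ) (hs : P.coeff n = s) (hs0 : s ≠ 0) :
    P.map (Int.castRingHom ℝ) = C (s : ℝ) * pol (fun i : Fin n => (P.coeff i : ℝ) / s) := by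
  have hs' : (s : ℝ) ≠ 0 := by exact_mod_cast hs0
  ext k
  rw [coeff_map, coeff_C_mul]
  unfold pol
  rw [coeff_add, coeff_X_pow, finsetSum_coeff]
  simp only [coeff_C_mul_X_pow]
  by_cases hk : k < n
  · rw [if_neg hk.ne, Finset.sum_eq_single (⟨k, hk⟩ : Fin n)]
    · simp
      field_simp
    · intro b _ hb
      rw [if_neg]
      intro h
      exact hb (Fin.ext h.symm)
    · intro h; exact absurd (Finset.mem_univ _) h
  · rw [Finset.sum_eq_zero]
    · by_cases hk2 : k = n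
      · rw [if_pos hk2, hk2, hs]
        simp
      · rw [if_neg hk2, coeff_eq_zero_of_natDegree_lt (by omega)]
        simp
    · intro i _
      rw [if_neg]
      have := i.2
      omega

theorem abs_discr_eq (hn : 1 ≤ n) (P : ℤ[X]) (hP : P.natDegree = n) (s : ℤ) (hs : P.coeff n = s)
    (hs0 : s ≠ 0) :
    |(P.discr : ℝ)| = |(s : ℝ)| ^ (2 * n - 2) * |Rb (fun i : Fin n => (P.coeff i : ℝ) / s)| := by
  set b : Fin n → ℝ := fun i => (P.coeff i : ℝ) / s with hb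
  have hdeg : ((pol b).map (algebraMap ℝ ℂ)).natDegree = n := by
    rw [natDegree_map, pol_natDegree]
  obtain ⟨z, hz⟩ := exists_ofRoots _ n hdeg
  rw [((pol_monic b).map _).leadingCoeff, map_one, one_mul] at hz
  have hs' : (s : ℂ) ≠ 0 := by exact_mod_cast hs0
  have h1 : P.map (Int.castRingHom ℂ) = C (s : ℂ) * ofRoots z := by
    have h2 : P.map (Int.castRingHom ℂ) = (P.map (Int.castRingHom ℝ)).map (algebraMap ℝ ℂ) := by
      rw [Polynomial.map_map]
      congr 1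
    rw [h2, map_eq_pol P hP s hs hs0, Polynomial.map_mul, hz]
    simp
  rw [abs_discr hn hs' h1, norm_Rb hn b z hz]
  congr 2
  rw [Complex.norm_intCast]

theorem count_lc (hn : 2 ≤ n) (B : ℕ) : ∃ K : ℝ, 0 ≤ K ∧ ∀ (Y : ℝ), 0 < Y → ∀ (s : ℤ), s ≠ 0 →
    ∀ T : Finset ℤ[X], (∀ P ∈ T, P.natDegree = n ∧ P.coeff n = s ∧
      (∀ i < n, |P.coeff i| ≤ B * |s|) ∧ |(P.discr : ℝ)| ≤ Y) →
    (T.card : ℝ) ≤ K * (Y ^ (1 / 2 + 1 / (n : ℝ)) * |(s : ℝ)| ^ (2 / (n : ℝ) - 1) +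
      |(s : ℝ)| ^ (n - 1)) := by
  classical
  obtain ⟨C, hC, hvol⟩ := volume_Rb hn ((B : ℝ) + 1)
  obtain ⟨d, hd⟩ := LP_Rb n
  have hn0 : (0 : ℝ) < n := by
    have : 0 < n := by omega
    exact_mod_cast this
  refine ⟨C.toReal + (n * d * (2 * B + 1) ^ (n - 1) : ℕ), by positivity, ?_⟩
  intro Y hY s hs T hT
  have hs1 : (1 : ℝ) ≤ |(s : ℝ)| := by
    rw [← Int.cast_abs]
    exact_mod_cast Int.one_le_abs hs
  have hs0 : 0 < |(s : ℝ)| := by linarith
  have hsne : (s : ℝ) ≠ 0 := abs_pos.1 hs0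
  set ε : ℝ := Y / |(s : ℝ)| ^ (2 * n - 2) with hε
  have hεpos : 0 < ε := by positivity
  set A : ℕ := B * s.natAbs with hA
  have hAs : (A : ℝ) = B * |(s : ℝ)| := by
    rw [hA]; push_cast
    rw [Nat.cast_natAbs]
    push_cast
    rfl
  set F : (Fin n → ℝ) → ℝ := fun x => (Rb (fun i => x i / (s : ℝ))) ^ 2 - ε ^ 2 with hF
  have hFm : Measurable F := by
    have : Continuous F := by
      rw [hF]
      have hc : Continuous (fun x : Fin n → ℝ => fun i => x i / (s : ℝ)) := by fun_prop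
      exact ((Rb_continuous.comp hc).pow 2).sub continuous_const
    exact this.measurable
  -- the coefficient vectors
  set cv : ℤ[X] → (Fin n → ℤ) := fun P i => P.coeff i with hcv
  have hinj : Set.InjOn cv (T : Set ℤ[X]) := by
    intro P hP R hR h
    have hP' := hT P hP
    have hR' := hT R hR
    ext k
    rcases lt_trichotomy k n with hk | hk | hk
    · exact congrFun h ⟨k, hk⟩
    · rw [hk, hP'.2.1, hR'.2.1]
    · rw [coeff_eq_zero_of_natDegree_lt (by omega), coeff_eq_zero_of_natDegree_lt (by omega)]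
  have hcount := lattice_count (A := A) F hFm (hd (s : ℝ) (ε ^ 2)) (T.image cv) (by
    intro x hx
    obtain ⟨P, hP, rfl⟩ := Finset.mem_image.1 hx
    obtain ⟨h1, h2, h3, h4⟩ := hT P hP
    refine ⟨?_, ?_⟩
    · intro i
      refine (h3 i i.2).trans (le_of_eq ?_)
      rw [hA]; push_cast; rfl
    · rw [abs_discr_eq (by omega) P h1 s h2 hs] at h4
      have h5 : |Rb (fun i : Fin n => (P.coeff i : ℝ) / s)| ≤ ε := by
        rw [hε, le_div_iff₀ (by positivity)]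
        linarith
      have h6 := sq_le_sq' (by linarith [neg_abs_le (Rb (fun i : Fin n => (P.coeff i : ℝ) / s)),
        h5]) ((le_abs_self _).trans h5)
      change (Rb (fun i : Fin n => (P.coeff i : ℝ) / s)) ^ 2 - ε ^ 2 ≤ 0
      linarith)
  rw [Finset.card_image_of_injOn hinj] at hcount
  -- the volume
  have hvol2 : volume {x : Fin n → ℝ | (∀ i, |x i| ≤ (A : ℝ) + 1) ∧ F x ≤ 0} ≤
      ENNReal.ofReal (|(s : ℝ)| ^ n) * (C * ENNReal.ofReal (ε ^ (1 / 2 + 1 / (n : ℝ)))) := by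
    have hsub : {x : Fin n → ℝ | (∀ i, |x i| ≤ (A : ℝ) + 1) ∧ F x ≤ 0} ⊆
        (s : ℝ) • {b : Fin n → ℝ | (∀ i, |b i| ≤ (B : ℝ) + 1) ∧ |Rb b| ≤ ε} := by
      rintro x ⟨hx1, hx2⟩
      rw [Set.mem_smul_set_iff_inv_smul_mem₀ hsne]
      refine ⟨?_, ?_⟩
      · intro i
        rw [Pi.smul_apply, smul_eq_mul, abs_mul, abs_inv, inv_mul_eq_div, div_le_iff₀ hs0]
        refine (hx1 i).trans ?_
        rw [hAs]; nlinarith
      · have h1 : (s : ℝ)⁻¹ • x = fun i => x i / (s : ℝ) := by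
          funext i
          rw [Pi.smul_apply, smul_eq_mul, inv_mul_eq_div]
        rw [h1]
        have h2 : (Rb (fun i => x i / (s : ℝ))) ^ 2 ≤ ε ^ 2 := by
          have : (Rb (fun i => x i / (s : ℝ))) ^ 2 - ε ^ 2 ≤ 0 := hx2
          linarith
        exact abs_le_of_sq_le_sq h2 hεpos.le
    refine (measure_mono hsub).trans ?_
    rw [Measure.addHaar_smul, Module.finrank_fin_fun, abs_pow]
    exact mul_le_mul_right (hvol ε hεpos) _
  have hfin : ENNReal.ofReal (|(s : ℝ)| ^ n) * (C * ENNReal.ofReal (ε ^ (1 / 2 + 1 / (n : ℝ)))) +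
      ((n * d * (2 * A + 1) ^ (n - 1) : ℕ) : ENNReal) ≠ ⊤ := by
    rw [ENNReal.add_ne_top]
    refine ⟨ENNReal.mul_ne_top ENNReal.ofReal_ne_top (ENNReal.mul_ne_top hC
      ENNReal.ofReal_ne_top), ENNReal.natCast_ne_top _⟩
  have h1 := ENNReal.toReal_mono hfin (hcount.trans (add_le_add hvol2 le_rfl))
  rw [ENNReal.toReal_natCast, ENNReal.toReal_add (ENNReal.mul_ne_top ENNReal.ofReal_ne_top
    (ENNReal.mul_ne_top hC ENNReal.ofReal_ne_top)) (ENNReal.natCast_ne_top _),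
    ENNReal.toReal_mul, ENNReal.toReal_mul, ENNReal.toReal_ofReal (by positivity),
    ENNReal.toReal_ofReal (by positivity), ENNReal.toReal_natCast] at h1
  refine h1.trans ?_
  have h2 : |(s : ℝ)| ^ n * (C.toReal * ε ^ (1 / 2 + 1 / (n : ℝ))) =
      C.toReal * (Y ^ (1 / 2 + 1 / (n : ℝ)) * |(s : ℝ)| ^ (2 / (n : ℝ) - 1)) := by
    rw [hε, Real.div_rpow hY.le (by positivity), ← Real.rpow_natCast |(s : ℝ)| (2 * n - 2),
      ← Real.rpow_mul hs0.le, ← Real.rpow_natCast |(s : ℝ)| n]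
    have h3 : |(s : ℝ)| ^ (2 / (n : ℝ) - 1) = |(s : ℝ)| ^ (n : ℝ) /
        |(s : ℝ)| ^ (((2 * n - 2 : ℕ) : ℝ) * (1 / 2 + 1 / (n : ℝ))) := by
      rw [← Real.rpow_sub hs0]
      congr 1
      have : ((2 * n - 2 : ℕ) : ℝ) = 2 * (n : ℝ) - 2 := by
        rw [Nat.cast_sub (by omega)]; push_cast; ring
      rw [this]
      field_simp
      ring
    rw [h3]
    ring
  have h3 : ((n * d * (2 * A + 1) ^ (n - 1) : ℕ) : ℝ) ≤
      ((n * d * (2 * B + 1) ^ (n - 1) : ℕ) : ℝ) * |(s : ℝ)| ^ (n - 1) := by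
    push_cast
    rw [mul_assoc ((n : ℝ) * d), ← mul_pow]
    apply mul_le_mul_of_nonneg_left _ (by positivity)
    apply pow_le_pow_left₀ (by positivity)
    rw [hAs]; nlinarith
  rw [h2]
  have h4 : 0 ≤ Y ^ (1 / 2 + 1 / (n : ℝ)) * |(s : ℝ)| ^ (2 / (n : ℝ) - 1) := by positivity
  have h5 : 0 ≤ |(s : ℝ)| ^ (n - 1) := by positivity
  have h6 : 0 ≤ C.toReal := ENNReal.toReal_nonneg
  have h7 : (0 : ℝ) ≤ ((n * d * (2 * B + 1) ^ (n - 1) : ℕ) : ℝ) := by positivity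
  nlinarith [mul_nonneg h6 h5, mul_nonneg h7 h4]

end Pool.Agent.Helper12.Disc
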