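import Pool.Agent.Helper12.DiscVolB
import Mathlib

set_option autoImplicit false

open MeasureTheory Polynomial

namespace Pool.Agent.Helper12.Disc

variable {n : ℕ}

/-- coefficient matrix of the polynomials `∏_{m ≠ l} (X - z m)` -/
noncomputable def Mc (z : Fin n → ℂ) : Matrix (Fin n) (Fin n) ℂ :=
  Matrix.of fun i l => (∏ m ∈ Finset.univ.erase l, (X - C (z m))).coeff i

/-- values of the polynomials `∏_{m ≠ l} (X - z m)` at the points `w k` -/
noncomputable def Wm (w z : Fin n → ℂ) : Matrix (Fin n) (Fin n) ℂ :=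
  Matrix.of fun k l => ∏ m ∈ Finset.univ.erase l, (w k - z m)

theorem vand_mul_Mc (w z : Fin n → ℂ) : Matrix.vandermonde w * Mc z = Wm w z := by
  ext k l
  rw [Matrix.mul_apply]
  simp only [Matrix.vandermonde_apply, Mc, Wm, Matrix.of_apply]
  set p : ℂ[X] := ∏ m ∈ Finset.univ.erase l, (X - C (z m)) with hp
  have hdeg : p.natDegree < n := by
    have h1 : p.natDegree ≤ n - 1 := by
      rw [hp, natDegree_prod_of_monic _ _ (fun _ _ => monic_X_sub_C _)]
      simp [Finset.card_erase_of_mem]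
    have := l.pos
    omega
  have h2 : p.eval (w k) = ∏ m ∈ Finset.univ.erase l, (w k - z m) := by
    rw [hp, eval_prod]
    simp
  rw [← h2, eval_eq_sum_range' hdeg, Finset.sum_range]
  apply Finset.sum_congr rfl
  intro i _
  ring

theorem Wm_self_det (z : Fin n → ℂ) :
    (Wm z z).det = ∏ l, ∏ m ∈ Finset.univ.erase l, (z l - z m) := by
  have h : Wm z z = Matrix.diagonal fun l => ∏ m ∈ Finset.univ.erase l, (z l - z m) := by
    ext k l
    simp only [Wm, Matrix.of_apply, Matrix.diagonal_apply]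
    by_cases hkl : k = l
    · rw [if_pos hkl, hkl]
    · rw [if_neg hkl]
      exact Finset.prod_eq_zero (i := k) (Finset.mem_erase.2 ⟨hkl, Finset.mem_univ _⟩) (sub_self _)
  rw [h, Matrix.det_diagonal]

theorem norm_Wm_self_det (z : Fin n → ℂ) : ‖(Wm z z).det‖ = D2 z := by
  rw [Wm_self_det, norm_prod]
  unfold D2
  apply Finset.prod_congr rfl
  intro l _
  rw [norm_prod]

theorem norm_vand_sq (z : Fin n → ℂ) : ‖(Matrix.vandermonde z).det‖ ^ 2 = D2 z := by
  rw [Matrix.det_vandermonde, norm_prod]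
  simp only [norm_prod]
  rw [← Finset.prod_pow]
  have h := Finset.prod_prod_Ioi_mul_eq_prod_prod_off_diag (fun i j : Fin n => ‖z i - z j‖)
  unfold D2
  have h2 : ∀ i : Fin n, (Finset.univ.erase i) = ({i}ᶜ : Finset (Fin n)) := by
    intro i; ext j; simp
  simp only [h2]
  have h3 : ∏ i : Fin n, ∏ j ∈ ({i}ᶜ : Finset (Fin n)), ‖z i - z j‖ =
      ∏ i : Fin n, ∏ j ∈ ({i}ᶜ : Finset (Fin n)), ‖z j - z i‖ := by
    apply Finset.prod_congr rfl
    intro i _
    apply Finset.prod_congr rfl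
    intro j _
    exact norm_sub_rev _ _
  rw [h3, ← h]
  apply Finset.prod_congr rfl
  intro i _
  rw [← Finset.prod_pow]
  apply Finset.prod_congr rfl
  intro j _
  rw [norm_sub_rev (z i) (z j)]
  ring

theorem norm_Mc_det (z : Fin n → ℂ) : ‖(Mc z).det‖ = Real.sqrt (D2 z) := by
  have h1 : ‖(Matrix.vandermonde z).det‖ * ‖(Mc z).det‖ = D2 z := by
    rw [← norm_mul, ← Matrix.det_mul, vand_mul_Mc, norm_Wm_self_det]
  have h2 := norm_vand_sq z
  by_cases hv : (Matrix.vandermonde z).det = 0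
  · have hD : D2 z = 0 := by rw [← h2, hv]; simp
    rw [hD, Real.sqrt_zero, norm_eq_zero]
    rw [Matrix.det_vandermonde_eq_zero_iff] at hv
    obtain ⟨i, j, hij, hne⟩ := hv
    apply Matrix.det_zero_of_column_eq hne
    intro k
    simp only [Mc, Matrix.of_apply]
    congr 1
    -- swap i and j
    have h3 : ∀ a b : Fin n, a ≠ b → z a = z b →
        ∏ m ∈ Finset.univ.erase a, (X - C (z m)) =
          (X - C (z a)) * ∏ m ∈ (Finset.univ.erase a).erase b, (X - C (z m)) := by
      intro a b hab hzab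
      rw [← Finset.mul_prod_erase (Finset.univ.erase a) _
        (Finset.mem_erase.2 ⟨hab.symm, Finset.mem_univ b⟩), hzab]
    rw [h3 i j hne hij, h3 j i hne.symm hij.symm, hij, Finset.erase_right_comm]
  · have hv' : 0 < ‖(Matrix.vandermonde z).det‖ := norm_pos_iff.2 hv
    rw [← h2, Real.sqrt_sq hv'.le]
    have : ‖(Matrix.vandermonde z).det‖ * ‖(Mc z).det‖ =
        ‖(Matrix.vandermonde z).det‖ * ‖(Matrix.vandermonde z).det‖ := by
      rw [h1, ← h2]; ring
    exact mul_left_cancel₀ hv'.ne' this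

theorem norm_Wm_det (w z : Fin n → ℂ) :
    ‖(Wm w z).det‖ = ‖(Matrix.vandermonde w).det‖ * Real.sqrt (D2 z) := by
  rw [← vand_mul_Mc, Matrix.det_mul, norm_mul, norm_Mc_det]

/-- the evaluation map, in terms of the root parameters -/
noncomputable def Psi (N : Matrix (Fin n) (Fin n) ℂ) (t : Fin n → ℝ) (y : Fin n → ℝ) :
    Fin n → ℝ := fun k => (∏ l, ((t k : ℂ) - Zof N y l)).re

/-- the `l`-th root as a real-linear map -/
noncomputable def zl (N : Matrix (Fin n) (Fin n) ℂ) (l : Fin n) : (Fin n → ℝ) →L[ℝ] ℂ :=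
  ∑ j, (ContinuousLinearMap.proj (R := ℝ) (φ := fun _ : Fin n => ℝ) j).smulRight (N l j)

theorem zl_apply (N : Matrix (Fin n) (Fin n) ℂ) (l : Fin n) (y : Fin n → ℝ) :
    zl N l y = Zof N y l := by
  unfold zl
  rw [Zof_apply]
  simp only [_root_.sum_apply, ContinuousLinearMap.smulRight_apply,
    ContinuousLinearMap.proj_apply, Complex.real_smul]
  apply Finset.sum_congr rfl
  intro j _
  ring

theorem hasFDerivAt_prod (N : Matrix (Fin n) (Fin n) ℂ) (t : ℝ) (y : Fin n → ℝ) :
    HasFDerivAt (fun y : Fin n → ℝ => ∏ l, ((t : ℂ) - Zof N y l))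
      (∑ l, (∏ m ∈ Finset.univ.erase l, ((t : ℂ) - Zof N y m)) • (-(zl N l))) y := by
  have h1 : ∀ l ∈ (Finset.univ : Finset (Fin n)), HasFDerivAt
      (fun y : Fin n → ℝ => (t : ℂ) - Zof N y l) (-(zl N l)) y := by
    intro l _
    have h2 : HasFDerivAt (fun y : Fin n → ℝ => zl N l y) (zl N l) y := (zl N l).hasFDerivAt
    have h3 := h2.const_sub (t : ℂ)
    simpa only [zl_apply] using h3
  exact HasFDerivAt.finsetProd h1

/-- the real Jacobian matrix -/
noncomputable def Jm (N : Matrix (Fin n) (Fin n) ℂ) (t : Fin n → ℝ) (y : Fin n → ℝ) :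
    Matrix (Fin n) (Fin n) ℝ :=
  Matrix.of fun k j => (-((Wm (fun k => (t k : ℂ)) (Zof N y) * N) k j)).re

theorem deriv_apply (N : Matrix (Fin n) (Fin n) ℂ) (t : Fin n → ℝ) (y h : Fin n → ℝ) (k : Fin n) :
    (∑ l, (∏ m ∈ Finset.univ.erase l, ((t k : ℂ) - Zof N y m)) • (-(zl N l))) h =
      ∑ j, (-((Wm (fun k => (t k : ℂ)) (Zof N y) * N) k j)) * ((h j : ℝ) : ℂ) := by
  simp only [_root_.sum_apply, _root_.smul_apply, _root_.neg_apply,
    zl_apply, Zof_apply, Matrix.mul_apply, Wm, Matrix.of_apply, smul_eq_mul]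
  simp only [neg_mul, mul_neg, Finset.sum_neg_distrib, neg_inj, Finset.mul_sum, Finset.sum_mul]
  rw [Finset.sum_comm]
  apply Finset.sum_congr rfl
  intro j _
  apply Finset.sum_congr rfl
  intro l _
  ring

theorem hasFDerivAt_Psi (N : Matrix (Fin n) (Fin n) ℂ) (t : Fin n → ℝ) (y : Fin n → ℝ) :
    HasFDerivAt (Psi N t) (LinearMap.toContinuousLinearMap (Matrix.toLin' (Jm N t y))) y := by
  rw [hasFDerivAt_pi']
  intro k
  have h1 := Complex.reCLM.hasFDerivAt.comp y (hasFDerivAt_prod N (t k) y)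
  have h2 : Complex.reCLM.comp (∑ l, (∏ m ∈ Finset.univ.erase l, ((t k : ℂ) - Zof N y m)) •
      (-(zl N l))) = (ContinuousLinearMap.proj k).comp
        (LinearMap.toContinuousLinearMap (Matrix.toLin' (Jm N t y))) := by
    ext h
    rw [ContinuousLinearMap.comp_apply, deriv_apply, ContinuousLinearMap.comp_apply,
      LinearMap.coe_toContinuousLinearMap', Matrix.toLin'_apply, ContinuousLinearMap.proj_apply]
    simp only [Complex.reCLM_apply, Complex.re_sum, Complex.re_mul_ofReal, Matrix.mulVec,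
      dotProduct, Jm, Matrix.of_apply]
  rw [← h2]
  exact h1

/-- realness of the evaluation map -/
def IsRealN (N : Matrix (Fin n) (Fin n) ℂ) : Prop :=
  ∀ (t : ℝ) (y : Fin n → ℝ), (∏ l, ((t : ℂ) - Zof N y l)).im = 0

theorem Jm_map (N : Matrix (Fin n) (Fin n) ℂ) (hN : IsRealN N) (t : Fin n → ℝ) (y : Fin n → ℝ) :
    (Jm N t y).map (algebraMap ℝ ℂ) = -(Wm (fun k => (t k : ℂ)) (Zof N y) * N) := by
  ext k j
  simp only [Matrix.map_apply, Jm, Matrix.of_apply, Matrix.neg_apply]
  -- the imaginary part vanishes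
  have h1 := Complex.imCLM.hasFDerivAt.comp y (hasFDerivAt_prod N (t k) y)
  have h2 : (Complex.imCLM ∘ fun y : Fin n → ℝ => ∏ l, ((t k : ℂ) - Zof N y l)) =
      fun _ => (0 : ℝ) := by
    funext y'
    exact hN (t k) y'
  rw [h2] at h1
  have h3 := h1.unique (hasFDerivAt_const (0 : ℝ) y)
  have h4 := congrArg (fun L : (Fin n → ℝ) →L[ℝ] ℝ => L (Pi.single j 1)) h3
  simp only [ContinuousLinearMap.comp_apply, _root_.zero_apply] at h4
  rw [deriv_apply] at h4
  rw [Finset.sum_eq_single j] at h4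
  · simp only [Pi.single_eq_same, Complex.ofReal_one, mul_one, Complex.imCLM_apply] at h4
    apply Complex.ext
    · simp
    · rw [h4]; simp
  · intro b _ hb
    rw [Pi.single_eq_of_ne hb]; simp
  · intro h; exact absurd (Finset.mem_univ j) h

theorem abs_Jm_det (N : Matrix (Fin n) (Fin n) ℂ) (hN : IsRealN N) (t : Fin n → ℝ)
    (y : Fin n → ℝ) :
    |(Jm N t y).det| = ‖(Matrix.vandermonde fun k => (t k : ℂ)).det‖ * ‖N.det‖ *
      Real.sqrt (D2 (Zof N y)) := by
  have h1 := RingHom.map_det (algebraMap ℝ ℂ) (Jm N t y)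
  have h2 : |(Jm N t y).det| = ‖(algebraMap ℝ ℂ) (Jm N t y).det‖ := by
    rw [Complex.coe_algebraMap, Complex.norm_real, Real.norm_eq_abs]
  rw [h2, h1, RingHom.mapMatrix_apply, Jm_map N hN, Matrix.det_neg, norm_mul, norm_pow, norm_neg,
    norm_one, one_pow, one_mul, Matrix.det_mul, norm_mul, norm_Wm_det]
  ring

theorem image_volume (N : Matrix (Fin n) (Fin n) ℂ) (hN : IsRealN N) (t : Fin n → ℝ)
    (A : Set (Fin n → ℝ)) (hA : MeasurableSet A) (ε : ℝ) (hAε : ∀ y ∈ A, D2 (Zof N y) ≤ ε) :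
    volume (Psi N t '' A) ≤ ENNReal.ofReal (‖(Matrix.vandermonde fun k => (t k : ℂ)).det‖ *
      ‖N.det‖ * Real.sqrt ε) * volume A := by
  have h1 := addHaar_image_le_lintegral_abs_det_fderiv volume hA
    (fun y _ => (hasFDerivAt_Psi N t y).hasFDerivWithinAt (s := A))
  refine h1.trans ?_
  rw [← setLIntegral_const]
  apply setLIntegral_mono' hA
  intro y hy
  apply ENNReal.ofReal_le_ofReal
  have h2 : (LinearMap.toContinuousLinearMap (Matrix.toLin' (Jm N t y))).det =
      (Jm N t y).det := by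
    rw [LinearMap.det_toContinuousLinearMap, LinearMap.det_toLin']
  rw [h2, abs_Jm_det N hN]
  apply mul_le_mul_of_nonneg_left _ (by positivity)
  exact Real.sqrt_le_sqrt (hAε y hy)

end Pool.Agent.Helper12.Disc
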