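import Mathlib
import Pool.Agent.Helper12.DiscJac

set_option autoImplicit false

open MeasureTheory Polynomial

namespace Pool.Agent.Helper12.Disc

variable {n : ℕ}

theorem ofRoots_conj (z : Fin n → ℂ) :
    (ofRoots z).map (starRingEnd ℂ) = ofRoots (fun l => (starRingEnd ℂ) (z l)) := by
  unfold ofRoots
  rw [Polynomial.map_prod]
  simp

theorem exists_involution (z : Fin n → ℂ)
    (h : (ofRoots z).map (starRingEnd ℂ) = ofRoots z) :
    ∃ σ : Fin n → Fin n, (∀ l, σ (σ l) = l) ∧ ∀ l, z (σ l) = (starRingEnd ℂ) (z l) := by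
  classical
  rw [ofRoots_conj] at h
  have h1 : Finset.univ.val.map (fun l => (starRingEnd ℂ) (z l)) = Finset.univ.val.map z := by
    rw [← ofRoots_roots, ← ofRoots_roots, h]
  have hcount : ∀ c : ℂ, (Finset.univ.filter fun l => c = (starRingEnd ℂ) (z l)).card =
      (Finset.univ.filter fun l => c = z l).card := by
    intro c
    have h2 := congrArg (Multiset.count c) h1
    rw [Multiset.count_map, Multiset.count_map] at h2
    exact h2
  have e : ∀ c : ℂ, {a : {l : Fin n // 0 < (z l).im} // z a = c} ≃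
      {b : {l : Fin n // (z l).im < 0} // (starRingEnd ℂ) (z b) = c} := by
    intro c
    apply Fintype.equivOfCardEq
    by_cases hc : 0 < c.im
    · have e1 : {a : {l : Fin n // 0 < (z l).im} // z a = c} ≃ {l : Fin n // c = z l} :=
        { toFun := fun a => ⟨a.1.1, a.2.symm⟩
          invFun := fun l => ⟨⟨l.1, by rw [← l.2]; exact hc⟩, l.2.symm⟩
          left_inv := fun a => rfl
          right_inv := fun l => rfl }
      have e2 : {b : {l : Fin n // (z l).im < 0} // (starRingEnd ℂ) (z b) = c} ≃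
          {l : Fin n // c = (starRingEnd ℂ) (z l)} :=
        { toFun := fun a => ⟨a.1.1, a.2.symm⟩
          invFun := fun l => ⟨⟨l.1, by
            have := congrArg Complex.im l.2
            rw [Complex.conj_im] at this
            linarith⟩, l.2.symm⟩
          left_inv := fun a => rfl
          right_inv := fun l => rfl }
      rw [Fintype.card_congr e1, Fintype.card_congr e2, Fintype.card_subtype,
        Fintype.card_subtype, hcount c]
    · have h3 : IsEmpty {a : {l : Fin n // 0 < (z l).im} // z a = c} :=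
        ⟨fun a => hc (by rw [← a.2]; exact a.1.2)⟩
      have h4 : IsEmpty {b : {l : Fin n // (z l).im < 0} // (starRingEnd ℂ) (z b) = c} :=
        ⟨fun b => hc (by
          rw [← b.2, Complex.conj_im]
          have := b.1.2
          linarith)⟩
      rw [Fintype.card_eq_zero, Fintype.card_eq_zero]
  set τ : {l : Fin n // 0 < (z l).im} ≃ {l : Fin n // (z l).im < 0} :=
    Equiv.ofFiberEquiv (f := fun a => z a.1) (g := fun b => (starRingEnd ℂ) (z b.1)) e with hτ
  have hτz : ∀ a, (starRingEnd ℂ) (z (τ a).1) = z a.1 := fun a => Equiv.ofFiberEquiv_map e a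
  set σ : Fin n → Fin n := fun l =>
    if h : 0 < (z l).im then (τ ⟨l, h⟩).1 else
      if h' : (z l).im < 0 then (τ.symm ⟨l, h'⟩).1 else l with hσ
  have hσU : ∀ l (h : 0 < (z l).im), σ l = (τ ⟨l, h⟩).1 := by
    intro l h; rw [hσ]; simp only [h, dif_pos]
  have hσL : ∀ l (h : (z l).im < 0), σ l = (τ.symm ⟨l, h⟩).1 := by
    intro l h
    have h' : ¬ 0 < (z l).im := by linarith
    rw [hσ]; simp only [h', h, dif_pos, dif_neg, not_false_eq_true]
  have hσR : ∀ l, (z l).im = 0 → σ l = l := by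
    intro l h
    rw [hσ]; simp [h]
  refine ⟨σ, ?_, ?_⟩
  · intro l
    rcases lt_trichotomy (z l).im 0 with hl | hl | hl
    · rw [hσL l hl]
      rw [hσU _ (τ.symm ⟨l, hl⟩).2]
      simp
    · rw [hσR l hl, hσR l hl]
    · rw [hσU l hl]
      rw [hσL _ (τ ⟨l, hl⟩).2]
      simp
  · intro l
    rcases lt_trichotomy (z l).im 0 with hl | hl | hl
    · rw [hσL l hl]
      have := hτz (τ.symm ⟨l, hl⟩)
      rw [Equiv.apply_symm_apply] at this
      exact this.symm
    · rw [hσR l hl]
      exact (Complex.conj_eq_iff_im.2 hl).symm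
    · rw [hσU l hl]
      have := hτz ⟨l, hl⟩
      rw [← this, Complex.conj_conj]

/-- the parametrization of conjugation-symmetric root vectors -/
noncomputable def Nmat (σ : Fin n → Fin n) : Matrix (Fin n) (Fin n) ℂ :=
  Matrix.of fun l j =>
    if σ l = l then (if j = l then 1 else 0)
    else if l < σ l then ((if j = l then 1 else 0) + (if j = σ l then Complex.I else 0))
    else ((if j = σ l then 1 else 0) - (if j = l then Complex.I else 0))

theorem Nmat_mulVec (σ : Fin n → Fin n) (v : Fin n → ℂ) (l : Fin n) :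
    (Nmat σ).mulVec v l =
      if σ l = l then v l
      else if l < σ l then v l + Complex.I * v (σ l)
      else v (σ l) - Complex.I * v l := by
  simp only [Matrix.mulVec, dotProduct, Nmat, Matrix.of_apply]
  by_cases h1 : σ l = l
  · simp [h1]
  · by_cases h2 : l < σ l
    · simp [h1, h2, add_mul, Finset.sum_add_distrib]
    · simp [h1, h2, sub_mul, Finset.sum_sub_distrib]

theorem Nmat_det (σ : Fin n → Fin n) (hσ : ∀ l, σ (σ l) = l) : (Nmat σ).det ≠ 0 := by
  intro h0
  obtain ⟨v, hv0, hv⟩ := Matrix.exists_mulVec_eq_zero_iff.2 h0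
  apply hv0
  have key : ∀ l, l < σ l → v l = 0 ∧ v (σ l) = 0 := by
    intro l hl
    have h1 := congrFun hv l
    have h2 := congrFun hv (σ l)
    rw [Nmat_mulVec] at h1 h2
    rw [hσ l] at h2
    have hne : σ l ≠ l := hl.ne'
    rw [if_neg hne, if_pos hl] at h1
    rw [if_neg hne.symm, if_neg (not_lt.2 hl.le)] at h2
    simp only [Pi.zero_apply] at h1 h2
    have h3 : 2 * v l = 0 := by linear_combination h1 + h2
    have h4 : v l = 0 := by simpa using h3
    rw [h4, zero_add] at h1
    exact ⟨h4, (mul_eq_zero.1 h1).resolve_left Complex.I_ne_zero⟩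
  funext l
  rcases lt_trichotomy l (σ l) with hl | hl | hl
  · exact (key l hl).1
  · have h1 := congrFun hv l
    rw [Nmat_mulVec, if_pos hl.symm] at h1
    exact h1
  · have h2 := (key (σ l) (by rw [hσ l]; exact hl)).2
    rw [hσ l] at h2
    exact h2

theorem Zof_Nmat (σ : Fin n → Fin n) (y : Fin n → ℝ) (l : Fin n) :
    Zof (Nmat σ) y l =
      if σ l = l then ((y l : ℝ) : ℂ)
      else if l < σ l then ((y l : ℝ) : ℂ) + Complex.I * ((y (σ l) : ℝ) : ℂ)
      else ((y (σ l) : ℝ) : ℂ) - Complex.I * ((y l : ℝ) : ℂ) := by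
  unfold Zof
  rw [Nmat_mulVec]

theorem Zof_Nmat_conj (σ : Fin n → Fin n) (hσ : ∀ l, σ (σ l) = l) (y : Fin n → ℝ) (l : Fin n) :
    Zof (Nmat σ) y (σ l) = (starRingEnd ℂ) (Zof (Nmat σ) y l) := by
  rw [Zof_Nmat, Zof_Nmat, hσ l]
  rcases lt_trichotomy l (σ l) with hl | hl | hl
  · rw [if_neg hl.ne, if_neg (not_lt.2 hl.le), if_neg hl.ne', if_pos hl]
    simp
    ring
  · rw [if_pos hl, if_pos hl.symm, ← hl]
    simp
  · rw [if_neg hl.ne', if_pos hl, if_neg hl.ne, if_neg (not_lt.2 hl.le)]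
    simp

theorem Nmat_real (σ : Fin n → Fin n) (hσ : ∀ l, σ (σ l) = l) : IsRealN (Nmat σ) := by
  intro t y
  rw [← Complex.conj_eq_iff_im, map_prod]
  have h1 : ∀ l, (starRingEnd ℂ) ((t : ℂ) - Zof (Nmat σ) y l) =
      (t : ℂ) - Zof (Nmat σ) y (σ l) := by
    intro l
    rw [Zof_Nmat_conj σ hσ, map_sub, Complex.conj_ofReal]
  rw [Finset.prod_congr rfl (fun l _ => h1 l)]
  exact Equiv.prod_comp (⟨σ, σ, hσ, hσ⟩ : Fin n ≃ Fin n) (fun l => (t : ℂ) - Zof (Nmat σ) y l)

/-- the direction of simultaneous translation of the roots -/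
def evec (σ : Fin n → Fin n) : Fin n → ℝ := fun l => if l ≤ σ l then 1 else 0

theorem evec_zero {m : ℕ} (σ : Fin (m + 1) → Fin (m + 1)) : evec σ 0 = 1 := by
  unfold evec
  rw [if_pos (Fin.zero_le _)]

theorem Zof_evec (σ : Fin n → Fin n) (hσ : ∀ l, σ (σ l) = l) (l : Fin n) :
    Zof (Nmat σ) (evec σ) l = 1 := by
  rw [Zof_Nmat]
  unfold evec
  rcases lt_trichotomy l (σ l) with hl | hl | hl
  · rw [if_neg hl.ne', if_pos hl, if_pos hl.le, hσ l, if_neg (not_le.2 hl)]
    simp
  · rw [if_pos hl.symm, if_pos hl.le]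
    simp
  · rw [if_neg hl.ne, if_neg (not_lt.2 hl.le), hσ l, if_pos hl.le, if_neg (not_le.2 hl)]
    simp

theorem exists_param (z : Fin n → ℂ) (σ : Fin n → Fin n) (hσ : ∀ l, σ (σ l) = l)
    (hz : ∀ l, z (σ l) = (starRingEnd ℂ) (z l)) (R : ℝ) (hR : ∀ l, ‖z l‖ ≤ R) :
    ∃ y : Fin n → ℝ, (∀ i, |y i| ≤ R) ∧ Zof (Nmat σ) y = z := by
  refine ⟨fun l => if l ≤ σ l then (z l).re else (z (σ l)).im, ?_, ?_⟩
  · intro l
    simp only
    split_ifs
    · exact (Complex.abs_re_le_norm _).trans (hR l)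
    · exact (Complex.abs_im_le_norm _).trans (hR _)
  · funext l
    rw [Zof_Nmat]
    rcases lt_trichotomy l (σ l) with hl | hl | hl
    · rw [if_neg hl.ne', if_pos hl, if_pos hl.le, hσ l, if_neg (not_le.2 hl), mul_comm]
      exact Complex.re_add_im _
    · rw [if_pos hl.symm, if_pos hl.le]
      have h1 := hz l
      rw [← hl] at h1
      exact Complex.conj_eq_iff_re.1 h1.symm
    · rw [if_neg hl.ne, if_neg (not_lt.2 hl.le), hσ l, if_pos hl.le, if_neg (not_le.2 hl)]
      have h1 := hz (σ l)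
      rw [hσ l] at h1
      rw [h1]
      apply Complex.ext <;> simp

end Pool.Agent.Helper12.Disc
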