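import Pool.Agent.Helper12.DiscLattice
import Pool.Agent.Helper12.DiscRoots
import Mathlib

set_option autoImplicit false

open MeasureTheory Polynomial

namespace Pool.Agent.Helper12.Disc

variable {n : ℕ}

/-- generic monic polynomial -/
noncomputable def polMv (n : ℕ) : (MvPolynomial (Fin n) ℝ)[X] :=
  X ^ n + ∑ i : Fin n, C (MvPolynomial.X i) * X ^ (i : ℕ)

/-- generic discriminant -/
noncomputable def RbMv (n : ℕ) : MvPolynomial (Fin n) ℝ :=
  resultant (polMv n) (derivative (polMv n)) n (n - 1)

theorem polMv_map (b : Fin n → ℝ) : (polMv n).map (MvPolynomial.eval b) = pol b := by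
  unfold polMv pol
  simp [Polynomial.map_sum]

theorem eval_RbMv (b : Fin n → ℝ) : MvPolynomial.eval b (RbMv n) = Rb b := by
  unfold RbMv Rb
  rw [← resultant_map_map, ← derivative_map, polMv_map]

theorem Rb_continuous : Continuous (Rb : (Fin n → ℝ) → ℝ) := by
  have h : (Rb : (Fin n → ℝ) → ℝ) = fun b => MvPolynomial.eval b (RbMv n) := by
    funext b; rw [eval_RbMv]
  rw [h]
  exact MvPolynomial.continuous_eval _

theorem LP_Rb (n : ℕ) : ∃ d : ℕ, ∀ s c : ℝ,
    LP (fun x : Fin n → ℝ => (Rb (fun i => x i / s)) ^ 2 - c) d := by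
  classical
  refine ⟨2 * (RbMv n).totalDegree, ?_⟩
  intro s c x i
  set f : Fin n → ℝ[X] := fun j => if j = i then C (1 / s) * X else C (x j / s) with hf
  have hfdeg : ∀ j, (f j).natDegree ≤ 1 := by
    intro j
    rw [hf]
    simp only
    split_ifs
    · exact (natDegree_C_mul_le _ _).trans natDegree_X_le
    · rw [natDegree_C]; exact zero_le_one
  set q : ℝ[X] := MvPolynomial.aeval f (RbMv n) with hq
  have hqdeg : q.natDegree ≤ (RbMv n).totalDegree := by
    have := MvPolynomial.aeval_natDegree_le (RbMv n) le_rfl f hfdeg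
    simpa using this
  have hqeval : ∀ t, q.eval t = Rb (fun j => (Function.update x i t) j / s) := by
    intro t
    rw [← eval_RbMv, hq]
    have h1 : (MvPolynomial.aeval f (RbMv n)).eval t =
        MvPolynomial.eval (fun j => (f j).eval t) (RbMv n) := by
      rw [MvPolynomial.aeval_def, ← coe_evalRingHom, MvPolynomial.hom_eval₂]
      have h2 : (evalRingHom t).comp (algebraMap ℝ ℝ[X]) = RingHom.id ℝ := by
        ext; simp
      rw [h2]
      rfl
    rw [h1]
    congr 1
    apply congrArg
    funext j
    rw [hf]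
    by_cases hj : j = i
    · subst hj
      simp
      ring
    · simp [hj]
  refine ⟨q ^ 2 - C c, ?_, ?_⟩
  · rw [natDegree_sub_C]
    refine (natDegree_pow_le).trans ?_
    exact Nat.mul_le_mul_left 2 hqdeg
  · intro t
    rw [eval_sub, eval_pow, eval_C, hqeval]

end Pool.Agent.Helper12.Disc
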