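import Mathlib

set_option autoImplicit false

open Polynomial MeasureTheory

namespace Pool.Agent.Helper12.Disc

/-- `F` restricted to each coordinate line is a polynomial of degree at most `d`. -/
def LP {m : ℕ} (F : (Fin m → ℝ) → ℝ) (d : ℕ) : Prop :=
  ∀ (x : Fin m → ℝ) (i : Fin m), ∃ p : ℝ[X], p.natDegree ≤ d ∧
    ∀ t, F (Function.update x i t) = p.eval t

/-- counting measure on the integers of `[-A, A]` -/
noncomputable def mu (A : ℕ) : Measure ℝ :=
  ∑ t ∈ Finset.Icc (-(A : ℤ)) A, Measure.dirac (t : ℝ)

/-- Lebesgue measure on `[-A, A+1]` -/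
noncomputable def nu (A : ℕ) : Measure ℝ :=
  (volume : Measure ℝ).restrict (Set.Icc (-(A : ℝ)) (A + 1))

instance (A : ℕ) : IsFiniteMeasure (mu A) := by
  unfold mu
  infer_instance

instance (A : ℕ) : IsFiniteMeasure (nu A) := by
  unfold nu
  infer_instance

theorem mu_univ (A : ℕ) : mu A Set.univ = ((2 * A + 1 : ℕ) : ENNReal) := by
  unfold mu
  rw [Measure.finsetSum_apply]
  simp
  norm_cast
  omega

theorem nu_univ (A : ℕ) : nu A Set.univ = ((2 * A + 1 : ℕ) : ENNReal) := by
  unfold nu
  rw [Measure.restrict_apply_univ, Real.volume_Icc]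
  rw [← ENNReal.ofReal_natCast]
  congr 1
  push_cast
  ring

theorem one_dim (A d : ℕ) (p : ℝ[X]) (hp : p.natDegree ≤ d) :
    mu A {t | p.eval t ≤ 0} ≤ nu A {t | p.eval t ≤ 0} + d := by
  classical
  set S : Set ℝ := {t | p.eval t ≤ 0} with hS
  have hSm : MeasurableSet S := measurableSet_le p.continuous.measurable measurable_const
  have h1 : mu A S = (((Finset.Icc (-(A : ℤ)) A).filter (fun t : ℤ => (t : ℝ) ∈ S)).card : ENNReal) := by
    unfold mu
    rw [Measure.finsetSum_apply, Finset.card_filter]
    push_cast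
    apply Finset.sum_congr rfl
    intro t _
    rw [Measure.dirac_apply' _ hSm, Set.indicator_apply]
    simp
  rw [h1]
  set T := (Finset.Icc (-(A : ℤ)) A).filter (fun t : ℤ => (t : ℝ) ∈ S) with hT
  set G := T.filter (fun t : ℤ => Set.Ico (t : ℝ) (t + 1) ⊆ S) with hG
  set Bd := T.filter (fun t : ℤ => ¬ Set.Ico (t : ℝ) (t + 1) ⊆ S) with hB
  have hcard : T.card = G.card + Bd.card := by
    rw [hG, hB, Finset.card_filter_add_card_filter_not]
  have hGc : (G.card : ENNReal) ≤ nu A S := by
    have hdis : Set.PairwiseDisjoint (G : Set ℤ) (fun t : ℤ => Set.Ico (t : ℝ) (t + 1)) := by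
      intro a _ b _ hab
      exact Set.pairwise_disjoint_Ico_intCast ℝ hab
    have h2 : volume (⋃ t ∈ G, Set.Ico (t : ℝ) (t + 1)) = (G.card : ENNReal) := by
      rw [measure_biUnion_finset hdis (fun t _ => measurableSet_Ico)]
      simp
    rw [← h2]
    unfold nu
    rw [Measure.restrict_apply hSm]
    apply measure_mono
    intro x hx
    simp only [Set.mem_iUnion, exists_prop] at hx
    obtain ⟨t, ht, hx⟩ := hx
    rw [hG, Finset.mem_filter, hT, Finset.mem_filter, Finset.mem_Icc] at ht
    refine ⟨ht.2 hx, ?_, ?_⟩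
    · have : (-(A : ℝ)) ≤ (t : ℝ) := by exact_mod_cast ht.1.1.1
      linarith [hx.1]
    · have : (t : ℝ) ≤ (A : ℝ) := by exact_mod_cast ht.1.1.2
      linarith [hx.2]
  have hBc : Bd.card ≤ d := by
    have h3 : Bd ⊆ (p.roots.toFinset).image (fun r : ℝ => ⌊r⌋) := by
      intro t ht
      rw [hB, Finset.mem_filter, hT, Finset.mem_filter] at ht
      obtain ⟨⟨-, ht1⟩, ht2⟩ := ht
      rw [Set.not_subset] at ht2
      obtain ⟨s, hs, hs2⟩ := ht2
      rw [hS, Set.mem_ofPred_eq, not_le] at hs2
      rw [hS, Set.mem_ofPred_eq] at ht1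
      have hiv := intermediate_value_Icc hs.1 p.continuous.continuousOn
      obtain ⟨r, hr, hr0⟩ := hiv ⟨ht1, hs2.le⟩
      rw [Finset.mem_image]
      refine ⟨r, ?_, ?_⟩
      · rw [Multiset.mem_toFinset, mem_roots]
        · exact hr0
        · rintro rfl
          simp at hs2
      · rw [Int.floor_eq_iff]
        exact ⟨hr.1, lt_of_le_of_lt hr.2 hs.2⟩
    calc Bd.card ≤ _ := Finset.card_le_card h3
      _ ≤ p.roots.toFinset.card := Finset.card_image_le
      _ ≤ Multiset.card p.roots := Multiset.toFinset_card_le _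
      _ ≤ p.natDegree := card_roots' p
      _ ≤ d := hp
  rw [hcard]
  push_cast
  exact add_le_add hGc (by exact_mod_cast hBc)

theorem pi_le (A d : ℕ) : ∀ (m : ℕ) (F : (Fin m → ℝ) → ℝ), Measurable F → LP F d →
    Measure.pi (fun _ : Fin m => mu A) {x | F x ≤ 0} ≤
      Measure.pi (fun _ : Fin m => nu A) {x | F x ≤ 0} +
        (m * d * (2 * A + 1) ^ (m - 1) : ℕ) := by
  intro m
  induction m with
  | zero =>
    intro F hF hL
    have h1 : Measure.pi (fun _ : Fin 0 => mu A) = Measure.pi (fun _ : Fin 0 => nu A) := by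
      rw [Measure.pi_of_empty, Measure.pi_of_empty]
    rw [h1]
    exact le_self_add
  | succ m ih =>
    intro F hF hL
    set e := MeasurableEquiv.piFinSuccAbove (fun _ : Fin (m + 1) => ℝ) 0 with he
    have hmu := measurePreserving_piFinSuccAbove (fun _ : Fin (m + 1) => mu A) 0
    have hnu := measurePreserving_piFinSuccAbove (fun _ : Fin (m + 1) => nu A) 0
    set S : Set (ℝ × (Fin m → ℝ)) := {q | F (Fin.cons q.1 q.2) ≤ 0} with hS
    have hcons : Measurable (fun q : ℝ × (Fin m → ℝ) => (Fin.cons q.1 q.2 : Fin (m + 1) → ℝ)) := by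
      rw [measurable_pi_iff]
      intro i
      refine Fin.cases ?_ ?_ i
      · simpa using measurable_fst
      · intro j
        simp only [Fin.cons_succ]
        exact (measurable_pi_apply j).comp measurable_snd
    have hSm : MeasurableSet S := measurableSet_le (hF.comp hcons) measurable_const
    have hpre : {x : Fin (m + 1) → ℝ | F x ≤ 0} = e ⁻¹' S := by
      ext x
      simp only [Set.mem_ofPred_eq, Set.mem_preimage, hS]
      have : (Fin.cons (e x).1 (e x).2 : Fin (m + 1) → ℝ) = x := by
        funext i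
        refine Fin.cases ?_ ?_ i
        · simp [he, MeasurableEquiv.piFinSuccAbove]
        · intro j
          simp [he, MeasurableEquiv.piFinSuccAbove, Fin.tail]
      rw [this]
    rw [hpre, hmu.measure_preimage hSm.nullMeasurableSet, hnu.measure_preimage hSm.nullMeasurableSet]
    -- first step
    have hstep1 : ((mu A).prod (Measure.pi fun _ : Fin m => mu A)) S ≤
        ((mu A).prod (Measure.pi fun _ : Fin m => nu A)) S +
          ((m * d * (2 * A + 1) ^ (m - 1) : ℕ) : ENNReal) * ((2 * A + 1 : ℕ) : ENNReal) := by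
      rw [Measure.prod_apply hSm, Measure.prod_apply hSm]
      rw [← mu_univ, ← lintegral_const, ← lintegral_add_right _ measurable_const]
      apply lintegral_mono
      intro t
      have h := ih (fun w => F (Fin.cons t w)) (hF.comp (hcons.comp
        (measurable_const.prodMk measurable_id))) (by
          intro x i
          obtain ⟨p, hp, hp2⟩ := hL (Fin.cons t x) i.succ
          refine ⟨p, hp, ?_⟩
          intro s
          rw [← hp2 s]
          simp only [Fin.cons_update])
      exact h
    have hstep2 : ((mu A).prod (Measure.pi fun _ : Fin m => nu A)) S ≤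
        ((nu A).prod (Measure.pi fun _ : Fin m => nu A)) S +
          (d : ENNReal) * ((2 * A + 1 : ℕ) : ENNReal) ^ m := by
      rw [Measure.prod_apply_symm hSm, Measure.prod_apply_symm hSm]
      have huniv : (Measure.pi fun _ : Fin m => nu A) Set.univ = ((2 * A + 1 : ℕ) : ENNReal) ^ m := by
        rw [Measure.pi_univ]
        simp only [nu_univ]
        simp
      rw [← huniv, ← lintegral_const, ← lintegral_add_right _ measurable_const]
      apply lintegral_mono
      intro w
      obtain ⟨p, hp, hp2⟩ := hL (Fin.cons 0 w) 0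
      have h := one_dim A d p hp
      have hset : (fun x => (x, w)) ⁻¹' S = {t | p.eval t ≤ 0} := by
        ext t
        simp only [Set.mem_preimage, Set.mem_ofPred_eq, hS]
        rw [← hp2 t, Fin.update_cons_zero]
      simp only
      rw [hset]
      exact h
    refine (hstep1.trans (add_le_add_left hstep2 _)).trans ?_
    rw [add_assoc]
    apply add_le_add le_rfl
    rcases Nat.eq_zero_or_pos m with h0 | hm
    · subst h0
      simp
    · obtain ⟨k, rfl⟩ : ∃ k, m = k + 1 := ⟨m - 1, by omega⟩
      norm_cast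
      simp only [Nat.add_sub_cancel]
      apply le_of_eq
      ring

theorem lattice_count {A d m : ℕ} (F : (Fin m → ℝ) → ℝ) (hF : Measurable F) (hL : LP F d)
    (T : Finset (Fin m → ℤ))
    (hT : ∀ x ∈ T, (∀ i, |x i| ≤ (A : ℤ)) ∧ F (fun i => (x i : ℝ)) ≤ 0) :
    (T.card : ENNReal) ≤ volume {x : Fin m → ℝ | (∀ i, |x i| ≤ (A : ℝ) + 1) ∧ F x ≤ 0} +
      (m * d * (2 * A + 1) ^ (m - 1) : ℕ) := by
  classical
  have hSm : MeasurableSet {x : Fin m → ℝ | F x ≤ 0} := measurableSet_le hF measurable_const
  -- the integer points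
  set c : (Fin m → ℤ) → (Fin m → ℝ) := fun x i => (x i : ℝ) with hc
  have hcinj : Function.Injective c := by
    intro x y h
    funext i
    have := congrFun h i
    simpa [hc] using this
  have h1 : (T.card : ENNReal) ≤ Measure.pi (fun _ : Fin m => mu A) {x | F x ≤ 0} := by
    have hsing : ∀ x ∈ T, Measure.pi (fun _ : Fin m => mu A) {c x} = 1 := by
      intro x hx
      rw [Measure.pi_singleton]
      apply Finset.prod_eq_one
      intro i _
      unfold mu
      rw [Measure.finsetSum_apply, Finset.sum_eq_single (x i)]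
      · simp [hc]
      · intro b _ hb
        rw [Measure.dirac_apply' _ (measurableSet_singleton _)]
        simp [hc, hb]
      · intro h
        exfalso
        apply h
        rw [Finset.mem_Icc]
        exact abs_le.1 ((hT x hx).1 i)
    calc (T.card : ENNReal) = ∑ x ∈ T, Measure.pi (fun _ : Fin m => mu A) {c x} := by
          rw [Finset.sum_congr rfl hsing]; simp
      _ = ∑ y ∈ T.image c, Measure.pi (fun _ : Fin m => mu A) {y} := by
          rw [Finset.sum_image (fun x _ y _ h => hcinj h)]
      _ = Measure.pi (fun _ : Fin m => mu A) (T.image c) := by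
          rw [sum_measure_singleton]
      _ ≤ _ := by
          apply measure_mono
          intro y hy
          rw [Finset.coe_image] at hy
          obtain ⟨x, hx, rfl⟩ := hy
          exact (hT x hx).2
  refine h1.trans ((pi_le A d m F hF hL).trans ?_)
  apply add_le_add _ le_rfl
  have h2 : Measure.pi (fun _ : Fin m => nu A) =
      (volume : Measure (Fin m → ℝ)).restrict
        (Set.univ.pi fun _ => Set.Icc (-(A : ℝ)) (A + 1)) := by
    unfold nu
    rw [volume_pi, Measure.restrict_pi_pi]
  rw [h2, Measure.restrict_apply hSm]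
  apply measure_mono
  rintro x ⟨hx1, hx2⟩
  refine ⟨?_, hx1⟩
  intro i
  have := hx2 i (Set.mem_univ _)
  rw [abs_le]
  constructor
  · linarith [this.1]
  · exact this.2

end Pool.Agent.Helper12.Disc
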