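import Mathlib
import Pool.Agent.Helper12.DiscCount

set_option autoImplicit false

open Polynomial

namespace Pool.Agent.Helper12.Disc

variable {n : ℕ}

/-- a large value among `P(0), ..., P(n)` -/
theorem exists_large_value (n : ℕ) : ∃ K : ℝ, 0 < K ∧ ∀ P : ℤ[X], P.natDegree ≤ n →
    ∃ k : Fin (n + 1), ∀ i, |(P.coeff i : ℝ)| ≤ K * |((P.eval ((k : ℕ) : ℤ) : ℤ) : ℝ)| := by
  classical
  set t : Fin (n + 1) → ℝ := fun k => ((k : ℕ) : ℝ) with ht
  have htinj : Function.Injective t := by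
    intro a b hab
    have : (((a : ℕ) : ℝ)) = ((b : ℕ) : ℝ) := hab
    exact Fin.ext (by exact_mod_cast this)
  set V := Matrix.vandermonde t with hV
  have hVdet : IsUnit V.det := isUnit_iff_ne_zero.2 (Matrix.det_vandermonde_ne_zero_iff.2 htinj)
  refine ⟨1 + ∑ i, ∑ j, |V⁻¹ i j|, by
    have : 0 ≤ ∑ i, ∑ j, |V⁻¹ i j| := Finset.sum_nonneg fun _ _ => Finset.sum_nonneg fun _ _ =>
      abs_nonneg _
    linarith, ?_⟩
  intro P hP
  set a : Fin (n + 1) → ℝ := fun i => (P.coeff i : ℝ) with ha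
  set p : Fin (n + 1) → ℝ := fun k => ((P.eval ((k : ℕ) : ℤ) : ℤ) : ℝ) with hp
  have h1 : V.mulVec a = p := by
    funext k
    simp only [Matrix.mulVec, dotProduct, hV, Matrix.vandermonde_apply, ha, hp]
    rw [eval_eq_sum_range' (Nat.lt_succ_of_le hP), Finset.sum_range]
    push_cast
    apply Finset.sum_congr rfl
    intro i _
    rw [ht]
    simp only [Nat.succ_eq_add_one]
    ring
  have h2 : a = V⁻¹.mulVec p := by
    rw [← h1, Matrix.mulVec_mulVec, Matrix.nonsing_inv_mul _ hVdet, Matrix.one_mulVec]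
  obtain ⟨k, -, hk⟩ := Finset.exists_max_image Finset.univ (fun k => |p k|) ⟨0, Finset.mem_univ _⟩
  refine ⟨k, ?_⟩
  intro i
  by_cases hi : i < n + 1
  · have h3 : (P.coeff i : ℝ) = ∑ j, V⁻¹ ⟨i, hi⟩ j * p j := congrFun h2 ⟨i, hi⟩
    rw [h3]
    calc |∑ j, V⁻¹ ⟨i, hi⟩ j * p j| ≤ ∑ j, |V⁻¹ ⟨i, hi⟩ j * p j| := Finset.abs_sum_le_sum_abs _ _
      _ ≤ ∑ j, |V⁻¹ ⟨i, hi⟩ j| * |p k| := by
          apply Finset.sum_le_sum
          intro j _
          rw [abs_mul]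
          exact mul_le_mul_of_nonneg_left (hk j (Finset.mem_univ _)) (abs_nonneg _)
      _ = (∑ j, |V⁻¹ ⟨i, hi⟩ j|) * |p k| := by rw [Finset.sum_mul]
      _ ≤ _ := by
          apply mul_le_mul_of_nonneg_right _ (abs_nonneg _)
          have : ∑ j, |V⁻¹ ⟨i, hi⟩ j| ≤ ∑ i, ∑ j, |V⁻¹ i j| :=
            Finset.single_le_sum (f := fun i => ∑ j, |V⁻¹ i j|)
              (fun i _ => Finset.sum_nonneg fun _ _ => abs_nonneg _) (Finset.mem_univ _)
          linarith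
  · rw [coeff_eq_zero_of_natDegree_lt (by omega)]
    have : 0 ≤ ∑ i, ∑ j, |V⁻¹ i j| := Finset.sum_nonneg fun _ _ => Finset.sum_nonneg fun _ _ =>
      abs_nonneg _
    simp only [Int.cast_zero, abs_zero]
    positivity

/-- coefficients after the substitution -/
theorem tr_coeff_bound (n : ℕ) : ∃ M : ℝ, 0 < M ∧ ∀ (P : ℤ[X]) (k : Fin (n + 1)) (H : ℝ),
    P.natDegree ≤ n → (∀ i, |(P.coeff i : ℝ)| ≤ H) →
    (∀ j, |((tr n ((k : ℕ) : ℤ) P).coeff j : ℝ)| ≤ M * H) ∧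
      |((P.eval ((k : ℕ) : ℤ) : ℤ) : ℝ)| ≤ M * H := by
  classical
  set c : Fin (n + 1) → Fin (n + 1) → ℕ → ℤ := fun k i j =>
    ((X + C ((k : ℕ) : ℤ) : ℤ[X]) ^ (i : ℕ)).coeff j with hc
  set M1 : ℝ := ∑ k, ∑ i, ∑ j ∈ Finset.range (n + 1), |(c k i j : ℝ)| with hM1
  set M2 : ℝ := ∑ k : Fin (n + 1), ∑ i : Fin (n + 1), (((k : ℕ) : ℝ)) ^ (i : ℕ) with hM2
  have hM1' : 0 ≤ M1 := Finset.sum_nonneg fun _ _ => Finset.sum_nonneg fun _ _ =>
    Finset.sum_nonneg fun _ _ => abs_nonneg _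
  have hM2' : 0 ≤ M2 := Finset.sum_nonneg fun _ _ => Finset.sum_nonneg fun _ _ => by positivity
  refine ⟨1 + M1 + M2, by positivity, ?_⟩
  intro P k H hP hH
  have hH0 : 0 ≤ H := (abs_nonneg _).trans (hH 0)
  have htay : ∀ j, (taylor ((k : ℕ) : ℤ) P).coeff j = ∑ i : Fin (n + 1), P.coeff i * c k i j := by
    intro j
    rw [taylor_apply, comp_eq_sum_left, sum_over_range' _ (by simp) (n + 1) (by omega),
      Finset.sum_range, finsetSum_coeff]
    apply Finset.sum_congr rfl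
    intro i _
    rw [coeff_C_mul]
  have hbound : ∀ j, j ≤ n → |((taylor ((k : ℕ) : ℤ) P).coeff j : ℝ)| ≤ M1 * H := by
    intro j hj
    rw [htay]
    push_cast
    calc |∑ i : Fin (n + 1), (P.coeff i : ℝ) * (c k i j : ℝ)|
        ≤ ∑ i : Fin (n + 1), |(P.coeff i : ℝ) * (c k i j : ℝ)| := Finset.abs_sum_le_sum_abs _ _
      _ ≤ ∑ i : Fin (n + 1), H * |(c k i j : ℝ)| := by
          apply Finset.sum_le_sum
          intro i _
          rw [abs_mul]
          exact mul_le_mul_of_nonneg_right (hH i) (abs_nonneg _)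
      _ = (∑ i : Fin (n + 1), |(c k i j : ℝ)|) * H := by rw [← Finset.mul_sum]; ring
      _ ≤ M1 * H := by
          apply mul_le_mul_of_nonneg_right _ hH0
          calc ∑ i : Fin (n + 1), |(c k i j : ℝ)|
              ≤ ∑ i : Fin (n + 1), ∑ j ∈ Finset.range (n + 1), |(c k i j : ℝ)| := by
                apply Finset.sum_le_sum
                intro i _
                exact Finset.single_le_sum (f := fun j => |(c k i j : ℝ)|)
                  (fun _ _ => abs_nonneg _) (Finset.mem_range.2 (by omega))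
            _ ≤ M1 := Finset.single_le_sum
                (f := fun k => ∑ i : Fin (n + 1), ∑ j ∈ Finset.range (n + 1), |(c k i j : ℝ)|)
                (fun _ _ => Finset.sum_nonneg fun _ _ => Finset.sum_nonneg fun _ _ =>
                  abs_nonneg _) (Finset.mem_univ k)
  refine ⟨?_, ?_⟩
  · intro j
    unfold tr
    rw [coeff_reflect]
    by_cases hj : j ≤ n
    · rw [revAt_le hj]
      refine (hbound (n - j) (by omega)).trans ?_
      nlinarith
    · rw [revAt_eq_self_of_lt (by omega), coeff_eq_zero_of_natDegree_lt]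
      · simp only [Int.cast_zero, abs_zero]; positivity
      · rw [natDegree_taylor]; omega
  · rw [eval_eq_sum_range' (Nat.lt_succ_of_le hP), Finset.sum_range]
    push_cast
    calc |∑ i : Fin (n + 1), (P.coeff i : ℝ) * (((k : ℕ) : ℝ)) ^ (i : ℕ)|
        ≤ ∑ i : Fin (n + 1), |(P.coeff i : ℝ) * (((k : ℕ) : ℝ)) ^ (i : ℕ)| :=
          Finset.abs_sum_le_sum_abs _ _
      _ ≤ ∑ i : Fin (n + 1), H * (((k : ℕ) : ℝ)) ^ (i : ℕ) := by
          apply Finset.sum_le_sum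
          intro i _
          rw [abs_mul, abs_of_nonneg (a := (((k : ℕ) : ℝ)) ^ (i : ℕ)) (by positivity)]
          exact mul_le_mul_of_nonneg_right (hH i) (by positivity)
      _ = (∑ i : Fin (n + 1), (((k : ℕ) : ℝ)) ^ (i : ℕ)) * H := by rw [← Finset.mul_sum]; ring
      _ ≤ M2 * H := by
          apply mul_le_mul_of_nonneg_right _ hH0
          exact Finset.single_le_sum (f := fun k : Fin (n + 1) =>
            ∑ i : Fin (n + 1), (((k : ℕ) : ℝ)) ^ (i : ℕ))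
            (fun _ _ => Finset.sum_nonneg fun _ _ => by positivity) (Finset.mem_univ k)
      _ ≤ _ := by nlinarith

/-- the sum of `s^(θ-1)` -/
theorem sum_rpow (θ : ℝ) (h0 : 0 < θ) (h1 : θ ≤ 1) (S : ℕ) :
    ∑ s ∈ Finset.range S, ((s : ℝ) + 1) ^ (θ - 1) ≤ (1 / θ) * (S : ℝ) ^ θ := by
  induction S with
  | zero =>
    simp only [Finset.range_zero, Finset.sum_empty, Nat.cast_zero]
    positivity
  | succ S ih =>
    rw [Finset.sum_range_succ]
    push_cast
    have hS : (0 : ℝ) < (S : ℝ) + 1 := by positivity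
    have h2 : (S : ℝ) ^ θ ≤ ((S : ℝ) + 1) ^ θ - θ * ((S : ℝ) + 1) ^ (θ - 1) := by
      have h3 := _root_.rpow_one_add_le_one_add_mul_self (s := -1 / ((S : ℝ) + 1)) (p := θ) (by
        rw [le_div_iff₀ hS]; linarith [show (0 : ℝ) ≤ (S : ℝ) by positivity]) h0.le h1
      have h4 : (S : ℝ) = ((S : ℝ) + 1) * (1 + -1 / ((S : ℝ) + 1)) := by
        field_simp
        ring
      have h5 : 0 ≤ 1 + -1 / ((S : ℝ) + 1) := by
        have : 1 + -1 / ((S : ℝ) + 1) = S / ((S : ℝ) + 1) := by field_simp; ring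
        rw [this]; positivity
      calc (S : ℝ) ^ θ = ((S : ℝ) + 1) ^ θ * (1 + -1 / ((S : ℝ) + 1)) ^ θ := by
            rw [← Real.mul_rpow hS.le h5, ← h4]
        _ ≤ ((S : ℝ) + 1) ^ θ * (1 + θ * (-1 / ((S : ℝ) + 1))) := by
            apply mul_le_mul_of_nonneg_left h3 (by positivity)
        _ = _ := by
            rw [Real.rpow_sub_one hS.ne']
            field_simp
            ring
    have h6 : (1 / θ) * (S : ℝ) ^ θ ≤ (1 / θ) * ((S : ℝ) + 1) ^ θ - ((S : ℝ) + 1) ^ (θ - 1) := by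
      calc (1 / θ) * (S : ℝ) ^ θ ≤ (1 / θ) * (((S : ℝ) + 1) ^ θ - θ * ((S : ℝ) + 1) ^ (θ - 1)) :=
            mul_le_mul_of_nonneg_left h2 (by positivity)
        _ = _ := by field_simp
    linarith

theorem count_all_lc (hn : 2 ≤ n) (B : ℕ) : ∃ K : ℝ, 0 ≤ K ∧ ∀ (Y : ℝ), 0 < Y → ∀ S : ℕ,
    ∀ T : Finset ℤ[X], (∀ P ∈ T, P.natDegree = n ∧ P.coeff n ≠ 0 ∧ (P.coeff n).natAbs ≤ S ∧
      (∀ i < n, |P.coeff i| ≤ B * |P.coeff n|) ∧ |(P.discr : ℝ)| ≤ Y) →
    (T.card : ℝ) ≤ K * (Y ^ (1 / 2 + 1 / (n : ℝ)) * (S : ℝ) ^ (2 / (n : ℝ)) + (S : ℝ) ^ n) := by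
  classical
  obtain ⟨K, hK, hcount⟩ := count_lc hn B
  have hn0 : (0 : ℝ) < n := by
    have : 0 < n := by omega
    exact_mod_cast this
  have hn2 : (2 : ℝ) ≤ n := by exact_mod_cast hn
  refine ⟨2 * K * n, by positivity, ?_⟩
  intro Y hY S T hT
  set f : ℤ[X] → ℕ := fun P => (P.coeff n).natAbs - 1 with hf
  have hmaps : ∀ P ∈ T, f P ∈ Finset.range S := by
    intro P hP
    obtain ⟨-, h1, h2, -⟩ := hT P hP
    have h3 : 0 < (P.coeff n).natAbs := Int.natAbs_pos.2 h1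
    rw [Finset.mem_range, hf]
    simp only
    omega
  have hfib : ∀ j ∈ Finset.range S, ((T.filter fun P => f P = j).card : ℝ) ≤
      2 * (K * (Y ^ (1 / 2 + 1 / (n : ℝ)) * ((j : ℝ) + 1) ^ (2 / (n : ℝ) - 1) +
        ((j : ℝ) + 1) ^ (n - 1))) := by
    intro j _
    have h1 : (T.filter fun P => f P = j) ⊆ (T.filter fun P => P.coeff n = ((j : ℤ) + 1)) ∪
        (T.filter fun P => P.coeff n = -((j : ℤ) + 1)) := by
      intro P hP
      rw [Finset.mem_filter] at hP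
      obtain ⟨hP1, hP2⟩ := hP
      have h3 : 0 < (P.coeff n).natAbs := Int.natAbs_pos.2 (hT P hP1).2.1
      rw [Finset.mem_union, Finset.mem_filter, Finset.mem_filter]
      have h4 : (P.coeff n).natAbs = j + 1 := by
        rw [hf] at hP2
        simp only at hP2
        omega
      rcases Int.natAbs_eq (P.coeff n) with h5 | h5
      · left; exact ⟨hP1, by rw [h5, h4]; push_cast; rfl⟩
      · right; exact ⟨hP1, by rw [h5, h4]; push_cast; rfl⟩
    have h2 := (Finset.card_le_card h1).trans (Finset.card_union_le _ _)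
    have h3 : ∀ s : ℤ, |(s : ℝ)| = (j : ℝ) + 1 → s ≠ 0 →
        ((T.filter fun P => P.coeff n = s).card : ℝ) ≤
        K * (Y ^ (1 / 2 + 1 / (n : ℝ)) * ((j : ℝ) + 1) ^ (2 / (n : ℝ) - 1) +
        ((j : ℝ) + 1) ^ (n - 1)) := by
      intro s hs hs0
      have := hcount Y hY s hs0 (T.filter fun P => P.coeff n = s) (by
        intro P hP
        rw [Finset.mem_filter] at hP
        obtain ⟨h4, h5, h6, h7, h8⟩ := hT P hP.1
        refine ⟨h4, hP.2, ?_, h8⟩
        rw [← hP.2]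
        exact h7)
      rw [hs] at this
      exact this
    have h4 := h3 ((j : ℤ) + 1) (by
      push_cast
      exact abs_of_pos (by positivity)) (by omega)
    have h5 := h3 (-((j : ℤ) + 1)) (by
      push_cast
      rw [abs_neg]
      exact abs_of_pos (by positivity)) (by omega)
    have h6 : ((T.filter fun P => f P = j).card : ℝ) ≤
        ((T.filter fun P => P.coeff n = ((j : ℤ) + 1)).card : ℝ) +
        ((T.filter fun P => P.coeff n = -((j : ℤ) + 1)).card : ℝ) := by exact_mod_cast h2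
    linarith
  rw [Finset.card_eq_sum_card_fiberwise hmaps]
  push_cast
  refine (Finset.sum_le_sum hfib).trans ?_
  rw [← Finset.mul_sum, ← Finset.mul_sum, Finset.sum_add_distrib, ← Finset.mul_sum]
  have hs1 := sum_rpow (2 / (n : ℝ)) (by positivity) (by rw [div_le_one hn0]; exact hn2) S
  have hs2 : ∑ j ∈ Finset.range S, ((j : ℝ) + 1) ^ (n - 1) ≤ (S : ℝ) ^ n := by
    calc ∑ j ∈ Finset.range S, ((j : ℝ) + 1) ^ (n - 1)
        ≤ ∑ j ∈ Finset.range S, (S : ℝ) ^ (n - 1) := by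
          apply Finset.sum_le_sum
          intro j hj
          apply pow_le_pow_left₀ (by positivity)
          have := Finset.mem_range.1 hj
          have h : j + 1 ≤ S := this
          exact_mod_cast h
      _ = (S : ℝ) ^ n := by
          rw [Finset.sum_const, Finset.card_range, nsmul_eq_mul, ← pow_succ']
          congr 1
          omega
  have hY1 : 0 ≤ Y ^ (1 / 2 + 1 / (n : ℝ)) := by positivity
  have hA : Y ^ (1 / 2 + 1 / (n : ℝ)) * ∑ j ∈ Finset.range S, ((j : ℝ) + 1) ^ (2 / (n : ℝ) - 1) ≤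
      n * (Y ^ (1 / 2 + 1 / (n : ℝ)) * (S : ℝ) ^ (2 / (n : ℝ))) := by
    calc _ ≤ Y ^ (1 / 2 + 1 / (n : ℝ)) * ((1 / (2 / (n : ℝ))) * (S : ℝ) ^ (2 / (n : ℝ))) :=
          mul_le_mul_of_nonneg_left hs1 hY1
      _ = (n / 2) * (Y ^ (1 / 2 + 1 / (n : ℝ)) * (S : ℝ) ^ (2 / (n : ℝ))) := by
          rw [one_div_div]; ring
      _ ≤ _ := by
          apply mul_le_mul_of_nonneg_right _ (by positivity)
          linarith
  have hB : ∑ j ∈ Finset.range S, ((j : ℝ) + 1) ^ (n - 1) ≤ n * (S : ℝ) ^ n := by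
    refine hs2.trans ?_
    have : (0 : ℝ) ≤ (S : ℝ) ^ n := by positivity
    nlinarith
  calc 2 * (K * (Y ^ (1 / 2 + 1 / (n : ℝ)) *
        ∑ j ∈ Finset.range S, ((j : ℝ) + 1) ^ (2 / (n : ℝ) - 1) +
        ∑ j ∈ Finset.range S, ((j : ℝ) + 1) ^ (n - 1)))
      ≤ 2 * (K * (n * (Y ^ (1 / 2 + 1 / (n : ℝ)) * (S : ℝ) ^ (2 / (n : ℝ))) +
        n * (S : ℝ) ^ n)) := by
        apply mul_le_mul_of_nonneg_left _ (by norm_num)
        apply mul_le_mul_of_nonneg_left _ hK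
        exact add_le_add hA hB
    _ = _ := by ring

/-- the main upper bound -/
theorem main_bound (hn : 2 ≤ n) : ∃ K : ℝ, 0 ≤ K ∧ ∀ (Y Q : ℝ), 0 < Y → 1 ≤ Q →
    ∀ T : Finset ℤ[X], (∀ P ∈ T, P.natDegree = n ∧ (∀ i, |(P.coeff i : ℝ)| ≤ Q) ∧
      |(P.discr : ℝ)| ≤ Y) →
    (T.card : ℝ) ≤ K * (Y ^ (1 / 2 + 1 / (n : ℝ)) * Q ^ (2 / (n : ℝ)) + Q ^ n) := by
  classical
  obtain ⟨K1, hK1, hlarge⟩ := exists_large_value n
  obtain ⟨M, hM, htr⟩ := tr_coeff_bound n
  set B : ℕ := ⌈M * K1⌉₊ with hB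
  obtain ⟨K, hK, hcount⟩ := count_all_lc hn B
  have hn0 : (0 : ℝ) < n := by
    have : 0 < n := by omega
    exact_mod_cast this
  refine ⟨((n : ℝ) + 1) * (K * (M ^ (2 / (n : ℝ)) + M ^ n)), by positivity, ?_⟩
  intro Y Q hY hQ T hT
  have hQ0 : 0 < Q := by linarith
  set S : ℕ := ⌊M * Q⌋₊ with hS
  have hSle : (S : ℝ) ≤ M * Q := Nat.floor_le (by positivity)
  -- choose the large value
  have hch : ∀ P : ℤ[X], ∃ k : Fin (n + 1), P.natDegree ≤ n →
      ∀ i, |(P.coeff i : ℝ)| ≤ K1 * |((P.eval ((k : ℕ) : ℤ) : ℤ) : ℝ)| := by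
    intro P
    by_cases h : P.natDegree ≤ n
    · obtain ⟨k, hk⟩ := hlarge P h
      exact ⟨k, fun _ => hk⟩
    · exact ⟨0, fun h' => absurd h' h⟩
  choose kf hkf using hch
  have hfib : ∀ k ∈ (Finset.univ : Finset (Fin (n + 1))),
      ((T.filter fun P => kf P = k).card : ℝ) ≤
        K * (Y ^ (1 / 2 + 1 / (n : ℝ)) * (S : ℝ) ^ (2 / (n : ℝ)) + (S : ℝ) ^ n) := by
    intro k _
    rw [← Finset.card_image_of_injective (T.filter fun P => kf P = k)
      (tr_injective n ((k : ℕ) : ℤ))]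
    apply hcount Y hY S
    intro P' hP'
    obtain ⟨P, hP, rfl⟩ := Finset.mem_image.1 hP'
    rw [Finset.mem_filter] at hP
    obtain ⟨hP, hPk⟩ := hP
    obtain ⟨hdeg, hcoef, hdisc⟩ := hT P hP
    have hlar := hkf P hdeg.le
    rw [hPk] at hlar
    have hne : P.eval ((k : ℕ) : ℤ) ≠ 0 := by
      intro h0
      have h1 := hlar n
      rw [h0] at h1
      simp only [Int.cast_zero, abs_zero, mul_zero] at h1
      have h2 : (P.coeff n : ℝ) = 0 := abs_nonpos_iff.1 h1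
      have h3 : P.coeff n = 0 := by exact_mod_cast h2
      have h4 : P.leadingCoeff = 0 := by rw [leadingCoeff, hdeg, h3]
      rw [leadingCoeff_eq_zero] at h4
      rw [h4] at hdeg
      simp at hdeg
      omega
    obtain ⟨h1, h2, h3⟩ := tr_discr (by omega) ((k : ℕ) : ℤ) hdeg hne
    have h4 : (tr n ((k : ℕ) : ℤ) P).coeff n = P.eval ((k : ℕ) : ℤ) := by
      rw [← h2, leadingCoeff, h1]
    refine ⟨h1, ?_, ?_, ?_, ?_⟩
    · rw [h4]; exact hne
    · rw [h4]
      have h5 := (htr P k Q hdeg.le hcoef).2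
      rw [hS, Nat.le_floor_iff (by positivity), Nat.cast_natAbs]
      push_cast
      exact h5
    · intro i _
      rw [h4]
      have h5 := (htr P k _ hdeg.le hlar).1 i
      have h6 : |((tr n ((k : ℕ) : ℤ) P).coeff i : ℝ)| ≤
          B * |((P.eval ((k : ℕ) : ℤ) : ℤ) : ℝ)| := by
        refine h5.trans ?_
        rw [← mul_assoc]
        apply mul_le_mul_of_nonneg_right _ (abs_nonneg _)
        exact Nat.le_ceil _
      exact_mod_cast h6
    · rw [h3]; exact hdisc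
  have hcard : (T.card : ℝ) = ∑ k ∈ (Finset.univ : Finset (Fin (n + 1))),
      ((T.filter fun P => kf P = k).card : ℝ) := by
    rw [Finset.card_eq_sum_card_fiberwise (f := kf) (t := Finset.univ)
      (fun _ _ => Finset.mem_coe.2 (Finset.mem_univ _))]
    push_cast
    rfl
  rw [hcard]
  refine (Finset.sum_le_sum hfib).trans ?_
  rw [Finset.sum_const, Finset.card_univ, Fintype.card_fin, nsmul_eq_mul]
  push_cast
  rw [mul_assoc ((n : ℝ) + 1)]
  apply mul_le_mul_of_nonneg_left _ (by positivity)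
  rw [mul_assoc]
  apply mul_le_mul_of_nonneg_left _ hK
  have e1 : (S : ℝ) ^ (2 / (n : ℝ)) ≤ M ^ (2 / (n : ℝ)) * Q ^ (2 / (n : ℝ)) := by
    rw [← Real.mul_rpow hM.le hQ0.le]
    exact Real.rpow_le_rpow (by positivity) hSle (by positivity)
  have e2 : (S : ℝ) ^ n ≤ M ^ n * Q ^ n := by
    rw [← mul_pow]
    exact pow_le_pow_left₀ (by positivity) hSle n
  set a := Y ^ (1 / 2 + 1 / (n : ℝ)) with ha
  have ha0 : 0 ≤ a := by positivity
  have m1 : 0 ≤ M ^ (2 / (n : ℝ)) := by positivity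
  have m2 : 0 ≤ M ^ n := by positivity
  have q1 : 0 ≤ Q ^ (2 / (n : ℝ)) := by positivity
  have q2 : 0 ≤ Q ^ n := by positivity
  calc a * (S : ℝ) ^ (2 / (n : ℝ)) + (S : ℝ) ^ n
      ≤ a * (M ^ (2 / (n : ℝ)) * Q ^ (2 / (n : ℝ))) + M ^ n * Q ^ n :=
        add_le_add (mul_le_mul_of_nonneg_left e1 ha0) e2
    _ ≤ (M ^ (2 / (n : ℝ)) + M ^ n) * (a * Q ^ (2 / (n : ℝ)) + Q ^ n) := by
        nlinarith [mul_nonneg m1 q2, mul_nonneg m2 (mul_nonneg ha0 q1)]

end Pool.Agent.Helper12.Disc
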