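import Mathlib

set_option autoImplicit false

open MeasureTheory

namespace Pool.Agent.Helper12.Disc

/-- `|x|^(-a)` with value `∞` at `0` -/
noncomputable def phi (a : ℝ) (x : ℝ) : ENNReal := (ENNReal.ofReal |x|) ^ (-a)

theorem phi_measurable (a : ℝ) : Measurable (phi a) := by
  unfold phi
  fun_prop

theorem phi_Icc_lt_top {a : ℝ} (ha : a < 1) (M : ℝ) (hM : 0 < M) :
    ∫⁻ x in Set.Icc 0 M, phi a x < ⊤ := by
  have h1 : IntegrableOn (fun x : ℝ => x ^ (-a)) (Set.Ioc 0 M) volume := by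
    have := intervalIntegral.intervalIntegrable_rpow' (a := 0) (b := M) (r := -a) (by linarith)
    rwa [intervalIntegrable_iff_integrableOn_Ioc_of_le hM.le] at this
  have h2 : ∫⁻ x in Set.Icc 0 M, phi a x = ∫⁻ x in Set.Ioc 0 M, phi a x := by
    rw [Measure.restrict_congr_set Ioc_ae_eq_Icc.symm]
  rw [h2]
  have h3 : ∫⁻ x in Set.Ioc 0 M, phi a x = ∫⁻ x in Set.Ioc 0 M, ‖x ^ (-a)‖ₑ := by
    apply setLIntegral_congr_fun measurableSet_Ioc
    intro x hx
    have hx0 : 0 < x := hx.1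
    unfold phi
    simp only
    rw [abs_of_pos hx0, ENNReal.ofReal_rpow_of_pos hx0, Real.enorm_eq_ofReal (by positivity)]
  rw [h3]
  exact h1.2

theorem phi_lt_top {a : ℝ} (ha : a < 1) (M : ℝ) (hM : 0 < M) :
    ∫⁻ x in Set.Icc (-M) M, phi a x < ⊤ := by
  have h1 : Set.Icc (-M) M ⊆ Set.Icc (-M) 0 ∪ Set.Icc 0 M := by
    intro x hx
    rcases le_total x 0 with h | h
    · left; exact ⟨hx.1, h⟩
    · right; exact ⟨h, hx.2⟩
  refine lt_of_le_of_lt (lintegral_mono_set h1) ?_
  refine lt_of_le_of_lt (lintegral_union_le _ _ _) ?_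
  have h2 : ∫⁻ x in Set.Icc (-M) 0, phi a x = ∫⁻ x in Set.Icc 0 M, phi a x := by
    have hmp := Measure.measurePreserving_neg (volume : Measure ℝ)
    have := hmp.setLIntegral_comp_preimage (s := Set.Icc (-M) 0) measurableSet_Icc
      (phi_measurable a)
    rw [← this]
    have hset : (fun x : ℝ => -x) ⁻¹' Set.Icc (-M) 0 = Set.Icc 0 M := by
      ext x
      simp only [Set.mem_preimage, Set.mem_Icc]
      constructor
      · rintro ⟨h1, h2⟩; exact ⟨by linarith, by linarith⟩
      · rintro ⟨h1, h2⟩; exact ⟨by linarith, by linarith⟩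
    rw [hset]
    apply lintegral_congr
    intro x
    unfold phi
    rw [abs_neg]
  rw [h2]
  exact ENNReal.add_lt_top.2 ⟨phi_Icc_lt_top ha M hM, phi_Icc_lt_top ha M hM⟩

theorem lintegral_pi_prod (ν : Measure ℝ) [IsFiniteMeasure ν] (f : ℝ → ENNReal)
    (hf : Measurable f) : ∀ m : ℕ,
    ∫⁻ x : Fin m → ℝ, ∏ i, f (x i) ∂(Measure.pi fun _ => ν) = (∫⁻ x, f x ∂ν) ^ m := by
  intro m
  induction m with
  | zero =>
    simp
  | succ m ih =>
    have hmp := measurePreserving_piFinSuccAbove (fun _ : Fin (m + 1) => ν) 0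
    have h1 : ∀ x : Fin (m + 1) → ℝ, ∏ i, f (x i) =
        (fun q : ℝ × (Fin m → ℝ) => f q.1 * ∏ i, f (q.2 i))
          (MeasurableEquiv.piFinSuccAbove (fun _ : Fin (m + 1) => ℝ) 0 x) := by
      intro x
      rw [Fin.prod_univ_succ]
      simp [MeasurableEquiv.piFinSuccAbove, Fin.tail]
    have h2 := hmp.lintegral_comp_emb (MeasurableEquiv.measurableEmbedding _)
      (fun q : ℝ × (Fin m → ℝ) => f q.1 * ∏ i, f (q.2 i))
    rw [lintegral_congr h1]
    refine h2.trans ?_
    have hg : Measurable (fun w : Fin m → ℝ => ∏ i, f (w i)) :=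
      Finset.measurable_prod _ (fun i _ => hf.comp (measurable_pi_apply i))
    rw [lintegral_prod_mul (f := f) (g := fun w : Fin m → ℝ => ∏ i, f (w i)) hf.aemeasurable
      hg.aemeasurable, ih, pow_succ']

/-- volume of the region where the product of the coordinates is small -/
theorem prod_small_volume (m : ℕ) {a : ℝ} (ha0 : 0 < a) (ha : a < 1) (M : ℝ) (hM : 0 < M) :
    ∃ C : ENNReal, C ≠ ⊤ ∧ ∀ δ : ℝ, 0 < δ →
      volume {x : Fin m → ℝ | (∀ i, |x i| ≤ M) ∧ ∏ i, |x i| ≤ δ} ≤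
        C * ENNReal.ofReal (δ ^ a) := by
  set ν : Measure ℝ := volume.restrict (Set.Icc (-M) M) with hν
  have hfin : (∫⁻ x, phi a x ∂ν) < ⊤ := phi_lt_top ha M hM
  have : IsFiniteMeasure ν := by rw [hν]; infer_instance
  refine ⟨(∫⁻ x, phi a x ∂ν) ^ m, ENNReal.pow_ne_top hfin.ne, ?_⟩
  intro δ hδ
  rw [← lintegral_pi_prod ν (phi a) (phi_measurable a) m]
  set S : Set (Fin m → ℝ) := {x | (∀ i, |x i| ≤ M) ∧ ∏ i, |x i| ≤ δ} with hS
  have hSm : MeasurableSet S := by
    have h0 : S = (⋂ i, {x : Fin m → ℝ | |x i| ≤ M}) ∩ {x : Fin m → ℝ | ∏ i, |x i| ≤ δ} := by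
      ext x; simp [hS]
    rw [h0]
    apply MeasurableSet.inter
    · apply MeasurableSet.iInter
      intro i
      exact measurableSet_le (by fun_prop) measurable_const
    · have hc : Continuous (fun x : Fin m → ℝ => ∏ i, |x i|) := by fun_prop
      exact measurableSet_le hc.measurable measurable_const
  have hpi : Measure.pi (fun _ : Fin m => ν) =
      (volume : Measure (Fin m → ℝ)).restrict (Set.univ.pi fun _ => Set.Icc (-M) M) := by
    rw [hν, volume_pi, Measure.restrict_pi_pi]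
  have h1 : volume S = Measure.pi (fun _ : Fin m => ν) S := by
    rw [hpi, Measure.restrict_apply hSm]
    congr 1
    ext x
    constructor
    · intro hx
      refine ⟨hx, fun i _ => ?_⟩
      exact abs_le.1 (hx.1 i)
    · intro hx
      exact hx.1
  rw [h1, mul_comm]
  set D : ENNReal := ENNReal.ofReal (δ ^ a) with hD
  have hD0 : D ≠ 0 := by
    rw [hD, Ne, ENNReal.ofReal_eq_zero, not_le]
    exact Real.rpow_pos_of_pos hδ _
  have hDt : D ≠ ⊤ := ENNReal.ofReal_ne_top
  -- pointwise bound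
  have hpt : ∀ x : Fin m → ℝ, S.indicator (fun _ => (1 : ENNReal)) x ≤
      D * ∏ i, phi a (x i) := by
    intro x
    by_cases hx : x ∈ S
    · rw [Set.indicator_of_mem hx]
      have hprod : ∏ i, phi a (x i) = (ENNReal.ofReal (∏ i, |x i|)) ^ (-a) := by
        unfold phi
        rw [ENNReal.ofReal_prod_of_nonneg (fun i _ => abs_nonneg _)]
        rw [ENNReal.prod_rpow_of_ne_top (fun i _ => ENNReal.ofReal_ne_top)]
      rw [hprod, ENNReal.rpow_neg]
      have hle : (ENNReal.ofReal (∏ i, |x i|)) ^ a ≤ D := by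
        rw [hD, ← ENNReal.ofReal_rpow_of_pos hδ]
        exact ENNReal.rpow_le_rpow (ENNReal.ofReal_le_ofReal hx.2) ha0.le
      calc (1 : ENNReal) = D * D⁻¹ := (ENNReal.mul_inv_cancel hD0 hDt).symm
        _ ≤ D * ((ENNReal.ofReal (∏ i, |x i|)) ^ a)⁻¹ := by
          gcongr
    · rw [Set.indicator_of_notMem hx]
      exact zero_le
  calc Measure.pi (fun _ : Fin m => ν) S
      = ∫⁻ x, S.indicator (fun _ => (1 : ENNReal)) x ∂(Measure.pi (fun _ : Fin m => ν)) := by
        rw [lintegral_indicator hSm]; simp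
    _ ≤ ∫⁻ x : Fin m → ℝ, D * ∏ i, phi a (x i) ∂(Measure.pi (fun _ : Fin m => ν)) :=
        lintegral_mono hpt
    _ = D * ∫⁻ x : Fin m → ℝ, ∏ i, phi a (x i) ∂(Measure.pi (fun _ : Fin m => ν)) := by
        rw [lintegral_const_mul]
        exact Finset.measurable_prod _ (fun i _ => (phi_measurable a).comp (measurable_pi_apply i))

theorem real_selection {m : ℕ} (A : Matrix (Fin m) (Fin m) ℂ) (hA : A.det ≠ 0) :
    ∃ B : Matrix (Fin m) (Fin m) ℝ, B.det ≠ 0 ∧ ∀ (w : Fin m → ℝ) (k : Fin m),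
      |(B.mulVec w) k| ≤ ‖(A.mulVec (fun j => (w j : ℂ))) k‖ := by
  classical
  by_contra hcon
  push Not at hcon
  apply hA
  set U : Fin m → (Fin m → ℂ) := fun k j => (((A k j).re : ℝ) : ℂ) with hU
  set V : Fin m → (Fin m → ℂ) := fun k j => Complex.I * (((A k j).im : ℝ) : ℂ) with hV
  have hsum : A = Matrix.of (U + V) := by
    ext k j
    simp only [Matrix.of_apply, Pi.add_apply, hU, hV]
    rw [mul_comm]
    exact (Complex.re_add_im _).symm
  have h1 := (Matrix.detRowAlternating (n := Fin m) (R := ℂ)).toMultilinearMap.map_add_univ U V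
  have h2 : A.det = (Matrix.detRowAlternating (n := Fin m) (R := ℂ)).toMultilinearMap (U + V) := by
    conv_lhs => rw [hsum]
    rfl
  rw [h2, h1]
  apply Finset.sum_eq_zero
  intro S _
  set B : Matrix (Fin m) (Fin m) ℝ := Matrix.of fun k j => if k ∈ S then (A k j).re else (A k j).im
    with hB
  have hBle : ∀ (w : Fin m → ℝ) (k : Fin m),
      |(B.mulVec w) k| ≤ ‖(A.mulVec (fun j => (w j : ℂ))) k‖ := by
    intro w k
    by_cases hk : k ∈ S
    · have : (B.mulVec w) k = ((A.mulVec (fun j => (w j : ℂ))) k).re := by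
        simp only [Matrix.mulVec, dotProduct, hB, Matrix.of_apply, if_pos hk, Complex.re_sum,
          Complex.re_mul_ofReal]
      rw [this]
      exact Complex.abs_re_le_norm _
    · have : (B.mulVec w) k = ((A.mulVec (fun j => (w j : ℂ))) k).im := by
        simp only [Matrix.mulVec, dotProduct, hB, Matrix.of_apply, if_neg hk, Complex.im_sum,
          Complex.im_mul_ofReal]
      rw [this]
      exact Complex.abs_im_le_norm _
  have hB0 : B.det = 0 := by
    by_contra hne
    obtain ⟨w, k, hk⟩ := hcon B hne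
    exact absurd (hBle w k) (not_le.2 hk)
  have h3 : (Matrix.detRowAlternating (n := Fin m) (R := ℂ)).toMultilinearMap (S.piecewise U V) =
      Matrix.det (Matrix.of fun k j => (if k ∈ S then (1 : ℂ) else Complex.I) *
        (B.map (algebraMap ℝ ℂ)) k j) := by
    change Matrix.det (Matrix.of (S.piecewise U V)) = _
    congr 1
    ext k j
    by_cases hk : k ∈ S
    · simp [Finset.piecewise, hk, hU, hB]
    · simp [Finset.piecewise, hk, hV, hB]
  rw [h3, Matrix.det_mul_column]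
  have h4 : (B.map (algebraMap ℝ ℂ)).det = 0 := by
    have := RingHom.map_det (algebraMap ℝ ℂ) B
    rw [hB0, map_zero] at this
    exact this.symm
  rw [h4, mul_zero]

theorem lin_small_volume {m : ℕ} (A : Matrix (Fin m) (Fin m) ℂ) (hA : A.det ≠ 0)
    {a : ℝ} (ha0 : 0 < a) (ha : a < 1) (M : ℝ) (hM : 0 < M) :
    ∃ C : ENNReal, C ≠ ⊤ ∧ ∀ δ : ℝ, 0 < δ →
      volume {w : Fin m → ℝ | (∀ i, |w i| ≤ M) ∧
        ∏ k, ‖(A.mulVec (fun j => (w j : ℂ))) k‖ ≤ δ} ≤ C * ENNReal.ofReal (δ ^ a) := by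
  classical
  obtain ⟨B, hB, hle⟩ := real_selection A hA
  set M' : ℝ := (1 + ∑ i, ∑ j, |B i j|) * M with hM'
  have hM'pos : 0 < M' := by
    have : 0 ≤ ∑ i, ∑ j, |B i j| := Finset.sum_nonneg fun _ _ => Finset.sum_nonneg fun _ _ =>
      abs_nonneg _
    positivity
  obtain ⟨C, hC, hCle⟩ := prod_small_volume m ha0 ha M' hM'pos
  have hdet : LinearMap.det (Matrix.toLin' B) ≠ 0 := by
    rw [LinearMap.det_toLin']; exact hB
  refine ⟨ENNReal.ofReal |(LinearMap.det (Matrix.toLin' B))⁻¹| * C,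
    ENNReal.mul_ne_top ENNReal.ofReal_ne_top hC, ?_⟩
  intro δ hδ
  rw [mul_assoc]
  refine le_trans ?_ (mul_le_mul_right (hCle δ hδ) _)
  rw [← Measure.addHaar_preimage_linearMap volume hdet]
  apply measure_mono
  rintro w ⟨hw1, hw2⟩
  have hw3 : ∀ k, |(Matrix.toLin' B w) k| ≤ ‖(A.mulVec (fun j => (w j : ℂ))) k‖ := by
    intro k
    rw [Matrix.toLin'_apply]
    exact hle w k
  refine ⟨?_, ?_⟩
  · intro k
    rw [Matrix.toLin'_apply]
    simp only [Matrix.mulVec, dotProduct]
    calc |∑ j, B k j * w j| ≤ ∑ j, |B k j * w j| := Finset.abs_sum_le_sum_abs _ _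
      _ ≤ ∑ j, |B k j| * M := by
        apply Finset.sum_le_sum
        intro j _
        rw [abs_mul]
        exact mul_le_mul_of_nonneg_left (hw1 j) (abs_nonneg _)
      _ = (∑ j, |B k j|) * M := by rw [Finset.sum_mul]
      _ ≤ M' := by
        rw [hM']
        apply mul_le_mul_of_nonneg_right _ hM.le
        have : ∑ j, |B k j| ≤ ∑ i, ∑ j, |B i j| :=
          Finset.single_le_sum (f := fun i => ∑ j, |B i j|)
            (fun i _ => Finset.sum_nonneg fun _ _ => abs_nonneg _) (Finset.mem_univ k)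
        linarith
  · refine le_trans (Finset.prod_le_prod (fun _ _ => abs_nonneg _) (fun k _ => hw3 k)) hw2

end Pool.Agent.Helper12.Disc
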