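import Mathlib

/-!
# A root of a polynomial near a point (helper12)

If `|f w0|` is much smaller than `|f w1|` with `w1` close to `w0`, then `f` has a root near `w0`.
-/

open Polynomial Filter Topology

namespace Helper12.Fac

lemma prod_bound {w0 w1 : ℂ} {δ : ℝ} (h1 : ‖w1 - w0‖ ≤ δ / 2) (s : Multiset ℂ)
    (hs : ∀ r ∈ s, δ ≤ ‖w0 - r‖) :
    ‖(s.map (fun a => w1 - a)).prod‖ ≤ (3/2 : ℝ) ^ (Multiset.card s) *
      ‖(s.map (fun a => w0 - a)).prod‖ := by
  induction s using Multiset.induction_on with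
  | empty => simp
  | cons a s ih =>
    have ih' := ih (fun r hr => hs r (Multiset.mem_cons_of_mem hr))
    have ha := hs a (Multiset.mem_cons_self a s)
    have h2 : ‖w1 - a‖ ≤ (3/2 : ℝ) * ‖w0 - a‖ := by
      have : w1 - a = (w1 - w0) + (w0 - a) := by ring
      rw [this]
      refine (norm_add_le _ _).trans ?_
      linarith
    simp only [Multiset.map_cons, Multiset.prod_cons, norm_mul, Multiset.card_cons, pow_succ]
    calc ‖w1 - a‖ * ‖(s.map (fun a => w1 - a)).prod‖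
        ≤ ((3/2 : ℝ) * ‖w0 - a‖) * ((3/2 : ℝ) ^ (Multiset.card s) *
          ‖(s.map (fun a => w0 - a)).prod‖) := by gcongr
      _ = _ := by ring

/-- root near `w0` -/
lemma root_near {f : ℂ[X]} {N : ℕ} (hN : f.natDegree ≤ N) {w0 w1 : ℂ} {δ : ℝ}
    (h1 : ‖w1 - w0‖ ≤ δ / 2)
    (h : (3/2:ℝ) ^ N * ‖f.eval w0‖ < ‖f.eval w1‖) :
    ∃ r, f.eval r = 0 ∧ ‖r - w0‖ < δ := by
  by_contra hcon
  push Not at hcon
  have hf0 : f ≠ 0 := by
    rintro rfl
    simp at h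
  have hsp := IsAlgClosed.splits f
  rw [hsp.eval_eq_prod_roots w1, hsp.eval_eq_prod_roots w0, norm_mul, norm_mul] at h
  have hb := prod_bound h1 f.roots (fun r hr => by
    rw [norm_sub_rev]
    exact hcon r ((mem_roots hf0).1 hr))
  have hcard : Multiset.card f.roots ≤ N := (card_roots' f).trans hN
  have h3 : (3/2:ℝ) ^ (Multiset.card f.roots) ≤ (3/2 : ℝ) ^ N :=
    pow_le_pow_right₀ (by norm_num) hcard
  have h4 : ‖f.leadingCoeff‖ * ‖(f.roots.map (fun a => w1 - a)).prod‖ ≤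
      (3/2:ℝ) ^ N * (‖f.leadingCoeff‖ * ‖(f.roots.map (fun a => w0 - a)).prod‖) := by
    calc ‖f.leadingCoeff‖ * ‖(f.roots.map (fun a => w1 - a)).prod‖
        ≤ ‖f.leadingCoeff‖ * ((3/2 : ℝ) ^ N * ‖(f.roots.map (fun a => w0 - a)).prod‖) := by
          gcongr
          exact hb.trans (by gcongr)
      _ = _ := by ring
  exact absurd h (not_lt.2 h4)

/-- sequence version: polynomials of bounded degree converging pointwise near `w0` to `g`, with
`g w0 = 0` and `g` nonzero at points arbitrarily close to `w0`, have roots tending to `w0`. -/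
lemma exists_root_seq {f : ℕ → ℂ[X]} {N : ℕ} (hN : ∀ n, (f n).natDegree ≤ N) {g : ℂ → ℂ} {w0 : ℂ}
    (hlim : ∀ w, Tendsto (fun n => (f n).eval w) atTop (𝓝 (g w))) (h0 : g w0 = 0)
    (hne : ∀ δ > 0, ∃ w, ‖w - w0‖ ≤ δ ∧ g w ≠ 0) :
    ∃ r : ℕ → ℂ, Tendsto r atTop (𝓝 w0) ∧ ∀ᶠ n in atTop, (f n).eval (r n) = 0 := by
  have key : ∀ δ > 0, ∀ᶠ n in atTop, ∃ r, (f n).eval r = 0 ∧ ‖r - w0‖ < δ := by
    intro δ hδ
    obtain ⟨w1, hw1, hg1⟩ := hne (δ/2) (by positivity)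
    have t0 : Tendsto (fun n => (3/2:ℝ) ^ N * ‖(f n).eval w0‖) atTop (𝓝 0) := by
      have := ((hlim w0).norm).const_mul ((3/2:ℝ) ^ N)
      simpa [h0] using this
    have t1 := (hlim w1).norm
    have hpos : 0 < ‖g w1‖ := norm_pos_iff.2 hg1
    filter_upwards [t0.eventually (gt_mem_nhds (show (0:ℝ) < ‖g w1‖/2 by positivity)),
      t1.eventually (lt_mem_nhds (show ‖g w1‖/2 < ‖g w1‖ by linarith))] with n hn0 hn1
    exact root_near (hN n) hw1 (hn0.trans hn1)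
  -- choose a closest root
  have hex : ∀ n, ∃ r, (∃ r', (f n).eval r' = 0) → ((f n).eval r = 0 ∧ ∀ δ > 0,
      (∃ r', (f n).eval r' = 0 ∧ ‖r' - w0‖ < δ) → ‖r - w0‖ < δ) := by
    intro n
    by_cases hr : ∃ r', (f n).eval r' = 0
    · by_cases hf : f n = 0
      · refine ⟨w0, fun _ => ⟨by simp [hf], fun δ hδ _ => by simpa using hδ⟩⟩
      · obtain ⟨r', hr'⟩ := hr
        have hne' : (f n).roots.toFinset.Nonempty :=
          ⟨r', by simp [hf, hr']⟩
        obtain ⟨r, hrm, hrmin⟩ := Finset.exists_min_image _ (fun r => ‖r - w0‖) hne'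
        refine ⟨r, fun _ => ⟨?_, ?_⟩⟩
        · simpa [hf] using hrm
        · rintro δ hδ ⟨r'', h1, h2⟩
          exact (hrmin r'' (by simp [hf, h1])).trans_lt h2
    · exact ⟨0, fun h => absurd h hr⟩
  choose r hr using hex
  refine ⟨r, ?_, ?_⟩
  · rw [Metric.tendsto_atTop']
    intro ε hε
    obtain ⟨M, hM⟩ := eventually_atTop.1 (key ε hε)
    refine ⟨M, fun n hn => ?_⟩
    obtain ⟨r', h1, h2⟩ := hM n hn.le
    rw [dist_eq_norm]
    exact ((hr n) ⟨r', h1⟩).2 ε hε ⟨r', h1, h2⟩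
  · filter_upwards [key 1 one_pos] with n hn
    obtain ⟨r', h1, h2⟩ := hn
    exact ((hr n) ⟨r', h1⟩).1

end Helper12.Fac
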