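import Mathlib
import Pool.Agent.Helper12.FacRoot

/-!
# Asymptotic roots of bivariate polynomials (helper12)
-/

open Polynomial Filter Topology

namespace Helper12.Fac

noncomputable section

/-- value of a bivariate polynomial -/
def ev (P : MvPolynomial (Fin 2) ℂ) (z q : ℂ) : ℂ := MvPolynomial.eval ![z, q] P

lemma ev_eq (P : MvPolynomial (Fin 2) ℂ) (z q : ℂ) :
    ev P z q = ∑ s ∈ P.support, MvPolynomial.coeff s P * (z ^ (s 0) * q ^ (s 1)) := by
  rw [ev, MvPolynomial.eval_eq']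
  simp [Fin.prod_univ_two]

/-- the univariate polynomial `w ↦ P(z, a + b w)` -/
def line (P : MvPolynomial (Fin 2) ℂ) (z a b : ℂ) : ℂ[X] :=
  MvPolynomial.aeval (![C z, C a + C b * X] : Fin 2 → ℂ[X]) P

lemma line_eval (P : MvPolynomial (Fin 2) ℂ) (z a b w : ℂ) :
    (line P z a b).eval w = ev P z (a + b * w) := by
  rw [line, ev, MvPolynomial.aeval_def, MvPolynomial.eval₂_eq', MvPolynomial.eval_eq',
    Polynomial.eval_finsetSum]
  refine Finset.sum_congr rfl (fun s _ => ?_)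
  simp [Fin.prod_univ_two, Polynomial.eval_mul, Polynomial.eval_pow]

lemma line_natDegree (P : MvPolynomial (Fin 2) ℂ) (z a b : ℂ) :
    (line P z a b).natDegree ≤ P.totalDegree := by
  have := MvPolynomial.aeval_natDegree_le (R := ℂ) P (le_refl P.totalDegree)
    (![C z, C a + C b * X] : Fin 2 → ℂ[X]) (n := 1) (by
      intro i
      fin_cases i
      · simp
      · simp only [Fin.mk_one, Matrix.cons_val_one, Matrix.cons_val_fin_one]
        compute_degree)
  rw [mul_one] at this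
  exact this

lemma exists_ne_near {G : ℂ[X]} (hG : G ≠ 0) (w0 : ℂ) (δ : ℝ) (hδ : 0 < δ) :
    ∃ w, ‖w - w0‖ ≤ δ ∧ G.eval w ≠ 0 := by
  by_contra hcon
  push Not at hcon
  have hinf : (Metric.closedBall w0 δ).Infinite := by
    refine Set.Infinite.mono ?_ (Set.infinite_range_of_injective
      (f := fun n : ℕ => w0 + (δ / (n + 1) : ℝ)) ?_)
    · rintro _ ⟨n, rfl⟩
      rw [Metric.mem_closedBall, dist_eq_norm]
      simp only [add_sub_cancel_left, Complex.norm_real, Real.norm_eq_abs]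
      rw [abs_of_pos (by positivity)]
      exact div_le_self hδ.le (by linarith [show (0:ℝ) ≤ n from n.cast_nonneg])
    · intro a b hab
      have h1 : ((δ / (a + 1) : ℝ) : ℂ) = ((δ / (b + 1) : ℝ) : ℂ) := add_left_cancel hab
      have h2 : δ / (a + 1 : ℝ) = δ / (b + 1) := by exact_mod_cast h1
      have ha : (0:ℝ) < a + 1 := by positivity
      have hb : (0:ℝ) < b + 1 := by positivity
      rw [div_eq_div_iff ha.ne' hb.ne'] at h2
      have := mul_left_cancel₀ hδ.ne' h2
      exact_mod_cast (by linarith : (a:ℝ) = b)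
  refine hinf ((G.roots.toFinset.finite_toSet).subset ?_)
  intro w hw
  rw [Metric.mem_closedBall, dist_eq_norm] at hw
  simp [hG, hcon w hw]

/-! ### top degree part -/

/-- top degree part -/
def top (P : MvPolynomial (Fin 2) ℂ) (z q : ℂ) : ℂ :=
  ∑ s ∈ P.support with s 0 + s 1 = P.totalDegree, MvPolynomial.coeff s P * (z ^ (s 0) * q ^ (s 1))

lemma le_totalDegree (P : MvPolynomial (Fin 2) ℂ) {s : Fin 2 →₀ ℕ} (hs : s ∈ P.support) :
    s 0 + s 1 ≤ P.totalDegree := by
  have := MvPolynomial.le_totalDegree hs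
  rwa [Finsupp.sum_fintype _ _ (by simp), Fin.sum_univ_two] at this

lemma exists_top (P : MvPolynomial (Fin 2) ℂ) (hP : P ≠ 0) :
    ∃ s ∈ P.support, s 0 + s 1 = P.totalDegree := by
  have hne : P.support.Nonempty := by simpa using hP
  obtain ⟨s, hs, h⟩ := Finset.exists_mem_eq_sup P.support hne
    (fun s : Fin 2 →₀ ℕ => s.sum fun _ e => e)
  refine ⟨s, hs, ?_⟩
  have h2 : P.totalDegree = s.sum fun _ e => e := h
  rw [h2, Finsupp.sum_fintype _ _ (by simp), Fin.sum_univ_two]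

lemma ext2 {s t : Fin 2 →₀ ℕ} (h0 : s 0 = t 0) (h1 : s 1 = t 1) : s = t := by
  ext i
  fin_cases i
  · exact h0
  · exact h1

/-- the top part as a polynomial in the second variable -/
def topPoly (P : MvPolynomial (Fin 2) ℂ) (z : ℂ) : ℂ[X] :=
  ∑ s ∈ P.support with s 0 + s 1 = P.totalDegree,
    C (MvPolynomial.coeff s P * z ^ (s 0)) * X ^ (s 1)

lemma topPoly_eval (P : MvPolynomial (Fin 2) ℂ) (z q : ℂ) :
    (topPoly P z).eval q = top P z q := by
  rw [topPoly, top, Polynomial.eval_finsetSum]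
  refine Finset.sum_congr rfl (fun s _ => ?_)
  simp
  ring

lemma topPoly_coeff (P : MvPolynomial (Fin 2) ℂ) (z : ℂ) {s : Fin 2 →₀ ℕ} (hs : s ∈ P.support)
    (hst : s 0 + s 1 = P.totalDegree) :
    (topPoly P z).coeff (s 1) = MvPolynomial.coeff s P * z ^ (s 0) := by
  rw [topPoly, Polynomial.finsetSum_coeff, Finset.sum_eq_single s]
  · rw [Polynomial.coeff_C_mul_X_pow, if_pos rfl]
  · intro t ht hne
    simp only [Finset.mem_filter] at ht
    have : s 1 ≠ t 1 := by
      intro h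
      exact hne (ext2 (by omega) h.symm)
    rw [Polynomial.coeff_C_mul_X_pow, if_neg this]
  · intro h
    simp [hs, hst] at h

lemma topPoly_ne (P : MvPolynomial (Fin 2) ℂ) (hP : P ≠ 0) {z : ℂ} (hz : z ≠ 0) :
    topPoly P z ≠ 0 := by
  obtain ⟨s, hs, hst⟩ := exists_top P hP
  intro h
  have := topPoly_coeff P z hs hst
  rw [h] at this
  simp only [Polynomial.coeff_zero] at this
  have h1 : MvPolynomial.coeff s P ≠ 0 := MvPolynomial.mem_support_iff.1 hs
  exact (mul_ne_zero h1 (pow_ne_zero _ hz)) this.symm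

/-- existence of a characteristic direction -/
lemma exists_char (P : MvPolynomial (Fin 2) ℂ) (hP : P.totalDegree ≠ 0) :
    ∃ z q : ℂ, (z ≠ 0 ∨ q ≠ 0) ∧ top P z q = 0 := by
  have hP0 : P ≠ 0 := by
    rintro rfl
    simp at hP
  by_cases hdeg : (topPoly P 1).natDegree = 0
  · -- the top part is `c z^m`
    refine ⟨0, 1, Or.inr one_ne_zero, ?_⟩
    rw [top]
    refine Finset.sum_eq_zero (fun s hs => ?_)
    simp only [Finset.mem_filter] at hs
    have hc := topPoly_coeff P 1 hs.1 hs.2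
    by_cases h1 : s 1 = 0
    · have h0 : s 0 ≠ 0 := by omega
      simp [h0]
    · rw [Polynomial.coeff_eq_zero_of_natDegree_lt (by omega)] at hc
      simp only [one_pow, mul_one] at hc
      simp [← hc]
  · obtain ⟨q, hq⟩ := IsAlgClosed.exists_root (topPoly P 1) (by
      intro h
      exact hdeg (Polynomial.natDegree_eq_zero_iff_degree_le_zero.2 h.le))
    refine ⟨1, q, Or.inl one_ne_zero, ?_⟩
    rw [← topPoly_eval]
    exact hq

/-- homogeneity -/
lemma top_smul (P : MvPolynomial (Fin 2) ℂ) (c z q : ℂ) :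
    top P (c * z) (c * q) = c ^ P.totalDegree * top P z q := by
  rw [top, top, Finset.mul_sum]
  refine Finset.sum_congr rfl (fun s hs => ?_)
  simp only [Finset.mem_filter] at hs
  rw [← hs.2, pow_add]
  ring

/-- a general asymptotic statement: weighted leading part. -/
lemma weighted_limit (P : MvPolynomial (Fin 2) ℂ) (r : ℝ) (D : ℝ)
    (hD : ∀ s ∈ P.support, (s 0 : ℝ) + r * s 1 ≤ D)
    {τ : ℕ → ℝ} (hτ : Tendsto τ atTop atTop) {u w : ℕ → ℂ} {u0 w0 : ℂ}
    (hu : Tendsto u atTop (𝓝 u0)) (hw : Tendsto w atTop (𝓝 w0)) :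
    Tendsto (fun n => ((τ n ^ (-D) : ℝ) : ℂ) * ev P ((τ n : ℂ) * u n) (((τ n ^ r : ℝ) : ℂ) * w n))
      atTop (𝓝 (∑ s ∈ P.support with (s 0 : ℝ) + r * s 1 = D,
        MvPolynomial.coeff s P * (u0 ^ (s 0) * w0 ^ (s 1)))) := by
  rw [Finset.sum_filter]
  have hev : ∀ᶠ n in atTop, ((τ n ^ (-D) : ℝ) : ℂ) *
      ev P ((τ n : ℂ) * u n) (((τ n ^ r : ℝ) : ℂ) * w n) =
      ∑ s ∈ P.support, MvPolynomial.coeff s P * (((τ n ^ ((s 0 : ℝ) + r * s 1 - D) : ℝ) : ℂ) *
        (u n ^ (s 0) * w n ^ (s 1))) := by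
    filter_upwards [hτ.eventually_gt_atTop 0] with n hn
    rw [ev_eq, Finset.mul_sum]
    refine Finset.sum_congr rfl (fun s _ => ?_)
    have h1 : (τ n ^ ((s 0 : ℝ) + r * s 1 - D) : ℝ) =
        τ n ^ (-D) * (τ n ^ (s 0) * (τ n ^ r) ^ (s 1)) := by
      rw [sub_eq_add_neg, Real.rpow_add hn, Real.rpow_add hn, Real.rpow_natCast,
        Real.rpow_mul_natCast hn.le]
      ring
    rw [h1]
    push_cast
    ring
  refine Tendsto.congr' (hev.mono (fun n h => h.symm)) ?_
  refine tendsto_finsetSum _ (fun s hs => ?_)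
  by_cases hsD : (s 0 : ℝ) + r * s 1 = D
  · rw [if_pos hsD]
    simp only [hsD, sub_self, Real.rpow_zero, Complex.ofReal_one, one_mul]
    exact ((hu.pow _).mul (hw.pow _)).const_mul _
  · rw [if_neg hsD]
    have hlt : (s 0 : ℝ) + r * s 1 - D < 0 := by
      have := hD s hs
      have := lt_of_le_of_ne this hsD
      linarith
    have h2 : Tendsto (fun n => (τ n ^ ((s 0 : ℝ) + r * s 1 - D) : ℝ)) atTop (𝓝 0) := by
      have h3 := (tendsto_rpow_neg_atTop (y := -((s 0 : ℝ) + r * s 1 - D)) (by linarith)).comp hτ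
      simpa [Function.comp_def] using h3
    have h4 : Tendsto (fun n => ((τ n ^ ((s 0 : ℝ) + r * s 1 - D) : ℝ) : ℂ)) atTop (𝓝 0) := by
      exact_mod_cast (Complex.continuous_ofReal.tendsto 0).comp h2
    have h5 := (h4.mul ((hu.pow (s 0)).mul (hw.pow (s 1)))).const_mul (MvPolynomial.coeff s P)
    simpa using h5

/-- the weighted leading part as a polynomial in the second variable -/
def edgePoly (P : MvPolynomial (Fin 2) ℂ) (r D : ℝ) (u : ℂ) : ℂ[X] :=
  ∑ s ∈ P.support with (s 0 : ℝ) + r * s 1 = D,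
    C (MvPolynomial.coeff s P * u ^ (s 0)) * X ^ (s 1)

lemma edgePoly_eval (P : MvPolynomial (Fin 2) ℂ) (r D : ℝ) (u w : ℂ) :
    (edgePoly P r D u).eval w = ∑ s ∈ P.support with (s 0 : ℝ) + r * s 1 = D,
        MvPolynomial.coeff s P * (u ^ (s 0) * w ^ (s 1)) := by
  rw [edgePoly, Polynomial.eval_finsetSum]
  refine Finset.sum_congr rfl (fun s _ => ?_)
  simp
  ring

/-- roots of `P` along a weighted direction -/
lemma weighted_roots (P : MvPolynomial (Fin 2) ℂ) (r : ℝ) (D : ℝ)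
    (hD : ∀ s ∈ P.support, (s 0 : ℝ) + r * s 1 ≤ D)
    {τ : ℕ → ℝ} (hτ : Tendsto τ atTop atTop) {u : ℕ → ℂ} {u0 w0 : ℂ}
    (hu : Tendsto u atTop (𝓝 u0)) (hne : edgePoly P r D u0 ≠ 0)
    (h0 : (edgePoly P r D u0).eval w0 = 0) :
    ∃ w : ℕ → ℂ, Tendsto w atTop (𝓝 w0) ∧
      ∀ᶠ n in atTop, ev P ((τ n : ℂ) * u n) (((τ n ^ r : ℝ) : ℂ) * w n) = 0 := by
  obtain ⟨w, hw, hroot⟩ := exists_root_seq
    (f := fun n => C ((τ n ^ (-D) : ℝ) : ℂ) * line P ((τ n : ℂ) * u n) 0 ((τ n ^ r : ℝ) : ℂ))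
    (N := P.totalDegree) (g := fun w => (edgePoly P r D u0).eval w) (w0 := w0)
    (fun n => (Polynomial.natDegree_C_mul_le _ _).trans (line_natDegree P _ _ _))
    (fun w => by
      have := weighted_limit P r D hD hτ hu (tendsto_const_nhds (x := w))
      rw [edgePoly_eval]
      refine this.congr (fun n => ?_)
      rw [Polynomial.eval_mul, Polynomial.eval_C, line_eval, zero_add]) h0
    (fun δ hδ => exists_ne_near hne w0 δ hδ)
  refine ⟨w, hw, ?_⟩
  filter_upwards [hroot, hτ.eventually_gt_atTop 0] with n hn hpos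
  rw [Polynomial.eval_mul, Polynomial.eval_C, line_eval, zero_add] at hn
  rcases mul_eq_zero.1 hn with h | h
  · exfalso
    have : (τ n ^ (-D) : ℝ) = 0 := by exact_mod_cast h
    exact (Real.rpow_pos_of_pos hpos _).ne' this
  · exact h

/-- roots of `P` along a characteristic direction -/
lemma char_roots (P : MvPolynomial (Fin 2) ℂ) (hP : P ≠ 0) {z' q' : ℂ} (hz : z' ≠ 0)
    (h0 : top P z' q' = 0) {τ : ℕ → ℝ} (hτ : Tendsto τ atTop atTop) :
    ∃ w : ℕ → ℂ, Tendsto w atTop (𝓝 q') ∧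
      ∀ᶠ n in atTop, ev P ((τ n : ℂ) * z') ((τ n : ℂ) * w n) = 0 := by
  have hE : edgePoly P 1 P.totalDegree z' = topPoly P z' := by
    rw [edgePoly, topPoly]
    refine Finset.sum_congr ?_ (fun _ _ => rfl)
    ext s
    simp only [Finset.mem_filter, one_mul]
    constructor
    · rintro ⟨h1, h2⟩
      exact ⟨h1, by exact_mod_cast h2⟩
    · rintro ⟨h1, h2⟩
      exact ⟨h1, by exact_mod_cast h2⟩
  obtain ⟨w, hw, hr⟩ := weighted_roots P 1 P.totalDegree (fun s hs => by
      have := le_totalDegree P hs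
      rw [one_mul]
      exact_mod_cast this) hτ (tendsto_const_nhds (x := z'))
    (by rw [hE]; exact topPoly_ne P hP hz) (w0 := q') (by rw [hE, topPoly_eval]; exact h0)
  refine ⟨w, hw, ?_⟩
  filter_upwards [hr] with n hn
  simpa using hn

end

end Helper12.Fac
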