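import Mathlib

/-!
# Elementary facts on nonnegative concave functions and exponential integrals (helper12)
-/

open Set MeasureTheory

namespace Helper12.Fac

noncomputable section

variable {ℓ : ℝ → ℝ} {H δ : ℝ}

lemma len_upper (hH : 0 < H) (hc : ConcaveOn ℝ (Icc 0 H) ℓ) (h0 : ∀ h ∈ Icc 0 H, 0 ≤ ℓ h)
    (hδ : 0 < δ) (hδH : 2 * δ ≤ H) : ∀ h ∈ Icc 0 H, ℓ h ≤ (2 + h / δ) * ℓ δ := by
  intro h hh
  have hδm : δ ∈ Icc 0 H := ⟨hδ.le, by linarith⟩
  have hL := h0 δ hδm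
  have hh' : 0 ≤ h / δ := div_nonneg hh.1 hδ.le
  rcases le_total h δ with hle | hle
  · have hpos : 0 < H - h := by linarith
    have hk := hc.2 hh (⟨hH.le, le_rfl⟩ : H ∈ Icc 0 H)
      (show 0 ≤ (H - δ) / (H - h) from div_nonneg (by linarith) hpos.le)
      (show 0 ≤ (δ - h) / (H - h) from div_nonneg (by linarith) hpos.le)
      (by field_simp; ring)
    simp only [smul_eq_mul] at hk
    have he : (H - δ) / (H - h) * h + (δ - h) / (H - h) * H = δ := by
      field_simp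
      ring
    rw [he] at hk
    have h1 : 0 ≤ (δ - h) / (H - h) * ℓ H :=
      mul_nonneg (div_nonneg (by linarith) hpos.le) (h0 H ⟨hH.le, le_rfl⟩)
    have h2 : 1/2 ≤ (H - δ) / (H - h) := by
      rw [div_le_div_iff₀ (by norm_num) hpos]
      linarith [hh.1]
    have h3 : 1/2 * ℓ h ≤ (H - δ) / (H - h) * ℓ h :=
      mul_le_mul_of_nonneg_right h2 (h0 h hh)
    nlinarith
  · have hpos : 0 < h := by linarith
    have hk := hc.2 (⟨le_rfl, hH.le⟩ : (0:ℝ) ∈ Icc 0 H) hh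
      (show 0 ≤ 1 - δ / h by rw [sub_nonneg, div_le_one hpos]; exact hle)
      (show 0 ≤ δ / h from div_nonneg hδ.le hpos.le) (by ring)
    simp only [smul_eq_mul, mul_zero, zero_add] at hk
    rw [div_mul_cancel₀ _ hpos.ne'] at hk
    have h1 : 0 ≤ (1 - δ / h) * ℓ 0 :=
      mul_nonneg (by rw [sub_nonneg, div_le_one hpos]; exact hle) (h0 0 ⟨le_rfl, hH.le⟩)
    have h2 : δ / h * ℓ h ≤ ℓ δ := by linarith
    have h3 : ℓ h ≤ h / δ * ℓ δ := by
      have h4 := mul_le_mul_of_nonneg_left h2 hh'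
      calc ℓ h = h / δ * (δ / h * ℓ h) := by field_simp
        _ ≤ _ := h4
    nlinarith

lemma len_lower (hH : 0 < H) (hc : ConcaveOn ℝ (Icc 0 H) ℓ) (h0 : ∀ h ∈ Icc 0 H, 0 ≤ ℓ h)
    (hδ : 0 < δ) (hδH : 4 * δ ≤ H) : ∀ h ∈ Icc δ (2 * δ), ℓ δ / 2 ≤ ℓ h := by
  intro h hh
  have hδm : δ ∈ Icc 0 H := ⟨hδ.le, by linarith⟩
  have hL := h0 δ hδm
  have hpos : 0 < H - δ := by linarith
  have hk := hc.2 hδm (⟨hH.le, le_rfl⟩ : H ∈ Icc 0 H)
      (show 0 ≤ (H - h) / (H - δ) from div_nonneg (by linarith [hh.2]) hpos.le)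
      (show 0 ≤ (h - δ) / (H - δ) from div_nonneg (by linarith [hh.1]) hpos.le)
      (by field_simp; ring)
  simp only [smul_eq_mul] at hk
  have he : (H - h) / (H - δ) * δ + (h - δ) / (H - δ) * H = h := by
    field_simp
    ring
  rw [he] at hk
  have h1 : 0 ≤ (h - δ) / (H - δ) * ℓ H :=
    mul_nonneg (div_nonneg (by linarith [hh.1]) hpos.le) (h0 H ⟨hH.le, le_rfl⟩)
  have h2 : 1/2 ≤ (H - h) / (H - δ) := by
    rw [div_le_div_iff₀ (by norm_num) hpos]
    linarith [hh.2]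
  have h3 := mul_le_mul_of_nonneg_right h2 hL
  linarith

/-- exponential integral bound -/
lemma int_exp_le {τ H : ℝ} (hτ : 0 < τ) (hH : 0 ≤ H) :
    ∫ h in (0:ℝ)..H, Real.exp (-(τ * h) / 4) ≤ 4 / τ := by
  have hd : ∀ x ∈ uIcc (0:ℝ) H, HasDerivAt (fun h : ℝ => -(4/τ) * Real.exp (-(τ * h) / 4))
      (Real.exp (-(τ * x) / 4)) x := by
    intro x _
    have h1 : HasDerivAt (fun h : ℝ => -(τ * h) / 4) (-τ / 4) x := by
      have := (((hasDerivAt_id x).const_mul τ).neg).div_const 4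
      simpa using this
    have h2 := (h1.exp).const_mul (-(4/τ))
    have h3 : -(4/τ) * (Real.exp (-(τ * x) / 4) * (-τ / 4)) = Real.exp (-(τ * x) / 4) := by
      have : τ ≠ 0 := hτ.ne'
      field_simp
    rw [h3] at h2
    exact h2
  rw [intervalIntegral.integral_eq_sub_of_hasDerivAt hd
    (Continuous.intervalIntegrable (by fun_prop) _ _)]
  simp only [mul_zero, neg_zero, zero_div, Real.exp_zero, mul_one, sub_neg_eq_add]
  have : 0 < 4 / τ * Real.exp (-(τ * H) / 4) := by positivity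
  linarith

/-- lower bound from an interval -/
lemma int_ge_of {f : ℝ → ℝ} {H δ κ : ℝ} (hδ : 0 < δ) (hδH : 2 * δ ≤ H)
    (hf : ContinuousOn f (Icc 0 H)) (h0 : ∀ h ∈ Icc 0 H, 0 ≤ f h)
    (hκ : ∀ h ∈ Icc δ (2 * δ), κ ≤ f h) : κ * δ ≤ ∫ h in (0:ℝ)..H, f h := by
  have hH : 0 ≤ H := by linarith
  have hint : IntervalIntegrable f volume 0 H := by
    apply ContinuousOn.intervalIntegrable
    rwa [uIcc_of_le hH]
  have h1 : ∫ h in δ..(2 * δ), f h ≤ ∫ h in (0:ℝ)..H, f h := by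
    apply intervalIntegral.integral_mono_interval hδ.le (by linarith) hδH _ hint
    rw [Filter.EventuallyLE, ae_restrict_iff' measurableSet_Ioc]
    exact ae_of_all _ (fun x hx => h0 x ⟨hx.1.le, hx.2⟩)
  have h2 : ∫ h in δ..(2 * δ), κ ≤ ∫ h in δ..(2 * δ), f h := by
    apply intervalIntegral.integral_mono_on (by linarith) (by simp)
    · apply ContinuousOn.intervalIntegrable
      rw [uIcc_of_le (by linarith)]
      exact hf.mono (Icc_subset_Icc hδ.le hδH)
    · exact hκ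
  simp only [intervalIntegral.integral_const, smul_eq_mul] at h2
  linarith [show (2 * δ - δ) * κ = κ * δ by ring]

end

end Helper12.Fac
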