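import Mathlib

/-!
# Elementary estimates for `1 - exp (I w)` in the upper half-plane (helper12)
-/

open Set

namespace Helper12.Fac

noncomputable section

lemma norm_exp_I_le_one {w : ℂ} (hw : 0 ≤ w.im) : ‖Complex.exp (Complex.I * w)‖ ≤ 1 := by
  rw [Complex.norm_exp]
  apply Real.exp_le_one_iff.2
  simp [hw]

lemma norm_one_sub_exp_le {w : ℂ} (hw : 0 ≤ w.im) : ‖1 - Complex.exp (Complex.I * w)‖ ≤ ‖w‖ := by
  have h := norm_image_sub_le_of_norm_deriv_le_segment_01'
    (f := fun s : ℝ => Complex.exp (Complex.I * (s * w)))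
    (f' := fun s : ℝ => Complex.exp (Complex.I * (s * w)) * (Complex.I * w)) (C := ‖w‖)
    (fun s _ => by
      have h1 : HasDerivAt (fun s : ℝ => Complex.I * (s * w)) (Complex.I * w) s := by
        have h0 : HasDerivAt (fun s : ℝ => (s : ℂ)) 1 s := Complex.ofRealCLM.hasDerivAt
        simpa using (h0.mul_const w).const_mul Complex.I
      exact h1.cexp.hasDerivWithinAt)
    (fun s hs => by
      rw [norm_mul, norm_mul, Complex.norm_I, one_mul]
      have : ‖Complex.exp (Complex.I * (s * w))‖ ≤ 1 := by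
        apply norm_exp_I_le_one
        simp only [Complex.mul_im, Complex.ofReal_re, Complex.ofReal_im, zero_mul, add_zero]
        exact mul_nonneg hs.1 hw
      calc _ ≤ 1 * ‖w‖ := by gcongr
        _ = ‖w‖ := one_mul _)
  simp only [Complex.ofReal_one, one_mul, Complex.ofReal_zero, zero_mul, mul_zero,
    Complex.exp_zero] at h
  rwa [norm_sub_rev]

lemma norm_one_sub_exp_le_two {w : ℂ} (hw : 0 ≤ w.im) :
    ‖1 - Complex.exp (Complex.I * w)‖ ≤ 2 := by
  calc ‖1 - Complex.exp (Complex.I * w)‖ ≤ ‖(1:ℂ)‖ + ‖Complex.exp (Complex.I * w)‖ := norm_sub_le _ _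
    _ ≤ 1 + 1 := by
      gcongr
      · simp
      · exact norm_exp_I_le_one hw
    _ = 2 := by norm_num

lemma norm_exp_taylor_le {w : ℂ} (hw : 0 ≤ w.im) :
    ‖1 - Complex.exp (Complex.I * w) + Complex.I * w‖ ≤ ‖w‖ ^ 2 := by
  have h := norm_image_sub_le_of_norm_deriv_le_segment_01'
    (f := fun s : ℝ => Complex.exp (Complex.I * (s * w)) - Complex.I * (s * w))
    (f' := fun s : ℝ => Complex.exp (Complex.I * (s * w)) * (Complex.I * w) - Complex.I * w)
    (C := ‖w‖ ^ 2)
    (fun s _ => by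
      have h1 : HasDerivAt (fun s : ℝ => Complex.I * (s * w)) (Complex.I * w) s := by
        have h0 : HasDerivAt (fun s : ℝ => (s : ℂ)) 1 s := Complex.ofRealCLM.hasDerivAt
        simpa using (h0.mul_const w).const_mul Complex.I
      exact (h1.cexp.sub h1).hasDerivWithinAt)
    (fun s hs => by
      have h2 : Complex.exp (Complex.I * (s * w)) * (Complex.I * w) - Complex.I * w =
          -((1 - Complex.exp (Complex.I * (s * w))) * (Complex.I * w)) := by ring
      rw [h2, norm_neg, norm_mul, norm_mul, Complex.norm_I, one_mul]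
      have h3 : ‖1 - Complex.exp (Complex.I * (s * w))‖ ≤ ‖w‖ := by
        have h4 : 0 ≤ ((s : ℂ) * w).im := by
          simp only [Complex.mul_im, Complex.ofReal_re, Complex.ofReal_im, zero_mul, add_zero]
          exact mul_nonneg hs.1 hw
        refine (norm_one_sub_exp_le h4).trans ?_
        rw [norm_mul, Complex.norm_real, Real.norm_eq_abs, abs_of_nonneg hs.1]
        calc s * ‖w‖ ≤ 1 * ‖w‖ := by gcongr; exact hs.2.le
          _ = ‖w‖ := one_mul _
      calc _ ≤ ‖w‖ * ‖w‖ := by gcongr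
        _ = ‖w‖ ^ 2 := by ring)
  simp only [Complex.ofReal_one, one_mul, Complex.ofReal_zero, zero_mul, mul_zero,
    Complex.exp_zero, sub_zero] at h
  have h2 : 1 - Complex.exp (Complex.I * w) + Complex.I * w =
      -(Complex.exp (Complex.I * w) - Complex.I * w - 1) := by ring
  rw [h2, norm_neg]
  refine le_trans (le_of_eq ?_) h
  congr 1

lemma normSq_one_sub_exp_le {w : ℂ} (hw : 0 ≤ w.im) :
    ‖1 - Complex.exp (Complex.I * w)‖ ^ 2 ≤ 2 * (1 - Complex.exp (Complex.I * w)).re := by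
  have h1 := norm_exp_I_le_one hw
  have h2 : ‖1 - Complex.exp (Complex.I * w)‖ ^ 2 =
      1 - 2 * (Complex.exp (Complex.I * w)).re + ‖Complex.exp (Complex.I * w)‖ ^ 2 := by
    rw [← Complex.normSq_eq_norm_sq, ← Complex.normSq_eq_norm_sq, Complex.normSq_sub]
    simp
    ring
  rw [h2]
  simp only [Complex.sub_re, Complex.one_re]
  have h3 : ‖Complex.exp (Complex.I * w)‖ ^ 2 ≤ 1 := pow_le_one₀ (norm_nonneg _) h1
  linarith

lemma re_one_sub_exp_ge {w : ℂ} (hw : 0 ≤ w.im) :
    min 1 w.im / 2 ≤ (1 - Complex.exp (Complex.I * w)).re := by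
  have h1 : (Complex.exp (Complex.I * w)).re ≤ Real.exp (-w.im) := by
    refine (Complex.re_le_norm _).trans ?_
    rw [Complex.norm_exp]
    simp
  simp only [Complex.sub_re, Complex.one_re]
  have h2 : Real.exp (-w.im) ≤ 1 - min 1 w.im / 2 := by
    rcases le_total 1 w.im with h | h
    · rw [min_eq_left h]
      have h3 : Real.exp (-w.im) ≤ Real.exp (-1) := Real.exp_le_exp.2 (by linarith)
      have h4 : Real.exp (-1) ≤ 1/2 := by
        rw [Real.exp_neg]
        rw [inv_le_comm₀ (Real.exp_pos _) (by norm_num)]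
        have := Real.add_one_le_exp 1
        norm_num
        linarith
      linarith
    · rw [min_eq_right h]
      -- exp(-x) ≤ 1/(1+x) ≤ 1 - x/2
      have h3 : 1 + w.im ≤ Real.exp w.im := by linarith [Real.add_one_le_exp w.im]
      rw [Real.exp_neg]
      have h4 : 0 < 1 + w.im := by linarith
      calc (Real.exp w.im)⁻¹ ≤ (1 + w.im)⁻¹ := by gcongr
        _ ≤ 1 - w.im / 2 := by
          rw [inv_le_iff_one_le_mul₀ h4]
          nlinarith
  linarith

/-- rotation estimate -/
lemma re_rot_ge {W : ℂ} (h1 : ‖W‖ ^ 2 ≤ 2 * W.re) (h2 : W.re ≤ 2) (x : ℝ) :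
    (3/4) * W.re - 3 * x ^ 2 ≤ Real.cos x * W.re + Real.sin x * W.im := by
  have hr : 0 ≤ W.re := by nlinarith [sq_nonneg ‖W‖]
  have h3 : W.im ^ 2 ≤ 2 * W.re := by
    have : ‖W‖ ^ 2 = W.re ^ 2 + W.im ^ 2 := by
      rw [← Complex.normSq_eq_norm_sq, Complex.normSq_apply]
      ring
    nlinarith [sq_nonneg W.re]
  have h4 := Real.one_sub_sq_div_two_le_cos (x := x)
  have h5 : Real.sin x ^ 2 ≤ x ^ 2 := by
    rw [sq_le_sq]
    exact Real.abs_sin_le_abs
  have h6 : (1 - x ^ 2 / 2) * W.re ≤ Real.cos x * W.re := by gcongr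
  nlinarith [sq_nonneg (4 * Real.sin x + W.im), sq_nonneg x]

end

end Helper12.Fac
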