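import Mathlib

/-!
# Fourier-Laplace transform of a planar convex body through chords (helper12)

The body is `{(h, y) : 0 ≤ h ≤ H, α h ≤ y ≤ β h}` with `α` convex and `β` concave.
-/

open Filter Topology Set MeasureTheory

namespace Helper12.Fac

noncomputable section

/-- chord integral -/
def G (a b : ℝ) (q : ℂ) : ℂ := ∫ y in a..b, Complex.exp (Complex.I * y * q)

/-- transform of the body between the graphs of `α` and `β` over `[0, H]` -/
def Phi (α β : ℝ → ℝ) (H : ℝ) (z q : ℂ) : ℂ :=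
  ∫ h in (0:ℝ)..H, Complex.exp (Complex.I * h * z) * G (α h) (β h) q

/-- slice data of a planar convex body -/
structure SliceData (α β : ℝ → ℝ) (H : ℝ) : Prop where
  hH : 0 < H
  ha : ConvexOn ℝ (Icc 0 H) α
  hb : ConcaveOn ℝ (Icc 0 H) β
  hac : ContinuousOn α (Icc 0 H)
  hbc : ContinuousOn β (Icc 0 H)
  hlt : ∀ h ∈ Ioo 0 H, α h < β h

lemma G_mul (a b : ℝ) {q : ℂ} (hq : q ≠ 0) :
    Complex.I * q * G a b q = Complex.exp (Complex.I * b * q) - Complex.exp (Complex.I * a * q) := by
  have hc : Complex.I * q ≠ 0 := mul_ne_zero Complex.I_ne_zero hq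
  have h1 : G a b q = ∫ y in a..b, Complex.exp (Complex.I * q * y) := by
    rw [G]
    congr 1
    ext y
    congr 1
    ring
  rw [h1, integral_exp_mul_complex hc]
  field_simp

lemma G_zero (a b : ℝ) : G a b 0 = (b - a : ℝ) := by
  simp [G]

lemma norm_G_le (a b : ℝ) (hab : a ≤ b) (q : ℂ) {M : ℝ} (ha : |a| ≤ M) (hb : |b| ≤ M) :
    ‖G a b q‖ ≤ Real.exp (M * ‖q‖) * (b - a) := by
  rw [G]
  have := intervalIntegral.norm_integral_le_of_norm_le_const (a := a) (b := b)
    (f := fun y : ℝ => Complex.exp (Complex.I * y * q)) (C := Real.exp (M * ‖q‖)) (by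
      intro y hy
      rw [uIoc_of_le hab] at hy
      rw [Complex.norm_exp]
      apply Real.exp_le_exp.2
      have hy2 : |y| ≤ M := by
        rw [abs_le] at *
        constructor <;> linarith [hy.1, hy.2]
      calc (Complex.I * y * q).re ≤ ‖Complex.I * y * q‖ := Complex.re_le_norm _
        _ = |y| * ‖q‖ := by simp
        _ ≤ M * ‖q‖ := by gcongr)
  rwa [abs_of_nonneg (by linarith)] at this

namespace SliceData

variable {α β : ℝ → ℝ} {H : ℝ}

lemma zero_mem (S : SliceData α β H) : (0:ℝ) ∈ Icc 0 H := ⟨le_rfl, S.hH.le⟩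

lemma H_mem (S : SliceData α β H) : H ∈ Icc 0 H := ⟨S.hH.le, le_rfl⟩

lemma le (S : SliceData α β H) {h : ℝ} (hh : h ∈ Icc 0 H) : α h ≤ β h := by
  have hcl : h ∈ closure (Ioo (0:ℝ) H) := by
    rw [closure_Ioo S.hH.ne]
    exact hh
  have h1 : ContinuousWithinAt (fun x => β x - α x) (Ioo 0 H) h :=
    ((S.hbc h hh).sub (S.hac h hh)).mono Ioo_subset_Icc_self
  have h2 : β h - α h ∈ closure (Ici (0:ℝ)) := by
    have := h1.mem_closure_image hcl
    refine closure_mono ?_ this
    rintro _ ⟨x, hx, rfl⟩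
    exact sub_nonneg.2 (S.hlt x hx).le
  rw [isClosed_Ici.closure_eq] at h2
  simpa using h2

lemma phi_mul (S : SliceData α β H) (z : ℂ) {q : ℂ} (hq : q ≠ 0) :
    Complex.I * q * Phi α β H z q = ∫ h in (0:ℝ)..H, Complex.exp (Complex.I * h * z) *
      (Complex.exp (Complex.I * β h * q) - Complex.exp (Complex.I * α h * q)) := by
  rw [Phi, ← intervalIntegral.integral_const_mul]
  congr 1
  ext h
  rw [← G_mul (α h) (β h) hq]
  ring

/-- concavity of the chord length -/
lemma len_concave (S : SliceData α β H) : ConcaveOn ℝ (Icc 0 H) (fun h => β h - α h) :=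
  S.hb.sub S.ha

lemma len_cont (S : SliceData α β H) : ContinuousOn (fun h => β h - α h) (Icc 0 H) :=
  S.hbc.sub S.hac

end SliceData

end

end Helper12.Fac
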