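import Mathlib
import Pool.Agent.Helper12.FacSlice
import Pool.Agent.Helper12.FacEst
import Pool.Agent.Helper12.FacConc

/-!
# Parabolic branches seen from a supporting line at a corner (helper12)
-/

open Filter Topology Set MeasureTheory

namespace Helper12.Fac

noncomputable section

lemma e1 {v : ℝ} (hv : 0 ≤ v) : v * (2 + v) * Real.exp (-v/2) ≤ 64 * Real.exp (-v/4) := by
  have h1 := Real.quadratic_le_exp_of_nonneg (show 0 ≤ v/4 by linarith)
  have h2 : Real.exp (-v/4) = Real.exp (-v/2) * Real.exp (v/4) := by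
    rw [← Real.exp_add]; congr 1; ring
  rw [h2]
  have h3 : 0 < Real.exp (-v/2) := Real.exp_pos _
  nlinarith

lemma e2 {v : ℝ} (hv : 0 ≤ v) : v ^ 2 * Real.exp (-(3*v)/4) ≤ 32 * Real.exp (-v/4) := by
  have h1 := Real.quadratic_le_exp_of_nonneg (show 0 ≤ v/2 by linarith)
  have h2 : Real.exp (-v/4) = Real.exp (-(3*v)/4) * Real.exp (v/2) := by
    rw [← Real.exp_add]; congr 1; ring
  rw [h2]
  have h3 : 0 < Real.exp (-(3*v)/4) := Real.exp_pos _
  nlinarith

lemma e3 {v : ℝ} (hv : 0 ≤ v) :
    v ^ 2 * (2 + v) * Real.exp (-(3*v)/4) ≤ 64 * Real.exp (-v/4) := by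
  have h1 := Real.quadratic_le_exp_of_nonneg (show 0 ≤ v/2 by linarith)
  have h1' := Real.pow_div_factorial_le_exp (v/2) (by linarith) 3
  have h2 : Real.exp (-v/4) = Real.exp (-(3*v)/4) * Real.exp (v/2) := by
    rw [← Real.exp_add]; congr 1; ring
  rw [h2]
  have h3 : 0 < Real.exp (-(3*v)/4) := Real.exp_pos _
  have h4 : v ^ 2 * (2 + v) ≤ 64 * Real.exp (v/2) := by
    norm_num [Nat.factorial] at h1'
    nlinarith
  nlinarith

lemma e4 {v : ℝ} (hv : 0 ≤ v) : (2 + v) ^ 2 * Real.exp (-(3*v)/4) ≤ 32 * Real.exp (-v/4) := by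
  have h1 := Real.quadratic_le_exp_of_nonneg (show 0 ≤ v/2 by linarith)
  have h2 : Real.exp (-v/4) = Real.exp (-(3*v)/4) * Real.exp (v/2) := by
    rw [← Real.exp_add]; congr 1; ring
  rw [h2]
  have h3 : 0 < Real.exp (-(3*v)/4) := Real.exp_pos _
  nlinarith

lemma exp_two_le : (1:ℝ)/8 ≤ Real.exp (-2) := by
  rw [Real.exp_neg, one_div]
  apply inv_anti₀ (Real.exp_pos _)
  have : Real.exp 2 = Real.exp 1 * Real.exp 1 := by rw [← Real.exp_add]; norm_num
  rw [this]
  have h := Real.exp_one_lt_d9
  nlinarith [Real.exp_pos 1]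

/-- bound for the norm of an interval integral by an exponential majorant -/
lemma norm_int_le {f : ℝ → ℂ} {τ H C : ℝ} (hτ : 0 < τ) (hH : 0 ≤ H) (hC : 0 ≤ C)
    (h : ∀ x ∈ Icc 0 H, ‖f x‖ ≤ C * Real.exp (-(τ * x) / 4)) :
    ‖∫ x in (0:ℝ)..H, f x‖ ≤ C * (4 / τ) := by
  have h1 := intervalIntegral.norm_integral_le_of_norm_le (μ := volume) (f := f)
    (g := fun x => C * Real.exp (-(τ * x) / 4)) hH
    (ae_of_all _ (fun x hx => h x ⟨hx.1.le, hx.2⟩))
    (Continuous.intervalIntegrable (by fun_prop) _ _)
  refine h1.trans ?_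
  rw [intervalIntegral.integral_const_mul]
  exact mul_le_mul_of_nonneg_left (int_exp_le hτ hH) hC

/-- real part of an interval integral -/
lemma re_int {f : ℝ → ℂ} {H : ℝ} (hH : 0 ≤ H) (hf : ContinuousOn f (Icc 0 H)) :
    (∫ x in (0:ℝ)..H, f x).re = ∫ x in (0:ℝ)..H, (f x).re := by
  have hint : IntervalIntegrable f volume 0 H := by
    apply ContinuousOn.intervalIntegrable
    rwa [uIcc_of_le hH]
  exact (Complex.reCLM.intervalIntegral_comp_comm hint).symm

variable {α β : ℝ → ℝ} {H : ℝ}

/-- main nonvanishing statement -/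
theorem P1 (S : SliceData α β H) {A : ℝ} (hA1 : 1 ≤ A) (hA : ∀ h ∈ Icc 0 H, |α h| ≤ A * h)
    {ε c : ℝ} (hε0 : 0 ≤ ε) (hε : ε ≤ 1e-10) (hc : 0 < c) (hcε : ε / 4 ≤ c) (hc1 : c ≤ 1)
    {τ : ℝ} (hτ0 : 0 < τ) (hτ : 4 ≤ τ * H) {q : ℂ} (hq0 : q ≠ 0) (hq : ‖q‖ ≤ c / (50000 * A) * τ)
    (hqi : c * ‖q‖ ≤ q.im) :
    Phi α β H (τ * (Complex.I * Complex.exp (ε * Complex.I))) q ≠ 0 := by
  have hH := S.hH
  have hqn : 0 < ‖q‖ := norm_pos_iff.2 hq0
  have hqim : 0 < q.im := lt_of_lt_of_le (by positivity) hqi
  set ℓ : ℝ → ℝ := fun h => β h - α h with hℓ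
  have hℓc : ConcaveOn ℝ (Icc 0 H) ℓ := S.len_concave
  have hℓ0 : ∀ h ∈ Icc 0 H, 0 ≤ ℓ h := fun h hh => sub_nonneg.2 (S.le hh)
  have hℓcont : ContinuousOn ℓ (Icc 0 H) := S.len_cont
  set δ : ℝ := 1 / τ with hδ
  have hδ0 : 0 < δ := by positivity
  have hδH : 4 * δ ≤ H := by
    rw [hδ, mul_one_div, div_le_iff₀ hτ0]
    linarith
  have hdiv : ∀ h : ℝ, h / δ = τ * h := by
    intro h
    rw [hδ]
    field_simp
  set L : ℝ := ℓ δ with hL
  have hLpos : 0 < L := sub_pos.2 (S.hlt δ ⟨hδ0, by linarith⟩)
  have hup : ∀ h ∈ Icc 0 H, ℓ h ≤ (2 + τ * h) * L := by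
    intro h hh
    have := len_upper hH hℓc hℓ0 hδ0 (by linarith) h hh
    rwa [hdiv] at this
  have hlow : ∀ h ∈ Icc δ (2 * δ), L / 2 ≤ ℓ h := len_lower hH hℓc hℓ0 hδ0 hδH
  set m : ℝ := min 1 (‖q‖ * L) with hm
  have hm0 : 0 < m := lt_min one_pos (by positivity)
  have hm1 : m ≤ 1 := min_le_left _ _
  -- trigonometric facts
  have hcos : 3/4 ≤ Real.cos ε := by
    have := Real.one_sub_sq_div_two_le_cos (x := ε)
    nlinarith
  have hcos1 : Real.cos ε ≤ 1 := Real.cos_le_one ε
  have hsin : |Real.sin ε| ≤ ε := by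
    have := Real.abs_sin_le_abs (x := ε)
    rwa [abs_of_nonneg hε0] at this
  -- the functions
  set E : ℝ → ℂ := fun h => Complex.exp (Complex.I * h *
    (τ * (Complex.I * Complex.exp (ε * Complex.I)))) with hE
  set W : ℝ → ℂ := fun h => 1 - Complex.exp (Complex.I * ((ℓ h : ℂ) * q)) with hW
  have hEexp : ∀ h : ℝ, Complex.I * h * (τ * (Complex.I * Complex.exp (ε * Complex.I))) =
      ((-(τ * h * Real.cos ε) : ℝ) : ℂ) + ((-(τ * h * Real.sin ε) : ℝ) : ℂ) * Complex.I := by
    intro h
    rw [Complex.exp_mul_I]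
    push_cast
    linear_combination (τ * h * (Complex.cos ε + Complex.sin ε * Complex.I)) * Complex.I_sq
  have hEnorm : ∀ h : ℝ, ‖E h‖ = Real.exp (-(τ * h * Real.cos ε)) := by
    intro h
    rw [hE]
    simp only
    rw [hEexp, Complex.norm_exp]
    congr 1
    rw [Complex.add_re, Complex.ofReal_re, Complex.re_ofReal_mul, Complex.I_re]
    ring
  have hEle : ∀ h ∈ Icc 0 H, ‖E h‖ ≤ Real.exp (-(3 * (τ * h)) / 4) := by
    intro h hh
    rw [hEnorm]
    apply Real.exp_le_exp.2
    have : 0 ≤ τ * h := mul_nonneg hτ0.le hh.1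
    nlinarith
  have hwim : ∀ h ∈ Icc 0 H, 0 ≤ ((ℓ h : ℂ) * q).im := by
    intro h hh
    simp only [Complex.mul_im, Complex.ofReal_re, Complex.ofReal_im, zero_mul, add_zero]
    exact mul_nonneg (hℓ0 h hh) hqim.le
  have hWle : ∀ h ∈ Icc 0 H, ‖W h‖ ≤ 2 * (2 + τ * h) * m := by
    intro h hh
    have hv : 0 ≤ τ * h := mul_nonneg hτ0.le hh.1
    rw [hm]
    rcases le_total 1 (‖q‖ * L) with h1 | h1
    · rw [min_eq_left h1]
      have := norm_one_sub_exp_le_two (hwim h hh)
      linarith
    · rw [min_eq_right h1]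
      have h2 := norm_one_sub_exp_le (hwim h hh)
      rw [norm_mul, Complex.norm_real, Real.norm_eq_abs, abs_of_nonneg (hℓ0 h hh)] at h2
      have h3 := mul_le_mul_of_nonneg_right (hup h hh) hqn.le
      have h4 : 0 ≤ (2 + τ * h) * (‖q‖ * L) := by positivity
      calc ‖W h‖ ≤ ℓ h * ‖q‖ := h2
        _ ≤ (2 + τ * h) * L * ‖q‖ := h3
        _ ≤ 2 * (2 + τ * h) * (‖q‖ * L) := by linarith
  -- continuity
  have hℓC : ContinuousOn (fun h => ((ℓ h : ℝ) : ℂ)) (Icc 0 H) :=
    Complex.continuous_ofReal.comp_continuousOn hℓcont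
  have hαC : ContinuousOn (fun h => ((α h : ℝ) : ℂ)) (Icc 0 H) :=
    Complex.continuous_ofReal.comp_continuousOn S.hac
  have hEc : ContinuousOn E (Icc 0 H) := by
    rw [hE]
    fun_prop
  have hWc : ContinuousOn W (Icc 0 H) :=
    continuousOn_const.sub (continuousOn_const.mul (hℓC.mul continuousOn_const)).cexp
  have hAc : ContinuousOn (fun h => Complex.exp (Complex.I * α h * q) - 1) (Icc 0 H) :=
    ((continuousOn_const.mul hαC).mul continuousOn_const).cexp.sub continuousOn_const
  set X : ℂ := ∫ h in (0:ℝ)..H, E h * W h with hX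
  set Y : ℂ := ∫ h in (0:ℝ)..H, E h * ((Complex.exp (Complex.I * α h * q) - 1) * W h) with hY
  have hXY : Complex.I * q * Phi α β H (τ * (Complex.I * Complex.exp (ε * Complex.I))) q =
      -(X + Y) := by
    rw [S.phi_mul _ hq0, hX, hY, ← intervalIntegral.integral_add, ← intervalIntegral.integral_neg]
    · congr 1
      ext h
      have h1 : Complex.exp (Complex.I * β h * q) =
          Complex.exp (Complex.I * α h * q) * Complex.exp (Complex.I * ((ℓ h : ℂ) * q)) := by
        rw [← Complex.exp_add, hℓ]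
        congr 1
        push_cast
        ring
      rw [h1, hE, hW]
      ring
    · apply ContinuousOn.intervalIntegrable
      rw [uIcc_of_le hH.le]
      exact hEc.mul hWc
    · apply ContinuousOn.intervalIntegrable
      rw [uIcc_of_le hH.le]
      exact hEc.mul (hAc.mul hWc)
  -- bound for Y
  have hqA : A * ‖q‖ ≤ τ / 4 := by
    have h1 : A * ‖q‖ ≤ A * (c / (50000 * A) * τ) := by gcongr
    have h2 : A * (c / (50000 * A) * τ) = c * τ / 50000 := by
      field_simp
    rw [h2] at h1
    nlinarith
  have hYle : ‖Y‖ ≤ 2 * A * ‖q‖ * m / τ * 64 * (4 / τ) := by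
    apply norm_int_le hτ0 hH.le (by positivity)
    intro h hh
    have hv : 0 ≤ τ * h := mul_nonneg hτ0.le hh.1
    rw [norm_mul, norm_mul]
    have h1 : ‖Complex.exp (Complex.I * α h * q) - 1‖ ≤ A * ‖q‖ * h * Real.exp (τ * h / 4) := by
      have h2 : ‖Complex.I * α h * q‖ ≤ A * ‖q‖ * h := by
        rw [norm_mul, norm_mul, Complex.norm_I, one_mul, Complex.norm_real, Real.norm_eq_abs]
        have := mul_le_mul_of_nonneg_right (hA h hh) hqn.le
        linarith
      have h3 : ‖Complex.exp (Complex.I * α h * q) - 1‖ ≤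
          ‖Complex.I * α h * q‖ * Real.exp ‖Complex.I * α h * q‖ := by
        have := Complex.norm_exp_sub_sum_le_norm_mul_exp (Complex.I * α h * q) 1
        simpa using this
      refine h3.trans ?_
      have h4 : ‖Complex.I * α h * q‖ ≤ τ * h / 4 := by
        refine h2.trans ?_
        have := mul_le_mul_of_nonneg_right hqA hh.1
        linarith
      have h5 : 0 ≤ A * ‖q‖ * h := by
        have := hh.1
        positivity
      gcongr
    have h2 := hEle h hh
    have h3 := hWle h hh
    have h4 := e1 hv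
    have h5 : 0 ≤ A * ‖q‖ * h := by
      have := hh.1
      positivity
    calc ‖E h‖ * (‖Complex.exp (Complex.I * α h * q) - 1‖ * ‖W h‖)
        ≤ Real.exp (-(3 * (τ * h)) / 4) * ((A * ‖q‖ * h * Real.exp (τ * h / 4)) *
          (2 * (2 + τ * h) * m)) := by gcongr
      _ = 2 * A * ‖q‖ * m / τ * ((τ * h) * (2 + τ * h) *
          (Real.exp (-(3 * (τ * h)) / 4) * Real.exp (τ * h / 4))) := by
          field_simp
      _ = 2 * A * ‖q‖ * m / τ * ((τ * h) * (2 + τ * h) * Real.exp (-(τ * h) / 2)) := by
          rw [← Real.exp_add]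
          congr 3
          ring
      _ ≤ 2 * A * ‖q‖ * m / τ * (64 * Real.exp (-(τ * h) / 4)) := by gcongr
      _ = _ := by ring
  have hYlt : ‖Y‖ < 3 * c * m / (256 * τ) := by
    refine lt_of_le_of_lt hYle ?_
    have h1 : A * ‖q‖ ≤ c * τ / 50000 := by
      have h1 : A * ‖q‖ ≤ A * (c / (50000 * A) * τ) := by gcongr
      have h2 : A * (c / (50000 * A) * τ) = c * τ / 50000 := by
        field_simp
      rwa [h2] at h1
    have h2 : 2 * A * ‖q‖ * m / τ * 64 * (4 / τ) = 512 * (A * ‖q‖) * m / τ ^ 2 := by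
      field_simp
      ring
    rw [h2]
    calc 512 * (A * ‖q‖) * m / τ ^ 2 ≤ 512 * (c * τ / 50000) * m / τ ^ 2 := by gcongr
      _ = 512 / 50000 * (c * m / τ) := by field_simp
      _ < 3 / 256 * (c * m / τ) := by
        have : 0 < c * m / τ := by positivity
        nlinarith
      _ = _ := by field_simp
  -- lower bound for X
  have hXge : 3 * c * m / (256 * τ) ≤ ‖X‖ := by
    rcases le_total (1e-4) (‖q‖ * L) with hcase | hcase
    · -- first case
      have hm4 : 1e-4 ≤ m := le_min (by norm_num) hcase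
      have hEWre : ∀ h : ℝ, (E h * W h).re = Real.exp (-(τ * h * Real.cos ε)) *
          (Real.cos (τ * h * Real.sin ε) * (W h).re + Real.sin (τ * h * Real.sin ε) * (W h).im) := by
        intro h
        have h1 : E h = Real.exp (-(τ * h * Real.cos ε)) *
            (Real.cos (τ * h * Real.sin ε) - Real.sin (τ * h * Real.sin ε) * Complex.I) := by
          rw [hE]
          simp only
          rw [hEexp, Complex.exp_add, Complex.exp_mul_I]
          push_cast
          rw [Complex.cos_neg, Complex.sin_neg]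
          ring
        rw [h1, mul_assoc, Complex.re_ofReal_mul, Complex.mul_re]
        generalize Real.cos (τ * h * Real.sin ε) = a
        generalize Real.sin (τ * h * Real.sin ε) = b
        congr 1
        simp
      have hpt : ∀ h ∈ Icc 0 H, (3/4) * (Real.exp (-(τ * h)) * (W h).re) -
          96 * ε ^ 2 * Real.exp (-(τ * h) / 4) ≤ (E h * W h).re := by
        intro h hh
        have hv : 0 ≤ τ * h := mul_nonneg hτ0.le hh.1
        rw [hEWre]
        have hW1 := normSq_one_sub_exp_le (hwim h hh)
        have hW2 : (W h).re ≤ 2 := (Complex.re_le_norm _).trans (norm_one_sub_exp_le_two (hwim h hh))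
        have hW0 : 0 ≤ (W h).re := by
          have : 0 ≤ ‖W h‖ ^ 2 := by positivity
          have h2 : ‖W h‖ ^ 2 ≤ 2 * (W h).re := hW1
          linarith
        have hr := re_rot_ge hW1 hW2 (τ * h * Real.sin ε)
        have hE1 : Real.exp (-(τ * h)) ≤ Real.exp (-(τ * h * Real.cos ε)) := by
          apply Real.exp_le_exp.2
          nlinarith
        have hE2 : Real.exp (-(τ * h * Real.cos ε)) ≤ Real.exp (-(3 * (τ * h)) / 4) := by
          apply Real.exp_le_exp.2
          nlinarith
        have hs : (τ * h * Real.sin ε) ^ 2 ≤ (τ * h) ^ 2 * ε ^ 2 := by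
          rw [mul_pow]
          have : Real.sin ε ^ 2 ≤ ε ^ 2 := by
            rw [sq_le_sq, abs_of_nonneg hε0]
            exact hsin
          gcongr
        have hE3 := e2 hv
        have hpos : 0 < Real.exp (-(τ * h * Real.cos ε)) := Real.exp_pos _
        calc (3/4) * (Real.exp (-(τ * h)) * (W h).re) - 96 * ε ^ 2 * Real.exp (-(τ * h) / 4)
            ≤ (3/4) * (Real.exp (-(τ * h * Real.cos ε)) * (W h).re) -
              3 * ε ^ 2 * ((τ * h) ^ 2 * Real.exp (-(3 * (τ * h)) / 4)) := by
              have h5 : 3 * ε ^ 2 * ((τ * h) ^ 2 * Real.exp (-(3 * (τ * h)) / 4)) ≤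
                  3 * ε ^ 2 * (32 * Real.exp (-(τ * h) / 4)) := by gcongr
              have h6 : Real.exp (-(τ * h)) * (W h).re ≤
                  Real.exp (-(τ * h * Real.cos ε)) * (W h).re := by gcongr
              linarith
          _ ≤ (3/4) * (Real.exp (-(τ * h * Real.cos ε)) * (W h).re) -
              3 * ε ^ 2 * ((τ * h) ^ 2 * Real.exp (-(τ * h * Real.cos ε))) := by
              have h5 : 3 * ε ^ 2 * ((τ * h) ^ 2 * Real.exp (-(τ * h * Real.cos ε))) ≤
                3 * ε ^ 2 * ((τ * h) ^ 2 * Real.exp (-(3 * (τ * h)) / 4)) := by gcongr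
              linarith
          _ ≤ Real.exp (-(τ * h * Real.cos ε)) *
              ((3/4) * (W h).re - 3 * (τ * h * Real.sin ε) ^ 2) := by
              have h7 := mul_le_mul_of_nonneg_left hs hpos.le
              nlinarith
          _ ≤ _ := by gcongr
      have hXre : X.re = ∫ h in (0:ℝ)..H, (E h * W h).re := re_int hH.le (hEc.mul hWc)
      have hWrec : ContinuousOn (fun h => (W h).re) (Icc 0 H) :=
        Complex.continuous_re.comp_continuousOn hWc
      have hi1 : ContinuousOn (fun h => Real.exp (-(τ * h)) * (W h).re) (Icc 0 H) :=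
        ContinuousOn.mul (by fun_prop) hWrec
      have hmono : ∫ h in (0:ℝ)..H, ((3/4) * (Real.exp (-(τ * h)) * (W h).re) -
          96 * ε ^ 2 * Real.exp (-(τ * h) / 4)) ≤ ∫ h in (0:ℝ)..H, (E h * W h).re := by
        apply intervalIntegral.integral_mono_on hH.le
        · apply ContinuousOn.intervalIntegrable
          rw [uIcc_of_le hH.le]
          exact (continuousOn_const.mul hi1).sub (by fun_prop)
        · apply ContinuousOn.intervalIntegrable
          rw [uIcc_of_le hH.le]
          exact Complex.continuous_re.comp_continuousOn (hEc.mul hWc)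
        · exact hpt
      rw [intervalIntegral.integral_sub (by
          apply ContinuousOn.intervalIntegrable
          rw [uIcc_of_le hH.le]
          exact continuousOn_const.mul hi1) (Continuous.intervalIntegrable (by fun_prop) _ _),
        intervalIntegral.integral_const_mul, intervalIntegral.integral_const_mul] at hmono
      have hI1 : (1/8 * (c * m / 4)) * δ ≤ ∫ h in (0:ℝ)..H, Real.exp (-(τ * h)) * (W h).re := by
        apply int_ge_of hδ0 (by linarith) hi1
        · intro h hh
          have hW1 := normSq_one_sub_exp_le (hwim h hh)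
          have hW0 : 0 ≤ (W h).re := by
            have : 0 ≤ ‖W h‖ ^ 2 := by positivity
            have h2 : ‖W h‖ ^ 2 ≤ 2 * (W h).re := hW1
            linarith
          positivity
        · intro h hh
          have hh' : h ∈ Icc 0 H := ⟨hδ0.le.trans hh.1, hh.2.trans (by linarith)⟩
          have h1 := re_one_sub_exp_ge (hwim h hh')
          have h2 : c * m / 4 ≤ (W h).re := by
            refine le_trans ?_ h1
            have h3 : ((ℓ h : ℂ) * q).im = ℓ h * q.im := by simp
            rw [h3]
            have h4 := hlow h hh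
            have h4' := hℓ0 h hh'
            have h5 : L / 2 * (c * ‖q‖) ≤ ℓ h * q.im := by gcongr
            have h6 : c * m / 2 ≤ min 1 (ℓ h * q.im) := by
              apply le_min
              · nlinarith
              · have : m ≤ ‖q‖ * L := min_le_right _ _
                nlinarith
            linarith
          have h3 : 1/8 ≤ Real.exp (-(τ * h)) := by
            refine exp_two_le.trans (Real.exp_le_exp.2 ?_)
            have := hh.2
            rw [hδ] at this
            have h4 : τ * h ≤ τ * (2 * (1/τ)) := by gcongr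
            have h5 : τ * (2 * (1/τ)) = 2 := by field_simp
            linarith
          have : 0 ≤ c * m / 4 := by positivity
          gcongr
      have hI2 := int_exp_le hτ0 hH.le
      have hI3 : 96 * ε ^ 2 * ∫ h in (0:ℝ)..H, Real.exp (-(τ * h) / 4) ≤ 96 * ε ^ 2 * (4 / τ) := by
        gcongr
      have hfin : 3 * c * m / (256 * τ) ≤ X.re := by
        rw [hXre]
        refine le_trans ?_ hmono
        have h1 : 96 * ε ^ 2 * (4 / τ) ≤ 3 * c * m / (256 * τ) := by
          rw [show 96 * ε ^ 2 * (4 / τ) = (384 * ε ^ 2) / τ by ring,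
            show 3 * c * m / (256 * τ) = (3 * c * m / 256) / τ by field_simp]
          gcongr
          have h2 : 384 * ε ^ 2 ≤ 384 * 1e-10 * ε := by nlinarith
          have h3 : ε / 4 * 1e-4 ≤ c * m := by gcongr
          nlinarith
        have h2 : (3/4) * ((1/8 * (c * m / 4)) * δ) = 2 * (3 * c * m / (256 * τ)) := by
          rw [hδ]
          field_simp
          norm_num
        linarith
      exact hfin.trans (Complex.re_le_norm _)
    · -- second case
      have hmq : m = ‖q‖ * L := min_eq_right (hcase.trans (by norm_num))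
      -- first order part
      have hEl : ContinuousOn (fun h => E h * (ℓ h : ℂ)) (Icc 0 H) := hEc.mul hℓC
      have hRc : ContinuousOn (fun h => E h * (W h + Complex.I * ((ℓ h : ℂ) * q))) (Icc 0 H) :=
        hEc.mul (hWc.add (continuousOn_const.mul (hℓC.mul continuousOn_const)))
      have hXdec : X = -(Complex.I * q) * (∫ h in (0:ℝ)..H, E h * (ℓ h : ℂ)) +
          ∫ h in (0:ℝ)..H, E h * (W h + Complex.I * ((ℓ h : ℂ) * q)) := by
        rw [← intervalIntegral.integral_const_mul, ← intervalIntegral.integral_add, hX]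
        · congr 1
          ext h
          ring
        · apply ContinuousOn.intervalIntegrable
          rw [uIcc_of_le hH.le]
          exact continuousOn_const.mul hEl
        · apply ContinuousOn.intervalIntegrable
          rw [uIcc_of_le hH.le]
          exact hRc
      have hR : ‖∫ h in (0:ℝ)..H, E h * (W h + Complex.I * ((ℓ h : ℂ) * q))‖ ≤
          (‖q‖ ^ 2 * L ^ 2 * 32) * (4 / τ) := by
        apply norm_int_le hτ0 hH.le (by positivity)
        intro h hh
        have hv : 0 ≤ τ * h := mul_nonneg hτ0.le hh.1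
        have h1 := norm_exp_taylor_le (hwim h hh)
        rw [norm_mul (ℓ h : ℂ) q, Complex.norm_real, Real.norm_eq_abs,
          abs_of_nonneg (hℓ0 h hh)] at h1
        have h2 := hEle h hh
        have h3 := e4 hv
        have h4 : (ℓ h * ‖q‖) ^ 2 ≤ ((2 + τ * h) * L * ‖q‖) ^ 2 := by
          have := hup h hh
          have h5 := hℓ0 h hh
          gcongr
        rw [norm_mul]
        calc ‖E h‖ * ‖W h + Complex.I * ((ℓ h : ℂ) * q)‖
            ≤ Real.exp (-(3 * (τ * h)) / 4) * ((2 + τ * h) * L * ‖q‖) ^ 2 := by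
              gcongr
              exact h1.trans h4
          _ = ‖q‖ ^ 2 * L ^ 2 * ((2 + τ * h) ^ 2 * Real.exp (-(3 * (τ * h)) / 4)) := by ring
          _ ≤ ‖q‖ ^ 2 * L ^ 2 * (32 * Real.exp (-(τ * h) / 4)) := by gcongr
          _ = _ := by ring
      have hM : L / (17 * τ) ≤ ‖∫ h in (0:ℝ)..H, E h * (ℓ h : ℂ)‖ := by
        refine le_trans ?_ (Complex.re_le_norm _)
        rw [re_int hH.le hEl]
        have hEre : ∀ h : ℝ, (E h * (ℓ h : ℂ)).re =
            Real.exp (-(τ * h * Real.cos ε)) * Real.cos (τ * h * Real.sin ε) * ℓ h := by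
          intro h
          have h1 : E h = Real.exp (-(τ * h * Real.cos ε)) *
              (Real.cos (τ * h * Real.sin ε) - Real.sin (τ * h * Real.sin ε) * Complex.I) := by
            rw [hE]
            simp only
            rw [hEexp, Complex.exp_add, Complex.exp_mul_I]
            push_cast
            rw [Complex.cos_neg, Complex.sin_neg]
            ring
          rw [h1, mul_assoc, Complex.re_ofReal_mul, Complex.mul_re]
          generalize Real.cos (τ * h * Real.sin ε) = a
          generalize Real.sin (τ * h * Real.sin ε) = b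
          simp
          ring
        have hpt : ∀ h ∈ Icc 0 H, Real.exp (-(τ * h)) * ℓ h -
            32 * ε ^ 2 * L * Real.exp (-(τ * h) / 4) ≤ (E h * (ℓ h : ℂ)).re := by
          intro h hh
          have hv : 0 ≤ τ * h := mul_nonneg hτ0.le hh.1
          rw [hEre]
          have hE1 : Real.exp (-(τ * h)) ≤ Real.exp (-(τ * h * Real.cos ε)) := by
            apply Real.exp_le_exp.2
            nlinarith
          have hE2 : Real.exp (-(τ * h * Real.cos ε)) ≤ Real.exp (-(3 * (τ * h)) / 4) := by
            apply Real.exp_le_exp.2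
            nlinarith
          have hs : (τ * h * Real.sin ε) ^ 2 ≤ (τ * h) ^ 2 * ε ^ 2 := by
            rw [mul_pow]
            have : Real.sin ε ^ 2 ≤ ε ^ 2 := by
              rw [sq_le_sq, abs_of_nonneg hε0]
              exact hsin
            gcongr
          have hE3 := e3 hv
          have hl0 := hℓ0 h hh
          have hl1 := hup h hh
          have hcx := Real.one_sub_sq_div_two_le_cos (x := τ * h * Real.sin ε)
          have hpos : 0 < Real.exp (-(τ * h * Real.cos ε)) := Real.exp_pos _
          have h5 : Real.exp (-(τ * h * Real.cos ε)) * ((τ * h) ^ 2 * ε ^ 2 / 2) * ℓ h ≤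
              32 * ε ^ 2 * L * Real.exp (-(τ * h) / 4) := by
            calc Real.exp (-(τ * h * Real.cos ε)) * ((τ * h) ^ 2 * ε ^ 2 / 2) * ℓ h
                ≤ Real.exp (-(3 * (τ * h)) / 4) * ((τ * h) ^ 2 * ε ^ 2 / 2) *
                  ((2 + τ * h) * L) := by gcongr
              _ = ε ^ 2 * L / 2 * ((τ * h) ^ 2 * (2 + τ * h) *
                  Real.exp (-(3 * (τ * h)) / 4)) := by ring
              _ ≤ ε ^ 2 * L / 2 * (64 * Real.exp (-(τ * h) / 4)) := by gcongr
              _ = _ := by ring
          calc Real.exp (-(τ * h)) * ℓ h - 32 * ε ^ 2 * L * Real.exp (-(τ * h) / 4)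
              ≤ Real.exp (-(τ * h * Real.cos ε)) * ℓ h -
                Real.exp (-(τ * h * Real.cos ε)) * ((τ * h) ^ 2 * ε ^ 2 / 2) * ℓ h := by
                have : Real.exp (-(τ * h)) * ℓ h ≤ Real.exp (-(τ * h * Real.cos ε)) * ℓ h := by
                  gcongr
                linarith
            _ = Real.exp (-(τ * h * Real.cos ε)) * (1 - (τ * h) ^ 2 * ε ^ 2 / 2) * ℓ h := by ring
            _ ≤ Real.exp (-(τ * h * Real.cos ε)) * (1 - (τ * h * Real.sin ε) ^ 2 / 2) * ℓ h := by
                gcongr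
            _ ≤ _ := by gcongr
        have hi1 : ContinuousOn (fun h => Real.exp (-(τ * h)) * ℓ h) (Icc 0 H) :=
          ContinuousOn.mul (by fun_prop) hℓcont
        have hmono : ∫ h in (0:ℝ)..H, (Real.exp (-(τ * h)) * ℓ h -
            32 * ε ^ 2 * L * Real.exp (-(τ * h) / 4)) ≤
            ∫ h in (0:ℝ)..H, (E h * (ℓ h : ℂ)).re := by
          apply intervalIntegral.integral_mono_on hH.le
          · apply ContinuousOn.intervalIntegrable
            rw [uIcc_of_le hH.le]
            exact hi1.sub (by fun_prop)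
          · apply ContinuousOn.intervalIntegrable
            rw [uIcc_of_le hH.le]
            exact Complex.continuous_re.comp_continuousOn hEl
          · exact hpt
        rw [intervalIntegral.integral_sub (by
            apply ContinuousOn.intervalIntegrable
            rw [uIcc_of_le hH.le]
            exact hi1) (Continuous.intervalIntegrable (by fun_prop) _ _),
          intervalIntegral.integral_const_mul] at hmono
        have hI1 : (1/8 * (L / 2)) * δ ≤ ∫ h in (0:ℝ)..H, Real.exp (-(τ * h)) * ℓ h := by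
          apply int_ge_of hδ0 (by linarith) hi1
          · intro h hh
            have := hℓ0 h hh
            positivity
          · intro h hh
            have h2 := hlow h hh
            have h3 : 1/8 ≤ Real.exp (-(τ * h)) := by
              refine exp_two_le.trans (Real.exp_le_exp.2 ?_)
              have := hh.2
              rw [hδ] at this
              have h4 : τ * h ≤ τ * (2 * (1/τ)) := by gcongr
              have h5 : τ * (2 * (1/τ)) = 2 := by field_simp
              linarith
            gcongr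
        have hI2 := int_exp_le hτ0 hH.le
        have hI3 : 32 * ε ^ 2 * L * ∫ h in (0:ℝ)..H, Real.exp (-(τ * h) / 4) ≤
            32 * ε ^ 2 * L * (4 / τ) := by
          gcongr
        refine le_trans ?_ hmono
        have h1 : 32 * ε ^ 2 * L * (4 / τ) ≤ (1/1000) * (L / τ) := by
          have h2 : ε ^ 2 ≤ 1e-6 := by nlinarith
          have h3 : 0 < L / τ := by positivity
          rw [show 32 * ε ^ 2 * L * (4 / τ) = (128 * ε ^ 2) * (L / τ) by ring]
          gcongr
          linarith
        have h2 : (1/8 * (L / 2)) * δ = (1/16) * (L / τ) := by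
          rw [hδ]
          field_simp
          norm_num
        have h3 : L / (17 * τ) = (1/17) * (L / τ) := by field_simp
        rw [h3]
        have h4 : 0 < L / τ := by positivity
        linarith
      have hfin : ‖q‖ * (L / (17 * τ)) - (‖q‖ ^ 2 * L ^ 2 * 32) * (4 / τ) ≤ ‖X‖ := by
        rw [hXdec]
        have h1 := norm_sub_norm_le (-(Complex.I * q) * (∫ h in (0:ℝ)..H, E h * (ℓ h : ℂ)))
          (-(∫ h in (0:ℝ)..H, E h * (W h + Complex.I * ((ℓ h : ℂ) * q))))
        rw [sub_neg_eq_add, norm_neg, norm_mul, norm_neg, norm_mul, Complex.norm_I, one_mul] at h1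
        have h2 : ‖q‖ * (L / (17 * τ)) ≤ ‖q‖ * ‖∫ h in (0:ℝ)..H, E h * (ℓ h : ℂ)‖ := by gcongr
        linarith
      refine le_trans ?_ hfin
      rw [hmq]
      have h1 : 0 < ‖q‖ * L / τ := by positivity
      have h2 : (‖q‖ ^ 2 * L ^ 2 * 32) * (4 / τ) = 128 * (‖q‖ * L) * (‖q‖ * L / τ) := by ring
      have h3 : ‖q‖ * (L / (17 * τ)) = (1/17) * (‖q‖ * L / τ) := by field_simp
      have h4 : 3 * c * (‖q‖ * L) / (256 * τ) = (3 * c / 256) * (‖q‖ * L / τ) := by field_simp
      rw [h2, h3, h4]
      nlinarith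
  intro h0
  rw [h0, mul_zero] at hXY
  have : X = -Y := by linear_combination hXY
  rw [this, norm_neg] at hXge
  linarith

end

end Helper12.Fac
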