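import Mathlib
import Pool.Agent.Helper12.FacSlice

/-!
# Watson type lemma (helper12)
-/

open Filter Topology Set MeasureTheory

namespace Helper12.Fac

noncomputable section

lemma int_exp0 {τ H : ℝ} (hτ : 0 < τ) :
    ∫ h in (0:ℝ)..H, Real.exp (-(τ * h)) = (1 - Real.exp (-(τ * H))) / τ := by
  have hd : ∀ x ∈ uIcc (0:ℝ) H, HasDerivAt (fun h : ℝ => -(1/τ) * Real.exp (-(τ * h)))
      (Real.exp (-(τ * x))) x := by
    intro x _
    have h1 : HasDerivAt (fun h : ℝ => -(τ * h)) (-τ) x := by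
      have := (hasDerivAt_id x).const_mul (-τ)
      simpa using this
    have h2 := (h1.exp).const_mul (-(1/τ))
    have h3 : -(1/τ) * (Real.exp (-(τ * x)) * (-τ)) = Real.exp (-(τ * x)) := by
      field_simp
    rw [h3] at h2
    exact h2
  rw [intervalIntegral.integral_eq_sub_of_hasDerivAt hd
    (Continuous.intervalIntegrable (by fun_prop) _ _)]
  simp only [mul_zero, neg_zero, Real.exp_zero, mul_one]
  field_simp
  ring

lemma int_exp_half {τ H : ℝ} (hτ : 0 < τ) (_hH : 0 ≤ H) :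
    ∫ h in (0:ℝ)..H, Real.exp (-(τ / 2 * h)) ≤ 2 / τ := by
  rw [int_exp0 (by positivity)]
  rw [div_le_div_iff₀ (by positivity) hτ]
  have := Real.exp_pos (-(τ/2 * H))
  nlinarith

lemma int_hexp {τ H : ℝ} (hτ : 0 < τ) :
    ∫ h in (0:ℝ)..H, h * Real.exp (-(τ * h)) =
      (1 - (1 + τ * H) * Real.exp (-(τ * H))) / τ ^ 2 := by
  have hd : ∀ x ∈ uIcc (0:ℝ) H,
      HasDerivAt (fun h : ℝ => -(1/τ^2) * ((1 + τ * h) * Real.exp (-(τ * h))))
      (x * Real.exp (-(τ * x))) x := by
    intro x _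
    have h1 : HasDerivAt (fun h : ℝ => -(τ * h)) (-τ) x := by
      have := (hasDerivAt_id x).const_mul (-τ)
      simpa using this
    have h1' : HasDerivAt (fun h : ℝ => 1 + τ * h) τ x := by
      have := ((hasDerivAt_id x).const_mul τ).const_add 1
      simpa using this
    have h2 := (h1'.mul h1.exp).const_mul (-(1/τ^2))
    refine h2.congr_deriv ?_
    field_simp
    ring
  rw [intervalIntegral.integral_eq_sub_of_hasDerivAt hd
    (Continuous.intervalIntegrable (by fun_prop) _ _)]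
  simp only [mul_zero, neg_zero, Real.exp_zero, mul_one, add_zero]
  field_simp
  ring

lemma tendsto_exp_neg {τ : ℕ → ℝ} (hτ : Tendsto τ atTop atTop) {c : ℝ} (hc : 0 < c) (k : ℕ) :
    Tendsto (fun n => τ n ^ k * Real.exp (-(τ n * c))) atTop (𝓝 0) := by
  have h1 := (tendsto_rpow_mul_exp_neg_mul_atTop_nhds_zero (k : ℝ) c hc).comp hτ
  refine h1.congr (fun n => ?_)
  simp only [Function.comp_apply, Real.rpow_natCast]
  congr 2
  ring

/-- pointwise domination used everywhere -/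
lemma exp_split {τ h δ : ℝ} (hτ : 0 < τ) (hh : δ ≤ h) :
    Real.exp (-(τ * h)) ≤ Real.exp (-(τ * (δ / 2))) * Real.exp (-(τ / 2 * h)) := by
  rw [← Real.exp_add]
  apply Real.exp_le_exp.2
  nlinarith

/-- Watson lemma -/
lemma watson {g : ℕ → ℝ → ℂ} {H : ℝ} (hH : 0 < H) {τ : ℕ → ℝ} (hτ : Tendsto τ atTop atTop)
    {M : ℝ} (hM : ∀ᶠ n in atTop, ∀ h ∈ Icc 0 H, ‖g n h‖ ≤ M)
    (hg : ∀ᶠ n in atTop, ContinuousOn (g n) (Icc 0 H)) {g0 : ℂ}
    (hlim : ∀ ε > 0, ∃ δ > 0, ∀ᶠ n in atTop, ∀ h ∈ Icc 0 H, h ≤ δ → ‖g n h - g0‖ ≤ ε) :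
    Tendsto (fun n => (τ n : ℂ) * ∫ h in (0:ℝ)..H, (Real.exp (-(τ n * h)) : ℂ) * g n h) atTop
      (𝓝 g0) := by
  have key : Tendsto (fun n => (τ n : ℂ) * ∫ h in (0:ℝ)..H,
      (Real.exp (-(τ n * h)) : ℂ) * (g n h - g0)) atTop (𝓝 0) := by
    rw [Metric.tendsto_nhds]
    intro ε hε
    obtain ⟨δ, hδ, hδ'⟩ := hlim (ε/2) (by positivity)
    have hsm := tendsto_exp_neg hτ (half_pos hδ) 0
    have hsm2 : Tendsto (fun n => 2 * (M + ‖g0‖) * (τ n ^ 0 * Real.exp (-(τ n * (δ/2)))))
        atTop (𝓝 0) := by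
      have := hsm.const_mul (2 * (M + ‖g0‖))
      rwa [mul_zero] at this
    filter_upwards [hδ', hM, hg, hτ.eventually_gt_atTop 0,
      hsm2.eventually (gt_mem_nhds (half_pos hε))] with n h1 h2 h3 h4 h5
    rw [pow_zero, one_mul] at h5
    rw [dist_zero_right, norm_mul, Complex.norm_real, Real.norm_eq_abs, abs_of_pos h4]
    have hM0 : 0 ≤ M := (norm_nonneg _).trans (h2 0 ⟨le_rfl, hH.le⟩)
    have hbound : ‖∫ h in (0:ℝ)..H, (Real.exp (-(τ n * h)) : ℂ) * (g n h - g0)‖ ≤
        ∫ h in (0:ℝ)..H, (ε/2 * Real.exp (-(τ n * h)) +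
          (M + ‖g0‖) * Real.exp (-(τ n * (δ/2))) * Real.exp (-(τ n / 2 * h))) := by
      apply intervalIntegral.norm_integral_le_of_norm_le hH.le
      · refine ae_of_all _ (fun h hh => ?_)
        have hh' : h ∈ Icc 0 H := ⟨hh.1.le, hh.2⟩
        rw [norm_mul, Complex.norm_real, Real.norm_eq_abs, abs_of_pos (Real.exp_pos _)]
        rcases le_total h δ with hle | hle
        · have e1 := h1 h hh' hle
          have e2 : 0 ≤ (M + ‖g0‖) * Real.exp (-(τ n * (δ/2))) * Real.exp (-(τ n / 2 * h)) := by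
            positivity
          have e3 : Real.exp (-(τ n * h)) * ‖g n h - g0‖ ≤ Real.exp (-(τ n * h)) * (ε/2) := by
            gcongr
          linarith
        · have e1 : ‖g n h - g0‖ ≤ M + ‖g0‖ := (norm_sub_le _ _).trans (by
            have := h2 h hh'
            linarith)
          have e2 := exp_split h4 hle
          have e3 : 0 ≤ ε/2 * Real.exp (-(τ n * h)) := by positivity
          calc Real.exp (-(τ n * h)) * ‖g n h - g0‖
              ≤ (Real.exp (-(τ n * (δ/2))) * Real.exp (-(τ n / 2 * h))) * (M + ‖g0‖) := by gcongr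
            _ ≤ _ := by linarith
      · apply Continuous.intervalIntegrable
        fun_prop
    have hval : ∫ h in (0:ℝ)..H, (ε/2 * Real.exp (-(τ n * h)) +
          (M + ‖g0‖) * Real.exp (-(τ n * (δ/2))) * Real.exp (-(τ n / 2 * h))) ≤
        ε/2 * (1 / τ n) + (M + ‖g0‖) * Real.exp (-(τ n * (δ/2))) * (2 / τ n) := by
      rw [intervalIntegral.integral_add (Continuous.intervalIntegrable (by fun_prop) _ _)
        (Continuous.intervalIntegrable (by fun_prop) _ _), intervalIntegral.integral_const_mul,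
        intervalIntegral.integral_const_mul, int_exp0 h4]
      have e1 : (1 - Real.exp (-(τ n * H))) / τ n ≤ 1 / τ n := by
        gcongr
        linarith [Real.exp_pos (-(τ n * H))]
      have e2 := int_exp_half h4 hH.le
      have e3 : 0 ≤ (M + ‖g0‖) * Real.exp (-(τ n * (δ/2))) := by positivity
      gcongr
    have hfin := mul_le_mul_of_nonneg_left (hbound.trans hval) h4.le
    have e : τ n * (ε/2 * (1 / τ n) + (M + ‖g0‖) * Real.exp (-(τ n * (δ/2))) * (2 / τ n)) =
        ε/2 + 2 * (M + ‖g0‖) * Real.exp (-(τ n * (δ/2))) := by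
      field_simp
    rw [e] at hfin
    linarith
  have hconst : Tendsto (fun n => (((1 - Real.exp (-(τ n * H))) : ℝ) : ℂ) * g0) atTop (𝓝 g0) := by
    have h1 := tendsto_exp_neg hτ hH 0
    have h2 : Tendsto (fun n => (1 - Real.exp (-(τ n * H)))) atTop (𝓝 1) := by
      have := h1.const_sub 1
      simpa using this
    have h3 := ((Complex.continuous_ofReal.tendsto 1).comp h2).mul_const g0
    simpa using h3
  have hsum := key.add hconst
  rw [zero_add] at hsum
  refine hsum.congr' ?_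
  filter_upwards [hg, hτ.eventually_gt_atTop 0] with n h3 h4
  have hexpc : Continuous (fun h : ℝ => (Real.exp (-(τ n * h)) : ℂ)) := by fun_prop
  have e1 : ∫ h in (0:ℝ)..H, (Real.exp (-(τ n * h)) : ℂ) * g n h =
      (∫ h in (0:ℝ)..H, (Real.exp (-(τ n * h)) : ℂ) * (g n h - g0)) +
      ∫ h in (0:ℝ)..H, (Real.exp (-(τ n * h)) : ℂ) * g0 := by
    rw [← intervalIntegral.integral_add]
    · congr 1
      ext h
      ring
    · apply ContinuousOn.intervalIntegrable
      rw [uIcc_of_le hH.le]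
      exact hexpc.continuousOn.mul (h3.sub continuousOn_const)
    · exact (hexpc.mul continuous_const).intervalIntegrable _ _
  have e2 : ∫ h in (0:ℝ)..H, (Real.exp (-(τ n * h)) : ℂ) * g0 =
      (((1 - Real.exp (-(τ n * H))) / τ n : ℝ) : ℂ) * g0 := by
    rw [intervalIntegral.integral_mul_const, intervalIntegral.integral_ofReal, int_exp0 h4]
  rw [e1, e2, mul_add]
  congr 1
  have : (τ n : ℂ) ≠ 0 := by exact_mod_cast h4.ne'
  push_cast
  field_simp

end

end Helper12.Fac
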