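import Mathlib
import Pool.Agent.Helper12.FacWat
import Pool.Agent.Helper12.FacP1

/-!
# Bounded branches: what a supporting line sees (helper12)
-/

open Filter Topology Set MeasureTheory

namespace Helper12.Fac

noncomputable section

variable {α β : ℝ → ℝ} {H : ℝ}

/-- derivative of `G` in `q` -/
def G' (a b : ℝ) (q : ℂ) : ℂ := ∫ y in a..b, Complex.I * y * Complex.exp (Complex.I * y * q)

/-- derivative of `Phi` in `q` -/
def Phi' (α β : ℝ → ℝ) (H : ℝ) (z q : ℂ) : ℂ :=
  ∫ h in (0:ℝ)..H, Complex.exp (Complex.I * h * z) * G' (α h) (β h) q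

lemma continuous_param {φ : ℝ → ℂ → ℂ} (hφ : Continuous (Function.uncurry φ)) :
    Continuous (fun p : ℝ × ℝ × ℂ => ∫ y in p.1..p.2.1, φ y p.2.2) := by
  have hcon : Continuous (Function.uncurry (fun (p : ℝ × ℝ × ℂ) (y : ℝ) => φ y p.2.2)) := by
    have : (Function.uncurry (fun (p : ℝ × ℝ × ℂ) (y : ℝ) => φ y p.2.2)) =
        (Function.uncurry φ) ∘ (fun r : (ℝ × ℝ × ℂ) × ℝ => (r.2, r.1.2.2)) := rfl
    rw [this]
    exact hφ.comp (by fun_prop)
  have h1 := intervalIntegral.continuous_parametric_intervalIntegral_of_continuous (a₀ := 0)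
    (μ := volume) hcon (s := fun p : ℝ × ℝ × ℂ => p.2.1) (by fun_prop)
  have h2 := intervalIntegral.continuous_parametric_intervalIntegral_of_continuous (a₀ := 0)
    (μ := volume) hcon (s := fun p : ℝ × ℝ × ℂ => p.1) (by fun_prop)
  have h3 := h1.sub h2
  refine h3.congr (fun p => ?_)
  have hc : Continuous (fun y => φ y p.2.2) := hφ.comp (by fun_prop : Continuous fun y : ℝ => (y, p.2.2))
  have := intervalIntegral.integral_add_adjacent_intervals (μ := volume) (hc.intervalIntegrable 0 p.1)
    (hc.intervalIntegrable p.1 p.2.1)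
  change (∫ (t : ℝ) in 0..p.2.1, φ t p.2.2) - ∫ (t : ℝ) in 0..p.1, φ t p.2.2 = _
  rw [← this]
  ring

lemma continuous_G : Continuous (fun p : ℝ × ℝ × ℂ => G p.1 p.2.1 p.2.2) :=
  continuous_param (φ := fun y q => Complex.exp (Complex.I * y * q)) (by
    unfold Function.uncurry
    fun_prop)

lemma continuous_G' : Continuous (fun p : ℝ × ℝ × ℂ => G' p.1 p.2.1 p.2.2) :=
  continuous_param (φ := fun y q => Complex.I * y * Complex.exp (Complex.I * y * q)) (by
    unfold Function.uncurry
    fun_prop)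

lemma exp_IhI (τ h : ℝ) : Complex.exp (Complex.I * h * (Complex.I * τ)) =
    (Real.exp (-(τ * h)) : ℂ) := by
  rw [Complex.ofReal_exp]
  congr 1
  push_cast
  linear_combination (h * τ : ℂ) * Complex.I_sq

/-- Watson lemma with a parameter -/
lemma watson_param {K : ℝ → ℂ → ℂ} (hH : 0 < H)
    (hK : ContinuousOn (Function.uncurry K) (Icc 0 H ×ˢ univ)) {τ : ℕ → ℝ}
    (hτ : Tendsto τ atTop atTop) {q : ℕ → ℂ} {c : ℂ} (hq : Tendsto q atTop (𝓝 c)) :
    Tendsto (fun n => (τ n : ℂ) * ∫ h in (0:ℝ)..H, Complex.exp (Complex.I * h * (Complex.I * τ n)) *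
      K h (q n)) atTop (𝓝 (K 0 c)) := by
  simp only [exp_IhI]
  -- bound
  have hcomp : IsCompact (Icc 0 H ×ˢ Metric.closedBall c 1) :=
    isCompact_Icc.prod (isCompact_closedBall c 1)
  obtain ⟨M, hM⟩ := hcomp.exists_bound_of_continuousOn
    (hK.mono (prod_mono le_rfl (subset_univ _)))
  have hqb : ∀ᶠ n in atTop, q n ∈ Metric.closedBall c 1 :=
    hq.eventually (Metric.closedBall_mem_nhds c one_pos)
  refine watson hH hτ (M := M) ?_ ?_ ?_
  · filter_upwards [hqb] with n hn h hh
    exact hM (h, q n) ⟨hh, hn⟩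
  · refine Eventually.of_forall (fun n => ?_)
    have h1 : ContinuousOn (fun h : ℝ => (h, q n)) (Icc 0 H) := by fun_prop
    exact hK.comp h1 (fun h hh => ⟨hh, mem_univ _⟩)
  · intro ε hε
    have h0 : ((0:ℝ), c) ∈ Icc 0 H ×ˢ (univ : Set ℂ) := ⟨⟨le_rfl, hH.le⟩, mem_univ _⟩
    have h1 := hK _ h0
    rw [Metric.continuousWithinAt_iff] at h1
    obtain ⟨δ, hδ, hδ'⟩ := h1 ε hε
    refine ⟨δ/2, half_pos hδ, ?_⟩
    filter_upwards [hq.eventually (Metric.ball_mem_nhds c hδ)] with n hn h hh hhδ
    have h2 := hδ' (x := (h, q n)) ⟨hh, mem_univ _⟩ (by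
      rw [Prod.dist_eq]
      apply max_lt
      · simp only
        rw [Real.dist_eq, sub_zero, abs_of_nonneg hh.1]
        linarith
      · exact hn)
    rw [dist_eq_norm] at h2
    exact h2.le

lemma SliceData.contK (S : SliceData α β H) {Γ : ℝ × ℝ × ℂ → ℂ} (hΓ : Continuous Γ) :
    ContinuousOn (Function.uncurry (fun (h : ℝ) (q : ℂ) => Γ (α h, β h, q)))
      (Icc 0 H ×ˢ univ) := by
  have h1 : ContinuousOn (fun p : ℝ × ℂ => (α p.1, β p.1, p.2)) (Icc 0 H ×ˢ univ) := by
    refine ContinuousOn.prodMk ?_ (ContinuousOn.prodMk ?_ continuousOn_snd)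
    · exact S.hac.comp continuousOn_fst (fun p hp => hp.1)
    · exact S.hbc.comp continuousOn_fst (fun p hp => hp.1)
  exact hΓ.comp_continuousOn h1

lemma watson_Phi (S : SliceData α β H) {τ : ℕ → ℝ}
    (hτ : Tendsto τ atTop atTop) {q : ℕ → ℂ} {c : ℂ} (hq : Tendsto q atTop (𝓝 c)) :
    Tendsto (fun n => (τ n : ℂ) * Phi α β H (Complex.I * τ n) (q n)) atTop
      (𝓝 (G (α 0) (β 0) c)) :=
  watson_param (K := fun h q => G (α h) (β h) q) S.hH (S.contK continuous_G) hτ hq

lemma watson_Phi' (S : SliceData α β H) {τ : ℕ → ℝ}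
    (hτ : Tendsto τ atTop atTop) {q : ℕ → ℂ} {c : ℂ} (hq : Tendsto q atTop (𝓝 c)) :
    Tendsto (fun n => (τ n : ℂ) * Phi' α β H (Complex.I * τ n) (q n)) atTop
      (𝓝 (G' (α 0) (β 0) c)) :=
  watson_param (K := fun h q => G' (α h) (β h) q) S.hH (S.contK continuous_G') hτ hq

/-- the value of the derivative -/
lemma G'_eq {a b : ℝ} {c : ℂ} (hc : c ≠ 0) (h0 : G a b c = 0) :
    G' a b c = (b - a : ℝ) * Complex.exp (Complex.I * a * c) / c := by
  have hd : ∀ x ∈ uIcc a b, HasDerivAt (fun y : ℝ => (y : ℂ) / c * Complex.exp (Complex.I * y * c))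
      (1 / c * Complex.exp (Complex.I * x * c) +
        Complex.I * x * Complex.exp (Complex.I * x * c)) x := by
    intro x _
    have h1 : HasDerivAt (fun y : ℝ => (y : ℂ)) 1 x := Complex.ofRealCLM.hasDerivAt
    have h2 := h1.div_const c
    have h3 := ((h1.const_mul Complex.I).mul_const c).cexp
    refine (h2.mul h3).congr_deriv ?_
    field_simp
  have h1 := intervalIntegral.integral_eq_sub_of_hasDerivAt hd
    (Continuous.intervalIntegrable (by fun_prop) _ _)
  rw [intervalIntegral.integral_add (Continuous.intervalIntegrable (by fun_prop) _ _)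
    (Continuous.intervalIntegrable (by fun_prop) _ _), intervalIntegral.integral_const_mul] at h1
  have h2 : ∫ y in a..b, Complex.exp (Complex.I * y * c) = 0 := h0
  have h3 : ∫ y in a..b, Complex.I * y * Complex.exp (Complex.I * y * c) = G' a b c := rfl
  rw [h2, h3, mul_zero, zero_add] at h1
  have h4 := G_mul a b hc
  rw [h0, mul_zero] at h4
  have h5 : Complex.exp (Complex.I * b * c) = Complex.exp (Complex.I * a * c) := by
    linear_combination -h4
  rw [h1, h5]
  push_cast
  field_simp

/-- second order estimate -/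
lemma Phi_taylor (S : SliceData α β H) (B : ℝ) : ∃ C : ℝ, 0 ≤ C ∧ ∀ τ : ℝ, 0 < τ → ∀ q q' : ℂ,
    ‖q'‖ ≤ B → ‖q - q'‖ ≤ 1 →
    ‖Phi α β H (Complex.I * τ) q - Phi α β H (Complex.I * τ) q' -
      (q - q') * Phi' α β H (Complex.I * τ) q'‖ ≤ C * ‖q - q'‖ ^ 2 / τ := by
  obtain ⟨Ma, hMa⟩ := isCompact_Icc.exists_bound_of_continuousOn S.hac
  obtain ⟨Mb, hMb⟩ := isCompact_Icc.exists_bound_of_continuousOn S.hbc
  set Y : ℝ := max Ma Mb with hY
  have hY0 : 0 ≤ Y := (norm_nonneg _).trans ((hMa 0 S.zero_mem).trans (le_max_left _ _))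
  have hYa : ∀ h ∈ Icc 0 H, |α h| ≤ Y := fun h hh => (hMa h hh).trans (le_max_left _ _)
  have hYb : ∀ h ∈ Icc 0 H, |β h| ≤ Y := fun h hh => (hMb h hh).trans (le_max_right _ _)
  refine ⟨Real.exp (Y * |B|) * (Y ^ 2 * Real.exp Y) * (2 * Y), by positivity, ?_⟩
  intro τ hτ q q' hq' hqq
  have hcontG : ∀ q : ℂ, ContinuousOn (fun h => G (α h) (β h) q) (Icc 0 H) := by
    intro q
    have h1 : ContinuousOn (fun h : ℝ => (h, q)) (Icc 0 H) := by fun_prop
    exact (S.contK continuous_G).comp h1 (fun h hh => ⟨hh, mem_univ _⟩)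
  have hcontG' : ∀ q : ℂ, ContinuousOn (fun h => G' (α h) (β h) q) (Icc 0 H) := by
    intro q
    have h1 : ContinuousOn (fun h : ℝ => (h, q)) (Icc 0 H) := by fun_prop
    exact (S.contK continuous_G').comp h1 (fun h hh => ⟨hh, mem_univ _⟩)
  have hexpc : ContinuousOn (fun h : ℝ => Complex.exp (Complex.I * h * (Complex.I * τ)))
      (Icc 0 H) := by fun_prop
  have hint : ∀ {g : ℝ → ℂ}, ContinuousOn g (Icc 0 H) → IntervalIntegrable g volume 0 H := by
    intro g hg
    apply ContinuousOn.intervalIntegrable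
    rwa [uIcc_of_le S.hH.le]
  have hid : Phi α β H (Complex.I * τ) q - Phi α β H (Complex.I * τ) q' -
      (q - q') * Phi' α β H (Complex.I * τ) q' =
      ∫ h in (0:ℝ)..H, Complex.exp (Complex.I * h * (Complex.I * τ)) *
        (G (α h) (β h) q - G (α h) (β h) q' - (q - q') * G' (α h) (β h) q') := by
    have i1 : IntervalIntegrable (fun h : ℝ => Complex.exp (Complex.I * h * (Complex.I * τ)) *
        G (α h) (β h) q) volume 0 H := hint (hexpc.mul (hcontG q))
    have i2 : IntervalIntegrable (fun h : ℝ => Complex.exp (Complex.I * h * (Complex.I * τ)) *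
        G (α h) (β h) q') volume 0 H := hint (hexpc.mul (hcontG q'))
    have i3 : IntervalIntegrable (fun h : ℝ => (q - q') *
        (Complex.exp (Complex.I * h * (Complex.I * τ)) * G' (α h) (β h) q')) volume 0 H :=
      hint (continuousOn_const.mul (hexpc.mul (hcontG' q')))
    rw [Phi, Phi, Phi', ← intervalIntegral.integral_const_mul, ← intervalIntegral.integral_sub
      i1 i2, ← intervalIntegral.integral_sub (i1.sub i2) i3]
    congr 1
    ext h
    ring
  have hpt : ∀ h ∈ Icc 0 H, ‖G (α h) (β h) q - G (α h) (β h) q' -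
      (q - q') * G' (α h) (β h) q'‖ ≤
      Real.exp (Y * |B|) * (Y ^ 2 * Real.exp Y) * (2 * Y) * ‖q - q'‖ ^ 2 := by
    intro h hh
    have e1 : G (α h) (β h) q - G (α h) (β h) q' - (q - q') * G' (α h) (β h) q' =
        ∫ y in (α h)..(β h), Complex.exp (Complex.I * y * q') *
          (Complex.exp (Complex.I * y * (q - q')) - 1 - Complex.I * y * (q - q')) := by
      rw [G, G, G', ← intervalIntegral.integral_const_mul, ← intervalIntegral.integral_sub
        (Continuous.intervalIntegrable (by fun_prop) _ _)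
        (Continuous.intervalIntegrable (by fun_prop) _ _),
        ← intervalIntegral.integral_sub (Continuous.intervalIntegrable (by fun_prop) _ _)
        (Continuous.intervalIntegrable (by fun_prop) _ _)]
      congr 1
      ext y
      have : Complex.exp (Complex.I * y * q) = Complex.exp (Complex.I * y * q') *
          Complex.exp (Complex.I * y * (q - q')) := by
        rw [← Complex.exp_add]
        congr 1
        ring
      rw [this]
      ring
    rw [e1]
    have hle := S.le hh
    have h2 := intervalIntegral.norm_integral_le_of_norm_le_const (a := α h) (b := β h)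
      (f := fun y : ℝ => Complex.exp (Complex.I * y * q') *
          (Complex.exp (Complex.I * y * (q - q')) - 1 - Complex.I * y * (q - q')))
      (C := Real.exp (Y * |B|) * (Y ^ 2 * Real.exp Y) * ‖q - q'‖ ^ 2) (by
        intro y hy
        rw [uIoc_of_le hle] at hy
        have hy2 : |y| ≤ Y := by
          have ha := hYa h hh
          have hb := hYb h hh
          rw [abs_le] at *
          constructor <;> linarith [hy.1, hy.2]
        have f1 : ‖Complex.exp (Complex.I * y * q')‖ ≤ Real.exp (Y * |B|) := by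
          rw [Complex.norm_exp]
          apply Real.exp_le_exp.2
          calc (Complex.I * y * q').re ≤ ‖Complex.I * y * q'‖ := Complex.re_le_norm _
            _ = |y| * ‖q'‖ := by simp
            _ ≤ Y * |B| := by
              gcongr
              exact hq'.trans (le_abs_self B)
        have f2 : ‖Complex.exp (Complex.I * y * (q - q')) - 1 - Complex.I * y * (q - q')‖ ≤
            (Y ^ 2 * Real.exp Y) * ‖q - q'‖ ^ 2 := by
          have f3 := Complex.norm_exp_sub_sum_le_norm_mul_exp (Complex.I * y * (q - q')) 2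
          have f4 : ∑ m ∈ Finset.range 2, (Complex.I * y * (q - q')) ^ m / (m.factorial : ℂ) =
              1 + Complex.I * y * (q - q') := by
            rw [Finset.sum_range_succ, Finset.sum_range_succ, Finset.sum_range_zero]
            simp
          rw [f4] at f3
          have f5 : ‖Complex.I * y * (q - q')‖ ≤ Y * ‖q - q'‖ := by
            rw [norm_mul, norm_mul, Complex.norm_I, one_mul, Complex.norm_real, Real.norm_eq_abs]
            gcongr
          have f6 : ‖Complex.I * y * (q - q')‖ ≤ Y := f5.trans (by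
            calc Y * ‖q - q'‖ ≤ Y * 1 := by gcongr
              _ = Y := mul_one _)
          calc ‖Complex.exp (Complex.I * y * (q - q')) - 1 - Complex.I * y * (q - q')‖
              = ‖Complex.exp (Complex.I * y * (q - q')) - (1 + Complex.I * y * (q - q'))‖ := by
                congr 1
                ring
            _ ≤ ‖Complex.I * y * (q - q')‖ ^ 2 * Real.exp ‖Complex.I * y * (q - q')‖ := f3
            _ ≤ (Y * ‖q - q'‖) ^ 2 * Real.exp Y := by gcongr
            _ = _ := by ring
        rw [norm_mul]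
        calc _ ≤ Real.exp (Y * |B|) * ((Y ^ 2 * Real.exp Y) * ‖q - q'‖ ^ 2) := by gcongr
          _ = _ := by ring)
    refine h2.trans ?_
    have h3 : |β h - α h| ≤ 2 * Y := by
      have ha := hYa h hh
      have hb := hYb h hh
      rw [abs_le] at *
      constructor <;> linarith
    calc Real.exp (Y * |B|) * (Y ^ 2 * Real.exp Y) * ‖q - q'‖ ^ 2 * |β h - α h|
        ≤ Real.exp (Y * |B|) * (Y ^ 2 * Real.exp Y) * ‖q - q'‖ ^ 2 * (2 * Y) := by gcongr
      _ = _ := by ring
  rw [hid]
  have h1 := intervalIntegral.norm_integral_le_of_norm_le (μ := volume)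
    (f := fun h : ℝ => Complex.exp (Complex.I * h * (Complex.I * τ)) *
        (G (α h) (β h) q - G (α h) (β h) q' - (q - q') * G' (α h) (β h) q'))
    (g := fun h => (Real.exp (Y * |B|) * (Y ^ 2 * Real.exp Y) * (2 * Y) * ‖q - q'‖ ^ 2) *
      Real.exp (-(τ * h))) S.hH.le
    (ae_of_all _ (fun h hh => by
      rw [norm_mul, exp_IhI, Complex.norm_real, Real.norm_eq_abs, abs_of_pos (Real.exp_pos _),
        mul_comm]
      have := hpt h ⟨hh.1.le, hh.2⟩
      gcongr))
    (Continuous.intervalIntegrable (by fun_prop) _ _)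
  rw [intervalIntegral.integral_const_mul, int_exp0 hτ] at h1
  refine h1.trans ?_
  have h2 : (1 - Real.exp (-(τ * H))) / τ ≤ 1 / τ := by
    gcongr
    linarith [Real.exp_pos (-(τ * H))]
  calc _ ≤ Real.exp (Y * |B|) * (Y ^ 2 * Real.exp Y) * (2 * Y) * ‖q - q'‖ ^ 2 * (1 / τ) := by
        gcongr
    _ = _ := by ring

end

end Helper12.Fac
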