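import Mathlib
import Pool.Agent.Helper12.FacTop

/-!
# Bounded branches: the supporting face is a segment (helper12)
-/

open Filter Topology Set MeasureTheory

namespace Helper12.Fac

noncomputable section

variable {α β : ℝ → ℝ} {H : ℝ}

/-- the supporting face is nondegenerate -/
lemma face_pos (S : SliceData α β H) {τ : ℕ → ℝ} (hτ : Tendsto τ atTop atTop) {q : ℕ → ℂ} {c : ℂ}
    (hq : Tendsto q atTop (𝓝 c))
    (h0 : ∀ᶠ n in atTop, Phi α β H (Complex.I * τ n) (q n) = 0) : α 0 < β 0 := by
  have hH := S.hH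
  by_contra hcon
  have hαβ : β 0 = α 0 := le_antisymm (not_lt.1 hcon) (S.le S.zero_mem)
  set e0 : ℂ := Complex.exp (-(Complex.I * α 0 * c)) with he0
  -- neighbourhood where the exponential is close to one
  have hψ : ContinuousAt (fun p : ℝ × ℂ => (Complex.exp (Complex.I * p.1 * p.2) * e0).re)
      (α 0, c) := by fun_prop
  have hψ1 : (1:ℝ)/2 < (Complex.exp (Complex.I * α 0 * c) * e0).re := by
    rw [he0, ← Complex.exp_add, add_neg_cancel, Complex.exp_zero, Complex.one_re]
    norm_num
  obtain ⟨δ1, hδ1, hδ1'⟩ := Metric.mem_nhds_iff.1 (hψ.eventually (lt_mem_nhds hψ1))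
  have hca : ContinuousWithinAt α (Icc 0 H) 0 := S.hac 0 S.zero_mem
  have hcb : ContinuousWithinAt β (Icc 0 H) 0 := S.hbc 0 S.zero_mem
  rw [Metric.continuousWithinAt_iff] at hca hcb
  obtain ⟨δa, hδa, hδa'⟩ := hca δ1 hδ1
  obtain ⟨δb, hδb, hδb'⟩ := hcb δ1 hδ1
  set δ : ℝ := min δa δb / 2 with hδdef
  have hδ : 0 < δ := by
    have := lt_min hδa hδb
    positivity
  -- uniform bound
  have hcomp : IsCompact (Icc 0 H ×ˢ Metric.closedBall c 1) :=
    isCompact_Icc.prod (isCompact_closedBall c 1)
  obtain ⟨M, hM⟩ := hcomp.exists_bound_of_continuousOn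
    ((S.contK continuous_G).mono (prod_mono le_rfl (subset_univ _)))
  obtain ⟨M2, hM2⟩ := isCompact_Icc.exists_bound_of_continuousOn S.len_cont
  have hM0 : 0 ≤ M := (norm_nonneg _).trans (hM (0, c) ⟨S.zero_mem, by simp⟩)
  have hM20 : 0 ≤ M2 := (norm_nonneg _).trans (hM2 0 S.zero_mem)
  have hcl : ∀ h ∈ Icc 0 H, 0 ≤ β h - α h := fun h hh => sub_nonneg.2 (S.le hh)
  set M' : ℝ := M * ‖e0‖ + M2 with hM'
  have hmid : H / 2 ∈ Ioo 0 H := ⟨by linarith, by linarith⟩
  have hlmid : 0 < β (H/2) - α (H/2) := sub_pos.2 (S.hlt _ hmid)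
  -- eventually contradiction
  have hsm : Tendsto (fun n => 2 * M' * (τ n ^ 1 * Real.exp (-(τ n * (δ/2))))) atTop (𝓝 0) := by
    have := (tendsto_exp_neg hτ (half_pos hδ) 1).const_mul (2 * M')
    rwa [mul_zero] at this
  have hpos : 0 < (β (H/2) - α (H/2)) / (16 * H) := by positivity
  have hqb : ∀ᶠ n in atTop, q n ∈ Metric.closedBall c 1 :=
    hq.eventually (Metric.closedBall_mem_nhds c one_pos)
  obtain ⟨n, hn0, hn1, hn2, hn3, hn4⟩ := (h0.and ((hsm.eventually (gt_mem_nhds hpos)).and
    ((hτ.eventually_ge_atTop (4 / H)).and ((hq.eventually (Metric.ball_mem_nhds c hδ1)).and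
      hqb)))).exists
  have hτH : 4 ≤ τ n * H := by
    rwa [div_le_iff₀ hH] at hn2
  have hτ0 : 0 < τ n := lt_of_lt_of_le (by positivity) hn2
  -- real part computation
  have hcontG : ContinuousOn (fun h => G (α h) (β h) (q n)) (Icc 0 H) := by
    have h1 : ContinuousOn (fun h : ℝ => (h, q n)) (Icc 0 H) := by fun_prop
    exact (S.contK continuous_G).comp h1 (fun h hh => ⟨hh, mem_univ _⟩)
  have hEG : ContinuousOn (fun h : ℝ => Complex.exp (Complex.I * h * (Complex.I * τ n)) *
      G (α h) (β h) (q n) * e0) (Icc 0 H) :=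
    (ContinuousOn.mul (by fun_prop) hcontG).mul continuousOn_const
  have hre : (Phi α β H (Complex.I * τ n) (q n) * e0).re =
      ∫ h in (0:ℝ)..H, (Complex.exp (Complex.I * h * (Complex.I * τ n)) *
      G (α h) (β h) (q n) * e0).re := by
    rw [← re_int hH.le hEG, Phi, intervalIntegral.integral_mul_const]
  rw [hn0, zero_mul, Complex.zero_re] at hre
  have hpt : ∀ h ∈ Icc 0 H, (1/2) * (Real.exp (-(τ n * h)) * (β h - α h)) -
      M' * Real.exp (-(τ n * (δ/2))) * Real.exp (-(τ n / 2 * h)) ≤
      (Complex.exp (Complex.I * h * (Complex.I * τ n)) * G (α h) (β h) (q n) * e0).re := by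
    intro h hh
    rw [exp_IhI, mul_assoc ((Real.exp (-(τ n * h)) : ℝ) : ℂ), Complex.re_ofReal_mul]
    have hexp := Real.exp_pos (-(τ n * h))
    rcases le_total h δ with hle | hle
    · have hG : (1/2) * (β h - α h) ≤ (G (α h) (β h) (q n) * e0).re := by
        have e1 : G (α h) (β h) (q n) * e0 =
            ∫ y in (α h)..(β h), Complex.exp (Complex.I * y * q n) * e0 := by
          rw [G, intervalIntegral.integral_mul_const]
        have e2 : (G (α h) (β h) (q n) * e0).re =
            ∫ y in (α h)..(β h), (Complex.exp (Complex.I * y * q n) * e0).re := by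
          rw [e1]
          exact (Complex.reCLM.intervalIntegral_comp_comm
            (Continuous.intervalIntegrable (by fun_prop) _ _)).symm
        rw [e2]
        have e3 : ∫ y in (α h)..(β h), (1/2 : ℝ) ≤
            ∫ y in (α h)..(β h), (Complex.exp (Complex.I * y * q n) * e0).re := by
          apply intervalIntegral.integral_mono_on (S.le hh) (by simp)
            (Continuous.intervalIntegrable (by fun_prop) _ _)
          intro y hy
          have ha := hδa' hh (by
            rw [Real.dist_eq, sub_zero, abs_of_nonneg hh.1]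
            have := min_le_left δa δb
            linarith)
          have hb := hδb' hh (by
            rw [Real.dist_eq, sub_zero, abs_of_nonneg hh.1]
            have := min_le_right δa δb
            linarith)
          rw [Real.dist_eq, abs_lt] at ha hb
          rw [hαβ] at hb
          have := hδ1' (show (y, q n) ∈ Metric.ball (α 0, c) δ1 by
            rw [Metric.mem_ball, Prod.dist_eq]
            apply max_lt
            · simp only
              rw [Real.dist_eq, abs_lt]
              constructor <;> linarith [hy.1, hy.2]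
            · exact hn3)
          exact (le_of_lt this)
        rw [intervalIntegral.integral_const, smul_eq_mul] at e3
        linarith
      have e4 : 0 ≤ M' * Real.exp (-(τ n * (δ/2))) * Real.exp (-(τ n / 2 * h)) := by positivity
      have e5 := mul_le_mul_of_nonneg_left hG hexp.le
      linarith
    · have e1 := exp_split hτ0 hle
      have e2 : -(M * ‖e0‖) ≤ (G (α h) (β h) (q n) * e0).re := by
        have e3 : ‖G (α h) (β h) (q n) * e0‖ ≤ M * ‖e0‖ := by
          rw [norm_mul]
          have := hM (h, q n) ⟨hh, hn4⟩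
          gcongr
          exact this
        have e4 := Complex.abs_re_le_norm (G (α h) (β h) (q n) * e0)
        rw [abs_le] at e4
        linarith [e4.1]
      have e3 : β h - α h ≤ M2 := (le_abs_self _).trans (hM2 h hh)
      have e4 : Real.exp (-(τ n * h)) * M' ≤
          M' * Real.exp (-(τ n * (δ/2))) * Real.exp (-(τ n / 2 * h)) := by
        have : 0 ≤ M' := by positivity
        calc Real.exp (-(τ n * h)) * M' ≤
            (Real.exp (-(τ n * (δ/2))) * Real.exp (-(τ n / 2 * h))) * M' := by gcongr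
          _ = _ := by ring
      have e5 := mul_le_mul_of_nonneg_left e2 hexp.le
      have e6 := mul_le_mul_of_nonneg_left e3 hexp.le
      have e7 := hcl h hh
      have e8 := mul_nonneg hexp.le e7
      rw [hM'] at e4
      nlinarith
  have hlenc : ContinuousOn (fun h => Real.exp (-(τ n * h)) * (β h - α h)) (Icc 0 H) :=
    ContinuousOn.mul (by fun_prop) S.len_cont
  have hmono : ∫ h in (0:ℝ)..H, ((1/2) * (Real.exp (-(τ n * h)) * (β h - α h)) -
      M' * Real.exp (-(τ n * (δ/2))) * Real.exp (-(τ n / 2 * h))) ≤ 0 := by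
    refine le_trans ?_ hre.symm.le
    apply intervalIntegral.integral_mono_on hH.le
    · apply ContinuousOn.intervalIntegrable
      rw [uIcc_of_le hH.le]
      exact (continuousOn_const.mul hlenc).sub (by fun_prop)
    · apply ContinuousOn.intervalIntegrable
      rw [uIcc_of_le hH.le]
      exact Complex.continuous_re.comp_continuousOn hEG
    · exact hpt
  rw [intervalIntegral.integral_sub (by
      apply ContinuousOn.intervalIntegrable
      rw [uIcc_of_le hH.le]
      exact continuousOn_const.mul hlenc) (Continuous.intervalIntegrable (by fun_prop) _ _),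
    intervalIntegral.integral_const_mul, intervalIntegral.integral_const_mul] at hmono
  -- lower bound of the main integral
  have hτinv : 0 < 1 / τ n := by positivity
  have h4 : 4 * (1 / τ n) ≤ H := by
    rw [mul_one_div, div_le_iff₀ hτ0]
    linarith
  have hL : 2 / (H * τ n) * (β (H/2) - α (H/2)) ≤ β (1/τ n) - α (1/τ n) := by
    have hk := S.len_concave.2 S.zero_mem (Ioo_subset_Icc_self hmid)
      (show 0 ≤ 1 - 2 / (H * τ n) by
        rw [sub_nonneg, div_le_one (by positivity)]
        linarith)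
      (show 0 ≤ 2 / (H * τ n) by positivity) (by ring)
    simp only [smul_eq_mul, mul_zero, zero_add] at hk
    have e1 : 2 / (H * τ n) * (H / 2) = 1 / τ n := by field_simp
    rw [e1] at hk
    have e2 : 0 ≤ (1 - 2 / (H * τ n)) * (β 0 - α 0) := by
      rw [hαβ, sub_self, mul_zero]
    linarith
  have hI1 : (1/8 * ((2 / (H * τ n) * (β (H/2) - α (H/2))) / 2)) * (1 / τ n) ≤
      ∫ h in (0:ℝ)..H, Real.exp (-(τ n * h)) * (β h - α h) := by
    apply int_ge_of hτinv (by linarith) hlenc
    · intro h hh
      have := hcl h hh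
      positivity
    · intro h hh
      have hh2 := len_lower hH S.len_concave hcl hτinv h4 h hh
      have h3 : 1/8 ≤ Real.exp (-(τ n * h)) := by
        refine exp_two_le.trans (Real.exp_le_exp.2 ?_)
        have := hh.2
        have h4 : τ n * h ≤ τ n * (2 * (1/τ n)) := by gcongr
        have h5 : τ n * (2 * (1/τ n)) = 2 := by field_simp
        linarith
      have h4 : (2 / (H * τ n) * (β (H/2) - α (H/2))) / 2 ≤ β h - α h := by linarith
      have h5 : 0 ≤ (2 / (H * τ n) * (β (H/2) - α (H/2))) / 2 := by positivity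
      gcongr
  have hI2 : ∫ h in (0:ℝ)..H, Real.exp (-(τ n / 2 * h)) ≤ 2 / τ n := int_exp_half hτ0 hH.le
  have hI3 : M' * Real.exp (-(τ n * (δ/2))) * ∫ h in (0:ℝ)..H, Real.exp (-(τ n / 2 * h)) ≤
      M' * Real.exp (-(τ n * (δ/2))) * (2 / τ n) := by
    have : 0 ≤ M' * Real.exp (-(τ n * (δ/2))) := by positivity
    gcongr
  have hfin : (1/2) * ((1/8 * ((2 / (H * τ n) * (β (H/2) - α (H/2))) / 2)) * (1 / τ n)) ≤
      M' * Real.exp (-(τ n * (δ/2))) * (2 / τ n) := by linarith
  have hfin2 := mul_le_mul_of_nonneg_left hfin (show 0 ≤ τ n ^ 2 by positivity)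
  have e1 : τ n ^ 2 * ((1/2) * ((1/8 * ((2 / (H * τ n) * (β (H/2) - α (H/2))) / 2)) * (1 / τ n))) =
      (β (H/2) - α (H/2)) / (16 * H) := by
    field_simp
    norm_num
  have e2 : τ n ^ 2 * (M' * Real.exp (-(τ n * (δ/2))) * (2 / τ n)) =
      2 * M' * (τ n ^ 1 * Real.exp (-(τ n * (δ/2)))) := by
    field_simp
  rw [e1, e2] at hfin2
  linarith

/-- consequences of vanishing at the face -/
lemma face_data (S : SliceData α β H) {τ : ℕ → ℝ} (hτ : Tendsto τ atTop atTop) {q : ℕ → ℂ} {c : ℂ}
    (hq : Tendsto q atTop (𝓝 c))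
    (h0 : ∀ᶠ n in atTop, Phi α β H (Complex.I * τ n) (q n) = 0) :
    c ≠ 0 ∧ c.im = 0 ∧ Complex.exp (Complex.I * (β 0 - α 0 : ℝ) * c) = 1 ∧
      G (α 0) (β 0) c = 0 ∧ G' (α 0) (β 0) c ≠ 0 := by
  have hpos := face_pos S hτ hq h0
  have hG : G (α 0) (β 0) c = 0 := by
    refine tendsto_nhds_unique (watson_Phi S hτ hq) ?_
    refine Tendsto.congr' ?_ tendsto_const_nhds
    filter_upwards [h0] with n hn
    rw [hn, mul_zero]
  have hc : c ≠ 0 := by
    rintro rfl
    rw [G_zero] at hG
    have : β 0 - α 0 = 0 := by exact_mod_cast hG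
    linarith
  have h1 := G_mul (α 0) (β 0) hc
  rw [hG, mul_zero] at h1
  have h2 : Complex.exp (Complex.I * β 0 * c) = Complex.exp (Complex.I * α 0 * c) := by
    linear_combination -h1
  have h3 : Complex.exp (Complex.I * (β 0 - α 0 : ℝ) * c) = 1 := by
    have e : Complex.I * (β 0 - α 0 : ℝ) * c = Complex.I * β 0 * c - Complex.I * α 0 * c := by
      push_cast
      ring
    rw [e, Complex.exp_sub, h2, div_self (Complex.exp_ne_zero _)]
  refine ⟨hc, ?_, h3, hG, ?_⟩
  · have h4 := congrArg norm h3
    rw [Complex.norm_exp, norm_one, Real.exp_eq_one_iff] at h4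
    have e : (Complex.I * (β 0 - α 0 : ℝ) * c).re = -((β 0 - α 0) * c.im) := by
      rw [mul_assoc, Complex.I_mul_re, Complex.im_ofReal_mul]
    rw [e] at h4
    have h5 : (β 0 - α 0) * c.im = 0 := by linarith
    rcases mul_eq_zero.1 h5 with h6 | h6
    · linarith
    · exact h6
  · rw [G'_eq hc hG]
    refine div_ne_zero (mul_ne_zero ?_ (Complex.exp_ne_zero _)) hc
    have : β 0 - α 0 ≠ 0 := by linarith
    exact_mod_cast this

end

end Helper12.Fac
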