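import Mathlib
import Pool.Agent.Helper12.FacTop2

/-!
# Bounded branches: first order comparison with the chord length (helper12)
-/

open Filter Topology Set MeasureTheory

namespace Helper12.Fac

noncomputable section

variable {α β : ℝ → ℝ} {H : ℝ}

/-- sign structure of a concave function near the left end point -/
lemma sign_near {ℓ : ℝ → ℝ} (hH : 0 < H) (hc : ConcaveOn ℝ (Icc 0 H) ℓ) :
    ∃ h1 ∈ Ioc 0 H, ∃ s : ℝ, |s| = 1 ∧ ∀ h ∈ Icc 0 H, h ≤ h1 → 0 ≤ s * (ℓ h - ℓ 0) := by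
  by_cases hex : ∃ h1 ∈ Ioc 0 H, ℓ 0 ≤ ℓ h1
  · obtain ⟨h1, hh1, hle⟩ := hex
    refine ⟨h1, hh1, 1, by simp, fun h hh hhh => ?_⟩
    rw [one_mul, sub_nonneg]
    have hh1' : h1 ∈ Icc 0 H := ⟨hh1.1.le, hh1.2⟩
    have hk := hc.2 (⟨le_rfl, hH.le⟩ : (0:ℝ) ∈ Icc 0 H) hh1'
      (show 0 ≤ 1 - h / h1 by rw [sub_nonneg, div_le_one hh1.1]; exact hhh)
      (show 0 ≤ h / h1 from div_nonneg hh.1 hh1.1.le) (by ring)
    simp only [smul_eq_mul, mul_zero, zero_add] at hk
    rw [div_mul_cancel₀ _ hh1.1.ne'] at hk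
    have h2 : 0 ≤ h / h1 := div_nonneg hh.1 hh1.1.le
    have h3 : h / h1 * ℓ 0 ≤ h / h1 * ℓ h1 := mul_le_mul_of_nonneg_left hle h2
    linarith
  · push Not at hex
    refine ⟨H, ⟨hH, le_rfl⟩, -1, by simp, fun h hh _ => ?_⟩
    rcases hh.1.eq_or_lt with h0 | h0
    · rw [← h0]
      simp
    · have := hex h ⟨h0, hh.2⟩
      linarith

/-- auxiliary phase -/
def xf (α β : ℝ → ℝ) (c : ℂ) (h : ℝ) (q : ℂ) : ℂ :=
  ((β h - α h - (β 0 - α 0) : ℝ) : ℂ) * c + ((β h - α h : ℝ) : ℂ) * (q - c)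

/-- auxiliary factor -/
def yf (α : ℝ → ℝ) (c : ℂ) (h : ℝ) (q : ℂ) : ℂ :=
  Complex.exp (Complex.I * ((α h : ℂ) * q - α 0 * c))

/-- auxiliary error function -/
def etaf (x y : ℂ) : ℝ := (‖y - 1‖ + ‖x‖) * Real.exp ‖x‖

lemma etaf_nonneg (x y : ℂ) : 0 ≤ etaf x y := by unfold etaf; positivity

lemma R_le (x y : ℂ) : ‖y * (Complex.exp (Complex.I * x) - 1) - Complex.I * x‖ ≤
    etaf x y * ‖x‖ := by
  have e1 : y * (Complex.exp (Complex.I * x) - 1) - Complex.I * x =
      (y - 1) * (Complex.exp (Complex.I * x) - 1) +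
      (Complex.exp (Complex.I * x) - 1 - Complex.I * x) := by ring
  have n1 : ‖Complex.I * x‖ = ‖x‖ := by rw [norm_mul, Complex.norm_I, one_mul]
  have e2 : ‖Complex.exp (Complex.I * x) - 1‖ ≤ ‖x‖ * Real.exp ‖x‖ := by
    have := Complex.norm_exp_sub_sum_le_norm_mul_exp (Complex.I * x) 1
    rw [n1] at this
    simpa using this
  have e3 : ‖Complex.exp (Complex.I * x) - 1 - Complex.I * x‖ ≤
      ‖x‖ ^ 2 * Real.exp ‖x‖ := by
    have := Complex.norm_exp_sub_sum_le_norm_mul_exp (Complex.I * x) 2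
    rw [n1] at this
    have f4 : ∑ m ∈ Finset.range 2, (Complex.I * x) ^ m / (m.factorial : ℂ) =
        1 + Complex.I * x := by
      rw [Finset.sum_range_succ, Finset.sum_range_succ, Finset.sum_range_zero]
      simp
    rw [f4] at this
    rwa [← sub_sub] at this
  rw [e1]
  calc _ ≤ ‖y - 1‖ * (‖x‖ * Real.exp ‖x‖) + ‖x‖ ^ 2 * Real.exp ‖x‖ := by
        refine (norm_add_le _ _).trans (add_le_add ?_ e3)
        rw [norm_mul]
        gcongr
    _ = etaf x y * ‖x‖ := by
        rw [etaf]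
        ring

lemma SliceData.cont_len2 (S : SliceData α β H) :
    ContinuousOn (fun p : ℝ × ℂ => ((β p.1 - α p.1 : ℝ) : ℂ)) (Icc 0 H ×ˢ univ) :=
  Complex.continuous_ofReal.comp_continuousOn
    (S.len_cont.comp continuousOn_fst (fun _ hp => hp.1))

lemma SliceData.cont_xf (S : SliceData α β H) (c : ℂ) :
    ContinuousOn (fun p : ℝ × ℂ => xf α β c p.1 p.2) (Icc 0 H ×ˢ univ) := by
  have e : (fun p : ℝ × ℂ => xf α β c p.1 p.2) = fun p : ℝ × ℂ =>
      (((β p.1 - α p.1 : ℝ) : ℂ) - ((β 0 - α 0 : ℝ) : ℂ)) * c +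
        ((β p.1 - α p.1 : ℝ) : ℂ) * (p.2 - c) := by
    ext p
    rw [xf]
    push_cast
    ring
  rw [e]
  exact ((S.cont_len2.sub continuousOn_const).mul continuousOn_const).add
    (S.cont_len2.mul (continuousOn_snd.sub continuousOn_const))

lemma SliceData.cont_yf (S : SliceData α β H) (c : ℂ) :
    ContinuousOn (fun p : ℝ × ℂ => yf α c p.1 p.2) (Icc 0 H ×ˢ univ) := by
  have cα : ContinuousOn (fun p : ℝ × ℂ => ((α p.1 : ℝ) : ℂ)) (Icc 0 H ×ˢ univ) :=
    Complex.continuous_ofReal.comp_continuousOn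
      (S.hac.comp continuousOn_fst (fun _ hp => hp.1))
  exact (continuousOn_const.mul ((cα.mul continuousOn_snd).sub continuousOn_const)).cexp

lemma SliceData.cont_eta (S : SliceData α β H) (c : ℂ) :
    ContinuousOn (fun p : ℝ × ℂ => etaf (xf α β c p.1 p.2) (yf α c p.1 p.2))
      (Icc 0 H ×ˢ univ) :=
  (((S.cont_yf c).sub continuousOn_const).norm.add (S.cont_xf c).norm).mul
    (Real.continuous_exp.comp_continuousOn (S.cont_xf c).norm)

lemma sec_cont {E : Type*} [TopologicalSpace E] {F : ℝ × ℂ → E}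
    (hF : ContinuousOn F (Icc 0 H ×ˢ univ)) (q : ℂ) :
    ContinuousOn (fun h : ℝ => F (h, q)) (Icc 0 H) :=
  hF.comp (f := fun h : ℝ => (h, q)) (by fun_prop) (fun h hh => ⟨hh, mem_univ _⟩)

lemma ii_real (hH : 0 ≤ H) {g : ℝ → ℝ} (hg : ContinuousOn g (Icc 0 H)) :
    IntervalIntegrable g volume 0 H := by
  apply ContinuousOn.intervalIntegrable
  rwa [uIcc_of_le hH]

lemma ii_cplx (hH : 0 ≤ H) {g : ℝ → ℂ} (hg : ContinuousOn g (Icc 0 H)) :
    IntervalIntegrable g volume 0 H := by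
  apply ContinuousOn.intervalIntegrable
  rwa [uIcc_of_le hH]

lemma cexpR (t : ℝ) (s : Set ℝ) : ContinuousOn (fun h : ℝ => Real.exp (-(t * h))) s := by
  fun_prop

lemma cexpC (t : ℝ) (s : Set ℝ) : ContinuousOn (fun h : ℝ => (Real.exp (-(t * h)) : ℂ)) s :=
  Complex.continuous_ofReal.comp_continuousOn (cexpR t s)

/-- the exact identity at a zero -/
lemma zero_identity (S : SliceData α β H) {c q : ℂ} {τ : ℝ}
    (hexp1 : Complex.exp (Complex.I * (β 0 - α 0 : ℝ) * c) = 1) (hq : q ≠ 0)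
    (h0 : Phi α β H (Complex.I * τ) q = 0) :
    ∫ h in (0:ℝ)..H, (Real.exp (-(τ * h)) : ℂ) *
      (yf α c h q * (Complex.exp (Complex.I * xf α β c h q) - 1)) = 0 := by
  have h1 := S.phi_mul (Complex.I * τ) hq
  rw [h0, mul_zero] at h1
  have h3 : ∀ h : ℝ, (Real.exp (-(τ * h)) : ℂ) *
      (yf α c h q * (Complex.exp (Complex.I * xf α β c h q) - 1)) =
      Complex.exp (-(Complex.I * α 0 * c)) *
      (Complex.exp (Complex.I * h * (Complex.I * τ)) *
        (Complex.exp (Complex.I * β h * q) - Complex.exp (Complex.I * α h * q))) := by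
    intro h
    rw [exp_IhI]
    have e1 : yf α c h q = Complex.exp (-(Complex.I * α 0 * c)) *
        Complex.exp (Complex.I * α h * q) := by
      rw [yf, ← Complex.exp_add]
      congr 1
      ring
    have e2 : Complex.exp (Complex.I * β h * q) = Complex.exp (Complex.I * α h * q) *
        Complex.exp (Complex.I * xf α β c h q) := by
      have e3 : Complex.I * β h * q = Complex.I * α h * q + Complex.I * xf α β c h q +
          Complex.I * (β 0 - α 0 : ℝ) * c := by
        rw [xf]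
        push_cast
        ring
      rw [e3, Complex.exp_add, hexp1, mul_one, Complex.exp_add]
    rw [e1, e2]
    ring
  simp only [h3]
  rw [intervalIntegral.integral_const_mul, ← h1, mul_zero]

lemma zero_bound (S : SliceData α β H) {c q : ℂ} {τ : ℝ}
    (hexp1 : Complex.exp (Complex.I * (β 0 - α 0 : ℝ) * c) = 1) (hq : q ≠ 0)
    (h0 : Phi α β H (Complex.I * τ) q = 0) :
    ‖∫ h in (0:ℝ)..H, (Real.exp (-(τ * h)) : ℂ) * xf α β c h q‖ ≤
      ∫ h in (0:ℝ)..H, Real.exp (-(τ * h)) *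
        (etaf (xf α β c h q) (yf α c h q) * ‖xf α β c h q‖) := by
  have hH := S.hH.le
  have h2 := zero_identity S hexp1 hq h0
  have cx : ContinuousOn (fun h => xf α β c h q) (Icc 0 H) := sec_cont (S.cont_xf c) q
  have cy : ContinuousOn (fun h => yf α c h q) (Icc 0 H) := sec_cont (S.cont_yf c) q
  have ce : ContinuousOn (fun h => etaf (xf α β c h q) (yf α c h q)) (Icc 0 H) :=
    sec_cont (S.cont_eta c) q
  have i1 : IntervalIntegrable (fun h : ℝ => (Real.exp (-(τ * h)) : ℂ) *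
      (Complex.I * xf α β c h q)) volume 0 H :=
    ii_cplx hH ((cexpC τ _).mul (continuousOn_const.mul cx))
  have i2 : IntervalIntegrable (fun h : ℝ => (Real.exp (-(τ * h)) : ℂ) *
      (yf α c h q * (Complex.exp (Complex.I * xf α β c h q) - 1))) volume 0 H :=
    ii_cplx hH ((cexpC τ _).mul (cy.mul ((continuousOn_const.mul cx).cexp.sub continuousOn_const)))
  have h4 : Complex.I * (∫ h in (0:ℝ)..H, (Real.exp (-(τ * h)) : ℂ) * xf α β c h q) =
      -(∫ h in (0:ℝ)..H, (Real.exp (-(τ * h)) : ℂ) *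
        (yf α c h q * (Complex.exp (Complex.I * xf α β c h q) - 1) -
          Complex.I * xf α β c h q)) := by
    have e1 : ∫ h in (0:ℝ)..H, (Real.exp (-(τ * h)) : ℂ) *
        (yf α c h q * (Complex.exp (Complex.I * xf α β c h q) - 1) -
          Complex.I * xf α β c h q) =
        (∫ h in (0:ℝ)..H, (Real.exp (-(τ * h)) : ℂ) *
          (yf α c h q * (Complex.exp (Complex.I * xf α β c h q) - 1))) -
        ∫ h in (0:ℝ)..H, (Real.exp (-(τ * h)) : ℂ) * (Complex.I * xf α β c h q) := by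
      rw [← intervalIntegral.integral_sub i2 i1]
      congr 1
      ext h
      ring
    rw [e1, h2, zero_sub, neg_neg, ← intervalIntegral.integral_const_mul]
    congr 1
    ext h
    ring
  have h5 := congrArg norm h4
  rw [norm_mul, Complex.norm_I, one_mul, norm_neg] at h5
  rw [h5]
  apply intervalIntegral.norm_integral_le_of_norm_le hH
  · refine ae_of_all _ (fun h _ => ?_)
    rw [norm_mul, Complex.norm_real, Real.norm_eq_abs, abs_of_pos (Real.exp_pos _)]
    exact mul_le_mul_of_nonneg_left (R_le _ _) (Real.exp_pos _).le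
  · exact ii_real hH ((cexpR τ _).mul (ce.mul cx.norm))

end

end Helper12.Fac
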