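import Mathlib
import Pool.Agent.Helper12.FacTop3

/-!
# Bounded branches: first order comparison, the limit (helper12)
-/

open Filter Topology Set MeasureTheory

namespace Helper12.Fac

noncomputable section

variable {α β : ℝ → ℝ} {H : ℝ}

def An (α β : ℝ → ℝ) (H τ : ℝ) : ℝ :=
  ∫ h in (0:ℝ)..H, Real.exp (-(τ * h)) * (β h - α h - (β 0 - α 0))

def Bn (α β : ℝ → ℝ) (H τ : ℝ) : ℝ :=
  ∫ h in (0:ℝ)..H, Real.exp (-(τ * h)) * (β h - α h)

def Dn (α β : ℝ → ℝ) (H τ : ℝ) : ℝ :=
  ∫ h in (0:ℝ)..H, Real.exp (-(τ * h)) * |β h - α h - (β 0 - α 0)|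

lemma SliceData.cA (S : SliceData α β H) (t : ℝ) :
    ContinuousOn (fun h => Real.exp (-(t * h)) * (β h - α h - (β 0 - α 0))) (Icc 0 H) :=
  (cexpR t _).mul (S.len_cont.sub continuousOn_const)

lemma SliceData.cB (S : SliceData α β H) (t : ℝ) :
    ContinuousOn (fun h => Real.exp (-(t * h)) * (β h - α h)) (Icc 0 H) :=
  (cexpR t _).mul S.len_cont

lemma SliceData.cD (S : SliceData α β H) (t : ℝ) :
    ContinuousOn (fun h => Real.exp (-(t * h)) * |β h - α h - (β 0 - α 0)|) (Icc 0 H) :=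
  (cexpR t _).mul (S.len_cont.sub continuousOn_const).abs

lemma int_xf (S : SliceData α β H) (c q : ℂ) (τ : ℝ) :
    ∫ h in (0:ℝ)..H, (Real.exp (-(τ * h)) : ℂ) * xf α β c h q =
      c * (An α β H τ : ℂ) + (q - c) * (Bn α β H τ : ℂ) := by
  have hH := S.hH.le
  have e1 : (An α β H τ : ℂ) = ∫ h in (0:ℝ)..H,
      ((Real.exp (-(τ * h)) * (β h - α h - (β 0 - α 0)) : ℝ) : ℂ) := by
    rw [intervalIntegral.integral_ofReal]
    rfl
  have e2 : (Bn α β H τ : ℂ) = ∫ h in (0:ℝ)..H,
      ((Real.exp (-(τ * h)) * (β h - α h) : ℝ) : ℂ) := by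
    rw [intervalIntegral.integral_ofReal]
    rfl
  rw [e1, e2, ← intervalIntegral.integral_const_mul, ← intervalIntegral.integral_const_mul,
    ← intervalIntegral.integral_add]
  · congr 1
    ext h
    rw [xf]
    push_cast
    ring
  · exact ii_cplx hH (continuousOn_const.mul (Complex.continuous_ofReal.comp_continuousOn
      (S.cA τ)))
  · exact ii_cplx hH (continuousOn_const.mul (Complex.continuous_ofReal.comp_continuousOn
      (S.cB τ)))

lemma Bn_nonneg (S : SliceData α β H) (τ : ℝ) : 0 ≤ Bn α β H τ := by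
  apply intervalIntegral.integral_nonneg S.hH.le
  intro h hh
  have := S.le hh
  have h2 := Real.exp_pos (-(τ * h))
  exact mul_nonneg h2.le (by linarith)

lemma tendsto_Bn (S : SliceData α β H) {τ : ℕ → ℝ} (hτ : Tendsto τ atTop atTop) :
    Tendsto (fun n => τ n * Bn α β H (τ n)) atTop (𝓝 (β 0 - α 0)) := by
  have hH := S.hH
  obtain ⟨M, hM⟩ := isCompact_Icc.exists_bound_of_continuousOn S.len_cont
  have h1 := watson (g := fun _ h => ((β h - α h : ℝ) : ℂ)) (g0 := ((β 0 - α 0 : ℝ) : ℂ)) hH hτ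
    (M := M)
    (Eventually.of_forall (fun n h hh => by
      rw [Complex.norm_real]
      exact hM h hh))
    (Eventually.of_forall (fun n => Complex.continuous_ofReal.comp_continuousOn S.len_cont))
    (by
      intro ε hε
      have h2 := S.len_cont 0 S.zero_mem
      rw [Metric.continuousWithinAt_iff] at h2
      obtain ⟨δ, hδ, hδ'⟩ := h2 ε hε
      refine ⟨δ/2, half_pos hδ, Eventually.of_forall (fun n h hh hhd => ?_)⟩
      have h3 := hδ' hh (by rw [Real.dist_eq, sub_zero, abs_of_nonneg hh.1]; linarith)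
      rw [dist_eq_norm] at h3
      rw [← Complex.ofReal_sub, Complex.norm_real]
      exact h3.le)
  have h2 : ∀ n, (τ n : ℂ) * (∫ h in (0:ℝ)..H, (Real.exp (-(τ n * h)) : ℂ) *
      ((β h - α h : ℝ) : ℂ)) = ((τ n * Bn α β H (τ n) : ℝ) : ℂ) := by
    intro n
    rw [Complex.ofReal_mul, Bn, ← intervalIntegral.integral_ofReal]
    congr 2
    ext h
    push_cast
    ring
  have h3 : Tendsto (fun n => ((τ n * Bn α β H (τ n) : ℝ) : ℂ)) atTop
      (𝓝 ((β 0 - α 0 : ℝ) : ℂ)) := h1.congr h2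
  have h4 := (Complex.continuous_re.tendsto _).comp h3
  simpa [Function.comp_def] using h4

lemma Dn_le (S : SliceData α β H) : ∃ C h1 : ℝ, 0 ≤ C ∧ 0 < h1 ∧ ∀ τ : ℝ, 0 < τ →
    Dn α β H τ ≤ |An α β H τ| + C * Real.exp (-(τ * (h1/2))) * (2 / τ) := by
  have hH := S.hH
  obtain ⟨h1, hh1, s, hs, hsign⟩ := sign_near hH S.len_concave
  obtain ⟨M, hM⟩ := isCompact_Icc.exists_bound_of_continuousOn
    (S.len_cont.sub (continuousOn_const (c := β 0 - α 0)))
  have hM0 : 0 ≤ M := (norm_nonneg _).trans (hM 0 S.zero_mem)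
  refine ⟨2 * M, h1, by positivity, hh1.1, fun τ hτ => ?_⟩
  have hpt : ∀ h ∈ Icc 0 H, Real.exp (-(τ * h)) * |β h - α h - (β 0 - α 0)| ≤
      s * (Real.exp (-(τ * h)) * (β h - α h - (β 0 - α 0))) +
        2 * M * Real.exp (-(τ * (h1/2))) * Real.exp (-(τ/2 * h)) := by
    intro h hh
    have hexp := Real.exp_pos (-(τ * h))
    have hm : |β h - α h - (β 0 - α 0)| ≤ M := hM h hh
    rcases le_total h h1 with hle | hle
    · have h2 := hsign h hh hle
      have h3 : |β h - α h - (β 0 - α 0)| = s * (β h - α h - (β 0 - α 0)) := by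
        rw [← abs_of_nonneg h2, abs_mul, hs, one_mul]
      rw [h3]
      have h4 : 0 ≤ 2 * M * Real.exp (-(τ * (h1/2))) * Real.exp (-(τ/2 * h)) := by positivity
      linarith
    · have e1 := exp_split hτ hle
      have e2 : -M ≤ s * (β h - α h - (β 0 - α 0)) := by
        have : |s * (β h - α h - (β 0 - α 0))| ≤ M := by
          rw [abs_mul, hs, one_mul]
          exact hm
        exact (abs_le.1 this).1
      have e3 := mul_le_mul_of_nonneg_left hm hexp.le
      have e4 := mul_le_mul_of_nonneg_left e2 hexp.le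
      have e5 : Real.exp (-(τ * h)) * (2 * M) ≤
          2 * M * Real.exp (-(τ * (h1/2))) * Real.exp (-(τ/2 * h)) := by
        calc Real.exp (-(τ * h)) * (2 * M)
            ≤ (Real.exp (-(τ * (h1/2))) * Real.exp (-(τ/2 * h))) * (2 * M) := by gcongr
          _ = _ := by ring
      linarith
  have hint : Dn α β H τ ≤ ∫ h in (0:ℝ)..H,
      (s * (Real.exp (-(τ * h)) * (β h - α h - (β 0 - α 0))) +
        2 * M * Real.exp (-(τ * (h1/2))) * Real.exp (-(τ/2 * h))) := by
    apply intervalIntegral.integral_mono_on hH.le (ii_real hH.le (S.cD τ))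
    · exact ii_real hH.le ((continuousOn_const.mul (S.cA τ)).add (by fun_prop))
    · exact hpt
  rw [intervalIntegral.integral_add ((ii_real hH.le (S.cA τ)).const_mul s)
    (Continuous.intervalIntegrable (by fun_prop) _ _), intervalIntegral.integral_const_mul,
    intervalIntegral.integral_const_mul] at hint
  have h2 : s * (∫ h in (0:ℝ)..H, Real.exp (-(τ * h)) * (β h - α h - (β 0 - α 0))) ≤
      |An α β H τ| := by
    refine (le_abs_self _).trans ?_
    rw [abs_mul, hs, one_mul]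
    rfl
  have h3 := int_exp_half hτ hH.le
  have h4 : 0 ≤ 2 * M * Real.exp (-(τ * (h1/2))) := by positivity
  have h5 := mul_le_mul_of_nonneg_left h3 h4
  linarith

lemma slope_le (S : SliceData α β H) {h0 : ℝ} (hh0 : h0 ∈ Ioc 0 H) : ∃ C : ℝ, 0 ≤ C ∧
    ∀ τ : ℝ, 0 < τ → (β h0 - α h0 - (β 0 - α 0)) / h0 *
      ((1 - (1 + τ * H) * Real.exp (-(τ * H))) / τ ^ 2) -
      C * Real.exp (-(τ * (h0/2))) * (2 / τ) ≤ An α β H τ := by
  have hH := S.hH
  obtain ⟨M, hM⟩ := isCompact_Icc.exists_bound_of_continuousOn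
    (S.len_cont.sub (continuousOn_const (c := β 0 - α 0)))
  have hM0 : 0 ≤ M := (norm_nonneg _).trans (hM 0 S.zero_mem)
  set σ : ℝ := (β h0 - α h0 - (β 0 - α 0)) / h0 with hσ
  have hh0' : h0 ∈ Icc 0 H := ⟨hh0.1.le, hh0.2⟩
  refine ⟨M + |σ| * H, by positivity, fun τ hτ => ?_⟩
  have hpt : ∀ h ∈ Icc 0 H, σ * (h * Real.exp (-(τ * h))) -
      (M + |σ| * H) * Real.exp (-(τ * (h0/2))) * Real.exp (-(τ/2 * h)) ≤
      Real.exp (-(τ * h)) * (β h - α h - (β 0 - α 0)) := by
    intro h hh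
    have hexp := Real.exp_pos (-(τ * h))
    have hm : |β h - α h - (β 0 - α 0)| ≤ M := hM h hh
    rcases le_total h h0 with hle | hle
    · have hk := S.len_concave.2 S.zero_mem hh0'
        (show 0 ≤ 1 - h / h0 by rw [sub_nonneg, div_le_one hh0.1]; exact hle)
        (show 0 ≤ h / h0 from div_nonneg hh.1 hh0.1.le) (by ring)
      simp only [smul_eq_mul, mul_zero, zero_add] at hk
      rw [div_mul_cancel₀ _ hh0.1.ne'] at hk
      have e1 : σ * h ≤ β h - α h - (β 0 - α 0) := by
        have : σ * h = h / h0 * (β h0 - α h0) - h / h0 * (β 0 - α 0) := by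
          rw [hσ]
          ring
        linarith
      have e2 := mul_le_mul_of_nonneg_left e1 hexp.le
      have e3 : 0 ≤ (M + |σ| * H) * Real.exp (-(τ * (h0/2))) * Real.exp (-(τ/2 * h)) := by
        positivity
      linarith
    · have e1 := exp_split hτ hle
      have e2 : σ * h - (β h - α h - (β 0 - α 0)) ≤ M + |σ| * H := by
        have f1 : σ * h ≤ |σ| * H := by
          have : σ * h ≤ |σ| * h := mul_le_mul_of_nonneg_right (le_abs_self σ) hh.1
          have : |σ| * h ≤ |σ| * H := mul_le_mul_of_nonneg_left hh.2 (abs_nonneg σ)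
          linarith
        have f2 := (abs_le.1 hm).1
        linarith
      have e3 := mul_le_mul_of_nonneg_left e2 hexp.le
      have e4 : Real.exp (-(τ * h)) * (M + |σ| * H) ≤
          (M + |σ| * H) * Real.exp (-(τ * (h0/2))) * Real.exp (-(τ/2 * h)) := by
        have : 0 ≤ M + |σ| * H := by positivity
        calc Real.exp (-(τ * h)) * (M + |σ| * H)
            ≤ (Real.exp (-(τ * (h0/2))) * Real.exp (-(τ/2 * h))) * (M + |σ| * H) := by gcongr
          _ = _ := by ring
      linarith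
  have hint : ∫ h in (0:ℝ)..H, (σ * (h * Real.exp (-(τ * h))) -
      (M + |σ| * H) * Real.exp (-(τ * (h0/2))) * Real.exp (-(τ/2 * h))) ≤ An α β H τ := by
    apply intervalIntegral.integral_mono_on hH.le
      (Continuous.intervalIntegrable (by fun_prop) _ _) (ii_real hH.le (S.cA τ)) hpt
  rw [intervalIntegral.integral_sub (Continuous.intervalIntegrable (by fun_prop) _ _)
    (Continuous.intervalIntegrable (by fun_prop) _ _), intervalIntegral.integral_const_mul,
    intervalIntegral.integral_const_mul, int_hexp hτ] at hint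
  have h3 := int_exp_half hτ hH.le
  have h4 : 0 ≤ (M + |σ| * H) * Real.exp (-(τ * (h0/2))) := by positivity
  have h5 := mul_le_mul_of_nonneg_left h3 h4
  linarith

/-- smallness of the error function near the corner -/
lemma eta_small (S : SliceData α β H) (c : ℂ) {ε : ℝ} (hε : 0 < ε) :
    ∃ δ > 0, ∀ q : ℂ, ‖q - c‖ < δ → ∀ h ∈ Icc 0 H, h ≤ δ →
      etaf (xf α β c h q) (yf α c h q) ≤ ε := by
  have h0 : ((0:ℝ), c) ∈ Icc 0 H ×ˢ (univ : Set ℂ) := ⟨S.zero_mem, mem_univ _⟩
  have h1 := S.cont_eta c _ h0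
  have hv : etaf (xf α β c 0 c) (yf α c 0 c) = 0 := by
    simp [etaf, xf, yf]
  rw [Metric.continuousWithinAt_iff] at h1
  obtain ⟨δ, hδ, hδ'⟩ := h1 ε hε
  refine ⟨δ/2, half_pos hδ, fun q hq h hh hhd => ?_⟩
  have h2 := hδ' (x := (h, q)) ⟨hh, mem_univ _⟩ (by
    rw [Prod.dist_eq]
    apply max_lt
    · simp only
      rw [Real.dist_eq, sub_zero, abs_of_nonneg hh.1]
      linarith
    · simp only
      rw [dist_eq_norm]
      linarith)
  simp only at h2
  rw [hv, Real.dist_eq, sub_zero] at h2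
  exact (le_abs_self _).trans h2.le

/-- the main bound -/
lemma err_bound (S : SliceData α β H) (c : ℂ) {ε : ℝ} (hε : 0 < ε) :
    ∃ δ > 0, ∃ M ≥ 0, ∀ τ : ℝ, 0 < τ → ∀ q : ℂ, ‖q - c‖ < δ →
      ∫ h in (0:ℝ)..H, Real.exp (-(τ * h)) *
        (etaf (xf α β c h q) (yf α c h q) * ‖xf α β c h q‖) ≤
      ε * (‖c‖ * Dn α β H τ + ‖q - c‖ * Bn α β H τ) +
        M * Real.exp (-(τ * (δ/2))) * (2 / τ) := by
  have hH := S.hH
  obtain ⟨δ, hδ, hδ'⟩ := eta_small S c hε
  have hcomp : IsCompact (Icc 0 H ×ˢ Metric.closedBall c δ) :=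
    isCompact_Icc.prod (isCompact_closedBall c δ)
  obtain ⟨M, hM⟩ := hcomp.exists_bound_of_continuousOn
    (((S.cont_eta c).mul (S.cont_xf c).norm).mono (prod_mono le_rfl (subset_univ _)))
  have hM0 : 0 ≤ M := (norm_nonneg _).trans (hM (0, c) ⟨S.zero_mem, by simp [hδ.le]⟩)
  refine ⟨δ, hδ, M, hM0, fun τ hτ q hq => ?_⟩
  have cx : ContinuousOn (fun h => xf α β c h q) (Icc 0 H) := sec_cont (S.cont_xf c) q
  have ce : ContinuousOn (fun h => etaf (xf α β c h q) (yf α c h q)) (Icc 0 H) :=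
    sec_cont (S.cont_eta c) q
  have hxle : ∀ h ∈ Icc 0 H, ‖xf α β c h q‖ ≤
      ‖c‖ * |β h - α h - (β 0 - α 0)| + ‖q - c‖ * (β h - α h) := by
    intro h hh
    rw [xf]
    refine (norm_add_le _ _).trans (le_of_eq ?_)
    rw [norm_mul, norm_mul, Complex.norm_real, Complex.norm_real, Real.norm_eq_abs,
      Real.norm_eq_abs, abs_of_nonneg (sub_nonneg.2 (S.le hh))]
    ring
  have hpt : ∀ h ∈ Icc 0 H, Real.exp (-(τ * h)) *
        (etaf (xf α β c h q) (yf α c h q) * ‖xf α β c h q‖) ≤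
      ε * (‖c‖ * (Real.exp (-(τ * h)) * |β h - α h - (β 0 - α 0)|)) +
      ε * (‖q - c‖ * (Real.exp (-(τ * h)) * (β h - α h))) +
        M * Real.exp (-(τ * (δ/2))) * Real.exp (-(τ/2 * h)) := by
    intro h hh
    have hexp := Real.exp_pos (-(τ * h))
    have hx := hxle h hh
    have hlen := sub_nonneg.2 (S.le hh)
    rcases le_total h δ with hle | hle
    · have e1 := hδ' q hq h hh hle
      have e2 : etaf (xf α β c h q) (yf α c h q) * ‖xf α β c h q‖ ≤
          ε * (‖c‖ * |β h - α h - (β 0 - α 0)| + ‖q - c‖ * (β h - α h)) := by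
        have := etaf_nonneg (xf α β c h q) (yf α c h q)
        gcongr
      have e3 := mul_le_mul_of_nonneg_left e2 hexp.le
      have e4 : 0 ≤ M * Real.exp (-(τ * (δ/2))) * Real.exp (-(τ/2 * h)) := by positivity
      linarith
    · have e1 := exp_split hτ hle
      have e2 : etaf (xf α β c h q) (yf α c h q) * ‖xf α β c h q‖ ≤ M := by
        have := hM (h, q) ⟨hh, by
          rw [Metric.mem_closedBall, dist_eq_norm]
          exact hq.le⟩
        exact (le_abs_self _).trans this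
      have e3 := mul_le_mul_of_nonneg_left e2 hexp.le
      have e4 : Real.exp (-(τ * h)) * M ≤
          M * Real.exp (-(τ * (δ/2))) * Real.exp (-(τ/2 * h)) := by
        calc Real.exp (-(τ * h)) * M
            ≤ (Real.exp (-(τ * (δ/2))) * Real.exp (-(τ/2 * h))) * M := by gcongr
          _ = _ := by ring
      have e5 : 0 ≤ ε * (‖c‖ * (Real.exp (-(τ * h)) * |β h - α h - (β 0 - α 0)|)) := by
        positivity
      have e6 : 0 ≤ ε * (‖q - c‖ * (Real.exp (-(τ * h)) * (β h - α h))) := by positivity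
      linarith
  have i1 := ii_real hH.le (S.cD τ)
  have i2 := ii_real hH.le (S.cB τ)
  have hint : ∫ h in (0:ℝ)..H, Real.exp (-(τ * h)) *
        (etaf (xf α β c h q) (yf α c h q) * ‖xf α β c h q‖) ≤
      ∫ h in (0:ℝ)..H, (ε * (‖c‖ * (Real.exp (-(τ * h)) * |β h - α h - (β 0 - α 0)|)) +
      ε * (‖q - c‖ * (Real.exp (-(τ * h)) * (β h - α h))) +
        M * Real.exp (-(τ * (δ/2))) * Real.exp (-(τ/2 * h))) := by
    apply intervalIntegral.integral_mono_on hH.le
    · exact ii_real hH.le ((cexpR τ _).mul (ce.mul cx.norm))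
    · exact (((i1.const_mul _).const_mul _).add ((i2.const_mul _).const_mul _)).add
        (Continuous.intervalIntegrable (by fun_prop) _ _)
    · exact hpt
  rw [intervalIntegral.integral_add (((i1.const_mul _).const_mul _).add
      ((i2.const_mul _).const_mul _)) (Continuous.intervalIntegrable (by fun_prop) _ _),
    intervalIntegral.integral_add ((i1.const_mul _).const_mul _) ((i2.const_mul _).const_mul _),
    intervalIntegral.integral_const_mul, intervalIntegral.integral_const_mul,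
    intervalIntegral.integral_const_mul, intervalIntegral.integral_const_mul,
    intervalIntegral.integral_const_mul] at hint
  have h3 := int_exp_half hτ hH.le
  have h4 : 0 ≤ M * Real.exp (-(τ * (δ/2))) := by positivity
  have h5 := mul_le_mul_of_nonneg_left h3 h4
  have h6 : ∫ h in (0:ℝ)..H, Real.exp (-(τ * h)) * |β h - α h - (β 0 - α 0)| = Dn α β H τ := rfl
  have h7 : ∫ h in (0:ℝ)..H, Real.exp (-(τ * h)) * (β h - α h) = Bn α β H τ := rfl
  rw [h6, h7] at hint
  linarith

end

end Helper12.Fac
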