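import Mathlib
import Pool.Agent.Helper12.FacTop4

/-!
# Bounded branches: the slope comparison (helper12)
-/

open Filter Topology Set MeasureTheory

namespace Helper12.Fac

noncomputable section

variable {α β : ℝ → ℝ} {H : ℝ}

/-- the comparison inequality for a zero, scaled by `τ ^ 2` -/
lemma scaled_bound (S : SliceData α β H) {τ : ℕ → ℝ} (hτ : Tendsto τ atTop atTop) {q : ℕ → ℂ}
    {c : ℂ} (hc : c ≠ 0) (hexp1 : Complex.exp (Complex.I * (β 0 - α 0 : ℝ) * c) = 1)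
    (hq : Tendsto q atTop (𝓝 c))
    (h0 : ∀ᶠ n in atTop, Phi α β H (Complex.I * τ n) (q n) = 0) {ε : ℝ} (hε : 0 < ε) :
    ∃ s : ℕ → ℝ, Tendsto s atTop (𝓝 0) ∧ ∀ᶠ n in atTop,
      ‖c * ((τ n ^ 2 * An α β H (τ n) : ℝ) : ℂ) +
        ((τ n : ℂ) * (q n - c)) * ((τ n * Bn α β H (τ n) : ℝ) : ℂ)‖ ≤
      ε * (‖c‖ * |τ n ^ 2 * An α β H (τ n)| +
        ‖(τ n : ℂ) * (q n - c)‖ * (τ n * Bn α β H (τ n))) + s n := by
  obtain ⟨δ, hδ, M, hM0, hbd⟩ := err_bound S c hε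
  obtain ⟨C, h1, hC, hh1, hD⟩ := Dn_le S
  refine ⟨fun n => ε * ‖c‖ * (2 * C * (τ n ^ 1 * Real.exp (-(τ n * (h1/2))))) +
    2 * M * (τ n ^ 1 * Real.exp (-(τ n * (δ/2)))), ?_, ?_⟩
  · have e1 := ((tendsto_exp_neg hτ (half_pos hh1) 1).const_mul (2 * C)).const_mul (ε * ‖c‖)
    have e2 := (tendsto_exp_neg hτ (half_pos hδ) 1).const_mul (2 * M)
    simpa using e1.add e2
  · have hqc : ∀ᶠ n in atTop, ‖q n - c‖ < δ := by
      have := Metric.tendsto_nhds.1 hq δ hδ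
      filter_upwards [this] with n hn
      rwa [dist_eq_norm] at hn
    have hqne : ∀ᶠ n in atTop, q n ≠ 0 := hq.eventually_ne hc
    filter_upwards [h0, hqc, hqne, hτ.eventually_gt_atTop 0] with n hn hn2 hn3 hn4
    have k1 := zero_bound S hexp1 hn3 hn
    rw [int_xf S c (q n) (τ n)] at k1
    have k2 := k1.trans (hbd (τ n) hn4 (q n) hn2)
    have k3 := hD (τ n) hn4
    have k4 : ‖c * (An α β H (τ n) : ℂ) + (q n - c) * (Bn α β H (τ n) : ℂ)‖ ≤
        ε * (‖c‖ * (|An α β H (τ n)| + C * Real.exp (-(τ n * (h1/2))) * (2 / τ n)) +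
          ‖q n - c‖ * Bn α β H (τ n)) + M * Real.exp (-(τ n * (δ/2))) * (2 / τ n) := by
      refine k2.trans ?_
      gcongr
    have k5 := mul_le_mul_of_nonneg_left k4 (sq_nonneg (τ n))
    have e1 : ‖c * ((τ n ^ 2 * An α β H (τ n) : ℝ) : ℂ) +
        ((τ n : ℂ) * (q n - c)) * ((τ n * Bn α β H (τ n) : ℝ) : ℂ)‖ =
        τ n ^ 2 * ‖c * (An α β H (τ n) : ℂ) + (q n - c) * (Bn α β H (τ n) : ℂ)‖ := by
      have : c * ((τ n ^ 2 * An α β H (τ n) : ℝ) : ℂ) +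
          ((τ n : ℂ) * (q n - c)) * ((τ n * Bn α β H (τ n) : ℝ) : ℂ) =
          ((τ n ^ 2 : ℝ) : ℂ) * (c * (An α β H (τ n) : ℂ) + (q n - c) * (Bn α β H (τ n) : ℂ)) := by
        push_cast
        ring
      rw [this, norm_mul, Complex.norm_real, Real.norm_eq_abs, abs_of_nonneg (sq_nonneg _)]
    have e2 : |τ n ^ 2 * An α β H (τ n)| = τ n ^ 2 * |An α β H (τ n)| := by
      rw [abs_mul, abs_of_nonneg (sq_nonneg _)]
    have e3 : ‖(τ n : ℂ) * (q n - c)‖ = τ n * ‖q n - c‖ := by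
      rw [norm_mul, Complex.norm_real, Real.norm_eq_abs, abs_of_pos hn4]
    rw [e1, e2, e3]
    refine k5.trans (le_of_eq ?_)
    field_simp
    ring

lemma top_slope (S : SliceData α β H) {τ : ℕ → ℝ} (hτ : Tendsto τ atTop atTop) {q : ℕ → ℂ}
    {c L : ℂ} (hc : c ≠ 0) (hexp1 : Complex.exp (Complex.I * (β 0 - α 0 : ℝ) * c) = 1)
    (hL : Tendsto (fun n => (τ n : ℂ) * (q n - c)) atTop (𝓝 L))
    (h0 : ∀ᶠ n in atTop, Phi α β H (Complex.I * τ n) (q n) = 0) :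
    ∃ t : ℝ, (t : ℂ) * c = -(((β 0 - α 0 : ℝ) : ℂ) * L) ∧
      ∀ h ∈ Ioc 0 H, (β h - α h - (β 0 - α 0)) / h ≤ t := by
  have hH := S.hH
  have hcn : 0 < ‖c‖ := norm_pos_iff.2 hc
  have hτinv : Tendsto (fun n => (τ n : ℂ)⁻¹) atTop (𝓝 0) := by
    have h1 : Tendsto (fun n => (τ n)⁻¹) atTop (𝓝 0) := tendsto_inv_atTop_zero.comp hτ
    have h2 := (Complex.continuous_ofReal.tendsto 0).comp h1
    simpa [Function.comp_def] using h2
  have hq : Tendsto q atTop (𝓝 c) := by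
    have h1 : Tendsto (fun n => (τ n : ℂ)⁻¹ * ((τ n : ℂ) * (q n - c)) + c) atTop (𝓝 c) := by
      simpa using (hτinv.mul hL).add_const c
    refine h1.congr' ?_
    filter_upwards [hτ.eventually_gt_atTop 0] with n hn
    have : (τ n : ℂ) ≠ 0 := by exact_mod_cast hn.ne'
    field_simp
    ring
  set e : ℕ → ℝ := fun n => τ n ^ 2 * An α β H (τ n) with he
  set b : ℕ → ℝ := fun n => τ n * Bn α β H (τ n) with hb
  set w : ℕ → ℂ := fun n => (τ n : ℂ) * (q n - c) with hw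
  have hbt : Tendsto b atTop (𝓝 (β 0 - α 0)) := tendsto_Bn S hτ
  have hwb : Tendsto (fun n => ‖w n‖ * b n) atTop (𝓝 (‖L‖ * (β 0 - α 0))) := hL.norm.mul hbt
  have hwbc : Tendsto (fun n => w n * (b n : ℂ)) atTop (𝓝 (L * ((β 0 - α 0 : ℝ) : ℂ))) :=
    hL.mul ((Complex.continuous_ofReal.tendsto _).comp hbt)
  -- boundedness of `e`
  obtain ⟨E, hE⟩ : ∃ E : ℝ, ∀ᶠ n in atTop, |e n| ≤ E := by
    obtain ⟨s, hs, hsb⟩ := scaled_bound S hτ hc hexp1 hq h0 (ε := 1/2) (by norm_num)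
    refine ⟨2 / ‖c‖ * (3/2 * (‖L‖ * (β 0 - α 0) + 1) + 1), ?_⟩
    filter_upwards [hsb, hs.eventually (gt_mem_nhds (zero_lt_one' ℝ)),
      hwb.eventually (gt_mem_nhds (lt_add_one _)), hτ.eventually_gt_atTop 0] with n h1 h2 h3 h4
    have k1 : ‖c * (e n : ℂ)‖ ≤ ‖c * (e n : ℂ) + w n * (b n : ℂ)‖ + ‖w n * (b n : ℂ)‖ := by
      have := norm_sub_le (c * (e n : ℂ) + w n * (b n : ℂ)) (w n * (b n : ℂ))
      simpa using this
    have hb0 : 0 ≤ b n := mul_nonneg h4.le (Bn_nonneg S _)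
    have k2 : ‖c * (e n : ℂ)‖ = ‖c‖ * |e n| := by
      rw [norm_mul, Complex.norm_real, Real.norm_eq_abs]
    have k3 : ‖w n * (b n : ℂ)‖ = ‖w n‖ * b n := by
      rw [norm_mul, Complex.norm_real, Real.norm_eq_abs, abs_of_nonneg hb0]
    have k4 : ‖c‖ * |e n| ≤ 2 * (3/2 * (‖L‖ * (β 0 - α 0) + 1) + 1) := by
      rw [k2, k3] at k1
      have h1' : ‖c * (e n : ℂ) + w n * (b n : ℂ)‖ ≤
        1/2 * (‖c‖ * |e n| + ‖w n‖ * b n) + s n := h1
      linarith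
    have k5 : |e n| = (‖c‖ * |e n|) / ‖c‖ := by field_simp
    rw [k5, div_mul_eq_mul_div]
    gcongr
  have hE0 : 0 ≤ E := by
    obtain ⟨n, hn⟩ := hE.exists
    exact (abs_nonneg _).trans hn
  have hℓ0 : 0 ≤ β 0 - α 0 := sub_nonneg.2 (S.le S.zero_mem)
  -- convergence
  have hlim : Tendsto (fun n => c * (e n : ℂ) + w n * (b n : ℂ)) atTop (𝓝 0) := by
    rw [Metric.tendsto_nhds]
    intro ε hε
    set K : ℝ := ‖c‖ * E + (‖L‖ * (β 0 - α 0) + 1) with hK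
    have hK0 : 0 < K := by positivity
    obtain ⟨s, hs, hsb⟩ := scaled_bound S hτ hc hexp1 hq h0 (ε := ε/(2*K)) (by positivity)
    filter_upwards [hsb, hs.eventually (gt_mem_nhds (half_pos hε)),
      hwb.eventually (gt_mem_nhds (lt_add_one _)), hE] with n h1 h2 h3 h4
    rw [dist_zero_right]
    have h1' : ‖c * (e n : ℂ) + w n * (b n : ℂ)‖ ≤
        ε/(2*K) * (‖c‖ * |e n| + ‖w n‖ * b n) + s n := h1
    have k1 : ‖c‖ * |e n| + ‖w n‖ * b n ≤ K := by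
      rw [hK]
      gcongr
    have k2 : ε/(2*K) * (‖c‖ * |e n| + ‖w n‖ * b n) ≤ ε/(2*K) * K := by gcongr
    have k3 : ε/(2*K) * K = ε/2 := by field_simp
    linarith
  have hlim2 : Tendsto (fun n => (e n : ℂ)) atTop (𝓝 (-(L * ((β 0 - α 0 : ℝ) : ℂ)) / c)) := by
    have h1 := (hlim.sub hwbc).div_const c
    rw [zero_sub] at h1
    refine h1.congr (fun n => ?_)
    field_simp
    ring
  set T : ℂ := -(L * ((β 0 - α 0 : ℝ) : ℂ)) / c with hT
  have hlim3 : Tendsto e atTop (𝓝 T.re) := by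
    have := (Complex.continuous_re.tendsto _).comp hlim2
    simpa [Function.comp_def] using this
  have hTre : ((T.re : ℝ) : ℂ) = T :=
    tendsto_nhds_unique ((Complex.continuous_ofReal.tendsto _).comp hlim3) hlim2
  refine ⟨T.re, ?_, ?_⟩
  · rw [hTre, hT]
    field_simp
  · intro h hh
    obtain ⟨C, hC, hCb⟩ := slope_le S hh
    have hl : Tendsto (fun n => (β h - α h - (β 0 - α 0)) / h *
        (1 - (τ n ^ 0 * Real.exp (-(τ n * H)) + H * (τ n ^ 1 * Real.exp (-(τ n * H))))) -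
        2 * C * (τ n ^ 1 * Real.exp (-(τ n * (h/2))))) atTop
        (𝓝 ((β h - α h - (β 0 - α 0)) / h)) := by
      have e0 := tendsto_exp_neg hτ hH 0
      have e1 := tendsto_exp_neg hτ hH 1
      have e2 := tendsto_exp_neg hτ (half_pos hh.1) 1
      have e3 := (((e0.add (e1.const_mul H)).const_sub 1).const_mul
        ((β h - α h - (β 0 - α 0)) / h)).sub (e2.const_mul (2 * C))
      simpa using e3
    refine le_of_tendsto_of_tendsto hl hlim3 ?_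
    filter_upwards [hτ.eventually_gt_atTop 0] with n hn
    have k1 := mul_le_mul_of_nonneg_left (hCb (τ n) hn) (sq_nonneg (τ n))
    refine le_trans (le_of_eq ?_) k1
    field_simp

end

end Helper12.Fac
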