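import Mathlib
import Pool.Agent.Helper12.FacAlg
import Pool.Agent.Helper12.FacTop5

/-!
# Bounded branches: simplicity of the root and the conclusion (helper12)
-/

open Filter Topology Set MeasureTheory Polynomial

namespace Helper12.Fac

noncomputable section

variable {α β : ℝ → ℝ} {H : ℝ}

/-- the leading coefficient of `P` in the first variable -/
def leadP (P : MvPolynomial (Fin 2) ℂ) (d : ℕ) : ℂ[X] :=
  ∑ s ∈ P.support with s 0 = d, C (MvPolynomial.coeff s P) * X ^ (s 1)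

lemma leadP_eval (P : MvPolynomial (Fin 2) ℂ) (d : ℕ) (q : ℂ) :
    (leadP P d).eval q = ∑ s ∈ P.support with s 0 = d, MvPolynomial.coeff s P * q ^ (s 1) := by
  rw [leadP, Polynomial.eval_finsetSum]
  refine Finset.sum_congr rfl (fun s _ => ?_)
  simp

lemma edge_zero (P : MvPolynomial (Fin 2) ℂ) (d : ℕ) (u : ℂ) :
    edgePoly P 0 d u = C (u ^ d) * leadP P d := by
  rw [edgePoly, leadP, Finset.mul_sum]
  refine Finset.sum_congr ?_ (fun s hs => ?_)
  · ext s
    simp only [Finset.mem_filter, zero_mul, add_zero]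
    constructor
    · rintro ⟨h1, h2⟩
      exact ⟨h1, by exact_mod_cast h2⟩
    · rintro ⟨h1, h2⟩
      exact ⟨h1, by exact_mod_cast h2⟩
  · simp only [Finset.mem_filter] at hs
    rw [← hs.2, ← mul_assoc, ← C_mul]
    congr 2
    ring

/-- a Taylor argument for double zeros -/
lemma deriv_small {F k : ℂ → ℂ} {w r D : ℂ} {M : ℝ} (hk : Continuous k)
    (hF : ∀ q, F q = (q - w) * k q) (hkr : k r = 0)
    (hT : ∀ q, ‖q - w‖ ≤ 1 → ‖F q - F w - (q - w) * D‖ ≤ M * ‖q - w‖ ^ 2)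
    (hr : ‖r - w‖ ≤ 1) : ‖D‖ ≤ M * ‖r - w‖ := by
  have hFw : F w = 0 := by rw [hF, sub_self, zero_mul]
  have key : ∀ q, ‖q - w‖ ≤ 1 → q ≠ w → ‖k q - D‖ ≤ M * ‖q - w‖ := by
    intro q hq hne
    have h1 := hT q hq
    rw [hFw, sub_zero, hF, ← mul_sub, norm_mul] at h1
    have h2 : 0 < ‖q - w‖ := norm_pos_iff.2 (sub_ne_zero.2 hne)
    have h3 : ‖q - w‖ * ‖k q - D‖ ≤ ‖q - w‖ * (M * ‖q - w‖) := by
      refine h1.trans (le_of_eq (by ring))
    exact le_of_mul_le_mul_left h3 h2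
  have key2 : ∀ q, ‖q - w‖ ≤ 1 → ‖k q - D‖ ≤ M * ‖q - w‖ := by
    intro q hq
    by_cases hne : q = w
    · subst hne
      rw [sub_self, norm_zero, mul_zero]
      have t1 : Tendsto (fun m : ℕ => q + ((1 / (m + 1 : ℝ) : ℝ) : ℂ)) atTop (𝓝 q) := by
        have h1 := tendsto_one_div_add_atTop_nhds_zero_nat (𝕜 := ℝ)
        have h2 := ((Complex.continuous_ofReal.tendsto 0).comp h1).const_add q
        simpa using h2
      have t2 : Tendsto (fun m : ℕ => ‖k (q + ((1 / (m + 1 : ℝ) : ℝ) : ℂ)) - D‖) atTop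
          (𝓝 ‖k q - D‖) := (((hk.tendsto q).comp t1).sub_const D).norm
      have t3 : Tendsto (fun m : ℕ => M * (1 / (m + 1 : ℝ))) atTop (𝓝 0) := by
        have h1 := (tendsto_one_div_add_atTop_nhds_zero_nat (𝕜 := ℝ)).const_mul M
        simpa using h1
      refine le_of_tendsto_of_tendsto' t2 t3 (fun m => ?_)
      have hpos : (0:ℝ) < 1 / (m + 1 : ℝ) := by positivity
      have hle : (1:ℝ) / (m + 1 : ℝ) ≤ 1 := by
        rw [div_le_one (by positivity)]
        linarith [show (0:ℝ) ≤ m from m.cast_nonneg]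
      have hn : ‖q + ((1 / (m + 1 : ℝ) : ℝ) : ℂ) - q‖ = 1 / (m + 1 : ℝ) := by
        rw [add_sub_cancel_left, Complex.norm_real, Real.norm_eq_abs, abs_of_pos hpos]
      have := key (q + ((1 / (m + 1 : ℝ) : ℝ) : ℂ)) (by rw [hn]; exact hle) (by
        intro h
        rw [h, sub_self, norm_zero] at hn
        linarith)
      rwa [hn] at this
    · exact key q hq hne
  have := key2 r hr
  rwa [hkr, zero_sub, norm_neg] at this

/-- roots converging to a root of the leading coefficient -/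
lemma lead_roots (P : MvPolynomial (Fin 2) ℂ) {d : ℕ} (hd : ∀ s ∈ P.support, s 0 ≤ d)
    (hA : leadP P d ≠ 0) {c : ℂ} (hc : (leadP P d).eval c = 0) {u : ℂ} (hu : u ≠ 0)
    {τ : ℕ → ℝ} (hτ : Tendsto τ atTop atTop) :
    ∃ q : ℕ → ℂ, Tendsto q atTop (𝓝 c) ∧ ∀ᶠ n in atTop, ev P ((τ n : ℂ) * u) (q n) = 0 := by
  obtain ⟨q, hq, hr⟩ := weighted_roots P 0 d (fun s hs => by
      rw [zero_mul, add_zero]
      exact_mod_cast hd s hs) hτ (tendsto_const_nhds (x := u))
    (by
      rw [edge_zero]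
      exact mul_ne_zero (by simpa using pow_ne_zero d hu) hA) (w0 := c) (by
      rw [edge_zero, Polynomial.eval_mul, hc, mul_zero])
  exact ⟨q, hq, by simpa using hr⟩

lemma lead_limit (P : MvPolynomial (Fin 2) ℂ) {d : ℕ} (hd : ∀ s ∈ P.support, s 0 ≤ d)
    (u w : ℂ) {τ : ℕ → ℝ} (hτ : Tendsto τ atTop atTop) :
    Tendsto (fun n => ((τ n ^ (-(d:ℝ)) : ℝ) : ℂ) * ev P ((τ n : ℂ) * u) w) atTop
      (𝓝 (u ^ d * (leadP P d).eval w)) := by
  have h1 := weighted_limit P 0 d (fun s hs => by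
      rw [zero_mul, add_zero]
      exact_mod_cast hd s hs) hτ (tendsto_const_nhds (x := u)) (tendsto_const_nhds (x := w))
  rw [← edgePoly_eval, edge_zero, Polynomial.eval_mul, Polynomial.eval_C] at h1
  simpa using h1

/-- the root of the leading coefficient is simple -/
lemma simple_root (S : SliceData α β H) (P : MvPolynomial (Fin 2) ℂ) {d : ℕ}
    (hd : ∀ s ∈ P.support, s 0 ≤ d) {f : ℂ → ℂ → ℂ} (hf : ∀ z, Continuous (f z))
    (hfac : ∀ z q, Phi α β H z q = ev P z q * f z q) {c : ℂ} {Q : ℂ[X]}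
    (hQ : leadP P d = (X - C c) * Q) (hQ0 : Q ≠ 0) : Q.eval c ≠ 0 := by
  intro hQc
  have hA : leadP P d ≠ 0 := by
    rw [hQ]
    exact mul_ne_zero (X_sub_C_ne_zero c) hQ0
  have hAc : (leadP P d).eval c = 0 := by rw [hQ]; simp
  set τ : ℕ → ℝ := fun n => (n : ℝ) with hτdef
  have hτ : Tendsto τ atTop atTop := tendsto_natCast_atTop_atTop
  obtain ⟨q, hq, hroot⟩ := lead_roots P hd hA hAc Complex.I_ne_zero hτ
  have h0 : ∀ᶠ n in atTop, Phi α β H (Complex.I * τ n) (q n) = 0 := by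
    filter_upwards [hroot] with n hn
    rw [hfac, mul_comm Complex.I, hn, zero_mul]
  obtain ⟨-, -, -, -, hG'⟩ := face_data S hτ hq h0
  have hG'pos : 0 < ‖G' (α 0) (β 0) c‖ := norm_pos_iff.2 hG'
  have hPhi' := (watson_Phi' S hτ hq).norm
  obtain ⟨M, hM, hT⟩ := Phi_taylor S (‖c‖ + 1)
  set N : ℕ := P.totalDegree with hN
  -- choice of the radius
  obtain ⟨δ, hδ, hδ1, hδM⟩ : ∃ δ : ℝ, 0 < δ ∧ δ ≤ 1/2 ∧ M * (2 * δ) < ‖G' (α 0) (β 0) c‖ / 2 := by
    refine ⟨min (1/2) (‖G' (α 0) (β 0) c‖ / (4 * (2 * M + 1))), by positivity, min_le_left _ _, ?_⟩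
    have h1 : min (1/2) (‖G' (α 0) (β 0) c‖ / (4 * (2 * M + 1))) ≤
      ‖G' (α 0) (β 0) c‖ / (4 * (2 * M + 1)) := min_le_right _ _
    have h2 : M * (2 * min (1/2) (‖G' (α 0) (β 0) c‖ / (4 * (2 * M + 1)))) ≤
        2 * M * (‖G' (α 0) (β 0) c‖ / (4 * (2 * M + 1))) := by
      have := mul_le_mul_of_nonneg_left h1 (show 0 ≤ 2 * M by positivity)
      linarith
    have h3 : 2 * M * (‖G' (α 0) (β 0) c‖ / (4 * (2 * M + 1))) <
        (2 * M + 1) * (‖G' (α 0) (β 0) c‖ / (4 * (2 * M + 1))) := by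
      have : 0 < ‖G' (α 0) (β 0) c‖ / (4 * (2 * M + 1)) := by positivity
      exact mul_lt_mul_of_pos_right (by linarith) this
    have h4 : (2 * M + 1) * (‖G' (α 0) (β 0) c‖ / (4 * (2 * M + 1))) =
        ‖G' (α 0) (β 0) c‖ / 4 := by field_simp
    linarith
  -- auxiliary points
  have hQX : Q * (X - C c) ≠ 0 := mul_ne_zero hQ0 (X_sub_C_ne_zero c)
  obtain ⟨w1, hw1, hQw1⟩ := exists_ne_near hQX c (δ/4) (by positivity)
  rw [Polynomial.eval_mul, Polynomial.eval_sub, Polynomial.eval_X, Polynomial.eval_C] at hQw1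
  have hQw1' : Q.eval w1 ≠ 0 := left_ne_zero_of_mul hQw1
  have hw1c : w1 - c ≠ 0 := right_ne_zero_of_mul hQw1
  have hsmall : Tendsto (fun w => (3/2:ℝ) ^ N * ‖Q.eval w‖) (𝓝 c) (𝓝 0) := by
    have h1 : Tendsto (fun w => (3/2:ℝ) ^ N * ‖Q.eval w‖) (𝓝 c)
        (𝓝 ((3/2:ℝ) ^ N * ‖Q.eval c‖)) := by
      apply Continuous.tendsto
      fun_prop
    rwa [hQc, norm_zero, mul_zero] at h1
  obtain ⟨ρ, hρ, hρb⟩ := Metric.eventually_nhds_iff.1
    (hsmall.eventually (gt_mem_nhds (show (0:ℝ) < ‖Q.eval w1‖ from norm_pos_iff.2 hQw1')))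
  set κ : ℝ := min (ρ/2) (δ/4) with hκ
  have hκ0 : 0 < κ := by positivity
  set w0 : ℂ := c + (κ : ℂ) with hw0
  have hw0c : ‖w0 - c‖ = κ := by
    rw [hw0, add_sub_cancel_left, Complex.norm_real, Real.norm_eq_abs, abs_of_pos hκ0]
  have hw0ne : w0 - c ≠ 0 := by
    rw [← norm_pos_iff, hw0c]
    exact hκ0
  have hlt : (3/2:ℝ) ^ N * ‖Q.eval w0‖ < ‖Q.eval w1‖ := by
    apply hρb
    rw [dist_eq_norm, hw0c]
    have : κ ≤ ρ/2 := min_le_left _ _
    linarith
  have hκδ : κ ≤ δ/4 := min_le_right _ _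
  have hw10 : ‖w1 - w0‖ ≤ δ / 2 := by
    have : w1 - w0 = (w1 - c) - (w0 - c) := by ring
    rw [this]
    refine (norm_sub_le _ _).trans ?_
    rw [hw0c]
    linarith
  -- quotient polynomials
  set p : ℕ → ℂ[X] := fun n => C ((τ n ^ (-(d:ℝ)) : ℝ) : ℂ) * line P ((τ n : ℂ) * Complex.I) 0 1
    with hp
  have hpe : ∀ n w, (p n).eval w =
      ((τ n ^ (-(d:ℝ)) : ℝ) : ℂ) * ev P ((τ n : ℂ) * Complex.I) w := by
    intro n w
    rw [hp]
    simp only
    rw [Polynomial.eval_mul, Polynomial.eval_C, line_eval, zero_add, one_mul]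
  have hpdeg : ∀ n, (p n).natDegree ≤ N := fun n =>
    (Polynomial.natDegree_C_mul_le _ _).trans (line_natDegree P _ _ _)
  set R : ℕ → ℂ[X] := fun n => p n /ₘ (X - C (q n)) with hR
  have hRdeg : ∀ n, (R n).natDegree ≤ N := by
    intro n
    rw [hR]
    simp only
    rw [Polynomial.natDegree_divByMonic _ (monic_X_sub_C _), natDegree_X_sub_C]
    have := hpdeg n
    omega
  have hpR : ∀ᶠ n in atTop, ∀ w, (p n).eval w = (w - q n) * (R n).eval w := by
    filter_upwards [hroot] with n hn w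
    have hr : (p n).IsRoot (q n) := by
      rw [IsRoot.def, hpe, hn, mul_zero]
    have h1 := mul_divByMonic_eq_iff_isRoot.2 hr
    conv_lhs => rw [← h1]
    rw [Polynomial.eval_mul, Polynomial.eval_sub, Polynomial.eval_X, Polynomial.eval_C]
  have hRlim : ∀ w, w - c ≠ 0 → Tendsto (fun n => (R n).eval w) atTop
      (𝓝 (Complex.I ^ d * Q.eval w)) := by
    intro w hw
    have h1 := lead_limit P hd Complex.I w hτ
    have h2 : Tendsto (fun n => (w - q n)⁻¹) atTop (𝓝 (w - c)⁻¹) :=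
      (hq.const_sub w).inv₀ hw
    have h3 := h1.mul h2
    have h4 : Complex.I ^ d * (leadP P d).eval w * (w - c)⁻¹ = Complex.I ^ d * Q.eval w := by
      rw [hQ, Polynomial.eval_mul, Polynomial.eval_sub, Polynomial.eval_X, Polynomial.eval_C]
      field_simp
    rw [h4] at h3
    refine h3.congr' ?_
    have hne : ∀ᶠ n in atTop, w - q n ≠ 0 := (hq.const_sub w).eventually_ne hw
    filter_upwards [hpR, hne] with n hn hn2
    rw [← hpe, hn w]
    field_simp
  -- the second root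
  have hnI : ‖(Complex.I ^ d : ℂ)‖ = 1 := by simp
  have t0 := ((hRlim w0 hw0ne).norm).const_mul ((3/2:ℝ) ^ N)
  have t1 := (hRlim w1 hw1c).norm
  rw [norm_mul, hnI, one_mul] at t0 t1
  have hev := t0.eventually_lt t1 hlt
  have hB : ∀ᶠ n in atTop, ‖q n‖ ≤ ‖c‖ + 1 := hq.norm.eventually_le_const (by linarith)
  have hqc : ∀ᶠ n in atTop, ‖q n - c‖ < δ/2 := by
    have := Metric.tendsto_nhds.1 hq (δ/2) (by positivity)
    filter_upwards [this] with n hn
    rwa [dist_eq_norm] at hn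
  have hbig : ∀ᶠ n in atTop, ‖G' (α 0) (β 0) c‖ / 2 <
      ‖(τ n : ℂ) * Phi' α β H (Complex.I * τ n) (q n)‖ :=
    hPhi'.eventually (lt_mem_nhds (by linarith))
  obtain ⟨n, hn1, hn2, hn3, hn4, hn5, hn6, hn7⟩ := (hev.and (hB.and (hqc.and (hbig.and
    (hpR.and (hroot.and (hτ.eventually_gt_atTop 0))))))).exists
  obtain ⟨r, hr, hrw0⟩ := root_near (hRdeg n) hw10 hn1
  have hrq : ‖r - q n‖ ≤ 2 * δ := by
    have : r - q n = (r - w0) + (w0 - c) - (q n - c) := by ring
    rw [this]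
    refine (norm_sub_le _ _).trans ?_
    have := norm_add_le (r - w0) (w0 - c)
    rw [hw0c] at this
    linarith
  have hτd : ((τ n ^ (-(d:ℝ)) : ℝ) : ℂ) ≠ 0 := by
    have := Real.rpow_pos_of_pos hn7 (-(d:ℝ))
    exact_mod_cast this.ne'
  have hD := deriv_small (F := Phi α β H (Complex.I * τ n))
    (k := fun w => (((τ n ^ (-(d:ℝ)) : ℝ) : ℂ))⁻¹ * (R n).eval w * f (Complex.I * τ n) w)
    (w := q n) (r := r) (D := Phi' α β H (Complex.I * τ n) (q n)) (M := M / τ n)
    (by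
      have := hf (Complex.I * τ n)
      have h2 : Continuous (fun w => (R n).eval w) := (R n).continuous
      exact (continuous_const.mul h2).mul this)
    (by
      intro w
      rw [hfac]
      have h1 := hn5 w
      rw [hpe] at h1
      have h2 : ev P (Complex.I * τ n) w =
          (((τ n ^ (-(d:ℝ)) : ℝ) : ℂ))⁻¹ * ((w - q n) * (R n).eval w) := by
        rw [← h1, mul_comm Complex.I]
        field_simp
      rw [h2]
      ring)
    (by simp only [hr, mul_zero, zero_mul])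
    (by
      intro w hw
      refine (hT (τ n) hn7 w (q n) hn2 hw).trans (le_of_eq ?_)
      ring)
    (hrq.trans (by linarith))
  rw [norm_mul, Complex.norm_real, Real.norm_eq_abs, abs_of_pos hn7] at hn4
  have h5 : τ n * ‖Phi' α β H (Complex.I * τ n) (q n)‖ ≤ M * (2 * δ) := by
    calc τ n * ‖Phi' α β H (Complex.I * τ n) (q n)‖
        ≤ τ n * (M / τ n * ‖r - q n‖) := by gcongr
      _ = M * ‖r - q n‖ := by field_simp
      _ ≤ M * (2 * δ) := by gcongr
  linarith

/-- first order expansion of a simple bounded branch -/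
lemma branch_limit (P : MvPolynomial (Fin 2) ℂ) {d : ℕ}
    (hd : ∀ s ∈ P.support, s 0 ≤ d) {c : ℂ} {Q : ℂ[X]}
    (hQ : leadP P d = (X - C c) * Q) (hQc : Q.eval c ≠ 0) :
    ∃ g : ℂ, ∀ u : ℂ, u ≠ 0 → ∀ (τ : ℕ → ℝ) (q : ℕ → ℂ), Tendsto τ atTop atTop →
      Tendsto q atTop (𝓝 c) → (∀ᶠ n in atTop, ev P ((τ n : ℂ) * u) (q n) = 0) →
      Tendsto (fun n => (τ n : ℂ) * u * (q n - c)) atTop (𝓝 g) := by
  refine ⟨-(∑ s ∈ P.support with s 0 ≠ d, MvPolynomial.coeff s P *
    ((if s 0 + 1 = d then 1 else 0) * c ^ (s 1))) / Q.eval c, ?_⟩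
  intro u hu τ q hτ hq hroot
  have hz : Tendsto (fun n => ‖(τ n : ℂ) * u‖) atTop atTop := by
    have h1 : Tendsto (fun n => τ n * ‖u‖) atTop atTop :=
      hτ.atTop_mul_const (norm_pos_iff.2 hu)
    refine h1.congr' ?_
    filter_upwards [hτ.eventually_gt_atTop 0] with n hn
    rw [norm_mul, Complex.norm_real, Real.norm_eq_abs, abs_of_pos hn]
  have hzinv : Tendsto (fun n => ((τ n : ℂ) * u)⁻¹) atTop (𝓝 0) := by
    rw [tendsto_zero_iff_norm_tendsto_zero]
    refine (tendsto_inv_atTop_zero.comp hz).congr (fun n => ?_)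
    rw [Function.comp_apply, norm_inv]
  have hzne : ∀ᶠ n in atTop, (τ n : ℂ) * u ≠ 0 := by
    filter_upwards [hτ.eventually_gt_atTop 0] with n hn
    have : (τ n : ℂ) ≠ 0 := by exact_mod_cast hn.ne'
    exact mul_ne_zero this hu
  have hterm : ∀ s ∈ P.support.filter (fun s => s 0 ≠ d),
      Tendsto (fun n => MvPolynomial.coeff s P *
        ((((τ n : ℂ) * u) ^ (s 0 + 1) / ((τ n : ℂ) * u) ^ d) * (q n) ^ (s 1))) atTop
        (𝓝 (MvPolynomial.coeff s P * ((if s 0 + 1 = d then 1 else 0) * c ^ (s 1)))) := by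
    intro s hs
    simp only [Finset.mem_filter] at hs
    have hlt : s 0 < d := lt_of_le_of_ne (hd s hs.1) hs.2
    refine Tendsto.const_mul _ (Tendsto.mul ?_ (hq.pow _))
    by_cases h1 : s 0 + 1 = d
    · rw [if_pos h1, h1]
      refine tendsto_const_nhds.congr' ?_
      filter_upwards [hzne] with n hn
      rw [div_self (pow_ne_zero _ hn)]
    · rw [if_neg h1]
      obtain ⟨k, hk⟩ : ∃ k, d = (s 0 + 1) + (k + 1) := ⟨d - (s 0 + 1) - 1, by omega⟩
      have h2 : Tendsto (fun n => (((τ n : ℂ) * u)⁻¹) ^ (k + 1)) atTop (𝓝 0) := by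
        simpa using hzinv.pow (k + 1)
      refine h2.congr' ?_
      filter_upwards [hzne] with n hn
      rw [hk, pow_add ((τ n : ℂ) * u) (s 0 + 1) (k + 1), inv_pow]
      have := pow_ne_zero (s 0 + 1) hn
      have := pow_ne_zero (k + 1) hn
      field_simp
  have hsum := tendsto_finsetSum _ hterm
  have hQlim : Tendsto (fun n => Q.eval (q n)) atTop (𝓝 (Q.eval c)) :=
    (Q.continuous.tendsto c).comp hq
  have hfin := hsum.neg.div hQlim hQc
  refine hfin.congr' ?_
  filter_upwards [hroot, hzne, hQlim.eventually_ne hQc] with n hn hn2 hn3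
  rw [Pi.div_apply, div_eq_iff hn3]
  have hzd : ((τ n : ℂ) * u) ^ d ≠ 0 := pow_ne_zero d hn2
  have e1 : ∑ s ∈ P.support with s 0 ≠ d, MvPolynomial.coeff s P *
        ((((τ n : ℂ) * u) ^ (s 0 + 1) / ((τ n : ℂ) * u) ^ d) * (q n) ^ (s 1)) =
      ((τ n : ℂ) * u) / ((τ n : ℂ) * u) ^ d *
        ∑ s ∈ P.support with s 0 ≠ d, MvPolynomial.coeff s P *
          (((τ n : ℂ) * u) ^ (s 0) * (q n) ^ (s 1)) := by
    rw [Finset.mul_sum]
    refine Finset.sum_congr rfl (fun s _ => ?_)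
    ring
  have e2 : ∑ s ∈ P.support with s 0 = d, MvPolynomial.coeff s P *
          (((τ n : ℂ) * u) ^ (s 0) * (q n) ^ (s 1)) =
      ((τ n : ℂ) * u) ^ d * ((q n - c) * Q.eval (q n)) := by
    have h1 : (q n - c) * Q.eval (q n) = (leadP P d).eval (q n) := by
      rw [hQ, Polynomial.eval_mul, Polynomial.eval_sub, Polynomial.eval_X, Polynomial.eval_C]
    rw [h1, leadP_eval, Finset.mul_sum]
    refine Finset.sum_congr rfl (fun s hs => ?_)
    simp only [Finset.mem_filter] at hs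
    rw [hs.2]
    ring
  have e3 : ev P ((τ n : ℂ) * u) (q n) =
      ((τ n : ℂ) * u) ^ d * ((q n - c) * Q.eval (q n)) +
      ∑ s ∈ P.support with s 0 ≠ d, MvPolynomial.coeff s P *
          (((τ n : ℂ) * u) ^ (s 0) * (q n) ^ (s 1)) := by
    rw [← e2, ev_eq]
    exact (Finset.sum_filter_add_sum_filter_not _ _ _).symm
  rw [hn] at e3
  have e4 : ∑ s ∈ P.support with s 0 ≠ d, MvPolynomial.coeff s P *
          (((τ n : ℂ) * u) ^ (s 0) * (q n) ^ (s 1)) =
      -(((τ n : ℂ) * u) ^ d * ((q n - c) * Q.eval (q n))) := by linear_combination -e3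
  rw [e1, e4]
  field_simp

/-- reversal of the body -/
lemma Phi_rev (α β : ℝ → ℝ) (H : ℝ) (z q : ℂ) :
    Phi (fun h => α (H - h)) (fun h => β (H - h)) H z q =
      Complex.exp (Complex.I * H * z) * Phi α β H (-z) q := by
  have h1 := intervalIntegral.integral_comp_sub_left (a := 0) (b := H)
    (fun h : ℝ => Complex.exp (Complex.I * (H - h : ℝ) * z) * G (α h) (β h) q) H
  rw [sub_self, sub_zero] at h1
  have h2 : Phi (fun h => α (H - h)) (fun h => β (H - h)) H z q =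
      ∫ x in (0:ℝ)..H, Complex.exp (Complex.I * (H - (H - x) : ℝ) * z) *
        G (α (H - x)) (β (H - x)) q := by
    rw [Phi]
    congr 1
    ext x
    rw [sub_sub_cancel]
  rw [h2, h1, Phi, ← intervalIntegral.integral_const_mul]
  congr 1
  ext h
  rw [← mul_assoc, ← Complex.exp_add]
  congr 2
  push_cast
  ring

lemma SliceData.rev (S : SliceData α β H) :
    SliceData (fun h => α (H - h)) (fun h => β (H - h)) H := by
  have hmaps : ∀ x ∈ Icc 0 H, H - x ∈ Icc 0 H := by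
    intro x hx
    exact ⟨by linarith [hx.2], by linarith [hx.1]⟩
  have hcomb : ∀ x y a b : ℝ, a + b = 1 →
      H - (a * x + b * y) = a * (H - x) + b * (H - y) := by
    intro x y a b hab
    have : H = (a + b) * H := by rw [hab, one_mul]
    linear_combination this
  refine ⟨S.hH, ⟨convex_Icc _ _, ?_⟩, ⟨convex_Icc _ _, ?_⟩, ?_, ?_, ?_⟩
  · intro x hx y hy a b ha hb hab
    have := S.ha.2 (hmaps x hx) (hmaps y hy) ha hb hab
    simp only [smul_eq_mul] at this ⊢
    rwa [hcomb x y a b hab]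
  · intro x hx y hy a b ha hb hab
    have := S.hb.2 (hmaps x hx) (hmaps y hy) ha hb hab
    simp only [smul_eq_mul] at this ⊢
    rwa [hcomb x y a b hab]
  · exact S.hac.comp (by fun_prop) hmaps
  · exact S.hbc.comp (by fun_prop) hmaps
  · intro x hx
    exact S.hlt (H - x) ⟨by linarith [hx.2], by linarith [hx.1]⟩

/-- a factor with nonconstant leading coefficient in the direction of the slices forces constant
chord length -/
theorem bb (S : SliceData α β H) (P : MvPolynomial (Fin 2) ℂ) {d : ℕ}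
    (hd : ∀ s ∈ P.support, s 0 ≤ d) {f : ℂ → ℂ → ℂ} (hf : ∀ z, Continuous (f z))
    (hfac : ∀ z q, Phi α β H z q = ev P z q * f z q) (hdeg : 0 < (leadP P d).degree) :
    ∀ h ∈ Icc 0 H, β h - α h = β 0 - α 0 := by
  obtain ⟨c, hc⟩ := IsAlgClosed.exists_root (leadP P d) hdeg.ne'
  rw [IsRoot.def] at hc
  obtain ⟨Q, hQ⟩ := dvd_iff_isRoot.2 hc
  have hA : leadP P d ≠ 0 := by
    intro h
    rw [h] at hdeg
    simp at hdeg
  have hQ0 : Q ≠ 0 := by
    rintro rfl
    rw [mul_zero] at hQ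
    exact hA hQ
  have hQc := simple_root S P hd hf hfac hQ hQ0
  obtain ⟨g, hg⟩ := branch_limit P hd hQ hQc
  set τ : ℕ → ℝ := fun n => (n : ℝ) with hτdef
  have hτ : Tendsto τ atTop atTop := tendsto_natCast_atTop_atTop
  -- the top
  obtain ⟨q, hq, hroot⟩ := lead_roots P hd hA hc Complex.I_ne_zero hτ
  have h0 : ∀ᶠ n in atTop, Phi α β H (Complex.I * τ n) (q n) = 0 := by
    filter_upwards [hroot] with n hn
    rw [hfac, mul_comm Complex.I, hn, zero_mul]
  obtain ⟨hc0, -, hexp, -, -⟩ := face_data S hτ hq h0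
  have hpos := face_pos S hτ hq h0
  have hL : Tendsto (fun n => (τ n : ℂ) * (q n - c)) atTop (𝓝 (-(Complex.I * g))) := by
    have h1 := (hg Complex.I Complex.I_ne_zero τ q hτ hq hroot).const_mul (-Complex.I)
    rw [neg_mul] at h1
    refine h1.congr (fun n => ?_)
    linear_combination (-((τ n : ℂ) * (q n - c))) * Complex.I_mul_I
  obtain ⟨t, ht, hslope⟩ := top_slope S hτ hc0 hexp hL h0
  -- the bottom
  have hnI : (-Complex.I : ℂ) ≠ 0 := neg_ne_zero.2 Complex.I_ne_zero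
  obtain ⟨q', hq', hroot'⟩ := lead_roots P hd hA hc hnI hτ
  have S' := S.rev
  have h0' : ∀ᶠ n in atTop, Phi (fun h => α (H - h)) (fun h => β (H - h)) H
      (Complex.I * τ n) (q' n) = 0 := by
    filter_upwards [hroot'] with n hn
    have e : -(Complex.I * (τ n : ℂ)) = (τ n : ℂ) * (-Complex.I) := by ring
    rw [Phi_rev, hfac, e, hn, zero_mul, mul_zero]
  obtain ⟨-, -, hexp', -, -⟩ := face_data S' hτ hq' h0'
  have hpos' := face_pos S' hτ hq' h0'
  have hL' : Tendsto (fun n => (τ n : ℂ) * (q' n - c)) atTop (𝓝 (Complex.I * g)) := by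
    have h1 := (hg (-Complex.I) hnI τ q' hτ hq' hroot').const_mul (Complex.I)
    refine h1.congr (fun n => ?_)
    linear_combination (-((τ n : ℂ) * (q' n - c))) * Complex.I_mul_I
  obtain ⟨t', ht', hslope'⟩ := top_slope S' hτ hc0 hexp' hL' h0'
  simp only [sub_zero] at hpos' ht' hslope'
  have hH := S.hH
  -- relation
  have hrel : (β 0 - α 0) * t' = -((β H - α H) * t) := by
    have h1 : (((β 0 - α 0) * t' : ℝ) : ℂ) * c = ((-((β H - α H) * t) : ℝ) : ℂ) * c := by
      push_cast at ht ht' ⊢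
      linear_combination ((β 0 : ℂ) - α 0) * ht' + ((β H : ℂ) - α H) * ht
    have h2 := mul_right_cancel₀ hc0 h1
    exact_mod_cast h2
  have s1 := hslope H ⟨hH, le_rfl⟩
  have s2 := hslope' H ⟨hH, le_rfl⟩
  simp only [sub_self] at s2
  rw [div_le_iff₀ hH] at s1 s2
  set a : ℝ := β 0 - α 0 with ha
  set b : ℝ := β H - α H with hb
  have ha0 : 0 < a := by linarith
  have hb0 : 0 < b := by linarith
  have k1 : a * (a - b) ≤ -(b * t) * H := by
    have := mul_le_mul_of_nonneg_left s2 ha0.le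
    have e : a * (t' * H) = -(b * t) * H := by
      rw [← hrel]
      ring
    linarith
  have k2 : b * (b - a) ≤ b * (t * H) := mul_le_mul_of_nonneg_left s1 hb0.le
  have k3 : (a - b) ^ 2 ≤ 0 := by nlinarith
  have hab : a = b := by
    have : (a - b) ^ 2 = 0 := le_antisymm k3 (sq_nonneg _)
    have := pow_eq_zero_iff (two_ne_zero) |>.1 this
    linarith
  have ht0 : t ≤ 0 := by
    by_contra hcon
    push Not at hcon
    rw [← hab, sub_self, mul_zero] at k1
    have : 0 < a * t * H := by positivity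
    linarith
  intro h hh
  rcases hh.1.eq_or_lt with h1 | h1
  · rw [← h1]
  · have s3 := hslope h ⟨h1, hh.2⟩
    rw [div_le_iff₀ h1] at s3
    have s4 : β h - α h ≤ a := by nlinarith
    have hk := S.len_concave.2 S.zero_mem S.H_mem
      (show 0 ≤ 1 - h / H by rw [sub_nonneg, div_le_one hH]; exact hh.2)
      (show 0 ≤ h / H from div_nonneg hh.1 hH.le) (by ring)
    simp only [smul_eq_mul, mul_zero, zero_add] at hk
    rw [div_mul_cancel₀ _ hH.ne'] at hk
    have e1 : (1 - h / H) * (β 0 - α 0) + h / H * (β H - α H) = a := by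
      rw [← ha, ← hb, ← hab]
      ring
    linarith

end

end Helper12.Fac
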