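import Mathlib
import Pool.Agent.Helper12.FacSlice

/-!
# Slices of planar convex bodies (helper12)
-/

open Filter Topology Set MeasureTheory

namespace Helper12.Fac

noncomputable section

/-- transform of a planar set -/
def T (K : Set (ℝ × ℝ)) (z q : ℂ) : ℂ :=
  ∫ x in K, Complex.exp (Complex.I * x.1 * z) * Complex.exp (Complex.I * x.2 * q)

/-- lower boundary -/
def lower (K : Set (ℝ × ℝ)) (h : ℝ) : ℝ := sInf {y | (h, y) ∈ K}

variable {K : Set (ℝ × ℝ)}

lemma fib_compact (hK : IsCompact K) (h : ℝ) : IsCompact {y | (h, y) ∈ K} := by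
  have h1 : {y | (h, y) ∈ K} = Prod.snd '' (K ∩ {x | x.1 = h}) := by
    ext y
    simp only [mem_ofPred_eq, mem_image, mem_inter_iff]
    constructor
    · intro hy
      exact ⟨(h, y), ⟨hy, rfl⟩, rfl⟩
    · rintro ⟨⟨a, b⟩, ⟨h1, h2⟩, h3⟩
      simp only at h2 h3
      rw [← h2, ← h3]
      exact h1
  rw [h1]
  exact (hK.inter_right (isClosed_eq continuous_fst continuous_const)).image continuous_snd

lemma lower_mem (hK : IsCompact K) {h : ℝ} (hne : ∃ y, (h, y) ∈ K) : (h, lower K h) ∈ K :=
  (fib_compact hK h).sInf_mem hne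

lemma lower_le (hK : IsCompact K) {h y : ℝ} (hy : (h, y) ∈ K) : lower K h ≤ y :=
  csInf_le (fib_compact hK h).bddBelow hy

lemma lower_convex (hK : IsCompact K) (hc : Convex ℝ K) {a b : ℝ}
    (hab : ∀ h ∈ Icc a b, ∃ y, (h, y) ∈ K) : ConvexOn ℝ (Icc a b) (lower K) := by
  refine ⟨convex_Icc _ _, ?_⟩
  intro x hx y hy s t hs ht hst
  have h1 := lower_mem hK (hab x hx)
  have h2 := lower_mem hK (hab y hy)
  have h3 := hc h1 h2 hs ht hst
  exact lower_le hK h3

lemma lower_cont (hK : IsCompact K) (hc : Convex ℝ K) {a b : ℝ}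
    (hab : ∀ h ∈ Icc a b, ∃ y, (h, y) ∈ K) : ContinuousOn (lower K) (Icc a b) := by
  have hconv := lower_convex hK hc hab
  intro h0 hh0
  have hale : a ≤ b := hh0.1.trans hh0.2
  have ha : a ∈ Icc a b := ⟨le_rfl, hale⟩
  have hb : b ∈ Icc a b := ⟨hale, le_rfl⟩
  -- upper bound
  set C : ℝ := |lower K b - lower K h0| / (b - h0) + |lower K a - lower K h0| / (h0 - a) with hC
  have hup : ∀ h ∈ Icc a b, lower K h ≤ lower K h0 + C * |h - h0| := by
    intro h hh
    have hC1 : 0 ≤ |lower K b - lower K h0| / (b - h0) :=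
      div_nonneg (abs_nonneg _) (by linarith [hh0.2])
    have hC2 : 0 ≤ |lower K a - lower K h0| / (h0 - a) :=
      div_nonneg (abs_nonneg _) (by linarith [hh0.1])
    rcases lt_trichotomy h h0 with hlt | heq | hgt
    · have hpos : 0 < h0 - a := by linarith [hh.1]
      have h1 := hconv.2 hh0 ha (show 0 ≤ 1 - (h0 - h) / (h0 - a) by
          rw [sub_nonneg, div_le_one hpos]; linarith [hh.1])
        (show 0 ≤ (h0 - h) / (h0 - a) from div_nonneg (by linarith) hpos.le) (by ring)
      simp only [smul_eq_mul] at h1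
      have e1 : (1 - (h0 - h) / (h0 - a)) * h0 + (h0 - h) / (h0 - a) * a = h := by
        field_simp
        ring
      rw [e1] at h1
      have e2 : |h - h0| = h0 - h := by rw [abs_of_neg (by linarith)]; ring
      rw [e2]
      have e3 : (h0 - h) / (h0 - a) * (lower K a - lower K h0) ≤
          |lower K a - lower K h0| / (h0 - a) * (h0 - h) := by
        have := mul_le_mul_of_nonneg_left (le_abs_self (lower K a - lower K h0))
          (show 0 ≤ (h0 - h) / (h0 - a) from div_nonneg (by linarith) hpos.le)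
        refine this.trans (le_of_eq ?_)
        ring
      have e4 : 0 ≤ |lower K b - lower K h0| / (b - h0) * (h0 - h) :=
        mul_nonneg hC1 (by linarith)
      rw [hC, add_mul]
      linarith
    · rw [heq]
      simp
    · have hpos : 0 < b - h0 := by linarith [hh.2]
      have h1 := hconv.2 hh0 hb (show 0 ≤ 1 - (h - h0) / (b - h0) by
          rw [sub_nonneg, div_le_one hpos]; linarith [hh.2])
        (show 0 ≤ (h - h0) / (b - h0) from div_nonneg (by linarith) hpos.le) (by ring)
      simp only [smul_eq_mul] at h1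
      have e1 : (1 - (h - h0) / (b - h0)) * h0 + (h - h0) / (b - h0) * b = h := by
        field_simp
        ring
      rw [e1] at h1
      have e2 : |h - h0| = h - h0 := abs_of_pos (by linarith)
      rw [e2]
      have e3 : (h - h0) / (b - h0) * (lower K b - lower K h0) ≤
          |lower K b - lower K h0| / (b - h0) * (h - h0) := by
        have := mul_le_mul_of_nonneg_left (le_abs_self (lower K b - lower K h0))
          (show 0 ≤ (h - h0) / (b - h0) from div_nonneg (by linarith) hpos.le)
        refine this.trans (le_of_eq ?_)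
        ring
      have e4 : 0 ≤ |lower K a - lower K h0| / (h0 - a) * (h - h0) :=
        mul_nonneg hC2 (by linarith)
      rw [hC, add_mul]
      linarith
  have hup2 : Tendsto (fun h => lower K h0 + C * |h - h0|) (𝓝[Icc a b] h0) (𝓝 (lower K h0)) := by
    have : Tendsto (fun h => lower K h0 + C * |h - h0|) (𝓝 h0) (𝓝 (lower K h0 + C * |h0 - h0|)) :=
      Continuous.tendsto (by fun_prop) h0
    rw [sub_self, abs_zero, mul_zero, add_zero] at this
    exact this.mono_left nhdsWithin_le_nhds
  rw [ContinuousWithinAt, Metric.tendsto_nhds]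
  intro ε hε
  -- lower bound
  have hcl : IsClosed (Prod.fst '' (K ∩ {x | x.2 ≤ lower K h0 - ε})) :=
    ((hK.inter_right (isClosed_le continuous_snd continuous_const)).image
      continuous_fst).isClosed
  have hnot : h0 ∉ Prod.fst '' (K ∩ {x | x.2 ≤ lower K h0 - ε}) := by
    rintro ⟨⟨x, y⟩, ⟨h1, h2⟩, h3⟩
    simp only [mem_ofPred_eq] at h2 h3
    subst h3
    have := lower_le hK h1
    linarith
  have hev0 : ∀ᶠ h in 𝓝 h0, h ∉ Prod.fst '' (K ∩ {x | x.2 ≤ lower K h0 - ε}) :=
    hcl.isOpen_compl.mem_nhds hnot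
  have hev : ∀ᶠ h in 𝓝[Icc a b] h0, h ∉ Prod.fst '' (K ∩ {x | x.2 ≤ lower K h0 - ε}) :=
    hev0.filter_mono nhdsWithin_le_nhds
  have hev2 := hup2.eventually (gt_mem_nhds (show lower K h0 < lower K h0 + ε by linarith))
  filter_upwards [hev, hev2, self_mem_nhdsWithin] with h h1 h2 h3
  rw [Real.dist_eq, abs_lt]
  constructor
  · by_contra hcon
    push Not at hcon
    apply h1
    exact ⟨(h, lower K h), ⟨lower_mem hK (hab h h3), by
      simp only [mem_ofPred_eq]
      linarith⟩, rfl⟩
  · have := hup h h3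
    linarith

/-- vertical reflection -/
def refl (K : Set (ℝ × ℝ)) : Set (ℝ × ℝ) := {x | (x.1, -x.2) ∈ K}

lemma refl_image : refl K = (fun x : ℝ × ℝ => (x.1, -x.2)) '' K := by
  ext ⟨x, y⟩
  simp only [refl, mem_ofPred_eq, mem_image, Prod.mk.injEq, Prod.exists]
  constructor
  · intro h
    exact ⟨x, -y, h, rfl, by ring⟩
  · rintro ⟨a, b, h, rfl, rfl⟩
    rwa [neg_neg]

lemma refl_compact (hK : IsCompact K) : IsCompact (refl K) := by
  rw [refl_image]
  exact hK.image (by fun_prop)

lemma refl_convex (hc : Convex ℝ K) : Convex ℝ (refl K) := by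
  intro x hx y hy a b ha hb hab
  have := hc hx hy ha hb hab
  simp only [refl, mem_ofPred_eq, Prod.smul_mk, smul_eq_mul, Prod.mk_add_mk, Prod.fst_add,
    Prod.smul_fst, Prod.snd_add, Prod.smul_snd] at this ⊢
  convert this using 2
  ring

/-- every planar convex body is described by slice data -/
theorem slices (hK : IsCompact K) (hc : Convex ℝ K) (hint : (interior K).Nonempty) :
    ∃ (a H : ℝ) (α β : ℝ → ℝ), SliceData α β H ∧
      ∀ h y, (a + h, y) ∈ K ↔ h ∈ Icc 0 H ∧ α h ≤ y ∧ y ≤ β h := by
  have hne : K.Nonempty := hint.mono interior_subset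
  have hI : Prod.fst '' K = Icc (sInf (Prod.fst '' K)) (sSup (Prod.fst '' K)) :=
    eq_Icc_of_connected_compact
      ((hc.isConnected hne).image _ continuous_fst.continuousOn) (hK.image continuous_fst)
  set a : ℝ := sInf (Prod.fst '' K) with ha
  set b : ℝ := sSup (Prod.fst '' K) with hb
  have hfib : ∀ h ∈ Icc a b, ∃ y, (h, y) ∈ K := by
    intro h hh
    rw [← hI] at hh
    obtain ⟨⟨x, y⟩, h1, h2⟩ := hh
    simp only at h2
    exact ⟨y, h2 ▸ h1⟩
  have hfib' : ∀ h ∈ Icc a b, ∃ y, (h, y) ∈ refl K := by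
    intro h hh
    obtain ⟨y, hy⟩ := hfib h hh
    exact ⟨-y, by simpa [refl] using hy⟩
  have hmem : ∀ x ∈ K, x.1 ∈ Icc a b := by
    intro x hx
    rw [← hI]
    exact ⟨x, hx, rfl⟩
  -- interior point
  obtain ⟨⟨x0, y0⟩, hx0⟩ := hint
  rw [mem_interior_iff_mem_nhds, Metric.mem_nhds_iff] at hx0
  obtain ⟨ρ, hρ, hball⟩ := hx0
  have hin : ∀ s t : ℝ, |s| < ρ → |t| < ρ → (x0 + s, y0 + t) ∈ K := by
    intro s t hs ht
    apply hball
    rw [Metric.mem_ball, Prod.dist_eq]
    apply max_lt
    · simpa [Real.dist_eq] using hs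
    · simpa [Real.dist_eq] using ht
  have hρ2 : |ρ/2| < ρ := by rw [abs_of_pos (half_pos hρ)]; linarith
  have hρ2' : |-(ρ/2)| < ρ := by rw [abs_neg]; exact hρ2
  have hz : |(0:ℝ)| < ρ := by simpa using hρ
  have h1 := hmem _ (hin (ρ/2) 0 hρ2 hz)
  have h2 := hmem _ (hin (-(ρ/2)) 0 hρ2' hz)
  simp only at h1 h2
  have hupper : ∀ {h y}, (h, y) ∈ K → y ≤ -lower (refl K) h := by
    intro h y hy
    have := lower_le (refl_compact hK) (h := h) (y := -y) (by simpa [refl] using hy)
    linarith
  have hupmem : ∀ h ∈ Icc a b, (h, -lower (refl K) h) ∈ K := by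
    intro h hh
    exact lower_mem (refl_compact hK) (hfib' h hh)
  have hshift : ∀ h ∈ Icc 0 (b - a), a + h ∈ Icc a b := by
    intro h hh
    exact ⟨by linarith [hh.1], by linarith [hh.2]⟩
  have hconvα : ConvexOn ℝ (Icc 0 (b - a)) (fun h => lower K (a + h)) := by
    have h3 := lower_convex hK hc hfib
    refine ⟨convex_Icc _ _, ?_⟩
    intro x hx y hy s t hs ht hst
    have := h3.2 (hshift x hx) (hshift y hy) hs ht hst
    simp only [smul_eq_mul] at this ⊢
    convert this using 2
    linear_combination (-a) * hst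
  have hconvβ : ConvexOn ℝ (Icc 0 (b - a)) (fun h => lower (refl K) (a + h)) := by
    have h3 := lower_convex (refl_compact hK) (refl_convex hc) hfib'
    refine ⟨convex_Icc _ _, ?_⟩
    intro x hx y hy s t hs ht hst
    have := h3.2 (hshift x hx) (hshift y hy) hs ht hst
    simp only [smul_eq_mul] at this ⊢
    convert this using 2
    linear_combination (-a) * hst
  have hH : 0 < b - a := by linarith [h1.2, h2.1]
  have hlt : ∀ h ∈ Ioo 0 (b - a), lower K (a + h) < -lower (refl K) (a + h) := by
    -- chord length is concave, nonnegative, positive at `x0 - a`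
    set ℓ : ℝ → ℝ := fun h => -lower (refl K) (a + h) - lower K (a + h) with hℓ
    have hconc : ConcaveOn ℝ (Icc 0 (b - a)) ℓ := hconvβ.neg.sub hconvα
    have hnn : ∀ h ∈ Icc 0 (b - a), 0 ≤ ℓ h := by
      intro h hh
      have h3 := hupper (lower_mem hK (hfib _ (hshift h hh)))
      rw [hℓ]
      simp only
      linarith
    have hx0m : x0 - a ∈ Icc 0 (b - a) := ⟨by linarith [h2.1], by linarith [h1.2]⟩
    have hx0pos : 0 < ℓ (x0 - a) := by
      have h3 := hin 0 (ρ/2) hz hρ2
      have h4 := hin 0 (-(ρ/2)) hz hρ2'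
      rw [add_zero] at h3 h4
      have h5 := hupper h3
      have h6 := lower_le hK h4
      rw [hℓ]
      simp only
      rw [add_sub_cancel]
      linarith
    intro h hh
    have hgoal : 0 < ℓ h := by
      rcases le_total h (x0 - a) with hle | hle
      · -- between 0 and x0 - a
        have hp : 0 < x0 - a := lt_of_lt_of_le hh.1 hle
        have h3 := hconc.2 (⟨le_rfl, hH.le⟩ : (0:ℝ) ∈ Icc 0 (b - a)) hx0m
          (show 0 ≤ 1 - h / (x0 - a) by rw [sub_nonneg, div_le_one hp]; exact hle)
          (show 0 ≤ h / (x0 - a) from div_nonneg hh.1.le hp.le) (by ring)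
        simp only [smul_eq_mul, mul_zero, zero_add] at h3
        rw [div_mul_cancel₀ _ hp.ne'] at h3
        have h4 : 0 ≤ (1 - h / (x0 - a)) * ℓ 0 :=
          mul_nonneg (by rw [sub_nonneg, div_le_one hp]; exact hle) (hnn 0 ⟨le_rfl, hH.le⟩)
        have h5 : 0 < h / (x0 - a) * ℓ (x0 - a) := mul_pos (div_pos hh.1 hp) hx0pos
        linarith
      · have hp : 0 < (b - a) - (x0 - a) := by linarith [hh.2]
        have h3 := hconc.2 (⟨hH.le, le_rfl⟩ : (b - a) ∈ Icc 0 (b - a)) hx0m
          (show 0 ≤ 1 - (b - a - h) / ((b - a) - (x0 - a)) by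
            rw [sub_nonneg, div_le_one hp]; linarith)
          (show 0 ≤ (b - a - h) / ((b - a) - (x0 - a)) from
            div_nonneg (by linarith [hh.2]) hp.le) (by ring)
        simp only [smul_eq_mul] at h3
        have e1 : (1 - (b - a - h) / ((b - a) - (x0 - a))) * (b - a) +
            (b - a - h) / ((b - a) - (x0 - a)) * (x0 - a) = h := by
          field_simp
          ring
        rw [e1] at h3
        have h4 : 0 ≤ (1 - (b - a - h) / ((b - a) - (x0 - a))) * ℓ (b - a) :=
          mul_nonneg (by rw [sub_nonneg, div_le_one hp]; linarith) (hnn _ ⟨hH.le, le_rfl⟩)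
        have h5 : 0 < (b - a - h) / ((b - a) - (x0 - a)) * ℓ (x0 - a) :=
          mul_pos (div_pos (by linarith [hh.2]) hp) hx0pos
        linarith
    rw [hℓ] at hgoal
    simp only at hgoal
    linarith
  refine ⟨a, b - a, fun h => lower K (a + h), fun h => -lower (refl K) (a + h),
    ⟨hH, hconvα, hconvβ.neg, ?_, ?_, hlt⟩, ?_⟩
  · exact (lower_cont hK hc hfib).comp (by fun_prop) hshift
  · exact ((lower_cont (refl_compact hK) (refl_convex hc) hfib').comp
      (f := fun h : ℝ => a + h) (by fun_prop) hshift).neg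
  · intro h y
    constructor
    · intro hy
      have h3 := hmem _ hy
      simp only at h3
      exact ⟨⟨by linarith [h3.1], by linarith [h3.2]⟩, lower_le hK hy, hupper hy⟩
    · rintro ⟨hh, hl, hu⟩
      have h3 := lower_mem hK (hfib _ (hshift h hh))
      have h4 := hupmem _ (hshift h hh)
      -- y is a convex combination
      have hpc : Convex ℝ {y | (a + h, y) ∈ K} := by
        intro y1 hy1 y2 hy2 s t hs ht hst
        have := hc hy1 hy2 hs ht hst
        simp only [Prod.smul_mk, Prod.mk_add_mk, smul_eq_mul, mem_ofPred_eq] at this ⊢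
        have e : s * (a + h) + t * (a + h) = a + h := by
          rw [← add_mul, hst, one_mul]
        rwa [e] at this
      exact hpc.ordConnected.out h3 h4 ⟨hl, hu⟩

/-- the transform in terms of slices -/
lemma T_eq (hK : IsCompact K) {a H : ℝ} {α β : ℝ → ℝ} (S : SliceData α β H)
    (hKs : ∀ h y, (a + h, y) ∈ K ↔ h ∈ Icc 0 H ∧ α h ≤ y ∧ y ≤ β h) (z q : ℂ) :
    T K z q = Complex.exp (Complex.I * a * z) * Phi α β H z q := by
  set F : ℝ × ℝ → ℂ := fun x => Complex.exp (Complex.I * x.1 * z) * Complex.exp (Complex.I * x.2 * q)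
    with hF
  have hFc : Continuous F := by fun_prop
  have hint : Integrable (K.indicator F) := by
    rw [integrable_indicator_iff hK.measurableSet]
    exact hFc.continuousOn.integrableOn_compact hK
  have h1 : T K z q = ∫ x : ℝ, ∫ y : ℝ, K.indicator F (x, y) := by
    rw [T, ← integral_indicator hK.measurableSet]
    exact integral_prod _ hint
  have h2 : ∀ h : ℝ, ∫ y : ℝ, K.indicator F (a + h, y) =
      (Icc 0 H).indicator (fun h => Complex.exp (Complex.I * a * z) *
        (Complex.exp (Complex.I * h * z) * G (α h) (β h) q)) h := by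
    intro h
    by_cases hh : h ∈ Icc 0 H
    · rw [indicator_of_mem hh]
      have e1 : (fun y : ℝ => K.indicator F (a + h, y)) =
          (Icc (α h) (β h)).indicator (fun y : ℝ => Complex.exp (Complex.I * (a + h : ℝ) * z) *
            Complex.exp (Complex.I * y * q)) := by
        ext y
        by_cases hy : y ∈ Icc (α h) (β h)
        · rw [indicator_of_mem hy, indicator_of_mem ((hKs h y).2 ⟨hh, hy.1, hy.2⟩)]
        · rw [indicator_of_notMem hy, indicator_of_notMem]
          intro hcon
          have := (hKs h y).1 hcon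
          exact hy ⟨this.2.1, this.2.2⟩
      rw [e1, integral_indicator measurableSet_Icc, integral_Icc_eq_integral_Ioc,
        ← intervalIntegral.integral_of_le (S.le hh), intervalIntegral.integral_const_mul,
        ← mul_assoc, ← Complex.exp_add]
      congr 2
      push_cast
      ring
    · rw [indicator_of_notMem hh]
      have e1 : (fun y : ℝ => K.indicator F (a + h, y)) = fun _ => 0 := by
        ext y
        apply indicator_of_notMem
        intro hcon
        exact hh ((hKs h y).1 hcon).1
      rw [e1]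
      simp
  have h3 : ∫ x : ℝ, ∫ y : ℝ, K.indicator F (x, y) =
      ∫ h : ℝ, ∫ y : ℝ, K.indicator F (a + h, y) :=
    (integral_add_left_eq_self (μ := volume) (fun x : ℝ => ∫ y : ℝ, K.indicator F (x, y)) a).symm
  rw [h1, h3]
  simp only [h2]
  rw [integral_indicator measurableSet_Icc, integral_Icc_eq_integral_Ioc,
    ← intervalIntegral.integral_of_le S.hH.le, intervalIntegral.integral_const_mul]
  rfl

end

end Helper12.Fac
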