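import Mathlib
import Pool.Agent.Helper12.FacBody
import Pool.Agent.Helper12.FacAlg

/-!
# Linear changes of coordinates (helper12)
-/

open Filter Topology Set MeasureTheory

namespace Helper12.Fac

noncomputable section

/-- planar convex body -/
structure Body (K : Set (ℝ × ℝ)) : Prop where
  cpt : IsCompact K
  cvx : Convex ℝ K
  int : (interior K).Nonempty

/-- the transform is divisible by `P` -/
def HasFac (K : Set (ℝ × ℝ)) (P : MvPolynomial (Fin 2) ℂ) : Prop :=
  ∃ f : ℂ × ℂ → ℂ, Continuous f ∧ ∀ z q, T K z q = ev P z q * f (z, q)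

/-- invertible linear map with matrix `(a b; c d)` -/
def lin (a b c d : ℝ) (hD : a * d - b * c ≠ 0) : (ℝ × ℝ) ≃L[ℝ] (ℝ × ℝ) :=
  LinearEquiv.toContinuousLinearEquiv
  { toFun := fun x => (a * x.1 + b * x.2, c * x.1 + d * x.2)
    map_add' := fun x y => by
      ext
      · simp only [Prod.fst_add, Prod.snd_add]; ring
      · simp only [Prod.fst_add, Prod.snd_add]; ring
    map_smul' := fun r x => by
      ext
      · simp only [Prod.smul_fst, Prod.smul_snd, smul_eq_mul, RingHom.id_apply]; ring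
      · simp only [Prod.smul_fst, Prod.smul_snd, smul_eq_mul, RingHom.id_apply]; ring
    invFun := fun x => ((d * x.1 - b * x.2) / (a * d - b * c), (a * x.2 - c * x.1) / (a * d - b * c))
    left_inv := fun x => by
      ext
      · simp only
        rw [div_eq_iff hD]
        ring
      · simp only
        rw [div_eq_iff hD]
        ring
    right_inv := fun x => by
      ext
      · simp only
        rw [← mul_div_assoc, ← mul_div_assoc, ← add_div, div_eq_iff hD]
        ring
      · simp only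
        rw [← mul_div_assoc, ← mul_div_assoc, ← add_div, div_eq_iff hD]
        ring }

lemma lin_apply {a b c d : ℝ} (hD : a * d - b * c ≠ 0) (x : ℝ × ℝ) :
    lin a b c d hD x = (a * x.1 + b * x.2, c * x.1 + d * x.2) := rfl

lemma Body.lin {K : Set (ℝ × ℝ)} (B : Body K) {a b c d : ℝ} (hD : a * d - b * c ≠ 0) :
    Body (lin a b c d hD '' K) := by
  refine ⟨B.cpt.image (Fac.lin a b c d hD).continuous, ?_, ?_⟩
  · exact B.cvx.linear_image (Fac.lin a b c d hD).toLinearEquiv.toLinearMap
  · have h1 := (Fac.lin a b c d hD).toHomeomorph.image_interior K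
    have h2 : (Fac.lin a b c d hD) '' interior K = interior ((Fac.lin a b c d hD) '' K) := h1
    rw [← h2]
    exact B.int.image _

/-- change of variables up to a constant -/
lemma setIntegral_lin (L : (ℝ × ℝ) ≃L[ℝ] (ℝ × ℝ)) : ∃ κ : ℂ, κ ≠ 0 ∧
    ∀ (K : Set (ℝ × ℝ)) (g : ℝ × ℝ → ℂ), ∫ x in K, g (L x) = κ * ∫ x in L '' K, g x := by
  set μ' : Measure (ℝ × ℝ) := Measure.map L volume with hμ'
  have : μ'.IsAddHaarMeasure := L.isAddHaarMeasure_map volume
  have h1 : μ' = Measure.addHaarScalarFactor μ' volume • volume :=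
    Measure.isAddLeftInvariant_eq_smul μ' volume
  set c := Measure.addHaarScalarFactor μ' volume with hc
  have hcpos : 0 < c := Measure.addHaarScalarFactor_pos_of_isAddHaarMeasure μ' volume
  refine ⟨((c : ℝ) : ℂ), by exact_mod_cast hcpos.ne', fun K g => ?_⟩
  have h2 : ∫ x in L '' K, g x ∂μ' = ∫ x in L ⁻¹' (L '' K), g (L x) :=
    L.toHomeomorph.measurableEmbedding.setIntegral_map g (L '' K)
  rw [L.injective.preimage_image] at h2
  rw [← h2]
  conv_lhs => rw [h1]
  rw [Measure.restrict_smul, integral_smul_nnreal_measure]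
  rfl

/-- the transform of a linear image -/
lemma T_lin {a b c d : ℝ} (hD : a * d - b * c ≠ 0) : ∃ κ : ℂ, κ ≠ 0 ∧
    ∀ (K : Set (ℝ × ℝ)) (z q : ℂ), T K (a * z + c * q) (b * z + d * q) =
      κ * T (lin a b c d hD '' K) z q := by
  obtain ⟨κ, hκ, h⟩ := setIntegral_lin (lin a b c d hD)
  refine ⟨κ, hκ, fun K z q => ?_⟩
  rw [T, T, ← h]
  congr 1
  ext x
  rw [lin_apply, ← Complex.exp_add, ← Complex.exp_add]
  congr 1
  push_cast
  ring

/-- linear substitution in a polynomial -/
def subst (P : MvPolynomial (Fin 2) ℂ) (a b c d : ℂ) : MvPolynomial (Fin 2) ℂ :=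
  MvPolynomial.bind₁ ![MvPolynomial.C a * MvPolynomial.X 0 + MvPolynomial.C c * MvPolynomial.X 1,
    MvPolynomial.C b * MvPolynomial.X 0 + MvPolynomial.C d * MvPolynomial.X 1] P

lemma ev_subst (P : MvPolynomial (Fin 2) ℂ) (a b c d z q : ℂ) :
    ev (subst P a b c d) z q = ev P (a * z + c * q) (b * z + d * q) := by
  have h1 : ev (subst P a b c d) z q = MvPolynomial.eval₂Hom (RingHom.id ℂ) ![z, q]
    (subst P a b c d) := rfl
  have h2 : ev P (a * z + c * q) (b * z + d * q) = MvPolynomial.eval₂Hom (RingHom.id ℂ)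
    ![a * z + c * q, b * z + d * q] P := rfl
  rw [h1, h2, subst, MvPolynomial.eval₂Hom_bind₁]
  congr 2
  ext i
  fin_cases i
  · simp
  · simp

lemma HasFac.lin {K : Set (ℝ × ℝ)} {P : MvPolynomial (Fin 2) ℂ} (hF : HasFac K P) {a b c d : ℝ}
    (hD : a * d - b * c ≠ 0) : HasFac (lin a b c d hD '' K) (subst P a b c d) := by
  obtain ⟨f, hf, hfac⟩ := hF
  obtain ⟨κ, hκ, h⟩ := T_lin hD
  refine ⟨fun x => κ⁻¹ * f (a * x.1 + c * x.2, b * x.1 + d * x.2), by fun_prop, fun z q => ?_⟩
  have h1 := h K z q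
  rw [hfac] at h1
  rw [ev_subst, ← inv_mul_cancel_left₀ hκ (T (Fac.lin a b c d hD '' K) z q), ← h1]
  ring

/-- translation -/
lemma T_add (K : Set (ℝ × ℝ)) (v : ℝ × ℝ) (z q : ℂ) :
    T ((fun x => v + x) '' K) z q =
      Complex.exp (Complex.I * v.1 * z) * Complex.exp (Complex.I * v.2 * q) * T K z q := by
  have h1 := (measurePreserving_add_left (volume : Measure (ℝ × ℝ)) v).setIntegral_image_emb
    (measurableEmbedding_addLeft v) (fun x : ℝ × ℝ =>
      Complex.exp (Complex.I * x.1 * z) * Complex.exp (Complex.I * x.2 * q)) K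
  rw [T, h1, T, ← integral_const_mul]
  congr 1
  ext x
  rw [← Complex.exp_add, ← Complex.exp_add, ← Complex.exp_add, ← Complex.exp_add]
  congr 1
  simp only [Prod.fst_add, Prod.snd_add]
  push_cast
  ring

lemma HasFac.add {K : Set (ℝ × ℝ)} {P : MvPolynomial (Fin 2) ℂ} (hF : HasFac K P) (v : ℝ × ℝ) :
    HasFac ((fun x => v + x) '' K) P := by
  obtain ⟨f, hf, hfac⟩ := hF
  refine ⟨fun x => Complex.exp (Complex.I * v.1 * x.1) * Complex.exp (Complex.I * v.2 * x.2) * f x,
    by fun_prop, fun z q => ?_⟩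
  rw [T_add, hfac]
  ring

lemma Body.add {K : Set (ℝ × ℝ)} (B : Body K) (v : ℝ × ℝ) : Body ((fun x => v + x) '' K) := by
  refine ⟨B.cpt.image (by fun_prop), ?_, ?_⟩
  · rw [image_add_left]
    exact B.cvx.translate_preimage_right (-v)
  · have h1 := (Homeomorph.addLeft v).image_interior K
    have h2 : (fun x => v + x) '' interior K = interior ((fun x => v + x) '' K) := h1
    rw [← h2]
    exact B.int.image _

end

end Helper12.Fac
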