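import Mathlib
import Pool.Agent.Helper12.FacLin

/-!
# Top parts under linear substitutions, corners under linear maps (helper12)
-/

open Filter Topology Set MeasureTheory

namespace Helper12.Fac

noncomputable section

lemma top_limit (P : MvPolynomial (Fin 2) ℂ) (z q : ℂ) :
    Tendsto (fun n : ℕ => (((n : ℝ) ^ (-(P.totalDegree : ℝ)) : ℝ) : ℂ) *
      ev P (((n : ℝ) : ℂ) * z) (((n : ℝ) : ℂ) * q)) atTop (𝓝 (top P z q)) := by
  have h := weighted_limit P 1 P.totalDegree (fun s hs => by
      have := le_totalDegree P hs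
      rw [one_mul]
      exact_mod_cast this) (tendsto_natCast_atTop_atTop (R := ℝ)) (tendsto_const_nhds (x := z))
    (tendsto_const_nhds (x := q))
  have e : ∑ s ∈ P.support with (s 0 : ℝ) + 1 * s 1 = P.totalDegree,
      MvPolynomial.coeff s P * (z ^ (s 0) * q ^ (s 1)) = top P z q := by
    rw [top]
    refine Finset.sum_congr ?_ (fun _ _ => rfl)
    ext s
    simp only [Finset.mem_filter, one_mul]
    constructor
    · rintro ⟨h1, h2⟩
      exact ⟨h1, by exact_mod_cast h2⟩
    · rintro ⟨h1, h2⟩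
      exact ⟨h1, by exact_mod_cast h2⟩
  rw [e] at h
  simpa using h

lemma degree_le {P1 P2 : MvPolynomial (Fin 2) ℂ} {z1 q1 z2 q2 : ℂ}
    (h : ∀ t : ℂ, ev P1 (t * z1) (t * q1) = ev P2 (t * z2) (t * q2)) (hne : top P1 z1 q1 ≠ 0) :
    P1.totalDegree ≤ P2.totalDegree := by
  by_contra hcon
  push Not at hcon
  have l1 := top_limit P1 z1 q1
  have l2 := top_limit P2 z2 q2
  have l3 : Tendsto (fun n : ℕ => (((n : ℝ) ^ (-((P1.totalDegree : ℝ) - P2.totalDegree)) : ℝ) : ℂ))
      atTop (𝓝 0) := by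
    have h1 : (0:ℝ) < (P1.totalDegree : ℝ) - P2.totalDegree := by
      rw [sub_pos]
      exact_mod_cast hcon
    have h2 := (tendsto_rpow_neg_atTop h1).comp (tendsto_natCast_atTop_atTop (R := ℝ))
    have h3 := (Complex.continuous_ofReal.tendsto 0).comp h2
    rw [Complex.ofReal_zero] at h3
    exact h3
  have l4 := l3.mul l2
  rw [zero_mul] at l4
  refine hne (tendsto_nhds_unique l1 (l4.congr' ?_))
  filter_upwards [(tendsto_natCast_atTop_atTop (R := ℝ)).eventually_gt_atTop 0] with n hn
  rw [h, ← mul_assoc, ← Complex.ofReal_mul, ← Real.rpow_add hn]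
  congr 3
  ring

lemma top_eq {P1 P2 : MvPolynomial (Fin 2) ℂ} {z1 q1 z2 q2 : ℂ}
    (h : ∀ t : ℂ, ev P1 (t * z1) (t * q1) = ev P2 (t * z2) (t * q2))
    (hd : P1.totalDegree = P2.totalDegree) : top P1 z1 q1 = top P2 z2 q2 := by
  refine tendsto_nhds_unique (top_limit P1 z1 q1) ((top_limit P2 z2 q2).congr (fun n => ?_))
  rw [h, hd]

lemma exists_top_ne {P : MvPolynomial (Fin 2) ℂ} (hP : P ≠ 0) : ∃ z q, top P z q ≠ 0 := by
  obtain ⟨w, -, hw⟩ := exists_ne_near (topPoly_ne P hP one_ne_zero) 0 1 one_pos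
  exact ⟨1, w, by rwa [topPoly_eval] at hw⟩

lemma subst_ne {P : MvPolynomial (Fin 2) ℂ} (hP : P ≠ 0) {a b c d : ℂ}
    (hD : a * d - b * c ≠ 0) : subst P a b c d ≠ 0 := by
  intro h0
  apply hP
  obtain ⟨z, q, hne⟩ := exists_top_ne hP
  exfalso
  apply hne
  have h1 : ∀ t : ℂ, ev P (t * z) (t * q) = 0 := by
    intro t
    have h2 := ev_subst P a b c d (t * ((d * z - c * q) / (a * d - b * c)))
      (t * ((a * q - b * z) / (a * d - b * c)))
    rw [h0] at h2
    have e1 : a * (t * ((d * z - c * q) / (a * d - b * c))) +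
        c * (t * ((a * q - b * z) / (a * d - b * c))) = t * z := by
      have : a * (t * ((d * z - c * q) / (a * d - b * c))) +
        c * (t * ((a * q - b * z) / (a * d - b * c))) =
        t * z * (a * d - b * c) / (a * d - b * c) := by ring
      rw [this, mul_div_cancel_right₀ _ hD]
    have e2 : b * (t * ((d * z - c * q) / (a * d - b * c))) +
        d * (t * ((a * q - b * z) / (a * d - b * c))) = t * q := by
      have : b * (t * ((d * z - c * q) / (a * d - b * c))) +
        d * (t * ((a * q - b * z) / (a * d - b * c))) =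
        t * q * (a * d - b * c) / (a * d - b * c) := by ring
      rw [this, mul_div_cancel_right₀ _ hD]
    rw [e1, e2] at h2
    rw [← h2, ev]
    simp
  refine tendsto_nhds_unique (top_limit P z q) (tendsto_const_nhds.congr (fun n => ?_))
  rw [h1, mul_zero]

/-- degree and top part of a linear substitution -/
lemma top_subst {P : MvPolynomial (Fin 2) ℂ} (hP : P ≠ 0) {a b c d : ℂ}
    (hD : a * d - b * c ≠ 0) : (subst P a b c d).totalDegree = P.totalDegree ∧
      ∀ z q, top (subst P a b c d) z q = top P (a * z + c * q) (b * z + d * q) := by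
  have hP2 := subst_ne hP hD
  have key : ∀ z q t : ℂ, ev (subst P a b c d) (t * z) (t * q) =
      ev P (t * (a * z + c * q)) (t * (b * z + d * q)) := by
    intro z q t
    rw [ev_subst]
    congr 1
    · ring
    · ring
  have hdeg : (subst P a b c d).totalDegree = P.totalDegree := by
    apply le_antisymm
    · obtain ⟨z, q, hne⟩ := exists_top_ne hP2
      exact degree_le (key z q) hne
    · obtain ⟨z, q, hne⟩ := exists_top_ne hP
      have k := key ((d * z - c * q) / (a * d - b * c)) ((a * q - b * z) / (a * d - b * c))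
      have e1 : a * ((d * z - c * q) / (a * d - b * c)) +
          c * ((a * q - b * z) / (a * d - b * c)) = z := by
        have : a * ((d * z - c * q) / (a * d - b * c)) +
          c * ((a * q - b * z) / (a * d - b * c)) =
          z * (a * d - b * c) / (a * d - b * c) := by ring
        rw [this, mul_div_cancel_right₀ _ hD]
      have e2 : b * ((d * z - c * q) / (a * d - b * c)) +
          d * ((a * q - b * z) / (a * d - b * c)) = q := by
        have : b * ((d * z - c * q) / (a * d - b * c)) +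
          d * ((a * q - b * z) / (a * d - b * c)) =
          q * (a * d - b * c) / (a * d - b * c) := by ring
        rw [this, mul_div_cancel_right₀ _ hD]
      rw [e1, e2] at k
      exact degree_le (fun t => (k t).symm) hne
  exact ⟨hdeg, fun z q => top_eq (key z q) hdeg⟩

/-! ### corners and parallelograms -/

/-- two independent supporting functionals at `v` -/
def CornerAt (K : Set (ℝ × ℝ)) (v : ℝ × ℝ) : Prop :=
  v ∈ K ∧ ∃ a1 b1 a2 b2 : ℝ, a1 * b2 - a2 * b1 ≠ 0 ∧
    (∀ x ∈ K, a1 * (x.1 - v.1) + b1 * (x.2 - v.2) ≤ 0) ∧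
    (∀ x ∈ K, a2 * (x.1 - v.1) + b2 * (x.2 - v.2) ≤ 0)

/-- nondegenerate parallelograms -/
def Para (K : Set (ℝ × ℝ)) : Prop :=
  ∃ a u w : ℝ × ℝ, u.1 * w.2 - u.2 * w.1 ≠ 0 ∧
    K = {x | ∃ s ∈ Icc (0:ℝ) 1, ∃ t ∈ Icc (0:ℝ) 1, x = a + s • u + t • w}

lemma CornerAt.lin {K : Set (ℝ × ℝ)} {v : ℝ × ℝ} (hv : CornerAt K v) {a b c d : ℝ}
    (hD : a * d - b * c ≠ 0) : CornerAt (lin a b c d hD '' K) (lin a b c d hD v) := by
  obtain ⟨hvK, a1, b1, a2, b2, hdet, h1, h2⟩ := hv
  refine ⟨mem_image_of_mem _ hvK, (a1 * d - b1 * c) / (a * d - b * c),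
    (-a1 * b + b1 * a) / (a * d - b * c), (a2 * d - b2 * c) / (a * d - b * c),
    (-a2 * b + b2 * a) / (a * d - b * c), ?_, ?_, ?_⟩
  · have : (a1 * d - b1 * c) / (a * d - b * c) * ((-a2 * b + b2 * a) / (a * d - b * c)) -
        (a2 * d - b2 * c) / (a * d - b * c) * ((-a1 * b + b1 * a) / (a * d - b * c)) =
        (a1 * b2 - a2 * b1) / (a * d - b * c) := by
      rw [div_mul_div_comm, div_mul_div_comm, ← sub_div, div_eq_div_iff (mul_ne_zero hD hD) hD]
      ring
    rw [this]
    exact div_ne_zero hdet hD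
  · rintro _ ⟨x, hx, rfl⟩
    rw [lin_apply, lin_apply]
    simp only
    have h3 := h1 x hx
    have e : (a1 * d - b1 * c) / (a * d - b * c) * (a * x.1 + b * x.2 - (a * v.1 + b * v.2)) +
        (-a1 * b + b1 * a) / (a * d - b * c) * (c * x.1 + d * x.2 - (c * v.1 + d * v.2)) =
        a1 * (x.1 - v.1) + b1 * (x.2 - v.2) := by
      rw [div_mul_eq_mul_div, div_mul_eq_mul_div, ← add_div, div_eq_iff hD]
      ring
    rw [e]
    exact h3
  · rintro _ ⟨x, hx, rfl⟩
    rw [lin_apply, lin_apply]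
    simp only
    have h3 := h2 x hx
    have e : (a2 * d - b2 * c) / (a * d - b * c) * (a * x.1 + b * x.2 - (a * v.1 + b * v.2)) +
        (-a2 * b + b2 * a) / (a * d - b * c) * (c * x.1 + d * x.2 - (c * v.1 + d * v.2)) =
        a2 * (x.1 - v.1) + b2 * (x.2 - v.2) := by
      rw [div_mul_eq_mul_div, div_mul_eq_mul_div, ← add_div, div_eq_iff hD]
      ring
    rw [e]
    exact h3

lemma para_of_lin {K : Set (ℝ × ℝ)} {a b c d : ℝ} (hD : a * d - b * c ≠ 0)
    (hp : Para (lin a b c d hD '' K)) : Para K := by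
  obtain ⟨x0, u, w, hdet, hK⟩ := hp
  set L := lin a b c d hD with hL
  refine ⟨L.symm x0, L.symm u, L.symm w, ?_, ?_⟩
  · have e1 : ∀ x : ℝ × ℝ, L.symm x = ((d * x.1 - b * x.2) / (a * d - b * c),
      (a * x.2 - c * x.1) / (a * d - b * c)) := fun x => rfl
    rw [e1, e1]
    simp only
    have : (d * u.1 - b * u.2) / (a * d - b * c) * ((a * w.2 - c * w.1) / (a * d - b * c)) -
        (a * u.2 - c * u.1) / (a * d - b * c) * ((d * w.1 - b * w.2) / (a * d - b * c)) =
        (u.1 * w.2 - u.2 * w.1) / (a * d - b * c) := by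
      rw [div_mul_div_comm, div_mul_div_comm, ← sub_div, div_eq_div_iff (mul_ne_zero hD hD) hD]
      ring
    rw [this]
    exact div_ne_zero hdet hD
  · ext x
    constructor
    · intro hx
      have h1 : L x ∈ L '' K := mem_image_of_mem _ hx
      rw [hK] at h1
      obtain ⟨s, hs, t, ht, he⟩ := h1
      refine ⟨s, hs, t, ht, ?_⟩
      rw [← L.symm_apply_apply x, he]
      simp
    · rintro ⟨s, hs, t, ht, rfl⟩
      have h1 : x0 + s • u + t • w ∈ L '' K := by
        rw [hK]
        exact ⟨s, hs, t, ht, rfl⟩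
      obtain ⟨y, hy, hy2⟩ := h1
      have : L.symm x0 + s • L.symm u + t • L.symm w = y := by
        rw [← L.symm_apply_apply y, hy2]
        simp
      rwa [this]

end

end Helper12.Fac
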