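import Mathlib
import Pool.Agent.Helper12.FacTopC

/-!
# Parallelograms have a linear factor (helper12)
-/

open Filter Topology Set MeasureTheory

namespace Helper12.Fac

noncomputable section

lemma dslope_entire {f : ℂ → ℂ} (hf : Differentiable ℂ f) (c : ℂ) :
    Differentiable ℂ (dslope f c) := by
  rw [← differentiableOn_univ, Complex.differentiableOn_dslope univ_mem]
  exact hf.differentiableOn

lemma G_entire : Differentiable ℂ (G 0 1) := by
  have h1 : Differentiable ℂ (fun z : ℂ => Complex.exp (Complex.I * z)) := by fun_prop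
  have h2 := dslope_entire h1 0
  have h3 : G 0 1 = fun z => dslope (fun z : ℂ => Complex.exp (Complex.I * z)) 0 z / Complex.I := by
    ext z
    by_cases hz : z = 0
    · subst hz
      rw [G_zero, dslope_same]
      have h4 : HasDerivAt (fun z : ℂ => Complex.exp (Complex.I * z))
          (Complex.exp (Complex.I * 0) * (Complex.I * 1)) 0 :=
        ((hasDerivAt_id (0:ℂ)).const_mul Complex.I).cexp
      rw [h4.deriv]
      simp
    · rw [dslope_of_ne _ hz, slope_def_field]
      have h4 := G_mul 0 1 hz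
      have h5 : Complex.I * z ≠ 0 := mul_ne_zero Complex.I_ne_zero hz
      have h6 : G 0 1 z = (Complex.exp (Complex.I * z) - 1) / (Complex.I * z) := by
        rw [eq_div_iff h5]
        linear_combination h4 + (by push_cast; simp :
          Complex.exp (Complex.I * (1:ℝ) * z) - Complex.exp (Complex.I * (0:ℝ) * z) =
          Complex.exp (Complex.I * z) - 1)
      rw [h6]
      field_simp
      simp only [mul_zero, Complex.exp_zero, sub_zero]
      ring
  rw [h3]
  exact h2.div_const _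

lemma G_two_pi : G 0 1 (2 * Real.pi) = 0 := by
  have hpi : (2 * Real.pi : ℂ) ≠ 0 := by
    have := Real.pi_ne_zero
    exact_mod_cast mul_ne_zero two_ne_zero this
  have h4 := G_mul 0 1 hpi
  have h5 : Complex.I * (2 * Real.pi) ≠ 0 := mul_ne_zero Complex.I_ne_zero hpi
  have e1 : Complex.exp (Complex.I * (1:ℝ) * (2 * Real.pi)) = 1 := by
    have : Complex.I * (1:ℝ) * (2 * Real.pi) = 2 * Real.pi * Complex.I := by
      push_cast
      ring
    rw [this, Complex.exp_two_pi_mul_I]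
  have e2 : Complex.exp (Complex.I * (0:ℝ) * (2 * Real.pi)) = 1 := by simp
  rw [e1, e2, sub_self] at h4
  exact (mul_eq_zero.1 h4).resolve_left h5

lemma G_factor : ∃ g : ℂ → ℂ, Differentiable ℂ g ∧ ∀ z, G 0 1 z = (z - 2 * Real.pi) * g z := by
  refine ⟨dslope (G 0 1) (2 * Real.pi), dslope_entire G_entire _, fun z => ?_⟩
  have := sub_smul_dslope (G 0 1) (2 * Real.pi : ℂ) z
  rw [G_two_pi, sub_zero, smul_eq_mul] at this
  exact this.symm

/-- transform of the unit square -/
lemma T_square (z q : ℂ) : T (Icc (0:ℝ) 1 ×ˢ Icc (0:ℝ) 1) z q = G 0 1 z * G 0 1 q := by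
  have h1 := setIntegral_prod_mul (μ := (volume : Measure ℝ)) (ν := (volume : Measure ℝ))
    (fun x : ℝ => Complex.exp (Complex.I * x * z)) (fun y : ℝ => Complex.exp (Complex.I * y * q))
    (Icc (0:ℝ) 1) (Icc (0:ℝ) 1)
  rw [integral_Icc_eq_integral_Ioc, integral_Icc_eq_integral_Ioc,
    ← intervalIntegral.integral_of_le zero_le_one,
    ← intervalIntegral.integral_of_le zero_le_one] at h1
  exact h1

/-- parallelograms have a linear factor -/
theorem para_factor {K : Set (ℝ × ℝ)} (hK : Para K) : ∃ (u1 u2 : ℝ) (f : ℂ → ℂ → ℂ),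
    (u1 ≠ 0 ∨ u2 ≠ 0) ∧ Differentiable ℂ (fun x : ℂ × ℂ => f x.1 x.2) ∧
    ∀ z q, T K z q = (u1 * z + u2 * q - 2 * Real.pi) * f z q := by
  obtain ⟨a, u, w, hdet, hKe⟩ := hK
  obtain ⟨g, hg, hgf⟩ := G_factor
  have hD : u.1 * w.2 - w.1 * u.2 ≠ 0 := by
    rw [mul_comm w.1]
    exact hdet
  set L := lin u.1 w.1 u.2 w.2 hD with hL
  have himg : K = (fun x => a + x) '' (L '' (Icc (0:ℝ) 1 ×ˢ Icc (0:ℝ) 1)) := by
    rw [hKe]
    ext x
    constructor
    · rintro ⟨s, hs, t, ht, rfl⟩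
      refine ⟨s • u + t • w, ⟨(s, t), ⟨hs, ht⟩, ?_⟩, by simp only [add_assoc]⟩
      rw [hL, lin_apply]
      ext
      · simp only [Prod.fst_add, Prod.smul_fst, smul_eq_mul]
        ring
      · simp only [Prod.snd_add, Prod.smul_snd, smul_eq_mul]
        ring
    · rintro ⟨_, ⟨⟨s, t⟩, ⟨hs, ht⟩, rfl⟩, rfl⟩
      refine ⟨s, hs, t, ht, ?_⟩
      rw [hL, lin_apply]
      ext
      · simp only [Prod.fst_add, Prod.smul_fst, smul_eq_mul]
        ring
      · simp only [Prod.snd_add, Prod.smul_snd, smul_eq_mul]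
        ring
  obtain ⟨κ, hκ, hT⟩ := T_lin hD
  have hu : u.1 ≠ 0 ∨ u.2 ≠ 0 := by
    by_contra hcon
    push Not at hcon
    apply hdet
    rw [hcon.1, hcon.2]
    ring
  refine ⟨u.1, u.2, fun z q => Complex.exp (Complex.I * a.1 * z) * Complex.exp (Complex.I * a.2 * q) *
    (κ⁻¹ * (g (u.1 * z + u.2 * q) * G 0 1 (w.1 * z + w.2 * q))), ?_, ?_, ?_⟩
  · exact hu
  · have hGe := G_entire
    have h1 : Differentiable ℂ (fun x : ℂ × ℂ => g (u.1 * x.1 + u.2 * x.2)) :=
      hg.comp (by fun_prop)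
    have h2 : Differentiable ℂ (fun x : ℂ × ℂ => G 0 1 (w.1 * x.1 + w.2 * x.2)) :=
      hGe.comp (by fun_prop)
    have h3 : Differentiable ℂ (fun x : ℂ × ℂ => Complex.exp (Complex.I * a.1 * x.1) *
      Complex.exp (Complex.I * a.2 * x.2)) := by fun_prop
    exact h3.mul ((h1.mul h2).const_mul κ⁻¹)
  · intro z q
    have h1 := hT (Icc (0:ℝ) 1 ×ˢ Icc (0:ℝ) 1) z q
    rw [T_square, hgf] at h1
    rw [himg, T_add, hL, ← inv_mul_cancel_left₀ hκ (T (lin u.1 w.1 u.2 w.2 hD '' _) z q), ← h1]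
    ring

end

end Helper12.Fac
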