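import Mathlib

/-!
# Convex bodies whose indicator transform has a polynomial factor: definitions (helper12)
-/

open MeasureTheory Set

namespace Helper12.ConvexFactor

/-- A convex body in `ℝⁿ`: a compact convex set with nonempty interior. -/
structure IsConvexBody {n : ℕ} (K : Set (Fin n → ℝ)) : Prop where
  isCompact : IsCompact K
  convex : Convex ℝ K
  nonempty_interior : (interior K).Nonempty

/-- The Fourier transform of the indicator function of `K ⊆ ℝⁿ`, as a function on `ℂⁿ`: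
`ζ ↦ ∫_K exp(-i ⟨x, ζ⟩) dx`. -/
noncomputable def indicatorFT {n : ℕ} (K : Set (Fin n → ℝ)) (ζ : Fin n → ℂ) : ℂ :=
  ∫ x in K, Complex.exp (-(Complex.I * ∑ j, (x j : ℂ) * ζ j))

/-- `p` divides the transform of `K`: it equals `p` times an entire function on `ℂⁿ`. -/
def IsPolynomialFactor {n : ℕ} (K : Set (Fin n → ℝ)) (p : MvPolynomial (Fin n) ℂ) : Prop :=
  ∃ f : (Fin n → ℂ) → ℂ, Differentiable ℂ f ∧
    ∀ ζ, indicatorFT K ζ = MvPolynomial.eval ζ p * f ζ

/-- `K` has a polynomial factor: its transform is a non-constant polynomial times an entire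
function. -/
def HasPolynomialFactor {n : ℕ} (K : Set (Fin n → ℝ)) : Prop :=
  ∃ p : MvPolynomial (Fin n) ℂ, p.totalDegree ≠ 0 ∧ IsPolynomialFactor K p

/-- A corner of a plane set `K`: a point `v` of `K` at which `K` has two linearly independent
supporting functionals. -/
def HasCorner (K : Set (Fin 2 → ℝ)) : Prop :=
  ∃ v ∈ K, ∃ u w : Fin 2 → ℝ, LinearIndependent ℝ ![u, w] ∧
    (∀ x ∈ K, u ⬝ᵥ x ≤ u ⬝ᵥ v) ∧ (∀ x ∈ K, w ⬝ᵥ x ≤ w ⬝ᵥ v)

/-- A nondegenerate (filled) parallelogram in the plane. -/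
def IsParallelogram (K : Set (Fin 2 → ℝ)) : Prop :=
  ∃ a u w : Fin 2 → ℝ, LinearIndependent ℝ ![u, w] ∧
    K = {x | ∃ s ∈ Icc (0:ℝ) 1, ∃ t ∈ Icc (0:ℝ) 1, x = a + s • u + t • w}

/-- `p` is elliptic: its principal part (homogeneous component of degree `p.totalDegree`) has no
zero at a nonzero real point. -/
def IsElliptic {n : ℕ} (p : MvPolynomial (Fin n) ℂ) : Prop :=
  ∀ θ : Fin n → ℝ, θ ≠ 0 →
    MvPolynomial.eval (fun i => (θ i : ℂ)) (MvPolynomial.homogeneousComponent p.totalDegree p) ≠ 0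

/-- The polynomial `p(z θ + q θ')`, as a polynomial in `z` with coefficients in `ℂ[q]`. -/
noncomputable def inBasis (p : MvPolynomial (Fin 2) ℂ) (θ θ' : Fin 2 → ℝ) :
    Polynomial (Polynomial ℂ) :=
  MvPolynomial.aeval (fun i => Polynomial.C (Polynomial.C (θ i : ℂ)) * Polynomial.X +
    Polynomial.C (Polynomial.C (θ' i : ℂ) * Polynomial.X)) p

end Helper12.ConvexFactor
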