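import Mathlib
import Pool.Agent.Helper12.FacSlice

/-!
# Non-real characteristic directions at a corner (helper12)
-/

open Filter Topology Set MeasureTheory

namespace Helper12.Fac

noncomputable section

variable {α β : ℝ → ℝ} {H : ℝ}

lemma slope_lim (hH : 0 < H) (ha : ConvexOn ℝ (Icc 0 H) α) (h0 : α 0 = 0)
    (hlow : ∀ h ∈ Icc 0 H, -h ≤ α h) :
    ∃ a0 : ℝ, Tendsto (fun h => α h / h) (𝓝[>] 0) (𝓝 a0) ∧ ∀ h ∈ Ioo 0 H, a0 ≤ α h / h := by
  have hmono : MonotoneOn (fun h => α h / h) (Ioo 0 H) := by
    intro x hx y hy hxy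
    have hy0 : 0 < y := hy.1
    have hc := ha.2 (⟨le_rfl, hH.le⟩ : (0:ℝ) ∈ Icc 0 H) (Ioo_subset_Icc_self hy)
      (show 0 ≤ 1 - x / y by
        rw [sub_nonneg, div_le_one hy0]; exact hxy)
      (show 0 ≤ x / y by exact div_nonneg hx.1.le hy0.le) (by ring)
    simp only [smul_eq_mul, mul_zero, zero_add, h0] at hc
    rw [div_mul_cancel₀ x hy0.ne'] at hc
    simp only
    rw [div_le_div_iff₀ hx.1 hy0]
    have := mul_le_mul_of_nonneg_right hc hy0.le
    calc α x * y ≤ x / y * α y * y := this
      _ = α y * x := by field_simp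
  have hbdd : BddBelow ((fun h => α h / h) '' Ioo 0 H) := by
    refine ⟨-1, ?_⟩
    rintro _ ⟨x, hx, rfl⟩
    simp only
    rw [le_div_iff₀ hx.1]
    linarith [hlow x (Ioo_subset_Icc_self hx)]
  refine ⟨_, hmono.tendsto_nhdsWithin_Ioo_right (by simpa using hH) hbdd, ?_⟩
  intro h hh
  exact csInf_le hbdd ⟨h, hh, rfl⟩

lemma elliptic (S : SliceData α β H) (hA : ∀ h ∈ Icc 0 H, |α h| ≤ h)
    (hB : ∀ h ∈ Icc 0 H, |β h| ≤ h) {z' q' : ℂ} (hz : z'.im = 1) (hq : q'.im = 0) (hq0 : q' ≠ 0)
    {t : ℕ → ℝ} (ht : Tendsto t atTop atTop) {q : ℕ → ℂ} (hqn : Tendsto q atTop (𝓝 q')) :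
    ∀ᶠ n in atTop, Phi α β H (t n * z') (t n * q n) ≠ 0 := by
  have hα0 : α 0 = 0 := by
    have := hA 0 S.zero_mem
    simpa using this
  have hβ0 : β 0 = 0 := by
    have := hB 0 S.zero_mem
    simpa using this
  obtain ⟨a0, ha0, ha0'⟩ := slope_lim S.hH S.ha hα0 (fun h hh => (abs_le.1 (hA h hh)).1)
  obtain ⟨b0, hb0, hb0'⟩ := slope_lim (α := fun h => - β h) S.hH S.hb.neg (by simp [hβ0])
    (fun h hh => by linarith [(abs_le.1 (hB h hh)).2])
  have hb1 : Tendsto (fun h => β h / h) (𝓝[>] 0) (𝓝 (-b0)) := by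
    have := hb0.neg
    refine this.congr (fun h => ?_)
    ring
  have hlt : a0 < -b0 := by
    have hm : H / 2 ∈ Ioo 0 H := ⟨by linarith [S.hH], by linarith [S.hH]⟩
    have h1 := ha0' _ hm
    have h2 := hb0' _ hm
    have h3 := S.hlt _ hm
    have h4 : α (H/2) / (H/2) < β (H/2) / (H/2) :=
      div_lt_div_of_pos_right h3 (by linarith [S.hH])
    have h5 : -β (H/2) / (H/2) = - (β (H/2) / (H/2)) := by ring
    linarith
  set F : ℕ → ℝ → ℂ := fun n => indicator (Ioc 0 (t n * H)) (fun u =>
    Complex.exp (Complex.I * u * z') *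
      (Complex.exp (Complex.I * β (u / t n) * (t n * q n)) -
        Complex.exp (Complex.I * α (u / t n) * (t n * q n)))) with hF
  -- the integrals
  have hint : ∀ᶠ n in atTop, ∫ u in Ioi (0:ℝ), F n u =
      t n * (Complex.I * (t n * q n) * Phi α β H (t n * z') (t n * q n)) := by
    filter_upwards [ht.eventually_gt_atTop 0, hqn.eventually_ne hq0] with n hn hqn0
    have htn : (t n : ℂ) ≠ 0 := by exact_mod_cast hn.ne'
    rw [S.phi_mul _ (mul_ne_zero htn hqn0), hF]
    simp only
    rw [setIntegral_indicator measurableSet_Ioc]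
    have hset : Ioi (0:ℝ) ∩ Ioc 0 (t n * H) = Ioc 0 (t n * H) := by
      ext x
      simp only [mem_inter_iff, mem_Ioi, mem_Ioc]
      tauto
    rw [hset, ← intervalIntegral.integral_of_le (by positivity [S.hH])]
    have hsub := intervalIntegral.integral_comp_div (a := 0) (b := t n * H)
      (fun h : ℝ => Complex.exp (Complex.I * h * (t n * z')) *
      (Complex.exp (Complex.I * β h * (t n * q n)) - Complex.exp (Complex.I * α h * (t n * q n))))
      hn.ne'
    rw [zero_div, mul_div_cancel_left₀ _ hn.ne'] at hsub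
    refine Eq.trans ?_ (hsub.trans Complex.real_smul)
    congr 1
    ext u
    have h3 : Complex.I * u * z' = Complex.I * ((u / t n : ℝ) : ℂ) * (t n * z') := by
      push_cast
      field_simp
    rw [h3]
  -- eventual smallness
  have him : ∀ᶠ n in atTop, |(q n).im| ≤ 1/2 := by
    have h1 : Tendsto (fun n => (q n).im) atTop (𝓝 0) := by
      have := (Complex.continuous_im.tendsto q').comp hqn
      rwa [hq] at this
    have h2 := h1.abs
    rw [abs_zero] at h2
    exact (h2.eventually (gt_mem_nhds (show (0:ℝ) < 1/2 by norm_num))).mono (fun n h => h.le)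
  have hnorm : ∀ (g : ℝ → ℝ), (∀ h ∈ Icc 0 H, |g h| ≤ h) → ∀ n, 0 < t n → |(q n).im| ≤ 1/2 →
      ∀ u ∈ Ioc 0 (t n * H), ‖Complex.exp (Complex.I * g (u / t n) * (t n * q n))‖ ≤
        Real.exp (u / 2) := by
    intro g hg n hn hi u hu
    rw [Complex.norm_exp]
    apply Real.exp_le_exp.2
    have hm : u / t n ∈ Icc 0 H := ⟨div_nonneg hu.1.le hn.le, by
      rw [div_le_iff₀ hn]; linarith [hu.2]⟩
    have h1 := hg _ hm
    have h2 : (Complex.I * g (u / t n) * (t n * q n)).re = -(g (u / t n) * t n * (q n).im) := by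
      simp
      ring
    rw [h2]
    have h3 : |g (u / t n) * t n * (q n).im| ≤ u / t n * t n * (1/2) := by
      rw [abs_mul, abs_mul, abs_of_pos hn]
      have : 0 ≤ u / t n := div_nonneg hu.1.le hn.le
      gcongr
    rw [div_mul_cancel₀ _ hn.ne'] at h3
    linarith [neg_abs_le (g (u / t n) * t n * (q n).im)]
  have hptw : ∀ (g : ℝ → ℝ) (c : ℝ), Tendsto (fun h => g h / h) (𝓝[>] 0) (𝓝 c) → ∀ u : ℝ, 0 < u →
      Tendsto (fun n => Complex.exp (Complex.I * g (u / t n) * (t n * q n))) atTop
        (𝓝 (Complex.exp (Complex.I * (c * u) * q'))) := by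
    intro g c hg u hu
    have h1 : Tendsto (fun n => u / t n) atTop (𝓝[>] 0) := by
      rw [tendsto_nhdsWithin_iff]
      exact ⟨ht.const_div_atTop u, (ht.eventually_gt_atTop 0).mono (fun n hn => div_pos hu hn)⟩
    have h2 := (hg.comp h1).mul_const u
    have h3 : Tendsto (fun n => g (u / t n) * t n) atTop (𝓝 (c * u)) := by
      refine h2.congr' ?_
      filter_upwards [ht.eventually_gt_atTop 0] with n hn
      simp only [Function.comp_apply]
      field_simp
    have h4 : Tendsto (fun n => ((g (u / t n) * t n : ℝ) : ℂ)) atTop (𝓝 ((c * u : ℝ) : ℂ)) :=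
      (Complex.continuous_ofReal.tendsto _).comp h3
    have h5 := ((h4.const_mul Complex.I).mul hqn).cexp
    refine Tendsto.congr' ?_ (by simpa using h5)
    filter_upwards with n
    congr 1
    push_cast
    ring
  -- limit
  have hlim : Tendsto (fun n => ∫ u in Ioi (0:ℝ), F n u) atTop
      (𝓝 (∫ u in Ioi (0:ℝ), Complex.exp (Complex.I * u * z') *
        (Complex.exp (Complex.I * ((-b0 : ℝ) * u) * q') -
          Complex.exp (Complex.I * (a0 * u) * q')))) := by
    refine tendsto_integral_filter_of_dominated_convergence (fun u => 2 * Real.exp (-(1/2) * u))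
      ?_ ?_ ?_ ?_
    · -- measurability
      filter_upwards [ht.eventually_gt_atTop 0] with n hn
      rw [aestronglyMeasurable_indicator_iff measurableSet_Ioc]
      refine ContinuousOn.aestronglyMeasurable ?_ measurableSet_Ioc
      have hmaps : MapsTo (fun u => u / t n) (Ioc 0 (t n * H)) (Icc 0 H) := by
        intro u hu
        exact ⟨div_nonneg hu.1.le hn.le, by
          simp only
          rw [div_le_iff₀ hn]; linarith [hu.2]⟩
      have h1 : ContinuousOn (fun u => β (u / t n)) (Ioc 0 (t n * H)) :=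
        S.hbc.comp (continuous_id.div_const _).continuousOn hmaps
      have h2 : ContinuousOn (fun u => α (u / t n)) (Ioc 0 (t n * H)) :=
        S.hac.comp (continuous_id.div_const _).continuousOn hmaps
      have h3 : ContinuousOn (fun u => ((β (u / t n) : ℝ) : ℂ)) (Ioc 0 (t n * H)) :=
        Complex.continuous_ofReal.comp_continuousOn h1
      have h4 : ContinuousOn (fun u => ((α (u / t n) : ℝ) : ℂ)) (Ioc 0 (t n * H)) :=
        Complex.continuous_ofReal.comp_continuousOn h2
      refine ContinuousOn.mul (by fun_prop) (ContinuousOn.sub ?_ ?_)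
      · exact ((continuousOn_const.mul h3).mul continuousOn_const).cexp
      · exact ((continuousOn_const.mul h4).mul continuousOn_const).cexp
    · filter_upwards [ht.eventually_gt_atTop 0, him] with n hn hi
      refine ae_of_all _ (fun u => ?_)
      rw [hF]
      simp only
      by_cases hu : u ∈ Ioc 0 (t n * H)
      · rw [indicator_of_mem hu, norm_mul]
        have h1 : ‖Complex.exp (Complex.I * u * z')‖ = Real.exp (-u) := by
          rw [Complex.norm_exp]
          congr 1
          simp [hz]
        rw [h1]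
        have h2 := hnorm β hB n hn hi u hu
        have h3 := hnorm α hA n hn hi u hu
        calc Real.exp (-u) * ‖Complex.exp (Complex.I * β (u / t n) * (t n * q n)) -
              Complex.exp (Complex.I * α (u / t n) * (t n * q n))‖
            ≤ Real.exp (-u) * (Real.exp (u/2) + Real.exp (u/2)) := by
              gcongr
              exact (norm_sub_le _ _).trans (add_le_add h2 h3)
          _ = 2 * (Real.exp (-u) * Real.exp (u/2)) := by ring
          _ = 2 * Real.exp (-(1/2) * u) := by
              rw [← Real.exp_add]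
              congr 2
              ring
      · rw [indicator_of_notMem hu, norm_zero]
        positivity
    · exact (integrableOn_exp_mul_Ioi (by norm_num) 0).const_mul 2
    · rw [ae_restrict_iff' measurableSet_Ioi]
      refine ae_of_all _ (fun u hu => ?_)
      have hu0 : 0 < u := hu
      have h1 := (hptw β (-b0) hb1 u hu0).sub (hptw α a0 ha0 u hu0)
      have h2 := h1.const_mul (Complex.exp (Complex.I * u * z'))
      refine Tendsto.congr' ?_ h2
      have h3 : ∀ᶠ n in atTop, u / H ≤ t n := ht.eventually_ge_atTop _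
      filter_upwards [h3] with n hn
      rw [hF]
      simp only
      rw [indicator_of_mem]
      rw [div_le_iff₀ S.hH] at hn
      exact ⟨hu0, hn⟩
  -- value of the limit
  have hval : ∀ c : ℝ, (Complex.I * (z' + c * q')).re = -1 := by
    intro c
    simp [hz, hq]
  have hI : (∫ u in Ioi (0:ℝ), Complex.exp (Complex.I * u * z') *
        (Complex.exp (Complex.I * ((-b0 : ℝ) * u) * q') -
          Complex.exp (Complex.I * (a0 * u) * q'))) =
      - 1 / (Complex.I * (z' + (-b0 : ℝ) * q')) - - 1 / (Complex.I * (z' + a0 * q')) := by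
    have e1 := integral_exp_mul_complex_Ioi (a := Complex.I * (z' + (-b0 : ℝ) * q'))
      (by rw [hval]; norm_num) 0
    have e2 := integral_exp_mul_complex_Ioi (a := Complex.I * (z' + a0 * q'))
      (by rw [hval]; norm_num) 0
    simp only [Complex.ofReal_zero, mul_zero, Complex.exp_zero] at e1 e2
    rw [← e1, ← e2, ← integral_sub
      (integrableOn_exp_mul_complex_Ioi (by rw [hval]; norm_num) 0)
      (integrableOn_exp_mul_complex_Ioi (by rw [hval]; norm_num) 0)]
    congr 1
    ext u
    rw [mul_sub, ← Complex.exp_add, ← Complex.exp_add]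
    congr 2 <;> ring
  have hne : (∫ u in Ioi (0:ℝ), Complex.exp (Complex.I * u * z') *
        (Complex.exp (Complex.I * ((-b0 : ℝ) * u) * q') -
          Complex.exp (Complex.I * (a0 * u) * q'))) ≠ 0 := by
    rw [hI]
    have n1 : Complex.I * (z' + (-b0 : ℝ) * q') ≠ 0 := by
      intro h
      have := hval (-b0)
      rw [h] at this
      simp at this
    have n2 : Complex.I * (z' + a0 * q') ≠ 0 := by
      intro h
      have := hval a0
      rw [h] at this
      simp at this
    intro h
    rw [sub_eq_zero, div_eq_div_iff n1 n2] at h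
    have h5 : ((a0 : ℂ) - (-b0 : ℝ)) * q' = 0 := by
      have : Complex.I * (((a0 : ℂ) - (-b0 : ℝ)) * q') = 0 := by linear_combination -h
      rcases mul_eq_zero.1 this with h6 | h6
      · exact absurd h6 Complex.I_ne_zero
      · exact h6
    rcases mul_eq_zero.1 h5 with h6 | h6
    · have h7 : a0 - (-b0) = 0 := by exact_mod_cast h6
      linarith
    · exact hq0 h6
  filter_upwards [hint, hlim.eventually_ne hne] with n h1 h2 h3
  rw [h1, h3] at h2
  simp at h2

end

end Helper12.Fac
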