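import Mathlib

/-!
# A second mean value inequality for complex integrands (helper12)
-/

open Filter Topology Set MeasureTheory

namespace Helper12.Fac

noncomputable section

/-- If all tails `∫_a^ρ u` are bounded by `B` and `0 ≤ θ ≤ ω` is monotone then
`‖∫_0^ρ θ u‖ ≤ ω B`. -/
lemma layer_cake {θ : ℝ → ℝ} (hθ : Monotone θ) {ω ρ B : ℝ} (hρ : 0 ≤ ρ) (hω : 0 ≤ ω)
    (h0 : ∀ s, 0 ≤ θ s) (h1 : ∀ s, θ s ≤ ω) {u : ℝ → ℂ} (hu : ContinuousOn u (Icc 0 ρ))
    (hB : ∀ a ∈ Icc 0 ρ, ‖∫ s in a..ρ, u s‖ ≤ B) :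
    ‖∫ s in (0:ℝ)..ρ, (θ s : ℂ) * u s‖ ≤ ω * B := by
  have hB0 : 0 ≤ B := (norm_nonneg _).trans (hB 0 ⟨le_rfl, hρ⟩)
  have huI : IntegrableOn u (Ioc 0 ρ) := (hu.integrableOn_Icc).mono_set Ioc_subset_Icc_self
  set f : ℝ → ℝ → ℂ := fun s t => indicator {p : ℝ × ℝ | p.2 < θ p.1} (fun p => u p.1) (s, t)
    with hf
  have hmeas : MeasurableSet {p : ℝ × ℝ | p.2 < θ p.1} :=
    measurableSet_lt measurable_snd (hθ.measurable.comp measurable_fst)
  have hint : Integrable (Function.uncurry f)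
      ((volume.restrict (Ioc 0 ρ)).prod (volume.restrict (Ioc 0 ω))) := by
    have h2 : Integrable (fun p : ℝ × ℝ => u p.1)
        ((volume.restrict (Ioc 0 ρ)).prod (volume.restrict (Ioc 0 ω))) := by
      have h3 : Integrable u (volume.restrict (Ioc 0 ρ)) := huI
      have h4 : Integrable (fun _ : ℝ => (1:ℂ)) (volume.restrict (Ioc 0 ω)) := integrable_const _
      simpa using h3.mul_prod h4
    have h3 := h2.indicator hmeas
    exact h3
  have hinner : ∀ s, ∫ t in Ioc 0 ω, f s t = (θ s : ℂ) * u s := by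
    intro s
    have h2 : ∀ t, f s t = indicator (Iio (θ s)) (fun _ => u s) t := by
      intro t
      rw [hf]
      simp only [indicator, mem_ofPred_eq, mem_Iio]
    simp only [h2]
    rw [setIntegral_indicator measurableSet_Iio, setIntegral_const]
    have h3 : volume.real (Ioc 0 ω ∩ Iio (θ s)) = θ s := by
      have h4 : (Ioc 0 ω ∩ Iio (θ s) : Set ℝ) =ᵐ[volume] (Ioc 0 (θ s) : Set ℝ) := by
        have h5 : Ioo 0 (θ s) ⊆ Ioc 0 ω ∩ Iio (θ s) := fun x hx =>
          ⟨⟨hx.1, hx.2.le.trans (h1 s)⟩, hx.2⟩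
        have h6 : Ioc 0 ω ∩ Iio (θ s) ⊆ Ioc 0 (θ s) := fun x hx =>
          ⟨hx.1.1, (mem_Iio.1 hx.2).le⟩
        exact (LE.le.eventuallyLE h6).antisymm
          ((Ioo_ae_eq_Ioc (μ := volume)).symm.le.trans (LE.le.eventuallyLE h5))
      rw [measureReal_congr h4, Real.volume_real_Ioc_of_le (h0 s), sub_zero]
    rw [h3, Complex.real_smul]
  have hsw : ∫ s in Ioc 0 ρ, (θ s : ℂ) * u s = ∫ t in Ioc 0 ω, ∫ s in Ioc 0 ρ, f s t := by
    rw [← integral_integral_swap hint]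
    simp only [hinner]
  rw [intervalIntegral.integral_of_le hρ, hsw]
  have hb : ∀ t ∈ Ioc 0 ω, ‖∫ s in Ioc 0 ρ, f s t‖ ≤ B := by
    intro t _
    have h2 : ∀ s, f s t = indicator {s | t < θ s} u s := by
      intro s
      rw [hf]
      simp only [indicator, mem_ofPred_eq]
    simp only [h2]
    have hms : MeasurableSet {s | t < θ s} := measurableSet_lt measurable_const hθ.measurable
    rw [setIntegral_indicator hms]
    rcases (Ioc 0 ρ ∩ {s | t < θ s}).eq_empty_or_nonempty with he | hne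
    · rw [he]
      simpa using hB0
    · set a := sInf (Ioc 0 ρ ∩ {s | t < θ s}) with ha
      have hbdd : BddBelow (Ioc 0 ρ ∩ {s | t < θ s}) := ⟨0, fun x hx => hx.1.1.le⟩
      have ha0 : 0 ≤ a := le_csInf hne (fun x hx => hx.1.1.le)
      have haρ : a ≤ ρ := by
        obtain ⟨x, hx⟩ := hne
        exact (csInf_le hbdd hx).trans hx.1.2
      have hsub1 : Ioc a ρ ⊆ Ioc 0 ρ ∩ {s | t < θ s} := by
        intro x hx
        refine ⟨⟨ha0.trans_lt hx.1, hx.2⟩, ?_⟩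
        obtain ⟨y, hy, hyx⟩ := exists_lt_of_csInf_lt hne hx.1
        exact lt_of_lt_of_le hy.2 (hθ hyx.le)
      have hsub2 : Ioc 0 ρ ∩ {s | t < θ s} ⊆ Icc a ρ := fun x hx =>
        ⟨csInf_le hbdd hx, hx.1.2⟩
      have hae : (Ioc 0 ρ ∩ {s | t < θ s} : Set ℝ) =ᵐ[volume] Ioc a ρ :=
        ((LE.le.eventuallyLE hsub2).trans
          (Ioc_ae_eq_Icc (μ := volume)).symm.le).antisymm (LE.le.eventuallyLE hsub1)
      rw [setIntegral_congr_set hae, ← intervalIntegral.integral_of_le haρ]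
      exact hB a ⟨ha0, haρ⟩
  have h2 := norm_setIntegral_le_of_norm_le_const (μ := volume) (s := Ioc 0 ω) (by simp) hb
  rw [Real.volume_real_Ioc_of_le hω, sub_zero] at h2
  linarith

end

end Helper12.Fac
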