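import Mathlib
import Pool.Agent.Helper12.FacLC

/-!
# One-sided boundary contribution of a concave graph at a point (helper12)
-/

open Filter Topology Set MeasureTheory

namespace Helper12.Fac

noncomputable section

/-- right derivative of a concave function: the properties we need -/
structure RightD (b D : ℝ → ℝ) (R : ℝ) : Prop where
  hR : 0 < R
  cont : ContinuousOn b (Ioo (-R) R)
  anti : AntitoneOn D (Ioo (-R) R)
  der : ∀ s ∈ Ioo (-R) R, HasDerivWithinAt b (D s) (Ioi s) s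
  slope : ∀ s ∈ Ioo (-R) R, ∀ t ∈ Ioo (-R) R, s < t → b t - b s ≤ D s * (t - s)

lemma exists_rightD {b : ℝ → ℝ} {R : ℝ} (hR : 0 < R) (hb : ConcaveOn ℝ (Icc (-R) R) b) :
    ∃ D, RightD b D R := by
  have hint : interior (Icc (-R) R) = Ioo (-R) R := interior_Icc
  have hcv := hb.neg
  refine ⟨fun s => - derivWithin (-b) (Ioi s) s, hR, ?_, ?_, ?_, ?_⟩
  · have := hb.continuousOn_interior
    rwa [hint] at this
  · have := hcv.monotoneOn_rightDeriv
    rw [hint] at this
    exact this.neg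
  · intro s hs
    have := (hcv.hasDerivWithinAt_rightDeriv_of_mem_interior (x := s) (by rwa [hint])).neg
    simpa using this
  · intro s hs t ht hst
    have h1 := hcv.rightDeriv_le_slope_of_mem_interior (x := s) (y := t) (by rwa [hint])
      (Ioo_subset_Icc_self ht) hst
    rw [slope_def_field, le_div_iff₀ (by linarith)] at h1
    simp only [Pi.neg_apply] at h1
    linarith

lemma RightD.tendsto {b D : ℝ → ℝ} {R : ℝ} (h : RightD b D R) :
    Tendsto (fun s => D 0 - D s) (𝓝[>] 0) (𝓝 0) := by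
  have hR := h.hR
  have h0 : (0:ℝ) ∈ Ioo (-R) R := ⟨by linarith, hR⟩
  rw [Metric.tendsto_nhdsWithin_nhds]
  intro ε hε
  -- a point `t > 0` with slope close to `D 0`
  have hder := h.der 0 h0
  rw [hasDerivWithinAt_iff_tendsto_slope' self_notMem_Ioi] at hder
  have hev := (hder.eventually (lt_mem_nhds (show D 0 - ε/3 < D 0 by linarith)))
  have hmem : Ioo (0:ℝ) R ∈ 𝓝[>] (0:ℝ) := Ioo_mem_nhdsGT hR
  obtain ⟨t, ht1, ht2⟩ := (hev.and (Filter.eventually_of_mem hmem (fun x hx => hx))).exists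
  rw [slope_def_field, sub_zero] at ht1
  have htR : t ∈ Ioo (-R) R := ⟨by linarith [ht2.1], ht2.2⟩
  -- continuity of the slope from `s` to `t`
  have hcont : ContinuousWithinAt (fun s => (b t - b s) / (t - s)) (Ioi 0) 0 := by
    have h1 : ContinuousAt b 0 := (h.cont).continuousAt (Ioo_mem_nhds (by linarith) hR)
    refine ContinuousAt.continuousWithinAt ?_
    refine (continuousAt_const.sub h1).div (continuousAt_const.sub continuousAt_id) ?_
    simp only [id_eq, sub_zero]
    exact ht2.1.ne'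
  have hev2 := hcont.eventually (lt_mem_nhds (show D 0 - ε/2 < (b t - b 0) / (t - 0) by
    rw [sub_zero]; linarith))
  obtain ⟨δ, hδ, hδ'⟩ := Metric.mem_nhdsWithin_iff.1 hev2
  refine ⟨min δ t, lt_min hδ ht2.1, fun x hx hxd => ?_⟩
  have hx0 : 0 < x := hx
  rw [Real.dist_eq, sub_zero, abs_of_pos hx0] at hxd
  have hxt : x < t := hxd.trans_le (min_le_right _ _)
  have hxR : x ∈ Ioo (-R) R := ⟨by linarith, by linarith [ht2.2]⟩
  have h1 : D 0 - ε/2 < (b t - b x) / (t - x) := by
    apply hδ'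
    refine ⟨?_, hx⟩
    rw [Metric.mem_ball, Real.dist_eq, sub_zero, abs_of_pos hx0]
    exact hxd.trans_le (min_le_left _ _)
  have h2 := h.slope x hxR t htR hxt
  rw [lt_div_iff₀ (by linarith)] at h1
  have h3 : D 0 - ε/2 < D x := by
    by_contra hcon
    push Not at hcon
    have : D x * (t - x) ≤ (D 0 - ε/2) * (t - x) := by
      apply mul_le_mul_of_nonneg_right hcon
      linarith
    linarith
  have h4 : D x ≤ D 0 := h.anti h0 hxR hx0.le
  rw [Real.dist_eq, sub_zero, abs_of_nonneg (by linarith)]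
  linarith

/-- one-sided contribution -/
theorem oneSided {b D : ℝ → ℝ} {R : ℝ} (h : RightD b D R) (hb0 : b 0 = 0) {ρ : ℝ} (hρ : 0 < ρ)
    (hρR : ρ < R) {z q : ℂ} {lam K : ℝ} (hlam : 0 < lam)
    (hdec : ∀ s ∈ Icc 0 ρ, (Complex.I * (s * z + b s * q)).re ≤ -(lam * s))
    (hK : ‖q‖ ≤ K * lam) (hZ : z + D 0 * q ≠ 0) :
    ‖(∫ s in (0:ℝ)..ρ, Complex.exp (Complex.I * (s * z + b s * q))) -
      Complex.I / (z + D 0 * q)‖ ≤
      Real.exp (-(lam * ρ)) / ‖z + D 0 * q‖ +
        ‖q‖ / ‖z + D 0 * q‖ ^ 2 * ((D 0 - D ρ) * (2 + K * (D 0 - D ρ))) := by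
  have hR := h.hR
  have h0R : (0:ℝ) ∈ Ioo (-R) R := ⟨by linarith, hR⟩
  have hρR' : ρ ∈ Ioo (-R) R := ⟨by linarith, hρR⟩
  have hsub : Icc 0 ρ ⊆ Ioo (-R) R := fun x hx => ⟨by linarith [hx.1], by linarith [hx.2]⟩
  set Z : ℂ := z + D 0 * q with hZdef
  have hZn : 0 < ‖Z‖ := norm_pos_iff.2 hZ
  set u : ℝ → ℂ := fun s => Complex.exp (Complex.I * (s * z + b s * q)) with hu
  set ω : ℝ := D 0 - D ρ with hω
  have hω0 : 0 ≤ ω := sub_nonneg.2 (h.anti h0R hρR' hρ.le)
  set θ : ℝ → ℝ := fun s => D 0 - D (max 0 (min s ρ)) with hθ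
  have hclamp : ∀ s, max 0 (min s ρ) ∈ Icc 0 ρ := fun s =>
    ⟨le_max_left _ _, max_le hρ.le (min_le_right _ _)⟩
  have hθmono : Monotone θ := by
    intro s t hst
    have h1 : max 0 (min s ρ) ≤ max 0 (min t ρ) := max_le_max le_rfl (min_le_min hst le_rfl)
    have := h.anti (hsub (hclamp s)) (hsub (hclamp t)) h1
    simp only [hθ]
    linarith
  have hθ0 : ∀ s, 0 ≤ θ s := fun s =>
    sub_nonneg.2 (h.anti h0R (hsub (hclamp s)) (hclamp s).1)
  have hθ1 : ∀ s, θ s ≤ ω := fun s => by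
    have := h.anti (hsub (hclamp s)) hρR' (hclamp s).2
    simp only [hθ, hω]
    linarith
  have hθeq : ∀ s ∈ Icc 0 ρ, θ s = D 0 - D s := by
    intro s hs
    simp only [hθ]
    rw [min_eq_left hs.2, max_eq_right hs.1]
  have huc : ContinuousOn u (Icc 0 ρ) := by
    have h1 : ContinuousOn (fun s => ((b s : ℝ) : ℂ)) (Icc 0 ρ) :=
      Complex.continuous_ofReal.comp_continuousOn (h.cont.mono hsub)
    exact (continuousOn_const.mul ((Complex.continuous_ofReal.continuousOn.mul
      continuousOn_const).add (h1.mul continuousOn_const))).cexp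
  have hun : ∀ s ∈ Icc 0 ρ, ‖u s‖ ≤ Real.exp (-(lam * s)) := by
    intro s hs
    rw [hu]
    simp only
    rw [Complex.norm_exp]
    exact Real.exp_le_exp.2 (hdec s hs)
  have hθc : ∀ a ∈ Icc 0 ρ, IntervalIntegrable (fun s => (θ s : ℂ) * u s) volume a ρ := by
    intro a ha
    have h1 : IntervalIntegrable θ volume a ρ := hθmono.intervalIntegrable
    have h2 : IntervalIntegrable (fun s => (θ s : ℂ)) volume a ρ := by
      constructor
      · exact h1.1.ofReal
      · exact h1.2.ofReal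
    apply h2.mul_continuousOn
    rw [uIcc_of_le ha.2]
    exact huc.mono (Icc_subset_Icc ha.1 le_rfl)
  have huI : ∀ a ∈ Icc 0 ρ, IntervalIntegrable u volume a ρ := by
    intro a ha
    apply ContinuousOn.intervalIntegrable
    rw [uIcc_of_le ha.2]
    exact huc.mono (Icc_subset_Icc ha.1 le_rfl)
  -- fundamental theorem of calculus
  have hftc : ∀ a ∈ Icc 0 ρ, Complex.I * Z * (∫ s in a..ρ, u s) =
      u ρ - u a + Complex.I * q * ∫ s in a..ρ, (θ s : ℂ) * u s := by
    intro a ha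
    have hder : ∀ x ∈ Ioo a ρ, HasDerivWithinAt u (Complex.I * Z * u x -
        Complex.I * q * ((θ x : ℂ) * u x)) (Ioi x) x := by
      intro x hx
      have hxm : x ∈ Icc 0 ρ := ⟨ha.1.trans hx.1.le, hx.2.le⟩
      have h1 : HasDerivWithinAt (fun s => ((b s : ℝ) : ℂ)) (D x) (Ioi x) x :=
        (h.der x (hsub hxm)).ofReal_comp
      have h2 : HasDerivWithinAt (fun s : ℝ => (s : ℂ)) 1 (Ioi x) x :=
        Complex.ofRealCLM.hasDerivAt.hasDerivWithinAt
      have h3 := (((h2.mul_const z).add (h1.mul_const q)).const_mul Complex.I).cexp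
      refine h3.congr_deriv ?_
      rw [hθeq x hxm, hZdef, hu]
      push_cast
      simp only [Pi.add_apply]
      ring
    have h1 := intervalIntegral.integral_eq_sub_of_hasDeriv_right_of_le ha.2
      (huc.mono (Icc_subset_Icc ha.1 le_rfl)) hder
      (((huI a ha).const_mul _).sub ((hθc a ha).const_mul _))
    rw [intervalIntegral.integral_sub ((huI a ha).const_mul _) ((hθc a ha).const_mul _),
      intervalIntegral.integral_const_mul, intervalIntegral.integral_const_mul] at h1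
    linear_combination h1
  have hexpint : ∀ a ∈ Icc 0 ρ, ∫ s in a..ρ, Real.exp (-(lam * s)) ≤ 1 / lam := by
    intro a ha
    have hd : ∀ x ∈ uIcc a ρ, HasDerivAt (fun s : ℝ => -(1/lam) * Real.exp (-(lam * s)))
        (Real.exp (-(lam * x))) x := by
      intro x _
      have h1 : HasDerivAt (fun s : ℝ => -(lam * s)) (-lam) x := by
        have := (hasDerivAt_id x).const_mul (-lam)
        simpa using this
      have h2 := (h1.exp).const_mul (-(1/lam))
      have h3 : -(1/lam) * (Real.exp (-(lam * x)) * (-lam)) = Real.exp (-(lam * x)) := by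
        field_simp
      rw [h3] at h2
      exact h2
    rw [intervalIntegral.integral_eq_sub_of_hasDerivAt hd
      (Continuous.intervalIntegrable (by fun_prop) _ _)]
    have h1 : 0 < 1/lam * Real.exp (-(lam * ρ)) := by positivity
    have h2 : Real.exp (-(lam * a)) ≤ 1 := by
      apply Real.exp_le_one_iff.2
      have := mul_nonneg hlam.le ha.1
      linarith
    have h3 : 1/lam * Real.exp (-(lam * a)) ≤ 1/lam * 1 := by gcongr
    linarith
  have htail : ∀ a ∈ Icc 0 ρ, ‖∫ s in a..ρ, u s‖ ≤ (2 + K * ω) / ‖Z‖ := by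
    intro a ha
    have h1 := hftc a ha
    have h2 : ‖∫ s in a..ρ, (θ s : ℂ) * u s‖ ≤ ω * (1 / lam) := by
      have h3 := intervalIntegral.norm_integral_le_of_norm_le (μ := volume)
        (f := fun s => (θ s : ℂ) * u s) (g := fun s => ω * Real.exp (-(lam * s))) ha.2
        (ae_of_all _ (fun x hx => by
          have hxm : x ∈ Icc 0 ρ := ⟨ha.1.trans hx.1.le, hx.2⟩
          rw [norm_mul, Complex.norm_real, Real.norm_eq_abs, abs_of_nonneg (hθ0 x)]
          have := hθ1 x
          have := hun x hxm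
          gcongr))
        (Continuous.intervalIntegrable (by fun_prop) _ _)
      rw [intervalIntegral.integral_const_mul] at h3
      exact h3.trans (mul_le_mul_of_nonneg_left (hexpint a ha) hω0)
    have hu1 : ∀ s ∈ Icc 0 ρ, ‖u s‖ ≤ 1 := fun s hs => (hun s hs).trans (by
      apply Real.exp_le_one_iff.2
      have := mul_nonneg hlam.le hs.1
      linarith)
    have h4 : ‖Z‖ * ‖∫ s in a..ρ, u s‖ ≤ 2 + K * ω := by
      have h5 : ‖Z‖ * ‖∫ s in a..ρ, u s‖ = ‖Complex.I * Z * (∫ s in a..ρ, u s)‖ := by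
        rw [norm_mul, norm_mul, Complex.norm_I, one_mul]
      rw [h5, h1]
      calc ‖u ρ - u a + Complex.I * q * ∫ s in a..ρ, (θ s : ℂ) * u s‖
          ≤ (‖u ρ‖ + ‖u a‖) + ‖q‖ * ‖∫ s in a..ρ, (θ s : ℂ) * u s‖ := by
            refine (norm_add_le _ _).trans (add_le_add (norm_sub_le _ _) ?_)
            rw [norm_mul, norm_mul, Complex.norm_I, one_mul]
        _ ≤ (1 + 1) + (K * lam) * (ω * (1 / lam)) := by
            have e1 := hu1 ρ ⟨hρ.le, le_rfl⟩
            have e2 := hu1 a ha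
            have e3 : 0 ≤ K * lam := (norm_nonneg _).trans hK
            gcongr
        _ = 2 + K * ω := by
            field_simp
            ring
    rw [le_div_iff₀ hZn]
    linarith
  have hlc := layer_cake hθmono hρ.le hω0 hθ0 hθ1 huc htail
  have hmain := hftc 0 ⟨le_rfl, hρ.le⟩
  have hu0 : u 0 = 1 := by
    rw [hu]
    simp [hb0]
  have hid : (∫ s in (0:ℝ)..ρ, u s) - Complex.I / Z =
      -(Complex.I / Z) * u ρ + q / Z * ∫ s in (0:ℝ)..ρ, (θ s : ℂ) * u s := by
    have h2 : Complex.I * Z ≠ 0 := mul_ne_zero Complex.I_ne_zero hZ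
    apply mul_left_cancel₀ h2
    rw [mul_sub, hmain, hu0]
    have h3 : Complex.I * Z * (Complex.I / Z) = -1 := by
      field_simp
      exact Complex.I_sq
    rw [h3]
    field_simp
    linear_combination (u ρ) * Complex.I_sq
  rw [hid]
  refine (norm_add_le _ _).trans (add_le_add ?_ ?_)
  · rw [norm_mul, norm_neg, norm_div, Complex.norm_I]
    have := hun ρ ⟨hρ.le, le_rfl⟩
    calc 1 / ‖Z‖ * ‖u ρ‖ ≤ 1 / ‖Z‖ * Real.exp (-(lam * ρ)) := by gcongr
      _ = _ := by ring
  · rw [norm_mul, norm_div]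
    calc ‖q‖ / ‖Z‖ * ‖∫ s in (0:ℝ)..ρ, (θ s : ℂ) * u s‖
        ≤ ‖q‖ / ‖Z‖ * (ω * ((2 + K * ω) / ‖Z‖)) := by gcongr
      _ = _ := by
        field_simp

end

end Helper12.Fac
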