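import Mathlib
import Pool.Agent.Helper12.FacSlice
import Pool.Agent.Helper12.FacOne

/-!
# Parabolic branches at a corner which is not on a supporting line of the characteristic
direction (helper12)
-/

open Filter Topology Set MeasureTheory

namespace Helper12.Fac

noncomputable section

variable {α β : ℝ → ℝ} {H : ℝ}

/-- reflected/translated pieces of `β` are concave -/
lemma concave_right (S : SliceData α β H) {hv : ℝ} :
    ConcaveOn ℝ (Icc (-(min hv (H - hv))) (min hv (H - hv))) (fun s => β (hv + s)) := by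
  have hsub : ∀ s ∈ Icc (-(min hv (H - hv))) (min hv (H - hv)), hv + s ∈ Icc 0 H := by
    intro s hs
    have h1 := min_le_left hv (H - hv)
    have h2 := min_le_right hv (H - hv)
    exact ⟨by linarith [hs.1], by linarith [hs.2]⟩
  refine ⟨convex_Icc _ _, fun x hx y hy a b ha hb hab => ?_⟩
  have h := S.hb.2 (hsub x hx) (hsub y hy) ha hb hab
  have e : a • (hv + x) + b • (hv + y) = hv + (a • x + b • y) := by
    simp only [smul_eq_mul]
    linear_combination hv * hab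
  rwa [e] at h

lemma concave_left (S : SliceData α β H) {hv : ℝ} :
    ConcaveOn ℝ (Icc (-(min hv (H - hv))) (min hv (H - hv))) (fun s => β (hv - s)) := by
  have hsub : ∀ s ∈ Icc (-(min hv (H - hv))) (min hv (H - hv)), hv - s ∈ Icc 0 H := by
    intro s hs
    have h1 := min_le_left hv (H - hv)
    have h2 := min_le_right hv (H - hv)
    exact ⟨by linarith [hs.2], by linarith [hs.1]⟩
  refine ⟨convex_Icc _ _, fun x hx y hy a b ha hb hab => ?_⟩
  have h := S.hb.2 (hsub x hx) (hsub y hy) ha hb hab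
  have e : a • (hv - x) + b • (hv - y) = hv - (a • x + b • y) := by
    simp only [smul_eq_mul]
    linear_combination hv * hab
  rwa [e] at h

lemma rightD_le {b D : ℝ → ℝ} {R : ℝ} (h : RightD b D R) (hb0 : b 0 = 0) {m : ℝ}
    (hm : ∀ s ∈ Ioo 0 R, b s ≤ m * s) : D 0 ≤ m := by
  have hR := h.hR
  have h0 : (0:ℝ) ∈ Ioo (-R) R := ⟨by linarith, hR⟩
  have hder := h.der 0 h0
  rw [hasDerivWithinAt_iff_tendsto_slope' self_notMem_Ioi] at hder
  refine le_of_tendsto hder ?_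
  filter_upwards [Ioo_mem_nhdsGT hR] with s hs
  rw [slope_def_field, hb0, sub_zero, sub_zero, div_le_iff₀ hs.1]
  exact hm s hs

/-- deterministic form -/
lemma P2det (S : SliceData α β H) {hv : ℝ} (hhv : hv ∈ Ioo 0 H) (hβv : β hv = 0)
    {DR DL : ℝ → ℝ} (hDR : RightD (fun s => β (hv + s)) DR (min hv (H - hv)))
    (hDL : RightD (fun s => β (hv - s)) DL (min hv (H - hv)))
    {κ ρ ω K c1 E : ℝ} {z q : ℂ} (hq0 : q ≠ 0) (hρ : 0 < ρ) (hρR : ρ < min hv (H - hv))
    (hωR : DR 0 - DR ρ ≤ ω) (hωL : DL 0 - DL ρ ≤ ω) (hK0 : 0 ≤ K) (hκ : 0 < κ) (hc1 : 0 < c1)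
    (hK : ‖q‖ ≤ K * (κ * c1))
    (hr : ∀ h ∈ Icc hv H, (Complex.I * ((h - hv : ℝ) * z + β h * q)).re ≤ -(κ * c1 * (h - hv)))
    (hl : ∀ h ∈ Icc 0 hv, (Complex.I * ((h - hv : ℝ) * z + β h * q)).re ≤ -(κ * c1 * (hv - h)))
    (ha : ∀ h ∈ Icc 0 H, Real.exp ((Complex.I * ((h - hv : ℝ) * z + α h * q)).re) ≤ E)
    (hE : Real.exp (-(κ * c1 * ρ)) ≤ E)
    (hz1 : ‖z‖ / 2 ≤ ‖z + DR 0 * q‖) (hz2 : ‖z + DR 0 * q‖ ≤ 2 * ‖z‖)
    (hz3 : ‖z‖ / 2 ≤ ‖-z + DL 0 * q‖) (hz4 : ‖-z + DL 0 * q‖ ≤ 2 * ‖z‖) (hz : 1 ≤ ‖z‖)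
    (hfin : (4 + 2 * H) * E + 8 * (‖q‖ / ‖z‖ ^ 2) * (ω * (2 + K * ω)) <
      |DR 0 + DL 0| * ‖q‖ / (4 * ‖z‖ ^ 2)) :
    Phi α β H z q ≠ 0 := by
  have hH := S.hH
  have hzn : 0 < ‖z‖ := by linarith
  have hR0 : 0 < min hv (H - hv) := hDR.hR
  have hm1 := min_le_left hv (H - hv)
  have hm2 := min_le_right hv (H - hv)
  have hE0 : 0 < E := lt_of_lt_of_le (Real.exp_pos _) hE
  have h0R : (0:ℝ) ∈ Ioo (-(min hv (H - hv))) (min hv (H - hv)) := ⟨by linarith, hR0⟩
  have hρR' : ρ ∈ Ioo (-(min hv (H - hv))) (min hv (H - hv)) := ⟨by linarith, hρR⟩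
  have hωR0 : 0 ≤ DR 0 - DR ρ := sub_nonneg.2 (hDR.anti h0R hρR' hρ.le)
  have hωL0 : 0 ≤ DL 0 - DL ρ := sub_nonneg.2 (hDL.anti h0R hρR' hρ.le)
  set uβ : ℝ → ℂ := fun h => Complex.exp (Complex.I * ((h - hv : ℝ) * z + β h * q)) with huβ
  set uα : ℝ → ℂ := fun h => Complex.exp (Complex.I * ((h - hv : ℝ) * z + α h * q)) with huα
  have hβC : ContinuousOn (fun h => ((β h : ℝ) : ℂ)) (Icc 0 H) :=
    Complex.continuous_ofReal.comp_continuousOn S.hbc
  have hαC : ContinuousOn (fun h => ((α h : ℝ) : ℂ)) (Icc 0 H) :=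
    Complex.continuous_ofReal.comp_continuousOn S.hac
  have huβc : ContinuousOn uβ (Icc 0 H) :=
    (continuousOn_const.mul (ContinuousOn.add (by fun_prop) (hβC.mul continuousOn_const))).cexp
  have huαc : ContinuousOn uα (Icc 0 H) :=
    (continuousOn_const.mul (ContinuousOn.add (by fun_prop) (hαC.mul continuousOn_const))).cexp
  have hii : ∀ {a b : ℝ}, 0 ≤ a → a ≤ b → b ≤ H → IntervalIntegrable uβ volume a b := by
    intro a b h0 h1 h2
    apply ContinuousOn.intervalIntegrable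
    rw [uIcc_of_le h1]
    exact huβc.mono (Icc_subset_Icc h0 h2)
  -- splitting
  have hsplit : Complex.exp (-(Complex.I * hv * z)) * (Complex.I * q * Phi α β H z q) =
      (∫ h in (0:ℝ)..H, uβ h) - ∫ h in (0:ℝ)..H, uα h := by
    rw [S.phi_mul _ hq0, ← intervalIntegral.integral_const_mul, ← intervalIntegral.integral_sub]
    · congr 1
      ext h
      rw [huβ, huα]
      simp only
      have e1 : Complex.I * ((h - hv : ℝ) * z + β h * q) =
          -(Complex.I * hv * z) + (Complex.I * h * z + Complex.I * β h * q) := by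
        push_cast; ring
      have e2 : Complex.I * ((h - hv : ℝ) * z + α h * q) =
          -(Complex.I * hv * z) + (Complex.I * h * z + Complex.I * α h * q) := by
        push_cast; ring
      rw [e1, e2, Complex.exp_add, Complex.exp_add, Complex.exp_add, Complex.exp_add]
      ring
    · exact hii le_rfl hH.le le_rfl
    · apply ContinuousOn.intervalIntegrable
      rw [uIcc_of_le hH.le]
      exact huαc
  have hαint : ‖∫ h in (0:ℝ)..H, uα h‖ ≤ E * H := by
    have := intervalIntegral.norm_integral_le_of_norm_le_const (a := 0) (b := H) (f := uα)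
      (C := E) (by
        intro h hh
        rw [uIoc_of_le hH.le] at hh
        rw [huα]
        simp only
        rw [Complex.norm_exp]
        exact ha h ⟨hh.1.le, hh.2⟩)
    rwa [sub_zero, abs_of_pos hH] at this
  -- far parts of the β integral
  have hfar1 : ‖∫ h in (0:ℝ)..(hv - ρ), uβ h‖ ≤ E * (hv - ρ) := by
    have := intervalIntegral.norm_integral_le_of_norm_le_const (a := 0) (b := hv - ρ) (f := uβ)
      (C := E) (by
        intro h hh
        rw [uIoc_of_le (by linarith)] at hh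
        rw [huβ]
        simp only
        rw [Complex.norm_exp]
        refine le_trans (Real.exp_le_exp.2 ((hl h ⟨hh.1.le, by linarith [hh.2]⟩).trans ?_)) hE
        have : κ * c1 * ρ ≤ κ * c1 * (hv - h) := by
          have := hh.2
          gcongr
          linarith
        linarith)
    rwa [sub_zero, abs_of_pos (by linarith)] at this
  have hfar2 : ‖∫ h in (hv + ρ)..H, uβ h‖ ≤ E * (H - (hv + ρ)) := by
    have := intervalIntegral.norm_integral_le_of_norm_le_const (a := hv + ρ) (b := H) (f := uβ)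
      (C := E) (by
        intro h hh
        rw [uIoc_of_le (by linarith)] at hh
        rw [huβ]
        simp only
        rw [Complex.norm_exp]
        refine le_trans (Real.exp_le_exp.2 ((hr h ⟨by linarith [hh.1], hh.2⟩).trans ?_)) hE
        have : κ * c1 * ρ ≤ κ * c1 * (h - hv) := by
          have := hh.1
          gcongr
          linarith
        linarith)
    rwa [abs_of_pos (by linarith)] at this
  -- near parts
  have hZR : z + DR 0 * q ≠ 0 := by
    intro h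
    rw [h, norm_zero] at hz1
    linarith
  have hZL : -z + DL 0 * q ≠ 0 := by
    intro h
    rw [h, norm_zero] at hz3
    linarith
  have hnearR : ‖(∫ h in hv..(hv + ρ), uβ h) - Complex.I / (z + DR 0 * q)‖ ≤
      2 * E + 4 * (‖q‖ / ‖z‖ ^ 2) * (ω * (2 + K * ω)) := by
    have h1 := oneSided hDR (by simpa using hβv) hρ hρR (z := z) (q := q) (lam := κ * c1) (K := K)
      (by positivity) (by
        intro s hs
        have h2 := hr (hv + s) ⟨by linarith [hs.1], by linarith [hs.2]⟩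
        have e : (hv + s - hv : ℝ) = s := by ring
        rwa [e] at h2) hK hZR
    have h2 : ∫ h in hv..(hv + ρ), uβ h =
        ∫ s in (0:ℝ)..ρ, Complex.exp (Complex.I * (s * z + β (hv + s) * q)) := by
      have h3 := intervalIntegral.integral_comp_add_left (a := 0) (b := ρ) uβ hv
      rw [add_zero] at h3
      rw [← h3]
      congr 1
      ext s
      rw [huβ]
      simp only
      congr 3
      rw [add_sub_cancel_left]
    rw [h2]
    refine h1.trans ?_
    have e1 : Real.exp (-(κ * c1 * ρ)) / ‖z + DR 0 * q‖ ≤ 2 * E := by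
      rw [div_le_iff₀ (by linarith)]
      have : 2 * E * (1/2) ≤ 2 * E * ‖z + DR 0 * q‖ := by
        gcongr
        linarith
      linarith
    have e2 : ‖q‖ / ‖z + DR 0 * q‖ ^ 2 ≤ 4 * (‖q‖ / ‖z‖ ^ 2) := by
      have : (‖z‖ / 2) ^ 2 ≤ ‖z + DR 0 * q‖ ^ 2 := by gcongr
      calc ‖q‖ / ‖z + DR 0 * q‖ ^ 2 ≤ ‖q‖ / (‖z‖ / 2) ^ 2 := by gcongr
        _ = _ := by field_simp; norm_num
    have e3 : (DR 0 - DR ρ) * (2 + K * (DR 0 - DR ρ)) ≤ ω * (2 + K * ω) := by
      have : 0 ≤ ω := hωR0.trans hωR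
      gcongr
    have e4 : 0 ≤ (DR 0 - DR ρ) * (2 + K * (DR 0 - DR ρ)) := by positivity
    have e5 : 0 ≤ 4 * (‖q‖ / ‖z‖ ^ 2) := by positivity
    exact add_le_add e1 (mul_le_mul e2 e3 e4 e5)
  have hnearL : ‖(∫ h in (hv - ρ)..hv, uβ h) - Complex.I / (-z + DL 0 * q)‖ ≤
      2 * E + 4 * (‖q‖ / ‖z‖ ^ 2) * (ω * (2 + K * ω)) := by
    have h1 := oneSided hDL (by simpa using hβv) hρ hρR (z := -z) (q := q) (lam := κ * c1) (K := K)
      (by positivity) (by
        intro s hs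
        have h2 := hl (hv - s) ⟨by linarith [hs.2], by linarith [hs.1]⟩
        have e : (hv - s - hv : ℝ) = -s := by ring
        have e' : hv - (hv - s) = s := by ring
        rw [e, e'] at h2
        have e3 : ((-s : ℝ) : ℂ) * z = s * (-z) := by push_cast; ring
        rwa [e3] at h2) hK hZL
    have h2 : ∫ h in (hv - ρ)..hv, uβ h =
        ∫ s in (0:ℝ)..ρ, Complex.exp (Complex.I * (s * (-z) + β (hv - s) * q)) := by
      have h3 := intervalIntegral.integral_comp_sub_left (a := 0) (b := ρ) uβ hv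
      rw [sub_zero] at h3
      rw [← h3]
      congr 1
      ext s
      rw [huβ]
      simp only
      congr 3
      push_cast
      ring
    rw [h2]
    refine h1.trans ?_
    have e1 : Real.exp (-(κ * c1 * ρ)) / ‖-z + DL 0 * q‖ ≤ 2 * E := by
      rw [div_le_iff₀ (by linarith)]
      have : 2 * E * (1/2) ≤ 2 * E * ‖-z + DL 0 * q‖ := by
        gcongr
        linarith
      linarith
    have e2 : ‖q‖ / ‖-z + DL 0 * q‖ ^ 2 ≤ 4 * (‖q‖ / ‖z‖ ^ 2) := by
      have : (‖z‖ / 2) ^ 2 ≤ ‖-z + DL 0 * q‖ ^ 2 := by gcongr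
      calc ‖q‖ / ‖-z + DL 0 * q‖ ^ 2 ≤ ‖q‖ / (‖z‖ / 2) ^ 2 := by gcongr
        _ = _ := by field_simp; norm_num
    have e3 : (DL 0 - DL ρ) * (2 + K * (DL 0 - DL ρ)) ≤ ω * (2 + K * ω) := by
      have : 0 ≤ ω := hωL0.trans hωL
      gcongr
    have e4 : 0 ≤ (DL 0 - DL ρ) * (2 + K * (DL 0 - DL ρ)) := by positivity
    have e5 : 0 ≤ 4 * (‖q‖ / ‖z‖ ^ 2) := by positivity
    exact add_le_add e1 (mul_le_mul e2 e3 e4 e5)
  -- the main term
  have hmain : |DR 0 + DL 0| * ‖q‖ / (4 * ‖z‖ ^ 2) ≤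
      ‖Complex.I / (z + DR 0 * q) + Complex.I / (-z + DL 0 * q)‖ := by
    have h1 : Complex.I / (z + DR 0 * q) + Complex.I / (-z + DL 0 * q) =
        Complex.I * ((DR 0 + DL 0 : ℝ) * q) / ((z + DR 0 * q) * (-z + DL 0 * q)) := by
      rw [div_add_div _ _ hZR hZL]
      congr 1
      push_cast
      ring
    rw [h1, norm_div, norm_mul, norm_mul, norm_mul, Complex.norm_I, one_mul, Complex.norm_real,
      Real.norm_eq_abs]
    have h2 : ‖z + DR 0 * q‖ * ‖-z + DL 0 * q‖ ≤ 4 * ‖z‖ ^ 2 := by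
      calc ‖z + DR 0 * q‖ * ‖-z + DL 0 * q‖ ≤ (2 * ‖z‖) * (2 * ‖z‖) := by gcongr
        _ = 4 * ‖z‖ ^ 2 := by ring
    have h3 : 0 < ‖z + DR 0 * q‖ * ‖-z + DL 0 * q‖ := by
      have : 0 < ‖z + DR 0 * q‖ := by linarith
      have : 0 < ‖-z + DL 0 * q‖ := by linarith
      positivity
    gcongr
  -- conclusion
  intro hPhi
  rw [hPhi, mul_zero, mul_zero] at hsplit
  have hadd : (∫ h in (0:ℝ)..H, uβ h) = (∫ h in (0:ℝ)..(hv - ρ), uβ h) +
      (∫ h in (hv - ρ)..hv, uβ h) + (∫ h in hv..(hv + ρ), uβ h) + ∫ h in (hv + ρ)..H, uβ h := by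
    rw [intervalIntegral.integral_add_adjacent_intervals (hii le_rfl (by linarith) (by linarith))
        (hii (by linarith) (by linarith) (by linarith)),
      intervalIntegral.integral_add_adjacent_intervals (hii le_rfl (by linarith) (by linarith))
        (hii (by linarith) (by linarith) (by linarith)),
      intervalIntegral.integral_add_adjacent_intervals (hii le_rfl (by linarith) (by linarith))
        (hii (by linarith) (by linarith) (by linarith))]
  set A1 := ∫ h in (0:ℝ)..(hv - ρ), uβ h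
  set A2 := ∫ h in (hv - ρ)..hv, uβ h
  set A3 := ∫ h in hv..(hv + ρ), uβ h
  set A4 := ∫ h in (hv + ρ)..H, uβ h
  set A5 := ∫ h in (0:ℝ)..H, uα h
  rw [hadd] at hsplit
  have hid : Complex.I / (z + DR 0 * q) + Complex.I / (-z + DL 0 * q) =
      A5 - A1 - A4 - (A3 - Complex.I / (z + DR 0 * q)) - (A2 - Complex.I / (-z + DL 0 * q)) := by
    linear_combination -hsplit
  rw [hid] at hmain
  have hb : ‖A5 - A1 - A4 - (A3 - Complex.I / (z + DR 0 * q)) -
      (A2 - Complex.I / (-z + DL 0 * q))‖ ≤ ‖A5‖ + ‖A1‖ + ‖A4‖ +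
      ‖A3 - Complex.I / (z + DR 0 * q)‖ + ‖A2 - Complex.I / (-z + DL 0 * q)‖ := by
    refine (norm_sub_le _ _).trans (add_le_add ?_ le_rfl)
    refine (norm_sub_le _ _).trans (add_le_add ?_ le_rfl)
    refine (norm_sub_le _ _).trans (add_le_add ?_ le_rfl)
    exact norm_sub_le _ _
  have hρ0 : 0 ≤ E * ρ := by positivity
  nlinarith [hmain, hb, hαint, hfar1, hfar2, hnearR, hnearL, hfin]

/-- main statement of this file -/
theorem P2 (S : SliceData α β H) {hv : ℝ} (hhv : hv ∈ Ioo 0 H) (hβv : β hv = 0)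
    {μ1 μ2 μ : ℝ} (hμ1 : μ1 < μ) (hμ2 : μ < μ2)
    (h1 : ∀ h ∈ Icc 0 H, β h ≤ μ1 * (h - hv)) (h2 : ∀ h ∈ Icc 0 H, β h ≤ μ2 * (h - hv))
    {z q : ℕ → ℂ} {c : ℝ} (hc : 0 < c) (hqinf : Tendsto (fun n => ‖q n‖) atTop atTop)
    (hzinf : Tendsto (fun n => ‖z n‖) atTop atTop)
    (hqz : Tendsto (fun n => ‖q n‖ / ‖z n‖) atTop (𝓝 0))
    (hqi : ∀ᶠ n in atTop, c * ‖q n‖ ≤ -(q n).im)
    (hzi : Tendsto (fun n => (z n).im / (-(q n).im)) atTop (𝓝 μ)) {N : ℕ}
    (hzN : ∀ᶠ n in atTop, ‖z n‖ ≤ ‖q n‖ ^ N) :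
    ∀ᶠ n in atTop, Phi α β H (z n) (q n) ≠ 0 := by
  have hH := S.hH
  have hhv' : hv ∈ Icc 0 H := Ioo_subset_Icc_self hhv
  have hR0 : 0 < min hv (H - hv) := lt_min hhv.1 (by linarith [hhv.2])
  have hm1 := min_le_left hv (H - hv)
  have hm2 := min_le_right hv (H - hv)
  obtain ⟨DR, hDR⟩ := exists_rightD hR0 (concave_right S)
  obtain ⟨DL, hDL⟩ := exists_rightD hR0 (concave_left S)
  have hDR0 : DR 0 ≤ μ1 := rightD_le hDR (by simpa using hβv) (fun s hs => by
    have := h1 (hv + s) ⟨by linarith [hs.1, hhv.1], by linarith [hs.2]⟩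
    simpa using this)
  have hDL0 : DL 0 ≤ -μ2 := rightD_le hDL (by simpa using hβv) (fun s hs => by
    have := h2 (hv - s) ⟨by linarith [hs.2], by linarith [hs.1, hhv.2]⟩
    have e : μ2 * (hv - s - hv) = -μ2 * s := by ring
    rwa [e] at this)
  have hD : μ2 - μ1 ≤ |DR 0 + DL 0| := by
    have := neg_abs_le (DR 0 + DL 0)
    linarith
  set c1 : ℝ := min (μ - μ1) (μ2 - μ) / 2 with hc1def
  have hc1 : 0 < c1 := by
    have : 0 < min (μ - μ1) (μ2 - μ) := lt_min (by linarith) (by linarith)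
    positivity
  have hc1a : 2 * c1 ≤ μ - μ1 := by
    have := min_le_left (μ - μ1) (μ2 - μ)
    rw [hc1def]; linarith
  have hc1b : 2 * c1 ≤ μ2 - μ := by
    have := min_le_right (μ - μ1) (μ2 - μ)
    rw [hc1def]; linarith
  set K : ℝ := 1 / (c * c1) with hKdef
  have hK0 : 0 < K := by positivity
  set ω : ℝ := min 1 ((μ2 - μ1) / (128 * (2 + K))) with hωdef
  have hω0 : 0 < ω := lt_min one_pos (div_pos (by linarith) (by positivity))
  have hω1 : ω ≤ 1 := min_le_left _ _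
  have hω2 : 8 * (ω * (2 + K * ω)) ≤ (μ2 - μ1) / 16 := by
    have e1 : ω * (2 + K * ω) ≤ ω * (2 + K) := by
      have : K * ω ≤ K * 1 := by gcongr
      gcongr
      linarith
    have e2 : ω ≤ (μ2 - μ1) / (128 * (2 + K)) := min_le_right _ _
    rw [le_div_iff₀ (by positivity)] at e2
    linarith
  -- choose ρ
  obtain ⟨ρ, hρ⟩ := ((hDR.tendsto.eventually (gt_mem_nhds hω0)).and
    ((hDL.tendsto.eventually (gt_mem_nhds hω0)).and
      (Filter.eventually_of_mem (Ioo_mem_nhdsGT hR0) (fun x hx => hx)))).exists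
  obtain ⟨hωR, hωL, hρ0, hρR⟩ := hρ
  -- left boundary
  obtain ⟨c2, hc2, hc2'⟩ : ∃ c2 > 0, ∀ h ∈ Icc 0 H, α h - μ * (h - hv) ≤ -(2 * c2) := by
    have hcont : ContinuousOn (fun h => α h - μ * (h - hv)) (Icc 0 H) :=
      S.hac.sub (by fun_prop)
    obtain ⟨x, hx, hmax⟩ := isCompact_Icc.exists_isMaxOn ⟨0, S.zero_mem⟩ hcont
    have hneg : α x - μ * (x - hv) < 0 := by
      rcases lt_trichotomy x hv with h | h | h
      · have e1 := S.le hx
        have e2 := h2 x hx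
        nlinarith
      · have e1 := S.hlt hv hhv
        rw [h]
        linarith
      · have e1 := S.le hx
        have e2 := h1 x hx
        nlinarith
    refine ⟨-(α x - μ * (x - hv)) / 2, by linarith, fun h hh => ?_⟩
    have := hmax hh
    simp only [mem_ofPred_eq] at this
    linarith
  set c3 : ℝ := c * min (c1 * ρ) c2 with hc3def
  have hc3 : 0 < c3 := by
    have : 0 < min (c1 * ρ) c2 := lt_min (by positivity) hc2
    positivity
  -- eventual facts
  have ev1 : ∀ᶠ n in atTop, |(z n).im / (-(q n).im) - μ| ≤ min c1 (c2 / H) := by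
    have e0 : 0 < min c1 (c2 / H) := lt_min hc1 (by positivity)
    have e1 : Tendsto (fun n => |(z n).im / (-(q n).im) - μ|) atTop (𝓝 0) := by
      have := (hzi.sub_const μ).abs
      simpa using this
    exact (e1.eventually (gt_mem_nhds e0)).mono (fun n h => h.le)
  have ev2 : ∀ᶠ n in atTop, ‖q n‖ / ‖z n‖ ≤ 1 / (2 * (|DR 0| + |DL 0| + 1)) := by
    exact (hqz.eventually (gt_mem_nhds (by positivity))).mono (fun n h => h.le)
  have ev3 := hzinf.eventually_ge_atTop 1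
  have ev4 := hqinf.eventually_ge_atTop 1
  have ev5 : ∀ᶠ n in atTop, (4 + 2 * H) * (‖q n‖ ^ (2 * N) * Real.exp (-c3 * ‖q n‖)) <
      (μ2 - μ1) / 16 := by
    have e1 := (tendsto_rpow_mul_exp_neg_mul_atTop_nhds_zero ((2 * N : ℕ) : ℝ) c3 hc3).comp hqinf
    have e2 := e1.const_mul (4 + 2 * H)
    rw [mul_zero] at e2
    have e3 : (0:ℝ) < (μ2 - μ1) / 16 := by linarith
    filter_upwards [e2.eventually (gt_mem_nhds e3)] with n hn
    simp only [Function.comp_apply, Real.rpow_natCast] at hn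
    exact hn
  filter_upwards [ev1, ev2, ev3, ev4, ev5, hqi, hzN] with n g1 g2 g3 g4 g5 g6 g7
  have hqn : 0 < ‖q n‖ := by linarith
  have hzn : 0 < ‖z n‖ := by linarith
  set κ : ℝ := -(q n).im with hκdef
  have hκ : 0 < κ := lt_of_lt_of_le (by positivity) g6
  set μ' : ℝ := (z n).im / κ with hμ'
  have hzim : (z n).im = μ' * κ := by
    rw [hμ']
    field_simp
  have g1a : |μ' - μ| ≤ c1 := g1.trans (min_le_left _ _)
  have g1b : |μ' - μ| * H ≤ c2 := by
    have := g1.trans (min_le_right _ _)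
    rwa [le_div_iff₀ hH] at this
  rw [abs_le] at g1a
  have hre : ∀ (h y : ℝ), (Complex.I * ((h - hv : ℝ) * z n + y * q n)).re =
      κ * (y - μ' * (h - hv)) := by
    intro h y
    have e1 : (Complex.I * ((h - hv : ℝ) * z n + y * q n)).re =
        -((h - hv) * (z n).im + y * (q n).im) := by
      rw [Complex.I_mul_re, Complex.add_im, Complex.im_ofReal_mul, Complex.im_ofReal_mul]
    rw [e1, hzim, show (q n).im = -κ by rw [hκdef]; ring]
    ring
  have hratio : ∀ D : ℝ, |D| ≤ |DR 0| + |DL 0| + 1 → ‖(D : ℂ) * q n‖ ≤ ‖z n‖ / 2 := by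
    intro D hD'
    rw [norm_mul, Complex.norm_real, Real.norm_eq_abs]
    rw [div_le_div_iff₀ hzn (by positivity)] at g2
    have : |D| * ‖q n‖ ≤ (|DR 0| + |DL 0| + 1) * ‖q n‖ := by gcongr
    linarith
  have hr1 := hratio (DR 0) (by linarith [abs_nonneg (DL 0)])
  have hr2 := hratio (DL 0) (by linarith [abs_nonneg (DR 0)])
  have hq0 : q n ≠ 0 := norm_pos_iff.1 hqn
  have hKq : ‖q n‖ ≤ K * (κ * c1) := by
    have e1 : K * (κ * c1) = κ / c := by
      rw [hKdef]
      field_simp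
    rw [e1, le_div_iff₀ hc]
    linarith
  refine P2det S hhv hβv hDR hDL (κ := κ) (ρ := ρ) (ω := ω) (K := K) (c1 := c1)
    (E := Real.exp (-c3 * ‖q n‖)) hq0 hρ0 hρR hωR.le hωL.le hK0.le hκ hc1 hKq ?_ ?_ ?_ ?_ ?_ ?_ ?_
    ?_ g3 ?_
  · intro h hh
    rw [hre]
    have e1 := h1 h ⟨by linarith [hh.1, hhv.1], hh.2⟩
    have e2 : β h - μ' * (h - hv) ≤ -(c1 * (h - hv)) := by
      have : 0 ≤ h - hv := by linarith [hh.1]
      nlinarith
    have := mul_le_mul_of_nonneg_left e2 hκ.le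
    linarith
  · intro h hh
    rw [hre]
    have e1 := h2 h ⟨hh.1, by linarith [hh.2, hhv.2]⟩
    have e2 : β h - μ' * (h - hv) ≤ -(c1 * (hv - h)) := by
      have : 0 ≤ hv - h := by linarith [hh.2]
      nlinarith
    have := mul_le_mul_of_nonneg_left e2 hκ.le
    linarith
  · intro h hh
    rw [hre]
    apply Real.exp_le_exp.2
    have e1 := hc2' h hh
    have e2 : α h - μ' * (h - hv) ≤ -c2 := by
      have e3 : (μ - μ') * (h - hv) ≤ |μ' - μ| * H := by
        have e4 : (μ - μ') * (h - hv) ≤ |(μ - μ') * (h - hv)| := le_abs_self _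
        rw [abs_mul, abs_sub_comm] at e4
        have e5 : |h - hv| ≤ H := by
          rw [abs_le]
          constructor <;> linarith [hh.1, hh.2, hhv.1, hhv.2]
        refine e4.trans ?_
        gcongr
      linarith
    have e3 := mul_le_mul_of_nonneg_left e2 hκ.le
    have e4 : c3 * ‖q n‖ ≤ κ * c2 := by
      have e5 : min (c1 * ρ) c2 ≤ c2 := min_le_right _ _
      calc c3 * ‖q n‖ = (c * ‖q n‖) * min (c1 * ρ) c2 := by rw [hc3def]; ring
        _ ≤ κ * c2 := by gcongr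
    linarith
  · apply Real.exp_le_exp.2
    have e4 : c3 * ‖q n‖ ≤ κ * (c1 * ρ) := by
      have e5 : min (c1 * ρ) c2 ≤ c1 * ρ := min_le_left _ _
      calc c3 * ‖q n‖ = (c * ‖q n‖) * min (c1 * ρ) c2 := by rw [hc3def]; ring
        _ ≤ κ * (c1 * ρ) := by gcongr
    linarith
  · have := norm_sub_norm_le (z n) (-((DR 0 : ℂ) * q n))
    rw [norm_neg, sub_neg_eq_add] at this
    linarith
  · have := norm_add_le (z n) ((DR 0 : ℂ) * q n)
    linarith
  · have := norm_sub_norm_le (-z n) (-((DL 0 : ℂ) * q n))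
    rw [norm_neg, norm_neg, sub_neg_eq_add] at this
    linarith
  · have := norm_add_le (-z n) ((DL 0 : ℂ) * q n)
    rw [norm_neg] at this
    linarith
  · have hz2 : 0 < ‖z n‖ ^ 2 := by positivity
    have e1 : (4 + 2 * H) * Real.exp (-c3 * ‖q n‖) < (μ2 - μ1) / 16 * (‖q n‖ / ‖z n‖ ^ 2) := by
      rw [← mul_div_assoc, lt_div_iff₀ hz2]
      have e2 : ‖z n‖ ^ 2 ≤ ‖q n‖ ^ (2 * N) := by
        rw [mul_comm 2 N, pow_mul]
        gcongr
      calc (4 + 2 * H) * Real.exp (-c3 * ‖q n‖) * ‖z n‖ ^ 2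
          ≤ (4 + 2 * H) * Real.exp (-c3 * ‖q n‖) * ‖q n‖ ^ (2 * N) := by gcongr
        _ = (4 + 2 * H) * (‖q n‖ ^ (2 * N) * Real.exp (-c3 * ‖q n‖)) := by ring
        _ < (μ2 - μ1) / 16 := g5
        _ ≤ (μ2 - μ1) / 16 * ‖q n‖ := by
          have : 0 ≤ (μ2 - μ1) / 16 := by linarith
          nlinarith
    have e2 : 8 * (‖q n‖ / ‖z n‖ ^ 2) * (ω * (2 + K * ω)) ≤
        (μ2 - μ1) / 16 * (‖q n‖ / ‖z n‖ ^ 2) := by
      have : 0 ≤ ‖q n‖ / ‖z n‖ ^ 2 := by positivity
      calc 8 * (‖q n‖ / ‖z n‖ ^ 2) * (ω * (2 + K * ω))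
          = (8 * (ω * (2 + K * ω))) * (‖q n‖ / ‖z n‖ ^ 2) := by ring
        _ ≤ _ := by gcongr
    have e3 : (μ2 - μ1) / 4 * (‖q n‖ / ‖z n‖ ^ 2) ≤ |DR 0 + DL 0| * ‖q n‖ / (4 * ‖z n‖ ^ 2) := by
      have : |DR 0 + DL 0| * ‖q n‖ / (4 * ‖z n‖ ^ 2) =
          |DR 0 + DL 0| / 4 * (‖q n‖ / ‖z n‖ ^ 2) := by field_simp
      rw [this]
      gcongr
    have e4 : 0 < ‖q n‖ / ‖z n‖ ^ 2 := by positivity
    nlinarith

end

end Helper12.Fac
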