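import Mathlib
import Pool.Agent.Helper12.FacAlg

/-!
# The parabolic branches of a bivariate polynomial (helper12)
-/

open Polynomial Filter Topology

namespace Helper12.Fac

noncomputable section

/-- coefficient of `z^m` (`m` the total degree) -/
lemma top_one_zero_ne (P : MvPolynomial (Fin 2) ℂ) (h0 : top P 1 0 = 0)
    {s : Fin 2 →₀ ℕ} (hs : s ∈ P.support) (hst : s 0 + s 1 = P.totalDegree) : s 1 ≠ 0 := by
  intro h1
  rw [top, Finset.sum_eq_single s] at h0
  · simp [h1] at h0
    exact (MvPolynomial.mem_support_iff.1 hs) h0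
  · intro t ht hne
    simp only [Finset.mem_filter] at ht
    have : t 1 ≠ 0 := by
      intro h
      exact hne (ext2 (by omega) (by omega))
    simp [this]
  · intro h
    simp [hst] at h
    simp [h]

lemma parabolic_data (P : MvPolynomial (Fin 2) ℂ) (hP : P ≠ 0) (h0 : top P 1 0 = 0) (d : ℕ)
    (hd1 : ∀ s ∈ P.support, s 0 ≤ d) (hd2 : ∃ s ∈ P.support, s 0 = d)
    (hd3 : ∀ s ∈ P.support, s 0 = d → s 1 = 0) :
    ∃ r : ℝ, 0 < r ∧ r < 1 ∧ (∀ s ∈ P.support, (s 0 : ℝ) + r * s 1 ≤ d) ∧
      (∃ M : ℕ, 0 < M ∧ (Complex.exp (Real.pi * r * Complex.I)) ^ M = 1) ∧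
      ∃ w0 : ℂ, w0 ≠ 0 ∧ ∀ φ : ℝ, edgePoly P r d (Complex.exp (φ * Complex.I)) ≠ 0 ∧
        (edgePoly P r d (Complex.exp (φ * Complex.I))).eval
          (Complex.exp (r * φ * Complex.I) * w0) = 0 := by
  classical
  obtain ⟨t, ht, htm⟩ := exists_top P hP
  have ht1 := top_one_zero_ne P h0 ht htm
  obtain ⟨s0, hs0, hs0d⟩ := hd2
  have hs01 := hd3 s0 hs0 hs0d
  have hdm : d < P.totalDegree := by
    have h1 := le_totalDegree P hs0
    rcases lt_or_eq_of_le h1 with h | h
    · omega
    · exact absurd hs01 (top_one_zero_ne P h0 hs0 h)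
  obtain ⟨e, he, hemin⟩ := Finset.exists_min_image (P.support.filter (fun s => s 1 ≠ 0))
    (fun s => ((d : ℝ) - s 0) / s 1) ⟨t, by simp [ht, ht1]⟩
  simp only [Finset.mem_filter] at he hemin
  set r : ℝ := ((d : ℝ) - e 0) / e 1 with hr
  have he1 : (0:ℝ) < e 1 := by
    have := Nat.pos_of_ne_zero he.2
    exact_mod_cast this
  have hlt : ∀ s ∈ P.support, s 1 ≠ 0 → s 0 < d := fun s hs h1 =>
    lt_of_le_of_ne (hd1 s hs) (fun h => h1 (hd3 s hs h))
  have hr0 : 0 < r := by
    have : (e 0 : ℝ) < d := by exact_mod_cast hlt e he.1 he.2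
    exact div_pos (by linarith) he1
  have hr1 : r < 1 := by
    have h1 := hemin t ⟨ht, ht1⟩
    have h2 : ((d : ℝ) - t 0) / t 1 < 1 := by
      have ht1' : (0:ℝ) < t 1 := by
        have := Nat.pos_of_ne_zero ht1
        exact_mod_cast this
      rw [div_lt_one ht1']
      have h3 : d < t 0 + t 1 := by omega
      have h4 : (d : ℝ) < t 0 + t 1 := by exact_mod_cast h3
      linarith
    exact h1.trans_lt h2
  have hD : ∀ s ∈ P.support, (s 0 : ℝ) + r * s 1 ≤ d := by
    intro s hs
    by_cases h1 : s 1 = 0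
    · have h2 : (s 0 : ℝ) ≤ d := by exact_mod_cast hd1 s hs
      simpa [h1] using h2
    · have h2 := hemin s ⟨hs, h1⟩
      have hs1' : (0:ℝ) < s 1 := by
        have := Nat.pos_of_ne_zero h1
        exact_mod_cast this
      rw [le_div_iff₀ hs1'] at h2
      linarith
  have hre : r * e 1 = d - e 0 := by
    rw [hr]
    field_simp
  -- value at zero
  have hz : ∀ u : ℂ, (edgePoly P r d u).eval 0 = MvPolynomial.coeff s0 P * u ^ d := by
    intro u
    rw [edgePoly_eval, Finset.sum_eq_single s0]
    · simp [hs01, hs0d]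
    · intro s hs hne
      simp only [Finset.mem_filter] at hs
      have : s 1 ≠ 0 := by
        intro h
        refine hne (ext2 ?_ (by omega))
        have h2 := hs.2
        rw [h] at h2
        simp only [Nat.cast_zero, mul_zero, add_zero] at h2
        have : s 0 = d := by exact_mod_cast h2
        omega
      simp [this]
    · intro h
      exfalso
      apply h
      simp [hs0, hs01, hs0d]
  have hc0 : MvPolynomial.coeff s0 P ≠ 0 := MvPolynomial.mem_support_iff.1 hs0
  have hne : ∀ u : ℂ, u ≠ 0 → edgePoly P r d u ≠ 0 := by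
    intro u hu h
    have := hz u
    rw [h] at this
    simp only [Polynomial.eval_zero] at this
    exact (mul_ne_zero hc0 (pow_ne_zero _ hu)) this.symm
  -- nonconstant
  have hco : (edgePoly P r d 1).coeff (e 1) ≠ 0 := by
    rw [edgePoly, Polynomial.finsetSum_coeff, Finset.sum_eq_single e]
    · rw [Polynomial.coeff_C_mul_X_pow, if_pos rfl]
      simpa using MvPolynomial.mem_support_iff.1 he.1
    · intro s hs hne
      simp only [Finset.mem_filter] at hs
      have : e 1 ≠ s 1 := by
        intro h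
        refine hne (ext2 ?_ h.symm)
        have h2 := hs.2
        rw [← h, hre] at h2
        have : (s 0 : ℝ) = e 0 := by linarith
        exact_mod_cast this
      rw [Polynomial.coeff_C_mul_X_pow, if_neg this]
    · intro h
      exfalso
      apply h
      simp only [Finset.mem_filter]
      exact ⟨he.1, by rw [hre]; ring⟩
  obtain ⟨w0, hw0⟩ := IsAlgClosed.exists_root (edgePoly P r d 1) (by
    intro h
    have h1 : (edgePoly P r d 1).natDegree = 0 :=
      Polynomial.natDegree_eq_zero_iff_degree_le_zero.2 h.le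
    exact hco (Polynomial.coeff_eq_zero_of_natDegree_lt (by omega)))
  have hw0' : (edgePoly P r d 1).eval w0 = 0 := hw0
  have hw0ne : w0 ≠ 0 := by
    rintro rfl
    rw [hz] at hw0'
    simp at hw0'
    exact hc0 hw0'
  refine ⟨r, hr0, hr1, hD, ⟨2 * e 1, by omega, ?_⟩, w0, hw0ne, fun φ => ⟨?_, ?_⟩⟩
  · rw [← Complex.exp_nat_mul]
    have h1 : ((2 * e 1 : ℕ) : ℂ) * (Real.pi * r * Complex.I) =
        ((((d : ℤ) - e 0 : ℤ)) : ℂ) * (2 * Real.pi * Complex.I) := by
      have h2 : (r : ℂ) * e 1 = d - e 0 := by exact_mod_cast hre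
      push_cast
      linear_combination (2 * Real.pi * Complex.I) * h2
    rw [h1, Complex.exp_int_mul_two_pi_mul_I]
  · exact hne _ (Complex.exp_ne_zero _)
  · rw [edgePoly_eval] at hw0' ⊢
    have : ∀ s ∈ P.support.filter (fun s => (s 0 : ℝ) + r * s 1 = d),
        MvPolynomial.coeff s P * (Complex.exp (φ * Complex.I) ^ (s 0) *
          (Complex.exp (r * φ * Complex.I) * w0) ^ (s 1)) =
        Complex.exp (d * φ * Complex.I) *
          (MvPolynomial.coeff s P * ((1:ℂ) ^ (s 0) * w0 ^ (s 1))) := by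
      intro s hs
      simp only [Finset.mem_filter] at hs
      have h2 : (s 0 : ℂ) + (r : ℂ) * s 1 = d := by exact_mod_cast hs.2
      rw [mul_pow, ← Complex.exp_nat_mul, ← Complex.exp_nat_mul]
      have h3 : Complex.exp (d * φ * Complex.I) =
          Complex.exp ((s 0 : ℕ) * (φ * Complex.I)) *
            Complex.exp ((s 1 : ℕ) * (r * φ * Complex.I)) := by
        rw [← Complex.exp_add, ← h2]
        congr 1
        ring
      rw [h3]
      ring
    rw [Finset.sum_congr rfl this, ← Finset.mul_sum, hw0', mul_zero]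

/-- a root of unity orbit of a nonzero number contains a number with imaginary part of
prescribed sign -/
lemma exists_im_pos {ξ w : ℂ} (hξ : ξ.im ≠ 0) (hw : w ≠ 0) {M : ℕ} (hM : 0 < M) (h1 : ξ ^ M = 1)
    {σ : ℝ} (hσ : σ ≠ 0) : ∃ n : ℕ, 0 < σ * (ξ ^ n * w).im := by
  by_contra hcon
  push Not at hcon
  have hξ1 : ξ ≠ 1 := by
    rintro rfl
    simp at hξ
  have hsum : ∑ n ∈ Finset.range M, ξ ^ n * w = 0 := by
    rw [← Finset.sum_mul]
    have := geom_sum_mul ξ M
    rw [h1, sub_self] at this
    rcases mul_eq_zero.1 this with h | h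
    · rw [h, zero_mul]
    · exact absurd (sub_eq_zero.1 h) hξ1
  have hsum2 : ∑ n ∈ Finset.range M, σ * (ξ ^ n * w).im = 0 := by
    rw [← Finset.mul_sum, ← Complex.im_sum, hsum]
    simp
  have hall := (Finset.sum_eq_zero_iff_of_nonpos (fun n _ => hcon n)).1 hsum2
  have hM2 : 1 < M := by
    rcases Nat.lt_or_ge 1 M with h | h
    · exact h
    · have : M = 1 := by omega
      rw [this, pow_one] at h1
      exact absurd h1 hξ1
  have e0 := hall 0 (by simpa using hM)
  have e1 := hall 1 (by simpa using hM2)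
  simp only [pow_zero, one_mul, mul_eq_zero, hσ, false_or] at e0
  simp only [pow_one, mul_eq_zero, hσ, false_or, Complex.mul_im, e0, mul_zero, zero_add] at e1
  rcases e1 with h | h
  · exact hξ h
  · exact hw (Complex.ext h e0)

end

end Helper12.Fac
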