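import Mathlib
import Pool.Agent.Helper12.FacPar
import Pool.Agent.Helper12.FacP1
import Pool.Agent.Helper12.FacP2
import Pool.Agent.Helper12.FacEll

/-!
# The three cases at a corner (helper12)
-/

open Filter Topology Set MeasureTheory

namespace Helper12.Fac

noncomputable section

variable {α β : ℝ → ℝ} {H : ℝ}

/-- non-real characteristic direction -/
theorem ell_case (S : SliceData α β H) (hA : ∀ h ∈ Icc 0 H, |α h| ≤ h)
    (hB : ∀ h ∈ Icc 0 H, |β h| ≤ h) {P : MvPolynomial (Fin 2) ℂ} (hP : P ≠ 0)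
    (hvan : ∀ z q, ev P z q = 0 → Phi α β H z q = 0) {z' q' : ℂ} (hz : z'.im = 1)
    (hq : q'.im = 0) (hq0 : q' ≠ 0) (h0 : top P z' q' = 0) : False := by
  have hz0 : z' ≠ 0 := by
    rintro rfl
    simp at hz
  have hτ : Tendsto (fun n : ℕ => (n : ℝ)) atTop atTop := tendsto_natCast_atTop_atTop
  obtain ⟨w, hw, hr⟩ := char_roots P hP hz0 h0 hτ
  obtain ⟨n, h1, h2⟩ := (hr.and (elliptic S hA hB hz hq hq0 hτ hw)).exists
  exact h2 (hvan _ _ h1)

/-- choice of a root in the right half plane -/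
lemma choose_root {r : ℝ} (hr0 : 0 < r) (hr1 : r < 1) {w0 : ℂ} (hw0 : w0 ≠ 0) {M : ℕ}
    (hM : 0 < M) (hξ : (Complex.exp (Real.pi * r * Complex.I)) ^ M = 1) :
    ∃ (ε c : ℝ) (l : ℕ), 0 ≤ ε ∧ ε ≤ 1e-10 ∧ 0 < c ∧ ε / 4 ≤ c ∧ c ≤ 1 ∧
      c * ‖Complex.exp (r * (Real.pi / 2 + ε + 2 * Real.pi * l : ℝ) * Complex.I) * w0‖ <
        (Complex.exp (r * (Real.pi / 2 + ε + 2 * Real.pi * l : ℝ) * Complex.I) * w0).im := by
  set ω : ℝ → ℕ → ℂ := fun ε l =>
    Complex.exp (r * (Real.pi / 2 + ε + 2 * Real.pi * l : ℝ) * Complex.I) * w0 with hω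
  have hnorm : ∀ ε l, ‖ω ε l‖ = ‖w0‖ := by
    intro ε l
    rw [hω]
    simp only
    rw [norm_mul, ← Complex.ofReal_mul, Complex.norm_exp_ofReal_mul_I, one_mul]
  have hw0n : 0 < ‖w0‖ := norm_pos_iff.2 hw0
  have hpi := Real.pi_pos
  by_cases hex : ∃ l, 0 < (ω 0 l).im
  · obtain ⟨l, hl⟩ := hex
    refine ⟨0, min 1 ((ω 0 l).im / (2 * ‖w0‖)), l, le_rfl, by norm_num, by positivity, ?_,
      min_le_left _ _, ?_⟩
    · rw [zero_div]
      positivity
    · change _ * ‖ω 0 l‖ < (ω 0 l).im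
      rw [hnorm]
      calc min 1 ((ω 0 l).im / (2 * ‖w0‖)) * ‖w0‖ ≤ (ω 0 l).im / (2 * ‖w0‖) * ‖w0‖ := by
            gcongr
            exact min_le_right _ _
        _ = (ω 0 l).im / 2 := by field_simp
        _ < (ω 0 l).im := by linarith
  · push Not at hex
    set ξ2 : ℂ := Complex.exp (2 * Real.pi * r * Complex.I) with hξ2
    have hξ2' : ξ2 = Complex.exp (Real.pi * r * Complex.I) ^ 2 := by
      rw [hξ2, ← Complex.exp_nat_mul]
      congr 1
      push_cast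
      ring
    have hξM : ξ2 ^ M = 1 := by
      rw [hξ2', ← pow_mul, mul_comm 2 M, pow_mul, hξ, one_pow]
    have hωl : ∀ l, ω 0 l = ξ2 ^ l * ω 0 0 := by
      intro l
      rw [hω]
      simp only
      rw [hξ2, ← Complex.exp_nat_mul, ← mul_assoc, ← Complex.exp_add]
      congr 2
      push_cast
      ring
    have hω0 : ω 0 0 ≠ 0 := by
      rw [← norm_pos_iff, hnorm]
      exact hw0n
    have him : ξ2.im = 0 := by
      by_contra hne
      obtain ⟨n, hn⟩ := exists_im_pos hne hω0 hM hξM (one_ne_zero)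
      rw [one_mul, ← hωl] at hn
      exact absurd (hex n) (not_le.2 hn)
    have him' : Real.sin (2 * Real.pi * r) = 0 := by
      rw [hξ2] at him
      have e : (2 * Real.pi * r * Complex.I : ℂ) = ((2 * Real.pi * r : ℝ) : ℂ) * Complex.I := by
        push_cast
        ring
      rwa [e, Complex.exp_ofReal_mul_I_im] at him
    have hr2 : r = 1/2 := by
      rw [Real.sin_eq_zero_iff] at him'
      obtain ⟨n, hn⟩ := him'
      have h1 : (n:ℝ) = 2 * r := by
        have : Real.pi * ((n:ℝ) - 2 * r) = 0 := by linarith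
        rcases mul_eq_zero.1 this with h | h
        · linarith
        · linarith
      have h2 : (0:ℝ) < n := by linarith
      have h3 : (n:ℝ) < 2 := by linarith
      have h4 : 0 < n := by exact_mod_cast h2
      have h5 : n < 2 := by exact_mod_cast h3
      have h6 : n = 1 := by omega
      rw [h6] at h1
      push_cast at h1
      linarith
    have hξm : ξ2 = -1 := by
      rw [hξ2, hr2]
      have e : (2 * Real.pi * ((1/2 : ℝ) : ℂ) * Complex.I : ℂ) = Real.pi * Complex.I := by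
        push_cast
        ring
      rw [e, Complex.exp_pi_mul_I]
    have h0 := hex 0
    have h1 := hex 1
    rw [hωl 1, hξm, pow_one, neg_one_mul, Complex.neg_im] at h1
    have hre : (ω 0 0).im = 0 := by linarith
    -- choose the sign
    obtain ⟨l, hl⟩ : ∃ l, ω 0 l = (‖w0‖ : ℂ) := by
      have h2 : ω 0 0 = ((ω 0 0).re : ℂ) := by
        apply Complex.ext
        · simp
        · simpa using hre
      have h3 : |(ω 0 0).re| = ‖w0‖ := by
        rw [← hnorm 0 0]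
        conv_rhs => rw [h2]
        rw [Complex.norm_real, Real.norm_eq_abs]
      rcases abs_choice (ω 0 0).re with h | h
      · refine ⟨0, ?_⟩
        rw [h2, ← h3, h]
      · refine ⟨1, ?_⟩
        rw [hωl 1, hξm, pow_one, h2, ← h3, h]
        push_cast
        ring
    refine ⟨1e-10, 1e-10/4, l, by norm_num, le_rfl, by norm_num, le_rfl, by norm_num, ?_⟩
    change _ * ‖ω 1e-10 l‖ < (ω 1e-10 l).im
    rw [hnorm]
    have e1 : ω 1e-10 l = Complex.exp ((1e-10 / 2 : ℝ) * Complex.I) * ω 0 l := by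
      rw [hω]
      simp only
      rw [← mul_assoc, ← Complex.exp_add, hr2]
      congr 2
      push_cast
      ring
    rw [e1, hl, Complex.im_mul_ofReal, Complex.exp_ofReal_mul_I_im]
    have h4 := Real.sin_gt_sub_cube (x := 1e-10 / 2) (by norm_num)
    have h5 : (1e-10/4 : ℝ) < Real.sin (1e-10/2) := by
      norm_num at h4 ⊢
      linarith
    exact mul_lt_mul_of_pos_right h5 hw0n

/-- parabolic direction, corner at an end of the projection -/
theorem P1_case (S : SliceData α β H) {A : ℝ} (hA1 : 1 ≤ A) (hA : ∀ h ∈ Icc 0 H, |α h| ≤ A * h)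
    {P : MvPolynomial (Fin 2) ℂ} (hP : P ≠ 0)
    (hvan : ∀ z q, ev P z q = 0 → Phi α β H z q = 0) (h0 : top P 1 0 = 0) {d : ℕ}
    (hd1 : ∀ s ∈ P.support, s 0 ≤ d) (hd2 : ∃ s ∈ P.support, s 0 = d)
    (hd3 : ∀ s ∈ P.support, s 0 = d → s 1 = 0) : False := by
  obtain ⟨r, hr0, hr1, hD, ⟨M, hM, hξ⟩, w0, hw0, hroot⟩ := parabolic_data P hP h0 d hd1 hd2 hd3
  obtain ⟨ε, c, l, hε0, hε, hc, hcε, hc1, hcω⟩ := choose_root hr0 hr1 hw0 hM hξ
  set φ : ℝ := Real.pi / 2 + ε + 2 * Real.pi * l with hφ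
  set ω : ℂ := Complex.exp (r * (φ : ℝ) * Complex.I) * w0 with hω
  obtain ⟨hne, hev⟩ := hroot φ
  have hτ : Tendsto (fun n : ℕ => (n : ℝ)) atTop atTop := tendsto_natCast_atTop_atTop
  obtain ⟨w, hw, hr⟩ := weighted_roots P r d hD hτ (tendsto_const_nhds (x :=
    Complex.exp (φ * Complex.I))) hne hev
  have hωpos : 0 < ω.im := lt_of_le_of_lt (by positivity) hcω
  have hω0 : ω ≠ 0 := by
    intro h
    rw [h] at hωpos
    simp at hωpos
  have e1 : ∀ᶠ n in atTop, c * ‖w n‖ < (w n).im := by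
    have h1 : Tendsto (fun n => c * ‖w n‖) atTop (𝓝 (c * ‖ω‖)) := hw.norm.const_mul c
    have h2 : Tendsto (fun n => (w n).im) atTop (𝓝 ω.im) :=
      (Complex.continuous_im.tendsto _).comp hw
    exact h1.eventually_lt h2 hcω
  have e2 : ∀ᶠ n : ℕ in atTop, ((n : ℝ) ^ r) * ‖w n‖ ≤ c / (50000 * A) * n := by
    have h1 : Tendsto (fun n : ℕ => ((n : ℝ) ^ (-(1 - r))) * ‖w n‖) atTop (𝓝 (0 * ‖ω‖)) :=
      ((tendsto_rpow_neg_atTop (y := 1 - r) (by linarith)).comp hτ).mul hw.norm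
    rw [zero_mul] at h1
    have h2 : 0 < c / (50000 * A) := by positivity
    filter_upwards [h1.eventually (gt_mem_nhds h2), hτ.eventually_gt_atTop 0] with n hn hn0
    have h3 : ((n : ℝ) ^ r) * ‖w n‖ = ((n : ℝ) ^ (-(1 - r))) * ‖w n‖ * n := by
      have : (n : ℝ) ^ r = (n : ℝ) ^ (-(1 - r)) * n := by
        conv_rhs => rw [← Real.rpow_one (n : ℝ), Real.rpow_one, ← Real.rpow_add_one hn0.ne']
        congr 1
        ring
      rw [this]
      ring
    rw [h3]
    exact mul_le_mul_of_nonneg_right hn.le hn0.le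
  have e3 : ∀ᶠ n : ℕ in atTop, 4 ≤ (n : ℝ) * H :=
    (hτ.atTop_mul_const S.hH).eventually_ge_atTop 4
  have e4 : ∀ᶠ n in atTop, w n ≠ 0 := hw.eventually_ne hω0
  obtain ⟨n, h1, h2, h3, h4, h5, h6⟩ := (hr.and (e1.and (e2.and (e3.and (e4.and
    (hτ.eventually_gt_atTop 0)))))).exists
  have hrp : 0 < (n : ℝ) ^ r := Real.rpow_pos_of_pos h6 r
  have hnq : ‖(((n : ℝ) ^ r : ℝ) : ℂ) * w n‖ = ((n : ℝ) ^ r) * ‖w n‖ := by
    rw [norm_mul, Complex.norm_real, Real.norm_eq_abs, abs_of_pos hrp]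
  have hP1 := P1 S hA1 hA hε0 hε hc hcε hc1 h6 h4 (q := (((n : ℝ) ^ r : ℝ) : ℂ) * w n)
    (mul_ne_zero (by exact_mod_cast hrp.ne') h5) (by rw [hnq]; exact h3) (by
      rw [hnq, Complex.im_ofReal_mul]
      have := mul_le_mul_of_nonneg_left h2.le hrp.le
      linarith)
  apply hP1
  apply hvan
  have e5 : Complex.exp (φ * Complex.I) = Complex.I * Complex.exp (ε * Complex.I) := by
    have e6 : (φ : ℂ) * Complex.I = (Real.pi / 2 : ℂ) * Complex.I + ε * Complex.I +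
        l * (2 * Real.pi * Complex.I) := by
      rw [hφ]
      push_cast
      ring
    rw [e6, Complex.exp_add, Complex.exp_nat_mul_two_pi_mul_I, mul_one, Complex.exp_add,
      Complex.exp_pi_div_two_mul_I]
  rw [← e5]
  exact h1

/-- parabolic direction, corner over an interior point of the projection -/
theorem P2_case (S : SliceData α β H) {hv : ℝ} (hhv : hv ∈ Ioo 0 H) (hβv : β hv = 0)
    {μ1 μ2 : ℝ} (hμ : μ1 < μ2)
    (h1 : ∀ h ∈ Icc 0 H, β h ≤ μ1 * (h - hv)) (h2 : ∀ h ∈ Icc 0 H, β h ≤ μ2 * (h - hv))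
    {P : MvPolynomial (Fin 2) ℂ} (hP : P ≠ 0)
    (hvan : ∀ z q, ev P z q = 0 → Phi α β H z q = 0) (h0 : top P 1 0 = 0) {d : ℕ}
    (hd1 : ∀ s ∈ P.support, s 0 ≤ d) (hd2 : ∃ s ∈ P.support, s 0 = d)
    (hd3 : ∀ s ∈ P.support, s 0 = d → s 1 = 0) : False := by
  obtain ⟨r, hr0, hr1, hD, ⟨M, hM, hξ⟩, w0, hw0, hroot⟩ := parabolic_data P hP h0 d hd1 hd2 hd3
  set ξ : ℂ := Complex.exp (Real.pi * r * Complex.I) with hξdef
  have hξim : ξ.im ≠ 0 := by
    have e : (Real.pi * r * Complex.I : ℂ) = ((Real.pi * r : ℝ) : ℂ) * Complex.I := by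
      push_cast
      ring
    rw [hξdef, e, Complex.exp_ofReal_mul_I_im]
    refine (Real.sin_pos_of_pos_of_lt_pi (by positivity) ?_).ne'
    have := Real.pi_pos
    nlinarith
  obtain ⟨k, hk⟩ := exists_im_pos hξim hw0 hM hξ (σ := -1) (by norm_num)
  set φ : ℝ := Real.pi * k with hφ
  set ω : ℂ := Complex.exp (r * (φ : ℝ) * Complex.I) * w0 with hω
  have hωk : ω = ξ ^ k * w0 := by
    rw [hω, hξdef, ← Complex.exp_nat_mul]
    congr 2
    rw [hφ]
    push_cast
    ring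
  have hωim : 0 < -ω.im := by
    rw [hωk]
    linarith
  have hω0 : ω ≠ 0 := by
    intro h
    rw [h] at hωim
    simp at hωim
  have hωn : 0 < ‖ω‖ := norm_pos_iff.2 hω0
  set u0 : ℂ := Complex.exp (φ * Complex.I) with hu0
  have hu0n : ‖u0‖ = 1 := Complex.norm_exp_ofReal_mul_I φ
  have hu0i : u0.im = 0 := by
    rw [hu0, Complex.exp_ofReal_mul_I_im, hφ, mul_comm]
    exact Real.sin_nat_mul_pi k
  obtain ⟨hne, hev⟩ := hroot φ
  set μ : ℝ := (μ1 + μ2) / 2 with hμdef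
  set κ : ℝ := μ * (-ω.im) with hκ
  have hτ : Tendsto (fun n : ℕ => (n : ℝ)) atTop atTop := tendsto_natCast_atTop_atTop
  set u : ℕ → ℂ := fun n => u0 + Complex.I * ((κ * (n : ℝ) ^ (-(1 - r)) : ℝ) : ℂ) with hu
  have ht : Tendsto (fun n : ℕ => (n : ℝ) ^ (-(1 - r))) atTop (𝓝 0) :=
    (tendsto_rpow_neg_atTop (y := 1 - r) (by linarith)).comp hτ
  have hulim : Tendsto u atTop (𝓝 u0) := by
    have e1 := (Complex.continuous_ofReal.tendsto _).comp (ht.const_mul κ)
    have e2 := (e1.const_mul Complex.I).const_add u0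
    rw [mul_zero, Complex.ofReal_zero, mul_zero, add_zero] at e2
    exact e2
  obtain ⟨w, hw, hr⟩ := weighted_roots P r d hD hτ hulim hne hev
  have hrp : ∀ n : ℕ, 0 < (n : ℝ) → 0 < (n : ℝ) ^ r := fun n hn => Real.rpow_pos_of_pos hn r
  have hnq : ∀ n : ℕ, 0 < (n : ℝ) → ‖(((n : ℝ) ^ r : ℝ) : ℂ) * w n‖ = ((n : ℝ) ^ r) * ‖w n‖ := by
    intro n hn
    rw [norm_mul, Complex.norm_real, Real.norm_eq_abs, abs_of_pos (hrp n hn)]
  have hnz : ∀ n : ℕ, 0 < (n : ℝ) → ‖((n : ℝ) : ℂ) * u n‖ = n * ‖u n‖ := by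
    intro n hn
    rw [norm_mul, Complex.norm_real, Real.norm_eq_abs, abs_of_pos hn]
  have hunorm : Tendsto (fun n => ‖u n‖) atTop (𝓝 1) := by
    rw [← hu0n]
    exact hulim.norm
  have hrpow : Tendsto (fun n : ℕ => (n : ℝ) ^ r) atTop atTop :=
    (tendsto_rpow_atTop hr0).comp hτ
  have hshift : ∀ n : ℕ, 0 < (n : ℝ) → (n : ℝ) ^ (-(1 - r)) * n = (n : ℝ) ^ r := by
    intro n hn
    rw [← Real.rpow_add_one hn.ne']
    congr 1
    ring
  have hpos := hτ.eventually_gt_atTop 0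
  obtain ⟨N, hN⟩ : ∃ N : ℕ, 2 ≤ r * N := by
    obtain ⟨N, hN⟩ := exists_nat_ge (2 / r)
    refine ⟨N, ?_⟩
    rw [div_le_iff₀ hr0] at hN
    linarith
  have hP2 := P2 S hhv hβv (μ := μ) (by rw [hμdef]; linarith) (by rw [hμdef]; linarith) h1 h2
    (z := fun n => ((n : ℝ) : ℂ) * u n) (q := fun n => (((n : ℝ) ^ r : ℝ) : ℂ) * w n)
    (c := -ω.im / (2 * ‖ω‖)) (by positivity)
    (by
      refine (hrpow.atTop_mul_pos hωn hw.norm).congr' ?_
      filter_upwards [hpos] with n hn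
      rw [hnq n hn])
    (by
      refine (hτ.atTop_mul_pos one_pos hunorm).congr' ?_
      filter_upwards [hpos] with n hn
      rw [hnz n hn])
    (by
      have e1 : Tendsto (fun n : ℕ => (n : ℝ) ^ (-(1 - r)) * (‖w n‖ / ‖u n‖)) atTop
          (𝓝 (0 * (‖ω‖ / 1))) := ht.mul (hw.norm.div hunorm one_ne_zero)
      rw [zero_mul] at e1
      refine e1.congr' ?_
      filter_upwards [hpos, hunorm.eventually_ne one_ne_zero] with n hn hn2
      rw [hnq n hn, hnz n hn, ← hshift n hn]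
      field_simp)
    (by
      have e1 : Tendsto (fun n => -ω.im / (2 * ‖ω‖) * ‖w n‖) atTop
          (𝓝 (-ω.im / (2 * ‖ω‖) * ‖ω‖)) := hw.norm.const_mul _
      have e2 : Tendsto (fun n => -(w n).im) atTop (𝓝 (-ω.im)) :=
        ((Complex.continuous_im.tendsto _).comp hw).neg
      have e3 : -ω.im / (2 * ‖ω‖) * ‖ω‖ < -ω.im := by
        have : -ω.im / (2 * ‖ω‖) * ‖ω‖ = -ω.im / 2 := by field_simp
        rw [this]
        linarith
      filter_upwards [e1.eventually_lt e2 e3, hpos] with n hn hn2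
      rw [hnq n hn2, Complex.im_ofReal_mul]
      have := mul_le_mul_of_nonneg_left hn.le (hrp n hn2).le
      linarith)
    (by
      have e2 : Tendsto (fun n => κ / -(w n).im) atTop (𝓝 (κ / -ω.im)) :=
        tendsto_const_nhds.div (((Complex.continuous_im.tendsto _).comp hw).neg) hωim.ne'
      have e3 : κ / -ω.im = μ := by
        rw [hκ]
        exact mul_div_cancel_right₀ _ hωim.ne'
      rw [e3] at e2
      refine e2.congr' ?_
      filter_upwards [hpos] with n hn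
      rw [Complex.im_ofReal_mul, Complex.im_ofReal_mul, hu]
      simp only [Complex.add_im, hu0i, Complex.mul_im, Complex.I_re, Complex.I_im,
        Complex.ofReal_im, Complex.ofReal_re, zero_mul, one_mul, zero_add]
      have e4 : (n : ℝ) * (κ * (n : ℝ) ^ (-(1 - r))) = (n : ℝ) ^ r * κ := by
        rw [← hshift n hn]
        ring
      rw [e4]
      have := (hrp n hn).ne'
      rw [← mul_neg, mul_div_mul_left _ _ this])
    (N := N) (by
      have e1 : ∀ᶠ n in atTop, ‖u n‖ ≤ 2 := hunorm.eventually_le_const (by norm_num)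
      have e2 : ∀ᶠ n in atTop, ‖ω‖ / 2 ≤ ‖w n‖ := hw.norm.eventually_const_le (by linarith)
      have e3 : ∀ᶠ n : ℕ in atTop, 2 / (‖ω‖ / 2) ^ N ≤ (n : ℝ) := hτ.eventually_ge_atTop _
      filter_upwards [e1, e2, e3, hτ.eventually_ge_atTop 1] with n h1 h2 h3 h4
      have hn : 0 < (n : ℝ) := by linarith
      rw [hnq n hn, hnz n hn, mul_pow, ← Real.rpow_mul_natCast hn.le]
      have h5 : (n : ℝ) ^ (2:ℝ) ≤ (n : ℝ) ^ (r * N) := Real.rpow_le_rpow_of_exponent_le h4 hN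
      have h6 : (n : ℝ) ^ (2:ℝ) = n * n := by
        rw [show (2:ℝ) = ((2:ℕ) : ℝ) by norm_num, Real.rpow_natCast]
        ring
      rw [div_le_iff₀ (by positivity)] at h3
      calc (n : ℝ) * ‖u n‖ ≤ n * 2 := by gcongr
        _ ≤ n * (n * (‖ω‖ / 2) ^ N) := by gcongr
        _ = (n : ℝ) ^ (2:ℝ) * (‖ω‖ / 2) ^ N := by rw [h6]; ring
        _ ≤ (n : ℝ) ^ (r * N) * ‖w n‖ ^ N := by gcongr)
  obtain ⟨n, hn1, hn2⟩ := (hr.and hP2).exists
  exact hn2 (hvan _ _ hn1)

end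

end Helper12.Fac
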