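import Mathlib
import Pool.Agent.Helper12.FacTopC
import Pool.Agent.Helper12.FacBB
import Pool.Agent.Helper12.FacCase

/-!
# Planar convex bodies with a corner (helper12)
-/

open Filter Topology Set MeasureTheory

namespace Helper12.Fac

noncomputable section

variable {K : Set (ℝ × ℝ)} {P : MvPolynomial (Fin 2) ℂ} {α β : ℝ → ℝ} {H a : ℝ}

lemma HasFac.phi (hK : IsCompact K) (S : SliceData α β H)
    (hKs : ∀ h y, (a + h, y) ∈ K ↔ h ∈ Icc 0 H ∧ α h ≤ y ∧ y ≤ β h) (hF : HasFac K P) :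
    ∃ f : ℂ → ℂ → ℂ, (∀ z, Continuous (f z)) ∧ ∀ z q, Phi α β H z q = ev P z q * f z q := by
  obtain ⟨f, hf, hfac⟩ := hF
  refine ⟨fun z q => Complex.exp (-(Complex.I * a * z)) * f (z, q), fun z => by fun_prop,
    fun z q => ?_⟩
  have h1 := T_eq hK S hKs z q
  rw [hfac] at h1
  have h2 : Complex.exp (-(Complex.I * a * z)) * Complex.exp (Complex.I * a * z) = 1 := by
    rw [← Complex.exp_add]
    simp
  linear_combination (-Complex.exp (-(Complex.I * a * z))) * h1 - Phi α β H z q * h2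

/-- nonconstant leading coefficient forces a parallelogram -/
theorem bb_body (B : Body K) (hF : HasFac K P) {d : ℕ} (hd : ∀ s ∈ P.support, s 0 ≤ d)
    (hdeg : 0 < (leadP P d).degree) : Para K := by
  obtain ⟨a, H, α, β, S, hKs⟩ := slices B.cpt B.cvx B.int
  obtain ⟨f, hf, hfac⟩ := hF.phi B.cpt S hKs
  have hconst := bb S P hd hf hfac hdeg
  have hH := S.hH
  have hc0 : 0 < β 0 - α 0 := by
    have h1 : H / 2 ∈ Ioo 0 H := ⟨by linarith, by linarith⟩
    have h2 := S.hlt _ h1
    have h3 := hconst (H/2) (Ioo_subset_Icc_self h1)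
    linarith
  have haff : ∀ h ∈ Icc 0 H, α h = α 0 + h / H * (α H - α 0) := by
    intro h hh
    have k1 := S.ha.2 S.zero_mem S.H_mem
      (show 0 ≤ 1 - h / H by rw [sub_nonneg, div_le_one hH]; exact hh.2)
      (show 0 ≤ h / H from div_nonneg hh.1 hH.le) (by ring)
    have k2 := S.hb.2 S.zero_mem S.H_mem
      (show 0 ≤ 1 - h / H by rw [sub_nonneg, div_le_one hH]; exact hh.2)
      (show 0 ≤ h / H from div_nonneg hh.1 hH.le) (by ring)
    simp only [smul_eq_mul, mul_zero, zero_add] at k1 k2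
    rw [div_mul_cancel₀ _ hH.ne'] at k1 k2
    have k3 := hconst h hh
    have k4 := hconst H S.H_mem
    have k5 : β H = α H + (β 0 - α 0) := by linarith
    rw [k5] at k2
    apply le_antisymm
    · refine k1.trans (le_of_eq ?_)
      ring
    · have : (1 - h / H) * β 0 + h / H * (α H + (β 0 - α 0)) =
          α 0 + h / H * (α H - α 0) + (β 0 - α 0) := by ring
      linarith
  refine ⟨(a, α 0), (H, α H - α 0), (0, β 0 - α 0), ?_, ?_⟩
  · simp only [mul_zero, sub_zero]
    exact (mul_pos hH hc0).ne'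
  · ext ⟨x, y⟩
    have e : (x, y) = (a + (x - a), y) := by rw [add_sub_cancel]
    constructor
    · intro hx
      rw [e, hKs] at hx
      obtain ⟨hh, hl, hu⟩ := hx
      refine ⟨(x - a) / H, ⟨div_nonneg hh.1 hH.le, (div_le_one hH).2 hh.2⟩,
        (y - α (x - a)) / (β 0 - α 0), ⟨div_nonneg (by linarith) hc0.le, (div_le_one hc0).2 ?_⟩, ?_⟩
      · have := hconst _ hh
        linarith
      · have h1 := haff _ hh
        ext
        · simp only [Prod.smul_mk, smul_eq_mul, Prod.mk_add_mk, mul_zero, add_zero]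
          field_simp
          ring
        · simp only [Prod.smul_mk, smul_eq_mul, Prod.mk_add_mk]
          rw [div_mul_cancel₀ _ hc0.ne', h1]
          ring
    · rintro ⟨s, hs, t, ht, he⟩
      simp only [Prod.smul_mk, smul_eq_mul, Prod.mk_add_mk, mul_zero, add_zero,
        Prod.mk.injEq] at he
      obtain ⟨hx, hy⟩ := he
      have hxa : x - a = s * H := by rw [hx]; ring
      have hh : s * H ∈ Icc 0 H := ⟨mul_nonneg hs.1 hH.le, by
        have := mul_le_mul_of_nonneg_right hs.2 hH.le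
        linarith⟩
      rw [e, hKs, hxa]
      have h1 := haff _ hh
      have h2 := hconst _ hh
      rw [mul_div_cancel_right₀ _ hH.ne'] at h1
      have h3 : 0 ≤ t * (β 0 - α 0) := mul_nonneg ht.1 hc0.le
      have h4 : t * (β 0 - α 0) ≤ 1 * (β 0 - α 0) := mul_le_mul_of_nonneg_right ht.2 hc0.le
      refine ⟨hh, ?_, ?_⟩
      · rw [h1, hy]
        linarith
      · have : β (s * H) = α (s * H) + (β 0 - α 0) := by linarith
        rw [this, h1, hy]
        linarith

/-- either the leading coefficient is nonconstant, or we are in the parabolic situation -/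
lemma dich (B : Body K) (hF : HasFac K P) (hP : P ≠ 0) : Para K ∨ ∃ d : ℕ,
    (∀ s ∈ P.support, s 0 ≤ d) ∧ (∃ s ∈ P.support, s 0 = d) ∧
    (∀ s ∈ P.support, s 0 = d → s 1 = 0) := by
  have hne : P.support.Nonempty := by simpa using hP
  obtain ⟨s0, hs0, hsup⟩ := Finset.exists_mem_eq_sup P.support hne (fun s : Fin 2 →₀ ℕ => s 0)
  set d : ℕ := P.support.sup (fun s : Fin 2 →₀ ℕ => s 0) with hd
  have hd1 : ∀ s ∈ P.support, s 0 ≤ d := fun s hs =>
    Finset.le_sup (f := fun s : Fin 2 →₀ ℕ => s 0) hs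
  by_cases hdeg : 0 < (leadP P d).degree
  · exact Or.inl (bb_body B hF hd1 hdeg)
  · right
    refine ⟨d, hd1, ⟨s0, hs0, hsup.symm⟩, ?_⟩
    intro s hs hsd
    by_contra hne1
    apply hdeg
    have hc : (leadP P d).coeff (s 1) = MvPolynomial.coeff s P := by
      rw [leadP, Polynomial.finsetSum_coeff, Finset.sum_eq_single s]
      · rw [Polynomial.coeff_C_mul_X_pow, if_pos rfl]
      · intro t ht hne
        simp only [Finset.mem_filter] at ht
        have : s 1 ≠ t 1 := by
          intro h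
          exact hne (ext2 (by omega) h.symm)
        rw [Polynomial.coeff_C_mul_X_pow, if_neg this]
      · intro h
        simp [hs, hsd] at h
    have hc2 : (leadP P d).coeff (s 1) ≠ 0 := by
      rw [hc]
      exact MvPolynomial.mem_support_iff.1 hs
    have h1 := Polynomial.le_natDegree_of_ne_zero hc2
    have h2 : leadP P d ≠ 0 := by
      intro h
      rw [h] at hc2
      simp at hc2
    rw [Polynomial.degree_eq_natDegree h2]
    have : 0 < (leadP P d).natDegree := by omega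
    exact_mod_cast this

/-- vertical shift of slice data -/
lemma SliceData.shift (S : SliceData α β H) (c : ℝ) :
    SliceData (fun h => α h - c) (fun h => β h - c) H :=
  ⟨S.hH, S.ha.sub (concaveOn_const c (convex_Icc _ _)),
    S.hb.sub (convexOn_const c (convex_Icc _ _)), S.hac.sub continuousOn_const,
    S.hbc.sub continuousOn_const, fun h hh => by linarith [S.hlt h hh]⟩

lemma Phi_shift (α β : ℝ → ℝ) (H c : ℝ) (z q : ℂ) :
    Phi (fun h => α h - c) (fun h => β h - c) H z q =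
      Complex.exp (-(Complex.I * c * q)) * Phi α β H z q := by
  rw [Phi, Phi, ← intervalIntegral.integral_const_mul]
  congr 1
  ext h
  have : G (α h - c) (β h - c) q = Complex.exp (-(Complex.I * c * q)) * G (α h) (β h) q := by
    rw [G, G, ← intervalIntegral.integral_comp_sub_right
      (fun y : ℝ => Complex.exp (Complex.I * y * q)) c, ← intervalIntegral.integral_const_mul]
    congr 1
    ext y
    rw [← Complex.exp_add]
    congr 1
    push_cast
    ring
  rw [this]
  ring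

/-- corner at the left end of the projection -/
lemma caseP1 (B : Body K) (hF : HasFac K P) (hP : P ≠ 0) (h0 : top P 1 0 = 0) {v : ℝ × ℝ}
    (hv : v ∈ K) (hleft : ∀ x ∈ K, v.1 ≤ x.1) {A : ℝ}
    (hlow : ∀ x ∈ K, -(A * (x.1 - v.1)) ≤ x.2 - v.2) : Para K := by
  rcases dich B hF hP with hp | ⟨d, hd1, hd2, hd3⟩
  · exact hp
  exfalso
  obtain ⟨a, H, α, β, S, hKs⟩ := slices B.cpt B.cvx B.int
  obtain ⟨f, hf, hfac⟩ := hF.phi B.cpt S hKs
  have hH := S.hH
  have hv' : (a + (v.1 - a), v.2) ∈ K := by rwa [add_sub_cancel]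
  rw [hKs] at hv'
  have hα0 : (a + 0, α 0) ∈ K := (hKs 0 (α 0)).2 ⟨S.zero_mem, le_rfl, S.le S.zero_mem⟩
  have hva : v.1 = a := by
    have h1 := hleft _ hα0
    have h2 := hv'.1.1
    simp only at h1
    linarith
  rw [hva, sub_self] at hv'
  have hα : α 0 = v.2 := by
    have h1 := hlow _ hα0
    simp only [hva, add_zero, sub_self, mul_zero, neg_zero] at h1
    linarith [hv'.2.1]
  have S' := S.shift v.2
  have hAH : 0 ≤ |α H - v.2| / H := div_nonneg (abs_nonneg _) hH.le
  refine P1_case S' (A := 1 + |A| + |α H - v.2| / H) (by linarith [abs_nonneg A]) ?_ hP ?_ h0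
    hd1 hd2 hd3
  · intro h hh
    rw [abs_le]
    constructor
    · have h1 := hlow _ ((hKs h (α h)).2 ⟨hh, le_rfl, S.le hh⟩)
      simp only [hva] at h1
      have e : a + h - a = h := by ring
      rw [e] at h1
      have h2 : A * h ≤ |A| * h := mul_le_mul_of_nonneg_right (le_abs_self A) hh.1
      have h3 : 0 ≤ |α H - v.2| / H * h := mul_nonneg hAH hh.1
      have h4 := hh.1
      linarith
    · have k1 := S.ha.2 S.zero_mem S.H_mem
        (show 0 ≤ 1 - h / H by rw [sub_nonneg, div_le_one hH]; exact hh.2)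
        (show 0 ≤ h / H from div_nonneg hh.1 hH.le) (by ring)
      simp only [smul_eq_mul, mul_zero, zero_add] at k1
      rw [div_mul_cancel₀ _ hH.ne', hα] at k1
      have h1 : h / H * (α H - v.2) ≤ h / H * |α H - v.2| :=
        mul_le_mul_of_nonneg_left (le_abs_self _) (div_nonneg hh.1 hH.le)
      have h2 : h / H * |α H - v.2| = |α H - v.2| / H * h := by ring
      have h3 : 0 ≤ |A| * h := mul_nonneg (abs_nonneg _) hh.1
      have h4 := hh.1
      linarith
  · intro z q hz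
    rw [Phi_shift, hfac, hz, zero_mul, mul_zero]

/-- corner over an interior point of the projection, top side -/
lemma caseP2 (B : Body K) (hF : HasFac K P) (hP : P ≠ 0) (h0 : top P 1 0 = 0) {v : ℝ × ℝ}
    (hv : v ∈ K) (hleft : ∃ x ∈ K, x.1 < v.1) (hright : ∃ x ∈ K, v.1 < x.1) {μ1 μ2 : ℝ}
    (hμ : μ1 < μ2) (h1 : ∀ x ∈ K, x.2 - v.2 ≤ μ1 * (x.1 - v.1))
    (h2 : ∀ x ∈ K, x.2 - v.2 ≤ μ2 * (x.1 - v.1)) : Para K := by
  rcases dich B hF hP with hp | ⟨d, hd1, hd2, hd3⟩
  · exact hp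
  exfalso
  obtain ⟨a, H, α, β, S, hKs⟩ := slices B.cpt B.cvx B.int
  obtain ⟨f, hf, hfac⟩ := hF.phi B.cpt S hKs
  have hH := S.hH
  have hv' : (a + (v.1 - a), v.2) ∈ K := by rwa [add_sub_cancel]
  rw [hKs] at hv'
  have hproj : ∀ x ∈ K, a ≤ x.1 ∧ x.1 ≤ a + H := by
    intro x hx
    have h3 : (a + (x.1 - a), x.2) ∈ K := by rwa [add_sub_cancel]
    rw [hKs] at h3
    exact ⟨by linarith [h3.1.1], by linarith [h3.1.2]⟩
  obtain ⟨x1, hx1, hx1'⟩ := hleft
  obtain ⟨x2, hx2, hx2'⟩ := hright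
  have hhv : v.1 - a ∈ Ioo 0 H :=
    ⟨by linarith [(hproj x1 hx1).1], by linarith [(hproj x2 hx2).2]⟩
  have hpt : ∀ h ∈ Icc 0 H, (a + h, β h) ∈ K := fun h hh =>
    (hKs h (β h)).2 ⟨hh, S.le hh, le_rfl⟩
  have hβ : β (v.1 - a) = v.2 := by
    have h3 := h1 _ (hpt _ hv'.1)
    simp only [add_sub_cancel, sub_self, mul_zero] at h3
    linarith [hv'.2.2]
  have S' := S.shift v.2
  refine P2_case S' hhv (by simp only [hβ, sub_self]) hμ ?_ ?_ hP ?_ h0 hd1 hd2 hd3
  · intro h hh
    have h3 := h1 _ (hpt _ hh)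
    simp only at h3
    have e : a + h - v.1 = h - (v.1 - a) := by ring
    rwa [e] at h3
  · intro h hh
    have h3 := h2 _ (hpt _ hh)
    simp only at h3
    have e : a + h - v.1 = h - (v.1 - a) := by ring
    rwa [e] at h3
  · intro z q hz
    rw [Phi_shift, hfac, hz, zero_mul, mul_zero]

/-- a corner at the left end of the projection, general position -/
lemma caseLeft (B : Body K) (hF : HasFac K P) (hP : P ≠ 0) (h0 : top P 1 0 = 0) {v : ℝ × ℝ}
    (hv : CornerAt K v) (hleft : ∀ x ∈ K, v.1 ≤ x.1) : Para K := by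
  obtain ⟨hvK, a1, b1, a2, b2, hdet, h1, h2⟩ := hv
  -- a functional with nonzero vertical part
  obtain ⟨a, b, hb, hab⟩ : ∃ a b : ℝ, b ≠ 0 ∧
      ∀ x ∈ K, a * (x.1 - v.1) + b * (x.2 - v.2) ≤ 0 := by
    by_cases hb1 : b1 = 0
    · have hb2 : b2 ≠ 0 := by
        rintro rfl
        apply hdet
        rw [hb1]
        ring
      exact ⟨a2, b2, hb2, h2⟩
    · exact ⟨a1, b1, hb1, h1⟩
  rcases lt_or_gt_of_ne hb with hneg | hpos
  · refine caseP1 B hF hP h0 hvK hleft (A := a / b) (fun x hx => ?_)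
    have h3 := hab x hx
    have h4 : a / b * (x.1 - v.1) + (x.2 - v.2) = (a * (x.1 - v.1) + b * (x.2 - v.2)) / b := by
      field_simp
    have h5 : 0 ≤ (a * (x.1 - v.1) + b * (x.2 - v.2)) / b := div_nonneg_of_nonpos h3 hneg.le
    linarith
  · have hD : (1:ℝ) * (-1) - 0 * 0 ≠ 0 := by norm_num
    have hDc : ((1:ℝ) : ℂ) * ((-1 : ℝ) : ℂ) - ((0:ℝ) : ℂ) * ((0:ℝ) : ℂ) ≠ 0 := by
      push_cast
      norm_num
    apply para_of_lin hD
    refine caseP1 (B.lin hD) (hF.lin hD) (subst_ne hP hDc) ?_ (mem_image_of_mem _ hvK) ?_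
      (A := -(a / b)) ?_
    · rw [(top_subst hP hDc).2]
      simpa using h0
    · rintro _ ⟨x, hx, rfl⟩
      simp only [lin_apply]
      linarith [hleft x hx]
    · rintro _ ⟨x, hx, rfl⟩
      simp only [lin_apply]
      have h3 := hab x hx
      have h4 : a / b * (x.1 - v.1) + (x.2 - v.2) = (a * (x.1 - v.1) + b * (x.2 - v.2)) / b := by
        field_simp
      have h5 : (a * (x.1 - v.1) + b * (x.2 - v.2)) / b ≤ 0 := div_nonpos_of_nonpos_of_nonneg h3 hpos.le
      linarith

/-- parabolic or bounded real direction at a corner -/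
theorem real_case (B : Body K) (hF : HasFac K P) (hP : P ≠ 0) (h0 : top P 1 0 = 0) {v : ℝ × ℝ}
    (hv : CornerAt K v) : Para K := by
  by_cases hl : ∀ x ∈ K, v.1 ≤ x.1
  · exact caseLeft B hF hP h0 hv hl
  by_cases hr : ∀ x ∈ K, x.1 ≤ v.1
  · have hD : (-1:ℝ) * 1 - 0 * 0 ≠ 0 := by norm_num
    have hDc : ((-1:ℝ) : ℂ) * ((1 : ℝ) : ℂ) - ((0:ℝ) : ℂ) * ((0:ℝ) : ℂ) ≠ 0 := by
      push_cast
      norm_num
    apply para_of_lin hD
    refine caseLeft (B.lin hD) (hF.lin hD) (subst_ne hP hDc) ?_ (hv.lin hD) ?_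
    · rw [(top_subst hP hDc).2]
      have := top_smul P (-1) 1 0
      simp only [mul_one, mul_zero] at this
      simpa [h0] using this
    · rintro _ ⟨x, hx, rfl⟩
      simp only [lin_apply]
      linarith [hr x hx]
  · push Not at hl hr
    obtain ⟨hvK, a1, b1, a2, b2, hdet, h1, h2⟩ := hv
    obtain ⟨x1, hx1, hx1'⟩ := hl
    obtain ⟨x2, hx2, hx2'⟩ := hr
    have hbne : ∀ a b : ℝ, (a ≠ 0 ∨ b ≠ 0) →
        (∀ x ∈ K, a * (x.1 - v.1) + b * (x.2 - v.2) ≤ 0) → b ≠ 0 := by
      intro a b hab hle hb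
      subst hb
      have k1 := hle x1 hx1
      have k2 := hle x2 hx2
      rw [zero_mul, add_zero] at k1 k2
      have ha : a = 0 := by
        rcases lt_trichotomy a 0 with h | h | h
        · exfalso
          nlinarith
        · exact h
        · exfalso
          nlinarith
      rcases hab with h | h
      · exact h ha
      · exact h rfl
    have hb1 : b1 ≠ 0 := hbne a1 b1 (by
      by_contra hcon
      push Not at hcon
      apply hdet
      rw [hcon.1, hcon.2]
      ring) h1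
    have hb2 : b2 ≠ 0 := hbne a2 b2 (by
      by_contra hcon
      push Not at hcon
      apply hdet
      rw [hcon.1, hcon.2]
      ring) h2
    have hslope : -(a1 / b1) ≠ -(a2 / b2) := by
      intro h
      apply hdet
      have h3 : a1 / b1 = a2 / b2 := by linarith
      rw [div_eq_div_iff hb1 hb2] at h3
      linarith
    have hval : ∀ a b : ℝ, b ≠ 0 → ∀ x : ℝ × ℝ,
        a / b * (x.1 - v.1) + (x.2 - v.2) = (a * (x.1 - v.1) + b * (x.2 - v.2)) / b := by
      intro a b hb x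
      field_simp
    have hposi : ∀ a b : ℝ, 0 < b → (∀ x ∈ K, a * (x.1 - v.1) + b * (x.2 - v.2) ≤ 0) →
        ∀ x ∈ K, x.2 - v.2 ≤ -(a / b) * (x.1 - v.1) := by
      intro a b hb hle x hx
      have h3 := hval a b hb.ne' x
      have h4 := div_nonpos_of_nonpos_of_nonneg (hle x hx) hb.le
      linarith
    have hnega : ∀ a b : ℝ, b < 0 → (∀ x ∈ K, a * (x.1 - v.1) + b * (x.2 - v.2) ≤ 0) →
        ∀ x ∈ K, -(x.2 - v.2) ≤ a / b * (x.1 - v.1) := by
      intro a b hb hle x hx
      have h3 := hval a b hb.ne x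
      have h4 := div_nonneg_of_nonpos (hle x hx) hb.le
      linarith
    -- the mixed case is impossible
    have hmix : ∀ c1 c2 : ℝ, (∀ x ∈ K, x.2 - v.2 ≤ c1 * (x.1 - v.1)) →
        (∀ x ∈ K, -(x.2 - v.2) ≤ c2 * (x.1 - v.1)) → False := by
      intro c1 c2 hc1 hc2
      obtain ⟨a, H, α, β, S, hKs⟩ := slices B.cpt B.cvx B.int
      have hproj : ∀ x ∈ K, a ≤ x.1 ∧ x.1 ≤ a + H := by
        intro x hx
        have h3 : (a + (x.1 - a), x.2) ∈ K := by rwa [add_sub_cancel]
        rw [hKs] at h3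
        exact ⟨by linarith [h3.1.1], by linarith [h3.1.2]⟩
      have hhv : v.1 - a ∈ Ioo 0 H :=
        ⟨by linarith [(hproj x1 hx1).1], by linarith [(hproj x2 hx2).2]⟩
      have hhv' := Ioo_subset_Icc_self hhv
      have hlt := S.hlt _ hhv
      have k1 := hc1 _ ((hKs _ (β (v.1 - a))).2 ⟨hhv', hlt.le, le_rfl⟩)
      have k2 := hc2 _ ((hKs _ (α (v.1 - a))).2 ⟨hhv', le_rfl, hlt.le⟩)
      simp only [add_sub_cancel, sub_self, mul_zero] at k1 k2
      linarith
    rcases lt_or_gt_of_ne hb1 with hn1 | hp1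
    · rcases lt_or_gt_of_ne hb2 with hn2 | hp2
      · -- both negative: reflect
        have k1 := hnega a1 b1 hn1 h1
        have k2 := hnega a2 b2 hn2 h2
        have hD : (1:ℝ) * (-1) - 0 * 0 ≠ 0 := by norm_num
        have hDc : ((1:ℝ) : ℂ) * ((-1 : ℝ) : ℂ) - ((0:ℝ) : ℂ) * ((0:ℝ) : ℂ) ≠ 0 := by
          push_cast
          norm_num
        apply para_of_lin hD
        have htop : top (subst P ((1:ℝ):ℂ) ((0:ℝ):ℂ) ((0:ℝ):ℂ) ((-1:ℝ):ℂ)) 1 0 = 0 := by
          rw [(top_subst hP hDc).2]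
          simpa using h0
        have hL : ∃ x ∈ lin 1 0 0 (-1) hD '' K, x.1 < (lin 1 0 0 (-1) hD v).1 :=
          ⟨_, mem_image_of_mem _ hx1, by simp only [lin_apply]; linarith⟩
        have hR : ∃ x ∈ lin 1 0 0 (-1) hD '' K, (lin 1 0 0 (-1) hD v).1 < x.1 :=
          ⟨_, mem_image_of_mem _ hx2, by simp only [lin_apply]; linarith⟩
        have m1 : ∀ x ∈ lin 1 0 0 (-1) hD '' K, x.2 - (lin 1 0 0 (-1) hD v).2 ≤
            a1 / b1 * (x.1 - (lin 1 0 0 (-1) hD v).1) := by
          rintro _ ⟨x, hx, rfl⟩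
          have := k1 x hx
          simp only [lin_apply]
          linarith
        have m2 : ∀ x ∈ lin 1 0 0 (-1) hD '' K, x.2 - (lin 1 0 0 (-1) hD v).2 ≤
            a2 / b2 * (x.1 - (lin 1 0 0 (-1) hD v).1) := by
          rintro _ ⟨x, hx, rfl⟩
          have := k2 x hx
          simp only [lin_apply]
          linarith
        rcases lt_or_gt_of_ne hslope with h | h
        · exact caseP2 (B.lin hD) (hF.lin hD) (subst_ne hP hDc) htop (mem_image_of_mem _ hvK)
            hL hR (μ1 := a2 / b2) (μ2 := a1 / b1) (by linarith) m2 m1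
        · exact caseP2 (B.lin hD) (hF.lin hD) (subst_ne hP hDc) htop (mem_image_of_mem _ hvK)
            hL hR (μ1 := a1 / b1) (μ2 := a2 / b2) (by linarith) m1 m2
      · exact absurd (hmix _ _ (hposi a2 b2 hp2 h2) (hnega a1 b1 hn1 h1)) id
    · rcases lt_or_gt_of_ne hb2 with hn2 | hp2
      · exact absurd (hmix _ _ (hposi a1 b1 hp1 h1) (hnega a2 b2 hn2 h2)) id
      · have k1 := hposi a1 b1 hp1 h1
        have k2 := hposi a2 b2 hp2 h2
        rcases lt_or_gt_of_ne hslope with h | h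
        · exact caseP2 B hF hP h0 hvK ⟨x1, hx1, hx1'⟩ ⟨x2, hx2, hx2'⟩ h k1 k2
        · exact caseP2 B hF hP h0 hvK ⟨x1, hx1, hx1'⟩ ⟨x2, hx2, hx2'⟩ h k2 k1

end

end Helper12.Fac
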