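import Mathlib
import Pool.Agent.Helper12.FacMain

/-!
# Planar convex bodies with a corner: conclusion in coordinates (helper12)
-/

open Filter Topology Set MeasureTheory

namespace Helper12.Fac

noncomputable section

variable {K : Set (ℝ × ℝ)} {P : MvPolynomial (Fin 2) ℂ} {α β : ℝ → ℝ} {H a : ℝ}

/-- elliptic direction, corner at the origin, cone `|y| ≤ h` -/
lemma ell_zero (B : Body K) (hF : HasFac K P) (hP : P ≠ 0) (h0K : (0, 0) ∈ K)
    (hcone : ∀ x ∈ K, |x.2| ≤ x.1) {z q : ℂ} (hcross : z.re * q.im - z.im * q.re ≠ 0)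
    (h0 : top P z q = 0) : False := by
  obtain ⟨a, H, α, β, S, hKs⟩ := slices B.cpt B.cvx B.int
  obtain ⟨f, hf, hfac⟩ := hF.phi B.cpt S hKs
  have hH := S.hH
  have ha0 : a = 0 := by
    have h1 : ((a + (0 - a) : ℝ), (0:ℝ)) ∈ K := by
      rwa [add_sub_cancel]
    rw [hKs] at h1
    have h2 := hcone _ ((hKs 0 (α 0)).2 ⟨S.zero_mem, le_rfl, S.le S.zero_mem⟩)
    simp only at h2
    have h3 := abs_nonneg (α 0)
    linarith [h1.1.1]
  have hA : ∀ h ∈ Icc 0 H, |α h| ≤ h := by
    intro h hh
    have h2 := hcone _ ((hKs h (α h)).2 ⟨hh, le_rfl, S.le hh⟩)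
    simpa [ha0] using h2
  have hB : ∀ h ∈ Icc 0 H, |β h| ≤ h := by
    intro h hh
    have h2 := hcone _ ((hKs h (β h)).2 ⟨hh, S.le hh, le_rfl⟩)
    simpa [ha0] using h2
  have hq0 : q ≠ 0 := by
    rintro rfl
    simp at hcross
  have him : (z / q).im ≠ 0 := by
    intro h
    apply hcross
    have e : z = (z / q) * q := by field_simp
    have e1 : z.re = (z / q).re * q.re := by
      conv_lhs => rw [e]
      rw [Complex.mul_re, h]
      ring
    have e2 : z.im = (z / q).re * q.im := by
      conv_lhs => rw [e]
      rw [Complex.mul_im, h]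
      ring
    rw [e1, e2]
    ring
  set s : ℝ := 1 / (z / q).im with hs
  have hs0 : s ≠ 0 := by
    rw [hs]
    exact one_div_ne_zero him
  refine ell_case S hA hB hP (z' := s * (z / q)) (q' := s) (fun z q hz => by
    rw [hfac, hz, zero_mul]) ?_ ?_ ?_ ?_
  · rw [Complex.im_ofReal_mul, hs]
    field_simp
  · simp
  · exact_mod_cast hs0
  · have h1 := top_smul P (s / q) z q
    rw [h0, mul_zero] at h1
    have e1 : (s / q : ℂ) * z = s * (z / q) := by ring
    have e2 : (s / q : ℂ) * q = s := by field_simp
    rwa [e1, e2] at h1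

/-- no elliptic direction at a corner -/
theorem ell_body (B : Body K) (hF : HasFac K P) (hP : P ≠ 0) {v : ℝ × ℝ} (hv : CornerAt K v)
    {z q : ℂ} (hcross : z.re * q.im - z.im * q.re ≠ 0) (h0 : top P z q = 0) : False := by
  obtain ⟨hvK, a1, b1, a2, b2, hdet, h1, h2⟩ := hv
  set a : ℝ := -(a1 + a2) / 2 with ha
  set b : ℝ := -(b1 + b2) / 2 with hb
  set c : ℝ := (a1 - a2) / 2 with hc
  set d : ℝ := (b1 - b2) / 2 with hd
  clear_value a b c d
  have hDval : a * d - b * c = (a1 * b2 - a2 * b1) / 2 := by
    rw [ha, hb, hc, hd]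
    ring
  have hD : a * d - b * c ≠ 0 := by
    rw [hDval]
    exact div_ne_zero hdet two_ne_zero
  have hDc : (a : ℂ) * d - b * c ≠ 0 := by exact_mod_cast hD
  set L := lin a b c d hD with hL
  set K' : Set (ℝ × ℝ) := (fun x => -(L v) + x) '' (L '' K) with hK'
  have B' : Body K' := (B.lin hD).add _
  have hF' : HasFac K' (subst P a b c d) := (hF.lin hD).add _
  refine ell_zero B' hF' (subst_ne hP hDc) ?_ ?_
    (z := (d * z - c * q) / (a * d - b * c)) (q := (a * q - b * z) / (a * d - b * c)) ?_ ?_
  · exact ⟨L v, mem_image_of_mem _ hvK, (neg_add_cancel (L v)).trans rfl⟩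
  · rintro _ ⟨_, ⟨x, hx, rfl⟩, rfl⟩
    have k1 := h1 x hx
    have k2 := h2 x hx
    simp only [hL, lin_apply, Prod.fst_add, Prod.snd_add, Prod.fst_neg, Prod.snd_neg]
    rw [abs_le, ha, hb, hc, hd]
    constructor
    · linarith
    · linarith
  · have e1 : ((d * z - c * q) / (a * d - b * c) : ℂ).re =
        (d * z.re - c * q.re) / (a * d - b * c) := by
      rw [show ((a : ℂ) * d - b * c) = ((a * d - b * c : ℝ) : ℂ) by push_cast; ring,
        Complex.div_ofReal_re]
      simp
    have e2 : ((d * z - c * q) / (a * d - b * c) : ℂ).im =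
        (d * z.im - c * q.im) / (a * d - b * c) := by
      rw [show ((a : ℂ) * d - b * c) = ((a * d - b * c : ℝ) : ℂ) by push_cast; ring,
        Complex.div_ofReal_im]
      simp
    have e3 : ((a * q - b * z) / (a * d - b * c) : ℂ).re =
        (a * q.re - b * z.re) / (a * d - b * c) := by
      rw [show ((a : ℂ) * d - b * c) = ((a * d - b * c : ℝ) : ℂ) by push_cast; ring,
        Complex.div_ofReal_re]
      simp
    have e4 : ((a * q - b * z) / (a * d - b * c) : ℂ).im =
        (a * q.im - b * z.im) / (a * d - b * c) := by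
      rw [show ((a : ℂ) * d - b * c) = ((a * d - b * c : ℝ) : ℂ) by push_cast; ring,
        Complex.div_ofReal_im]
      simp
    rw [e1, e2, e3, e4]
    have e5 : (d * z.re - c * q.re) / (a * d - b * c) * ((a * q.im - b * z.im) / (a * d - b * c)) -
        (d * z.im - c * q.im) / (a * d - b * c) * ((a * q.re - b * z.re) / (a * d - b * c)) =
        (z.re * q.im - z.im * q.re) / (a * d - b * c) := by
      rw [div_mul_div_comm, div_mul_div_comm, ← sub_div, div_eq_div_iff (mul_ne_zero hD hD) hD]
      ring
    rw [e5]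
    exact div_ne_zero hcross hD
  · rw [(top_subst hP hDc).2]
    have e1 : (a : ℂ) * ((d * z - c * q) / (a * d - b * c)) +
        c * ((a * q - b * z) / (a * d - b * c)) = z := by
      have : (a : ℂ) * ((d * z - c * q) / (a * d - b * c)) +
        c * ((a * q - b * z) / (a * d - b * c)) =
        z * (a * d - b * c) / (a * d - b * c) := by ring
      rw [this, mul_div_cancel_right₀ _ hDc]
    have e2 : (b : ℂ) * ((d * z - c * q) / (a * d - b * c)) +
        d * ((a * q - b * z) / (a * d - b * c)) = q := by
      have : (b : ℂ) * ((d * z - c * q) / (a * d - b * c)) +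
        d * ((a * q - b * z) / (a * d - b * c)) =
        q * (a * d - b * c) / (a * d - b * c) := by ring
      rw [this, mul_div_cancel_right₀ _ hDc]
    rw [e1, e2]
    exact h0

/-- the main theorem in coordinates -/
theorem corner_main (B : Body K) (hF : HasFac K P) (hdeg : P.totalDegree ≠ 0) {v : ℝ × ℝ}
    (hv : CornerAt K v) : Para K := by
  have hP : P ≠ 0 := by
    rintro rfl
    simp at hdeg
  obtain ⟨z, q, hzq, h0⟩ := exists_char P hdeg
  by_cases hcross : z.re * q.im - z.im * q.re = 0
  · -- real direction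
    obtain ⟨s, t, hst, hreal⟩ : ∃ s t : ℝ, s * s - t * (-t) ≠ 0 ∧ top P s t = 0 := by
      by_cases hz : z = 0
      · have hq : q ≠ 0 := by
          rcases hzq with h | h
          · exact absurd hz h
          · exact h
        refine ⟨0, 1, by norm_num, ?_⟩
        have h1 := top_smul P (1 / q) z q
        rw [h0, mul_zero, hz, mul_zero, one_div_mul_cancel hq] at h1
        simpa using h1
      · refine ⟨1, (q / z).re, ?_, ?_⟩
        · have : 0 < 1 * 1 - (q / z).re * (-(q / z).re) := by nlinarith [sq_nonneg (q / z).re]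
          exact this.ne'
        · have h1 := top_smul P (1 / z) z q
          rw [h0, mul_zero, one_div_mul_cancel hz] at h1
          have h2 : (1 / z) * q = (((q / z).re : ℝ) : ℂ) := by
            apply Complex.ext
            · rw [Complex.ofReal_re]
              congr 1
              ring
            · rw [Complex.ofReal_im]
              have e : 1 / z * q = q / z := by ring
              rw [e, Complex.div_im]
              have hn : Complex.normSq z ≠ 0 := by
                rw [Complex.normSq_eq_zero.ne]
                exact hz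
              field_simp
              linarith
          rw [h2] at h1
          simpa using h1
    have hDc : (s : ℂ) * s - t * ((-t : ℝ) : ℂ) ≠ 0 := by exact_mod_cast hst
    apply para_of_lin hst
    refine real_case (B.lin hst) (hF.lin hst) (subst_ne hP hDc) ?_ (hv.lin hst)
    rw [(top_subst hP hDc).2]
    simpa using hreal
  · exact (ell_body B hF hP hv hcross h0).elim

end

end Helper12.Fac
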