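import Mathlib
import Pool.Agent.Helper12.FacDefs
import Pool.Agent.Helper12.FacMain2
import Pool.Agent.Helper12.FacConv

/-!
# Bridge between `Fin 2 → ℝ` and `ℝ × ℝ` (helper12)
-/

open Filter Topology Set MeasureTheory

namespace Helper12.Fac

open Helper12.ConvexFactor

noncomputable section

/-- the set in `ℝ × ℝ` -/
def tw (K : Set (Fin 2 → ℝ)) : Set (ℝ × ℝ) := {x | ![x.1, x.2] ∈ K}

lemma vec_eta (x : Fin 2 → ℝ) : ![x 0, x 1] = x := by
  ext i
  fin_cases i <;> rfl

lemma vec_etaC (x : Fin 2 → ℂ) : ![x 0, x 1] = x := by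
  ext i
  fin_cases i <;> rfl

lemma FT_eq (K : Set (Fin 2 → ℝ)) (ζ : Fin 2 → ℂ) :
    indicatorFT K ζ = T (tw K) (-ζ 0) (-ζ 1) := by
  have h := (volume_preserving_finTwoArrow ℝ).setIntegral_preimage_emb
    (MeasurableEquiv.finTwoArrow (α := ℝ)).measurableEmbedding
    (fun x : ℝ × ℝ => Complex.exp (Complex.I * x.1 * (-ζ 0)) *
      Complex.exp (Complex.I * x.2 * (-ζ 1))) (tw K)
  have hpre : (MeasurableEquiv.finTwoArrow (α := ℝ)) ⁻¹' (tw K) = K := by
    ext x
    change ![x 0, x 1] ∈ K ↔ x ∈ K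
    rw [vec_eta]
  rw [hpre] at h
  rw [T, ← h, indicatorFT]
  congr 1
  ext x
  change _ = Complex.exp (Complex.I * x 0 * (-ζ 0)) * Complex.exp (Complex.I * x 1 * (-ζ 1))
  rw [← Complex.exp_add, Fin.sum_univ_two]
  congr 1
  ring

lemma T_eq_FT (K : Set (Fin 2 → ℝ)) (z q : ℂ) : T (tw K) z q = indicatorFT K ![-z, -q] := by
  rw [FT_eq]
  simp

lemma tw_image (K : Set (Fin 2 → ℝ)) : tw K = (Homeomorph.finTwoArrow (X := ℝ)) '' K := by
  ext x
  constructor
  · intro hx
    exact ⟨![x.1, x.2], hx, rfl⟩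
  · rintro ⟨y, hy, rfl⟩
    change ![y 0, y 1] ∈ K
    rwa [vec_eta]

lemma body_tw {K : Set (Fin 2 → ℝ)} (B : IsConvexBody K) : Body (tw K) := by
  refine ⟨?_, ?_, ?_⟩
  · rw [tw_image]
    exact B.isCompact.image (Homeomorph.finTwoArrow (X := ℝ)).continuous
  · intro x hx y hy a b ha hb hab
    have := B.convex hx hy ha hb hab
    change ![_, _] ∈ K
    convert this using 1
    ext i
    fin_cases i
    · simp
    · simp
  · rw [tw_image, ← Homeomorph.image_interior]
    exact B.nonempty_interior.image _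

lemma det_ne {u w : Fin 2 → ℝ} (h : LinearIndependent ℝ ![u, w]) : u 0 * w 1 - u 1 * w 0 ≠ 0 := by
  rw [LinearIndependent.pair_iff] at h
  intro hdet
  have h1 := h (w 1) (-u 1) (by
    ext i
    fin_cases i
    · simp only [Fin.zero_eta, Pi.add_apply, Pi.smul_apply, smul_eq_mul, Pi.zero_apply]
      linarith
    · simp only [Fin.mk_one, Pi.add_apply, Pi.smul_apply, smul_eq_mul, Pi.zero_apply]
      ring)
  have h2 := h (w 0) (-u 0) (by
    ext i
    fin_cases i
    · simp only [Fin.zero_eta, Pi.add_apply, Pi.smul_apply, smul_eq_mul, Pi.zero_apply]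
      ring
    · simp only [Fin.mk_one, Pi.add_apply, Pi.smul_apply, smul_eq_mul, Pi.zero_apply]
      linarith)
  have h3 := h 1 0 (by
    ext i
    fin_cases i
    · simp only [Fin.zero_eta, Pi.add_apply, Pi.smul_apply, smul_eq_mul, Pi.zero_apply]
      linarith [h2.2]
    · simp only [Fin.mk_one, Pi.add_apply, Pi.smul_apply, smul_eq_mul, Pi.zero_apply]
      linarith [h1.2])
  exact one_ne_zero h3.1

lemma indep_of_det {u w : Fin 2 → ℝ} (h : u 0 * w 1 - u 1 * w 0 ≠ 0) :
    LinearIndependent ℝ ![u, w] := by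
  rw [LinearIndependent.pair_iff]
  intro s t hst
  have h0 := congrFun hst 0
  have h1 := congrFun hst 1
  simp only [Pi.add_apply, Pi.smul_apply, smul_eq_mul, Pi.zero_apply] at h0 h1
  constructor
  · have : s * (u 0 * w 1 - u 1 * w 0) = 0 := by linear_combination w 1 * h0 - w 0 * h1
    exact (mul_eq_zero.1 this).resolve_right h
  · have : t * (u 0 * w 1 - u 1 * w 0) = 0 := by linear_combination u 0 * h1 - u 1 * h0
    exact (mul_eq_zero.1 this).resolve_right h

lemma dot_two (u x : Fin 2 → ℝ) : u ⬝ᵥ x = u 0 * x 0 + u 1 * x 1 := by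
  simp [dotProduct, Fin.sum_univ_two]

lemma corner_tw {K : Set (Fin 2 → ℝ)} (hc : HasCorner K) : ∃ v, CornerAt (tw K) v := by
  obtain ⟨v, hv, u, w, hli, h1, h2⟩ := hc
  have hdet := det_ne hli
  refine ⟨(v 0, v 1), ?_, u 0, u 1, w 0, w 1, ?_, ?_, ?_⟩
  · change ![v 0, v 1] ∈ K
    rwa [vec_eta]
  · intro h
    apply hdet
    linarith
  · intro x hx
    have := h1 _ hx
    rw [dot_two, dot_two] at this
    simp only [Matrix.cons_val_zero, Matrix.cons_val_one, Matrix.cons_val_fin_one] at this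
    simp only
    linarith
  · intro x hx
    have := h2 _ hx
    rw [dot_two, dot_two] at this
    simp only [Matrix.cons_val_zero, Matrix.cons_val_one, Matrix.cons_val_fin_one] at this
    simp only
    linarith

lemma hasFac_tw {K : Set (Fin 2 → ℝ)} {p : MvPolynomial (Fin 2) ℂ}
    (hp : IsPolynomialFactor K p) : HasFac (tw K) (subst p (-1) 0 0 (-1)) := by
  obtain ⟨f, hf, hfac⟩ := hp
  refine ⟨fun x => f ![-x.1, -x.2], ?_, fun z q => ?_⟩
  · apply hf.continuous.comp
    apply continuous_pi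
    intro i
    fin_cases i
    · simp only [Fin.zero_eta, Matrix.cons_val_zero]
      fun_prop
    · simp only [Fin.mk_one, Matrix.cons_val_one, Matrix.cons_val_fin_one]
      fun_prop
  · rw [T_eq_FT, hfac, ev_subst, ev]
    simp

lemma para_tw {K : Set (Fin 2 → ℝ)} : Para (tw K) ↔ IsParallelogram K := by
  constructor
  · rintro ⟨a, u, w, hdet, hK⟩
    refine ⟨![a.1, a.2], ![u.1, u.2], ![w.1, w.2], indep_of_det (by simpa using hdet), ?_⟩
    ext x
    have h1 : x ∈ K ↔ (x 0, x 1) ∈ tw K := by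
      change _ ↔ ![x 0, x 1] ∈ K
      rw [vec_eta]
    rw [h1, hK]
    constructor
    · rintro ⟨s, hs, t, ht, he⟩
      refine ⟨s, hs, t, ht, ?_⟩
      rw [Prod.ext_iff] at he
      simp only [Prod.fst_add, Prod.smul_fst, smul_eq_mul, Prod.snd_add, Prod.smul_snd] at he
      ext i
      fin_cases i
      · simpa using he.1
      · simpa using he.2
    · rintro ⟨s, hs, t, ht, he⟩
      refine ⟨s, hs, t, ht, ?_⟩
      ext
      · have := congrFun he 0
        simpa using this
      · have := congrFun he 1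
        simpa using this
  · rintro ⟨a, u, w, hli, hK⟩
    refine ⟨(a 0, a 1), (u 0, u 1), (w 0, w 1), det_ne hli, ?_⟩
    ext x
    have h1 : x ∈ tw K ↔ ![x.1, x.2] ∈ K := Iff.rfl
    rw [h1, hK]
    constructor
    · rintro ⟨s, hs, t, ht, he⟩
      refine ⟨s, hs, t, ht, ?_⟩
      ext
      · have := congrFun he 0
        simpa using this
      · have := congrFun he 1
        simpa using this
    · rintro ⟨s, hs, t, ht, he⟩
      refine ⟨s, hs, t, ht, ?_⟩
      rw [Prod.ext_iff] at he
      simp only [Prod.fst_add, Prod.smul_fst, smul_eq_mul, Prod.snd_add, Prod.smul_snd] at he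
      ext i
      fin_cases i
      · simpa using he.1
      · simpa using he.2

/-- parallelograms have a polynomial factor -/
theorem factor_of_para {K : Set (Fin 2 → ℝ)} (hK : IsParallelogram K) : HasPolynomialFactor K := by
  obtain ⟨u1, u2, f, hu, hf, hfac⟩ := para_factor (para_tw.2 hK)
  refine ⟨(MvPolynomial.C (-u1 : ℂ) * MvPolynomial.X 0 + MvPolynomial.C (-u2 : ℂ) * MvPolynomial.X 1 -
    MvPolynomial.C (2 * Real.pi : ℂ) : MvPolynomial (Fin 2) ℂ), ?_,
    fun ζ => f (-ζ 0) (-ζ 1), ?_, ?_⟩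
  · intro h
    rw [MvPolynomial.totalDegree_eq_zero_iff_eq_C] at h
    have h1 : ∀ ζ : Fin 2 → ℂ, -u1 * ζ 0 + -u2 * ζ 1 - 2 * Real.pi = -(2 * Real.pi) := by
      intro ζ
      have e1 := congrArg (MvPolynomial.eval ζ) h
      have e2 := congrArg (MvPolynomial.eval (0 : Fin 2 → ℂ)) h
      simp only [map_add, map_sub, map_mul, MvPolynomial.eval_C, MvPolynomial.eval_X,
        Pi.zero_apply, mul_zero, add_zero, zero_sub] at e1 e2
      rw [e1, ← e2]
    have h2 := h1 ![1, 0]
    have h3 := h1 ![0, 1]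
    simp only [Matrix.cons_val_zero, Matrix.cons_val_one, Matrix.cons_val_fin_one, mul_one,
      mul_zero, add_zero, zero_add] at h2 h3
    rcases hu with h4 | h4
    · apply h4
      have : (u1 : ℂ) = 0 := by linear_combination -h2
      exact_mod_cast this
    · apply h4
      have : (u2 : ℂ) = 0 := by linear_combination -h3
      exact_mod_cast this
  · have h1 : Differentiable ℂ (fun ζ : Fin 2 → ℂ => ((-ζ 0, -ζ 1) : ℂ × ℂ)) := by fun_prop
    exact hf.comp h1
  · intro ζ
    rw [FT_eq, hfac]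
    simp only [map_add, map_sub, map_mul, MvPolynomial.eval_C, MvPolynomial.eval_X]
    ring

/-- planar convex bodies with a corner -/
theorem corner_iff {K : Set (Fin 2 → ℝ)} (B : IsConvexBody K) (hc : HasCorner K) :
    HasPolynomialFactor K ↔ IsParallelogram K := by
  constructor
  · rintro ⟨p, hdeg, hp⟩
    obtain ⟨v, hv⟩ := corner_tw hc
    have hp0 : p ≠ 0 := by
      rintro rfl
      simp at hdeg
    have hD : (-1 : ℂ) * (-1) - 0 * 0 ≠ 0 := by norm_num
    have h1 := corner_main (body_tw B) (hasFac_tw hp) (by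
      rw [(top_subst hp0 hD).1]
      exact hdeg) hv
    exact para_tw.1 h1
  · exact factor_of_para

end

end Helper12.Fac
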