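import Mathlib
import Pool.Agent.Helper12.FacDefs

/-!
# Cylinders and polytopes (helper12)
-/

namespace Helper12.ConvexFactor

/-- `K` is a cylinder over a base lying in a hyperplane: there are a hyperplane `⟨a, y⟩ = b`, a
subset `B` of it and a vector `w` transversal to it such that `K = {y + t w : y ∈ B, 0 ≤ t ≤ 1}`. -/
def IsCylinder {n : ℕ} (K : Set (Fin n → ℝ)) : Prop :=
  ∃ (a w : Fin n → ℝ) (b : ℝ) (B : Set (Fin n → ℝ)), a ⬝ᵥ w ≠ 0 ∧ (∀ y ∈ B, a ⬝ᵥ y = b) ∧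
    K = {x | ∃ y ∈ B, ∃ t ∈ Set.Icc (0:ℝ) 1, x = y + t • w}

/-- `K` is the intersection of finitely many closed half-spaces. -/
def IsPolyhedron {n : ℕ} (K : Set (Fin n → ℝ)) : Prop :=
  ∃ (m : ℕ) (a : Fin m → Fin n → ℝ) (b : Fin m → ℝ), K = {x | ∀ i, a i ⬝ᵥ x ≤ b i}

end Helper12.ConvexFactor
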