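import Mathlib
import Pool.Agent.Helper12.FacBridge

/-!
# Real directions with nonconstant leading coefficient (helper12)
-/

open Filter Topology Set MeasureTheory

namespace Helper12.Fac

open Helper12.ConvexFactor

noncomputable section

/-- the isomorphism `ℂ[z, q] → ℂ[q][z]` -/
def toTwo (P : MvPolynomial (Fin 2) ℂ) : Polynomial (Polynomial ℂ) :=
  MvPolynomial.aeval ![Polynomial.X, Polynomial.C Polynomial.X] P

lemma toTwo_coeff (P : MvPolynomial (Fin 2) ℂ) (j : ℕ) : (toTwo P).coeff j = leadP P j := by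
  rw [toTwo, MvPolynomial.aeval_def, MvPolynomial.eval₂_eq', Polynomial.finsetSum_coeff, leadP,
    Finset.sum_filter]
  refine Finset.sum_congr rfl (fun s _ => ?_)
  rw [Fin.prod_univ_two]
  simp only [Matrix.cons_val_zero, Matrix.cons_val_one, Matrix.cons_val_fin_one]
  have h1 : (algebraMap ℂ (Polynomial (Polynomial ℂ))) (MvPolynomial.coeff s P) =
      Polynomial.C (Polynomial.C (MvPolynomial.coeff s P)) := rfl
  rw [h1, ← Polynomial.C_pow, mul_comm (Polynomial.X ^ (s 0)) (Polynomial.C _), ← mul_assoc,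
    ← Polynomial.C_mul, Polynomial.coeff_C_mul_X_pow]
  by_cases h : s 0 = j
  · rw [if_pos h.symm, if_pos h]
  · rw [if_neg (fun h' => h h'.symm), if_neg h]

lemma toTwo_subst (p : MvPolynomial (Fin 2) ℂ) (θ θ' : Fin 2 → ℝ) :
    toTwo (subst (subst p (-1) 0 0 (-1)) ((-θ 0 : ℝ) : ℂ) ((-θ 1 : ℝ) : ℂ) ((-θ' 0 : ℝ) : ℂ)
      ((-θ' 1 : ℝ) : ℂ)) = inBasis p θ θ' := by
  rw [toTwo, subst, subst, MvPolynomial.aeval_bind₁, MvPolynomial.aeval_bind₁, inBasis]
  congr 2
  ext1 i
  fin_cases i
  · simp
    ring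
  · simp
    ring

theorem direction_main {K : Set (Fin 2 → ℝ)} (B : IsConvexBody K) {p : MvPolynomial (Fin 2) ℂ}
    (hp : IsPolynomialFactor K p) {θ θ' : Fin 2 → ℝ} (hli : LinearIndependent ℝ ![θ, θ'])
    (hdeg : (inBasis p θ θ').leadingCoeff.natDegree ≠ 0) : IsParallelogram K := by
  have hdet := det_ne hli
  have hD : (-θ 0) * (-θ' 1) - (-θ 1) * (-θ' 0) ≠ 0 := by
    intro h
    apply hdet
    linarith
  rw [← para_tw]
  apply para_of_lin hD
  have hF := (hasFac_tw hp).lin hD
  refine bb_body ((body_tw B).lin hD) hF (d := (inBasis p θ θ').natDegree) ?_ ?_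
  · intro s hs
    rw [← toTwo_subst]
    apply Polynomial.le_natDegree_of_ne_zero
    rw [toTwo_coeff]
    intro h
    have hc := congrArg (fun Q => Polynomial.coeff Q (s 1)) h
    simp only [Polynomial.coeff_zero] at hc
    rw [leadP, Polynomial.finsetSum_coeff, Finset.sum_eq_single s] at hc
    · rw [Polynomial.coeff_C_mul_X_pow, if_pos rfl] at hc
      exact (MvPolynomial.mem_support_iff.1 hs) hc
    · intro t ht hne
      simp only [Finset.mem_filter] at ht
      have : s 1 ≠ t 1 := by
        intro h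
        exact hne (ext2 (by omega) h.symm)
      rw [Polynomial.coeff_C_mul_X_pow, if_neg this]
    · intro h
      exact (h (Finset.mem_filter.2 (And.intro hs (rfl : s 0 = s 0)))).elim
  · rw [← toTwo_coeff, toTwo_subst]
    change 0 < (inBasis p θ θ').leadingCoeff.degree
    rw [← Polynomial.natDegree_pos_iff_degree_pos]
    exact Nat.pos_of_ne_zero hdeg

/-- characterization of parallelograms by factors with a non-parabolic real direction -/
theorem direction_iff {K : Set (Fin 2 → ℝ)} (B : IsConvexBody K) :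
    (∃ p : MvPolynomial (Fin 2) ℂ, IsPolynomialFactor K p ∧ ∃ θ θ' : Fin 2 → ℝ,
      LinearIndependent ℝ ![θ, θ'] ∧ (inBasis p θ θ').leadingCoeff.natDegree ≠ 0) ↔
    IsParallelogram K := by
  constructor
  · rintro ⟨p, hp, θ, θ', hli, hdeg⟩
    exact direction_main B hp hli hdeg
  · intro hK
    obtain ⟨u1, u2, f, hu, hf, hfac⟩ := para_factor (para_tw.2 hK)
    have hpos : 0 < u1 * u1 + u2 * u2 := by
      rcases hu with h | h
      · have := mul_self_pos.2 h
        nlinarith [mul_self_nonneg u2]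
      · have := mul_self_pos.2 h
        nlinarith [mul_self_nonneg u1]
    refine ⟨(MvPolynomial.C (-u1 : ℂ) * MvPolynomial.X 0 +
      MvPolynomial.C (-u2 : ℂ) * MvPolynomial.X 1 -
      MvPolynomial.C (2 * Real.pi : ℂ) : MvPolynomial (Fin 2) ℂ),
      ⟨fun ζ => f (-ζ 0) (-ζ 1), ?_, ?_⟩, ![-u2, u1], ![u1, u2], ?_, ?_⟩
    · have h1 : Differentiable ℂ (fun ζ : Fin 2 → ℂ => ((-ζ 0, -ζ 1) : ℂ × ℂ)) := by fun_prop
      exact hf.comp h1
    · intro ζ
      rw [FT_eq, hfac]
      simp only [map_add, map_sub, map_mul, MvPolynomial.eval_C, MvPolynomial.eval_X]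
      ring
    · apply indep_of_det
      simp only [Matrix.cons_val_zero, Matrix.cons_val_one, Matrix.cons_val_fin_one]
      intro h
      linarith
    · have e : inBasis (MvPolynomial.C (-u1 : ℂ) * MvPolynomial.X 0 +
          MvPolynomial.C (-u2 : ℂ) * MvPolynomial.X 1 -
          MvPolynomial.C (2 * Real.pi : ℂ) : MvPolynomial (Fin 2) ℂ) ![-u2, u1] ![u1, u2] =
          Polynomial.C (Polynomial.C (-(u1 * u1 + u2 * u2 : ℝ) : ℂ) * Polynomial.X +
            Polynomial.C (-(2 * Real.pi) : ℂ)) := by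
        rw [inBasis]
        simp only [map_add, map_sub, map_mul, MvPolynomial.aeval_C, MvPolynomial.aeval_X,
          Matrix.cons_val_zero, Matrix.cons_val_one, Matrix.cons_val_fin_one]
        have h1 : ∀ x : ℂ, (algebraMap ℂ (Polynomial (Polynomial ℂ))) x =
          Polynomial.C (Polynomial.C x) := fun x => rfl
        simp only [h1]
        push_cast
        simp only [map_neg, map_add, map_mul]
        ring
      rw [e, Polynomial.leadingCoeff_C, Polynomial.natDegree_linear]
      · exact one_ne_zero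
      · rw [neg_ne_zero]
        exact_mod_cast hpos.ne'

end

end Helper12.Fac
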