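import Mathlib
import Pool.Agent.Helper12.FacAlg

/-!
# Roots on real lines cannot escape to infinity (helper12)
-/

open Polynomial Filter Topology Set

namespace Helper12.Fac

noncomputable section

/-- restriction of `P` to the complex line through `(1, s)` -/
def rad (P : MvPolynomial (Fin 2) ℂ) (s : ℝ) : ℂ[X] :=
  MvPolynomial.aeval (![X, C (s : ℂ) * X] : Fin 2 → ℂ[X]) P

variable {P : MvPolynomial (Fin 2) ℂ}

lemma rad_eval (s : ℝ) (z : ℂ) : (rad P s).eval z = ev P z (s * z) := by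
  rw [rad, ev, MvPolynomial.aeval_def, MvPolynomial.eval₂_eq', MvPolynomial.eval_eq',
    Polynomial.eval_finsetSum]
  refine Finset.sum_congr rfl (fun s _ => ?_)
  simp [Fin.prod_univ_two, Polynomial.eval_mul, Polynomial.eval_pow]

lemma rad_natDegree (s : ℝ) : (rad P s).natDegree ≤ P.totalDegree := by
  have := MvPolynomial.aeval_natDegree_le (R := ℂ) P (le_refl P.totalDegree)
    (![X, C (s : ℂ) * X] : Fin 2 → ℂ[X]) (n := 1) (by
      intro i
      fin_cases i
      · simp
      · simp only [Fin.mk_one, Matrix.cons_val_one, Matrix.cons_val_fin_one]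
        compute_degree)
  rw [mul_one] at this
  exact this

lemma rad_coeff (s : ℝ) : (rad P s).coeff P.totalDegree = top P 1 s := by
  rw [rad, MvPolynomial.aeval_def, MvPolynomial.eval₂_eq', Polynomial.finsetSum_coeff, top,
    Finset.sum_filter]
  refine Finset.sum_congr rfl (fun t _ => ?_)
  rw [Fin.prod_univ_two]
  simp only [Matrix.cons_val_zero, Matrix.cons_val_one, Matrix.cons_val_fin_one]
  have e : (algebraMap ℂ ℂ[X]) (MvPolynomial.coeff t P) * (X ^ (t 0) * (C (s : ℂ) * X) ^ (t 1)) =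
      C (MvPolynomial.coeff t P * (s : ℂ) ^ (t 1)) * X ^ (t 0 + t 1) := by
    rw [mul_pow, pow_add, C_mul, C_pow]
    have : (algebraMap ℂ ℂ[X]) (MvPolynomial.coeff t P) = C (MvPolynomial.coeff t P) := rfl
    rw [this]
    ring
  rw [e, Polynomial.coeff_C_mul_X_pow]
  by_cases h : t 0 + t 1 = P.totalDegree
  · rw [if_pos h.symm, if_pos h]
    simp
  · rw [if_neg (fun h' => h h'.symm), if_neg h]

/-- expansion along the line -/
lemma ev_line (s : ℝ) (z : ℂ) : ev P z (s * z) =
    ∑ t ∈ P.support, MvPolynomial.coeff t P * (s : ℂ) ^ (t 1) * z ^ (t 0 + t 1) := by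
  rw [ev_eq]
  refine Finset.sum_congr rfl (fun t _ => ?_)
  rw [mul_pow, pow_add]
  ring

lemma cont_ev : Continuous fun p : ℝ × ℂ => ev P p.2 (p.1 * p.2) := by
  simp only [ev_eq]
  fun_prop

lemma cont_top : Continuous fun s : ℝ => top P 1 (s : ℂ) := by
  unfold top
  fun_prop

/-- root bound -/
lemma root_bound {s : ℝ} (hs : |s| ≤ 1) (hm : P.totalDegree ≠ 0) {z : ℂ}
    (hz : ev P z (s * z) = 0) :
    ‖z‖ ≤ 1 ∨ ‖top P 1 s‖ * ‖z‖ ≤ ∑ t ∈ P.support, ‖MvPolynomial.coeff t P‖ := by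
  by_cases h1 : ‖z‖ ≤ 1
  · exact Or.inl h1
  right
  push Not at h1
  rw [ev_line, ← Finset.sum_filter_add_sum_filter_not P.support
    (fun t => t 0 + t 1 = P.totalDegree)] at hz
  have e1 : ∑ t ∈ P.support with t 0 + t 1 = P.totalDegree,
      MvPolynomial.coeff t P * (s : ℂ) ^ (t 1) * z ^ (t 0 + t 1) =
      top P 1 s * z ^ P.totalDegree := by
    rw [top, Finset.sum_mul]
    refine Finset.sum_congr rfl (fun t ht => ?_)
    simp only [Finset.mem_filter] at ht
    rw [ht.2]
    ring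
  rw [e1] at hz
  have hzn : 0 < ‖z‖ := by linarith
  have h2 : ‖top P 1 s‖ * ‖z‖ ^ P.totalDegree ≤
      (∑ t ∈ P.support, ‖MvPolynomial.coeff t P‖) * ‖z‖ ^ (P.totalDegree - 1) := by
    have h3 : top P 1 s * z ^ P.totalDegree =
        -∑ t ∈ P.support with ¬ (t 0 + t 1 = P.totalDegree),
          MvPolynomial.coeff t P * (s : ℂ) ^ (t 1) * z ^ (t 0 + t 1) := by
      linear_combination hz
    have h4 := congrArg norm h3
    rw [norm_mul, norm_pow, norm_neg] at h4
    rw [h4]
    refine (norm_sum_le _ _).trans ?_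
    rw [Finset.sum_mul]
    refine (Finset.sum_le_sum (fun t ht => ?_)).trans
      (Finset.sum_le_sum_of_subset_of_nonneg (Finset.filter_subset _ _)
        (fun t _ _ => by positivity))
    simp only [Finset.mem_filter] at ht
    have h5 := le_totalDegree P ht.1
    have h6 : t 0 + t 1 ≤ P.totalDegree - 1 := by omega
    rw [norm_mul, norm_mul, norm_pow, norm_pow, Complex.norm_real, Real.norm_eq_abs]
    have h7 : |s| ^ (t 1) ≤ 1 := pow_le_one₀ (abs_nonneg s) hs
    have h8 : ‖z‖ ^ (t 0 + t 1) ≤ ‖z‖ ^ (P.totalDegree - 1) := pow_le_pow_right₀ h1.le h6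
    calc ‖MvPolynomial.coeff t P‖ * |s| ^ (t 1) * ‖z‖ ^ (t 0 + t 1)
        ≤ ‖MvPolynomial.coeff t P‖ * 1 * ‖z‖ ^ (P.totalDegree - 1) := by gcongr
      _ = _ := by ring
  obtain ⟨m, hm'⟩ : ∃ m, P.totalDegree = m + 1 := ⟨P.totalDegree - 1, by omega⟩
  rw [hm', Nat.add_sub_cancel, pow_succ] at h2
  have h9 : 0 < ‖z‖ ^ m := pow_pos hzn m
  have h10 : (‖top P 1 s‖ * ‖z‖) * ‖z‖ ^ m ≤
      (∑ t ∈ P.support, ‖MvPolynomial.coeff t P‖) * ‖z‖ ^ m := by
    calc (‖top P 1 s‖ * ‖z‖) * ‖z‖ ^ m = ‖top P 1 s‖ * (‖z‖ ^ m * ‖z‖) := by ring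
      _ ≤ _ := h2
  exact le_of_mul_le_mul_right h10 h9

/-- roots near a given root, under perturbation of the line -/
lemma root_persist {s' : ℝ} (hne : rad P s' ≠ 0) {z' : ℂ} (hz : ev P z' (s' * z') = 0) {ε : ℝ}
    (hε : 0 < ε) : ∀ᶠ s : ℝ in 𝓝 s', ∃ r, ev P r (s * r) = 0 ∧ ‖r - z'‖ < ε := by
  obtain ⟨w1, hw1, hw1'⟩ := exists_ne_near hne z' (ε/2) (by positivity)
  rw [rad_eval] at hw1'
  have t0 : Tendsto (fun s : ℝ => (3/2:ℝ) ^ P.totalDegree * ‖ev P z' (s * z')‖) (𝓝 s')
      (𝓝 ((3/2:ℝ) ^ P.totalDegree * ‖ev P z' (s' * z')‖)) := by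
    have h1 : Continuous fun s : ℝ => ev P z' (s * z') :=
      cont_ev.comp (f := fun s : ℝ => (s, z')) (by fun_prop)
    exact (h1.norm.tendsto s').const_mul _
  have t1 : Tendsto (fun s : ℝ => ‖ev P w1 (s * w1)‖) (𝓝 s') (𝓝 ‖ev P w1 (s' * w1)‖) := by
    have h1 : Continuous fun s : ℝ => ev P w1 (s * w1) :=
      cont_ev.comp (f := fun s : ℝ => (s, w1)) (by fun_prop)
    exact h1.norm.tendsto s'
  rw [hz, norm_zero, mul_zero] at t0
  filter_upwards [t0.eventually_lt t1 (norm_pos_iff.2 hw1')] with s hs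
  obtain ⟨r, hr, hr2⟩ := root_near (f := rad P s) (rad_natDegree s) hw1 (by
    rw [rad_eval, rad_eval]
    exact hs)
  exact ⟨r, by rwa [rad_eval] at hr, hr2⟩

/-- **No escape**: if the roots on the real lines `(1, s)` never cross the lines
`Re z * H(s) ∈ 2π ℤ \ 0` and strips are bounded, then a real characteristic direction `(1, 0)`
forces `P(0, 0) = 0`. -/
theorem no_escape (hP : P ≠ 0) (hm : P.totalDegree ≠ 0) (h0 : top P 1 0 = 0) {Hf : ℝ → ℝ}
    (hHc : Continuous Hf) (hHpos : ∀ s, 0 < Hf s)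
    (hline : ∀ (s : ℝ) (z : ℂ), ev P z (s * z) = 0 → z.re ≠ 0 → Real.cos (z.re * Hf s) ≠ 1)
    (hstrip : ∀ R : ℝ, ∃ Y : ℝ, ∀ s ∈ Icc (0:ℝ) 1, ∀ z : ℂ, ev P z (s * z) = 0 → |z.re| ≤ R →
      |z.im| ≤ Y) : ev P 0 0 = 0 := by
  have hpi := Real.pi_pos
  -- a punctured right neighbourhood where the leading coefficient does not vanish
  obtain ⟨s1, hs1, hs1', htop⟩ : ∃ s1 : ℝ, 0 < s1 ∧ s1 ≤ 1/2 ∧
      ∀ s ∈ Ioc 0 s1, top P 1 (s : ℂ) ≠ 0 := by
    have hfin : {s : ℝ | (topPoly P 1).eval (s : ℂ) = 0}.Finite := by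
      have h1 : ((topPoly P 1).roots.toFinset : Set ℂ).Finite :=
        (topPoly P 1).roots.toFinset.finite_toSet
      refine (h1.preimage (f := fun s : ℝ => (s : ℂ))
        (Complex.ofReal_injective.injOn)).subset ?_
      intro s hs
      simp only [mem_preimage, Finset.mem_coe, Multiset.mem_toFinset,
        Polynomial.mem_roots (topPoly_ne P hP one_ne_zero)]
      exact hs
    have hcl : IsClosed ({s : ℝ | (topPoly P 1).eval (s : ℂ) = 0} \ {0}) :=
      (hfin.subset sdiff_subset).isClosed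
    have hmem : (0:ℝ) ∈ ({s : ℝ | (topPoly P 1).eval (s : ℂ) = 0} \ {0})ᶜ := by simp
    obtain ⟨δ, hδ, hδ'⟩ := Metric.isOpen_iff.1 hcl.isOpen_compl 0 hmem
    refine ⟨min (δ/2) (1/2), by positivity, min_le_right _ _, ?_⟩
    intro s hs h
    have h2 : s ∈ Metric.ball (0:ℝ) δ := by
      rw [Metric.mem_ball, dist_zero_right, Real.norm_eq_abs, abs_of_pos hs.1]
      have := hs.2.trans (min_le_left _ _)
      linarith
    apply hδ' h2
    refine ⟨?_, hs.1.ne'⟩
    change (topPoly P 1).eval (s : ℂ) = 0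
    rw [topPoly_eval]
    exact h
  set Csum : ℝ := ∑ t ∈ P.support, ‖MvPolynomial.coeff t P‖ with hCsum
  have hCsum0 : 0 ≤ Csum := Finset.sum_nonneg (fun _ _ => norm_nonneg _)
  have hbound : ∀ s ∈ Ioc 0 s1, ∀ z : ℂ, ev P z (s * z) = 0 →
      ‖z‖ ≤ 1 + Csum / ‖top P 1 (s : ℂ)‖ := by
    intro s hs z hz
    have ht : 0 < ‖top P 1 (s : ℂ)‖ := norm_pos_iff.2 (htop s hs)
    have habs : |s| ≤ 1 := by
      rw [abs_of_pos hs.1]
      linarith [hs.2]
    rcases root_bound habs hm hz with h | h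
    · have : 0 ≤ Csum / ‖top P 1 (s : ℂ)‖ := by positivity
      linarith
    · have : ‖z‖ ≤ Csum / ‖top P 1 (s : ℂ)‖ := by
        rw [le_div_iff₀ ht]
        linarith
      linarith
  -- choice of `k`
  have hs1m : s1 ∈ Ioc 0 s1 := ⟨hs1, le_rfl⟩
  obtain ⟨k, hk1, hk⟩ : ∃ k : ℕ, 1 ≤ k ∧
      (1 + Csum / ‖top P 1 (s1 : ℂ)‖) * Hf s1 < 2 * Real.pi * k := by
    obtain ⟨k, hk⟩ := exists_nat_gt ((1 + Csum / ‖top P 1 (s1 : ℂ)‖) * Hf s1 / (2 * Real.pi))
    refine ⟨k + 1, by omega, ?_⟩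
    rw [div_lt_iff₀ (by positivity)] at hk
    push_cast
    nlinarith
  set E : Set ℝ := {s | ∀ z : ℂ, ev P z (s * z) = 0 → |z.re| * Hf s < 2 * Real.pi * k} with hE
  have hs1E : s1 ∈ E := by
    intro z hz
    refine lt_of_le_of_lt ?_ hk
    apply mul_le_mul_of_nonneg_right _ (hHpos s1).le
    exact (Complex.abs_re_le_norm z).trans (hbound s1 hs1m z hz)
  -- openness of `E`
  have hopen : ∀ s' ∈ Ioc 0 s1, s' ∈ E → ∀ᶠ s in 𝓝 s', s ∈ E := by
    intro s' hs' hs'E
    have ht : 0 < ‖top P 1 (s' : ℂ)‖ := norm_pos_iff.2 (htop s' hs')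
    set c : ℝ := ‖top P 1 (s' : ℂ)‖ / 2 with hc
    have hc0 : 0 < c := by positivity
    have e1 : ∀ᶠ s : ℝ in 𝓝 s', c < ‖top P 1 (s : ℂ)‖ :=
      (cont_top.norm.tendsto s').eventually (lt_mem_nhds (by rw [hc]; linarith))
    have e2 : ∀ᶠ s : ℝ in 𝓝 s', |s| < 1 := by
      apply (continuous_abs.tendsto s').eventually (gt_mem_nhds _)
      rw [abs_of_pos hs'.1]
      linarith [hs'.2]
    set Bd : ℝ := 1 + Csum / c with hBd
    set Z : Set (ℝ × ℂ) := (Icc (-1) 1 ×ˢ Metric.closedBall (0:ℂ) Bd) ∩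
      {p | ev P p.2 (p.1 * p.2) = 0 ∧ 2 * Real.pi * k ≤ |p.2.re| * Hf p.1} with hZ
    have hZc : IsCompact Z := by
      apply (isCompact_Icc.prod (isCompact_closedBall 0 Bd)).inter_right
      apply IsClosed.inter
      · exact isClosed_eq cont_ev continuous_const
      · have hcc : Continuous fun p : ℝ × ℂ => |p.2.re| * Hf p.1 :=
          (Complex.continuous_re.comp continuous_snd).abs.mul (hHc.comp continuous_fst)
        exact isClosed_le continuous_const hcc
    have hpc : IsClosed (Prod.fst '' Z) := (hZc.image continuous_fst).isClosed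
    have hnot : s' ∉ Prod.fst '' Z := by
      rintro ⟨⟨s, z⟩, ⟨_, h1, h2⟩, h3⟩
      simp only at h1 h2 h3
      subst h3
      exact absurd (hs'E z h1) (not_lt.2 h2)
    have e3 : ∀ᶠ s : ℝ in 𝓝 s', s ∉ Prod.fst '' Z := hpc.isOpen_compl.mem_nhds hnot
    filter_upwards [e1, e2, e3] with s h1 h2 h3
    intro z hz
    by_contra hcon
    push Not at hcon
    apply h3
    refine ⟨(s, z), ⟨⟨?_, ?_⟩, hz, hcon⟩, rfl⟩
    · exact ⟨(abs_lt.1 h2).1.le, (abs_lt.1 h2).2.le⟩
    · rw [Metric.mem_closedBall, dist_zero_right]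
      rcases root_bound h2.le hm hz with h | h
      · have : 0 ≤ Csum / c := by positivity
        rw [hBd]
        linarith
      · have h4 : c * ‖z‖ ≤ Csum := by
          refine le_trans ?_ h
          gcongr
        have h5 : ‖z‖ ≤ Csum / c := by
          rw [le_div_iff₀ hc0]
          linarith
        rw [hBd]
        linarith
  -- openness of the complement
  have hopen' : ∀ s' ∈ Ioc 0 s1, s' ∉ E → ∀ᶠ s in 𝓝 s', s ∉ E := by
    intro s' hs' hs'E
    rw [hE] at hs'E
    simp only [mem_ofPred_eq, not_forall, not_lt] at hs'E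
    obtain ⟨z', hz', hge⟩ := hs'E
    have hgt : 2 * Real.pi * k < |z'.re| * Hf s' := by
      rcases hge.lt_or_eq with h | h
      · exact h
      · exfalso
        have hk0 : 0 < 2 * Real.pi * k := by
          have : (1:ℝ) ≤ k := by exact_mod_cast hk1
          positivity
        have hre : z'.re ≠ 0 := by
          intro h3
          rw [h3, abs_zero, zero_mul] at h
          linarith
        apply hline s' z' hz' hre
        have h4 : Real.cos (z'.re * Hf s') = Real.cos (|z'.re| * Hf s') := by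
          rcases abs_choice z'.re with h5 | h5
          · rw [h5]
          · rw [h5, neg_mul, Real.cos_neg]
        rw [h4, ← h, mul_comm]
        exact Real.cos_nat_mul_two_pi k
    have hcont : ContinuousAt (fun p : ℝ × ℂ => |p.2.re| * Hf p.1) (s', z') := by
      apply Continuous.continuousAt
      fun_prop
    obtain ⟨ε, hε, hε'⟩ := Metric.eventually_nhds_iff.1
      (hcont.eventually (lt_mem_nhds hgt))
    have hne : rad P s' ≠ 0 := by
      intro h
      apply htop s' hs'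
      rw [← rad_coeff, h]
      simp
    filter_upwards [root_persist hne hz' hε, Metric.ball_mem_nhds s' hε] with s h1 h2
    obtain ⟨r, hr, hr2⟩ := h1
    intro hsE
    have h3 := hε' (y := (s, r)) (by
      rw [Prod.dist_eq]
      apply max_lt
      · exact h2
      · rwa [dist_eq_norm])
    exact absurd (hsE r hr) (not_lt.2 h3.le)
  -- connectedness
  have hall : ∀ s ∈ Ioc 0 s1, s ∈ E := by
    classical
    have hcont : ContinuousOn (fun s => decide (s ∈ E)) (Ioc 0 s1) := by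
      intro s' hs'
      apply ContinuousAt.continuousWithinAt
      by_cases h : s' ∈ E
      · refine (continuousAt_const (y := true)).congr ?_
        filter_upwards [hopen s' hs' h] with s hs
        simp [hs]
      · refine (continuousAt_const (y := false)).congr ?_
        filter_upwards [hopen' s' hs' h] with s hs
        simp [hs]
    intro s hs
    have := (isPreconnected_Ioc (a := (0:ℝ)) (b := s1)).constant hcont hs hs1m
    simp only [hs1E, decide_true, decide_eq_true_eq] at this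
    exact this
  -- bounds
  obtain ⟨smin, hsmin, hmin⟩ := (isCompact_Icc (a := (0:ℝ)) (b := 1)).exists_isMinOn
    ⟨0, by norm_num⟩ hHc.continuousOn
  have hmin' : ∀ s ∈ Icc (0:ℝ) 1, Hf smin ≤ Hf s := fun s hs => hmin hs
  have hHm := hHpos smin
  obtain ⟨Y, hY⟩ := hstrip (2 * Real.pi * k / Hf smin)
  set C : ℝ := max 1 (2 * Real.pi * k / Hf smin + Y) with hC
  have hC1 : 1 ≤ C := le_max_left _ _
  have hroots : ∀ s ∈ Ioc 0 s1, ∀ z : ℂ, ev P z (s * z) = 0 → ‖z‖ ≤ C := by
    intro s hs z hz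
    have hs01 : s ∈ Icc (0:ℝ) 1 := ⟨hs.1.le, by linarith [hs.2]⟩
    have h1 := hall s hs z hz
    have h2 : |z.re| ≤ 2 * Real.pi * k / Hf smin := by
      rw [le_div_iff₀ hHm]
      have := mul_le_mul_of_nonneg_left (hmin' s hs01) (abs_nonneg z.re)
      linarith
    have h3 := hY s hs01 z hz h2
    refine (Complex.norm_le_abs_re_add_abs_im z).trans ?_
    exact (by linarith : |z.re| + |z.im| ≤ 2 * Real.pi * k / Hf smin + Y).trans (le_max_right _ _)
  -- value at zero
  have hval : ∀ s ∈ Ioc 0 s1, ‖ev P 0 0‖ ≤ ‖top P 1 (s : ℂ)‖ * C ^ P.totalDegree := by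
    intro s hs
    have hne : (rad P s).coeff P.totalDegree ≠ 0 := by
      rw [rad_coeff]
      exact htop s hs
    have hdeg : (rad P s).natDegree = P.totalDegree :=
      le_antisymm (rad_natDegree s) (Polynomial.le_natDegree_of_ne_zero hne)
    have hlead : (rad P s).leadingCoeff = top P 1 s := by
      rw [Polynomial.leadingCoeff, hdeg, rad_coeff]
    have hne0 : rad P s ≠ 0 := by
      intro h
      rw [h] at hne
      simp at hne
    have h1 := (IsAlgClosed.splits (rad P s)).eval_eq_prod_roots 0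
    rw [rad_eval, mul_zero, hlead] at h1
    rw [h1, norm_mul]
    gcongr
    have hprod : ∀ m : Multiset ℂ, (∀ r ∈ m, ‖r‖ ≤ C) →
        ‖(m.map (fun a => (0:ℂ) - a)).prod‖ ≤ C ^ Multiset.card m := by
      intro m
      induction m using Multiset.induction_on with
      | empty => intro _; simp
      | cons a m ih =>
        intro hm'
        rw [Multiset.map_cons, Multiset.prod_cons, norm_mul, Multiset.card_cons, pow_succ,
          mul_comm]
        have h2 := ih (fun r hr => hm' r (Multiset.mem_cons_of_mem hr))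
        have h3 : ‖(0:ℂ) - a‖ ≤ C := by
          rw [zero_sub, norm_neg]
          exact hm' a (Multiset.mem_cons_self a m)
        gcongr
    refine (hprod _ (fun r hr => hroots s hs r ?_)).trans ?_
    · rw [Polynomial.mem_roots hne0, Polynomial.IsRoot.def, rad_eval] at hr
      exact hr
    · exact pow_le_pow_right₀ hC1 ((Polynomial.card_roots' _).trans (rad_natDegree s))
  have hlim : Tendsto (fun s : ℝ => ‖top P 1 (s : ℂ)‖ * C ^ P.totalDegree) (𝓝[>] 0)
      (𝓝 (‖top P 1 ((0:ℝ) : ℂ)‖ * C ^ P.totalDegree)) :=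
    ((cont_top.norm.tendsto 0).mul_const _).mono_left nhdsWithin_le_nhds
  rw [Complex.ofReal_zero, h0, norm_zero, zero_mul] at hlim
  have hle : ‖ev P 0 0‖ ≤ 0 := by
    refine ge_of_tendsto hlim ?_
    have : Ioc 0 s1 ∈ 𝓝[>] (0:ℝ) := Ioc_mem_nhdsGT hs1
    filter_upwards [this] with s hs
    exact hval s hs
  exact norm_le_zero_iff.1 hle

end

end Helper12.Fac
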