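import Mathlib
import Pool.Agent.Helper12.FacTop3

/-!
# Zeros of transforms of concave functions on vertical lines (helper12)
-/

open Filter Topology Set MeasureTheory

namespace Helper12.Fac

noncomputable section

variable {A : ℝ → ℝ} {H x y : ℝ}

/-- the comparison function -/
def psi (x y h : ℝ) : ℝ := -(Real.exp (-(y * h)) * (1 - Real.cos (x * h)))

lemma psi_nonpos (x y h : ℝ) : psi x y h ≤ 0 := by
  rw [psi, neg_nonpos]
  exact mul_nonneg (Real.exp_pos _).le (by linarith [Real.cos_le_one (x * h)])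

lemma psi_cont (x y : ℝ) : Continuous (psi x y) := by unfold psi; fun_prop

/-- second difference of `psi` -/
lemma psi_second (x y h δ : ℝ) : psi x y (h + δ) + psi x y (h - δ) - 2 * psi x y h =
    (Complex.exp ((-y + x * Complex.I) * h) *
      (Complex.exp ((-y + x * Complex.I) * δ) + Complex.exp (-((-y + x * Complex.I) * δ)) - 2)).re -
    Real.exp (-(y * h)) * (Real.exp (y * δ) + Real.exp (-(y * δ)) - 2) := by
  have hpsi : ∀ t : ℝ, psi x y t = (Complex.exp ((-y + x * Complex.I) * t)).re -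
      Real.exp (-(y * t)) := by
    intro t
    have e : (-y + x * Complex.I) * t = ((-(y * t) : ℝ) : ℂ) + ((x * t : ℝ) : ℂ) * Complex.I := by
      push_cast
      ring
    rw [e, Complex.exp_add, ← Complex.ofReal_exp, Complex.re_ofReal_mul,
      Complex.exp_ofReal_mul_I_re, psi]
    ring
  have e1 : Complex.exp ((-y + x * Complex.I) * h) *
      (Complex.exp ((-y + x * Complex.I) * δ) + Complex.exp (-((-y + x * Complex.I) * δ)) - 2) =
      Complex.exp ((-y + x * Complex.I) * ((h + δ : ℝ) : ℂ)) +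
      Complex.exp ((-y + x * Complex.I) * ((h - δ : ℝ) : ℂ)) -
      2 * Complex.exp ((-y + x * Complex.I) * h) := by
    have f1 : Complex.exp ((-y + x * Complex.I) * ((h + δ : ℝ) : ℂ)) =
        Complex.exp ((-y + x * Complex.I) * h) * Complex.exp ((-y + x * Complex.I) * δ) := by
      rw [← Complex.exp_add]
      congr 1
      push_cast
      ring
    have f2 : Complex.exp ((-y + x * Complex.I) * ((h - δ : ℝ) : ℂ)) =
        Complex.exp ((-y + x * Complex.I) * h) * Complex.exp (-((-y + x * Complex.I) * δ)) := by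
      rw [← Complex.exp_add]
      congr 1
      push_cast
      ring
    rw [f1, f2]
    ring
  have e2 : Real.exp (-(y * h)) * (Real.exp (y * δ) + Real.exp (-(y * δ)) - 2) =
      Real.exp (-(y * (h - δ))) + Real.exp (-(y * (h + δ))) - 2 * Real.exp (-(y * h)) := by
    have f1 : Real.exp (-(y * (h - δ))) = Real.exp (-(y * h)) * Real.exp (y * δ) := by
      rw [← Real.exp_add]
      congr 1
      ring
    have f2 : Real.exp (-(y * (h + δ))) = Real.exp (-(y * h)) * Real.exp (-(y * δ)) := by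
      rw [← Real.exp_add]
      congr 1
      ring
    rw [f1, f2]
    ring
  rw [e1, e2, hpsi, hpsi, hpsi]
  simp only [Complex.sub_re, Complex.add_re, Complex.mul_re, Complex.re_ofNat, Complex.im_ofNat,
    zero_mul, sub_zero]
  ring

/-- quadratic smallness of `psi` near `0` -/
lemma psi_small (x y h : ℝ) {Y : ℝ} (hY : |y * h| ≤ Y) :
    |psi x y h| ≤ Real.exp Y * (x ^ 2 * h ^ 2 / 2) := by
  rw [psi, abs_neg, abs_mul, abs_of_pos (Real.exp_pos _)]
  have h1 : 0 ≤ 1 - Real.cos (x * h) := by linarith [Real.cos_le_one (x * h)]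
  rw [abs_of_nonneg h1]
  have h2 : 1 - Real.cos (x * h) ≤ x ^ 2 * h ^ 2 / 2 := by
    have := Real.one_sub_sq_div_two_le_cos (x := x * h)
    nlinarith
  have h3 : Real.exp (-(y * h)) ≤ Real.exp Y := Real.exp_le_exp.2 (by
    have := (abs_le.1 hY).1
    linarith)
  gcongr

/-- second differences of a concave function against a nonpositive function vanishing to second
order at both ends -/
lemma second_diff_ge {ψ : ℝ → ℝ} (hψc : Continuous ψ) (hψ : ∀ h, ψ h ≤ 0) {Cψ M δ : ℝ}
    (hsm : ∀ h ∈ Icc 0 H, |ψ h| ≤ Cψ * h ^ 2 ∧ |ψ h| ≤ Cψ * (H - h) ^ 2)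
    (hAc : Continuous A) (hA : ConcaveOn ℝ (Icc 0 H) A) (hM : ∀ h ∈ Icc 0 H, |A h| ≤ M)
    (hC : 0 ≤ Cψ) (hδ : 0 < δ) (hδH : 4 * δ ≤ H) :
    -(32 * M * Cψ * δ ^ 3) ≤ ∫ h in δ..(H - δ), A h * (ψ (h + δ) + ψ (h - δ) - 2 * ψ h) := by
  have hM0 : 0 ≤ M := (abs_nonneg _).trans (hM 0 ⟨le_rfl, by linarith⟩)
  have c1 : Continuous fun h => A (h - δ) * ψ h := by fun_prop
  have c2 : Continuous fun h => A (h + δ) * ψ h := by fun_prop
  have c3 : Continuous fun h => A h * ψ h := by fun_prop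
  have I1 : ∫ h in δ..(H - δ), A h * ψ (h + δ) = ∫ h in (2 * δ)..H, A (h - δ) * ψ h := by
    have := intervalIntegral.integral_comp_add_right (a := δ) (b := H - δ)
      (fun h => A (h - δ) * ψ h) δ
    simp only [add_sub_cancel_right] at this
    rw [this]
    congr 1
    · ring
    · ring
  have I2 : ∫ h in δ..(H - δ), A h * ψ (h - δ) = ∫ h in (0:ℝ)..(H - 2 * δ), A (h + δ) * ψ h := by
    have := intervalIntegral.integral_comp_sub_right (a := δ) (b := H - δ)
      (fun h => A (h + δ) * ψ h) δ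
    simp only [sub_add_cancel] at this
    rw [this]
    congr 1
    · ring
    · ring
  have S1 : ∫ h in (2 * δ)..H, A (h - δ) * ψ h = (∫ h in (2 * δ)..(H - 2 * δ), A (h - δ) * ψ h) +
      ∫ h in (H - 2 * δ)..H, A (h - δ) * ψ h :=
    (intervalIntegral.integral_add_adjacent_intervals (c1.intervalIntegrable _ _)
      (c1.intervalIntegrable _ _)).symm
  have S2 : ∫ h in (0:ℝ)..(H - 2 * δ), A (h + δ) * ψ h = (∫ h in (0:ℝ)..(2 * δ), A (h + δ) * ψ h) +
      ∫ h in (2 * δ)..(H - 2 * δ), A (h + δ) * ψ h :=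
    (intervalIntegral.integral_add_adjacent_intervals (c2.intervalIntegrable _ _)
      (c2.intervalIntegrable _ _)).symm
  have S3 : ∫ h in δ..(H - δ), A h * ψ h = (∫ h in δ..(2 * δ), A h * ψ h) +
      (∫ h in (2 * δ)..(H - 2 * δ), A h * ψ h) + ∫ h in (H - 2 * δ)..(H - δ), A h * ψ h := by
    rw [intervalIntegral.integral_add_adjacent_intervals (c3.intervalIntegrable _ _)
      (c3.intervalIntegrable _ _), intervalIntegral.integral_add_adjacent_intervals
      (c3.intervalIntegrable _ _) (c3.intervalIntegrable _ _)]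
  have hmain : 0 ≤ ∫ h in (2 * δ)..(H - 2 * δ), (A (h - δ) * ψ h + A (h + δ) * ψ h -
      2 * (A h * ψ h)) := by
    apply intervalIntegral.integral_nonneg (by linarith)
    intro h hh
    have hk := hA.2 (x := h - δ) ⟨by linarith [hh.1], by linarith [hh.2]⟩ (y := h + δ)
      ⟨by linarith [hh.1], by linarith [hh.2]⟩ (show (0:ℝ) ≤ 1/2 by norm_num)
      (show (0:ℝ) ≤ 1/2 by norm_num) (by norm_num)
    simp only [smul_eq_mul] at hk
    have e : 1/2 * (h - δ) + 1/2 * (h + δ) = h := by ring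
    rw [e] at hk
    have h1 : A (h - δ) * ψ h + A (h + δ) * ψ h - 2 * (A h * ψ h) =
        (2 * A h - A (h - δ) - A (h + δ)) * (-ψ h) := by ring
    rw [h1]
    exact mul_nonneg (by linarith) (by linarith [hψ h])
  have hsplit : ∫ h in (2 * δ)..(H - 2 * δ), (A (h - δ) * ψ h + A (h + δ) * ψ h -
      2 * (A h * ψ h)) = (∫ h in (2 * δ)..(H - 2 * δ), A (h - δ) * ψ h) +
      (∫ h in (2 * δ)..(H - 2 * δ), A (h + δ) * ψ h) -
      2 * ∫ h in (2 * δ)..(H - 2 * δ), A h * ψ h := by
    rw [intervalIntegral.integral_sub ((c1.intervalIntegrable _ _).add (c2.intervalIntegrable _ _))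
      ((c3.intervalIntegrable _ _).const_mul 2), intervalIntegral.integral_add
      (c1.intervalIntegrable _ _) (c2.intervalIntegrable _ _),
      intervalIntegral.integral_const_mul]
  -- boundary terms
  have hb : ∀ (a b : ℝ) (F : ℝ → ℝ), a ≤ b → b - a ≤ 2 * δ →
      (∀ h ∈ Icc a b, |F h| ≤ 4 * M * Cψ * δ ^ 2) →
      |∫ h in a..b, F h| ≤ 4 * M * Cψ * δ ^ 2 * (b - a) := by
    intro a b F hab _ hF
    have := intervalIntegral.norm_integral_le_of_norm_le_const (a := a) (b := b) (f := F)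
      (C := 4 * M * Cψ * δ ^ 2) (fun h hh => by
        rw [uIoc_of_le hab] at hh
        exact hF h ⟨hh.1.le, hh.2⟩)
    rwa [abs_of_nonneg (sub_nonneg.2 hab)] at this
  have hψl : ∀ h ∈ Icc 0 (2 * δ), |ψ h| ≤ Cψ * (4 * δ ^ 2) := by
    intro h hh
    refine (hsm h ⟨hh.1, by linarith [hh.2]⟩).1.trans ?_
    have : h ^ 2 ≤ 4 * δ ^ 2 := by nlinarith [hh.1, hh.2]
    gcongr
  have hψr : ∀ h ∈ Icc (H - 2 * δ) H, |ψ h| ≤ Cψ * (4 * δ ^ 2) := by
    intro h hh
    refine (hsm h ⟨by linarith [hh.1], hh.2⟩).2.trans ?_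
    have : (H - h) ^ 2 ≤ 4 * δ ^ 2 := by nlinarith [hh.1, hh.2]
    gcongr
  have hprod : ∀ a b : ℝ, |a| ≤ M → |b| ≤ Cψ * (4 * δ ^ 2) → |a * b| ≤ 4 * M * Cψ * δ ^ 2 := by
    intro a b ha hb
    rw [abs_mul]
    calc |a| * |b| ≤ M * (Cψ * (4 * δ ^ 2)) := by gcongr
      _ = 4 * M * Cψ * δ ^ 2 := by ring
  have B1 := hb (H - 2 * δ) H (fun h => A (h - δ) * ψ h) (by linarith) (by linarith)
    (fun h hh => hprod _ _ (hM _ ⟨by linarith [hh.1], by linarith [hh.2]⟩) (hψr h hh))
  have B2 := hb 0 (2 * δ) (fun h => A (h + δ) * ψ h) (by linarith) (by linarith)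
    (fun h hh => hprod _ _ (hM _ ⟨by linarith [hh.1], by linarith [hh.2]⟩) (hψl h hh))
  have B3 := hb δ (2 * δ) (fun h => A h * ψ h) (by linarith) (by linarith)
    (fun h hh => hprod _ _ (hM _ ⟨by linarith [hh.1], by linarith [hh.2]⟩)
      (hψl h ⟨by linarith [hh.1], hh.2⟩))
  have B4 := hb (H - 2 * δ) (H - δ) (fun h => A h * ψ h) (by linarith) (by linarith)
    (fun h hh => hprod _ _ (hM _ ⟨by linarith [hh.1], by linarith [hh.2]⟩)
      (hψr h ⟨hh.1, by linarith [hh.2]⟩))
  have htot : ∫ h in δ..(H - δ), A h * (ψ (h + δ) + ψ (h - δ) - 2 * ψ h) =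
      (∫ h in δ..(H - δ), A h * ψ (h + δ)) + (∫ h in δ..(H - δ), A h * ψ (h - δ)) -
      2 * ∫ h in δ..(H - δ), A h * ψ h := by
    have d1 : Continuous fun h => A h * ψ (h + δ) := by fun_prop
    have d2 : Continuous fun h => A h * ψ (h - δ) := by fun_prop
    rw [← intervalIntegral.integral_const_mul, ← intervalIntegral.integral_add
      (d1.intervalIntegrable _ _) (d2.intervalIntegrable _ _), ← intervalIntegral.integral_sub
      ((d1.intervalIntegrable _ _).add (d2.intervalIntegrable _ _))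
      ((c3.intervalIntegrable _ _).const_mul 2)]
    congr 1
    ext h
    ring
  rw [htot, I1, I2, S1, S2, S3]
  rw [hsplit] at hmain
  have k1 := (abs_le.1 B1).1
  have k2 := (abs_le.1 B2).1
  have k3 := (abs_le.1 B3).2
  have k4 := (abs_le.1 B4).2
  have e1 : H - (H - 2 * δ) = 2 * δ := by ring
  have e2 : 2 * δ - 0 = 2 * δ := by ring
  have e3 : 2 * δ - δ = δ := by ring
  have e4 : H - δ - (H - 2 * δ) = δ := by ring
  rw [e1] at k1
  rw [e2] at k2
  rw [e3] at k3
  rw [e4] at k4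
  linarith

lemma cosh_ge (t : ℝ) : t ^ 2 ≤ Real.exp t + Real.exp (-t) - 2 := by
  have key : ∀ t : ℝ, 0 ≤ t → t ^ 2 ≤ Real.exp t + Real.exp (-t) - 2 := by
    intro t ht
    have h1 : t / 2 ≤ Real.sinh (t / 2) := Real.self_le_sinh_iff.2 (by linarith)
    rw [Real.sinh_eq] at h1
    have h2 : t ≤ Real.exp (t / 2) - Real.exp (-(t / 2)) := by linarith
    have h3 : t ^ 2 ≤ (Real.exp (t / 2) - Real.exp (-(t / 2))) ^ 2 := pow_le_pow_left₀ ht h2 2
    have e1 : Real.exp (t / 2) * Real.exp (t / 2) = Real.exp t := by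
      rw [← Real.exp_add]
      congr 1
      ring
    have e2 : Real.exp (-(t / 2)) * Real.exp (-(t / 2)) = Real.exp (-t) := by
      rw [← Real.exp_add]
      congr 1
      ring
    have e3 : Real.exp (t / 2) * Real.exp (-(t / 2)) = 1 := by
      rw [← Real.exp_add]
      simp
    nlinarith
  rcases le_total 0 t with h | h
  · exact key t h
  · have := key (-t) (by linarith)
    rw [neg_neg] at this
    nlinarith

lemma cexp_second_le (u : ℂ) : ‖Complex.exp u + Complex.exp (-u) - 2‖ ≤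
    2 * ‖u‖ ^ 2 * Real.exp ‖u‖ := by
  have h1 := Complex.norm_exp_sub_sum_le_norm_mul_exp u 2
  have h2 := Complex.norm_exp_sub_sum_le_norm_mul_exp (-u) 2
  rw [norm_neg] at h2
  have f1 : ∀ v : ℂ, ∑ m ∈ Finset.range 2, v ^ m / (m.factorial : ℂ) = 1 + v := by
    intro v
    rw [Finset.sum_range_succ, Finset.sum_range_succ, Finset.sum_range_zero]
    simp
  rw [f1] at h1 h2
  have e : Complex.exp u + Complex.exp (-u) - 2 =
      (Complex.exp u - (1 + u)) + (Complex.exp (-u) - (1 + -u)) := by ring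
  rw [e]
  refine (norm_add_le _ _).trans ?_
  linarith

/-- zeros off the real axis do not lie on the lines `exp (i x H) = 1` -/
theorem zero_line_cont (hH : 0 < H) (hAc : Continuous A) (hA : ConcaveOn ℝ (Icc 0 H) A)
    (hpos : ∀ h ∈ Ioo 0 H, 0 < A h) (hx : Real.cos (x * H) = 1) (hy : y ≠ 0) :
    ∫ h in (0:ℝ)..H, (A h : ℂ) * Complex.exp ((-y + x * Complex.I) * h) ≠ 0 := by
  intro hG
  set W : ℂ := -y + x * Complex.I with hW
  obtain ⟨M, hM⟩ := isCompact_Icc.exists_bound_of_continuousOn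
    (hAc.continuousOn (s := Icc 0 H))
  simp only [Real.norm_eq_abs] at hM
  have hM0 : 0 ≤ M := (abs_nonneg _).trans (hM 0 ⟨le_rfl, hH.le⟩)
  have hsin : Real.sin (x * H) = 0 := by
    have := Real.sin_sq_add_cos_sq (x * H)
    rw [hx] at this
    nlinarith
  set Y : ℝ := |y| * H with hY
  have hY0 : 0 ≤ Y := by positivity
  have hyh : ∀ h ∈ Icc 0 H, |y * h| ≤ Y := by
    intro h hh
    rw [abs_mul, abs_of_nonneg hh.1, hY]
    exact mul_le_mul_of_nonneg_left hh.2 (abs_nonneg _)
  set Cψ : ℝ := Real.exp Y * (x ^ 2 / 2) with hCψ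
  have hC0 : 0 ≤ Cψ := by positivity
  have hsm : ∀ h ∈ Icc 0 H, |psi x y h| ≤ Cψ * h ^ 2 ∧ |psi x y h| ≤ Cψ * (H - h) ^ 2 := by
    intro h hh
    constructor
    · refine (psi_small x y h (hyh h hh)).trans (le_of_eq ?_)
      rw [hCψ]
      ring
    · have hcos : Real.cos (x * h) = Real.cos (x * (H - h)) := by
        have : x * h = x * H - x * (H - h) := by ring
        rw [this, Real.cos_sub, hx, hsin]
        ring
      rw [psi, abs_neg, abs_mul, abs_of_pos (Real.exp_pos _), hcos]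
      have h1 : 0 ≤ 1 - Real.cos (x * (H - h)) := by linarith [Real.cos_le_one (x * (H - h))]
      rw [abs_of_nonneg h1]
      have h2 : 1 - Real.cos (x * (H - h)) ≤ x ^ 2 / 2 * (H - h) ^ 2 := by
        have := Real.one_sub_sq_div_two_le_cos (x := x * (H - h))
        nlinarith
      have h3 : Real.exp (-(y * h)) ≤ Real.exp Y := Real.exp_le_exp.2 (by
        have := (abs_le.1 (hyh h hh)).1
        linarith)
      rw [hCψ, mul_assoc]
      gcongr
  -- positive constant
  have hgc : Continuous fun h : ℝ => A h * Real.exp (-(y * h)) := by fun_prop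
  set c0 : ℝ := ∫ h in (H/4)..(3*H/4), A h * Real.exp (-(y * h)) with hc0
  have hc0pos : 0 < c0 := by
    apply intervalIntegral.intervalIntegral_pos_of_pos_on (hgc.intervalIntegrable _ _)
    · intro h hh
      exact mul_pos (hpos h ⟨by linarith [hh.1], by linarith [hh.2]⟩) (Real.exp_pos _)
    · linarith
  have hFc : Continuous fun h : ℝ => (A h : ℂ) * Complex.exp (W * h) := by fun_prop
  have hFn : ∀ h ∈ Icc 0 H, ‖(A h : ℂ) * Complex.exp (W * h)‖ ≤ M * Real.exp Y := by
    intro h hh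
    rw [norm_mul, Complex.norm_real, Real.norm_eq_abs, Complex.norm_exp]
    have e : (W * h).re = -(y * h) := by
      rw [hW]
      simp
    rw [e]
    have h3 : Real.exp (-(y * h)) ≤ Real.exp Y := Real.exp_le_exp.2 (by
      have := (abs_le.1 (hyh h hh)).1
      linarith)
    exact mul_le_mul (hM h hh) h3 (Real.exp_pos _).le hM0
  -- main inequality
  have key : ∀ δ : ℝ, 0 < δ → 4 * δ ≤ H → δ * ‖W‖ ≤ 1 →
      y ^ 2 * δ ^ 2 * c0 ≤ (32 * M * Cψ + 2 * ‖W‖ ^ 2 * Real.exp 1 * (2 * (M * Real.exp Y))) *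
        δ ^ 3 := by
    intro δ hδ hδH hδW
    have h1 := second_diff_ge (psi_cont x y) (psi_nonpos x y) hsm hAc hA hM hC0 hδ hδH
    set E : ℂ := Complex.exp (W * δ) + Complex.exp (-(W * δ)) - 2 with hE
    set e : ℝ := Real.exp (y * δ) + Real.exp (-(y * δ)) - 2 with he
    have h2 : ∫ h in δ..(H - δ), A h * (psi x y (h + δ) + psi x y (h - δ) - 2 * psi x y h) =
        (E * ∫ h in δ..(H - δ), (A h : ℂ) * Complex.exp (W * h)).re -
        e * ∫ h in δ..(H - δ), A h * Real.exp (-(y * h)) := by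
      rw [← intervalIntegral.integral_const_mul, ← intervalIntegral.integral_const_mul]
      have hre : (∫ h in δ..(H - δ), E * ((A h : ℂ) * Complex.exp (W * h))).re =
          ∫ h in δ..(H - δ), (E * ((A h : ℂ) * Complex.exp (W * h))).re := by
        have := intervalIntegral.intervalIntegral_re
          (f := fun h : ℝ => E * ((A h : ℂ) * Complex.exp (W * h))) (a := δ) (b := H - δ)
          (μ := volume) ((hFc.const_mul E).intervalIntegrable _ _)
        simpa using this.symm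
      rw [hre, ← intervalIntegral.integral_sub]
      · congr 1
        ext h
        rw [psi_second]
        have e1 : E * ((A h : ℂ) * Complex.exp (W * h)) =
            (A h : ℂ) * (Complex.exp (W * h) * E) := by ring
        rw [e1, Complex.re_ofReal_mul, hE, hW]
        ring
      · exact (Complex.continuous_re.comp (hFc.const_mul E)).intervalIntegrable _ _
      · exact (hgc.const_mul e).intervalIntegrable _ _
    have h3 : ‖∫ h in δ..(H - δ), (A h : ℂ) * Complex.exp (W * h)‖ ≤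
        2 * (M * Real.exp Y) * δ := by
      have s1 : ∫ h in (0:ℝ)..H, (A h : ℂ) * Complex.exp (W * h) =
          (∫ h in (0:ℝ)..δ, (A h : ℂ) * Complex.exp (W * h)) +
          (∫ h in δ..(H - δ), (A h : ℂ) * Complex.exp (W * h)) +
          ∫ h in (H - δ)..H, (A h : ℂ) * Complex.exp (W * h) := by
        rw [intervalIntegral.integral_add_adjacent_intervals (hFc.intervalIntegrable _ _)
          (hFc.intervalIntegrable _ _), intervalIntegral.integral_add_adjacent_intervals
          (hFc.intervalIntegrable _ _) (hFc.intervalIntegrable _ _)]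
      rw [hG] at s1
      have s2 : ∫ h in δ..(H - δ), (A h : ℂ) * Complex.exp (W * h) =
          -((∫ h in (0:ℝ)..δ, (A h : ℂ) * Complex.exp (W * h)) +
          ∫ h in (H - δ)..H, (A h : ℂ) * Complex.exp (W * h)) := by
        linear_combination -s1
      rw [s2, norm_neg]
      have b1 := intervalIntegral.norm_integral_le_of_norm_le_const (a := 0) (b := δ)
        (f := fun h : ℝ => (A h : ℂ) * Complex.exp (W * h)) (C := M * Real.exp Y) (fun h hh => by
          rw [uIoc_of_le hδ.le] at hh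
          exact hFn h ⟨hh.1.le, by linarith [hh.2]⟩)
      have b2 := intervalIntegral.norm_integral_le_of_norm_le_const (a := H - δ) (b := H)
        (f := fun h : ℝ => (A h : ℂ) * Complex.exp (W * h)) (C := M * Real.exp Y) (fun h hh => by
          rw [uIoc_of_le (by linarith)] at hh
          exact hFn h ⟨by linarith [hh.1], hh.2⟩)
      rw [sub_zero, abs_of_pos hδ] at b1
      have e1 : H - (H - δ) = δ := by ring
      rw [e1, abs_of_pos hδ] at b2
      refine (norm_add_le _ _).trans ?_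
      linarith
    have h4 : ‖E‖ ≤ 2 * ‖W‖ ^ 2 * Real.exp 1 * δ ^ 2 := by
      refine (cexp_second_le (W * δ)).trans ?_
      rw [norm_mul, Complex.norm_real, Real.norm_eq_abs, abs_of_pos hδ]
      have : Real.exp (‖W‖ * δ) ≤ Real.exp 1 := Real.exp_le_exp.2 (by linarith)
      calc 2 * (‖W‖ * δ) ^ 2 * Real.exp (‖W‖ * δ) ≤ 2 * (‖W‖ * δ) ^ 2 * Real.exp 1 := by gcongr
        _ = 2 * ‖W‖ ^ 2 * Real.exp 1 * δ ^ 2 := by ring
    have h5 : (E * ∫ h in δ..(H - δ), (A h : ℂ) * Complex.exp (W * h)).re ≤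
        2 * ‖W‖ ^ 2 * Real.exp 1 * (2 * (M * Real.exp Y)) * δ ^ 3 := by
      refine (Complex.re_le_norm _).trans ?_
      rw [norm_mul]
      calc ‖E‖ * ‖∫ h in δ..(H - δ), (A h : ℂ) * Complex.exp (W * h)‖
          ≤ (2 * ‖W‖ ^ 2 * Real.exp 1 * δ ^ 2) * (2 * (M * Real.exp Y) * δ) := by gcongr
        _ = _ := by ring
    have h6 : y ^ 2 * δ ^ 2 ≤ e := by
      have := cosh_ge (y * δ)
      rw [he]
      linarith [mul_pow y δ 2]
    have h7 : c0 ≤ ∫ h in δ..(H - δ), A h * Real.exp (-(y * h)) := by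
      apply intervalIntegral.integral_mono_interval (by linarith) (by linarith) (by linarith)
      · refine (ae_restrict_mem measurableSet_Ioc).mono (fun h hh => ?_)
        exact mul_nonneg (hpos h ⟨by linarith [hh.1], by linarith [hh.2]⟩).le (Real.exp_pos _).le
      · exact hgc.intervalIntegrable _ _
    have h8 : y ^ 2 * δ ^ 2 * c0 ≤ e * ∫ h in δ..(H - δ), A h * Real.exp (-(y * h)) := by
      apply mul_le_mul h6 h7 hc0pos.le
      exact (by positivity : 0 ≤ y ^ 2 * δ ^ 2).trans h6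
    rw [h2] at h1
    linarith
  -- conclusion
  set C : ℝ := 32 * M * Cψ + 2 * ‖W‖ ^ 2 * Real.exp 1 * (2 * (M * Real.exp Y)) with hC
  have hCnn : 0 ≤ C := by positivity
  have hy2 : 0 < y ^ 2 * c0 := by positivity
  set δ : ℝ := min (H/4) (min (1/(‖W‖ + 1)) (y ^ 2 * c0 / (2 * (C + 1)))) with hδ
  have hδ0 : 0 < δ := by positivity
  have k1 : δ ≤ H/4 := min_le_left _ _
  have k2 : δ ≤ 1/(‖W‖ + 1) := (min_le_right _ _).trans (min_le_left _ _)
  have k3 : δ ≤ y ^ 2 * c0 / (2 * (C + 1)) := (min_le_right _ _).trans (min_le_right _ _)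
  have h9 := key δ hδ0 (by linarith) (by
    calc δ * ‖W‖ ≤ 1/(‖W‖ + 1) * (‖W‖ + 1) := by
          apply mul_le_mul k2 (by linarith) (norm_nonneg _) (by positivity)
      _ = 1 := by field_simp)
  have h10 : y ^ 2 * c0 ≤ C * δ := by
    have e : y ^ 2 * δ ^ 2 * c0 = δ ^ 2 * (y ^ 2 * c0) := by ring
    have e' : C * δ ^ 3 = δ ^ 2 * (C * δ) := by ring
    rw [e, e'] at h9
    exact le_of_mul_le_mul_left h9 (by positivity)
  have h11 : C * δ ≤ (C + 1) * (y ^ 2 * c0 / (2 * (C + 1))) := by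
    apply mul_le_mul (by linarith) k3 hδ0.le (by positivity)
  have h12 : (C + 1) * (y ^ 2 * c0 / (2 * (C + 1))) = y ^ 2 * c0 / 2 := by field_simp
  linarith

/-- version for functions continuous on the interval -/
theorem zero_line (hH : 0 < H) (hAc : ContinuousOn A (Icc 0 H)) (hA : ConcaveOn ℝ (Icc 0 H) A)
    (hpos : ∀ h ∈ Ioo 0 H, 0 < A h) (hx : Real.cos (x * H) = 1) (hy : y ≠ 0) :
    ∫ h in (0:ℝ)..H, (A h : ℂ) * Complex.exp ((-y + x * Complex.I) * h) ≠ 0 := by
  set A' : ℝ → ℝ := IccExtend hH.le ((Icc 0 H).domRestrict A) with hA'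
  have heq : ∀ h ∈ Icc 0 H, A' h = A h := by
    intro h hh
    rw [hA', IccExtend_of_mem hH.le _ hh]
    rfl
  have h1 : ∫ h in (0:ℝ)..H, (A h : ℂ) * Complex.exp ((-y + x * Complex.I) * h) =
      ∫ h in (0:ℝ)..H, (A' h : ℂ) * Complex.exp ((-y + x * Complex.I) * h) := by
    apply intervalIntegral.integral_congr
    intro h hh
    rw [uIcc_of_le hH.le] at hh
    simp only [heq h hh]
  rw [h1]
  apply zero_line_cont hH
  · exact (continuousOn_iff_continuous_domRestrict.1 hAc).Icc_extend'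
  · refine ⟨convex_Icc _ _, fun a ha b hb s t hs ht hst => ?_⟩
    rw [heq a ha, heq b hb, heq _ ((convex_Icc 0 H) ha hb hs ht hst)]
    exact hA.2 ha hb hs ht hst
  · intro h hh
    rw [heq h (Ioo_subset_Icc_self hh)]
    exact hpos h hh
  · exact hx
  · exact hy

end

end Helper12.Fac
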