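import Mathlib
import Pool.Agent.Helper12.FacZ

/-!
# Real zeros on the vertical lines force an affine piece (helper12)
-/

open Filter Topology Set MeasureTheory

namespace Helper12.Fac

noncomputable section

variable {A B : ℝ → ℝ} {H x τ : ℝ}

/-- one period -/
lemma period (hτ : 0 < τ) (hBc : Continuous B) (hB : ConcaveOn ℝ (Icc 0 τ) B) :
    ∫ u in (0:ℝ)..τ, B u * Real.cos (2 * Real.pi / τ * u) ≤ 0 ∧
    (∫ u in (0:ℝ)..τ, B u * Real.cos (2 * Real.pi / τ * u) = 0 → B 0 + B τ = 2 * B (τ/2)) := by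
  set c : ℝ → ℝ := fun u => Real.cos (2 * Real.pi / τ * u) with hc
  have hcc : Continuous c := by fun_prop
  have hBcc : Continuous fun u => B u * c u := hBc.mul hcc
  have c1 : ∀ u, c (τ/2 - u) = -c u := by
    intro u
    rw [hc]
    simp only
    have : 2 * Real.pi / τ * (τ/2 - u) = Real.pi - 2 * Real.pi / τ * u := by
      field_simp
    rw [this, Real.cos_pi_sub]
  have c2 : ∀ u, c (u + τ/2) = -c u := by
    intro u
    rw [hc]
    simp only
    have : 2 * Real.pi / τ * (u + τ/2) = 2 * Real.pi / τ * u + Real.pi := by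
      field_simp
    rw [this, Real.cos_add_pi]
  have c3 : ∀ u, c (τ - u) = c u := by
    intro u
    rw [hc]
    simp only
    have : 2 * Real.pi / τ * (τ - u) = 2 * Real.pi - 2 * Real.pi / τ * u := by
      field_simp
    rw [this, Real.cos_two_pi_sub]
  have i2 : ∫ u in (τ/4)..(τ/2), B u * c u = ∫ u in (0:ℝ)..(τ/4), -(B (τ/2 - u) * c u) := by
    have := intervalIntegral.integral_comp_sub_left (a := 0) (b := τ/4)
      (fun u => B u * c u) (τ/2)
    simp only [c1] at this
    have e : τ/2 - τ/4 = τ/4 := by ring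
    rw [e, sub_zero] at this
    rw [← this]
    congr 1
    ext u
    ring
  have i3 : ∫ u in (τ/2)..(3*τ/4), B u * c u = ∫ u in (0:ℝ)..(τ/4), -(B (u + τ/2) * c u) := by
    have := intervalIntegral.integral_comp_add_right (a := 0) (b := τ/4)
      (fun u => B u * c u) (τ/2)
    simp only [c2] at this
    have e : τ/4 + τ/2 = 3*τ/4 := by ring
    rw [e, zero_add] at this
    rw [← this]
    congr 1
    ext u
    ring
  have i4 : ∫ u in (3*τ/4)..τ, B u * c u = ∫ u in (0:ℝ)..(τ/4), B (τ - u) * c u := by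
    have := intervalIntegral.integral_comp_sub_left (a := 0) (b := τ/4)
      (fun u => B u * c u) τ
    simp only [c3] at this
    have e : τ - τ/4 = 3*τ/4 := by ring
    rw [e, sub_zero] at this
    rw [← this]
  have d1 : Continuous fun u => B u * c u := hBcc
  have d2 : Continuous fun u => -(B (τ/2 - u) * c u) := by fun_prop
  have d3 : Continuous fun u => -(B (u + τ/2) * c u) := by fun_prop
  have d4 : Continuous fun u => B (τ - u) * c u := by fun_prop
  have htot : ∫ u in (0:ℝ)..τ, B u * c u = ∫ u in (0:ℝ)..(τ/4),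
      (B u + B (τ - u) - B (τ/2 - u) - B (u + τ/2)) * c u := by
    have s : ∫ u in (0:ℝ)..τ, B u * c u = (∫ u in (0:ℝ)..(τ/4), B u * c u) +
        (∫ u in (τ/4)..(τ/2), B u * c u) + (∫ u in (τ/2)..(3*τ/4), B u * c u) +
        ∫ u in (3*τ/4)..τ, B u * c u := by
      rw [intervalIntegral.integral_add_adjacent_intervals (d1.intervalIntegrable _ _)
        (d1.intervalIntegrable _ _), intervalIntegral.integral_add_adjacent_intervals
        (d1.intervalIntegrable _ _) (d1.intervalIntegrable _ _),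
        intervalIntegral.integral_add_adjacent_intervals
        (d1.intervalIntegrable _ _) (d1.intervalIntegrable _ _)]
    have d12 : Continuous fun u => B u * c u + -(B (τ/2 - u) * c u) := d1.add d2
    have d123 : Continuous fun u => B u * c u + -(B (τ/2 - u) * c u) +
      -(B (u + τ/2) * c u) := d12.add d3
    rw [s, i2, i3, i4, ← intervalIntegral.integral_add (d1.intervalIntegrable _ _)
      (d2.intervalIntegrable _ _), ← intervalIntegral.integral_add
      (d12.intervalIntegrable _ _) (d3.intervalIntegrable _ _),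
      ← intervalIntegral.integral_add
      (d123.intervalIntegrable _ _) (d4.intervalIntegrable _ _)]
    congr 1
    ext u
    ring
  have hD : ∀ u ∈ Icc 0 (τ/4), B u + B (τ - u) - B (τ/2 - u) - B (u + τ/2) ≤ 0 := by
    intro u hu
    have hp : 0 < τ - 2 * u := by linarith [hu.2]
    set l : ℝ := (τ/2) / (τ - 2 * u) with hl
    have hl0 : 0 ≤ l := by positivity
    have hl1 : l ≤ 1 := by
      rw [hl, div_le_one hp]
      linarith [hu.2]
    have m1 : u ∈ Icc 0 τ := ⟨hu.1, by linarith [hu.2]⟩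
    have m2 : τ - u ∈ Icc 0 τ := ⟨by linarith [hu.2], by linarith [hu.1]⟩
    have k1 := hB.2 m1 m2 hl0 (sub_nonneg.2 hl1) (by ring)
    have k2 := hB.2 m1 m2 (sub_nonneg.2 hl1) hl0 (by ring)
    simp only [smul_eq_mul] at k1 k2
    have hlp : l * (τ - 2 * u) = τ/2 := by
      rw [hl]
      field_simp
    have e1 : l * u + (1 - l) * (τ - u) = τ/2 - u := by linear_combination -hlp
    have e2 : (1 - l) * u + l * (τ - u) = u + τ/2 := by linear_combination hlp
    rw [e1] at k1
    rw [e2] at k2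
    linarith
  have hcpos : ∀ u ∈ Icc 0 (τ/4), 0 ≤ c u := by
    intro u hu
    apply Real.cos_nonneg_of_mem_Icc
    have hpi := Real.pi_pos
    constructor
    · have : 0 ≤ 2 * Real.pi / τ * u := mul_nonneg (by positivity) hu.1
      linarith
    · calc 2 * Real.pi / τ * u ≤ 2 * Real.pi / τ * (τ/4) := by
            apply mul_le_mul_of_nonneg_left hu.2 (by positivity)
        _ = Real.pi / 2 := by
            field_simp
            ring
  have hle : ∫ u in (0:ℝ)..(τ/4), (B u + B (τ - u) - B (τ/2 - u) - B (u + τ/2)) * c u ≤ 0 := by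
    have : 0 ≤ ∫ u in (0:ℝ)..(τ/4), -((B u + B (τ - u) - B (τ/2 - u) - B (u + τ/2)) * c u) := by
      apply intervalIntegral.integral_nonneg (by linarith)
      intro u hu
      have := mul_nonneg (neg_nonneg.2 (hD u hu)) (hcpos u hu)
      linarith
    rw [intervalIntegral.integral_neg] at this
    linarith
  refine ⟨by rw [htot]; exact hle, fun h0 => ?_⟩
  by_contra hne
  have h1 : B 0 + B τ - B (τ/2) - B (τ/2) < 0 := by
    have h2 := hD 0 ⟨le_rfl, by linarith⟩
    rw [sub_zero, sub_zero, zero_add] at h2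
    rcases lt_or_eq_of_le h2 with h | h
    · exact h
    · exfalso
      apply hne
      linarith
  have h2 : 0 < ∫ u in (0:ℝ)..(τ/4), -((B u + B (τ - u) - B (τ/2 - u) - B (u + τ/2)) * c u) := by
    apply intervalIntegral.integral_pos (by linarith)
    · exact Continuous.continuousOn (by fun_prop)
    · intro u hu
      have := mul_nonneg (neg_nonneg.2 (hD u ⟨hu.1.le, hu.2⟩)) (hcpos u ⟨hu.1.le, hu.2⟩)
      linarith
    · refine ⟨0, ⟨le_rfl, by linarith⟩, ?_⟩
      have e : c 0 = 1 := by
        rw [hc]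
        simp
      rw [e, mul_one, sub_zero, sub_zero, zero_add]
      linarith
  rw [intervalIntegral.integral_neg, ← htot] at h2
  rw [h0] at h2
  linarith

/-- a real zero on the vertical lines forces an affine piece at the left end -/
theorem zero_real_cont (hH : 0 < H) (hAc : Continuous A) (hA : ConcaveOn ℝ (Icc 0 H) A)
    (hx : Real.cos (x * H) = 1) (hx0 : x ≠ 0)
    (h0 : ∫ h in (0:ℝ)..H, A h * Real.cos (x * h) = 0) :
    2 * Real.pi / |x| ≤ H ∧
      A 0 + A (2 * Real.pi / |x|) = 2 * A (2 * Real.pi / |x| / 2) := by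
  have hpi := Real.pi_pos
  have hxa : 0 < |x| := abs_pos.2 hx0
  set τ : ℝ := 2 * Real.pi / |x| with hτ
  have hτ0 : 0 < τ := by positivity
  have hcosx : ∀ t, Real.cos (x * t) = Real.cos (2 * Real.pi / τ * t) := by
    intro t
    have e : 2 * Real.pi / τ = |x| := by
      rw [hτ]
      field_simp
    rw [e]
    rcases abs_choice x with h | h
    · rw [h]
    · rw [h, neg_mul, Real.cos_neg]
  rw [hcosx, Real.cos_eq_one_iff] at hx
  obtain ⟨n, hn⟩ := hx
  have hnH : (n : ℝ) * τ = H := by
    have : (n : ℝ) * (2 * Real.pi) = 2 * Real.pi / τ * H := hn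
    field_simp at this
    nlinarith
  have hn1 : 1 ≤ n := by
    have : (0:ℝ) < n := by
      by_contra hcon
      push Not at hcon
      have : (n:ℝ) * τ ≤ 0 := mul_nonpos_of_nonpos_of_nonneg hcon hτ0.le
      linarith
    exact_mod_cast this
  obtain ⟨N, rfl⟩ : ∃ N : ℕ, n = N := ⟨n.toNat, by omega⟩
  have hN1 : 1 ≤ N := by exact_mod_cast hn1
  have hNH : (N : ℝ) * τ = H := by exact_mod_cast hnH
  have hτH : τ ≤ H := by
    rw [← hNH]
    have : (1:ℝ) ≤ N := by exact_mod_cast hN1
    nlinarith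
  set c : ℝ → ℝ := fun u => Real.cos (2 * Real.pi / τ * u) with hc
  have hcc : Continuous fun h => A h * c h := by fun_prop
  have hper : ∀ j : ℕ, j < N → ∫ h in ((j:ℝ) * τ)..(((j + 1 : ℕ) : ℝ) * τ), A h * c h =
      ∫ u in (0:ℝ)..τ, A (j * τ + u) * c u := by
    intro j hj
    have := intervalIntegral.integral_comp_add_left (a := 0) (b := τ)
      (fun h => A h * c h) ((j:ℝ) * τ)
    rw [add_zero] at this
    have e : (j:ℝ) * τ + τ = ((j + 1 : ℕ) : ℝ) * τ := by
      push_cast
      ring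
    rw [e] at this
    rw [← this]
    congr 1
    ext u
    congr 1
    rw [hc]
    simp only
    have e2 : 2 * Real.pi / τ * (j * τ + u) = 2 * Real.pi / τ * u + j * (2 * Real.pi) := by
      field_simp
      ring
    rw [e2, Real.cos_add_nat_mul_two_pi]
  have hconc : ∀ j : ℕ, j < N → ConcaveOn ℝ (Icc 0 τ) (fun u => A (j * τ + u)) := by
    intro j hj
    have hm : ∀ u ∈ Icc 0 τ, (j:ℝ) * τ + u ∈ Icc 0 H := by
      intro u hu
      have hj1 : ((j:ℝ) + 1) ≤ N := by exact_mod_cast hj
      have h1 : ((j:ℝ) + 1) * τ ≤ N * τ := by gcongr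
      constructor
      · have : 0 ≤ (j:ℝ) * τ := by positivity
        linarith [hu.1]
      · linarith [hu.2]
    refine ⟨convex_Icc _ _, fun a ha b hb s t hs ht hst => ?_⟩
    have := hA.2 (hm a ha) (hm b hb) hs ht hst
    simp only [smul_eq_mul] at this ⊢
    convert this using 2
    linear_combination (-(j:ℝ) * τ) * hst
  have hle : ∀ j : ℕ, j < N →
      ∫ h in ((j:ℝ) * τ)..(((j + 1 : ℕ) : ℝ) * τ), A h * c h ≤ 0 := by
    intro j hj
    rw [hper j hj]
    exact (period hτ0 (by fun_prop) (hconc j hj)).1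
  have hsum : ∑ j ∈ Finset.range N, ∫ h in ((j:ℝ) * τ)..(((j + 1 : ℕ) : ℝ) * τ), A h * c h =
      ∫ h in (0:ℝ)..H, A h * c h := by
    have := intervalIntegral.sum_integral_adjacent_intervals (μ := volume)
      (f := fun h => A h * c h) (a := fun j : ℕ => (j:ℝ) * τ) (n := N)
      (fun k _ => hcc.intervalIntegrable _ _)
    simp only [Nat.cast_zero, zero_mul] at this
    rw [hNH] at this
    exact this
  have htot : ∫ h in (0:ℝ)..H, A h * c h = 0 := by
    rw [← h0]
    congr 1
    ext h
    rw [hcosx]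
  rw [htot] at hsum
  have hz := (Finset.sum_eq_zero_iff_of_nonpos (fun j hj => hle j (Finset.mem_range.1 hj))).1
    hsum 0 (Finset.mem_range.2 (by omega))
  rw [hper 0 (by omega)] at hz
  have hfin := (period hτ0 (by fun_prop) (hconc 0 (by omega))).2 hz
  simp only [Nat.cast_zero, zero_mul, zero_add] at hfin
  exact ⟨hτH, hfin⟩

theorem zero_real (hH : 0 < H) (hAc : ContinuousOn A (Icc 0 H)) (hA : ConcaveOn ℝ (Icc 0 H) A)
    (hx : Real.cos (x * H) = 1) (hx0 : x ≠ 0)
    (h0 : ∫ h in (0:ℝ)..H, A h * Real.cos (x * h) = 0) :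
    2 * Real.pi / |x| ≤ H ∧
      A 0 + A (2 * Real.pi / |x|) = 2 * A (2 * Real.pi / |x| / 2) := by
  set A' : ℝ → ℝ := IccExtend hH.le ((Icc 0 H).domRestrict A) with hA'
  have heq : ∀ h ∈ Icc 0 H, A' h = A h := by
    intro h hh
    rw [hA', IccExtend_of_mem hH.le _ hh]
    rfl
  have h1 : ∫ h in (0:ℝ)..H, A' h * Real.cos (x * h) = 0 := by
    refine Eq.trans ?_ h0
    apply intervalIntegral.integral_congr
    intro h hh
    rw [uIcc_of_le hH.le] at hh
    simp only [heq h hh]
  have hconc : ConcaveOn ℝ (Icc 0 H) A' := by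
    refine ⟨convex_Icc _ _, fun a ha b hb s t hs ht hst => ?_⟩
    rw [heq a ha, heq b hb, heq _ ((convex_Icc 0 H) ha hb hs ht hst)]
    exact hA.2 ha hb hs ht hst
  obtain ⟨h2, h3⟩ := zero_real_cont hH
    (continuousOn_iff_continuous_domRestrict.1 hAc).Icc_extend' hconc hx hx0 h1
  have hτ0 : 0 < 2 * Real.pi / |x| := by
    have := Real.pi_pos
    have := abs_pos.2 hx0
    positivity
  rw [← hA', heq 0 ⟨le_rfl, hH.le⟩, heq _ ⟨hτ0.le, h2⟩,
    heq _ ⟨by positivity, by linarith⟩] at h3
  exact ⟨h2, h3⟩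

/-- a concave function touching a chord at its midpoint lies below the chord's line -/
lemma slope_bound {β : ℝ → ℝ} (hβ : ConcaveOn ℝ (Icc 0 H) β) (hτ : 0 < τ) (hτH : τ ≤ H)
    (h0 : β 0 + β τ = 2 * β (τ/2)) : ∀ h ∈ Icc 0 H, β h ≤ β 0 + (β τ - β 0) / τ * h := by
  intro h hh
  have m0 : (0:ℝ) ∈ Icc 0 H := ⟨le_rfl, by linarith⟩
  have mτ : τ ∈ Icc 0 H := ⟨hτ.le, hτH⟩
  rcases le_total h (τ/2) with hle | hle
  · -- between h and τ
    have hp : 0 < τ - h := by linarith
    set l : ℝ := (τ/2) / (τ - h) with hl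
    have hl0 : 0 < l := by positivity
    have hl1 : l ≤ 1 := by
      rw [hl, div_le_one hp]
      linarith
    have k := hβ.2 hh mτ hl0.le (sub_nonneg.2 hl1) (by ring)
    simp only [smul_eq_mul] at k
    have hlp : l * (τ - h) = τ/2 := by
      rw [hl]
      field_simp
    have e1 : l * h + (1 - l) * τ = τ/2 := by linear_combination -hlp
    rw [e1] at k
    -- l * β h ≤ β (τ/2) - (1 - l) β τ
    have k2 : l * β h ≤ l * (β 0 + (β τ - β 0) / τ * h) := by
      have e2 : l * (β 0 + (β τ - β 0) / τ * h) = (β 0 + β τ)/2 - (1 - l) * β τ := by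
        have : l * h = l * τ - τ/2 := by linear_combination -hlp
        have e3 : l * ((β τ - β 0) / τ * h) = (β τ - β 0) / τ * (l * h) := by ring
        rw [mul_add, e3, this]
        field_simp
        ring
      rw [e2]
      linarith
    exact le_of_mul_le_mul_left k2 hl0
  · have hp : 0 < h := by linarith
    set l : ℝ := (τ/2) / h with hl
    have hl0 : 0 < l := by positivity
    have hl1 : l ≤ 1 := by
      rw [hl, div_le_one hp]
      linarith
    have k := hβ.2 m0 hh (sub_nonneg.2 hl1) hl0.le (by ring)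
    simp only [smul_eq_mul] at k
    have hlp : l * h = τ/2 := by
      rw [hl]
      field_simp
    have e1 : (1 - l) * 0 + l * h = τ/2 := by rw [mul_zero, zero_add, hlp]
    rw [e1] at k
    have k2 : l * β h ≤ l * (β 0 + (β τ - β 0) / τ * h) := by
      have e2 : l * (β 0 + (β τ - β 0) / τ * h) = l * β 0 + (β τ - β 0)/2 := by
        have e3 : l * ((β τ - β 0) / τ * h) = (β τ - β 0) / τ * (l * h) := by ring
        rw [mul_add, e3, hlp]
        field_simp
      rw [e2]
      linarith
    exact le_of_mul_le_mul_left k2 hl0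

/-- no zeros high up in a vertical strip -/
theorem strip_cont (hH : 0 < H) (hAc : Continuous A) (hA : ConcaveOn ℝ (Icc 0 H) A)
    (hpos : ∀ h ∈ Ioo 0 H, 0 < A h) {y h1 : ℝ} (hy : 0 ≤ y) (hh1 : 0 < h1) (hh1H : h1 ≤ H)
    (hxh : |x| * h1 ≤ Real.pi / 3) (hbig : 2 * Real.exp (-(y * (h1/2))) < (h1 / (2 * H)) ^ 2) :
    ∫ h in (0:ℝ)..H, (A h : ℂ) * Complex.exp ((-y + x * Complex.I) * h) ≠ 0 := by
  intro hG
  have hnn : ∀ h ∈ Icc 0 H, 0 ≤ A h := by
    intro h hh
    have hcl : h ∈ closure (Ioo (0:ℝ) H) := by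
      rw [closure_Ioo hH.ne]
      exact hh
    have h1 : A h ∈ closure (A '' Ioo 0 H) :=
      (hAc.continuousWithinAt).mem_closure_image hcl
    have h2 : A h ∈ closure (Ici (0:ℝ)) := by
      refine closure_mono ?_ h1
      rintro _ ⟨t, ht, rfl⟩
      exact (hpos t ht).le
    rwa [isClosed_Ici.closure_eq] at h2
  have hre : ∫ h in (0:ℝ)..H, A h * (Real.exp (-(y * h)) * Real.cos (x * h)) = 0 := by
    have hFc : Continuous fun h : ℝ => (A h : ℂ) * Complex.exp ((-y + x * Complex.I) * h) := by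
      fun_prop
    have h1 := intervalIntegral.intervalIntegral_re
      (f := fun h : ℝ => (A h : ℂ) * Complex.exp ((-y + x * Complex.I) * h)) (a := 0) (b := H)
      (μ := volume) (hFc.intervalIntegrable _ _)
    rw [hG] at h1
    simp only [RCLike.re_to_complex, Complex.zero_re] at h1
    rw [← h1]
    congr 1
    ext h
    have e : (-y + x * Complex.I) * h = ((-(y * h) : ℝ) : ℂ) + ((x * h : ℝ) : ℂ) * Complex.I := by
      push_cast
      ring
    rw [e, Complex.exp_add, ← Complex.ofReal_exp, Complex.re_ofReal_mul, Complex.re_ofReal_mul,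
      Complex.exp_ofReal_mul_I_re]
  have hgc : Continuous fun h => A h * (Real.exp (-(y * h)) * Real.cos (x * h)) := by fun_prop
  set V : ℝ := ∫ h in (0:ℝ)..H, A h with hV
  have hVpos : 0 < V := by
    apply intervalIntegral.intervalIntegral_pos_of_pos_on (hAc.intervalIntegrable _ _) hpos hH
  set θ : ℝ := h1 / (2 * H) with hθ
  have hθ0 : 0 < θ := by positivity
  have hθ1 : θ ≤ 1 := by
    rw [hθ, div_le_one (by positivity)]
    linarith
  have hθH : θ * H = h1/2 := by
    rw [hθ]
    field_simp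
  -- small end carries mass
  have hmass : θ ^ 2 * V ≤ ∫ h in (0:ℝ)..(h1/2), A h := by
    have e := intervalIntegral.integral_comp_mul_left (a := 0) (b := H) A hθ0.ne'
    rw [mul_zero, hθH, smul_eq_mul] at e
    have e2 : ∫ h in (0:ℝ)..(h1/2), A h = θ * ∫ u in (0:ℝ)..H, A (θ * u) := by
      rw [e]
      field_simp
    rw [e2, hV]
    have h2 : θ * ∫ h in (0:ℝ)..H, A h ≤ ∫ u in (0:ℝ)..H, A (θ * u) := by
      rw [← intervalIntegral.integral_const_mul]
      apply intervalIntegral.integral_mono_on hH.le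
        (Continuous.intervalIntegrable (by fun_prop) _ _)
        (Continuous.intervalIntegrable (by fun_prop) _ _)
      intro u hu
      have k := hA.2 (⟨le_rfl, hH.le⟩ : (0:ℝ) ∈ Icc 0 H) hu (sub_nonneg.2 hθ1) hθ0.le (by ring)
      simp only [smul_eq_mul, mul_zero, zero_add] at k
      have := mul_nonneg (sub_nonneg.2 hθ1) (hnn 0 ⟨le_rfl, hH.le⟩)
      linarith
    nlinarith
  -- split
  have hsplit : ∫ h in (0:ℝ)..H, A h * (Real.exp (-(y * h)) * Real.cos (x * h)) =
      (∫ h in (0:ℝ)..(h1/2), A h * (Real.exp (-(y * h)) * Real.cos (x * h))) +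
      (∫ h in (h1/2)..h1, A h * (Real.exp (-(y * h)) * Real.cos (x * h))) +
      ∫ h in h1..H, A h * (Real.exp (-(y * h)) * Real.cos (x * h)) := by
    rw [intervalIntegral.integral_add_adjacent_intervals (hgc.intervalIntegrable _ _)
      (hgc.intervalIntegrable _ _), intervalIntegral.integral_add_adjacent_intervals
      (hgc.intervalIntegrable _ _) (hgc.intervalIntegrable _ _)]
  have hcos : ∀ h ∈ Icc 0 h1, 1/2 ≤ Real.cos (x * h) := by
    intro h hh
    have h2 : |x * h| ≤ Real.pi / 3 := by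
      rw [abs_mul, abs_of_nonneg hh.1]
      exact (mul_le_mul_of_nonneg_left hh.2 (abs_nonneg x)).trans hxh
    rw [← Real.cos_abs, ← Real.cos_pi_div_three]
    apply Real.cos_le_cos_of_nonneg_of_le_pi (abs_nonneg _) _ h2
    have := Real.pi_pos
    linarith
  have p1 : 1/2 * Real.exp (-(y * (h1/2))) * (∫ h in (0:ℝ)..(h1/2), A h) ≤
      ∫ h in (0:ℝ)..(h1/2), A h * (Real.exp (-(y * h)) * Real.cos (x * h)) := by
    rw [← intervalIntegral.integral_const_mul]
    apply intervalIntegral.integral_mono_on (by linarith)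
      (Continuous.intervalIntegrable (by fun_prop) _ _) (hgc.intervalIntegrable _ _)
    intro h hh
    have m1 := hnn h ⟨hh.1, by linarith [hh.2]⟩
    have m2 := hcos h ⟨hh.1, by linarith [hh.2]⟩
    have m3 : Real.exp (-(y * (h1/2))) ≤ Real.exp (-(y * h)) := by
      apply Real.exp_le_exp.2
      nlinarith [hh.2]
    have m4 := Real.exp_pos (-(y * (h1/2)))
    calc 1/2 * Real.exp (-(y * (h1/2))) * A h = A h * (Real.exp (-(y * (h1/2))) * (1/2)) := by ring
      _ ≤ A h * (Real.exp (-(y * h)) * Real.cos (x * h)) := by gcongr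
  have p2 : 0 ≤ ∫ h in (h1/2)..h1, A h * (Real.exp (-(y * h)) * Real.cos (x * h)) := by
    apply intervalIntegral.integral_nonneg (by linarith)
    intro h hh
    have m1 := hnn h ⟨by linarith [hh.1], by linarith [hh.2]⟩
    have m2 := hcos h ⟨by linarith [hh.1], hh.2⟩
    have m4 := Real.exp_pos (-(y * h))
    have : 0 ≤ Real.cos (x * h) := by linarith
    positivity
  have p3 : -(Real.exp (-(y * h1)) * V) ≤
      ∫ h in h1..H, A h * (Real.exp (-(y * h)) * Real.cos (x * h)) := by
    have q1 : -(Real.exp (-(y * h1)) * ∫ h in h1..H, A h) ≤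
        ∫ h in h1..H, A h * (Real.exp (-(y * h)) * Real.cos (x * h)) := by
      rw [← intervalIntegral.integral_const_mul, ← intervalIntegral.integral_neg]
      apply intervalIntegral.integral_mono_on hh1H
        (Continuous.intervalIntegrable (by fun_prop) _ _) (hgc.intervalIntegrable _ _)
      intro h hh
      have m1 := hnn h ⟨by linarith [hh.1], hh.2⟩
      have m2 := Real.neg_one_le_cos (x * h)
      have m3 : Real.exp (-(y * h)) ≤ Real.exp (-(y * h1)) := by
        apply Real.exp_le_exp.2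
        nlinarith [hh.1]
      have m4 := Real.exp_pos (-(y * h))
      have m5 : A h * Real.exp (-(y * h)) ≤ A h * Real.exp (-(y * h1)) := by gcongr
      have m6 : 0 ≤ A h * Real.exp (-(y * h)) := by positivity
      nlinarith
    have q2 : ∫ h in h1..H, A h ≤ V := by
      rw [hV]
      apply intervalIntegral.integral_mono_interval hh1.le hh1H le_rfl
      · refine (ae_restrict_mem measurableSet_Ioc).mono (fun h hh => ?_)
        exact hnn h ⟨hh.1.le, hh.2⟩
      · exact hAc.intervalIntegrable _ _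
    have q3 := mul_le_mul_of_nonneg_left q2 (Real.exp_pos (-(y * h1))).le
    linarith
  have hexp : Real.exp (-(y * h1)) = Real.exp (-(y * (h1/2))) * Real.exp (-(y * (h1/2))) := by
    rw [← Real.exp_add]
    congr 1
    ring
  set E : ℝ := Real.exp (-(y * (h1/2))) with hE
  have hE0 : 0 < E := Real.exp_pos _
  have p4 : 1/2 * E * (θ ^ 2 * V) ≤ 1/2 * E * ∫ h in (0:ℝ)..(h1/2), A h := by gcongr
  have p5 : E * E * V < 1/2 * E * (θ ^ 2 * V) := by
    have : E * (2 * E) < E * θ ^ 2 := mul_lt_mul_of_pos_left hbig hE0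
    have := mul_lt_mul_of_pos_right this hVpos
    nlinarith
  rw [hexp] at p3
  rw [hre] at hsplit
  linarith

theorem strip (hH : 0 < H) (hAc : ContinuousOn A (Icc 0 H)) (hA : ConcaveOn ℝ (Icc 0 H) A)
    (hpos : ∀ h ∈ Ioo 0 H, 0 < A h) {y h1 : ℝ} (hy : 0 ≤ y) (hh1 : 0 < h1) (hh1H : h1 ≤ H)
    (hxh : |x| * h1 ≤ Real.pi / 3) (hbig : 2 * Real.exp (-(y * (h1/2))) < (h1 / (2 * H)) ^ 2) :
    ∫ h in (0:ℝ)..H, (A h : ℂ) * Complex.exp ((-y + x * Complex.I) * h) ≠ 0 := by
  set A' : ℝ → ℝ := IccExtend hH.le ((Icc 0 H).domRestrict A) with hA'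
  have heq : ∀ h ∈ Icc 0 H, A' h = A h := by
    intro h hh
    rw [hA', IccExtend_of_mem hH.le _ hh]
    rfl
  have h1 : ∫ h in (0:ℝ)..H, (A h : ℂ) * Complex.exp ((-y + x * Complex.I) * h) =
      ∫ h in (0:ℝ)..H, (A' h : ℂ) * Complex.exp ((-y + x * Complex.I) * h) := by
    apply intervalIntegral.integral_congr
    intro h hh
    rw [uIcc_of_le hH.le] at hh
    simp only [heq h hh]
  have hconc : ConcaveOn ℝ (Icc 0 H) A' := by
    refine ⟨convex_Icc _ _, fun a ha b hb s t hs ht hst => ?_⟩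
    rw [heq a ha, heq b hb, heq _ ((convex_Icc 0 H) ha hb hs ht hst)]
    exact hA.2 ha hb hs ht hst
  have hpos' : ∀ h ∈ Ioo 0 H, 0 < A' h := by
    intro h hh
    rw [heq h (Ioo_subset_Icc_self hh)]
    exact hpos h hh
  rw [h1]
  exact strip_cont hH (continuousOn_iff_continuous_domRestrict.1 hAc).Icc_extend' hconc hpos' hy
    hh1 hh1H hxh hbig

end

end Helper12.Fac
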