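import Mathlib
import Pool.Agent.Helper12.FacEsc
import Pool.Agent.Helper12.FacZ0
import Pool.Agent.Helper12.FacMain2

/-!
# Non-elliptic polynomial factors force parallelograms (helper12)
-/

open Filter Topology Set MeasureTheory

namespace Helper12.Fac

noncomputable section

variable {K : Set (ℝ × ℝ)} {P : MvPolynomial (Fin 2) ℂ} {α β : ℝ → ℝ} {H a : ℝ}

/-- shear -/
def shearSet (K : Set (ℝ × ℝ)) (s : ℝ) : Set (ℝ × ℝ) :=
  lin 1 s 0 1 (by norm_num) '' K

lemma shear_mem {s : ℝ} {x : ℝ × ℝ} (hx : x ∈ K) : (x.1 + s * x.2, x.2) ∈ shearSet K s := by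
  refine ⟨x, hx, ?_⟩
  rw [lin_apply]
  ext
  · simp
  · simp

lemma mem_shear {s : ℝ} {x : ℝ × ℝ} (hx : x ∈ shearSet K s) : (x.1 - s * x.2, x.2) ∈ K := by
  obtain ⟨y, hy, rfl⟩ := hx
  rw [lin_apply]
  simp only [one_mul, zero_mul, zero_add, add_sub_cancel_right]
  exact hy

/-- chord lengths in a sheared direction -/
def ChordData (K : Set (ℝ × ℝ)) (s a H : ℝ) (α β : ℝ → ℝ) : Prop :=
  SliceData α β H ∧
    ∀ h y, (a + h, y) ∈ shearSet K s ↔ h ∈ Icc 0 H ∧ α h ≤ y ∧ y ≤ β h

lemma exists_chordData (B : Body K) (s : ℝ) : ∃ (a H : ℝ) (α β : ℝ → ℝ), ChordData K s a H α β := by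
  have hD : (1:ℝ) * 1 - s * 0 ≠ 0 := by norm_num
  have B' := B.lin hD
  exact slices B'.cpt B'.cvx B'.int

/-- widths in two directions -/
lemma width_le {s s' a a' H H' : ℝ} {α β α' β' : ℝ → ℝ} (h1 : ChordData K s a H α β)
    (h2 : ChordData K s' a' H' α' β') {Y : ℝ} (hY : ∀ x ∈ K, |x.2| ≤ Y) :
    H ≤ H' + 2 * Y * |s - s'| := by
  obtain ⟨S, hS⟩ := h1
  obtain ⟨S', hS'⟩ := h2
  have m1 := mem_shear ((hS H (β H)).2 ⟨S.H_mem, S.le S.H_mem, le_rfl⟩)
  have m0 := mem_shear ((hS 0 (β 0)).2 ⟨S.zero_mem, S.le S.zero_mem, le_rfl⟩)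
  simp only at m1 m0
  have hb : ∀ x ∈ K, a' ≤ x.1 + s' * x.2 ∧ x.1 + s' * x.2 ≤ a' + H' := by
    intro x hx
    have h3 := shear_mem (s := s') hx
    have h4 : (a' + (x.1 + s' * x.2 - a'), x.2) ∈ shearSet K s' := by
      rwa [add_sub_cancel]
    rw [hS'] at h4
    exact ⟨by linarith [h4.1.1], by linarith [h4.1.2]⟩
  have b1 := (hb _ m1).2
  have b0 := (hb _ m0).1
  have y1 := hY _ m1
  have y0 := hY _ m0
  simp only at b1 b0 y1 y0
  have e : H = ((a + H - s * β H + s' * β H) - (a + 0 - s * β 0 + s' * β 0)) +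
      (s - s') * (β H - β 0) := by ring
  have h5 : (s - s') * (β H - β 0) ≤ |s - s'| * (2 * Y) := by
    refine (le_abs_self _).trans ?_
    rw [abs_mul]
    apply mul_le_mul_of_nonneg_left _ (abs_nonneg _)
    refine (abs_sub _ _).trans ?_
    linarith
  linarith

lemma cexp_eq (h : ℝ) (z : ℂ) : Complex.exp (Complex.I * h * z) =
    Complex.exp ((-z.im + z.re * Complex.I) * h) := by
  congr 1
  conv_lhs => rw [← Complex.re_add_im z]
  linear_combination ((h : ℂ) * z.im) * Complex.I_mul_I

/-- roots of `P` on the line give zeros of the chord transform -/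
lemma chord_zero (B : Body K) (hF : HasFac K P) {s : ℝ} (hC : ChordData K s a H α β) {z : ℂ}
    (hz : ev P z (s * z) = 0) :
    ∫ h in (0:ℝ)..H, ((β h - α h : ℝ) : ℂ) * Complex.exp ((-z.im + z.re * Complex.I) * h) = 0 := by
  obtain ⟨S, hS⟩ := hC
  have hD : (1:ℝ) * 1 - s * 0 ≠ 0 := by norm_num
  obtain ⟨f, hf, hfac⟩ := hF
  obtain ⟨κ, hκ, hT⟩ := T_lin hD
  have h1 := hT K z 0
  have e1 : ((1:ℝ) : ℂ) * z + ((0:ℝ) : ℂ) * 0 = z := by simp
  have e2 : (s : ℂ) * z + ((1:ℝ) : ℂ) * 0 = s * z := by simp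
  rw [e1, e2, hfac, hz, zero_mul] at h1
  have h2 : T (shearSet K s) z 0 = 0 := by
    rcases mul_eq_zero.1 h1.symm with h | h
    · exact absurd h hκ
    · exact h
  have h3 := T_eq (B.lin hD).cpt S hS z 0
  have h4 : T (lin 1 s 0 1 hD '' K) z 0 = 0 := h2
  rw [h4] at h3
  have h5 : Phi α β H z 0 = 0 := by
    rcases mul_eq_zero.1 h3.symm with h | h
    · exact absurd h (Complex.exp_ne_zero _)
    · exact h
  rw [Phi] at h5
  rw [← h5]
  congr 1
  ext h
  rw [G_zero, cexp_eq, mul_comm]

/-- an affine piece of the chord length at the left end gives a corner -/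
lemma corner_of_affine {s : ℝ} (hC : ChordData K s a H α β) {τ : ℝ} (hτ : 0 < τ) (hτH : τ ≤ H)
    (h0 : (β 0 - α 0) + (β τ - α τ) = 2 * (β (τ/2) - α (τ/2))) : ∃ v, CornerAt K v := by
  obtain ⟨S, hS⟩ := hC
  have hτm : τ ∈ Icc 0 H := ⟨hτ.le, hτH⟩
  have ha := S.ha.2 S.zero_mem hτm (show (0:ℝ) ≤ 1/2 by norm_num)
    (show (0:ℝ) ≤ 1/2 by norm_num) (by norm_num)
  have hb := S.hb.2 S.zero_mem hτm (show (0:ℝ) ≤ 1/2 by norm_num)
    (show (0:ℝ) ≤ 1/2 by norm_num) (by norm_num)
  simp only [smul_eq_mul, mul_zero, zero_add] at ha hb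
  have e : 1/2 * τ = τ/2 := by ring
  rw [e] at ha hb
  have hβ := slope_bound S.hb hτ hτH (by linarith)
  set m : ℝ := (β τ - β 0) / τ with hm
  have hv := mem_shear ((hS 0 (β 0)).2 ⟨S.zero_mem, S.le S.zero_mem, le_rfl⟩)
  simp only [add_zero] at hv
  have hpt : ∀ x ∈ K, a ≤ x.1 + s * x.2 ∧ x.2 ≤ β 0 + m * (x.1 + s * x.2 - a) := by
    intro x hx
    have h3 := shear_mem (s := s) hx
    have h4 : (a + (x.1 + s * x.2 - a), x.2) ∈ shearSet K s := by
      rwa [add_sub_cancel]
    rw [hS] at h4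
    exact ⟨by linarith [h4.1.1], h4.2.2.trans (hβ _ h4.1)⟩
  refine ⟨(a - s * β 0, β 0), hv, -1, -s, -m, 1 - m * s, ?_, ?_, ?_⟩
  · have : (-1:ℝ) * (1 - m * s) - (-m) * (-s) = -1 := by ring
    rw [this]
    norm_num
  · intro x hx
    have := (hpt x hx).1
    simp only
    linarith
  · intro x hx
    have := (hpt x hx).2
    simp only
    linarith

/-- the contradiction away from corners -/
theorem no_corner_case (B : Body K) (hF : HasFac K P) (hm : P.totalDegree ≠ 0)
    (h0 : top P 1 0 = 0) (hnc : ∀ v, ¬ CornerAt K v) : False := by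
  have hP : P ≠ 0 := by
    rintro rfl
    simp at hm
  have hex := exists_chordData B
  choose af Hf αf βf hC using hex
  have hHpos : ∀ s, 0 < Hf s := fun s => (hC s).1.hH
  -- continuity of the width
  obtain ⟨Y, hY⟩ : ∃ Y, ∀ x ∈ K, |x.2| ≤ Y := by
    obtain ⟨Y, hY⟩ := B.cpt.exists_bound_of_continuousOn (f := fun x : ℝ × ℝ => x.2)
      continuous_snd.continuousOn
    exact ⟨Y, fun x hx => hY x hx⟩
  have hlip : ∀ s s', |Hf s - Hf s'| ≤ 2 * Y * |s - s'| := by
    intro s s'
    rw [abs_le]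
    have h1 := width_le (hC s) (hC s') hY
    have h2 := width_le (hC s') (hC s) hY
    rw [abs_sub_comm] at h2
    constructor <;> linarith
  have hHc : Continuous Hf := by
    rw [continuous_iff_continuousAt]
    intro s'
    rw [ContinuousAt, tendsto_iff_dist_tendsto_zero]
    have h1 : Tendsto (fun s => 2 * Y * |s - s'|) (𝓝 s') (𝓝 0) := by
      have : Tendsto (fun s => 2 * Y * |s - s'|) (𝓝 s') (𝓝 (2 * Y * |s' - s'|)) :=
        Continuous.tendsto (by fun_prop) s'
      simpa using this
    refine squeeze_zero (fun _ => dist_nonneg) (fun s => ?_) h1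
    rw [Real.dist_eq]
    exact hlip s s'
  -- no roots on the lines
  have hline : ∀ (s : ℝ) (z : ℂ), ev P z (s * z) = 0 → z.re ≠ 0 →
      Real.cos (z.re * Hf s) ≠ 1 := by
    intro s z hz hre hcos
    have hzero := chord_zero B hF (hC s) hz
    have S := (hC s).1
    by_cases him : z.im = 0
    · have h1 : ∫ h in (0:ℝ)..(Hf s), (βf s h - αf s h) * Real.cos (z.re * h) = 0 := by
        have hFc : IntervalIntegrable (fun h : ℝ => ((βf s h - αf s h : ℝ) : ℂ) *
            Complex.exp ((-z.im + z.re * Complex.I) * h)) volume 0 (Hf s) := by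
          apply ContinuousOn.intervalIntegrable
          rw [uIcc_of_le S.hH.le]
          apply ContinuousOn.mul
          · exact Complex.continuous_ofReal.comp_continuousOn S.len_cont
          · exact Continuous.continuousOn (by fun_prop)
        have h2 := intervalIntegral.intervalIntegral_re hFc
        rw [hzero] at h2
        simp only [RCLike.re_to_complex, Complex.zero_re] at h2
        rw [← h2]
        congr 1
        ext h
        have e : (-z.im + z.re * Complex.I) * h = ((z.re * h : ℝ) : ℂ) * Complex.I := by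
          rw [him]
          push_cast
          ring
        rw [e, Complex.re_ofReal_mul, Complex.exp_ofReal_mul_I_re]
      obtain ⟨h2, h3⟩ := zero_real S.hH S.len_cont S.len_concave hcos hre h1
      have hτ0 : 0 < 2 * Real.pi / |z.re| := by
        have := Real.pi_pos
        have := abs_pos.2 hre
        positivity
      obtain ⟨v, hv⟩ := corner_of_affine (hC s) hτ0 h2 h3
      exact hnc v hv
    · have h1 := zero_line S.hH S.len_cont S.len_concave (fun h hh => by
        have := S.hlt h hh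
        linarith) hcos him
      exact h1 hzero
  -- strips
  have hstrip : ∀ R : ℝ, ∃ Y : ℝ, ∀ s ∈ Icc (0:ℝ) 1, ∀ z : ℂ, ev P z (s * z) = 0 → |z.re| ≤ R →
      |z.im| ≤ Y := by
    intro R
    obtain ⟨smin, hsmin, hmin⟩ := (isCompact_Icc (a := (0:ℝ)) (b := 1)).exists_isMinOn
      ⟨0, by norm_num⟩ hHc.continuousOn
    obtain ⟨smax, hsmax, hmax⟩ := (isCompact_Icc (a := (0:ℝ)) (b := 1)).exists_isMaxOn
      ⟨0, by norm_num⟩ hHc.continuousOn
    have hmin' : ∀ s ∈ Icc (0:ℝ) 1, Hf smin ≤ Hf s := fun s hs => hmin hs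
    have hmax' : ∀ s ∈ Icc (0:ℝ) 1, Hf s ≤ Hf smax := fun s hs => hmax hs
    have hpi := Real.pi_pos
    have hHmin := hHpos smin
    have hHmax := hHpos smax
    set h1 : ℝ := min (Real.pi / (3 * (|R| + 1))) (Hf smin) with hh1
    have hh10 : 0 < h1 := by positivity
    have hlim : Tendsto (fun y : ℝ => 2 * Real.exp (-(y * (h1/2)))) atTop (𝓝 0) := by
      have e1 : Tendsto (fun y : ℝ => y * (h1/2)) atTop atTop :=
        tendsto_id.atTop_mul_const (half_pos hh10)
      have e2 := (Real.tendsto_exp_neg_atTop_nhds_zero.comp e1).const_mul 2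
      simpa using e2
    have hθ : 0 < (h1 / (2 * Hf smax)) ^ 2 := by positivity
    obtain ⟨Y0, hY0⟩ := eventually_atTop.1 (hlim.eventually (gt_mem_nhds hθ))
    refine ⟨max Y0 0, fun s hs z hz hzR => ?_⟩
    have hzero := chord_zero B hF (hC s) hz
    have S := (hC s).1
    have hh1s : h1 ≤ Hf s := (min_le_right _ _).trans (hmin' s hs)
    have hxh : |z.re| * h1 ≤ Real.pi / 3 := by
      have k1 : h1 ≤ Real.pi / (3 * (|R| + 1)) := min_le_left _ _
      have k2 : |z.re| ≤ |R| + 1 := by
        have := le_abs_self R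
        linarith
      calc |z.re| * h1 ≤ (|R| + 1) * (Real.pi / (3 * (|R| + 1))) := by
            apply mul_le_mul k2 k1 hh10.le (by positivity)
        _ = Real.pi / 3 := by field_simp
    have hcmp : (h1 / (2 * Hf smax)) ^ 2 ≤ (h1 / (2 * Hf s)) ^ 2 := by
      have := hmax' s hs
      have := S.hH
      gcongr
    by_contra hcon
    push Not at hcon
    have hcon1 : Y0 < |z.im| := (le_max_left _ _).trans_lt hcon
    have hcon2 : 0 < |z.im| := (le_max_right _ _).trans_lt hcon
    rcases le_or_gt 0 z.im with him | him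
    · rw [abs_of_nonneg him] at hcon1
      exact strip S.hH S.len_cont S.len_concave (fun h hh => by
        have := S.hlt h hh
        linarith) him hh10 hh1s hxh ((hY0 z.im hcon1.le).trans_le hcmp) hzero
    · rw [abs_of_neg him] at hcon1
      have S' := S.rev
      have h3 := strip (x := -z.re) (y := -z.im) S'.hH S'.len_cont S'.len_concave (fun h hh => by
        have := S'.hlt h hh
        linarith) (by linarith) hh10 hh1s (by rwa [abs_neg]) ((hY0 (-z.im) hcon1.le).trans_le hcmp)
      apply h3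
      have h4 := intervalIntegral.integral_comp_sub_left (a := 0) (b := Hf s)
        (fun h : ℝ => ((βf s h - αf s h : ℝ) : ℂ) *
          Complex.exp ((-z.im + z.re * Complex.I) * h)) (Hf s)
      rw [sub_self, sub_zero, hzero] at h4
      have h5 : ∀ h : ℝ, ((βf s (Hf s - h) - αf s (Hf s - h) : ℝ) : ℂ) *
          Complex.exp ((-((-z.im : ℝ) : ℂ) + ((-z.re : ℝ) : ℂ) * Complex.I) * h) =
          Complex.exp (-((-z.im + z.re * Complex.I) * Hf s)) *
          (((βf s (Hf s - h) - αf s (Hf s - h) : ℝ) : ℂ) *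
            Complex.exp ((-z.im + z.re * Complex.I) * ((Hf s - h : ℝ) : ℂ))) := by
        intro h
        have e : Complex.exp ((-((-z.im : ℝ) : ℂ) + ((-z.re : ℝ) : ℂ) * Complex.I) * h) =
            Complex.exp (-((-z.im + z.re * Complex.I) * Hf s)) *
            Complex.exp ((-z.im + z.re * Complex.I) * ((Hf s - h : ℝ) : ℂ)) := by
          rw [← Complex.exp_add]
          congr 1
          push_cast
          ring
        rw [e]
        ring
      simp only [h5]
      rw [intervalIntegral.integral_const_mul, h4, mul_zero]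
  -- conclusion
  have h00 := no_escape hP hm h0 hHc hHpos hline hstrip
  obtain ⟨f, hf, hfac⟩ := hF
  have hT0 := hfac 0 0
  rw [h00, zero_mul] at hT0
  obtain ⟨a, H, α, β, S, hKs⟩ := slices B.cpt B.cvx B.int
  have h1 := T_eq B.cpt S hKs 0 0
  rw [hT0, mul_zero, Complex.exp_zero, one_mul, Phi] at h1
  have h2 : ∫ h in (0:ℝ)..H, Complex.exp (Complex.I * h * 0) * G (α h) (β h) 0 =
      ((∫ h in (0:ℝ)..H, (β h - α h) : ℝ) : ℂ) := by
    rw [← intervalIntegral.integral_ofReal]
    congr 1
    ext h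
    rw [mul_zero, Complex.exp_zero, one_mul, G_zero]
  rw [h2] at h1
  have h3 : ∫ h in (0:ℝ)..H, (β h - α h) = 0 := by exact_mod_cast h1.symm
  have h4 : 0 < ∫ h in (0:ℝ)..H, (β h - α h) := by
    apply intervalIntegral.intervalIntegral_pos_of_pos_on _ _ S.hH
    · exact ii_real S.hH.le S.len_cont
    · intro h hh
      have := S.hlt h hh
      linarith
  linarith

/-- a polynomial factor with a real characteristic direction forces a parallelogram -/
theorem nonelliptic (B : Body K) (hF : HasFac K P) (hm : P.totalDegree ≠ 0) {s t : ℝ}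
    (hst : s ≠ 0 ∨ t ≠ 0) (htop : top P s t = 0) : Para K := by
  by_cases hc : ∃ v, CornerAt K v
  · obtain ⟨v, hv⟩ := hc
    exact corner_main B hF hm hv
  · exfalso
    push Not at hc
    have hP : P ≠ 0 := by
      rintro rfl
      simp at hm
    have hD : s * s - t * (-t) ≠ 0 := by
      have : 0 < s * s - t * (-t) := by
        rcases hst with h | h
        · have := mul_self_pos.2 h
          nlinarith [mul_self_nonneg t]
        · have := mul_self_pos.2 h
          nlinarith [mul_self_nonneg s]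
      exact this.ne'
    have hDc : (s : ℂ) * s - t * ((-t : ℝ) : ℂ) ≠ 0 := by exact_mod_cast hD
    refine no_corner_case (B.lin hD) (hF.lin hD) ?_ ?_ ?_
    · rw [(top_subst hP hDc).1]
      exact hm
    · rw [(top_subst hP hDc).2]
      simpa using htop
    · rintro v ⟨⟨x, hx, rfl⟩, a1, b1, a2, b2, hdet, h1, h2⟩
      apply hc x
      refine ⟨hx, a1 * s + b1 * (-t), a1 * t + b1 * s, a2 * s + b2 * (-t), a2 * t + b2 * s,
        ?_, ?_, ?_⟩
      · have : (a1 * s + b1 * (-t)) * (a2 * t + b2 * s) - (a2 * s + b2 * (-t)) * (a1 * t + b1 * s) =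
            (a1 * b2 - a2 * b1) * (s * s - t * (-t)) := by ring
        rw [this]
        exact mul_ne_zero hdet hD
      · intro y hy
        have := h1 _ (mem_image_of_mem _ hy)
        rw [lin_apply, lin_apply] at this
        simp only at this
        linarith
      · intro y hy
        have := h2 _ (mem_image_of_mem _ hy)
        rw [lin_apply, lin_apply] at this
        simp only at this
        linarith

end

end Helper12.Fac
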