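import Mathlib
import Pool.Agent.Helper12.FacNE
import Pool.Agent.Helper12.FacBridge

/-!
# Elliptic factors only, except for parallelograms (helper12)
-/

open Filter Topology Set MeasureTheory

namespace Helper12.Fac

open Helper12.ConvexFactor

noncomputable section

lemma top_eq_eval (p : MvPolynomial (Fin 2) ℂ) (θ : Fin 2 → ℂ) :
    MvPolynomial.eval θ (MvPolynomial.homogeneousComponent p.totalDegree p) =
      top p (θ 0) (θ 1) := by
  rw [MvPolynomial.homogeneousComponent_apply, map_sum, top]
  have hf : ∀ d : Fin 2 →₀ ℕ, d.degree = d 0 + d 1 := by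
    intro d
    rw [Finsupp.degree_eq_sum, Fin.sum_univ_two]
  simp only [hf]
  refine Finset.sum_congr rfl (fun d _ => ?_)
  rw [MvPolynomial.eval_monomial, Finsupp.prod_fintype _ _ (by simp), Fin.prod_univ_two]

theorem elliptic_or_para {K : Set (Fin 2 → ℝ)} (B : IsConvexBody K) :
    (∃ p : MvPolynomial (Fin 2) ℂ, p.totalDegree ≠ 0 ∧ IsPolynomialFactor K p ∧
      ¬ IsElliptic p) ↔ IsParallelogram K := by
  constructor
  · rintro ⟨p, hdeg, hp, hell⟩
    rw [IsElliptic] at hell
    push Not at hell
    obtain ⟨θ, hθ, h0⟩ := hell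
    rw [top_eq_eval] at h0
    have hp0 : p ≠ 0 := by
      rintro rfl
      simp at hdeg
    have hD : (-1 : ℂ) * (-1) - 0 * 0 ≠ 0 := by norm_num
    rw [← para_tw]
    refine nonelliptic (body_tw B) (hasFac_tw hp) (by
      rw [(top_subst hp0 hD).1]
      exact hdeg) (s := -θ 0) (t := -θ 1) ?_ ?_
    · by_contra hcon
      push Not at hcon
      apply hθ
      ext i
      fin_cases i
      · simpa using hcon.1
      · simpa using hcon.2
    · rw [(top_subst hp0 hD).2]
      have e1 : (-1 : ℂ) * ((-θ 0 : ℝ) : ℂ) + 0 * ((-θ 1 : ℝ) : ℂ) = θ 0 := by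
        push_cast
        ring
      have e2 : (0 : ℂ) * ((-θ 0 : ℝ) : ℂ) + (-1) * ((-θ 1 : ℝ) : ℂ) = θ 1 := by
        push_cast
        ring
      rw [e1, e2]
      exact h0
  · intro hK
    obtain ⟨u1, u2, f, hu, hf, hfac⟩ := para_factor (para_tw.2 hK)
    set p : MvPolynomial (Fin 2) ℂ := MvPolynomial.C (-u1 : ℂ) * MvPolynomial.X 0 +
      MvPolynomial.C (-u2 : ℂ) * MvPolynomial.X 1 -
      MvPolynomial.C (2 * Real.pi : ℂ) with hp
    have hev : ∀ ζ : Fin 2 → ℂ, MvPolynomial.eval ζ p =
        -u1 * ζ 0 + -u2 * ζ 1 - 2 * Real.pi := by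
      intro ζ
      simp only [hp, map_add, map_sub, map_mul, MvPolynomial.eval_C, MvPolynomial.eval_X]
    have hdeg : p.totalDegree ≠ 0 := by
      intro h
      rw [MvPolynomial.totalDegree_eq_zero_iff_eq_C] at h
      have h1 : ∀ ζ : Fin 2 → ℂ, -u1 * ζ 0 + -u2 * ζ 1 - 2 * Real.pi = -(2 * Real.pi) := by
        intro ζ
        have e1 := congrArg (MvPolynomial.eval ζ) h
        have e2 := congrArg (MvPolynomial.eval (0 : Fin 2 → ℂ)) h
        rw [hev, MvPolynomial.eval_C] at e1 e2
        simp only [Pi.zero_apply, mul_zero, add_zero, zero_sub] at e2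
        rw [e1, ← e2]
      have h2 := h1 ![1, 0]
      have h3 := h1 ![0, 1]
      simp only [Matrix.cons_val_zero, Matrix.cons_val_one, Matrix.cons_val_fin_one, mul_one,
        mul_zero, add_zero, zero_add] at h2 h3
      rcases hu with h4 | h4
      · apply h4
        have : (u1 : ℂ) = 0 := by linear_combination -h2
        exact_mod_cast this
      · apply h4
        have : (u2 : ℂ) = 0 := by linear_combination -h3
        exact_mod_cast this
    have hle : p.totalDegree ≤ 1 := by
      rw [hp]
      refine (MvPolynomial.totalDegree_sub _ _).trans (max_le ?_ ?_)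
      · refine (MvPolynomial.totalDegree_add _ _).trans (max_le ?_ ?_)
        · refine (MvPolynomial.totalDegree_mul _ _).trans ?_
          rw [MvPolynomial.totalDegree_C, MvPolynomial.totalDegree_X]
        · refine (MvPolynomial.totalDegree_mul _ _).trans ?_
          rw [MvPolynomial.totalDegree_C, MvPolynomial.totalDegree_X]
      · rw [MvPolynomial.totalDegree_C]
        exact Nat.zero_le _
    have h1 : p.totalDegree = 1 := by omega
    refine ⟨p, hdeg, ⟨fun ζ => f (-ζ 0) (-ζ 1), ?_, ?_⟩, ?_⟩
    · have h1 : Differentiable ℂ (fun ζ : Fin 2 → ℂ => ((-ζ 0, -ζ 1) : ℂ × ℂ)) := by fun_prop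
      exact hf.comp h1
    · intro ζ
      rw [FT_eq, hfac, hev]
      ring
    · rw [IsElliptic]
      push Not
      refine ⟨![-u2, u1], ?_, ?_⟩
      · intro h
        have e0 := congrFun h 0
        have e1 := congrFun h 1
        simp only [Matrix.cons_val_zero, Matrix.cons_val_one, Matrix.cons_val_fin_one,
          Pi.zero_apply, neg_eq_zero] at e0 e1
        rcases hu with h4 | h4
        · exact h4 e1
        · exact h4 e0
      · rw [top_eq_eval]
        -- the top part is the limit of `p (n θ) / n`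
        have hlim := top_limit p ((-u2 : ℝ) : ℂ) ((u1 : ℝ) : ℂ)
        have hz : Tendsto (fun n : ℕ => (((n : ℝ) ^ (-(p.totalDegree : ℝ)) : ℝ) : ℂ) *
            ev p (((n : ℝ) : ℂ) * ((-u2 : ℝ) : ℂ)) (((n : ℝ) : ℂ) * ((u1 : ℝ) : ℂ))) atTop
            (𝓝 0) := by
          have e1 : ∀ n : ℕ, ev p (((n : ℝ) : ℂ) * ((-u2 : ℝ) : ℂ))
              (((n : ℝ) : ℂ) * ((u1 : ℝ) : ℂ)) = -(2 * Real.pi) := by
            intro n
            rw [ev, hev]
            simp only [Matrix.cons_val_zero, Matrix.cons_val_one, Matrix.cons_val_fin_one]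
            push_cast
            ring
          simp only [e1, h1]
          have e2 : Tendsto (fun n : ℕ => ((n : ℝ) ^ (-((1:ℕ) : ℝ)) : ℝ)) atTop (𝓝 0) :=
            (tendsto_rpow_neg_atTop (y := ((1:ℕ) : ℝ)) (by norm_num)).comp
              tendsto_natCast_atTop_atTop
          have e3 := ((Complex.continuous_ofReal.tendsto 0).comp e2).mul_const
            (-(2 * Real.pi) : ℂ)
          rw [Complex.ofReal_zero, zero_mul] at e3
          exact e3
        have := tendsto_nhds_unique hlim hz
        simpa using this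

end

end Helper12.Fac
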